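import Mathlib

/-!
# Bipartite systems in dimension three

Four endomorphisms `x i` of a vector space of dimension three, without common invariant subspaces,
cannot have partners `y i` such that `y i` commutes with `x j` if and only if `i ≠ j`.
-/

open Polynomial

namespace Pool.Agent.BraidRep

section

variable {K V : Type*} [Field K] [AddCommGroup V] [Module K V]

/-- `x` is the sum of a scalar and an endomorphism of rank at most one. -/
def Homol (x : Module.End K V) : Prop :=
  ∃ (c : K) (f : V →ₗ[K] K) (u : V), ∀ w, x w = c • w + f w • u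

/-- There is a vector which is killed only by those polynomials in `x` which are zero. -/
private theorem exists_cyc [FiniteDimensional K V] (x : Module.End K V) :
    ∃ v : V, ∀ p : K[X], aeval x p v = 0 → aeval x p = 0 := by
  obtain ⟨v, hv⟩ := Module.exists_ker_toSpanSingleton_eq_annihilator (R := K[X])
    (M := Module.AEval' x)
  refine ⟨(Module.AEval'.of x).symm v, fun p hp => ?_⟩
  have h1 : p • v = 0 := by
    have h2 : (Module.AEval'.of x).symm (p • v) = 0 := by
      rw [← hp]
      exact Module.AEval.of_symm_smul _ _ _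
    exact (LinearEquiv.map_eq_zero_iff _).1 h2
  have h2 : p ∈ Module.annihilator K[X] (Module.AEval' x) := by
    rw [← hv, LinearMap.mem_ker]
    exact h1
  ext w
  have h3 := Module.mem_annihilator.1 h2 (Module.AEval'.of x w)
  have h4 : (Module.AEval'.of x).symm (p • Module.AEval'.of x w) = 0 := by
    rw [h3]; exact map_zero _
  have h5 : (Module.AEval'.of x).symm (p • Module.AEval'.of x w) = aeval x p w := by
    rw [Module.AEval.of_symm_smul]
    simp
  rw [← h5, h4]
  rfl

/-- An endomorphism whose image is contained in a line. -/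
theorem homol_of_rank {x : Module.End K V} {c : K} [FiniteDimensional K V]
    (h : Module.finrank K (LinearMap.range (x - c • (1 : Module.End K V))) ≤ 1) : Homol x := by
  obtain ⟨⟨u, hu⟩, hw⟩ := finrank_le_one_iff.1 h
  set z : Module.End K V := x - c • (1 : Module.End K V) with hz
  by_cases hu0 : u = 0
  · refine ⟨c, 0, 0, fun w => ?_⟩
    obtain ⟨a, ha⟩ := hw ⟨z w, LinearMap.mem_range_self z w⟩
    have h1 : z w = 0 := by
      have := congrArg Subtype.val ha
      simpa [hu0] using this.symm
    rw [hz] at h1
    simp only [LinearMap.sub_apply, LinearMap.smul_apply, Module.End.one_apply] at h1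
    rw [sub_eq_zero.1 h1]
    simp
  · have h2 : ∀ w, z w ∈ Submodule.span K {u} := by
      intro w
      obtain ⟨a, ha⟩ := hw ⟨z w, LinearMap.mem_range_self z w⟩
      rw [Submodule.mem_span_singleton]
      exact ⟨a, by simpa using congrArg Subtype.val ha⟩
    let f : V →ₗ[K] K := (LinearEquiv.coord K V u hu0 : Submodule.span K {u} →ₗ[K] K) ∘ₗ
      (z.codRestrict (Submodule.span K {u}) h2)
    refine ⟨c, f, u, fun w => ?_⟩
    have h3 : f w • u = z w := LinearEquiv.coord_apply_smul K V u hu0 ⟨z w, h2 w⟩
    rw [h3, hz]
    simp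

/-- An endomorphism of a vector space of dimension three is the sum of a scalar and an endomorphism
of rank at most one, or its centraliser is commutative and of dimension three. -/
theorem homol_or [IsAlgClosed K] [FiniteDimensional K V] (h3 : Module.finrank K V = 3)
    (x : Module.End K V) : Homol x ∨
      ((∀ b c, Commute b x → Commute c x → Commute b c) ∧
        ∃ v : V, ∀ b : Module.End K V, Commute b x → b v = 0 → b = 0) := by
  obtain ⟨v, hv⟩ := exists_cyc x
  by_cases hli : LinearIndependent K ![v, x v, x (x v)]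
  · right
    have hspan : Submodule.span K (Set.range ![v, x v, x (x v)]) = ⊤ :=
      hli.span_eq_top_of_card_eq_finrank' (by rw [h3]; rfl)
    have h1 : ∀ w : V, ∃ p : K[X], aeval x p v = w := by
      intro w
      have hw : w ∈ Submodule.span K (Set.range ![v, x v, x (x v)]) := by
        rw [hspan]; exact Submodule.mem_top
      obtain ⟨a, ha⟩ := (Submodule.mem_span_range_iff_exists_fun K).1 hw
      refine ⟨C (a 0) + C (a 1) * X + C (a 2) * X ^ 2, ?_⟩
      rw [← ha, Fin.sum_univ_three]
      simp [pow_two]
    have h2 : ∀ b : Module.End K V, Commute b x → b v = 0 → b = 0 := by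
      intro b hb hbv
      ext w
      obtain ⟨p, rfl⟩ := h1 w
      have h4 : Commute b (aeval x p) := by
        rw [Polynomial.aeval_eq_sum_range]
        exact Commute.sum_right _ _ _ fun i _ => (hb.pow_right i).smul_right _
      have h5 : b (aeval x p v) = aeval x p (b v) := by
        have := LinearMap.congr_fun h4.eq v
        simpa using this
      rw [h5, hbv, map_zero, LinearMap.zero_apply]
    refine ⟨fun b c hb hc => ?_, v, h2⟩
    obtain ⟨p, hp⟩ := h1 (b v)
    have h4 : Commute (aeval x p) x := by
      rw [Polynomial.aeval_eq_sum_range]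
      exact Commute.sum_left _ _ _ fun i _ => ((Commute.refl x).pow_left i).smul_left _
    have h5 : b = aeval x p := by
      have := h2 (b - aeval x p) (hb.sub_left h4) (by rw [LinearMap.sub_apply, hp, sub_self])
      exact sub_eq_zero.1 this
    rw [h5]
    rw [Polynomial.aeval_eq_sum_range]
    exact Commute.sum_left _ _ _ fun i _ => (hc.symm.pow_left i).smul_left _
  · left
    rw [Fintype.linearIndependent_iff] at hli
    push Not at hli
    obtain ⟨a, ha, i, hi⟩ := hli
    rw [Fin.sum_univ_three] at ha
    have h1 : ∀ w, a 0 • w + a 1 • x w + a 2 • x (x w) = 0 := by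
      have h2 := hv (C (a 0) + C (a 1) * X + C (a 2) * X ^ 2) (by
        rw [← ha]; simp [pow_two])
      intro w
      have := LinearMap.congr_fun h2 w
      simpa [pow_two] using this
    by_cases h2 : a 2 = 0
    · by_cases h4 : a 1 = 0
      · have h0 : a 0 ≠ 0 := by
          fin_cases i
          · exact hi
          · exact absurd h4 hi
          · exact absurd h2 hi
        refine ⟨0, 0, 0, fun w => ?_⟩
        have h5 := h1 (x w)
        rw [h2, h4, zero_smul, zero_smul, add_zero, add_zero] at h5
        rw [(smul_eq_zero.1 h5).resolve_left h0]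
        simp
      · refine ⟨-(a 0 / a 1), 0, 0, fun w => ?_⟩
        have h5 := h1 w
        rw [h2, zero_smul, add_zero] at h5
        have h6 : a 1 • (x w - (-(a 0 / a 1)) • w) = 0 := by
          rw [smul_sub, smul_smul, ← h5]
          have : a 1 * -(a 0 / a 1) = - a 0 := by field_simp
          rw [this]
          module
        have h7 := (smul_eq_zero.1 h6).resolve_left h4
        rw [sub_eq_zero.1 h7]
        simp
    · -- the quadratic polynomial splits
      obtain ⟨r, hr⟩ := IsAlgClosed.exists_root (C (a 0) + C (a 1) * X + C (a 2) * X ^ 2 : K[X]) (by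
        intro hdeg
        have h5 : (C (a 0) + C (a 1) * X + C (a 2) * X ^ 2 : K[X]).coeff 2 = a 2 := by
          rw [coeff_add, coeff_add, coeff_C_mul, coeff_C_mul, coeff_X_pow, coeff_X, coeff_C]
          simp
        have h6 : (C (a 0) + C (a 1) * X + C (a 2) * X ^ 2 : K[X]).coeff 2 = 0 :=
          coeff_eq_zero_of_degree_lt (by rw [hdeg]; norm_num)
        exact h2 (h5.symm.trans h6))
      have hr' : a 0 + a 1 * r + a 2 * r ^ 2 = 0 := by
        simpa [IsRoot.def] using hr
      set s : K := -(a 1 / a 2) - r with hs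
      have h5 : ∀ w, (x - r • (1 : Module.End K V)) ((x - s • (1 : Module.End K V)) w) = 0 := by
        intro w
        have h6 : a 2 • (x - r • (1 : Module.End K V)) ((x - s • (1 : Module.End K V)) w) = 0 := by
          rw [← h1 w]
          simp only [LinearMap.sub_apply, LinearMap.smul_apply, Module.End.one_apply, map_sub,
            map_smul]
          have e1 : a 2 * (r + s) = - a 1 := by rw [hs]; field_simp; ring
          have e2 : a 2 * (r * s) = a 0 := by
            have : a 2 * (r * s) = - a 1 * r - a 2 * r ^ 2 := by rw [hs]; field_simp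
            rw [this]
            linear_combination -hr'
          have e3 : a 1 = - (a 2 * (r + s)) := by rw [e1]; ring
          rw [e3, ← e2]
          module
        exact (smul_eq_zero.1 h6).resolve_left h2
      have h6 : LinearMap.range (x - s • (1 : Module.End K V)) ≤
          LinearMap.ker (x - r • (1 : Module.End K V)) := by
        rintro _ ⟨w, rfl⟩
        exact LinearMap.mem_ker.2 (h5 w)
      have h7 := Submodule.finrank_mono h6
      have h8 := LinearMap.finrank_range_add_finrank_ker (x - r • (1 : Module.End K V))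
      by_cases h9 : Module.finrank K (LinearMap.range (x - s • (1 : Module.End K V))) ≤ 1
      · exact homol_of_rank h9
      · exact homol_of_rank (c := r) (by omega)

/-- An endomorphism which commutes with a rank one endomorphism plus a scalar. -/
theorem comm_homol {x z : Module.End K V} {c : K} {f : V →ₗ[K] K} {u : V}
    (hx : ∀ w, x w = c • w + f w • u) (hf : f ≠ 0) (hu : u ≠ 0) (hzx : Commute z x) :
    ∃ a : K, z u = a • u ∧ ∀ w, f (z w) = a * f w := by
  obtain ⟨w0, hw0⟩ : ∃ w0, f w0 ≠ 0 := by
    by_contra hcon
    push Not at hcon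
    exact hf (LinearMap.ext hcon)
  have h1 : ∀ w, f w • z u = f (z w) • u := by
    intro w
    have h2 := LinearMap.congr_fun hzx.eq w
    rw [Module.End.mul_apply, Module.End.mul_apply, hx, hx, map_add, map_smul, map_smul] at h2
    exact add_left_cancel h2
  have h2 : z u = (f (z w0) / f w0) • u := by
    have h3 := h1 w0
    have h4 : z u = (f w0)⁻¹ • (f w0 • z u) := by rw [smul_smul, inv_mul_cancel₀ hw0, one_smul]
    rw [h4, h3, smul_smul]
    congr 1
    field_simp
  refine ⟨f (z w0) / f w0, h2, fun w => ?_⟩
  have h3 := h1 w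
  rw [h2, smul_smul] at h3
  have h4 : (f w * (f (z w0) / f w0) - f (z w)) • u = 0 := by rw [sub_smul, h3, sub_self]
  have h5 := (smul_eq_zero.1 h4).resolve_right hu
  linear_combination -h5

/-- Two noncommuting endomorphisms of the form scalar plus rank one. -/
theorem ncomm_homol {x x' : Module.End K V} {c c' : K} {f f' : V →ₗ[K] K} {u u' : V}
    (hx : ∀ w, x w = c • w + f w • u) (hx' : ∀ w, x' w = c' • w + f' w • u')
    (h : ¬ Commute x x') : f u' ≠ 0 ∨ f' u ≠ 0 := by
  by_contra hcon
  push Not at hcon
  obtain ⟨h1, h2⟩ := hcon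
  apply h
  ext w
  rw [Module.End.mul_apply, Module.End.mul_apply, hx', hx, hx, hx']
  simp only [map_add, map_smul, smul_eq_mul, h1, h2]
  module

/-- The centraliser of two noncommuting endomorphisms of the form scalar plus rank one of a space
of dimension three, the two images and the two kernels of which are different. -/
private theorem span_comm [FiniteDimensional K V] (h3 : Module.finrank K V = 3)
    {x x' : Module.End K V} {c c' : K} {f f' : V →ₗ[K] K} {u u' : V}
    (hx : ∀ w, x w = c • w + f w • u) (hx' : ∀ w, x' w = c' • w + f' w • u')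
    (h : ¬ Commute x x') (hu : LinearIndependent K ![u, u'])
    (hf : LinearIndependent K ![f, f']) {z z' : Module.End K V} (hz : Commute z x)
    (hz' : Commute z x') (hw : Commute z' x) (hw' : Commute z' x')
    (hs : ∀ a : K, z' ≠ a • (1 : Module.End K V)) :
    ∃ a b : K, z = a • (1 : Module.End K V) + b • z' := by
  have hu0 : u ≠ 0 := hu.ne_zero 0
  have hu0' : u' ≠ 0 := hu.ne_zero 1
  have hf0 : f ≠ 0 := hf.ne_zero 0
  have hf0' : f' ≠ 0 := hf.ne_zero 1
  have key : ∀ y : Module.End K V, Commute y x → Commute y x' → ∃ a : K,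
      (y u = a • u ∧ y u' = a • u') ∧ ∀ w, f (y w) = a * f w ∧ f' (y w) = a * f' w := by
    intro y hy hy'
    obtain ⟨a, a1, a2⟩ := comm_homol hx hf0 hu0 hy
    obtain ⟨b, b1, b2⟩ := comm_homol hx' hf0' hu0' hy'
    have hab : a = b := by
      rcases ncomm_homol hx hx' h with h1 | h1
      · have h2 := a2 u'
        rw [b1, map_smul, smul_eq_mul] at h2
        exact (mul_right_cancel₀ h1 h2).symm
      · have h2 := b2 u
        rw [a1, map_smul, smul_eq_mul] at h2
        exact mul_right_cancel₀ h1 h2
    subst hab
    exact ⟨a, ⟨a1, b1⟩, fun w => ⟨a2 w, b2 w⟩⟩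
  obtain ⟨a, ⟨a1, a2⟩, a3⟩ := key z hz hz'
  obtain ⟨b, ⟨b1, b2⟩, b3⟩ := key z' hw hw'
  -- a vector outside of the plane spanned by `u` and `u'`
  obtain ⟨w, hw1⟩ : ∃ w, LinearIndependent K ![w, u, u'] := by
    by_contra hcon
    push Not at hcon
    have h1 : ∀ w, w ∈ Submodule.span K (Set.range ![u, u']) := by
      intro w
      by_contra h2
      exact hcon w (hu.fin_cons h2)
    have h2 : Submodule.span K (Set.range ![u, u']) = ⊤ := by
      rw [eq_top_iff]; exact fun w _ => h1 w
    have h4 := finrank_span_eq_card hu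
    rw [h2, finrank_top, h3] at h4
    simp at h4
  have hspan : Submodule.span K (Set.range ![w, u, u']) = ⊤ :=
    hw1.span_eq_top_of_card_eq_finrank' (by rw [h3]; rfl)
  have hdec : ∀ y : V, ∃ p q r : K, y = p • w + q • u + r • u' := by
    intro y
    have hy : y ∈ Submodule.span K (Set.range ![w, u, u']) := by
      rw [hspan]; exact Submodule.mem_top
    obtain ⟨e, he⟩ := (Submodule.mem_span_range_iff_exists_fun K).1 hy
    refine ⟨e 0, e 1, e 2, ?_⟩
    rw [← he, Fin.sum_univ_three]
    simp
  -- the common kernel of the two forms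
  let L : Submodule K V := LinearMap.ker f ⊓ LinearMap.ker f'
  have hL : Module.finrank K L ≤ 1 := by
    have e1 : L = (Submodule.span K (Set.range ![f, f'])).dualCoannihilator := by
      ext y
      rw [Submodule.mem_dualCoannihilator]
      constructor
      · rintro ⟨h1, h2⟩ φ hφ
        obtain ⟨e, he⟩ := (Submodule.mem_span_range_iff_exists_fun K).1 hφ
        rw [← he, Fin.sum_univ_two]
        have h1' : f y = 0 := h1
        have h2' : f' y = 0 := h2
        simp [h1', h2']
      · intro h1
        exact ⟨h1 f (Submodule.subset_span ⟨0, rfl⟩), h1 f' (Submodule.subset_span ⟨1, rfl⟩)⟩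
    have e2 := Subspace.finrank_add_finrank_dualCoannihilator_eq
      (Submodule.span K (Set.range ![f, f']))
    have e3 := finrank_span_eq_card hf
    rw [← e1, h3, e3] at e2
    simp at e2
    omega
  have hLz : z w - a • w ∈ L := by
    constructor
    · show f (z w - a • w) = 0
      rw [map_sub, map_smul, (a3 w).1, smul_eq_mul, sub_self]
    · show f' (z w - a • w) = 0
      rw [map_sub, map_smul, (a3 w).2, smul_eq_mul, sub_self]
  have hLz' : z' w - b • w ∈ L := by
    constructor
    · show f (z' w - b • w) = 0
      rw [map_sub, map_smul, (b3 w).1, smul_eq_mul, sub_self]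
    · show f' (z' w - b • w) = 0
      rw [map_sub, map_smul, (b3 w).2, smul_eq_mul, sub_self]
  have hne : z' w - b • w ≠ 0 := by
    intro h1
    apply hs b
    ext y
    obtain ⟨p, q, r, rfl⟩ := hdec y
    simp only [map_add, map_smul, b1, b2, LinearMap.smul_apply, Module.End.one_apply]
    rw [sub_eq_zero.1 h1]
  obtain ⟨⟨l, hl⟩, hl'⟩ := finrank_le_one_iff.1 hL
  obtain ⟨s, hs1⟩ := hl' ⟨_, hLz⟩
  obtain ⟨t, ht1⟩ := hl' ⟨_, hLz'⟩
  have hs2 : s • l = z w - a • w := congrArg Subtype.val hs1
  have ht2 : t • l = z' w - b • w := congrArg Subtype.val ht1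
  have ht0 : t ≠ 0 := by
    rintro rfl
    rw [zero_smul] at ht2
    exact hne ht2.symm
  have h5 : z w = a • w + (s / t) • (z' w - b • w) := by
    rw [← ht2, smul_smul, div_mul_cancel₀ _ ht0, hs2]
    abel
  refine ⟨a - s / t * b, s / t, ?_⟩
  ext y
  obtain ⟨p, q, r, rfl⟩ := hdec y
  simp only [map_add, map_smul, a1, a2, b1, b2, LinearMap.smul_apply, Module.End.one_apply,
    LinearMap.add_apply, h5]
  module

/-- Among four vectors which generate a space of dimension three at most one pair is
proportional. -/
private theorem one_pair {W : Type*} [AddCommGroup W] [Module K W] [FiniteDimensional K W]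
    (h3 : Module.finrank K W = 3) (u : Fin 4 → W) (hu : ∀ i, u i ≠ 0)
    (hs : Submodule.span K (Set.range u) = ⊤) {i j k l : Fin 4} (hij : i ≠ j) (hkl : k ≠ l)
    (h1 : ¬ LinearIndependent K ![u i, u j]) (h2 : ¬ LinearIndependent K ![u k, u l]) :
    (k = i ∨ k = j) ∧ (l = i ∨ l = j) := by
  have hdep : ∀ {i j : Fin 4}, i ≠ j → ¬ LinearIndependent K ![u i, u j] →
      ∃ a b : K, a ≠ 0 ∧ b ≠ 0 ∧ a • u i + b • u j = 0 := by
    intro i j _ h
    rw [LinearIndependent.pair_iff] at h
    push Not at h
    obtain ⟨a, b, h4, h5⟩ := h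
    have ha : a ≠ 0 := by
      rintro rfl
      have hb : b ≠ 0 := h5 rfl
      rw [zero_smul, zero_add] at h4
      exact hu j ((smul_eq_zero.1 h4).resolve_left hb)
    refine ⟨a, b, ha, ?_, h4⟩
    rintro rfl
    rw [zero_smul, add_zero] at h4
    exact hu i ((smul_eq_zero.1 h4).resolve_left ha)
  obtain ⟨a, b, ha, hb, hab⟩ := hdep hij h1
  obtain ⟨a', b', ha', hb', hab'⟩ := hdep hkl h2
  let φ : (Fin 4 → K) →ₗ[K] W := Fintype.linearCombination K u
  have hφ : ∀ e, φ e = ∑ i, e i • u i := fun e => rfl
  have hr : LinearMap.range φ = ⊤ := by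
    rw [← hs]
    exact Fintype.range_linearCombination K u
  have hk : Module.finrank K (LinearMap.ker φ) ≤ 1 := by
    have e1 := LinearMap.finrank_range_add_finrank_ker φ
    rw [hr, finrank_top, h3, Module.finrank_fin_fun] at e1
    omega
  have hmem : ∀ {i j : Fin 4} {a b : K}, i ≠ j → a • u i + b • u j = 0 →
      (Pi.single i a + Pi.single j b : Fin 4 → K) ∈ LinearMap.ker φ := by
    intro i j a b _ h
    rw [LinearMap.mem_ker, map_add, ← h]
    congr 1
    · exact Fintype.linearCombination_apply_single K u i a
    · exact Fintype.linearCombination_apply_single K u j b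
  obtain ⟨⟨r, hr1⟩, hr2⟩ := finrank_le_one_iff.1 hk
  obtain ⟨s, hs1⟩ := hr2 ⟨_, hmem hij hab⟩
  obtain ⟨t, ht1⟩ := hr2 ⟨_, hmem hkl hab'⟩
  have hs2 : s • r = Pi.single i a + Pi.single j b := congrArg Subtype.val hs1
  have ht2 : t • r = Pi.single k a' + Pi.single l b' := congrArg Subtype.val ht1
  have hs0 : s ≠ 0 := by
    rintro rfl
    have := congrFun hs2 i
    rw [zero_smul, Pi.add_apply, Pi.single_eq_same, Pi.single_eq_of_ne hij, add_zero] at this
    exact ha this.symm
  have hout : ∀ m, m ≠ i → m ≠ j → r m = 0 := by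
    intro m hmi hmj
    have := congrFun hs2 m
    rw [Pi.smul_apply, Pi.add_apply, Pi.single_eq_of_ne hmi, Pi.single_eq_of_ne hmj, add_zero,
      smul_eq_mul] at this
    exact (mul_eq_zero.1 this).resolve_left hs0
  constructor
  · by_contra hcon
    push Not at hcon
    have h4 := congrFun ht2 k
    rw [Pi.smul_apply, Pi.add_apply, Pi.single_eq_same, Pi.single_eq_of_ne hkl,
      hout k hcon.1 hcon.2, smul_zero, add_zero] at h4
    exact ha' h4.symm
  · by_contra hcon
    push Not at hcon
    have h4 := congrFun ht2 l
    rw [Pi.smul_apply, Pi.add_apply, Pi.single_eq_same, Pi.single_eq_of_ne hkl.symm,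
      hout l hcon.1 hcon.2, smul_zero, zero_add] at h4
    exact hb' h4.symm

/-- Four endomorphisms of a space of dimension three, without common invariant subspaces, have no
partners. -/
theorem no_bip_four [IsAlgClosed K] [FiniteDimensional K V] (h3 : Module.finrank K V = 3)
    (x y : Fin 4 → Module.End K V) (h1 : ∀ i j, i ≠ j → Commute (y i) (x j))
    (h2 : ∀ i, ¬ Commute (y i) (x i))
    (hirr : ∀ W : Submodule K V, (∀ i, ∀ w ∈ W, x i w ∈ W) → W = ⊥ ∨ W = ⊤) : False := by
  have S1 : ∀ i, Homol (x i) := by
    intro i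
    rcases homol_or h3 (x i) with h | ⟨-, v, hv⟩
    · exact h
    exfalso
    let z : Fin 4 → Module.End K V := fun j => if j = i then 1 else y j
    have hz : ∀ j, Commute (z j) (x i) := by
      intro j
      by_cases h : j = i
      · simp only [z, if_pos h]; exact Commute.one_left _
      · simp only [z, if_neg h]; exact h1 j i h
    let ψ : (Fin 4 → K) →ₗ[K] V := Fintype.linearCombination K fun j => z j v
    obtain ⟨e, he1, he2⟩ : ∃ e, ψ e = 0 ∧ e ≠ 0 := by
      by_contra hcon
      push Not at hcon
      have hinj : Function.Injective ψ := by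
        rw [← LinearMap.ker_eq_bot, Submodule.eq_bot_iff]
        intro e he
        exact hcon e (LinearMap.mem_ker.1 he)
      have := LinearMap.finrank_le_finrank_of_injective hinj
      rw [h3, Module.finrank_fin_fun] at this
      omega
    have he3 : ∑ j, e j • z j = 0 := by
      refine hv _ (Commute.sum_left _ _ _ fun j _ => (hz j).smul_left _) ?_
      rw [LinearMap.sum_apply]
      exact he1
    have he4 : ∀ j, j ≠ i → e j = 0 := by
      intro j hj
      by_contra hej
      apply h2 j
      have h5 : z j = - (e j)⁻¹ • ∑ k ∈ Finset.univ.erase j, e k • z k := by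
        have h6 := Finset.add_sum_erase Finset.univ (fun k => e k • z k) (Finset.mem_univ j)
        rw [he3] at h6
        have h7 := eq_neg_of_add_eq_zero_right h6
        rw [h7, neg_smul, smul_neg, neg_neg, smul_smul, inv_mul_cancel₀ hej, one_smul]
      have h6 : y j = z j := by simp only [z, if_neg hj]
      rw [h6, h5]
      refine Commute.smul_left (Commute.sum_left _ _ _ fun k hk => Commute.smul_left ?_ _) _
      have hkj : k ≠ j := Finset.ne_of_mem_erase hk
      by_cases h : k = i
      · simp only [z, if_pos h]; exact Commute.one_left _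
      · simp only [z, if_neg h]; exact h1 k j hkj
    apply he2
    ext j
    by_cases h : j = i
    · subst h
      rw [Finset.sum_eq_single j (fun k _ hk => by rw [he4 k hk, zero_smul])
        (fun hh => absurd (Finset.mem_univ _) hh)] at he3
      have h6 : z j = 1 := by simp only [z, if_pos rfl]
      rw [h6] at he3
      have : Nontrivial (Module.End K V) := by
        have : Nontrivial V := Module.nontrivial_of_finrank_pos (R := K) (by omega)
        infer_instance
      exact (smul_eq_zero.1 he3).resolve_right one_ne_zero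
    · exact he4 j h
  choose c f u hx using S1
  have hu : ∀ i, u i ≠ 0 := by
    intro i h
    apply h2 i
    ext w
    rw [Module.End.mul_apply, Module.End.mul_apply, hx, hx, h]
    simp
  have hf : ∀ i, f i ≠ 0 := by
    intro i h
    apply h2 i
    ext w
    rw [Module.End.mul_apply, Module.End.mul_apply, hx, hx, h]
    simp
  have hsu : Submodule.span K (Set.range u) = ⊤ := by
    refine (hirr _ fun i w hw => ?_).resolve_left fun h => ?_
    · rw [hx]
      exact Submodule.add_mem _ (Submodule.smul_mem _ _ hw)
        (Submodule.smul_mem _ _ (Submodule.subset_span ⟨i, rfl⟩))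
    · apply hu 0
      have : u 0 ∈ (⊥ : Submodule K V) := by
        rw [← h]; exact Submodule.subset_span ⟨0, rfl⟩
      exact (Submodule.mem_bot K).1 this
  have hsf : Submodule.span K (Set.range f) = ⊤ := by
    have h4 : (Submodule.span K (Set.range f)).dualCoannihilator = ⊥ := by
      have hmem : ∀ w, w ∈ (Submodule.span K (Set.range f)).dualCoannihilator ↔
          ∀ i, f i w = 0 := by
        intro w
        rw [Submodule.mem_dualCoannihilator]
        constructor
        · exact fun h i => h _ (Submodule.subset_span ⟨i, rfl⟩)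
        · intro h φ hφ
          obtain ⟨e, rfl⟩ := (Submodule.mem_span_range_iff_exists_fun K).1 hφ
          rw [LinearMap.sum_apply]
          exact Finset.sum_eq_zero fun i _ => by rw [LinearMap.smul_apply, h i, smul_zero]
      refine (hirr _ fun i w hw => ?_).resolve_right fun h => ?_
      · rw [hmem] at hw ⊢
        intro j
        rw [hx, hw i, zero_smul, add_zero, map_smul, hw j, smul_zero]
      · apply hf 0
        ext w
        have : w ∈ (Submodule.span K (Set.range f)).dualCoannihilator := by
          rw [h]; exact Submodule.mem_top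
        exact (hmem w).1 this 0
    have e2 := Subspace.finrank_add_finrank_dualCoannihilator_eq
      (Submodule.span K (Set.range f))
    rw [h4, finrank_bot, add_zero] at e2
    apply Submodule.eq_top_of_finrank_eq
    rw [e2, Subspace.dual_finrank_eq]
  have hpair : ∀ i j, i ≠ j → ¬ Commute (x i) (x j) →
      ¬ LinearIndependent K ![u i, u j] ∨ ¬ LinearIndependent K ![f i, f j] := by
    intro i j hij hc
    by_contra hcon
    push Not at hcon
    obtain ⟨p, q, hpi, hpj, hqi, hqj, hpq⟩ : ∃ p q : Fin 4, p ≠ i ∧ p ≠ j ∧ q ≠ i ∧ q ≠ j ∧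
        p ≠ q := by
      revert hij; clear * -; revert i j; decide
    obtain ⟨a, b, hab⟩ := span_comm h3 (hx i) (hx j) hc hcon.1 hcon.2 (h1 p i hpi) (h1 p j hpj)
      (h1 q i hqi) (h1 q j hqj) (fun a ha => h2 q (by
        rw [ha]; exact (Commute.one_left _).smul_left _))
    apply h2 p
    rw [hab]
    exact ((Commute.one_left _).smul_left _).add_left ((h1 q p hpq.symm).smul_left _)
  have hnb : ∀ i, ∃ j, j ≠ i ∧ ¬ Commute (x i) (x j) := by
    intro i
    by_contra hcon
    push Not at hcon
    have hcon' : ∀ j, Commute (x j) (x i) := by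
      intro j
      by_cases h : j = i
      · rw [h]
      · exact (hcon j h).symm
    rcases hirr (LinearMap.ker (f i)) fun j w hw => by
      obtain ⟨a, -, ha⟩ := comm_homol (hx i) (hf i) (hu i) (hcon' j)
      rw [LinearMap.mem_ker] at hw ⊢
      rw [ha, hw, mul_zero] with h | h
    · have e1 := LinearMap.finrank_range_add_finrank_ker (f i)
      have e2 := Submodule.finrank_le (LinearMap.range (f i))
      rw [h, finrank_bot, h3] at e1
      rw [Module.finrank_self] at e2
      omega
    · exact hf i (LinearMap.ker_eq_top.1 h)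
  have hdf : Module.finrank K (V →ₗ[K] K) = 3 := by
    rw [← h3]; exact Subspace.dual_finrank_eq
  have hU : ∀ {i j k l : Fin 4}, i ≠ j → k ≠ l → ¬ LinearIndependent K ![u i, u j] →
      ¬ LinearIndependent K ![u k, u l] → (k = i ∨ k = j) ∧ (l = i ∨ l = j) :=
    fun hij hkl a b => one_pair h3 u hu hsu hij hkl a b
  have hF : ∀ {i j k l : Fin 4}, i ≠ j → k ≠ l → ¬ LinearIndependent K ![f i, f j] →
      ¬ LinearIndependent K ![f k, f l] → (k = i ∨ k = j) ∧ (l = i ∨ l = j) :=
    fun hij hkl a b => one_pair hdf f hf hsf hij hkl a b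
  -- there is an edge of each kind
  obtain ⟨i, j, hij, hijc, hiju⟩ : ∃ i j, i ≠ j ∧ ¬ Commute (x i) (x j) ∧
      ¬ LinearIndependent K ![u i, u j] := by
    by_contra hcon
    push Not at hcon
    have h4 : ∀ i, ∃ j, j ≠ i ∧ ¬ LinearIndependent K ![f i, f j] := by
      intro i
      obtain ⟨j, hj, hc⟩ := hnb i
      exact ⟨j, hj, (hpair i j hj.symm hc).resolve_left fun h => h (hcon i j hj.symm hc)⟩
    obtain ⟨a, ha, ha'⟩ := h4 0
    obtain ⟨m, hm0, hma⟩ : ∃ m : Fin 4, m ≠ 0 ∧ m ≠ a := by
      clear * -; revert a; decide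
    obtain ⟨b, hb, hb'⟩ := h4 m
    rcases (hF ha.symm hb.symm ha' hb').1 with h5 | h5
    · exact hm0 h5
    · exact hma h5
  obtain ⟨k, l, hkl, hklc, hklf⟩ : ∃ k l, k ≠ l ∧ ¬ Commute (x k) (x l) ∧
      ¬ LinearIndependent K ![f k, f l] := by
    by_contra hcon
    push Not at hcon
    have h4 : ∀ i, ∃ j, j ≠ i ∧ ¬ LinearIndependent K ![u i, u j] := by
      intro i
      obtain ⟨j, hj, hc⟩ := hnb i
      exact ⟨j, hj, (hpair i j hj.symm hc).resolve_right fun h => h (hcon i j hj.symm hc)⟩
    obtain ⟨a, ha, ha'⟩ := h4 0
    obtain ⟨m, hm0, hma⟩ : ∃ m : Fin 4, m ≠ 0 ∧ m ≠ a := by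
      clear * -; revert a; decide
    obtain ⟨b, hb, hb'⟩ := h4 m
    rcases (hU ha.symm hb.symm ha' hb').1 with h5 | h5
    · exact hm0 h5
    · exact hma h5
  have hall : ∀ m, m = i ∨ m = j ∨ m = k ∨ m = l := by
    intro m
    obtain ⟨q, hq, hc⟩ := hnb m
    rcases hpair m q hq.symm hc with h | h
    · rcases (hU hij hq.symm hiju h).1 with h5 | h5
      · exact Or.inl h5
      · exact Or.inr (Or.inl h5)
    · rcases (hF hkl hq.symm hklf h).1 with h5 | h5
      · exact Or.inr (Or.inr (Or.inl h5))
      · exact Or.inr (Or.inr (Or.inr h5))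
  obtain ⟨d1, d2, d3, d4⟩ : i ≠ k ∧ i ≠ l ∧ j ≠ k ∧ j ≠ l := by
    revert hall; clear * -; revert i j k l; decide
  have hcross : ∀ a b, (a = i ∨ a = j) → (b = k ∨ b = l) → Commute (x a) (x b) := by
    intro a b ha hb
    by_contra hc
    have hab : a ≠ b := by
      rcases ha with rfl | rfl <;> rcases hb with rfl | rfl <;> assumption
    rcases hpair a b hab hc with h | h
    · rcases (hU hij hab hiju h).2 with h5 | h5 <;> rcases hb with rfl | rfl
      · exact d1 h5.symm
      · exact d2 h5.symm
      · exact d3 h5.symm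
      · exact d4 h5.symm
    · rcases (hF hkl hab hklf h).1 with h5 | h5 <;> rcases ha with rfl | rfl
      · exact d1 h5
      · exact d3 h5
      · exact d2 h5
      · exact d4 h5
  -- the line spanned by `u i` is invariant
  have hfz : ∀ b, (b = k ∨ b = l) → f b (u i) = 0 := by
    intro b hb
    by_contra h4
    have h5 : LinearIndependent K ![u i, u b] := by
      by_contra h6
      have hib : i ≠ b := by rcases hb with rfl | rfl <;> assumption
      rcases (hU hij hib hiju h6).2 with h7 | h7 <;> rcases hb with rfl | rfl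
      · exact d1 h7.symm
      · exact d2 h7.symm
      · exact d3 h7.symm
      · exact d4 h7.symm
    obtain ⟨a, ha, -⟩ := comm_homol (hx i) (hf i) (hu i) (hcross i b (Or.inl rfl) hb).symm
    rw [hx] at ha
    rw [LinearIndependent.pair_iff] at h5
    have h6 := h5 (c b - a) (f b (u i)) (by rw [sub_smul, ← ha]; abel)
    exact h4 h6.2
  have hji : ∃ a : K, u j = a • u i := by
    rw [LinearIndependent.pair_iff] at hiju
    push Not at hiju
    obtain ⟨a, b, h4, h5⟩ := hiju
    have hb : b ≠ 0 := by
      rintro rfl
      rw [zero_smul, add_zero] at h4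
      exact h5 ((smul_eq_zero.1 h4).resolve_right (hu i)) rfl
    refine ⟨-(b⁻¹ * a), ?_⟩
    have h6 : b • u j = -(a • u i) := eq_neg_of_add_eq_zero_right h4
    have h7 : u j = b⁻¹ • (b • u j) := by rw [smul_smul, inv_mul_cancel₀ hb, one_smul]
    rw [h7, h6]
    module
  obtain ⟨a0, ha0⟩ := hji
  rcases hirr (Submodule.span K {u i}) fun m w hw => by
      rw [Submodule.mem_span_singleton] at hw
      obtain ⟨e, rfl⟩ := hw
      rw [map_smul, hx]
      refine Submodule.smul_mem _ _ (Submodule.add_mem _
        (Submodule.smul_mem _ _ (Submodule.mem_span_singleton_self _)) ?_)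
      rcases hall m with rfl | rfl | h | h
      · exact Submodule.smul_mem _ _ (Submodule.mem_span_singleton_self _)
      · rw [ha0]
        exact Submodule.smul_mem _ _
          (Submodule.smul_mem _ _ (Submodule.mem_span_singleton_self _))
      · rw [hfz m (Or.inl h), zero_smul]; exact Submodule.zero_mem _
      · rw [hfz m (Or.inr h), zero_smul]; exact Submodule.zero_mem _ with h | h
  · exact hu i (Submodule.span_singleton_eq_bot.1 h)
  · have e1 := finrank_span_singleton (K := K) (hu i)
    rw [h, finrank_top, h3] at e1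
    omega

end

end Pool.Agent.BraidRep
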