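import Mathlib

/-!
# Commutation in quotients of pure braid groups

`A i j`, for `i < j` and `m ≤ j`, are elements of a group which satisfy Artin's relations; they
are the standard generators of the fundamental group of the space of configurations of `n - m`
points in the plane with `m` punctures (for `m = 0`: the pure braid group). The strands `i < m` are
the punctures, the others are moving. A triple of strands, at least two of them moving, is called
commuting if the three elements attached to it commute.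
-/

namespace Pool.Agent.BraidRep

/-- Artin's relations between the standard generators `A i j`, `i < j`, `m ≤ j`, of the kernel of
the homomorphism from the pure braid group on `n` strands to the pure braid group on the first `m`
strands (Birman, Braids, links and mapping class groups, Lemma 1.8.2). -/
structure PureBraid (m : ℕ) {n : ℕ} {G : Type*} [Group G] (A : Fin n → Fin n → G) : Prop where
  disj : ∀ r s i j, m ≤ s.val → r < s → s < i → i < j → (A r s)⁻¹ * A i j * A r s = A i j
  nest : ∀ i r s j, m ≤ s.val → i < r → r < s → s < j → (A r s)⁻¹ * A i j * A r s = A i j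
  adj : ∀ r s j, m ≤ s.val → r < s → s < j →
    (A r s)⁻¹ * A s j * A r s = A r j * A s j * (A r j)⁻¹
  same : ∀ r s j, m ≤ s.val → r < s → s < j →
    (A r s)⁻¹ * A r j * A r s = (A r j * A s j) * A r j * (A r j * A s j)⁻¹
  cross : ∀ r i s j, m ≤ s.val → r < i → i < s → s < j → (A r s)⁻¹ * A i j * A r s =
    (A r j * A s j * (A r j)⁻¹ * (A s j)⁻¹) * A i j * (A r j * A s j * (A r j)⁻¹ * (A s j)⁻¹)⁻¹

/-- Those of Artin's relations between the `A i j`, `i < j`, `m ≤ j`, which involve at most one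
index smaller than `m`. They hold between the standard generators of the fundamental group of the
space of configurations of `n - m` points on a surface of genus `g` with `p > 0` punctures, if
`m = 2 g + p - 1` and the indices smaller than `m` are attached to the handles and to all
punctures but one (Bellingeri, On presentations of surface braid groups). -/
structure SurfaceBraid (m : ℕ) {n : ℕ} {G : Type*} [Group G] (A : Fin n → Fin n → G) :
    Prop where
  disj : ∀ r s i j, m ≤ s.val → r < s → s < i → i < j → (A r s)⁻¹ * A i j * A r s = A i j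
  nest : ∀ i r s j, m ≤ r.val → i < r → r < s → s < j → (A r s)⁻¹ * A i j * A r s = A i j
  adj : ∀ r s j, m ≤ s.val → r < s → s < j →
    (A r s)⁻¹ * A s j * A r s = A r j * A s j * (A r j)⁻¹
  same : ∀ r s j, m ≤ s.val → r < s → s < j →
    (A r s)⁻¹ * A r j * A r s = (A r j * A s j) * A r j * (A r j * A s j)⁻¹
  cross : ∀ r i s j, m ≤ i.val → r < i → i < s → s < j → (A r s)⁻¹ * A i j * A r s =
    (A r j * A s j * (A r j)⁻¹ * (A s j)⁻¹) * A i j * (A r j * A s j * (A r j)⁻¹ * (A s j)⁻¹)⁻¹

/-- An auxiliary notion which contains both of the preceding ones: if `pl` is true all relations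
are required, otherwise those which involve at most one index smaller than `m`. -/
structure Fl (pl : Prop) (m : ℕ) {n : ℕ} {G : Type*} [Group G] (A : Fin n → Fin n → G) :
    Prop where
  disj : ∀ r s i j, m ≤ s.val → r < s → s < i → i < j → (A r s)⁻¹ * A i j * A r s = A i j
  nest : ∀ i r s j, m ≤ s.val → (m ≤ r.val ∨ pl) → i < r → r < s → s < j →
    (A r s)⁻¹ * A i j * A r s = A i j
  adj : ∀ r s j, m ≤ s.val → r < s → s < j →
    (A r s)⁻¹ * A s j * A r s = A r j * A s j * (A r j)⁻¹
  same : ∀ r s j, m ≤ s.val → r < s → s < j →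
    (A r s)⁻¹ * A r j * A r s = (A r j * A s j) * A r j * (A r j * A s j)⁻¹
  cross : ∀ r i s j, m ≤ s.val → (m ≤ i.val ∨ pl) → r < i → i < s → s < j →
    (A r s)⁻¹ * A i j * A r s =
    (A r j * A s j * (A r j)⁻¹ * (A s j)⁻¹) * A i j * (A r j * A s j * (A r j)⁻¹ * (A s j)⁻¹)⁻¹

theorem PureBraid.fl {m n : ℕ} {G : Type*} [Group G] {A : Fin n → Fin n → G}
    (h : PureBraid m A) : Fl True m A :=
  ⟨h.disj, fun i r s j h0 _ => h.nest i r s j h0, h.adj, h.same,
    fun r i s j h0 _ => h.cross r i s j h0⟩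

theorem SurfaceBraid.fl {m n : ℕ} {G : Type*} [Group G] {A : Fin n → Fin n → G}
    (h : SurfaceBraid m A) : Fl False m A :=
  ⟨h.disj, fun i r s j _ h1 => h.nest i r s j (h1.resolve_right not_false), h.adj, h.same,
    fun r i s j _ h1 => h.cross r i s j (h1.resolve_right not_false)⟩

theorem commute_of_conj {G : Type*} [Group G] {T x : G} (h : T⁻¹ * x * T = x) : Commute T x := by
  have h1 : x * T = T * x := by
    calc x * T = T * (T⁻¹ * x * T) := by group
      _ = T * x := by rw [h]
  exact h1.symm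

theorem PureBraid.surface {m n : ℕ} {G : Type*} [Group G] {A : Fin n → Fin n → G}
    (h : PureBraid m A) : SurfaceBraid m A :=
  ⟨h.disj, fun i r s j h0 h1 h2 h3 => h.nest i r s j (h0.trans (Fin.lt_def.1 h2).le) h1 h2 h3,
    h.adj, h.same,
    fun r i s j h0 h1 h2 h3 => h.cross r i s j (h0.trans (Fin.lt_def.1 h2).le) h1 h2 h3⟩

/-- A homomorphism preserves the relations. -/
theorem Fl.map {pl : Prop} {m n : ℕ} {G H : Type*} [Group G] [Group H] {A : Fin n → Fin n → G}
    (h : Fl pl m A) (f : G →* H) : Fl pl m (fun i j => f (A i j)) := by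
  refine ⟨fun r s i j h0 h1 h2 h3 => ?_, fun i r s j h0 hp h1 h2 h3 => ?_,
    fun r s j h0 h1 h2 => ?_, fun r s j h0 h1 h2 => ?_, fun r i s j h0 hp h1 h2 h3 => ?_⟩
  · simpa using congrArg f (h.disj r s i j h0 h1 h2 h3)
  · simpa using congrArg f (h.nest i r s j h0 hp h1 h2 h3)
  · simpa using congrArg f (h.adj r s j h0 h1 h2)
  · simpa using congrArg f (h.same r s j h0 h1 h2)
  · simpa using congrArg f (h.cross r i s j h0 hp h1 h2 h3)

section

variable {pl : Prop} {m n : ℕ} {G : Type*} [Group G] {A : Fin n → Fin n → G}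

/-- Chords which do not cross and have no common end commute. -/
theorem Fl.noncross (h : Fl pl m A) {p q k l : Fin n} (hpq : p < q) (hkl : k < l)
    (hq : m ≤ q.val) (hl : m ≤ l.val)
    (hc : q < k ∨ l < p ∨ (p < k ∧ l < q ∧ (m ≤ k.val ∨ pl)) ∨
      (k < p ∧ q < l ∧ (m ≤ p.val ∨ pl))) : Commute (A p q) (A k l) := by
  rcases hc with hc | hc | ⟨h1, h2, h3⟩ | ⟨h1, h2, h3⟩
  · exact commute_of_conj (h.disj _ _ _ _ hq hpq hc hkl)
  · exact (commute_of_conj (h.disj _ _ _ _ hl hkl hc hpq)).symm
  · exact (commute_of_conj (h.nest _ _ _ _ hl h3 h1 hkl h2)).symm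
  · exact commute_of_conj (h.nest _ _ _ _ hq h3 h1 hpq h2)

theorem Fl.fst (h : Fl pl m A) {a b c : Fin n} (hb : m ≤ b.val) (hab : a < b)
    (hbc : b < c) : Commute (A a b * (A a c * A b c)) (A a c) := by
  have h1 := h.same a b c hb hab hbc
  have h2 : A a c * (A a b * (A a c * A b c)) = A a b * (A a c * A b c) * A a c := by
    calc A a c * (A a b * (A a c * A b c)) =
        A a b * ((A a b)⁻¹ * A a c * A a b) * (A a c * A b c) := by group
      _ = A a b * (A a c * A b c * A a c * (A a c * A b c)⁻¹) * (A a c * A b c) := by rw [h1]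
      _ = A a b * (A a c * A b c) * A a c := by group
  exact h2.symm

theorem Fl.snd (h : Fl pl m A) {a b c : Fin n} (hb : m ≤ b.val) (hab : a < b)
    (hbc : b < c) : Commute (A a b * (A a c * A b c)) (A b c) := by
  have h1 := h.adj a b c hb hab hbc
  have h2 : A b c * (A a b * (A a c * A b c)) = A a b * (A a c * A b c) * A b c := by
    calc A b c * (A a b * (A a c * A b c)) =
        A a b * ((A a b)⁻¹ * A b c * A a b) * (A a c * A b c) := by group
      _ = A a b * (A a c * A b c * (A a c)⁻¹) * (A a c * A b c) := by rw [h1]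
      _ = A a b * (A a c * A b c) * A b c := by group
  exact h2.symm

theorem Fl.crossA (h : Fl pl m A) {r i s j : Fin n} (hs : m ≤ s.val)
    (hi : m ≤ i.val ∨ pl) (hri : r < i)
    (his : i < s) (hsj : s < j) (hc : Commute (A r j) (A s j)) : Commute (A r s) (A i j) := by
  apply commute_of_conj
  rw [h.cross r i s j hs hi hri his hsj]
  have h1 : A r j * A s j * (A r j)⁻¹ * (A s j)⁻¹ = 1 := by
    rw [hc.eq]
    group
  rw [h1, one_mul, inv_one, mul_one]

/-- `A r s` commutes with `A r j * A i j * (A r j)⁻¹` for `r < i < s < j`. -/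
theorem Fl.conjC (h : Fl pl m A) {r i s j : Fin n} (hs : m ≤ s.val)
    (hi : m ≤ i.val ∨ pl) (hri : r < i)
    (his : i < s) (hsj : s < j) : Commute (A r s) (A r j * A i j * (A r j)⁻¹) := by
  have h1 := h.cross r i s j hs hi hri his hsj
  have h2 := h.same r s j hs (hri.trans his) hsj
  apply commute_of_conj
  calc (A r s)⁻¹ * (A r j * A i j * (A r j)⁻¹) * A r s =
      ((A r s)⁻¹ * A r j * A r s) * ((A r s)⁻¹ * A i j * A r s) *
        ((A r s)⁻¹ * A r j * A r s)⁻¹ := by group
    _ = _ := by rw [h1, h2]; group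

/-- `A r s` commutes with `(A s j)⁻¹ * A i j * A s j` for `r < i < s < j`. -/
theorem Fl.conjD (h : Fl pl m A) {r i s j : Fin n} (hs : m ≤ s.val)
    (hi : m ≤ i.val ∨ pl) (hri : r < i)
    (his : i < s) (hsj : s < j) : Commute (A r s) ((A s j)⁻¹ * A i j * A s j) := by
  have h1 := h.cross r i s j hs hi hri his hsj
  have h2 := h.adj r s j hs (hri.trans his) hsj
  apply commute_of_conj
  calc (A r s)⁻¹ * ((A s j)⁻¹ * A i j * A s j) * A r s =
      ((A r s)⁻¹ * A s j * A r s)⁻¹ * ((A r s)⁻¹ * A i j * A r s) *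
        ((A r s)⁻¹ * A s j * A r s) := by group
    _ = _ := by rw [h1, h2]; group

theorem Fl.crossC (h : Fl pl m A) {r i s j : Fin n} (hs : m ≤ s.val)
    (hi : m ≤ i.val ∨ pl) (hri : r < i)
    (his : i < s) (hsj : s < j) (hc : Commute (A r j) (A i j)) : Commute (A r s) (A i j) := by
  have h3 : A r j * A i j * (A r j)⁻¹ = A i j := by rw [hc.eq]; group
  have h4 := h.conjC hs hi hri his hsj
  rwa [h3] at h4

theorem Fl.crossD (h : Fl pl m A) {r i s j : Fin n} (hs : m ≤ s.val)
    (hi : m ≤ i.val ∨ pl) (hri : r < i)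
    (his : i < s) (hsj : s < j) (hc : Commute (A i j) (A s j)) : Commute (A r s) (A i j) := by
  have h3 : (A s j)⁻¹ * A i j * A s j = A i j := by rw [mul_assoc, hc.eq]; group
  have h4 := h.conjD hs hi hri his hsj
  rwa [h3] at h4

theorem Fl.crossE (h : Fl pl m A) {r i s j : Fin n} (hi : m ≤ i.val) (hri : r < i)
    (his : i < s) (hsj : s < j) (hc : Commute (A r i) (A i s)) : Commute (A r s) (A i j) := by
  have hrs := hri.trans his
  have hij := his.trans hsj
  have hs : m ≤ s.val := hi.trans (Fin.lt_def.1 his).le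
  -- the action of `A r i` and `A i s` on the generators ending at `j`
  have a1 := h.same r i j hi hri hij
  have a2 := h.adj r i j hi hri hij
  have a3 : (A r i)⁻¹ * A s j * A r i = A s j := h.disj r i s j hi hri his hsj
  have b1 : (A i s)⁻¹ * A r j * A i s = A r j := h.nest r i s j hs (Or.inl hi) hri his hsj
  have b2 := h.same i s j hs his hsj
  have b3 := h.adj i s j hs his hsj
  have c1 := h.cross r i s j hs (Or.inl hi) hri his hsj
  have c2 := h.same r s j hs hrs hsj
  have c3 := h.adj r s j hs hrs hsj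
  have e1 : (A i s)⁻¹ * ((A r i)⁻¹ * A i j * A r i) * A i s =
      (A r i)⁻¹ * ((A i s)⁻¹ * A i j * A i s) * A r i := by
    calc (A i s)⁻¹ * ((A r i)⁻¹ * A i j * A r i) * A i s =
        (A r i * A i s)⁻¹ * A i j * (A r i * A i s) := by group
      _ = (A i s * A r i)⁻¹ * A i j * (A i s * A r i) := by rw [hc.eq]
      _ = _ := by group
  have e2 : (A i s)⁻¹ * ((A r i)⁻¹ * A i j * A r i) * A i s =
      A r j * ((A i j * A s j) * A i j * (A i j * A s j)⁻¹) * (A r j)⁻¹ := by
    rw [a2]
    calc (A i s)⁻¹ * (A r j * A i j * (A r j)⁻¹) * A i s =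
        ((A i s)⁻¹ * A r j * A i s) * ((A i s)⁻¹ * A i j * A i s) *
          ((A i s)⁻¹ * A r j * A i s)⁻¹ := by group
      _ = _ := by rw [b1, b2]
  have e3 : (A r i)⁻¹ * ((A i s)⁻¹ * A i j * A i s) * A r i =
      (A r j * A i j * (A r j)⁻¹ * A s j) * (A r j * A i j * (A r j)⁻¹) *
        (A r j * A i j * (A r j)⁻¹ * A s j)⁻¹ := by
    rw [b2]
    calc (A r i)⁻¹ * (A i j * A s j * A i j * (A i j * A s j)⁻¹) * A r i =
        (((A r i)⁻¹ * A i j * A r i) * ((A r i)⁻¹ * A s j * A r i)) *
          ((A r i)⁻¹ * A i j * A r i) *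
          (((A r i)⁻¹ * A i j * A r i) * ((A r i)⁻¹ * A s j * A r i))⁻¹ := by group
      _ = _ := by rw [a2, a3]
  rw [e2, e3] at e1
  have e4 : A i j = ((A s j)⁻¹ * (A r j)⁻¹ * A s j * A r j) * A i j *
      ((A s j)⁻¹ * (A r j)⁻¹ * A s j * A r j)⁻¹ := by
    calc A i j = (A r j * A i j * A s j)⁻¹ *
        (A r j * ((A i j * A s j) * A i j * (A i j * A s j)⁻¹) * (A r j)⁻¹) *
          (A r j * A i j * A s j) := by group
      _ = (A r j * A i j * A s j)⁻¹ *
        ((A r j * A i j * (A r j)⁻¹ * A s j) * (A r j * A i j * (A r j)⁻¹) *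
        (A r j * A i j * (A r j)⁻¹ * A s j)⁻¹) *
          (A r j * A i j * A s j) := by rw [e1]
      _ = _ := by group
  apply commute_of_conj
  calc (A r s)⁻¹ * A i j * A r s =
      (A r s)⁻¹ * (((A s j)⁻¹ * (A r j)⁻¹ * A s j * A r j) * A i j *
      ((A s j)⁻¹ * (A r j)⁻¹ * A s j * A r j)⁻¹) * A r s := by rw [← e4]
    _ = (((A r s)⁻¹ * A s j * A r s)⁻¹ * ((A r s)⁻¹ * A r j * A r s)⁻¹ *
        ((A r s)⁻¹ * A s j * A r s) * ((A r s)⁻¹ * A r j * A r s)) *
        ((A r s)⁻¹ * A i j * A r s) *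
        (((A r s)⁻¹ * A s j * A r s)⁻¹ * ((A r s)⁻¹ * A r j * A r s)⁻¹ *
        ((A r s)⁻¹ * A s j * A r s) * ((A r s)⁻¹ * A r j * A r s))⁻¹ := by group
    _ = A i j := by rw [c1, c2, c3]; group

/-- The generator attached to an unordered pair. -/
def sy (A : Fin n → Fin n → G) (i j : Fin n) : G := if i < j then A i j else A j i

omit [Group G] in
theorem sy_of_lt {i j : Fin n} (h : i < j) : sy A i j = A i j := if_pos h

omit [Group G] in
theorem sy_of_gt {i j : Fin n} (h : j < i) : sy A i j = A j i := if_neg h.not_gt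

omit [Group G] in
theorem sy_comm (i j : Fin n) : sy A i j = sy A j i := by
  rcases lt_trichotomy i j with h | h | h
  · rw [sy_of_lt h, sy_of_gt h]
  · rw [h]
  · rw [sy_of_gt h, sy_of_lt h]

/-- The three generators attached to a triple commute. -/
def Tr (A : Fin n → Fin n → G) (i j k : Fin n) : Prop :=
  Commute (sy A i j) (sy A i k) ∧ Commute (sy A i j) (sy A j k) ∧ Commute (sy A i k) (sy A j k)

theorem Tr.swap {i j k : Fin n} (h : Tr A i j k) : Tr A j i k := by
  obtain ⟨h1, h2, h3⟩ := h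
  unfold Tr
  rw [sy_comm j i]
  exact ⟨h2, h1, h3.symm⟩

theorem Tr.swap' {i j k : Fin n} (h : Tr A i j k) : Tr A i k j := by
  obtain ⟨h1, h2, h3⟩ := h
  unfold Tr
  rw [sy_comm k j]
  exact ⟨h1.symm, h3, h2⟩

/-- At least two of the three strands are moving. -/
def Mv (m : ℕ) (i j k : Fin n) : Prop :=
  (m ≤ i.val ∧ m ≤ j.val) ∨ (m ≤ i.val ∧ m ≤ k.val) ∨ (m ≤ j.val ∧ m ≤ k.val)

theorem tri_xy {T x y : G} (h1 : Commute (T * (x * y)) x) (h2 : Commute (T * (x * y)) y)
    (h : Commute x y) : Commute T x ∧ Commute T y := by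
  have e : T = T * (x * y) * (x * y)⁻¹ := by group
  have a1 : Commute (x * y) x := (Commute.refl x).mul_left h.symm
  have a2 : Commute (x * y) y := h.mul_left (Commute.refl y)
  rw [e]
  exact ⟨h1.mul_left a1.inv_left, h2.mul_left a2.inv_left⟩

theorem tri_Tx {T x y : G} (h1 : Commute (T * (x * y)) x) (h : Commute T x) : Commute x y := by
  have e : y = x⁻¹ * (T⁻¹ * (T * (x * y))) := by group
  rw [e]
  exact ((Commute.refl x).inv_right).mul_right ((h.symm.inv_right).mul_right h1.symm)

theorem tri_Ty {T x y : G} (h2 : Commute (T * (x * y)) y) (h : Commute T y) : Commute x y := by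
  have e : x = T⁻¹ * (T * (x * y)) * y⁻¹ := by group
  rw [e]
  exact ((h.inv_left).mul_left h2).mul_left (Commute.refl y).inv_left

theorem Fl.tr_of_lt (h : Fl pl m A) {a b c : Fin n} (hb : m ≤ b.val) (hab : a < b)
    (hbc : b < c)
    (hc : Commute (A a b) (A a c) ∨ Commute (A a b) (A b c) ∨ Commute (A a c) (A b c)) :
    Tr A a b c := by
  have hac := hab.trans hbc
  unfold Tr
  rw [sy_of_lt hab, sy_of_lt hac, sy_of_lt hbc]
  have hxy : Commute (A a c) (A b c) := by
    rcases hc with hc | hc | hc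
    · exact tri_Tx (h.fst hb hab hbc) hc
    · exact tri_Ty (h.snd hb hab hbc) hc
    · exact hc
  obtain ⟨h1, h2⟩ := tri_xy (h.fst hb hab hbc) (h.snd hb hab hbc) hxy
  exact ⟨h1, h2, hxy⟩

/-- If two of the generators attached to a triple commute, all of them do. -/
theorem Fl.tr_of_commute (h : Fl pl m A) {i j k : Fin n} (hm : Mv m i j k)
    (hij : i ≠ j) (hik : i ≠ k) (hjk : j ≠ k) (hc : Commute (sy A i j) (sy A i k)) :
    Tr A i j k := by
  unfold Mv at hm
  rcases lt_or_gt_of_ne hij with h1 | h1 <;> rcases lt_or_gt_of_ne hik with h2 | h2 <;>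
    rcases lt_or_gt_of_ne hjk with h3 | h3
  · rw [sy_of_lt h1, sy_of_lt h2] at hc
    exact h.tr_of_lt (by omega) h1 h3 (Or.inl hc)
  · rw [sy_of_lt h1, sy_of_lt h2] at hc
    exact (h.tr_of_lt (by omega) h2 h3 (Or.inl hc.symm)).swap'
  · exact absurd (h1.trans h3) h2.not_gt
  · rw [sy_of_lt h1, sy_of_gt h2] at hc
    exact (h.tr_of_lt (by omega) h2 h1 (Or.inr (Or.inl hc.symm))).swap.swap'
  · rw [sy_of_gt h1, sy_of_lt h2] at hc
    exact (h.tr_of_lt (by omega) h1 h2 (Or.inr (Or.inl hc))).swap
  · exact absurd (h2.trans h3) h1.not_gt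
  · rw [sy_of_gt h1, sy_of_gt h2] at hc
    exact (h.tr_of_lt (by omega) h3 h2 (Or.inr (Or.inr hc))).swap'.swap
  · rw [sy_of_gt h1, sy_of_gt h2] at hc
    exact (h.tr_of_lt (by omega) h3 h1 (Or.inr (Or.inr hc.symm))).swap.swap'.swap

/-- A triple which has at least two moving strands and commutes. -/
def TrM (m : ℕ) (A : Fin n → Fin n → G) (i j k : Fin n) : Prop := Mv m i j k ∧ Tr A i j k

theorem TrM.swap {i j k : Fin n} (h : TrM m A i j k) : TrM m A j i k := by
  refine ⟨?_, h.2.swap⟩
  have h1 := h.1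
  unfold Mv at *
  omega

theorem TrM.swap' {i j k : Fin n} (h : TrM m A i j k) : TrM m A i k j := by
  refine ⟨?_, h.2.swap'⟩
  have h1 := h.1
  unfold Mv at *
  omega

/-- At least three of the four strands are moving. -/
def Mv3 (m : ℕ) (p q k l : Fin n) : Prop :=
  (m ≤ p.val ∧ m ≤ q.val ∧ m ≤ k.val) ∨ (m ≤ p.val ∧ m ≤ q.val ∧ m ≤ l.val) ∨
    (m ≤ p.val ∧ m ≤ k.val ∧ m ≤ l.val) ∨ (m ≤ q.val ∧ m ≤ k.val ∧ m ≤ l.val)

/-- If one of the triples in a set of four strands commutes, then the generators attached to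
opposite pairs commute. -/
theorem Fl.opp (h : Fl pl m A) {p q k l : Fin n} (hpq : p ≠ q) (hkl : k ≠ l)
    (hpk : p ≠ k) (hpl : p ≠ l) (hqk : q ≠ k) (hql : q ≠ l) (hm1 : m ≤ p.val ∨ m ≤ q.val)
    (hm2 : m ≤ k.val ∨ m ≤ l.val) (hm3 : Mv3 m p q k l ∨ pl)
    (ht : TrM m A p q k ∨ TrM m A p q l ∨ TrM m A p k l ∨ TrM m A q k l) :
    Commute (sy A p q) (sy A k l) := by
  have srt : ∀ {r i s j : Fin n}, m ≤ s.val → (m ≤ i.val ∨ pl) → r < i → i < s → s < j →
      (TrM m A r i s ∨ TrM m A r i j ∨ TrM m A r s j ∨ TrM m A i s j) →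
        Commute (A r s) (A i j) := by
    intro r i s j hs hi h1 h2 h3 h4
    rcases h4 with h4 | h4 | h4 | h4
    · have h5 := h4.2.2.1
      have h6 := h4.1
      unfold Mv at h6
      rw [sy_of_lt h1, sy_of_lt h2] at h5
      exact h.crossE (by omega) h1 h2 h3 h5
    · have h5 := h4.2.2.2
      rw [sy_of_lt (h1.trans (h2.trans h3)), sy_of_lt (h2.trans h3)] at h5
      exact h.crossC hs hi h1 h2 h3 h5
    · have h5 := h4.2.2.2
      rw [sy_of_lt (h1.trans (h2.trans h3)), sy_of_lt h3] at h5
      exact h.crossA hs hi h1 h2 h3 h5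
    · have h5 := h4.2.2.2
      rw [sy_of_lt (h2.trans h3), sy_of_lt h3] at h5
      exact h.crossD hs hi h1 h2 h3 h5
  have key : ∀ {p q k l : Fin n}, p < q → k < l → p ≠ k → p ≠ l → q ≠ k → q ≠ l →
      m ≤ q.val → m ≤ l.val → (m ≤ p.val ∨ m ≤ k.val ∨ pl) →
      (TrM m A p q k ∨ TrM m A p q l ∨ TrM m A p k l ∨ TrM m A q k l) →
        Commute (A p q) (A k l) := by
    intro p q k l hpq hkl hpk hpl hqk hql hq hl h3 ht
    rcases lt_or_gt_of_ne hqk with h1 | h1
    · exact h.noncross hpq hkl hq hl (Or.inl h1)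
    rcases lt_or_gt_of_ne hpl with h2 | h2
    swap
    · exact h.noncross hpq hkl hq hl (Or.inr (Or.inl h2))
    rcases lt_or_gt_of_ne hpk with h4 | h4
    · have hk : m ≤ k.val ∨ pl := by
        rcases h3 with h3 | h3 | h3
        · exact Or.inl (h3.trans (Fin.lt_def.1 h4).le)
        · exact Or.inl h3
        · exact Or.inr h3
      rcases lt_or_gt_of_ne hql with h5 | h5
      · apply srt hq hk h4 h1 h5
        rcases ht with ht | ht | ht | ht
        · exact Or.inl ht.swap'
        · exact Or.inr (Or.inr (Or.inl ht))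
        · exact Or.inr (Or.inl ht)
        · exact Or.inr (Or.inr (Or.inr ht.swap))
      · exact h.noncross hpq hkl hq hl (Or.inr (Or.inr (Or.inl ⟨h4, h5, hk⟩)))
    · have hp : m ≤ p.val ∨ pl := by
        rcases h3 with h3 | h3 | h3
        · exact Or.inl h3
        · exact Or.inl (h3.trans (Fin.lt_def.1 h4).le)
        · exact Or.inr h3
      rcases lt_or_gt_of_ne hql with h5 | h5
      · exact h.noncross hpq hkl hq hl (Or.inr (Or.inr (Or.inr ⟨h4, h5, hp⟩)))
      · apply Commute.symm
        apply srt hl hp h4 h2 h5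
        rcases ht with ht | ht | ht | ht
        · exact Or.inr (Or.inl ht.swap'.swap)
        · exact Or.inr (Or.inr (Or.inr ht.swap'))
        · exact Or.inl ht.swap
        · exact Or.inr (Or.inr (Or.inl ht.swap.swap'))
  have hm4 : ∀ {x y : Fin n}, ((x = p ∧ y = k) ∨ (x = p ∧ y = l) ∨ (x = q ∧ y = k) ∨
      (x = q ∧ y = l)) → (m ≤ x.val ∨ m ≤ y.val ∨ pl) := by
    intro x y hxy
    rcases hm3 with hm3 | hm3
    · unfold Mv3 at hm3
      rcases hxy with ⟨rfl, rfl⟩ | ⟨rfl, rfl⟩ | ⟨rfl, rfl⟩ | ⟨rfl, rfl⟩ <;>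
        rcases hm3 with ⟨a1, a2, a3⟩ | ⟨a1, a2, a3⟩ | ⟨a1, a2, a3⟩ | ⟨a1, a2, a3⟩ <;>
          first
          | exact Or.inl a1
          | exact Or.inl a2
          | exact Or.inr (Or.inl a2)
          | exact Or.inr (Or.inl a3)
    · exact Or.inr (Or.inr hm3)
  rcases lt_or_gt_of_ne hpq with a | a <;> rcases lt_or_gt_of_ne hkl with b | b
  · rw [sy_of_lt a, sy_of_lt b]
    exact key a b hpk hpl hqk hql (by omega) (by omega) (hm4 (Or.inl ⟨rfl, rfl⟩)) ht
  · rw [sy_of_lt a, sy_of_gt b]
    refine key a b hpl hpk hql hqk (by omega) (by omega) (hm4 (Or.inr (Or.inl ⟨rfl, rfl⟩))) ?_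
    rcases ht with ht | ht | ht | ht
    · exact Or.inr (Or.inl ht)
    · exact Or.inl ht
    · exact Or.inr (Or.inr (Or.inl ht.swap'))
    · exact Or.inr (Or.inr (Or.inr ht.swap'))
  · rw [sy_of_gt a, sy_of_lt b]
    refine key a b hqk hql hpk hpl (by omega) (by omega)
      (hm4 (Or.inr (Or.inr (Or.inl ⟨rfl, rfl⟩)))) ?_
    rcases ht with ht | ht | ht | ht
    · exact Or.inl ht.swap
    · exact Or.inr (Or.inl ht.swap)
    · exact Or.inr (Or.inr (Or.inr ht))
    · exact Or.inr (Or.inr (Or.inl ht))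
  · rw [sy_of_gt a, sy_of_gt b]
    refine key a b hql hqk hpl hpk (by omega) (by omega)
      (hm4 (Or.inr (Or.inr (Or.inr ⟨rfl, rfl⟩)))) ?_
    rcases ht with ht | ht | ht | ht
    · exact Or.inr (Or.inl ht.swap)
    · exact Or.inl ht.swap
    · exact Or.inr (Or.inr (Or.inr ht.swap'))
    · exact Or.inr (Or.inr (Or.inl ht.swap'))

/-- All the triples with at least two moving strands which contain `v` commute. -/
def Iso (m : ℕ) (A : Fin n → Fin n → G) (v : Fin n) : Prop :=
  ∀ j k, v ≠ j → v ≠ k → j ≠ k → Mv m v j k → Tr A v j k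

/-- If `v` and `w` are moving and all the triples which contain `v` commute, then `A v w` commutes
with all generators. -/
theorem Fl.central (h : Fl pl m A) {v : Fin n} (hT : Iso m A v) {w k l : Fin n}
    (hv : m ≤ v.val) (hwm : m ≤ w.val) (hw : v ≠ w) (hkl : k < l) (hl : m ≤ l.val) :
    Commute (sy A v w) (A k l) := by
  rw [← sy_of_lt (A := A) hkl]
  by_cases hvk : v = k
  · subst hvk
    by_cases hwl : w = l
    · rw [hwl]
    · exact (hT w l hw hkl.ne hwl (Or.inl ⟨hv, hwm⟩)).1
  by_cases hvl : v = l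
  · subst hvl
    rw [sy_comm k v]
    by_cases hwk : w = k
    · rw [hwk]
    · exact (hT w k hw hvk hwk (Or.inl ⟨hv, hwm⟩)).1
  by_cases hwk : w = k
  · subst hwk
    exact (hT w l hw hvl hkl.ne (Or.inl ⟨hv, hwm⟩)).2.1
  by_cases hwl : w = l
  · subst hwl
    rw [sy_comm k w]
    exact (hT w k hw hvk hwk (Or.inl ⟨hv, hwm⟩)).2.1
  exact h.opp hw hkl.ne hvk hvl hwk hwl (Or.inl hv) (Or.inr hl)
    (Or.inl (Or.inr (Or.inl ⟨hv, hwm, hl⟩)))
    (Or.inl ⟨Or.inl ⟨hv, hwm⟩, hT w k hw hvk hwk (Or.inl ⟨hv, hwm⟩)⟩)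

/-- If `v` is moving and all the triples which contain `v` commute, then `A p v` commutes with the
generators `A k l` such that `v` is not `k` or `l`, and `k` is moving or equal to `p`, or `pl`
holds. -/
theorem Fl.central' (h : Fl pl m A) {v : Fin n} (hT : Iso m A v) {p k l : Fin n}
    (hv : m ≤ v.val) (hp : v ≠ p) (hkl : k < l) (hl : m ≤ l.val) (hvk : v ≠ k) (hvl : v ≠ l)
    (hk : m ≤ k.val ∨ k = p ∨ pl) : Commute (sy A v p) (A k l) := by
  rw [← sy_of_lt (A := A) hkl]
  by_cases hpk : p = k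
  · subst hpk
    exact (hT p l hp hvl hkl.ne (Or.inr (Or.inl ⟨hv, hl⟩))).2.1
  by_cases hpl : p = l
  · subst hpl
    rw [sy_comm k p]
    exact (hT p k hp hvk hpk (Or.inl ⟨hv, hl⟩)).2.1
  have hm3 : Mv3 m v p k l ∨ pl := by
    rcases hk with hk | hk | hk
    · exact Or.inl (Or.inr (Or.inr (Or.inl ⟨hv, hk, hl⟩)))
    · exact absurd hk.symm hpk
    · exact Or.inr hk
  exact h.opp hp hkl.ne hvk hvl hpk hpl (Or.inl hv) (Or.inr hl) hm3
    (Or.inr (Or.inl ⟨Or.inr (Or.inl ⟨hv, hl⟩), hT p l hp hvl hpl (Or.inr (Or.inl ⟨hv, hl⟩))⟩))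

end

section

variable {K D : Type*} [Field K] [Ring D] [Algebra K D] [FiniteDimensional K D] [Nontrivial D]

variable (K) in
/-- A family `T p` such that `T p` commutes with `x k` for all `k` before `p` and not with `x p`
has fewer members than the dimension of the algebra. -/
theorem drop_bound {ι : Type*} (κ : ι → ℕ) (x T : ι → D) (S : Finset ι)
    (h1 : ∀ p ∈ S, ∀ k ∈ S, κ k < κ p → Commute (T p) (x k))
    (h2 : ∀ p ∈ S, ¬ Commute (T p) (x p)) (hinj : ∀ p ∈ S, ∀ k ∈ S, κ k = κ p → k = p) :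
    S.card + 1 ≤ Module.finrank K D := by
  classical
  let V : Finset ι → Submodule K D := fun S' =>
    { carrier := {M | ∀ k ∈ S', Commute M (x k)}
      add_mem' := fun ha hb k hk => (ha k hk).add_left (hb k hk)
      zero_mem' := fun k _ => Commute.zero_left _
      smul_mem' := fun c a ha k hk => (ha k hk).smul_left c }
  have key : S ⊆ S → Module.finrank K (V S) + S.card ≤ Module.finrank K D := by
    refine Finset.induction_on_max_value (motive := fun S' => S' ⊆ S →
      Module.finrank K (V S') + S'.card ≤ Module.finrank K D) κ S ?_ ?_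
    · intro _
      rw [Finset.card_empty, add_zero]
      exact Submodule.finrank_le _
    · intro a s has hmax ih hsub
      have haS : a ∈ S := hsub (Finset.mem_insert_self a s)
      have hsS : s ⊆ S := fun z hz => hsub (Finset.mem_insert_of_mem hz)
      have h3 := ih hsS
      have hlt : V (insert a s) < V s := by
        refine lt_of_le_of_ne (fun M hM k hk => hM k (Finset.mem_insert_of_mem hk)) ?_
        intro heq
        have h4 : T a ∈ V s := by
          intro k hk
          apply h1 a haS k (hsS hk)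
          refine lt_of_le_of_ne (hmax k hk) fun h5 => ?_
          have h6 := hinj a haS k (hsS hk) h5
          exact has (h6 ▸ hk)
        rw [← heq] at h4
        exact h2 a haS (h4 a (Finset.mem_insert_self a s))
      have h5 := Submodule.finrank_lt_finrank_of_lt hlt
      rw [Finset.card_insert_of_notMem has]
      omega
  have h3 := key (Finset.Subset.refl S)
  have h4 : 0 < Module.finrank K (V S) := by
    have h5 : (1 : D) ∈ V S := fun k _ => Commute.one_left _
    have h6 : V S ≠ ⊥ := by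
      intro h7
      rw [h7, Submodule.mem_bot] at h5
      exact one_ne_zero h5
    exact Module.finrank_pos_iff.2 ((Submodule.nontrivial_iff_ne_bot).2 h6)
  omega

variable {pl : Prop} {m n : ℕ} {A : Fin n → Fin n → Dˣ}

variable (K) in
/-- Let `A` be a family of pure braid generators in the group of units of an algebra of finite
dimension `d` over a field. There is a set `M` of at most `3 (d - 1)` moving strands such that all
triples which contain a moving strand outside of `M`, and another moving strand, commute. -/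
theorem Fl.iso_off (h : Fl pl m A) : ∃ M : Finset (Fin n),
    (∀ v ∈ M, m ≤ v.val) ∧ M.card ≤ 3 * (Module.finrank K D - 1) ∧
      ∀ v, m ≤ v.val → v ∉ M → Iso m A v := by
  classical
  have hpos : 0 < Module.finrank K D := Module.finrank_pos
  -- the middle strands of the triples which do not commute
  let B : Finset (Fin n) := Finset.univ.filter fun b =>
    m ≤ b.val ∧ ∃ a c, a < b ∧ b < c ∧ ¬ Tr A a b c
  -- the other first and last strands
  let L : Finset (Fin n) := Finset.univ.filter fun a => m ≤ a.val ∧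
    a ∉ B ∧ ∃ b, a < b ∧ (∃ c, b < c ∧ ¬ Tr A a b c) ∧ ∀ b', a < b' → b' < b →
      ∀ c, b' < c → Tr A a b' c
  let R : Finset (Fin n) := Finset.univ.filter fun c => m ≤ c.val ∧
    c ∉ B ∧ ∃ b, m ≤ b.val ∧ b < c ∧ (∃ a, a < b ∧ ¬ Tr A a b c) ∧ ∀ b', b < b' → b' < c →
      ∀ a, a < b' → Tr A a b' c
  have hB : B.card + 1 ≤ Module.finrank K D := by
    choose! a c hac using fun (b : Fin n) (hb : b ∈ B) => (Finset.mem_filter.1 hb).2.2
    refine drop_bound K (fun b => b.val) (fun b => ((A (a b) b : Dˣ) : D))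
      (fun b => ((A b (c b) : Dˣ) : D)) B (fun p hp q hq hlt => ?_) (fun p hp hcon => ?_)
      (fun p _ q _ he => Fin.ext he)
    · obtain ⟨a1, a2, a3⟩ := hac p hp
      obtain ⟨b1, b2, b3⟩ := hac q hq
      have m1 := (Finset.mem_filter.1 hp).2.1
      have m2 := (Finset.mem_filter.1 hq).2.1
      have hlt' : q < p := hlt
      exact (h.noncross a2 b1 (by omega) m2 (Or.inr (Or.inl hlt'))).units_val
    · obtain ⟨a1, a2, a3⟩ := hac p hp
      have m1 := (Finset.mem_filter.1 hp).2.1
      exact a3 (h.tr_of_lt m1 a1 a2 (Or.inr (Or.inl (Commute.units_of_val hcon).symm)))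
  have hL : L.card + 1 ≤ Module.finrank K D := by
    choose! b hb using fun (a : Fin n) (ha : a ∈ L) => (Finset.mem_filter.1 ha).2.2.2
    choose! c hc using fun (a : Fin n) (ha : a ∈ L) => (hb a ha).2.1
    refine drop_bound K (fun a => a.val) (fun a => ((A a (b a) : Dˣ) : D))
      (fun a => ((A a (c a) : Dˣ) : D)) L (fun p hp q hq hlt => ?_) (fun p hp hcon => ?_)
      (fun p _ q _ he => Fin.ext he)
    · obtain ⟨a1, -, -⟩ := hb p hp
      obtain ⟨a2, a3⟩ := hc p hp
      obtain ⟨b1, -, b2⟩ := hb q hq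
      obtain ⟨b3, b4⟩ := hc q hq
      have m1 := (Finset.mem_filter.1 hp).2.1
      have m2 := (Finset.mem_filter.1 hq).2.1
      have hqp : q < p := hlt
      have hpc : p < c p := a1.trans a2
      apply Commute.units_val
      rcases lt_trichotomy (b q) p with h1 | h1 | h1
      · exact h.noncross hpc b1 (by omega) (by omega) (Or.inr (Or.inl h1))
      · exfalso
        apply (Finset.mem_filter.1 hp).2.2.1
        exact Finset.mem_filter.2 ⟨Finset.mem_univ _, m1, q, c q, hqp, h1 ▸ b3,
          by rw [← h1]; exact b4⟩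
      · have ht : Tr A q p (c p) := b2 p hqp h1 (c p) hpc
        have h3 := ht.2.2
        rw [sy_of_lt (hqp.trans hpc), sy_of_lt hpc] at h3
        rcases lt_trichotomy (b q) (c p) with h2 | h2 | h2
        · exact (h.crossC (by omega) (Or.inl (by omega)) hqp h1 h2 h3).symm
        · rw [h2]
          exact h3.symm
        · exact h.noncross hpc b1 (by omega) (by omega)
            (Or.inr (Or.inr (Or.inr ⟨hqp, h2, Or.inl m1⟩)))
    · obtain ⟨a1, -, -⟩ := hb p hp
      obtain ⟨a2, a3⟩ := hc p hp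
      have m1 := (Finset.mem_filter.1 hp).2.1
      exact a3 (h.tr_of_lt (by omega) a1 a2 (Or.inl (Commute.units_of_val hcon).symm))
  have hR : R.card + 1 ≤ Module.finrank K D := by
    choose! b hb using fun (c : Fin n) (hc : c ∈ R) => (Finset.mem_filter.1 hc).2.2.2
    choose! a ha using fun (c : Fin n) (hc : c ∈ R) => (hb c hc).2.2.1
    refine drop_bound K (fun c => n - c.val) (fun c => ((A (b c) c : Dˣ) : D))
      (fun c => ((A (a c) c : Dˣ) : D)) R (fun p hp q hq hlt => ?_) (fun p hp hcon => ?_)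
      (fun p _ q _ he => by
        have h1 := p.2
        have h2 := q.2
        apply Fin.ext
        omega)
    · obtain ⟨a0, a1, -, -⟩ := hb p hp
      obtain ⟨a2, a3⟩ := ha p hp
      obtain ⟨b0, b1, -, b2⟩ := hb q hq
      obtain ⟨b3, b4⟩ := ha q hq
      have m1 := (Finset.mem_filter.1 hp).2.1
      have m2 := (Finset.mem_filter.1 hq).2.1
      have hpq : p < q := by
        have h1 := p.2
        have h2 := q.2
        have h3 : n - q.val < n - p.val := hlt
        exact Fin.lt_def.2 (by omega)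
      have hap : a p < p := a2.trans a1
      apply Commute.units_val
      rcases lt_trichotomy (b q) p with h1 | h1 | h1
      · have ht : Tr A (a p) p q := b2 p h1 hpq (a p) hap
        rcases lt_trichotomy (b q) (a p) with h2 | h2 | h2
        · exact h.noncross hap b1 m1 m2
            (Or.inr (Or.inr (Or.inr ⟨h2, hpq, Or.inl (by omega)⟩)))
        · have h3 := ht.1
          rw [sy_of_lt hap, sy_of_lt (hap.trans hpq)] at h3
          rw [h2]
          exact h3
        · have h3 := ht.2.2
          rw [sy_of_lt (hap.trans hpq), sy_of_lt hpq] at h3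
          exact h.crossA m1 (Or.inl b0) h2 h1 hpq h3
      · exfalso
        apply (Finset.mem_filter.1 hp).2.2.1
        exact Finset.mem_filter.2 ⟨Finset.mem_univ _, m1, a q, q, h1 ▸ b3, hpq,
          by rw [← h1]; exact b4⟩
      · exact h.noncross hap b1 m1 m2 (Or.inl h1)
    · obtain ⟨a0, a1, -, -⟩ := hb p hp
      obtain ⟨a2, a3⟩ := ha p hp
      have m1 := (Finset.mem_filter.1 hp).2.1
      exact a3 (h.tr_of_lt a0 a2 a1 (Or.inr (Or.inr (Commute.units_of_val hcon))))
  refine ⟨B ∪ L ∪ R, fun v hv => ?_, ?_, ?_⟩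
  · rcases Finset.mem_union.1 hv with hv | hv
    · rcases Finset.mem_union.1 hv with hv | hv
      · exact (Finset.mem_filter.1 hv).2.1
      · exact (Finset.mem_filter.1 hv).2.1
    · exact (Finset.mem_filter.1 hv).2.1
  · have h1 := Finset.card_union_le (B ∪ L) R
    have h2 := Finset.card_union_le B L
    omega
  · have hmemL : ∀ a b c, m ≤ a.val → a < b → b < c → ¬ Tr A a b c → a ∈ B ∪ L ∪ R := by
      intro a b c ha hab hbc hT
      by_cases haB : a ∈ B
      · exact Finset.mem_union_left _ (Finset.mem_union_left _ haB)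
      · apply Finset.mem_union_left
        apply Finset.mem_union_right
        refine Finset.mem_filter.2 ⟨Finset.mem_univ _, ha, haB, ?_⟩
        let S : Finset (Fin n) := Finset.univ.filter fun b => a < b ∧ ∃ c, b < c ∧ ¬ Tr A a b c
        have hS : S.Nonempty := ⟨b, Finset.mem_filter.2 ⟨Finset.mem_univ _, hab, c, hbc, hT⟩⟩
        refine ⟨S.min' hS, ?_, ?_, fun b' h1 h2 c' h3 => ?_⟩
        · exact (Finset.mem_filter.1 (S.min'_mem hS)).2.1
        · exact (Finset.mem_filter.1 (S.min'_mem hS)).2.2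
        · by_contra hcon
          have h4 : b' ∈ S := Finset.mem_filter.2 ⟨Finset.mem_univ _, h1, c', h3, hcon⟩
          exact absurd h2 (S.min'_le b' h4).not_gt
    have hmemR : ∀ a b c, m ≤ b.val → a < b → b < c → ¬ Tr A a b c → c ∈ B ∪ L ∪ R := by
      intro a b c hb hab hbc hT
      by_cases hcB : c ∈ B
      · exact Finset.mem_union_left _ (Finset.mem_union_left _ hcB)
      · apply Finset.mem_union_right
        refine Finset.mem_filter.2 ⟨Finset.mem_univ _, by omega, hcB, ?_⟩
        let S : Finset (Fin n) := Finset.univ.filter fun b =>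
          m ≤ b.val ∧ b < c ∧ ∃ a, a < b ∧ ¬ Tr A a b c
        have hS : S.Nonempty := ⟨b, Finset.mem_filter.2 ⟨Finset.mem_univ _, hb, hbc, a, hab, hT⟩⟩
        refine ⟨S.max' hS, ?_, ?_, ?_, fun b' h1 h2 a' h3 => ?_⟩
        · exact (Finset.mem_filter.1 (S.max'_mem hS)).2.1
        · exact (Finset.mem_filter.1 (S.max'_mem hS)).2.2.1
        · exact (Finset.mem_filter.1 (S.max'_mem hS)).2.2.2
        · by_contra hcon
          have h5 := (Finset.mem_filter.1 (S.max'_mem hS)).2.1
          have h4 : b' ∈ S := Finset.mem_filter.2 ⟨Finset.mem_univ _, by omega, h2, a', h3, hcon⟩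
          exact absurd h1 (S.le_max' b' h4).not_gt
    have hmemB : ∀ a b c, m ≤ b.val → a < b → b < c → ¬ Tr A a b c → b ∈ B ∪ L ∪ R := by
      intro a b c hb hab hbc hT
      exact Finset.mem_union_left _ (Finset.mem_union_left _
        (Finset.mem_filter.2 ⟨Finset.mem_univ _, hb, a, c, hab, hbc, hT⟩))
    intro v hvm hv j k hvj hvk hjk hmv
    by_contra hcon
    apply hv
    unfold Mv at hmv
    rcases lt_or_gt_of_ne hvj with h1 | h1 <;> rcases lt_or_gt_of_ne hvk with h2 | h2 <;>
      rcases lt_or_gt_of_ne hjk with h3 | h3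
    · exact hmemL v j k hvm h1 h3 hcon
    · exact hmemL v k j hvm h2 h3 (fun ht => hcon ht.swap')
    · exact absurd (h1.trans h3) h2.not_gt
    · exact hmemB k v j hvm h2 h1 (fun ht => hcon ht.swap.swap')
    · exact hmemB j v k hvm h1 h2 (fun ht => hcon ht.swap)
    · exact absurd (h2.trans h3) h1.not_gt
    · exact hmemR j k v (by omega) h3 h2 (fun ht => hcon ht.swap'.swap)
    · exact hmemR k j v (by omega) h3 h1 (fun ht => hcon ht.swap.swap'.swap)

variable (K) in
/-- Let `A` be a family of pure braid generators in the group of units of an algebra of finite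
dimension `d` over a field. There is a set `M` of at most `3 (d - 1)` moving strands such that the
generator attached to two moving strands commutes with all generators unless both strands are in
`M`, and, for a fixed strand `i` and a moving strand `j` outside of `M`, `A i j` commutes with the
`A k l` such that `j` is not `k` or `l`, and `k` is moving or equal to `i`, or all of Artin's
relations hold. -/
theorem Fl.support (h : Fl False m A) : ∃ M : Finset (Fin n),
    (∀ v ∈ M, m ≤ v.val) ∧ M.card ≤ 3 * (Module.finrank K D - 1) ∧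
      (∀ i j, m ≤ i.val → i < j → ¬ (i ∈ M ∧ j ∈ M) → ∀ k l, k < l → m ≤ l.val →
        Commute (A i j) (A k l)) ∧
      ∀ i j, i.val < m → m ≤ j.val → j ∉ M → ∀ k l, k < l → m ≤ l.val → j ≠ k → j ≠ l →
        (m ≤ k.val ∨ k = i ∨ Fl True m A) → Commute (A i j) (A k l) := by
  obtain ⟨M, h1, h2, h3⟩ := h.iso_off K
  refine ⟨M, h1, h2, fun i j hi hij hnot k l hkl hl => ?_,
    fun i j hi hj hjM k l hkl hl hjk hjl hk => ?_⟩
  · rw [← sy_of_lt (A := A) hij]
    by_cases hiM : i ∈ M
    · have hj : j ∉ M := fun hj => hnot ⟨hiM, hj⟩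
      rw [sy_comm i j]
      exact h.central (h3 j (by omega) hj) (by omega) hi hij.ne' hkl hl
    · exact h.central (h3 i hi hiM) hi (by omega) hij.ne hkl hl
  · have hij : i < j := Fin.lt_def.2 (by omega)
    rw [← sy_of_lt (A := A) hij, sy_comm i j]
    rcases hk with hk | hk | hk
    · exact h.central' (h3 j hj hjM) hj hij.ne' hkl hl hjk hjl (Or.inl hk)
    · exact h.central' (h3 j hj hjM) hj hij.ne' hkl hl hjk hjl (Or.inr (Or.inl hk))
    · exact hk.central' (h3 j hj hjM) hj hij.ne' hkl hl hjk hjl (Or.inr (Or.inr trivial))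

end

end Pool.Agent.BraidRep
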