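import Pool.Agent.Lib.GeoOrig.BraidTwo

/-!
# Scalar matrices and the fundamental groups of the sphere with four punctures
-/

namespace Pool.Agent.BraidRep

open Matrix

section

variable {K : Type*} [Field K] {r : ℕ}

/-- `g` is a scalar matrix. -/
def Scal (g : GL (Fin r) K) : Prop :=
  ∃ c : K, (g : Matrix (Fin r) (Fin r) K) = c • (1 : Matrix (Fin r) (Fin r) K)

theorem Scal.commute {g : GL (Fin r) K} (h : Scal g) (k : GL (Fin r) K) :
    Commute g k := by
  obtain ⟨c, hc⟩ := h
  apply Units.ext
  rw [Units.val_mul, Units.val_mul, hc, smul_mul_assoc, one_mul, mul_smul_comm, mul_one]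

theorem Scal.one : Scal (1 : GL (Fin r) K) := ⟨1, by rw [one_smul, Units.val_one]⟩

theorem Scal.mul {g h : GL (Fin r) K} (hg : Scal g) (hh : Scal h) : Scal (g * h) := by
  obtain ⟨c, hc⟩ := hg
  obtain ⟨d, hd⟩ := hh
  refine ⟨c * d, ?_⟩
  rw [Units.val_mul, hc, hd, smul_mul_assoc, one_mul, smul_smul]

theorem Scal.inv {g : GL (Fin r) K} (hg : Scal g) : Scal g⁻¹ := by
  obtain ⟨c, hc⟩ := hg
  by_cases h0 : c = 0
  · refine ⟨0, ?_⟩
    have h1 : (g : Matrix (Fin r) (Fin r) K) = 0 := by rw [hc, h0, zero_smul]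
    have h2 : (1 : Matrix (Fin r) (Fin r) K) = 0 := by
      rw [← Units.mul_inv g, h1, zero_mul]
    have h3 : (g⁻¹ : GL (Fin r) K).val = (g⁻¹ : GL (Fin r) K).val * 1 := (mul_one _).symm
    rw [h3, h2, mul_zero, zero_smul]
  · refine ⟨c⁻¹, ?_⟩
    have h1 : (g : Matrix (Fin r) (Fin r) K) * (c⁻¹ • 1) = 1 := by
      rw [hc, smul_mul_assoc, one_mul, smul_smul, mul_inv_cancel₀ h0, one_smul]
    exact Units.inv_eq_of_mul_eq_one_right h1

variable (K r) in
/-- The group of scalar matrices. -/
def scalars : Subgroup (GL (Fin r) K) where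
  carrier := {g | Scal g}
  mul_mem' := Scal.mul
  one_mem' := Scal.one
  inv_mem' := Scal.inv

instance scalars_normal : (scalars K r).Normal := by
  refine ⟨fun g hg k => ?_⟩
  have h1 : Commute g k⁻¹ := Scal.commute hg k⁻¹
  have h2 : k * g * k⁻¹ = g := by rw [mul_assoc, h1.eq]; group
  rw [h2]
  exact hg

/-- Commuting matrices of size two: the centraliser of a matrix which is not a scalar is
commutative. -/
theorem comm_trans {a b c : GL (Fin 2) K} (ha : ¬ Scal a) (hab : Commute a b)
    (hac : Commute a c) : Commute b c := by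
  have key : ∀ {u v : GL (Fin 2) K}, Commute u v → u.val 0 1 * v.val 1 0 = u.val 1 0 * v.val 0 1 ∧
      (u.val 0 0 - u.val 1 1) * v.val 0 1 = u.val 0 1 * (v.val 0 0 - v.val 1 1) ∧
      (u.val 0 0 - u.val 1 1) * v.val 1 0 = u.val 1 0 * (v.val 0 0 - v.val 1 1) := by
    intro u v h
    have h1 : u.val * v.val = v.val * u.val := by
      rw [← Units.val_mul, ← Units.val_mul, h.eq]
    have e : ∀ i j, (u.val * v.val) i j = (v.val * u.val) i j := fun i j => by rw [h1]
    have e00 := e 0 0
    have e01 := e 0 1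
    have e10 := e 1 0
    simp only [Matrix.mul_apply, Fin.sum_univ_two] at e00 e01 e10
    refine ⟨?_, ?_, ?_⟩
    · linear_combination e00
    · linear_combination e01
    · linear_combination -e10
  obtain ⟨b1, b2, b3⟩ := key hab
  obtain ⟨c1, c2, c3⟩ := key hac
  have hne : a.val 0 1 ≠ 0 ∨ a.val 1 0 ≠ 0 ∨ a.val 0 0 - a.val 1 1 ≠ 0 := by
    by_contra hcon
    push Not at hcon
    obtain ⟨h1, h2, h3⟩ := hcon
    apply ha
    refine ⟨a.val 0 0, ?_⟩
    ext i j
    fin_cases i <;> fin_cases j
    · simp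
    · simpa using h1
    · simpa using h2
    · simpa using (sub_eq_zero.1 h3).symm
  have h1 : b.val 0 1 * c.val 1 0 = b.val 1 0 * c.val 0 1 := by
    rcases hne with h | h | h
    · apply mul_left_cancel₀ h
      linear_combination b.val 0 1 * c1 - c.val 0 1 * b1
    · apply mul_left_cancel₀ h
      linear_combination b.val 1 0 * c1 - c.val 1 0 * b1
    · apply mul_left_cancel₀ (mul_ne_zero h h)
      linear_combination (a.val 0 0 - a.val 1 1) * c.val 1 0 * b2 +
        a.val 0 1 * (b.val 0 0 - b.val 1 1) * c3 - (a.val 0 0 - a.val 1 1) * c.val 0 1 * b3 -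
        a.val 1 0 * (b.val 0 0 - b.val 1 1) * c2
  have h2 : (b.val 0 0 - b.val 1 1) * c.val 0 1 = b.val 0 1 * (c.val 0 0 - c.val 1 1) := by
    rcases hne with h | h | h
    · apply mul_left_cancel₀ h
      linear_combination b.val 0 1 * c2 - c.val 0 1 * b2
    · apply mul_left_cancel₀ h
      linear_combination -c.val 0 1 * b3 + b.val 0 1 * c3 - (a.val 0 0 - a.val 1 1) * h1
    · apply mul_left_cancel₀ h
      linear_combination (b.val 0 0 - b.val 1 1) * c2 - (c.val 0 0 - c.val 1 1) * b2
  have h3 : (b.val 0 0 - b.val 1 1) * c.val 1 0 = b.val 1 0 * (c.val 0 0 - c.val 1 1) := by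
    rcases hne with h | h | h
    · apply mul_left_cancel₀ h
      linear_combination -c.val 1 0 * b2 + b.val 1 0 * c2 + (a.val 0 0 - a.val 1 1) * h1
    · apply mul_left_cancel₀ h
      linear_combination b.val 1 0 * c3 - c.val 1 0 * b3
    · apply mul_left_cancel₀ h
      linear_combination (b.val 0 0 - b.val 1 1) * c3 - (c.val 0 0 - c.val 1 1) * b3
  apply Units.ext
  rw [Units.val_mul, Units.val_mul]
  ext i j
  fin_cases i <;> fin_cases j
  · simp [Matrix.mul_apply, Fin.sum_univ_two]
    linear_combination h1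
  · simp [Matrix.mul_apply, Fin.sum_univ_two]
    linear_combination h2
  · simp [Matrix.mul_apply, Fin.sum_univ_two]
    linear_combination -h3
  · simp [Matrix.mul_apply, Fin.sum_univ_two]
    linear_combination -h1

theorem ct_scalars : CT (scalars K 2) Set.univ := by
  refine ⟨fun _ hz g => Scal.commute hz g, fun _ _ _ => Set.mem_univ _, ?_⟩
  intro a b c _ _ hbc hab hac
  by_contra ha
  exact hbc (comm_trans ha hab hac)

theorem mem_center_iff {g : GL (Fin r) K} : g ∈ Subgroup.center (GL (Fin r) K) ↔ Scal g := by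
  constructor
  · intro h
    rw [Matrix.GeneralLinearGroup.center_eq_range_scalar] at h
    obtain ⟨u, hu⟩ := h
    refine ⟨u.val, ?_⟩
    rw [← hu]
    ext i j
    by_cases hij : i = j
    · subst hij
      simp
    · simp [hij]
  · intro h
    rw [Subgroup.mem_center_iff]
    exact fun k => (h.commute k).eq.symm

/-- If `a b` is a multiple of `b a` and `b ^ 2` is not a scalar then `a` and `b` commute. -/
theorem commute_or_sq {a b : GL (Fin 2) K} {z : GL (Fin 2) K} (hz : Scal z)
    (h : a * b = b * a * z) : Commute a b ∨ Scal (b ^ 2) := by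
  obtain ⟨c, hc⟩ := hz
  by_cases h1 : c = 1
  · left
    apply Units.ext
    have h2 : z = 1 := by
      apply Units.ext
      rw [hc, h1, one_smul, Units.val_one]
    rw [h, h2, mul_one]
  · right
    have h3 : a * b * a⁻¹ = b * (a * z * a⁻¹) := by rw [h]; group
    have hz' : Scal z := ⟨c, hc⟩
    have h4 : a * z * a⁻¹ = z := by
      rw [← (hz'.commute a).eq]
      group
    rw [h4] at h3
    have h5 : Matrix.trace (a * b * a⁻¹ : GL (Fin 2) K).val = Matrix.trace b.val := by
      rw [Units.val_mul, Units.val_mul, Matrix.trace_mul_comm, ← mul_assoc, ← Units.val_mul,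
        inv_mul_cancel, Units.val_one, one_mul]
    have h6 : Matrix.trace (b * z : GL (Fin 2) K).val = c * Matrix.trace b.val := by
      rw [Units.val_mul, hc, mul_smul_comm, mul_one, Matrix.trace_smul, smul_eq_mul]
    rw [h3, h6] at h5
    have h7 : Matrix.trace b.val = 0 := by
      have h8 : (c - 1) * Matrix.trace b.val = 0 := by linear_combination h5
      rcases mul_eq_zero.1 h8 with h9 | h9
      · exact absurd (sub_eq_zero.1 h9) h1
      · exact h9
    rw [Matrix.trace_fin_two] at h7
    refine ⟨b.val 0 0 ^ 2 + b.val 0 1 * b.val 1 0, ?_⟩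
    rw [Units.val_pow_eq_pow_val]
    ext i j
    fin_cases i <;> fin_cases j
    · simp [pow_two, Matrix.mul_apply, Fin.sum_univ_two]
    · simp [pow_two, Matrix.mul_apply, Fin.sum_univ_two]
      linear_combination b.val 0 1 * h7
    · simp [pow_two, Matrix.mul_apply, Fin.sum_univ_two]
      linear_combination b.val 1 0 * h7
    · simp [pow_two, Matrix.mul_apply, Fin.sum_univ_two]
      linear_combination (b.val 1 1 - b.val 0 0) * h7

/-- In `PGL₂` the centraliser of two elements which do not commute and do not have order two is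
trivial. -/
theorem ct_pgl : CT (⊥ : Subgroup (GL (Fin 2) K ⧸ Subgroup.center (GL (Fin 2) K)))
    {x | x ^ 2 = 1 → x = 1} := by
  refine ⟨fun z hz g => ?_, fun b hb g => ?_, ?_⟩
  · rw [Subgroup.mem_bot] at hz
    rw [hz]
    exact Commute.one_left g
  · show (g⁻¹ * b * g) ^ 2 = 1 → g⁻¹ * b * g = 1
    intro h
    have h1 : b ^ 2 = 1 := by
      have h2 : b ^ 2 = g * (g⁻¹ * b * g) ^ 2 * g⁻¹ := by
        rw [pow_two, pow_two]
        group
      rw [h2, h]
      group
    have h3 : b = 1 := hb h1
    rw [h3]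
    group
  · intro a b c hb hc hbc hab hac
    obtain ⟨a, rfl⟩ := QuotientGroup.mk_surjective a
    obtain ⟨b, rfl⟩ := QuotientGroup.mk_surjective b
    obtain ⟨c, rfl⟩ := QuotientGroup.mk_surjective c
    have key : ∀ d : GL (Fin 2) K,
        (((d : GL (Fin 2) K ⧸ Subgroup.center (GL (Fin 2) K)) ^ 2 = 1 →
          (d : GL (Fin 2) K ⧸ Subgroup.center (GL (Fin 2) K)) = 1)) →
        Commute (a : GL (Fin 2) K ⧸ Subgroup.center (GL (Fin 2) K)) d → Commute a d := by
      intro d hd had
      have h1 : ((a * d : GL (Fin 2) K) : GL (Fin 2) K ⧸ Subgroup.center (GL (Fin 2) K)) =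
          ((d * a : GL (Fin 2) K) : GL (Fin 2) K ⧸ Subgroup.center (GL (Fin 2) K)) := by
        rw [QuotientGroup.mk_mul, QuotientGroup.mk_mul]
        exact had.eq
      rw [eq_comm, QuotientGroup.eq, mem_center_iff] at h1
      rcases commute_or_sq h1 (by group : a * d = d * a * ((d * a)⁻¹ * (a * d))) with h2 | h2
      · exact h2
      · rw [← mem_center_iff] at h2
        have h3 : (d : GL (Fin 2) K ⧸ Subgroup.center (GL (Fin 2) K)) ^ 2 = 1 := by
          rw [← QuotientGroup.mk_pow]
          exact (QuotientGroup.eq_one_iff _).2 h2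
        have h4 := (QuotientGroup.eq_one_iff _).1 (hd h3)
        rw [mem_center_iff] at h4
        exact (h4.commute a).symm
    rw [Subgroup.mem_bot, QuotientGroup.eq_one_iff, mem_center_iff]
    by_contra ha
    apply hbc
    have h5 := comm_trans ha (key b hb hab) (key c hc hac)
    show (b : GL (Fin 2) K ⧸ Subgroup.center (GL (Fin 2) K)) * c = c * b
    rw [← QuotientGroup.mk_mul, h5.eq, QuotientGroup.mk_mul]

theorem scal_iff {g : GL (Fin r) K} : Scal g ↔ (∀ i j, i ≠ j → g.val i j = 0) ∧
    ∀ i j, g.val i i = g.val j j := by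
  constructor
  · rintro ⟨c, hc⟩
    rw [hc]
    refine ⟨fun i j hij => ?_, fun i j => ?_⟩
    · rw [Matrix.smul_apply, Matrix.one_apply_ne hij, smul_zero]
    · rw [Matrix.smul_apply, Matrix.smul_apply, Matrix.one_apply_eq, Matrix.one_apply_eq]
  · rintro ⟨h1, h2⟩
    by_cases hr : Nonempty (Fin r)
    · obtain ⟨i0⟩ := hr
      refine ⟨g.val i0 i0, ?_⟩
      ext i j
      by_cases hij : i = j
      · rw [hij, Matrix.smul_apply, Matrix.one_apply_eq, smul_eq_mul, mul_one]
        exact h2 j i0
      · rw [Matrix.smul_apply, Matrix.one_apply_ne hij, smul_zero]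
        exact h1 i j hij
    · exact ⟨1, by ext i; exact absurd ⟨i⟩ hr⟩

theorem isClosed_scal [TopologicalSpace K] [T2Space K] :
    IsClosed {g : GL (Fin r) K | Scal g} := by
  have h2 : {g : GL (Fin r) K | Scal g} =
      (⋂ i, ⋂ j, {g : GL (Fin r) K | i ≠ j → g.val i j = 0}) ∩
        ⋂ i, ⋂ j, {g : GL (Fin r) K | g.val i i = g.val j j} := by
    ext g
    simp only [Set.mem_inter_iff, Set.mem_iInter, Set.mem_ofPred_eq]
    exact scal_iff
  have h0 : Continuous fun g : GL (Fin r) K => (g : Matrix (Fin r) (Fin r) K) :=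
    Units.continuous_val
  have h3 : ∀ i j, Continuous fun g : GL (Fin r) K => g.val i j := fun i j => h0.matrix_elem i j
  rw [h2]
  refine IsClosed.inter (isClosed_iInter fun i => isClosed_iInter fun j => ?_)
    (isClosed_iInter fun i => isClosed_iInter fun j => isClosed_eq (h3 i i) (h3 j j))
  by_cases hij : i = j
  · have h4 : {g : GL (Fin r) K | i ≠ j → g.val i j = 0} = Set.univ := by
      ext g
      simp [hij]
    rw [h4]
    exact isClosed_univ
  · have h4 : {g : GL (Fin r) K | i ≠ j → g.val i j = 0} =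
        {g : GL (Fin r) K | g.val i j = 0} := by
      ext g
      simp [hij]
    rw [h4]
    exact isClosed_eq (h3 i j) continuous_const

/-- The elements which act by scalars form a closed normal subgroup. -/
theorem scal_closure [TopologicalSpace K] [T2Space K] {P : Type*} [Group P] [TopologicalSpace P]
    [IsTopologicalGroup P] {ρ : P →* GL (Fin r) K} (hρ : Continuous ρ) {R : Set P}
    (hR : ∀ x ∈ R, Scal (ρ x)) :
    ∀ g ∈ (Subgroup.normalClosure R).topologicalClosure, Scal (ρ g) := by
  have h1 : (Subgroup.normalClosure R).topologicalClosure ≤ (scalars K r).comap ρ := by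
    apply Subgroup.topologicalClosure_minimal
    · exact Subgroup.normalClosure_le_normal fun x hx => hR x hx
    · exact isClosed_scal.preimage hρ
  exact fun g hg => h1 hg

/-- The kernel of a continuous homomorphism to `PGL` is closed. -/
theorem ker_closure [TopologicalSpace K] [T2Space K] {P : Type*} [Group P] [TopologicalSpace P]
    [IsTopologicalGroup P] {ρ : P →* GL (Fin r) K ⧸ Subgroup.center (GL (Fin r) K)}
    (hρ : Continuous ρ) {R : Set P} (hR : ∀ x ∈ R, ρ x = 1) :
    ∀ g ∈ (Subgroup.normalClosure R).topologicalClosure, ρ g = 1 := by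
  have h1 : (Subgroup.normalClosure R).topologicalClosure ≤ ρ.ker := by
    apply Subgroup.topologicalClosure_minimal
    · exact Subgroup.normalClosure_le_normal fun x hx => hR x hx
    · have h2 : IsClosed ({1} : Set (GL (Fin r) K ⧸ Subgroup.center (GL (Fin r) K))) := by
        rw [← (QuotientGroup.isQuotientMap_mk _).isClosed_preimage]
        have h3 : ((↑) : GL (Fin r) K → GL (Fin r) K ⧸ Subgroup.center (GL (Fin r) K)) ⁻¹' {1} =
            {g : GL (Fin r) K | Scal g} := by
          ext g
          rw [Set.mem_preimage, Set.mem_singleton_iff, QuotientGroup.eq_one_iff, mem_center_iff]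
          rfl
        rw [h3]
        exact isClosed_scal
      exact h2.preimage hρ
  exact fun g hg => h1 hg

/-- A matrix which commutes with an irreducible set of matrices is a scalar. -/
theorem schur [IsAlgClosed K] {S : Set (GL (Fin r) K)}
    (hirr : ∀ W : Submodule K (Fin r → K),
      (∀ g ∈ S, ∀ w ∈ W, (g : Matrix (Fin r) (Fin r) K) *ᵥ w ∈ W) → W = ⊥ ∨ W = ⊤)
    {x : GL (Fin r) K} (hx : ∀ g ∈ S, Commute x g) : Scal x := by
  by_cases hr : Nonempty (Fin r)
  · have hnt : Nontrivial (Fin r → K) := inferInstance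
    obtain ⟨c, hc⟩ := Module.End.exists_eigenvalue (Matrix.toLin' (x : Matrix (Fin r) (Fin r) K))
    have hmem : ∀ w, w ∈ Module.End.eigenspace (Matrix.toLin' (x : Matrix (Fin r) (Fin r) K)) c ↔
        (x : Matrix (Fin r) (Fin r) K) *ᵥ w = c • w := by
      intro w
      rw [Module.End.mem_eigenspace_iff, Matrix.toLin'_apply]
    have h1 := hirr (Module.End.eigenspace (Matrix.toLin' (x : Matrix (Fin r) (Fin r) K)) c) (by
      intro g hg w hw
      rw [hmem] at hw ⊢
      have h2 : (x : Matrix (Fin r) (Fin r) K) * (g : Matrix (Fin r) (Fin r) K) =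
          (g : Matrix (Fin r) (Fin r) K) * (x : Matrix (Fin r) (Fin r) K) := by
        rw [← Units.val_mul, ← Units.val_mul, (hx g hg).eq]
      rw [Matrix.mulVec_mulVec, h2, ← Matrix.mulVec_mulVec, hw, Matrix.mulVec_smul])
    rcases h1 with h1 | h1
    · exact absurd h1 hc
    · refine ⟨c, ?_⟩
      apply Matrix.toLin'.injective
      apply LinearMap.ext
      intro w
      rw [Matrix.toLin'_apply, Matrix.toLin'_apply, Matrix.smul_mulVec, Matrix.one_mulVec]
      exact (hmem w).1 (h1 ▸ Submodule.mem_top)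
  · exact ⟨1, by ext i; exact absurd ⟨i⟩ hr⟩

end

section

variable {P : Type*} [Group P] {m n : ℕ}

/-- The generators `A i j` except those with `i < m` and `j = v`. In the fundamental group of the
configuration space their normal closure is the kernel of the projection `(z_j) ↦ z_v` to the
plane with `m` punctures. -/
def pointRel (m : ℕ) (A : Fin n → Fin n → P) (v : Fin n) : Set P :=
  {x | ∃ i j, i < j ∧ m ≤ j.val ∧ ¬ (i.val < m ∧ j = v) ∧ x = A i j}

/-- The generators `A i j` except those with `i, j ∈ {a, b, c}`, and the product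
`A a b * A a c * A b c`. In the fundamental group of the configuration space their normal closure
is the kernel of the map to `M_{0,4}` given by the cross ratio of `z_a, z_b, z_c, ∞`. -/
def tripleRel (m : ℕ) (A : Fin n → Fin n → P) (a b c : Fin n) : Set P :=
  {x | (∃ i j, i < j ∧ m ≤ j.val ∧
      ¬ (i ∈ ({a, b, c} : Finset (Fin n)) ∧ j ∈ ({a, b, c} : Finset (Fin n))) ∧ x = A i j) ∨
    x = A a b * A a c * A b c}

/-- The generators `A i j` except those with `i, j ∈ {a, b, c, d}`, and four relations between the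
`A i j` with `i, j ∈ {a, b, c, d}`. In the fundamental group of the configuration space their
normal closure is the kernel of the map to `M_{0,4}` given by the cross ratio of
`z_a, z_b, z_c, z_d`. -/
def quadRel (m : ℕ) (A : Fin n → Fin n → P) (a b c d : Fin n) : Set P :=
  {x | (∃ i j, i < j ∧ m ≤ j.val ∧
      ¬ (i ∈ ({a, b, c, d} : Finset (Fin n)) ∧ j ∈ ({a, b, c, d} : Finset (Fin n))) ∧
        x = A i j) ∨
    x = A a d * A b d * A c d ∨ x = A b c * (A a d)⁻¹ ∨
    x = A a c * ((A c d)⁻¹ * A b d * A c d)⁻¹ ∨ (m ≤ b.val ∧ x = A a b * (A c d)⁻¹)}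

/-- All elements of one of the closed normal subgroups generated by `pointRel m A v`,
`tripleRel m A a b c` or `quadRel m A a b c d` have the property `Q`. -/
def Factors [TopologicalSpace P] [IsTopologicalGroup P] (m : ℕ) (A : Fin n → Fin n → P)
    (Q : P → Prop) : Prop :=
  (∃ v : Fin n, m ≤ v.val ∧
    ∀ g ∈ (Subgroup.normalClosure (pointRel m A v)).topologicalClosure, Q g) ∨
  (∃ a b c : Fin n, m ≤ b.val ∧ a < b ∧ b < c ∧
    ∀ g ∈ (Subgroup.normalClosure (tripleRel m A a b c)).topologicalClosure, Q g) ∨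
  (∃ a b c d : Fin n, m ≤ c.val ∧ a < b ∧ b < c ∧ c < d ∧
    ∀ g ∈ (Subgroup.normalClosure (quadRel m A a b c d)).topologicalClosure, Q g)

variable [TopologicalSpace P] [IsTopologicalGroup P] {A : Fin n → Fin n → P}
  {G : Type*} [Group G] {Z : Subgroup G} {C : Set G}

theorem PureBraid.factors (h : PureBraid m A) (hct : CT Z C) (ρ : P →* G) {Q : P → Prop}
    (hA : ∀ i j, i < j → m ≤ j.val → ρ (A i j) ∈ C)
    (hcl : ∀ R : Set P, (∀ x ∈ R, ρ x ∈ Z) →
      ∀ g ∈ (Subgroup.normalClosure R).topologicalClosure, Q g) :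
    (∀ i j k l, i < j → m ≤ j.val → k < l → m ≤ l.val → Commute (ρ (A i j)) (ρ (A k l))) ∨
      Factors m A Q := by
  by_cases hna : ∃ i j k l, i < j ∧ m ≤ j.val ∧ k < l ∧ m ≤ l.val ∧
      ¬ Commute (ρ (A i j)) (ρ (A k l))
  · right
    rcases (h.fl.map ρ).classify hct hA hna with ⟨v, h1, h2⟩ | ⟨a, b, c, h1, h2, h3, h4, h5⟩ |
      ⟨a, b, c, d, h1, h2, h3, h4, h5, h6, h7, h8, h9⟩
    · refine Or.inl ⟨v, h1, hcl _ ?_⟩
      rintro x ⟨i, j, a1, a2, a3, rfl⟩
      exact h2 i j a1 a2 a3
    · refine Or.inr (Or.inl ⟨a, b, c, h1, h2, h3, hcl _ ?_⟩)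
      rintro x (⟨i, j, a1, a2, a3, rfl⟩ | rfl)
      · exact h4 i j a1 a2 a3
      · rw [map_mul, map_mul]
        exact h5
    · refine Or.inr (Or.inr ⟨a, b, c, d, h1, h2, h3, h4, hcl _ ?_⟩)
      rintro x (⟨i, j, a1, a2, a3, rfl⟩ | rfl | rfl | rfl | ⟨a1, rfl⟩)
      · exact h5 i j a1 a2 a3
      · rw [map_mul, map_mul]
        exact h6
      · rw [map_mul, map_inv]
        exact h7
      · rw [map_mul, map_inv, map_mul, map_mul, map_inv]
        exact h8
      · rw [map_mul, map_inv]
        exact h9 a1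
  · left
    push Not at hna
    exact fun i j k l h1 h2 h3 h4 => hna i j k l h1 h2 h3 h4

end

end Pool.Agent.BraidRep
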