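import Pool.Agent.Lib.GeoOrig.Braid

/-!
# Pure braid groups and groups with small centralisers

`Z` is a central subgroup of a group `G` and `C` is a subset, stable under conjugation, such that
the centraliser of any two elements of `C` which do not commute is contained in `Z`. Examples are
`G = C = GL₂` of a field, `Z` the scalar matrices, and `G = PGL₂`, `Z = 1`, `C` the set of the
elements whose order is not two.
-/

namespace Pool.Agent.BraidRep

section

variable {m n : ℕ} {G : Type*} [Group G] {A : Fin n → Fin n → G} {Z : Subgroup G} {C : Set G}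

/-- The elements of `Z` are central, `C` is stable under conjugation, and an element which commutes
with two elements of `C` which do not commute is in `Z`. -/
structure CT (Z : Subgroup G) (C : Set G) : Prop where
  cen : ∀ z ∈ Z, ∀ g, Commute z g
  conj : ∀ b ∈ C, ∀ g, g⁻¹ * b * g ∈ C
  mem : ∀ {a b c : G}, b ∈ C → c ∈ C → ¬ Commute b c → Commute a b → Commute a c → a ∈ Z

/-- The generators are in `C`. -/
def Gen (m : ℕ) (A : Fin n → Fin n → G) (C : Set G) : Prop :=
  ∀ i j : Fin n, i < j → m ≤ j.val → A i j ∈ C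

omit [Group G] in
theorem Gen.sy (hA : Gen m A C) {i j : Fin n} (hij : i ≠ j) (hm : m ≤ i.val ∨ m ≤ j.val) :
    sy A i j ∈ C := by
  rcases lt_or_gt_of_ne hij with h | h
  · rw [sy_of_lt h]
    exact hA i j h (by omega)
  · rw [sy_of_gt h]
    exact hA j i h (by omega)

/-- In a triple which does not commute, no two of the generators commute. -/
theorem Fl.nc (h : Fl True m A) {i j k : Fin n} (hm : Mv m i j k)
    (hij : i ≠ j) (hik : i ≠ k) (hjk : j ≠ k) (hn : ¬ Tr A i j k) :
    ¬ Commute (sy A i j) (sy A i k) ∧ ¬ Commute (sy A i j) (sy A j k) ∧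
      ¬ Commute (sy A i k) (sy A j k) := by
  have hm1 : Mv m j i k := by unfold Mv at *; omega
  have hm2 : Mv m k i j := by unfold Mv at *; omega
  refine ⟨fun hc => hn (h.tr_of_commute hm hij hik hjk hc), fun hc => hn ?_, fun hc => hn ?_⟩
  · rw [sy_comm i j] at hc
    exact (h.tr_of_commute hm1 hij.symm hjk hik hc).swap
  · rw [sy_comm i k, sy_comm j k] at hc
    exact (h.tr_of_commute hm2 hik.symm hjk.symm hij hc).swap.swap'

/-- If `x y z` does not commute and `v x y` commutes then the generators attached to `v` and one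
of `x, y, z` are in `Z`. -/
theorem Fl.four (h : Fl True m A) (hct : CT Z C) (hA : Gen m A C) {v x y z : Fin n} (hxy : x ≠ y)
    (hxz : x ≠ z) (hyz : y ≠ z) (hvx : v ≠ x) (hvy : v ≠ y) (hvz : v ≠ z) (hm : Mv m x y z)
    (hn : ¬ Tr A x y z) (ht : TrM m A v x y) :
    ((m ≤ v.val ∨ m ≤ x.val) → sy A v x ∈ Z) ∧ ((m ≤ v.val ∨ m ≤ y.val) → sy A v y ∈ Z) ∧
      ((m ≤ v.val ∨ m ≤ z.val) → sy A v z ∈ Z) := by
  obtain ⟨n1, n2, n3⟩ := h.nc hm hxy hxz hyz hn
  have hmt := ht.1
  have hvxZ : (m ≤ v.val ∨ m ≤ x.val) → sy A v x ∈ Z := by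
    intro hg
    apply hct.mem (hA.sy hxy (by unfold Mv at *; omega)) (hA.sy hyz (by unfold Mv at *; omega)) n2
    · exact ht.2.2.1
    · refine h.opp hvx hyz hvy hvz hxy hxz hg ?_ (Or.inr trivial) (Or.inl ht)
      unfold Mv at *
      omega
  have hvyZ : (m ≤ v.val ∨ m ≤ y.val) → sy A v y ∈ Z := by
    intro hg
    apply hct.mem (hA.sy hxy (by unfold Mv at *; omega)) (hA.sy hxz (by unfold Mv at *; omega)) n1
    · exact ht.2.2.2
    · refine h.opp hvy hxz hvx hvz hxy.symm hyz hg ?_ (Or.inr trivial) (Or.inl ht.swap')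
      unfold Mv at *
      omega
  refine ⟨hvxZ, hvyZ, fun hg => ?_⟩
  have hg1 : m ≤ v.val ∨ m ≤ x.val := by unfold Mv at *; omega
  have hm1 : Mv m v x z := by unfold Mv at *; omega
  have hm2 : m ≤ x.val ∨ m ≤ y.val := by unfold Mv at *; omega
  have ht1 : Tr A v x z := h.tr_of_commute hm1 hvx hvz hxz (hct.cen _ (hvxZ hg1) _)
  apply hct.mem (hA.sy hxy (by unfold Mv at *; omega)) (hA.sy hxz (by unfold Mv at *; omega)) n1
  · exact h.opp hvz hxy hvx hvy hxz.symm hyz.symm hg hm2 (Or.inr trivial)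
      (Or.inr (Or.inr (Or.inl ht)))
  · exact ht1.2.2

/-- All the triples of strands of `S`, at least two of them moving, do not commute. -/
def Full (m : ℕ) (A : Fin n → Fin n → G) (S : Finset (Fin n)) : Prop :=
  ∀ x ∈ S, ∀ y ∈ S, ∀ z ∈ S, x ≠ y → x ≠ z → y ≠ z → Mv m x y z → ¬ Tr A x y z

theorem Fl.star (h : Fl True m A) (hct : CT Z C) (hA : Gen m A C) {S : Finset (Fin n)} (hS : Full m A S)
    {b c : Fin n} (hb : b ∈ S) (hc : c ∈ S) (hbm : m ≤ b.val) (hcm : m ≤ c.val) (hbc : b ≠ c)
    (hcard : 3 ≤ S.card) {w : Fin n} (hw : w ∉ S) {y z : Fin n} (hy : y ∈ S) (hz : z ∈ S)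
    (hyz : y ≠ z) (ht : TrM m A w y z) : ∀ x ∈ S, (m ≤ w.val ∨ m ≤ x.val) → sy A w x ∈ Z := by
  have hne : ∀ x ∈ S, w ≠ x := fun x hx he => hw (he ▸ hx)
  -- the case that `y` and `z` are moving
  have key : ∀ y ∈ S, ∀ z ∈ S, m ≤ y.val → m ≤ z.val → y ≠ z → TrM m A w y z →
      ∀ x ∈ S, (m ≤ w.val ∨ m ≤ x.val) → sy A w x ∈ Z := by
    intro y hy z hz hym hzm hyz ht x hx hg
    by_cases hxy : x = y
    · obtain ⟨t, ht1, ht2⟩ : ∃ t ∈ S, t ∉ ({y, z} : Finset (Fin n)) := by
        apply Finset.exists_mem_notMem_of_card_lt_card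
        exact lt_of_le_of_lt Finset.card_le_two hcard
      simp only [Finset.mem_insert, Finset.mem_singleton, not_or] at ht2
      have := h.four hct hA (z := t) hyz (Ne.symm ht2.1) (Ne.symm ht2.2) (hne y hy) (hne z hz)
        (hne t ht1) (Or.inl ⟨hym, hzm⟩)
        (hS y hy z hz t ht1 hyz (Ne.symm ht2.1) (Ne.symm ht2.2) (Or.inl ⟨hym, hzm⟩)) ht
      rw [hxy]
      rw [hxy] at hg
      exact this.1 hg
    by_cases hxz : x = z
    · obtain ⟨t, ht1, ht2⟩ : ∃ t ∈ S, t ∉ ({y, z} : Finset (Fin n)) := by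
        apply Finset.exists_mem_notMem_of_card_lt_card
        exact lt_of_le_of_lt Finset.card_le_two hcard
      simp only [Finset.mem_insert, Finset.mem_singleton, not_or] at ht2
      have := h.four hct hA (z := t) hyz (Ne.symm ht2.1) (Ne.symm ht2.2) (hne y hy) (hne z hz)
        (hne t ht1) (Or.inl ⟨hym, hzm⟩)
        (hS y hy z hz t ht1 hyz (Ne.symm ht2.1) (Ne.symm ht2.2) (Or.inl ⟨hym, hzm⟩)) ht
      rw [hxz]
      rw [hxz] at hg
      exact this.2.1 hg
    · exact (h.four hct hA (z := x) hyz (Ne.symm hxy) (Ne.symm hxz) (hne y hy) (hne z hz) (hne x hx)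
        (Or.inl ⟨hym, hzm⟩)
        (hS y hy z hz x hx hyz (Ne.symm hxy) (Ne.symm hxz) (Or.inl ⟨hym, hzm⟩)) ht).2.2 hg
  -- the case that only `y` is moving
  have key2 : ∀ y ∈ S, ∀ z ∈ S, m ≤ y.val → z.val < m → y ≠ z → TrM m A w y z →
      ∀ x ∈ S, (m ≤ w.val ∨ m ≤ x.val) → sy A w x ∈ Z := by
    intro y hy z hz hym hzm hyz ht
    have hwm : m ≤ w.val := by
      have := ht.1
      unfold Mv at this
      omega
    obtain ⟨t, ht1, htm, hty⟩ : ∃ t ∈ S, m ≤ t.val ∧ t ≠ y := by
      by_cases hby : b = y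
      · exact ⟨c, hc, hcm, fun he => hbc (hby.trans he.symm)⟩
      · exact ⟨b, hb, hbm, hby⟩
    have htz : t ≠ z := fun he => by
      rw [he] at htm
      omega
    have h4 := h.four hct hA (z := t) hyz hty.symm htz.symm (hne y hy) (hne z hz) (hne t ht1)
      (Or.inr (Or.inl ⟨hym, htm⟩))
      (hS y hy z hz t ht1 hyz hty.symm htz.symm (Or.inr (Or.inl ⟨hym, htm⟩))) ht
    refine key y hy t ht1 hym htm hty.symm ⟨Or.inl ⟨hwm, hym⟩, ?_⟩
    exact h.tr_of_commute (Or.inl ⟨hwm, hym⟩) (hne y hy) (hne t ht1) hty.symm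
      (hct.cen _ (h4.1 (Or.inl hwm)) _)
  by_cases hym : m ≤ y.val
  · by_cases hzm : m ≤ z.val
    · exact key y hy z hz hym hzm hyz ht
    · exact key2 y hy z hz hym (not_le.1 hzm) hyz ht
  · have hzm : m ≤ z.val := by
      have := ht.1
      unfold Mv at this
      omega
    exact key2 z hz y hy hzm (not_le.1 hym) hyz.symm ht.swap'

/-- The relations in the fundamental group of the sphere with four punctures. -/
theorem Fl.cross_ratio (h : Fl True m A) (hct : CT Z C) (hA : Gen m A C) {r i s j : Fin n}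
    (hs : m ≤ s.val) (hri : r < i) (his : i < s) (hsj : s < j) (h1 : ¬ Tr A r s j)
    (h2 : ¬ Tr A i s j) :
    A r j * A i j * A s j ∈ Z ∧ A i s * (A r j)⁻¹ ∈ Z ∧
      A r s * ((A s j)⁻¹ * A i j * A s j)⁻¹ ∈ Z ∧
      (m ≤ i.val → ¬ Tr A r i j → A r i * (A s j)⁻¹ ∈ Z) := by
  have hrs := hri.trans his
  have hij := his.trans hsj
  have hrj := hrs.trans hsj
  have hj : m ≤ j.val := hs.trans (Fin.lt_def.1 hsj).le
  have n1 : ¬ Commute (A r j) (A s j) := fun hc =>
    h1 (h.tr_of_lt hs hrs hsj (Or.inr (Or.inr hc)))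
  have n2 : ¬ Commute (A i j) (A s j) := fun hc =>
    h2 (h.tr_of_lt hs his hsj (Or.inr (Or.inr hc)))
  have m1 : A r j ∈ C := hA _ _ hrj hj
  have m2 : A i j ∈ C := hA _ _ hij hj
  have m3 : A s j ∈ C := hA _ _ hsj hj
  have z13 : A r s * (A r j * A s j) ∈ Z :=
    hct.mem m1 m3 n1 (h.fst hs hrs hsj) (h.snd hs hrs hsj)
  have z23 : A i s * (A i j * A s j) ∈ Z :=
    hct.mem m2 m3 n2 (h.fst hs his hsj) (h.snd hs his hsj)
  have c1 : Commute (A i j * A s j) (A r j) := by
    have e : A i j * A s j = (A i s)⁻¹ * (A i s * (A i j * A s j)) := by group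
    rw [e]
    exact (h.noncross his hrj hs hj (Or.inr (Or.inr (Or.inr ⟨hri, hsj, Or.inr trivial⟩)))).inv_left.mul_left
      (hct.cen _ z23 _)
  have c2 : Commute (A r j * A s j) ((A s j)⁻¹ * A i j * A s j) := by
    have e : A r j * A s j = (A r s)⁻¹ * (A r s * (A r j * A s j)) := by group
    rw [e]
    exact (h.conjD hs (Or.inr trivial) hri his hsj).inv_left.mul_left (hct.cen _ z13 _)
  have n3 : ¬ Commute (A r j) ((A s j)⁻¹ * A i j * A s j) := by
    intro hc
    have c3 : Commute (A s j) ((A s j)⁻¹ * A i j * A s j) := by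
      have e : A s j = (A r j)⁻¹ * (A r j * A s j) := by group
      have c4 := hc.inv_left.mul_left c2
      rw [← e] at c4
      exact c4
    apply n2
    have e : A i j = A s j * ((A s j)⁻¹ * A i j * A s j) * (A s j)⁻¹ := by group
    have c4 : Commute (A s j * ((A s j)⁻¹ * A i j * A s j) * (A s j)⁻¹) (A s j) :=
      ((Commute.refl _).mul_left c3.symm).mul_left (Commute.refl (A s j)).inv_left
    rwa [← e] at c4
  have zP : A r j * A i j * A s j ∈ Z := by
    apply hct.mem m1 (hct.conj _ m2 _) n3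
    · rw [mul_assoc]
      exact (Commute.refl _).mul_left c1
    · have e : A r j * A i j * A s j = (A r j * A s j) * ((A s j)⁻¹ * A i j * A s j) := by group
      rw [e]
      exact c2.mul_left (Commute.refl _)
  refine ⟨zP, ?_, ?_, fun hi h3 => ?_⟩
  · have e : A i s * (A r j)⁻¹ = A i s * (A i j * A s j) * (A r j * A i j * A s j)⁻¹ := by group
    rw [e]
    exact Z.mul_mem z23 (Z.inv_mem zP)
  · have e : A r s * ((A s j)⁻¹ * A i j * A s j)⁻¹ =
        A r s * (A r j * A s j) * (((A s j)⁻¹ * A i j * A s j) * (A r j * A s j))⁻¹ := by group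
    rw [e, ← c2.eq]
    have e2 : A r j * A s j * ((A s j)⁻¹ * A i j * A s j) = A r j * A i j * A s j := by group
    rw [e2]
    exact Z.mul_mem z13 (Z.inv_mem zP)
  · have n4 : ¬ Commute (A r j) (A i j) := fun hc =>
      h3 (h.tr_of_lt hi hri hij (Or.inr (Or.inr hc)))
    have z12 : A r i * (A r j * A i j) ∈ Z := hct.mem m1 m2 n4 (h.fst hi hri hij) (h.snd hi hri hij)
    have c5 : Commute (A r j * A i j) (A s j) := by
      have e : A r j * A i j = (A r i)⁻¹ * (A r i * (A r j * A i j)) := by group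
      rw [e]
      exact (h.noncross hri hsj hi hj (Or.inl his)).inv_left.mul_left (hct.cen _ z12 _)
    have e : A r i * (A s j)⁻¹ =
        A r i * (A r j * A i j) * (A s j * (A r j * A i j))⁻¹ := by group
    rw [e, ← c5.eq]
    exact Z.mul_mem z12 (Z.inv_mem zP)

theorem CT.conj_mem (h : CT Z C) {a w : G} (hw : w ∈ Z) : a⁻¹ * w * a = w := by
  have := (h.cen w hw a).eq
  rw [mul_assoc, this]
  group

theorem Fl.no_five (h : Fl True m A) (hct : CT Z C) (hA : Gen m A C) {q1 q2 q3 q4 q5 : Fin n}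
    (hm : m ≤ q4.val) (h12 : q1 < q2) (h23 : q2 < q3) (h34 : q3 < q4) (h45 : q4 < q5)
    (n1 : ¬ Tr A q1 q4 q5) (n2 : ¬ Tr A q2 q4 q5) (n3 : ¬ Tr A q3 q4 q5) : False := by
  have a1 := (h.cross_ratio hct hA hm h12 (h23.trans h34) h45 n1 n2).1
  have a2 := (h.cross_ratio hct hA hm (h12.trans h23) h34 h45 n1 n3).1
  have a3 := (h.cross_ratio hct hA hm h23 h34 h45 n2 n3).1
  have a4 : A q2 q5 * (A q3 q5)⁻¹ ∈ Z := by
    have e : A q2 q5 * (A q3 q5)⁻¹ = (A q1 q5)⁻¹ *
        ((A q1 q5 * A q2 q5 * A q4 q5) * (A q1 q5 * A q3 q5 * A q4 q5)⁻¹) * A q1 q5 := by group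
    rw [e, hct.conj_mem (Z.mul_mem a1 (Z.inv_mem a2))]
    exact Z.mul_mem a1 (Z.inv_mem a2)
  have a5 : Commute (A q3 q5) (A q2 q5) := by
    have e : A q3 q5 = (A q2 q5 * (A q3 q5)⁻¹)⁻¹ * A q2 q5 := by group
    have h1 : Commute ((A q2 q5 * (A q3 q5)⁻¹)⁻¹ * A q2 q5) (A q2 q5) :=
      (hct.cen _ a4 _).inv_left.mul_left (Commute.refl _)
    rwa [← e] at h1
  have a6 : Commute (A q2 q5) (A q4 q5) := by
    have e : A q4 q5 = (A q2 q5 * A q3 q5)⁻¹ * (A q2 q5 * A q3 q5 * A q4 q5) := by group
    rw [e]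
    exact (((Commute.refl _).mul_right a5.symm).inv_right).mul_right (hct.cen _ a3 _).symm
  exact n2 (h.tr_of_lt hm (h23.trans h34) h45 (Or.inr (Or.inr a6)))

/-- The classification of the homomorphisms with noncommutative image. -/
theorem Fl.classify (h : Fl True m A) (hct : CT Z C) (hA : Gen m A C)
    (hna : ∃ i j k l, i < j ∧ m ≤ j.val ∧ k < l ∧ m ≤ l.val ∧ ¬ Commute (A i j) (A k l)) :
    (∃ v : Fin n, m ≤ v.val ∧ ∀ i j, i < j → m ≤ j.val → ¬ (i.val < m ∧ j = v) → A i j ∈ Z) ∨
    (∃ a b c : Fin n, m ≤ b.val ∧ a < b ∧ b < c ∧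
      (∀ i j, i < j → m ≤ j.val → ¬ (i ∈ ({a, b, c} : Finset (Fin n)) ∧
        j ∈ ({a, b, c} : Finset (Fin n))) → A i j ∈ Z) ∧
      A a b * A a c * A b c ∈ Z) ∨
    (∃ a b c d : Fin n, m ≤ c.val ∧ a < b ∧ b < c ∧ c < d ∧
      (∀ i j, i < j → m ≤ j.val → ¬ (i ∈ ({a, b, c, d} : Finset (Fin n)) ∧
        j ∈ ({a, b, c, d} : Finset (Fin n))) → A i j ∈ Z) ∧
      A a d * A b d * A c d ∈ Z ∧ A b c * (A a d)⁻¹ ∈ Z ∧
      A a c * ((A c d)⁻¹ * A b d * A c d)⁻¹ ∈ Z ∧ (m ≤ b.val → A a b * (A c d)⁻¹ ∈ Z)) := by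
  classical
  by_cases hex : ∃ a b c : Fin n, m ≤ b.val ∧ a < b ∧ b < c ∧ ¬ Tr A a b c
  · right
    obtain ⟨a, b, c, hb, hab, hbc, hn⟩ := hex
    have hc : m ≤ c.val := by omega
    let fam : Finset (Finset (Fin n)) := Finset.univ.filter fun S =>
      {a, b, c} ⊆ S ∧ Full m A S
    have hne : fam.Nonempty := by
      refine ⟨{a, b, c}, Finset.mem_filter.2 ⟨Finset.mem_univ _, Finset.Subset.refl _, ?_⟩⟩
      intro x hx y hy z hz hxy hxz hyz _ ht
      simp only [Finset.mem_insert, Finset.mem_singleton] at hx hy hz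
      rcases hx with rfl | rfl | rfl <;> rcases hy with rfl | rfl | rfl <;>
        rcases hz with rfl | rfl | rfl <;> first
        | exact hxy rfl
        | exact hxz rfl
        | exact hyz rfl
        | exact hn ht
        | exact hn ht.swap
        | exact hn ht.swap'
        | exact hn ht.swap.swap'
        | exact hn ht.swap'.swap
        | exact hn ht.swap.swap'.swap
    obtain ⟨S, hSf, hmax⟩ := Finset.exists_max_image fam Finset.card hne
    obtain ⟨hsub, hS⟩ := (Finset.mem_filter.1 hSf).2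
    have haS : a ∈ S := hsub (by simp)
    have hbS : b ∈ S := hsub (by simp)
    have hcS : c ∈ S := hsub (by simp)
    have hcard3 : ({a, b, c} : Finset (Fin n)).card = 3 := by
      rw [Finset.card_eq_three]
      exact ⟨a, b, c, hab.ne, (hab.trans hbc).ne, hbc.ne, rfl⟩
    have hcard : 3 ≤ S.card := hcard3 ▸ Finset.card_le_card hsub
    -- the generators attached to a strand outside of `S`
    have hout : ∀ w, w ∉ S → ∀ x ∈ S, (m ≤ w.val ∨ m ≤ x.val) → sy A w x ∈ Z := by
      intro w hw
      have hnf : ¬ Full m A (insert w S) := by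
        intro hf
        have h1 := hmax (insert w S) (Finset.mem_filter.2 ⟨Finset.mem_univ _,
          hsub.trans (Finset.subset_insert w S), hf⟩)
        rw [Finset.card_insert_of_notMem hw] at h1
        omega
      have hfin : ∀ y ∈ S, ∀ z ∈ S, y ≠ z → TrM m A w y z →
          ∀ x ∈ S, (m ≤ w.val ∨ m ≤ x.val) → sy A w x ∈ Z :=
        fun y hy z hz hyz ht => h.star hct hA hS hbS hcS hb hc hbc.ne hcard hw hy hz hyz ht
      unfold Full at hnf
      push Not at hnf
      obtain ⟨x, hx, y, hy, z, hz, hxy, hxz, hyz, hm, ht⟩ := hnf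
      rcases Finset.mem_insert.1 hx with rfl | hx'
      · rcases Finset.mem_insert.1 hy with rfl | hy'
        · exact absurd rfl hxy
        rcases Finset.mem_insert.1 hz with rfl | hz'
        · exact absurd rfl hxz
        exact hfin y hy' z hz' hyz ⟨hm, ht⟩
      rcases Finset.mem_insert.1 hy with rfl | hy'
      · rcases Finset.mem_insert.1 hz with rfl | hz'
        · exact absurd rfl hyz
        have ht' : TrM m A x y z := ⟨hm, ht⟩
        exact hfin x hx' z hz' hxz ht'.swap
      rcases Finset.mem_insert.1 hz with rfl | hz'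
      · have ht' : TrM m A x y z := ⟨hm, ht⟩
        exact hfin x hx' y hy' hxy ht'.swap'.swap
      exact absurd ht (hS x hx' y hy' z hz' hxy hxz hyz hm)
    have hnab := h.nc (Or.inr (Or.inr ⟨hb, hc⟩) : Mv m a b c) hab.ne (hab.trans hbc).ne hbc.ne hn
    have hoo : ∀ p q, p ∉ S → q ∉ S → p < q → m ≤ q.val → A p q ∈ Z := by
      intro p q hp hq hpq hqm
      have hqa : q ≠ a := fun he => hq (he ▸ haS)
      have hqb : q ≠ b := fun he => hq (he ▸ hbS)
      have hqc : q ≠ c := fun he => hq (he ▸ hcS)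
      have hpa : p ≠ a := fun he => hp (he ▸ haS)
      have hpb : p ≠ b := fun he => hp (he ▸ hbS)
      have hpc : p ≠ c := fun he => hp (he ▸ hcS)
      have t1 : TrM m A q b c := ⟨Or.inl ⟨hqm, hb⟩, h.tr_of_commute (Or.inl ⟨hqm, hb⟩) hqb hqc
        hbc.ne (hct.cen _ (hout q hq b hbS (Or.inl hqm)) _)⟩
      have t2 : TrM m A q a b := ⟨Or.inr (Or.inl ⟨hqm, hb⟩), h.tr_of_commute
        (Or.inr (Or.inl ⟨hqm, hb⟩)) hqa hqb hab.ne
        (hct.cen _ (hout q hq a haS (Or.inl hqm)) _)⟩
      rw [← sy_of_lt (A := A) hpq]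
      apply hct.mem (hA.sy hab.ne (Or.inr hb)) (hA.sy hbc.ne (Or.inr hc)) hnab.2.1
      · exact h.opp hpq.ne hab.ne hpa hpb hqa hqb (Or.inr hqm) (Or.inr hb) (Or.inr trivial)
          (Or.inr (Or.inr (Or.inr t2)))
      · exact h.opp hpq.ne hbc.ne hpb hpc hqb hqc (Or.inr hqm) (Or.inr hc) (Or.inr trivial)
          (Or.inr (Or.inr (Or.inr t1)))
    have hZ : ∀ i j, i < j → m ≤ j.val → ¬ (i ∈ S ∧ j ∈ S) → A i j ∈ Z := by
      intro i j hij hj hnot
      by_cases hi : i ∈ S
      · have hjS : j ∉ S := fun hjS => hnot ⟨hi, hjS⟩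
        have := hout j hjS i hi (Or.inl hj)
        rwa [sy_of_gt hij] at this
      · by_cases hjS : j ∈ S
        · have := hout i hi j hjS (Or.inr hj)
          rwa [sy_of_lt hij] at this
        · exact hoo i j hi hjS hij hj
    -- the last but one strand of a set containing `b` and `c` is moving
    have hcard4 : S.card ≤ 4 := by
      by_contra hcon
      obtain ⟨S', h1, h2, h3⟩ := Finset.exists_subsuperset_card_eq (s := {b, c}) (t := S) (n := 5)
        (fun x hx => by
          simp only [Finset.mem_insert, Finset.mem_singleton] at hx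
          rcases hx with rfl | rfl
          · exact hbS
          · exact hcS) (Finset.card_le_two.trans (by norm_num)) (by omega)
      have hbS' : b ∈ S' := h1 (by simp)
      have hcS' : c ∈ S' := h1 (by simp)
      let e := S'.orderEmbOfFin h3
      have he : ∀ i, e i ∈ S := fun i => h2 (S'.orderEmbOfFin_mem h3 i)
      have hlt : ∀ i j : Fin 5, i < j → e i < e j := fun i j hij => e.strictMono hij
      have hr : ∀ x ∈ S', ∃ i, e i = x := by
        intro x hx
        have h4 : x ∈ Set.range e := by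
          rw [Finset.range_orderEmbOfFin]
          exact hx
        exact h4
      have hm3 : m ≤ (e 3).val := by
        obtain ⟨i1, hi1⟩ := hr b hbS'
        obtain ⟨i2, hi2⟩ := hr c hcS'
        have h5 : i1 < i2 := by
          rw [← hi1, ← hi2] at hbc
          exact e.lt_iff_lt.1 hbc
        have h6 : i1 ≤ 3 := by
          have := i2.2
          rw [Fin.le_def]
          have h7 := Fin.lt_def.1 h5
          simp
          omega
        have h7 : e i1 ≤ e 3 := e.monotone h6
        rw [hi1] at h7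
        have := Fin.le_def.1 h7
        omega
      have hm4 : m ≤ (e 4).val := by
        have := Fin.lt_def.1 (hlt 3 4 (by decide))
        omega
      have hfull : ∀ i : Fin 5, i < 3 → ¬ Tr A (e i) (e 3) (e 4) := by
        intro i hi
        exact hS _ (he i) _ (he 3) _ (he 4) (hlt i 3 hi).ne (hlt i 4 (hi.trans (by decide))).ne
          (hlt 3 4 (by decide)).ne (Or.inr (Or.inr ⟨hm3, hm4⟩))
      exact h.no_five hct hA hm3 (hlt 0 1 (by decide)) (hlt 1 2 (by decide)) (hlt 2 3 (by decide))
        (hlt 3 4 (by decide)) (hfull 0 (by decide)) (hfull 1 (by decide)) (hfull 2 (by decide))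
    by_cases h3 : S.card = 3
    · left
      have hSe : ({a, b, c} : Finset (Fin n)) = S :=
        Finset.eq_of_subset_of_card_le hsub (by rw [hcard3, h3])
      refine ⟨a, b, c, hb, hab, hbc, ?_, ?_⟩
      · rw [hSe]
        exact hZ
      · have n1 : ¬ Commute (A a c) (A b c) := by
          have := hnab.2.2
          rwa [sy_of_lt (hab.trans hbc), sy_of_lt hbc] at this
        rw [mul_assoc]
        exact hct.mem (hA _ _ (hab.trans hbc) hc) (hA _ _ hbc hc) n1 (h.fst hb hab hbc)
          (h.snd hb hab hbc)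
    · right
      have h4 : S.card = 4 := by omega
      let e := S.orderEmbOfFin h4
      have he : ∀ i, e i ∈ S := fun i => S.orderEmbOfFin_mem h4 i
      have hlt : ∀ i j : Fin 4, i < j → e i < e j := fun i j hij => e.strictMono hij
      have h01 := hlt 0 1 (by decide)
      have h02 := hlt 0 2 (by decide)
      have h03 := hlt 0 3 (by decide)
      have h12 := hlt 1 2 (by decide)
      have h13 := hlt 1 3 (by decide)
      have h23 := hlt 2 3 (by decide)
      have hSe : ({e 0, e 1, e 2, e 3} : Finset (Fin n)) = S := by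
        apply Finset.eq_of_subset_of_card_le
        · intro x hx
          simp only [Finset.mem_insert, Finset.mem_singleton] at hx
          rcases hx with rfl | rfl | rfl | rfl <;> exact he _
        · rw [h4, Finset.card_insert_of_notMem, Finset.card_insert_of_notMem,
            Finset.card_insert_of_notMem, Finset.card_singleton]
          · simp only [Finset.mem_singleton]
            exact h23.ne
          · simp only [Finset.mem_insert, Finset.mem_singleton, not_or]
            exact ⟨h12.ne, h13.ne⟩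
          · simp only [Finset.mem_insert, Finset.mem_singleton, not_or]
            exact ⟨h01.ne, h02.ne, h03.ne⟩
      have hr : ∀ x ∈ S, ∃ i, e i = x := by
        intro x hx
        have h4 : x ∈ Set.range e := by
          rw [Finset.range_orderEmbOfFin]
          exact hx
        exact h4
      have hm2 : m ≤ (e 2).val := by
        obtain ⟨i1, hi1⟩ := hr b hbS
        obtain ⟨i2, hi2⟩ := hr c hcS
        have h5 : i1 < i2 := by
          rw [← hi1, ← hi2] at hbc
          exact e.lt_iff_lt.1 hbc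
        have h6 : i1 ≤ 2 := by
          have := i2.2
          rw [Fin.le_def]
          have h7 := Fin.lt_def.1 h5
          simp
          omega
        have h7 : e i1 ≤ e 2 := e.monotone h6
        rw [hi1] at h7
        have := Fin.le_def.1 h7
        omega
      have hm3 : m ≤ (e 3).val := by
        have := Fin.lt_def.1 h23
        omega
      obtain ⟨c1, c2, c3, c4⟩ := h.cross_ratio hct hA hm2 h01 h12 h23
        (hS _ (he 0) _ (he 2) _ (he 3) h02.ne h03.ne h23.ne (Or.inr (Or.inr ⟨hm2, hm3⟩)))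
        (hS _ (he 1) _ (he 2) _ (he 3) h12.ne h13.ne h23.ne (Or.inr (Or.inr ⟨hm2, hm3⟩)))
      refine ⟨e 0, e 1, e 2, e 3, hm2, h01, h12, h23, ?_, c1, c2, c3, fun hm1 => c4 hm1 ?_⟩
      · rw [hSe]
        exact hZ
      · exact hS _ (he 0) _ (he 1) _ (he 3) h01.ne h03.ne h13.ne (Or.inr (Or.inr ⟨hm1, hm3⟩))
  · left
    push Not at hex
    have hiso : ∀ v : Fin n, m ≤ v.val → Iso m A v := by
      intro v hv j k hvj hvk hjk hmv
      unfold Mv at hmv
      rcases lt_or_gt_of_ne hvj with h1 | h1 <;> rcases lt_or_gt_of_ne hvk with h2 | h2 <;>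
        rcases lt_or_gt_of_ne hjk with h3 | h3
      · exact hex v j k (by omega) h1 h3
      · exact (hex v k j (by omega) h2 h3).swap'
      · exact absurd (h1.trans h3) h2.not_gt
      · exact (hex k v j hv h2 h1).swap.swap'
      · exact (hex j v k hv h1 h2).swap
      · exact absurd (h2.trans h3) h1.not_gt
      · exact (hex j k v (by omega) h3 h2).swap'.swap
      · exact (hex k j v (by omega) h3 h1).swap.swap'.swap
    obtain ⟨i, j, k, l, hij, hj, hkl, hl, hn⟩ := hna
    have hi : i.val < m := by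
      by_contra hcon
      apply hn
      rw [← sy_of_lt (A := A) hij]
      exact h.central (hiso i (by omega)) (by omega) hj hij.ne hkl hl
    have hk : k.val < m := by
      by_contra hcon
      apply hn
      apply Commute.symm
      rw [← sy_of_lt (A := A) hkl]
      exact h.central (hiso k (by omega)) (by omega) hl hkl.ne hij hj
    have hjk : j ≠ k := fun he => by
      rw [he] at hj
      omega
    have hjl : j = l := by
      by_contra hcon
      apply hn
      rw [← sy_of_lt (A := A) hij, sy_comm i j]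
      exact h.central' (hiso j hj) hj hij.ne' hkl hl hjk hcon (Or.inr (Or.inr trivial))
    subst hjl
    refine ⟨j, hj, fun p q hpq hq hnot => ?_⟩
    have hcom : ∀ x : Fin n, x.val < m → Commute (A p q) (A x j) := by
      intro x hx
      have hxj : x < j := Fin.lt_def.2 (by omega)
      by_cases hqj : q = j
      · rw [← sy_of_lt (A := A) hpq]
        have hpm : m ≤ p.val := by
          by_contra hcon
          exact hnot ⟨by omega, hqj⟩
        exact h.central (hiso p hpm) hpm hq hpq.ne hxj hj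
      by_cases hpj : p = j
      · rw [← sy_of_lt (A := A) hpq]
        have hpm : m ≤ p.val := hpj ▸ hj
        exact h.central (hiso p hpm) hpm hq hpq.ne hxj hj
      · apply Commute.symm
        rw [← sy_of_lt (A := A) hxj, sy_comm x j]
        exact h.central' (hiso j hj) hj hxj.ne' hpq hq (Ne.symm hpj) (Ne.symm hqj)
          (Or.inr (Or.inr trivial))
    exact hct.mem (hA _ _ hij hj) (hA _ _ hkl hl) hn (hcom i hi) (hcom k hk)

end

end Pool.Agent.BraidRep
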