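import Pool.Agent.Lib.GeoOrig.Defs

/-!
# Module CLIFF: Clifford's theorem
-/

namespace Pool.Agent.GeoOrig

open Matrix

variable {K : Type*} [NontriviallyNormedField K] {P : Type*} [Group P]

/-- An irreducible representation is semisimple on a normal subgroup. -/
theorem cliff {r : ℕ} (ρ : P →* GL (Fin r) K)
    (hirr : ∀ W : Submodule K (Fin r → K),
      (∀ g, ∀ w ∈ W, (ρ g : Matrix (Fin r) (Fin r) K) *ᵥ w ∈ W) → W = ⊥ ∨ W = ⊤)
    (M : Subgroup P) [M.Normal] :
    SSOn ((fun g => (ρ g : Matrix (Fin r) (Fin r) K)) '' (M : Set P)) := by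
  classical
  intro W hW0
  -- the action by linear maps
  let T : P → (Fin r → K) →ₗ[K] (Fin r → K) :=
    fun g => Matrix.mulVecLin (ρ g : Matrix (Fin r) (Fin r) K)
  have hT : ∀ g w, T g w = (ρ g : Matrix (Fin r) (Fin r) K) *ᵥ w := fun _ _ => rfl
  have hTmul : ∀ g h, T (g * h) = (T g).comp (T h) := by
    intro g h
    apply LinearMap.ext
    intro w
    simp only [hT, LinearMap.comp_apply, map_mul, Units.val_mul, Matrix.mulVec_mulVec]
  have hTone : T 1 = LinearMap.id := by
    apply LinearMap.ext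
    intro w
    simp only [hT, map_one, Units.val_one, Matrix.one_mulVec, LinearMap.id_apply]
  let St : Submodule K (Fin r → K) → Prop := fun V => ∀ g ∈ M, ∀ w ∈ V, T g w ∈ V
  have hStW : St W := fun g hg w hw => hW0 _ ⟨g, hg, rfl⟩ w hw
  -- translates of stable subspaces are stable
  have hStmap : ∀ V, St V → ∀ g, St (V.map (T g)) := by
    intro V hV g h hh w hw
    obtain ⟨v, hv, rfl⟩ := Submodule.mem_map.1 hw
    refine Submodule.mem_map.2 ⟨T (g⁻¹ * h * g) v, hV _ ?_ v hv, ?_⟩
    · have := (inferInstance : M.Normal).conj_mem h hh g⁻¹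
      simpa using this
    · have : T g ∘ₗ T (g⁻¹ * h * g) = T h ∘ₗ T g := by
        rw [← hTmul, ← hTmul]
        congr 1
        group
      exact LinearMap.congr_fun this v
  have hmapmap : ∀ V : Submodule K (Fin r → K), ∀ g h, (V.map (T h)).map (T g) = V.map (T (g * h)) := by
    intro V g h
    rw [hTmul, Submodule.map_comp]
  have hmapone : ∀ V : Submodule K (Fin r → K), V.map (T 1) = V := by
    intro V
    rw [hTone, Submodule.map_id]
  by_cases hr : (⊤ : Submodule K (Fin r → K)) = ⊥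
  · refine ⟨⊤, fun _ _ _ _ => Submodule.mem_top, ?_⟩
    have h1 : W = ⊥ := by
      rw [eq_bot_iff, ← hr]
      exact le_top
    rw [h1]
    exact isCompl_bot_top
  -- a minimal nonzero stable subspace
  obtain ⟨W₀, ⟨hW₀s, hW₀b⟩, hmin⟩ :=
    WellFounded.has_min (wellFounded_lt : WellFounded (fun a b : Submodule K (Fin r → K) => a < b))
      {V | St V ∧ V ≠ ⊥} ⟨⊤, fun _ _ _ _ => Submodule.mem_top, hr⟩
  have hsimple : ∀ g, ∀ X : Submodule K (Fin r → K), St X → X ≤ W₀.map (T g) → X ≠ ⊥ →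
      X = W₀.map (T g) := by
    intro g X hX hle hne
    have h1 : X.map (T g⁻¹) ≤ W₀ := by
      have := Submodule.map_mono (f := T g⁻¹) hle
      rwa [hmapmap, inv_mul_cancel, hmapone] at this
    have h2 : X.map (T g⁻¹) ≠ ⊥ := by
      intro h
      apply hne
      have h3 : (X.map (T g⁻¹)).map (T g) = X := by rw [hmapmap, mul_inv_cancel, hmapone]
      rw [← h3, h, Submodule.map_bot]
    have h3 : X.map (T g⁻¹) = W₀ := by
      rcases h1.lt_or_eq with h | h
      · exact absurd h (hmin _ ⟨hStmap X hX _, h2⟩)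
      · exact h
    have h4 : (X.map (T g⁻¹)).map (T g) = X := by rw [hmapmap, mul_inv_cancel, hmapone]
    rw [← h4, h3]
  have hsup : (⨆ g, W₀.map (T g)) = ⊤ := by
    have hst : ∀ h, ∀ w ∈ (⨆ g, W₀.map (T g)),
        (ρ h : Matrix (Fin r) (Fin r) K) *ᵥ w ∈ (⨆ g, W₀.map (T g)) := by
      intro h w hw
      have h1 : (⨆ g, W₀.map (T g)).map (T h) ≤ ⨆ g, W₀.map (T g) := by
        rw [Submodule.map_iSup]
        refine iSup_le fun g => ?_
        rw [hmapmap]
        exact le_iSup (fun g => W₀.map (T g)) (h * g)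
      exact h1 (Submodule.mem_map_of_mem (f := T h) hw)
    rcases hirr (⨆ g, W₀.map (T g)) hst with h | h
    · exfalso
      apply hW₀b
      rw [eq_bot_iff, ← h]
      exact le_trans (hmapone W₀).ge (le_iSup (fun g => W₀.map (T g)) 1)
    · exact h
  -- a maximal stable subspace disjoint from `W`
  obtain ⟨W', ⟨hW's, hW'd⟩, hmax⟩ :=
    WellFounded.has_min (wellFounded_gt : WellFounded (fun a b : Submodule K (Fin r → K) => a > b))
      {V | St V ∧ Disjoint W V} ⟨⊥, by
        intro g _ w hw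
        rw [Submodule.mem_bot] at hw ⊢
        rw [hw, map_zero], disjoint_bot_right⟩
  refine ⟨W', ?_, hW'd, ?_⟩
  · rintro _ ⟨g, hg, rfl⟩ w hw
    exact hW's g hg w hw
  rw [codisjoint_iff, eq_top_iff, ← hsup]
  refine iSup_le fun g => ?_
  by_contra hnot
  have hXs : St (W₀.map (T g) ⊓ (W ⊔ W')) := by
    intro h hh w hw
    rw [Submodule.mem_inf] at hw ⊢
    refine ⟨hStmap W₀ hW₀s g h hh w hw.1, ?_⟩
    obtain ⟨a, ha, b, hb, rfl⟩ := Submodule.mem_sup.1 hw.2
    rw [map_add]
    exact Submodule.add_mem_sup (hStW h hh a ha) (hW's h hh b hb)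
  have hX : W₀.map (T g) ⊓ (W ⊔ W') = ⊥ := by
    by_contra hne
    have := hsimple g _ hXs inf_le_left hne
    apply hnot
    rw [← this]
    exact inf_le_right
  have hnew : St (W' ⊔ W₀.map (T g)) := by
    intro h hh w hw
    obtain ⟨a, ha, b, hb, rfl⟩ := Submodule.mem_sup.1 hw
    rw [map_add]
    exact Submodule.add_mem_sup (hW's h hh a ha) (hStmap W₀ hW₀s g h hh b hb)
  have hdisj : Disjoint W (W' ⊔ W₀.map (T g)) := by
    rw [Submodule.disjoint_def]
    intro x hx hx'
    obtain ⟨a, ha, b, hb, rfl⟩ := Submodule.mem_sup.1 hx'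
    have hb' : b ∈ W₀.map (T g) ⊓ (W ⊔ W') := by
      refine Submodule.mem_inf.2 ⟨hb, ?_⟩
      have : b = (a + b) + (-a) := by abel
      rw [this]
      exact Submodule.add_mem_sup hx (W'.neg_mem ha)
    rw [hX, Submodule.mem_bot] at hb'
    subst hb'
    rw [add_zero] at hx ⊢
    exact (Submodule.disjoint_def.1 hW'd) a hx ha
  refine hmax _ ⟨hnew, hdisj⟩ ?_
  refine lt_of_le_of_ne le_sup_left ?_
  intro heq
  apply hnot
  refine le_trans ?_ (le_sup_right : W' ≤ W ⊔ W')
  rw [heq]
  exact le_sup_right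

end Pool.Agent.GeoOrig
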