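import Pool.Agent.Lib.GeoOrig.EllLin

/-!
# Similitudes of the form scalar plus rank one, in dimension three
-/

namespace Pool.Agent.BraidRep

section

variable {K V : Type*} [Field K] [AddCommGroup V] [Module K V] [FiniteDimensional K V]

/-- A similitude `k (1 + f ⊗ u)` of a nondegenerate symmetric form is a multiple of a
reflection. -/
theorem quad_form (h3 : Module.finrank K V = 3) {x : (Module.End K V)ˣ}
    {B : V →ₗ[K] V →ₗ[K] K} (hs : ∀ v w, B v w = B w v) (hn : ∀ v, (∀ w, B v w = 0) → v = 0)
    {c : K} (hB : ∀ v w, B (x.val v) (x.val w) = c * B v w) {k : K} {f : V →ₗ[K] K} {u : V}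
    (hk : k ≠ 0) (hx : ∀ w, x.val w = k • (w + f w • u)) (hf : f ≠ 0) (hu : u ≠ 0) :
    f u = -2 := by
  obtain ⟨w₀, hw₀⟩ : ∃ w₀, f w₀ ≠ 0 := by
    by_contra hcon
    push Not at hcon
    exact hf (LinearMap.ext hcon)
  -- the identity
  have h1 : ∀ v w, k ^ 2 * (B v w + f w * B v u + f v * B u w + f v * f w * B u u) =
      c * B v w := by
    intro v w
    rw [← hB, hx, hx]
    simp only [map_add, map_smul, LinearMap.add_apply, LinearMap.smul_apply, smul_eq_mul]
    ring
  have h2 : k ^ 2 = c := by
    by_contra hne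
    have h4 : ∀ v w, f v = 0 → f w = 0 → B v w = 0 := by
      intro v w hv hw
      have h5 := h1 v w
      rw [hv, hw] at h5
      have h6 : (k ^ 2 - c) * B v w = 0 := by linear_combination h5
      exact (mul_eq_zero.1 h6).resolve_left (sub_ne_zero.2 hne)
    obtain ⟨v, hv, hv1, hv2⟩ := exists_zero h3 f (B w₀)
    apply hv
    apply hn
    intro w
    have h5 : w = (w - (f w / f w₀) • w₀) + (f w / f w₀) • w₀ := by abel
    rw [h5, map_add, map_smul, hs v w₀, hv2, smul_zero, add_zero]
    apply h4 v _ hv1
    rw [map_sub, map_smul, smul_eq_mul, div_mul_cancel₀ _ hw₀, sub_self]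
  have h4 : ∀ v w, f w * B v u + f v * B u w + f v * f w * B u u = 0 := by
    intro v w
    have h5 := h1 v w
    rw [← h2] at h5
    have h6 : k ^ 2 * (f w * B v u + f v * B u w + f v * f w * B u u) = 0 := by
      linear_combination h5
    exact (mul_eq_zero.1 h6).resolve_left (pow_ne_zero 2 hk)
  have h5 : ∀ w, f w = 0 → B u w = 0 := by
    intro w hw
    have h6 := h4 w₀ w
    rw [hw] at h6
    have h7 : f w₀ * B u w = 0 := by linear_combination h6
    exact (mul_eq_zero.1 h7).resolve_left hw₀
  have h6 : ∀ w, f w₀ * B u w = f w * B u w₀ := by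
    intro w
    have h7 := h5 (w - (f w / f w₀) • w₀)
      (by rw [map_sub, map_smul, smul_eq_mul, div_mul_cancel₀ _ hw₀, sub_self])
    rw [map_sub, map_smul, smul_eq_mul, sub_eq_zero] at h7
    rw [h7]
    field_simp
  have h7 : B u w₀ ≠ 0 := by
    intro h8
    apply hu
    apply hn
    intro w
    have h9 := h6 w
    rw [h8, mul_zero] at h9
    exact (mul_eq_zero.1 h9).resolve_left hw₀
  have h8 := h4 w₀ w₀
  rw [hs w₀ u] at h8
  have h9 := h6 u
  have h10 : (f w₀ * B u w₀) * (2 + f u) = 0 := by
    linear_combination h8 - (f w₀) * h9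
  have h11 := (mul_eq_zero.1 h10).resolve_left (mul_ne_zero hw₀ h7)
  linear_combination h11

/-- Let `a` and `d` be commuting endomorphisms of the form scalar plus rank one such that some
element commutes with `d` and does not commute with `a`. Then the image of the rank one part of
`d` is killed by the rank one part of `a`. -/
theorem apply_of_commute {a b d : (Module.End K V)ˣ} {α δ : K} {fa f : V →ₗ[K] K} {ua u : V}
    (ha : ∀ w, a.val w = α • (w + fa w • ua)) (hα : α ≠ 0) (hδ : δ ≠ 0)
    (hd : ∀ w, d.val w = δ • (w + f w • u)) (hf : f ≠ 0) (hu : u ≠ 0) (had : Commute a d)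
    (hbd : Commute b d) (hab : ¬ Commute a b) : a.val u = α • u := by
  have hd' : ∀ w, d.val w = δ • w + (δ • f) w • u := by
    intro w
    rw [hd, LinearMap.smul_apply, smul_add, smul_smul, smul_eq_mul]
  obtain ⟨μ, h1, h2⟩ := comm_homol hd' (fun h => hf ((smul_eq_zero.1 h).resolve_left hδ)) hu
    (z := a.val) had.units_val
  by_contra hcon
  have h4 : fa u ≠ 0 := by
    intro h4
    apply hcon
    rw [ha, h4, zero_smul, add_zero]
  -- the vector `ua` is a multiple of `u`
  obtain ⟨τ, hτ⟩ : ∃ τ : K, ua = τ • u := by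
    refine ⟨(fa u)⁻¹ * (α⁻¹ * μ - 1), ?_⟩
    rw [ha] at h1
    have h5 : u + fa u • ua = (α⁻¹ * μ) • u := by
      have := congrArg (fun z => α⁻¹ • z) h1
      simpa only [smul_smul, inv_mul_cancel₀ hα, one_smul] using this
    have h6 : fa u • ua = (α⁻¹ * μ - 1) • u := by
      rw [sub_smul, one_smul, ← h5]
      abel
    rw [mul_smul, ← h6, smul_smul, inv_mul_cancel₀ h4, one_smul]
  -- the form `fa` is a multiple of `f`, so `a` is a polynomial in `d`
  have h5 : ∀ w, α * (fa w * τ * f u) = (μ - α) * f w := by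
    intro w
    have h6 := h2 w
    rw [ha, hτ, LinearMap.smul_apply, LinearMap.smul_apply, map_smul, map_add, map_smul,
      map_smul] at h6
    simp only [smul_eq_mul] at h6
    have h7 : δ * (α * (fa w * τ * f u)) = δ * ((μ - α) * f w) := by linear_combination h6
    exact mul_left_cancel₀ hδ h7
  by_cases h6 : τ = 0
  · apply hcon
    rw [ha, hτ, h6]
    simp
  have h7 : f u ≠ 0 := by
    intro h7
    have h9 : μ = α := by
      by_contra h10
      apply hf
      ext w
      have h11 := h5 w
      rw [h7, mul_zero, mul_zero] at h11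
      exact (mul_eq_zero.1 h11.symm).resolve_left (sub_ne_zero.2 h10)
    apply hcon
    rw [h1, h9]
  have h8 : ∀ w, fa w = (μ - α) / (α * τ * f u) * f w := by
    intro w
    have h9 := h5 w
    field_simp
    linear_combination h9
  apply hab
  obtain ⟨ν, e1, e2⟩ := comm_homol hd' (fun h => hf ((smul_eq_zero.1 h).resolve_left hδ)) hu
    (z := b.val) hbd.units_val
  have e3 : ∀ w, f (b.val w) = ν * f w := by
    intro w
    have e4 := e2 w
    simp only [LinearMap.smul_apply, smul_eq_mul] at e4
    have e5 : δ * f (b.val w) = δ * (ν * f w) := by linear_combination e4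
    exact mul_left_cancel₀ hδ e5
  apply Units.ext
  ext w
  show a.val (b.val w) = b.val (a.val w)
  rw [ha, ha, hτ, h8, h8, e3]
  simp only [map_add, map_smul, e1]
  module

/-- There are no multiples of reflections `a`, `b`, `c`, `d` such that `a`, `b`, `c` commute with
`d` and not with each other and such that `a b c` is a multiple of `d`. -/
theorem no_three_refl (h3 : Module.finrank K V = 3) (h2 : (2 : K) ≠ 0)
    {a b c d : (Module.End K V)ˣ} {α β γ δ κ : K} {fa fb fc fd : V →ₗ[K] K} {ua ub uc ud : V}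
    (ha : ∀ w, a.val w = α • (w + fa w • ua)) (hα : α ≠ 0) (ha' : fa ua = -2)
    (hb : ∀ w, b.val w = β • (w + fb w • ub)) (hβ : β ≠ 0) (hb' : fb ub = -2)
    (hc : ∀ w, c.val w = γ • (w + fc w • uc)) (hγ : γ ≠ 0) (hc' : fc uc = -2)
    (hd : ∀ w, d.val w = δ • (w + fd w • ud)) (hδ : δ ≠ 0) (hd' : fd ud = -2)
    (had : Commute a d) (hbd : Commute b d) (hcd : Commute c d) (hab : ¬ Commute a b)
    (hcb : ¬ Commute c b) (hκ : κ ≠ 0) (h : (a * b * c).val = κ • d.val) : False := by
  have hf : fd ≠ 0 := by
    rintro rfl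
    rw [LinearMap.zero_apply] at hd'
    exact h2 (by linear_combination hd')
  have hu : ud ≠ 0 := by
    rintro rfl
    rw [map_zero] at hd'
    exact h2 (by linear_combination hd')
  have e1 : a.val ud = α • ud := apply_of_commute ha hα hδ hd hf hu had hbd hab
  have e2 : b.val ud = β • ud :=
    apply_of_commute hb hβ hδ hd hf hu hbd had fun h4 => hab h4.symm
  have e3 : c.val ud = γ • ud := apply_of_commute hc hγ hδ hd hf hu hcd hbd hcb
  have e4 : α * β * γ = -(κ * δ) := by
    have h4 := LinearMap.congr_fun h ud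
    have h5 : (a * b * c).val ud = (α * β * γ) • ud := by
      show a.val (b.val (c.val ud)) = _
      rw [e3, map_smul, map_smul, e2, map_smul, e1, smul_smul, smul_smul]
      congr 1
      ring
    have h6 : (κ • d.val) ud = (-(κ * δ)) • ud := by
      rw [LinearMap.smul_apply, hd, hd', smul_smul]
      module
    rw [h5, h6] at h4
    have h7 : (α * β * γ - -(κ * δ)) • ud = 0 := by rw [sub_smul, h4, sub_self]
    exact sub_eq_zero.1 ((smul_eq_zero.1 h7).resolve_right hu)
  have hdet : ∀ {x : (Module.End K V)ˣ} {ξ : K} {f : V →ₗ[K] K} {u : V},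
      (∀ w, x.val w = ξ • (w + f w • u)) → f u = -2 → LinearMap.det x.val = -ξ ^ 3 := by
    intro x ξ f u hx hfu
    have e5 : x.val = ξ • LinearMap.transvection f u := by
      ext w
      rw [hx, LinearMap.smul_apply, LinearMap.transvection.apply]
    rw [e5, LinearMap.det_smul, h3, LinearMap.transvection.det, hfu]
    ring
  have e5 := congrArg LinearMap.det h
  rw [Units.val_mul, Units.val_mul, map_mul, map_mul, LinearMap.det_smul, h3, hdet ha ha',
    hdet hb hb', hdet hc hc', hdet hd hd'] at e5
  have e6 : 2 * (κ * δ) ^ 3 = 0 := by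
    have e7 : (α * β * γ) ^ 3 = (κ * δ) ^ 3 := by linear_combination -e5
    rw [e4] at e7
    linear_combination -e7
  exact mul_ne_zero h2 (pow_ne_zero 3 (mul_ne_zero hκ hδ)) e6

end

end Pool.Agent.BraidRep
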