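import Pool.Agent.Lib.GeoOrig.CurveQuad
import Pool.Agent.Lib.GeoOrig.QuadLin

/-!
# Representations of dimension three: all punctures included
-/

open Matrix

namespace Pool.Agent.BraidRep

section

variable {K : Type*} [Field K] {g m n : ℕ}

/-- The endomorphism attached to an invertible matrix. -/
private noncomputable def toEnd : GL (Fin 3) K →* (Module.End K (Fin 3 → K))ˣ :=
  Units.map (Matrix.toLinAlgEquiv' : Matrix (Fin 3) (Fin 3) K ≃ₐ[K] _)

private theorem toEnd_injective :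
    Function.Injective (toEnd : GL (Fin 3) K →* (Module.End K (Fin 3 → K))ˣ) :=
  Units.map_injective (Matrix.toLinAlgEquiv' : Matrix (Fin 3) (Fin 3) K ≃ₐ[K] _).injective

/-- There are no three points on a curve of genus one, in dimension three. -/
private theorem no_ell' [IsAlgClosed K] (h2 : (2 : K) ≠ 0) {a b x y e d c : GL (Fin 3) K}
    (h : Ell a b x y e d c) (ec : ¬ Commute e c) (dc : ¬ Commute d c) (ed : ¬ Commute e d) :
    False := by
  exact no_ell (by simp) h2 (h.map toEnd) (fun h1 => ec (h1.of_map toEnd_injective))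
    (fun h1 => dc (h1.of_map toEnd_injective)) fun h1 => ed (h1.of_map toEnd_injective)

/-- The form of a similitude which is the sum of a scalar and a matrix of rank one. -/
private theorem refl_form [IsAlgClosed K] {a : GL (Fin 3) K} {c₀ : K}
    (ha : ((a : Matrix (Fin 3) (Fin 3) K) - c₀ • (1 : Matrix (Fin 3) (Fin 3) K)).rank = 1)
    {Q : Matrix (Fin 3) (Fin 3) K} (hQ : Qᵀ = Q) (hQ' : Q.det ≠ 0) {c : K}
    (hc : (a : Matrix (Fin 3) (Fin 3) K)ᵀ * Q * (a : Matrix (Fin 3) (Fin 3) K) = c • Q) :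
    ∃ (k : K) (f : (Fin 3 → K) →ₗ[K] K) (u : Fin 3 → K), k ≠ 0 ∧ f u = -2 ∧
      ∀ w, (toEnd a).val w = k • (w + f w • u) := by
  have h3 : Module.finrank K (Fin 3 → K) = 3 := by simp
  set x : (Module.End K (Fin 3 → K))ˣ := toEnd a with hx
  have hxa : ∀ w, x.val w = (a : Matrix (Fin 3) (Fin 3) K) *ᵥ w := fun w =>
    Matrix.toLinAlgEquiv'_apply _ _
  have hrange : LinearMap.range (x.val - c₀ • (1 : Module.End K (Fin 3 → K))) =
      LinearMap.range ((a : Matrix (Fin 3) (Fin 3) K) -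
        c₀ • (1 : Matrix (Fin 3) (Fin 3) K)).mulVecLin := by
    congr 1
    refine LinearMap.ext fun w => ?_
    rw [LinearMap.sub_apply, hxa, LinearMap.smul_apply, Module.End.one_apply,
      Matrix.mulVecLin_apply, Matrix.sub_mulVec, Matrix.smul_mulVec, Matrix.one_mulVec]
  have h1 : Module.finrank K (LinearMap.range (x.val - c₀ • (1 : Module.End K (Fin 3 → K)))) =
      1 := by
    rw [hrange]
    exact ha
  have h4 : Hu x := homol_of_rank h1.le
  obtain ⟨k, f, u, hk, hf⟩ := h4.form h3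
  -- `x` is not scalar
  have hns : ∀ k : K, ∃ w, x.val w ≠ k • w := by
    intro k
    by_contra hcon
    push Not at hcon
    have h5 : x.val - c₀ • (1 : Module.End K (Fin 3 → K)) =
        (k - c₀) • (1 : Module.End K (Fin 3 → K)) := by
      refine LinearMap.ext fun w => ?_
      rw [LinearMap.sub_apply, hcon, LinearMap.smul_apply, LinearMap.smul_apply,
        Module.End.one_apply, sub_smul]
    by_cases h6 : k - c₀ = 0
    · rw [h5, h6, zero_smul, LinearMap.range_zero, finrank_bot] at h1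
      exact zero_ne_one h1
    · have h7 : LinearMap.range ((k - c₀) • (1 : Module.End K (Fin 3 → K))) = ⊤ := by
        rw [LinearMap.range_eq_top]
        intro w
        refine ⟨(k - c₀)⁻¹ • w, ?_⟩
        rw [LinearMap.smul_apply, Module.End.one_apply, smul_smul, mul_inv_cancel₀ h6, one_smul]
      rw [h5, h7, finrank_top, h3] at h1
      omega
  refine ⟨k, f, u, hk, ?_, hf⟩
  refine quad_form h3 (B := Matrix.toBilin' Q) (c := c) (k := k) (fun v w => ?_) (fun v hv => ?_)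
    (fun v w => ?_) hk hf ?_ ?_
  · rw [Matrix.toBilin'_apply', Matrix.toBilin'_apply', Matrix.dotProduct_mulVec,
      ← Matrix.mulVec_transpose, hQ, dotProduct_comm]
  · refine (Matrix.nondegenerate_of_det_ne_zero hQ').eq_zero_of_ortho fun w => ?_
    rw [← Matrix.toBilin'_apply']
    exact hv w
  · rw [Matrix.toBilin'_apply', Matrix.toBilin'_apply', hxa, hxa]
    have h5 : ((a : Matrix (Fin 3) (Fin 3) K) *ᵥ v) ⬝ᵥ
        Q *ᵥ ((a : Matrix (Fin 3) (Fin 3) K) *ᵥ w) = v ⬝ᵥ
          ((a : Matrix (Fin 3) (Fin 3) K)ᵀ * Q * (a : Matrix (Fin 3) (Fin 3) K)) *ᵥ w := by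
      rw [Matrix.mulVec_mulVec, Matrix.dotProduct_mulVec, Matrix.dotProduct_mulVec,
        Matrix.mul_assoc, ← Matrix.vecMul_vecMul v, Matrix.vecMul_transpose]
    rw [h5, hc, Matrix.smul_mulVec, dotProduct_smul, smul_eq_mul]
  · rintro rfl
    obtain ⟨w, hw⟩ := hns k
    apply hw
    rw [hf]
    simp
  · rintro rfl
    obtain ⟨w, hw⟩ := hns k
    apply hw
    rw [hf]
    simp

/-- Families with Bellingeri's relations, (TR) included, in `GL₃(K)` such that for every moving
point `v` the `A i v` and `A v i` are all scalar, or act irreducibly and have a trivial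
centraliser in `PGL₃`. -/
theorem ClosedBraid.rank_three [IsAlgClosed K] (h2 : (2 : K) ≠ 0)
    {A : Fin n → Fin n → GL (Fin 3) K} (h : ClosedBraid g m A)
    (hN : ∀ v : Fin n, m ≤ v.val → (∀ i, i ≠ v → sy A i v ∈ Subgroup.center (GL (Fin 3) K)) ∨
      ((∀ W : Submodule K (Fin 3 → K), (∀ i, i ≠ v → ∀ w ∈ W,
          ((sy A i v : GL (Fin 3) K) : Matrix (Fin 3) (Fin 3) K) *ᵥ w ∈ W) → W = ⊥ ∨ W = ⊤) ∧
        ∀ y : GL (Fin 3) K, (∀ i, i ≠ v →
          y * sy A i v * y⁻¹ * (sy A i v)⁻¹ ∈ Subgroup.center (GL (Fin 3) K)) →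
            y ∈ Subgroup.center (GL (Fin 3) K))) :
    ∃ S T : Finset (Fin n), (∀ k ∈ S, 2 * g ≤ k.val ∧ k.val < m) ∧ (∀ v ∈ T, m ≤ v.val) ∧
      (T.card ≤ 1 ∨ 2 * g + S.card + T.card ≤ 4 ∨ (g = 0 ∧ S.card + T.card = 5)) ∧
      (∀ i j, i < j → m ≤ j.val → (j ∉ T ∨ (m ≤ i.val ∧ i ∉ T) ∨
        (2 * g ≤ i.val ∧ i.val < m ∧ i ∉ S)) → A i j ∈ Subgroup.center (GL (Fin 3) K)) ∧
      (T.card = 5 → (∀ i ∈ T, ∀ j ∈ T, i < j → ∃ c : K,
        ((A i j : Matrix (Fin 3) (Fin 3) K) - c • (1 : Matrix (Fin 3) (Fin 3) K)).rank = 1) ∧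
        ∀ Q : Matrix (Fin 3) (Fin 3) K, Qᵀ = Q → Q.det ≠ 0 → ∃ i ∈ T, ∃ j ∈ T, i < j ∧
          ∀ c : K, (A i j : Matrix (Fin 3) (Fin 3) K)ᵀ * Q * (A i j : Matrix (Fin 3) (Fin 3) K) ≠
            c • Q) := by
  classical
  have hle := h.le
  obtain ⟨S, T, a1, a2, a3, a4, a5, a6, a7⟩ := h.toCurveBraid.rank_three hN
    fun i v hi hv hiv => (le_sup_right : _ ≤ Subgroup.center (GL (Fin 3) K) ⊔ _)
      (h.mem_closure hi hv hiv)
  refine ⟨S, T, a1, a2, ?_, a4, fun hT5 => ⟨a7 hT5, fun Q hQ hQ' => ?_⟩⟩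
  swap
  · -- five moving points and a quadratic form
    by_contra hcon
    push Not at hcon
    have hg : g = 0 := by omega
    have hS : S = ∅ := by
      rw [← Finset.card_eq_zero]
      omega
    subst hg
    let e := T.orderEmbOfFin hT5
    have heT : ∀ a, e a ∈ T := fun a => T.orderEmbOfFin_mem hT5 a
    have hes : ∀ p ∈ T, ∃ a, e a = p := by
      intro p hp
      have : p ∈ Set.range e := by
        rw [Finset.range_orderEmbOfFin]
        exact hp
      exact this
    have hlt : ∀ a b, a < b → e a < e b := fun a b hab => (OrderEmbedding.lt_iff_lt e).2 hab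
    have h3m := a2 _ (heT 3)
    have hZ : ∀ i : Fin n, i ≠ e 0 → i ≠ e 1 → i ≠ e 2 → i ≠ e 3 → i ≠ e 4 →
        sy A i (e 3) ∈ Subgroup.center (GL (Fin 3) K) := by
      intro i b0 b1 b2 b3 b4
      have hiT : i ∉ T := by
        intro hi
        obtain ⟨a, rfl⟩ := hes i hi
        fin_cases a
        · exact b0 rfl
        · exact b1 rfl
        · exact b2 rfl
        · exact b3 rfl
        · exact b4 rfl
      rcases lt_or_gt_of_ne b3 with h5 | h5
      · rw [sy_of_lt h5]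
        apply a4 i (e 3) h5 h3m
        by_cases h6 : m ≤ i.val
        · exact Or.inr (Or.inl ⟨h6, hiT⟩)
        · exact Or.inr (Or.inr ⟨by omega, by omega, by rw [hS]; exact Finset.notMem_empty i⟩)
      · rw [sy_of_gt h5]
        exact a4 (e 3) i h5 (h3m.trans (Fin.lt_def.1 h5).le) (Or.inl hiT)
    have h01 : e 0 < e 1 := hlt 0 1 (by decide)
    have h12 : e 1 < e 2 := hlt 1 2 (by decide)
    have h23 : e 2 < e 3 := hlt 2 3 (by decide)
    have h34 : e 3 < e 4 := hlt 3 4 (by decide)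
    have h02 := h01.trans h12
    have h03 := h02.trans h23
    obtain ⟨z, hz, hz'⟩ := h.twist (a2 _ (heT 0)) h01 h12 h23 h34 hZ (by
      rcases hN (e 3) h3m with h5 | ⟨-, h5⟩
      · exfalso
        apply a5 _ (heT 0) _ (heT 3) h03
        have h6 := h5 (e 0) h03.ne
        rwa [sy_of_lt h03] at h6
      · exact h5)
    have hF := toEnd_injective (K := K)
    have form : ∀ a b, a < b → ∃ (k : K) (f : (Fin 3 → K) →ₗ[K] K) (u : Fin 3 → K), k ≠ 0 ∧
        f u = -2 ∧ ∀ w, (toEnd (A (e a) (e b))).val w = k • (w + f w • u) := by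
      intro a b hab
      obtain ⟨c₀, h5⟩ := a7 hT5 _ (heT a) _ (heT b) (hlt a b hab)
      obtain ⟨c, hc⟩ := hcon _ (heT a) _ (heT b) (hlt a b hab)
      exact refl_form h5 hQ hQ' hc
    obtain ⟨α, fa, ua, hα, ha', ha⟩ := form 0 1 (by decide)
    obtain ⟨β, fb, ub, hβ, hb', hb⟩ := form 0 2 (by decide)
    obtain ⟨γ, fc, uc, hγ, hc', hc⟩ := form 1 2 (by decide)
    obtain ⟨δ, fd, ud, hδ, hd', hd⟩ := form 3 4 (by decide)
    obtain ⟨κ, hκ⟩ := mem_center_iff.1 hz
    have hmv : ∀ a, m ≤ (e a).val := fun a => a2 _ (heT a)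
    have d1 : Commute (A (e 0) (e 1)) (A (e 3) (e 4)) :=
      commute_of_conj (h.disj _ _ _ _ (hmv 1) h01 (h12.trans h23) h34)
    have d2 : Commute (A (e 0) (e 2)) (A (e 3) (e 4)) :=
      commute_of_conj (h.disj _ _ _ _ (hmv 2) h02 h23 h34)
    have d3 : Commute (A (e 1) (e 2)) (A (e 3) (e 4)) :=
      commute_of_conj (h.disj _ _ _ _ (hmv 2) h12 h23 h34)
    obtain ⟨n1, -, n3⟩ := a6 _ _ _ h01 h12 (heT 1) (heT 2) (Or.inr (heT 0))
    refine no_three_refl (by simp) h2 ha hα ha' hb hβ hb' hc hγ hc' hd hδ hd' (d1.map toEnd)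
      (d2.map toEnd) (d3.map toEnd) (fun hcc => n1 (hcc.of_map hF)) (fun hcc => n3 (hcc.of_map hF).symm)
      (κ := κ) ?_ ?_
    · rintro rfl
      have h5 : (z : Matrix (Fin 3) (Fin 3) K) = 0 := by rw [hκ, zero_smul]
      exact z.ne_zero h5
    · rw [← map_mul, ← map_mul, hz', map_mul, Units.val_mul]
      have h5 : (toEnd z).val = κ • (1 : Module.End K (Fin 3 → K)) := by
        show Matrix.toLinAlgEquiv' (z : Matrix (Fin 3) (Fin 3) K) = _
        rw [hκ, map_smul, map_one]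
      rw [h5, smul_one_mul]
  rcases a3 with a3 | a3
  · exact Or.inl a3
  by_cases hT : T.card ≤ 1
  · exact Or.inl hT
  right
  by_cases h4 : 2 * g + S.card + T.card ≤ 4
  · exact Or.inl h4
  right
  by_cases hg : g = 0
  · exact ⟨hg, by omega⟩
  exfalso
  have hg1 : g = 1 := by omega
  subst hg1
  have hST : Disjoint S T := by
    rw [Finset.disjoint_left]
    intro k h5 h6
    have := (a1 k h5).2
    have := a2 k h6
    omega
  have hU : (S ∪ T).card = 3 := by
    rw [Finset.card_union_of_disjoint hST]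
    omega
  have hS1 : S.card ≤ 1 := by omega
  let E := (S ∪ T).orderEmbOfFin hU
  have hE : ∀ i, E i ∈ S ∨ E i ∈ T := fun i => by
    rw [← Finset.mem_union]
    exact (S ∪ T).orderEmbOfFin_mem hU i
  have hE' : ∀ k, k ∈ S ∨ k ∈ T → k = E 0 ∨ k = E 1 ∨ k = E 2 := by
    intro k hk
    have h5 : k ∈ Set.range E := by
      rw [Finset.range_orderEmbOfFin]
      exact Finset.mem_union.2 hk
    obtain ⟨i, rfl⟩ := h5
    fin_cases i
    · exact Or.inl rfl
    · exact Or.inr (Or.inl rfl)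
    · exact Or.inr (Or.inr rfl)
  have h01 : E 0 < E 1 := (OrderEmbedding.lt_iff_lt E).2 (by decide)
  have h12 : E 1 < E 2 := (OrderEmbedding.lt_iff_lt E).2 (by decide)
  have h01v := Fin.lt_def.1 h01
  have h12v := Fin.lt_def.1 h12
  have h1T : E 1 ∈ T := by
    refine (hE 1).resolve_left fun h5 => ?_
    have h6 : E 0 ∈ S := by
      refine (hE 0).resolve_right fun h7 => ?_
      have := (a1 _ h5).2
      have := a2 _ h7
      omega
    exact h01.ne (Finset.card_le_one.1 hS1 _ h6 _ h5)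
  have h2T : E 2 ∈ T := by
    refine (hE 2).resolve_left fun h5 => ?_
    have := (a1 _ h5).2
    have := a2 _ h1T
    omega
  have h0 : 2 ≤ (E 0).val := by
    rcases hE 0 with h5 | h5
    · exact (a1 _ h5).1
    · have := a2 _ h5
      omega
  have hm1 := a2 _ h1T
  have hcen : ∀ v, v ∈ T → ∀ i : Fin n, 2 ≤ i.val → i ≠ E 0 → i ≠ E 1 → i ≠ E 2 →
      sy A i v ∈ Subgroup.center (GL (Fin 3) K) := by
    intro v hv i hi b0 b1 b2
    have hiS : i ∉ S := fun h5 => by
      rcases hE' i (Or.inl h5) with h6 | h6 | h6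
      · exact b0 h6
      · exact b1 h6
      · exact b2 h6
    have hiT : i ∉ T := fun h5 => by
      rcases hE' i (Or.inr h5) with h6 | h6 | h6
      · exact b0 h6
      · exact b1 h6
      · exact b2 h6
    have hiv : i ≠ v := fun h5 => hiT (h5 ▸ hv)
    have hmv := a2 v hv
    rcases lt_or_gt_of_ne hiv with h5 | h5
    · rw [sy_of_lt h5]
      apply a4 i v h5 hmv
      by_cases h6 : m ≤ i.val
      · exact Or.inr (Or.inl ⟨h6, hiT⟩)
      · exact Or.inr (Or.inr ⟨by omega, by omega, hiS⟩)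
    · rw [sy_of_gt h5]
      exact a4 v i h5 (hmv.trans (Fin.lt_def.1 h5).le) (Or.inl hiT)
  have hn := (E 2).2
  obtain ⟨z, hz, z', hz', hell⟩ := h.ell h0 hm1 h01 h12 ⟨0, by omega⟩ ⟨1, by omega⟩ rfl rfl
    (hcen _ h1T) (hcen _ h2T)
  obtain ⟨n1, n2, n3⟩ := a6 (E 0) (E 1) (E 2) h01 h12 h1T h2T (hE 0)
  have cz : ∀ w, Commute z w := fun w => (Subgroup.mem_center_iff.1 hz w).symm
  have cz' : ∀ w, Commute z' w := fun w => (Subgroup.mem_center_iff.1 hz' w).symm
  have hl : ∀ u v w : GL (Fin 3) K, (∀ y, Commute u y) → Commute (u * v) w → Commute v w := by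
    intro u v w hu hc
    have h5 : v = u⁻¹ * (u * v) := by group
    rw [h5]
    exact (hu w).inv_left.mul_left hc
  refine no_ell' h2 hell (fun hc => n2 (hl _ _ _ cz hc)) (fun hc => n3 (hl _ _ _ cz' hc))
    fun hc => n1 ?_
  exact (hl _ _ _ cz' (hl _ _ _ cz hc).symm).symm

end

end Pool.Agent.BraidRep
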