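import Pool.Agent.Lib.GeoOrig.Defs

/-!
# Module COMB: elementary identities for matrix units
-/

namespace Pool.Agent.GeoOrig

open Matrix

variable {K : Type*} [NontriviallyNormedField K]

section

variable {r d : ℕ} {E : Fin d → Fin d → Matrix (Fin r) (Fin r) K}

theorem mul_comb (hE : MatUnits E) (i j : Fin d) (T : Matrix (Fin d) (Fin d) K) :
    E i j * comb E T = ∑ l, T j l • E i l := by
  unfold comb
  rw [Finset.mul_sum, Finset.sum_eq_single j]
  · rw [Finset.mul_sum]
    refine Finset.sum_congr rfl fun l _ => ?_
    rw [Matrix.mul_smul, hE i j j l, if_pos rfl]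
  · intro k _ hk
    rw [Finset.mul_sum]
    refine Finset.sum_eq_zero fun l _ => ?_
    rw [Matrix.mul_smul, hE i j k l, if_neg hk.symm, smul_zero]
  · intro h
    exact absurd (Finset.mem_univ j) h

theorem comb_mul_unit (hE : MatUnits E) (i j : Fin d) (T : Matrix (Fin d) (Fin d) K) :
    comb E T * E i j = ∑ l, T l i • E l j := by
  unfold comb
  rw [Finset.sum_mul]
  refine Finset.sum_congr rfl fun k _ => ?_
  rw [Finset.sum_mul, Finset.sum_eq_single i]
  · rw [Matrix.smul_mul, hE k i i j, if_pos rfl]
  · intro l _ hl
    rw [Matrix.smul_mul, hE k l i j, if_neg hl, smul_zero]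
  · intro h
    exact absurd (Finset.mem_univ i) h

theorem comb_mul (hE : MatUnits E) (S T : Matrix (Fin d) (Fin d) K) :
    comb E S * comb E T = comb E (S * T) := by
  have h0 : ∀ Z : Matrix (Fin r) (Fin r) K,
      comb E S * Z = ∑ i, ∑ j, (S i j • E i j) * Z := by
    intro Z
    unfold comb
    rw [Finset.sum_mul]
    refine Finset.sum_congr rfl fun i _ => ?_
    rw [Finset.sum_mul]
  have h1 : ∀ i j : Fin d, (S i j • E i j) * comb E T = ∑ l, (S i j * T j l) • E i l := by
    intro i j
    rw [Matrix.smul_mul, mul_comb hE, Finset.smul_sum]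
    refine Finset.sum_congr rfl fun l _ => ?_
    rw [smul_smul]
  have h2 : comb E (S * T) = ∑ i, ∑ l, (S * T) i l • E i l := rfl
  rw [h0, h2]
  refine Finset.sum_congr rfl fun i _ => ?_
  rw [Finset.sum_congr rfl fun j _ => h1 i j, Finset.sum_comm]
  refine Finset.sum_congr rfl fun l _ => ?_
  rw [Matrix.mul_apply, Finset.sum_smul]

theorem comb_one (E : Fin d → Fin d → Matrix (Fin r) (Fin r) K) :
    comb E (1 : Matrix (Fin d) (Fin d) K) = unitOf E := by
  unfold comb unitOf
  refine Finset.sum_congr rfl fun i _ => ?_
  rw [Finset.sum_eq_single i]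
  · rw [Matrix.one_apply_eq, one_smul]
  · intro j _ hj
    rw [Matrix.one_apply_ne hj.symm, zero_smul]
  · intro h
    exact absurd (Finset.mem_univ i) h

theorem comb_single (E : Fin d → Fin d → Matrix (Fin r) (Fin r) K) (i j : Fin d) (c : K) :
    comb E (Matrix.single i j c) = c • E i j := by
  unfold comb
  rw [Finset.sum_eq_single i]
  · rw [Finset.sum_eq_single j]
    · rw [Matrix.single_apply_same]
    · intro l _ hl
      rw [Matrix.single_apply_of_ne _ _ _ _ _ (fun h => hl h.2.symm), zero_smul]
    · intro h
      exact absurd (Finset.mem_univ j) h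
  · intro k _ hk
    refine Finset.sum_eq_zero fun l _ => ?_
    rw [Matrix.single_apply_of_ne _ _ _ _ _ (fun h => hk h.1.symm), zero_smul]
  · intro h
    exact absurd (Finset.mem_univ i) h

theorem comb_add (E : Fin d → Fin d → Matrix (Fin r) (Fin r) K) (S T : Matrix (Fin d) (Fin d) K) :
    comb E (S + T) = comb E S + comb E T := by
  unfold comb
  rw [← Finset.sum_add_distrib]
  refine Finset.sum_congr rfl fun i _ => ?_
  rw [← Finset.sum_add_distrib]
  refine Finset.sum_congr rfl fun j _ => ?_
  rw [Matrix.add_apply, add_smul]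

theorem comb_smul (E : Fin d → Fin d → Matrix (Fin r) (Fin r) K) (c : K)
    (S : Matrix (Fin d) (Fin d) K) : comb E (c • S) = c • comb E S := by
  unfold comb
  rw [Finset.smul_sum]
  refine Finset.sum_congr rfl fun i _ => ?_
  rw [Finset.smul_sum]
  refine Finset.sum_congr rfl fun j _ => ?_
  rw [Matrix.smul_apply, smul_eq_mul, smul_smul]

/-- reading off a coefficient -/
private theorem comb_read (hE : MatUnits E) (T : Matrix (Fin d) (Fin d) K) (i j : Fin d) :
    E i i * comb E T * E j i = T i j • E i i := by
  rw [mul_comb hE, Finset.sum_mul, Finset.sum_eq_single j]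
  · rw [Matrix.smul_mul, hE i j j i, if_pos rfl]
  · intro l _ hl
    rw [Matrix.smul_mul, hE i l j i, if_neg hl, smul_zero]
  · intro h
    exact absurd (Finset.mem_univ j) h

theorem comb_injective (hE : MatUnits E) (h0 : ∀ i, E i i ≠ 0) :
    Function.Injective (comb E) := by
  intro S T h
  ext i j
  have h1 : S i j • E i i = T i j • E i i := by
    rw [← comb_read hE S i j, ← comb_read hE T i j, h]
  exact smul_left_injective K (h0 i) h1

theorem comb_mem_span (E : Fin d → Fin d → Matrix (Fin r) (Fin r) K)
    (T : Matrix (Fin d) (Fin d) K) :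
    comb E T ∈ Submodule.span K (Set.range fun p : Fin d × Fin d => E p.1 p.2) := by
  unfold comb
  exact Submodule.sum_mem _ fun i _ => Submodule.sum_mem _ fun j _ =>
    Submodule.smul_mem _ _ (Submodule.subset_span ⟨(i, j), rfl⟩)

theorem unitOf_mul (hE : MatUnits E) (i j : Fin d) : unitOf E * E i j = E i j := by
  unfold unitOf
  rw [Finset.sum_mul, Finset.sum_eq_single i]
  · rw [hE i i i j, if_pos rfl]
  · intro k _ hk
    rw [hE k k i j, if_neg hk]
  · intro h
    exact absurd (Finset.mem_univ i) h

theorem mul_unitOf (hE : MatUnits E) (i j : Fin d) : E i j * unitOf E = E i j := by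
  unfold unitOf
  rw [Finset.mul_sum, Finset.sum_eq_single j]
  · rw [hE i j j j, if_pos rfl]
  · intro k _ hk
    rw [hE i j k k, if_neg hk.symm]
  · intro h
    exact absurd (Finset.mem_univ j) h

theorem unitOf_mul_comb (hE : MatUnits E) (T : Matrix (Fin d) (Fin d) K) :
    unitOf E * comb E T = comb E T := by
  rw [← comb_one, comb_mul hE, one_mul]

theorem comb_mul_unitOf (hE : MatUnits E) (T : Matrix (Fin d) (Fin d) K) :
    comb E T * unitOf E = comb E T := by
  rw [← comb_one, comb_mul hE, mul_one]

/-- `comb E` is continuous. -/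
theorem continuous_comb (E : Fin d → Fin d → Matrix (Fin r) (Fin r) K) :
    Continuous (comb E) := by
  unfold comb
  exact continuous_finsetSum _ fun i _ => continuous_finsetSum _ fun j _ =>
    (continuous_id.matrix_elem i j).smul continuous_const

/-- Coefficients can be read off: there are linear functionals on matrices recovering `T` from
`comb E T`; in particular `T` depends continuously on `comb E T`. -/
theorem exists_coeff (hE : MatUnits E) (h0 : ∀ i, E i i ≠ 0) :
    ∃ L : Matrix (Fin r) (Fin r) K →ₗ[K] Matrix (Fin d) (Fin d) K, Continuous L ∧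
      ∀ T, L (comb E T) = T := by
  have hex : ∀ i, ∃ p : Fin r × Fin r, E i i p.1 p.2 ≠ 0 := by
    intro i
    by_contra hcon
    push Not at hcon
    apply h0 i
    ext a b
    exact hcon (a, b)
  choose p hp using hex
  refine ⟨{ toFun := fun A => Matrix.of fun i j =>
              (E i i * A * E j i) (p i).1 (p i).2 * (E i i (p i).1 (p i).2)⁻¹
            map_add' := ?_
            map_smul' := ?_ }, ?_, ?_⟩
  · intro A B
    ext i j
    simp only [Matrix.of_apply, Matrix.add_apply, Matrix.mul_add, Matrix.add_mul, add_mul]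
  · intro c A
    ext i j
    simp only [Matrix.of_apply, Matrix.smul_apply, Matrix.mul_smul, Matrix.smul_mul, smul_eq_mul,
      RingHom.id_apply, mul_assoc]
  · refine continuous_matrix fun i j => ?_
    exact (((continuous_const.matrix_mul continuous_id).matrix_mul
      continuous_const).matrix_elem _ _).mul continuous_const
  · intro T
    ext i j
    simp only [LinearMap.coe_mk, AddHom.coe_mk, Matrix.of_apply]
    rw [comb_read hE, Matrix.smul_apply, smul_eq_mul, mul_assoc, mul_inv_cancel₀ (hp i), mul_one]

/-- A matrix commuting with all matrix units `single i j 1` is scalar; stated for `comb`. -/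
theorem scalar_of_comm (hE : MatUnits E) (h0 : ∀ i, E i i ≠ 0) (hd : 0 < d)
    (T : Matrix (Fin d) (Fin d) K) (h : ∀ i j, E i j * comb E T = comb E T * E i j) :
    ∃ c : K, T = c • (1 : Matrix (Fin d) (Fin d) K) := by
  have h1 : Pairwise fun i j => Commute (Matrix.single i j (1:K)) T := by
    intro i j _
    apply comb_injective hE h0
    rw [← comb_mul hE, ← comb_mul hE, comb_single, one_smul]
    exact h i j
  obtain ⟨c, hc⟩ := Matrix.mem_range_scalar_of_commute_single h1
  refine ⟨c, ?_⟩
  rw [← hc, Matrix.smul_one_eq_diagonal]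
  rfl

end

end Pool.Agent.GeoOrig
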