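import Pool.Agent.Lib.GeoOrig.Main

/-!
# Module CONJ: Clifford's theorem for sets of matrices normalised by a representation
-/

namespace Pool.Agent.GeoOrig

open Matrix

variable {K : Type*} [NontriviallyNormedField K] {P : Type*} [Group P] [TopologicalSpace P]

/-- A set of matrices normalised by an irreducible representation acts semisimply. -/
theorem ssOn_of_conj {r : ℕ} {V : Subgroup P} {σ : P → Matrix (Fin r) (Fin r) K}
    (hσ : RepOn V σ) (hspan : Submodule.span K (σ '' (V : Set P)) = ⊤)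
    {S : Set (Matrix (Fin r) (Fin r) K)} (hS : ∀ g ∈ V, ∀ b ∈ S, σ g * b * σ g⁻¹ ∈ S) :
    SSOn S := by
  classical
  intro W hW0
  -- the action by linear maps
  let T : ↥V → (Fin r → K) →ₗ[K] (Fin r → K) := fun g => Matrix.mulVecLin (σ g)
  have hT : ∀ g w, T g w = σ g *ᵥ w := fun _ _ => rfl
  have hTmul : ∀ g h, T (g * h) = (T g).comp (T h) := by
    intro g h
    apply LinearMap.ext
    intro w
    simp only [hT, LinearMap.comp_apply, Subgroup.coe_mul, Matrix.mulVec_mulVec,
      hσ.mul g g.2 h h.2]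
  have hTone : T 1 = LinearMap.id := by
    apply LinearMap.ext
    intro w
    simp only [hT, Subgroup.coe_one, hσ.one, Matrix.one_mulVec, LinearMap.id_apply]
  let St : Submodule K (Fin r → K) → Prop := fun X => ∀ b ∈ S, ∀ w ∈ X, b *ᵥ w ∈ X
  have hStW : St W := hW0
  have hinv : ∀ g : ↥V, σ g * σ (g : P)⁻¹ = 1 := by
    intro g
    rw [← hσ.mul g g.2 _ (V.inv_mem g.2), mul_inv_cancel, hσ.one]
  -- translates of stable subspaces are stable
  have hStmap : ∀ X, St X → ∀ g, St (X.map (T g)) := by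
    intro X hX g b hb w hw
    obtain ⟨v, hv, rfl⟩ := Submodule.mem_map.1 hw
    refine Submodule.mem_map.2 ⟨(σ (g : P)⁻¹ * b * σ g) *ᵥ v, hX _ ?_ v hv, ?_⟩
    · have := hS (g : P)⁻¹ (V.inv_mem g.2) b hb
      rwa [inv_inv] at this
    · simp only [hT, Matrix.mulVec_mulVec]
      congr 1
      calc σ g * (σ (g : P)⁻¹ * b * σ g) = (σ g * σ (g : P)⁻¹) * b * σ g := by
            simp only [Matrix.mul_assoc]
        _ = b * σ g := by rw [hinv, Matrix.one_mul]
  have hmapmap : ∀ X : Submodule K (Fin r → K), ∀ g h, (X.map (T h)).map (T g) =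
      X.map (T (g * h)) := by
    intro X g h
    rw [hTmul, Submodule.map_comp]
  have hmapone : ∀ X : Submodule K (Fin r → K), X.map (T 1) = X := by
    intro X
    rw [hTone, Submodule.map_id]
  by_cases hr : (⊤ : Submodule K (Fin r → K)) = ⊥
  · refine ⟨⊤, fun _ _ _ _ => Submodule.mem_top, ?_⟩
    have h1 : W = ⊥ := by
      rw [eq_bot_iff, ← hr]
      exact le_top
    rw [h1]
    exact isCompl_bot_top
  -- a minimal nonzero stable subspace
  obtain ⟨W₀, ⟨hW₀s, hW₀b⟩, hmin⟩ :=
    WellFounded.has_min (wellFounded_lt : WellFounded (fun a b : Submodule K (Fin r → K) => a < b))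
      {X | St X ∧ X ≠ ⊥} ⟨⊤, fun _ _ _ _ => Submodule.mem_top, hr⟩
  have hsimple : ∀ g, ∀ X : Submodule K (Fin r → K), St X → X ≤ W₀.map (T g) → X ≠ ⊥ →
      X = W₀.map (T g) := by
    intro g X hX hle hne
    have h1 : X.map (T g⁻¹) ≤ W₀ := by
      have := Submodule.map_mono (f := T g⁻¹) hle
      rwa [hmapmap, inv_mul_cancel, hmapone] at this
    have h2 : X.map (T g⁻¹) ≠ ⊥ := by
      intro h
      apply hne
      have h3 : (X.map (T g⁻¹)).map (T g) = X := by rw [hmapmap, mul_inv_cancel, hmapone]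
      rw [← h3, h, Submodule.map_bot]
    have h3 : X.map (T g⁻¹) = W₀ := by
      rcases h1.lt_or_eq with h | h
      · exact absurd h (hmin _ ⟨hStmap X hX _, h2⟩)
      · exact h
    have h4 : (X.map (T g⁻¹)).map (T g) = X := by rw [hmapmap, mul_inv_cancel, hmapone]
    rw [← h4, h3]
  have hsup : (⨆ g, W₀.map (T g)) = ⊤ := by
    obtain ⟨w, hw, hw0⟩ := Submodule.exists_mem_ne_zero_of_ne_bot hW₀b
    refine eq_top_of_stable hspan (W := ⨆ g, W₀.map (T g)) ?_
      ((le_trans (hmapone W₀).ge (le_iSup (fun g => W₀.map (T g)) 1)) hw) hw0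
    rintro _ ⟨h, hh, rfl⟩ w hw
    have h1 : (⨆ g, W₀.map (T g)).map (T ⟨h, hh⟩) ≤ ⨆ g, W₀.map (T g) := by
      rw [Submodule.map_iSup]
      refine iSup_le fun g => ?_
      rw [hmapmap]
      exact le_iSup_of_le (⟨h, hh⟩ * g) le_rfl
    have h2 : T ⟨h, hh⟩ w ∈ ⨆ g, W₀.map (T g) := h1 (Submodule.mem_map_of_mem hw)
    rw [hT] at h2
    exact h2
  -- a maximal stable subspace disjoint from `W`
  obtain ⟨W', ⟨hW's, hW'd⟩, hmax⟩ :=
    WellFounded.has_min (wellFounded_gt : WellFounded (fun a b : Submodule K (Fin r → K) => a > b))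
      {X | St X ∧ Disjoint W X} ⟨⊥, by
        intro b _ w hw
        rw [Submodule.mem_bot] at hw ⊢
        rw [hw, Matrix.mulVec_zero], disjoint_bot_right⟩
  refine ⟨W', hW's, hW'd, ?_⟩
  rw [codisjoint_iff, eq_top_iff, ← hsup]
  refine iSup_le fun g => ?_
  by_contra hnot
  have hXs : St (W₀.map (T g) ⊓ (W ⊔ W')) := by
    intro h hh w hw
    rw [Submodule.mem_inf] at hw ⊢
    refine ⟨hStmap W₀ hW₀s g h hh w hw.1, ?_⟩
    obtain ⟨a, ha, b, hb, rfl⟩ := Submodule.mem_sup.1 hw.2
    rw [Matrix.mulVec_add]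
    exact Submodule.add_mem_sup (hStW h hh a ha) (hW's h hh b hb)
  have hX : W₀.map (T g) ⊓ (W ⊔ W') = ⊥ := by
    by_contra hne
    have := hsimple g _ hXs inf_le_left hne
    apply hnot
    rw [← this]
    exact inf_le_right
  have hnew : St (W' ⊔ W₀.map (T g)) := by
    intro h hh w hw
    obtain ⟨a, ha, b, hb, rfl⟩ := Submodule.mem_sup.1 hw
    rw [Matrix.mulVec_add]
    exact Submodule.add_mem_sup (hW's h hh a ha) (hStmap W₀ hW₀s g h hh b hb)
  have hdisj : Disjoint W (W' ⊔ W₀.map (T g)) := by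
    rw [Submodule.disjoint_def]
    intro x hx hx'
    obtain ⟨a, ha, b, hb, rfl⟩ := Submodule.mem_sup.1 hx'
    have hb' : b ∈ W₀.map (T g) ⊓ (W ⊔ W') := by
      refine Submodule.mem_inf.2 ⟨hb, ?_⟩
      have : b = (a + b) + (-a) := by abel
      rw [this]
      exact Submodule.add_mem_sup hx (W'.neg_mem ha)
    rw [hX, Submodule.mem_bot] at hb'
    subst hb'
    rw [add_zero] at hx ⊢
    exact (Submodule.disjoint_def.1 hW'd) a hx ha
  refine hmax _ ⟨hnew, hdisj⟩ ?_
  refine lt_of_le_of_ne le_sup_left ?_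
  intro heq
  apply hnot
  refine le_trans ?_ (le_sup_right : W' ≤ W ⊔ W')
  rw [heq]
  exact le_sup_right

omit [TopologicalSpace P] in
/-- The dimension of an irreducible representation is divisible by the dimension of each
irreducible constituent of its restriction to a normal subgroup. -/
theorem dim_dvd {r D : ℕ} (hD : 0 < D) (ρ : P →* GL (Fin r) K)
    (hirr : ∀ W : Submodule K (Fin r → K),
      (∀ g, ∀ w ∈ W, (ρ g : Matrix (Fin r) (Fin r) K) *ᵥ w ∈ W) → W = ⊥ ∨ W = ⊤)
    {V : Subgroup P} (hVn : V.Normal) {σ : P → Matrix (Fin D) (Fin D) K}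
    (hspan : Submodule.span K (σ '' (V : Set P)) = ⊤)
    {J : Fin D → (Fin r → K)} (hJ : LinearIndependent K J)
    (hact : ∀ v ∈ V, ∀ j, (ρ v : Matrix (Fin r) (Fin r) K) *ᵥ J j = ∑ k, σ v k j • J k) :
    D ∣ r := by
  classical
  let T : P → (Fin r → K) →ₗ[K] (Fin r → K) :=
    fun g => Matrix.mulVecLin (ρ g : Matrix (Fin r) (Fin r) K)
  have hT : ∀ g w, T g w = (ρ g : Matrix (Fin r) (Fin r) K) *ᵥ w := fun _ _ => rfl
  have hTmul : ∀ g h, T (g * h) = (T g).comp (T h) := by
    intro g h
    apply LinearMap.ext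
    intro w
    simp only [hT, LinearMap.comp_apply, map_mul, Units.val_mul, Matrix.mulVec_mulVec]
  have hTone : T 1 = LinearMap.id := by
    apply LinearMap.ext
    intro w
    simp only [hT, map_one, Units.val_one, Matrix.one_mulVec, LinearMap.id_apply]
  have hTinj : ∀ g, Function.Injective (T g) := by
    intro g
    have h1 : (T g⁻¹).comp (T g) = LinearMap.id := by rw [← hTmul, inv_mul_cancel, hTone]
    intro a b hab
    have h2 := LinearMap.congr_fun h1 a
    have h3 := LinearMap.congr_fun h1 b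
    rw [LinearMap.comp_apply, LinearMap.id_apply] at h2 h3
    rw [← h2, ← h3, hab]
  let St : Submodule K (Fin r → K) → Prop := fun X => ∀ g ∈ V, ∀ w ∈ X, T g w ∈ X
  set L : (Fin D → K) →ₗ[K] (Fin r → K) := Fintype.linearCombination K J with hL
  have hLinj : Function.Injective L :=
    linearIndependent_iff_injective_fintypeLinearCombination.1 hJ
  have hLact : ∀ u ∈ V, ∀ w : Fin D → K, T u (L w) = L (σ u *ᵥ w) := by
    intro u hu w
    rw [hT, hL, Fintype.linearCombination_apply, Fintype.linearCombination_apply,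
      Matrix.mulVec_sum]
    have h1 : ∀ t, (ρ u : Matrix (Fin r) (Fin r) K) *ᵥ (w t • J t) =
        ∑ s, (w t * σ u s t) • J s := by
      intro t
      rw [Matrix.mulVec_smul, hact u hu t, Finset.smul_sum]
      exact Finset.sum_congr rfl fun s _ => smul_smul _ _ _
    simp only [h1]
    rw [Finset.sum_comm]
    refine Finset.sum_congr rfl fun s _ => ?_
    rw [← Finset.sum_smul]
    congr 1
    simp only [Matrix.mulVec, dotProduct]
    exact Finset.sum_congr rfl fun t _ => by ring
  set W₀ : Submodule K (Fin r → K) := LinearMap.range L with hW₀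
  have hW₀s : St W₀ := by
    rintro g hg _ ⟨w, rfl⟩
    rw [hLact g hg w]
    exact ⟨_, rfl⟩
  have hW₀d : Module.finrank K W₀ = D := by
    rw [hW₀, LinearMap.finrank_range_of_inj hLinj, Module.finrank_fin_fun]
  have hW₀simple : ∀ X : Submodule K (Fin r → K), St X → X ≤ W₀ → X ≠ ⊥ → X = W₀ := by
    intro X hX hle hne
    obtain ⟨x, hx, hx0⟩ := Submodule.exists_mem_ne_zero_of_ne_bot hne
    obtain ⟨w, rfl⟩ := hle hx
    have h1 : X.comap L = ⊤ := by
      refine eq_top_of_stable hspan (W := X.comap L) ?_ (w := w) hx ?_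
      · rintro _ ⟨g, hg, rfl⟩ u hu
        rw [Submodule.mem_comap] at hu ⊢
        rw [← hLact g hg u]
        exact hX g hg _ hu
      · rintro rfl
        exact hx0 (map_zero L)
    refine le_antisymm hle ?_
    rintro _ ⟨u, rfl⟩
    have h2 : u ∈ X.comap L := by
      rw [h1]
      exact Submodule.mem_top
    exact h2
  have hStmap : ∀ X, St X → ∀ g, St (X.map (T g)) := by
    intro X hX g h hh w hw
    obtain ⟨v, hv, rfl⟩ := Submodule.mem_map.1 hw
    refine Submodule.mem_map.2 ⟨T (g⁻¹ * h * g) v, hX _ ?_ v hv, ?_⟩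
    · have := hVn.conj_mem h hh g⁻¹
      simpa using this
    · have : T g ∘ₗ T (g⁻¹ * h * g) = T h ∘ₗ T g := by
        rw [← hTmul, ← hTmul]
        congr 1
        group
      exact LinearMap.congr_fun this v
  have hmapmap : ∀ X : Submodule K (Fin r → K), ∀ g h, (X.map (T h)).map (T g) =
      X.map (T (g * h)) := by
    intro X g h
    rw [hTmul, Submodule.map_comp]
  have hmapone : ∀ X : Submodule K (Fin r → K), X.map (T 1) = X := by
    intro X
    rw [hTone, Submodule.map_id]
  -- a maximal stable subspace of dimension divisible by `D`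
  obtain ⟨X, ⟨hXs, hXd⟩, hmax⟩ :=
    WellFounded.has_min (wellFounded_gt : WellFounded (fun a b : Submodule K (Fin r → K) => a > b))
      {X | St X ∧ D ∣ Module.finrank K X} ⟨⊥, by
        intro b _ w hw
        rw [Submodule.mem_bot] at hw ⊢
        rw [hw, map_zero], by rw [finrank_bot]; exact dvd_zero D⟩
  have hle : ∀ g, W₀.map (T g) ≤ X := by
    intro g
    by_contra hnot
    have hdisj : X ⊓ W₀.map (T g) = ⊥ := by
      by_contra hne
      apply hnot
      have h1 : St (X ⊓ W₀.map (T g)) := fun h hh w hw =>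
        ⟨hXs h hh w hw.1, hStmap W₀ hW₀s g h hh w hw.2⟩
      have h2 : (X ⊓ W₀.map (T g)).map (T g⁻¹) = W₀ := by
        refine hW₀simple _ (hStmap _ h1 _) ?_ ?_
        · have := Submodule.map_mono (f := T g⁻¹)
            (inf_le_right : X ⊓ W₀.map (T g) ≤ W₀.map (T g))
          rwa [hmapmap, inv_mul_cancel, hmapone] at this
        · intro h0
          apply hne
          have h3 : ((X ⊓ W₀.map (T g)).map (T g⁻¹)).map (T g) = X ⊓ W₀.map (T g) := by
            rw [hmapmap, mul_inv_cancel, hmapone]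
          rw [← h3, h0, Submodule.map_bot]
      have h3 : ((X ⊓ W₀.map (T g)).map (T g⁻¹)).map (T g) = X ⊓ W₀.map (T g) := by
        rw [hmapmap, mul_inv_cancel, hmapone]
      rw [← h2, h3]
      exact inf_le_left
    have h4 : Module.finrank K (W₀.map (T g)) = D := by
      rw [← hW₀d]
      exact (LinearEquiv.finrank_eq (Submodule.equivMapOfInjective (T g) (hTinj g) W₀)).symm
    have h5 := Submodule.finrank_sup_add_finrank_inf_eq X (W₀.map (T g))
    rw [hdisj, finrank_bot, add_zero, h4] at h5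
    refine hmax (X ⊔ W₀.map (T g)) ⟨?_, ?_⟩ ?_
    · intro h hh w hw
      obtain ⟨a, ha, b, hb, rfl⟩ := Submodule.mem_sup.1 hw
      rw [map_add]
      exact Submodule.add_mem_sup (hXs h hh a ha) (hStmap W₀ hW₀s g h hh b hb)
    · rw [h5]
      exact Dvd.dvd.add hXd (dvd_refl D)
    · refine lt_of_le_of_ne le_sup_left ?_
      intro heq
      apply hnot
      rw [heq]
      exact le_sup_right
  have hsup : (⨆ g, W₀.map (T g)) = ⊤ := by
    have hst : ∀ h, ∀ w ∈ (⨆ g, W₀.map (T g)),
        (ρ h : Matrix (Fin r) (Fin r) K) *ᵥ w ∈ (⨆ g, W₀.map (T g)) := by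
      intro h w hw
      have h1 : (⨆ g, W₀.map (T g)).map (T h) ≤ ⨆ g, W₀.map (T g) := by
        rw [Submodule.map_iSup]
        refine iSup_le fun g => ?_
        rw [hmapmap]
        exact le_iSup (fun g => W₀.map (T g)) (h * g)
      exact h1 (Submodule.mem_map_of_mem (f := T h) hw)
    rcases hirr (⨆ g, W₀.map (T g)) hst with h | h
    · exfalso
      have h1 : W₀ ≤ ⊥ := by
        rw [← h]
        exact le_trans (hmapone W₀).ge (le_iSup (fun g => W₀.map (T g)) 1)
      rw [le_bot_iff] at h1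
      rw [h1, finrank_bot] at hW₀d
      omega
    · exact h
  have hXtop : X = ⊤ := by
    rw [eq_top_iff, ← hsup]
    exact iSup_le hle
  rw [hXtop, finrank_top, Module.finrank_fin_fun] at hXd
  exact hXd

end Pool.Agent.GeoOrig
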