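import Pool.Agent.Lib.GeoOrig.Comb

/-!
# Module CORN: the multiplicity space
-/

namespace Pool.Agent.GeoOrig

open Matrix Topology

variable {K : Type*} [NontriviallyNormedField K] {P : Type*} [Group P] [TopologicalSpace P]
  [IsTopologicalGroup P]

/-- Rank factorization of an idempotent matrix. -/
theorem corn_factor {r : ℕ} {F : Matrix (Fin r) (Fin r) K} (hF : F * F = F) (h0 : F ≠ 0) :
    ∃ (m : ℕ) (A : Matrix (Fin r) (Fin m) K) (B : Matrix (Fin m) (Fin r) K), 0 < m ∧
      A * B = F ∧ B * A = 1 := by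
  classical
  let f : (Fin r → K) →ₗ[K] (Fin r → K) := Matrix.toLin' F
  have hf : ∀ v, f v = F *ᵥ v := fun v => Matrix.toLin'_apply F v
  let b := Module.finBasis K (LinearMap.range f)
  let B' : (Fin r → K) →ₗ[K] (Fin (Module.finrank K (LinearMap.range f)) → K) :=
    b.equivFun.toLinearMap ∘ₗ f.rangeRestrict
  let A' : (Fin (Module.finrank K (LinearMap.range f)) → K) →ₗ[K] (Fin r → K) :=
    (LinearMap.range f).subtype ∘ₗ b.equivFun.symm.toLinearMap
  have hAB : A' ∘ₗ B' = f := by
    refine LinearMap.ext fun v => ?_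
    show (LinearMap.range f).subtype (b.equivFun.symm (b.equivFun (f.rangeRestrict v))) = f v
    rw [LinearEquiv.symm_apply_apply]
    rfl
  have hBA : B' ∘ₗ A' = LinearMap.id := by
    refine LinearMap.ext fun v => ?_
    show b.equivFun (f.rangeRestrict ((b.equivFun.symm v : LinearMap.range f) : Fin r → K)) = v
    have h1 : f.rangeRestrict ((b.equivFun.symm v : LinearMap.range f) : Fin r → K) =
        b.equivFun.symm v := by
      apply Subtype.ext
      obtain ⟨w, hw⟩ := (b.equivFun.symm v).2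
      show f ((b.equivFun.symm v : LinearMap.range f) : Fin r → K) =
        ((b.equivFun.symm v : LinearMap.range f) : Fin r → K)
      rw [← hw, hf, hf, Matrix.mulVec_mulVec, hF]
    rw [h1, LinearEquiv.apply_symm_apply]
  refine ⟨_, LinearMap.toMatrix' A', LinearMap.toMatrix' B', ?_, ?_, ?_⟩
  · rw [Module.finrank_pos_iff_exists_ne_zero]
    by_contra hcon
    push Not at hcon
    apply h0
    have h1 : f = 0 := by
      refine LinearMap.ext fun v => ?_
      have := hcon (f.rangeRestrict v)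
      have h2 := congrArg Subtype.val this
      exact h2
    have h2 : LinearMap.toMatrix' f = F := LinearMap.toMatrix'_toLin' F
    rw [← h2, h1, map_zero]
  · rw [← LinearMap.toMatrix'_comp, hAB]
    exact LinearMap.toMatrix'_toLin' F
  · rw [← LinearMap.toMatrix'_comp, hBA, LinearMap.toMatrix'_id]

/-- CORN. On the part `unitOf E` of `K ^ r` the representation `ρ` is `σ ⊗ τ`, where `τ` is a
representation on the multiplicity space `E 0 0 * K ^ r` of dimension `m`.

Proof: choose a basis `ι t` (`t : Fin m`) of the range of `E 0 0` and coordinates `π` on it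
(continuous), `J k t = E k 0 *ᵥ ι t`, and let `τ u` be the matrix of
`ρ u * comb E (σ u⁻¹)` on the range of `E 0 0`; this matrix commutes with all `E i j`. -/
theorem corner {U : Subgroup P} {r d : ℕ} (hd : 0 < d)
    {E : Fin d → Fin d → Matrix (Fin r) (Fin r) K} (hE : MatUnits E) (hE0 : ∀ i, E i i ≠ 0)
    {ρ : P → Matrix (Fin r) (Fin r) K} (hρ : RepOn U ρ)
    (hcomm : ∀ u ∈ U, ρ u * unitOf E = unitOf E * ρ u)
    {σ : P → Matrix (Fin d) (Fin d) K} (hσ : RepOn U σ)
    (hconj : ∀ u ∈ U, ∀ i j, ρ u * E i j * ρ u⁻¹ * comb E (σ u) = comb E (σ u) * E i j) :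
    ∃ (m : ℕ) (τ : P → Matrix (Fin m) (Fin m) K) (J : Fin d → Fin m → (Fin r → K)), 0 < m ∧
      RepOn U τ ∧ LinearIndependent K (fun p : Fin d × Fin m => J p.1 p.2) ∧
      (∀ u ∈ U, ∀ j t, ρ u *ᵥ J j t = ∑ k, ∑ s, (σ u k j * τ u s t) • J k s) ∧
      ∀ i j k t, E i j *ᵥ J k t = if j = k then J i t else 0 := by
  classical
  let o : Fin d := ⟨0, hd⟩
  have hEoo : E o o * E o o = E o o := by
    rw [hE, if_pos rfl]
  obtain ⟨m, A, B, hm, hAB, hBA⟩ := corn_factor hEoo (hE0 o)
  have hEA : E o o * A = A := by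
    rw [← hAB, Matrix.mul_assoc, hBA, Matrix.mul_one]
  have hBE : B * E o o = B := by
    rw [← hAB, ← Matrix.mul_assoc, hBA, Matrix.one_mul]
  have heA : unitOf E * A = A := by
    rw [← hEA, ← Matrix.mul_assoc, unitOf_mul hE]
  have hinv : ∀ u ∈ U, ρ u * ρ u⁻¹ = 1 := by
    intro u hu
    rw [← hρ.mul u hu u⁻¹ (U.inv_mem hu), mul_inv_cancel, hρ.one]
  have hinv' : ∀ u ∈ U, ρ u⁻¹ * ρ u = 1 := by
    intro u hu
    rw [← hρ.mul u⁻¹ (U.inv_mem hu) u hu, inv_mul_cancel, hρ.one]
  have hσinv : ∀ u ∈ U, σ u⁻¹ * σ u = 1 := by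
    intro u hu
    rw [← hσ.mul u⁻¹ (U.inv_mem hu) u hu, inv_mul_cancel, hσ.one]
  let M : P → Matrix (Fin r) (Fin r) K := fun u => ρ u * comb E (σ u⁻¹)
  have hMcomm : ∀ u ∈ U, ∀ i j, E i j * M u = M u * E i j := by
    intro u hu i j
    have h1 := hconj u⁻¹ (U.inv_mem hu) i j
    rw [inv_inv] at h1
    show E i j * (ρ u * comb E (σ u⁻¹)) = ρ u * comb E (σ u⁻¹) * E i j
    rw [Matrix.mul_assoc (ρ u), ← h1]
    simp only [← Matrix.mul_assoc]
    rw [hinv u hu, Matrix.one_mul]
  have hMcomb : ∀ u ∈ U, ∀ T, comb E T * M u = M u * comb E T := by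
    intro u hu T
    simp only [comb, Matrix.sum_mul, Matrix.mul_sum, Matrix.smul_mul, Matrix.mul_smul]
    refine Finset.sum_congr rfl fun i _ => Finset.sum_congr rfl fun j _ => ?_
    rw [hMcomm u hu]
  have hMmul : ∀ u ∈ U, ∀ v ∈ U, M (u * v) = M u * M v := by
    intro u hu v hv
    show ρ (u * v) * comb E (σ (u * v)⁻¹) = ρ u * comb E (σ u⁻¹) * M v
    rw [Matrix.mul_assoc, hMcomb v hv, _root_.mul_inv_rev, hρ.mul u hu v hv,
      hσ.mul _ (U.inv_mem hv) _ (U.inv_mem hu), ← comb_mul hE]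
    show ρ u * ρ v * (comb E (σ v⁻¹) * comb E (σ u⁻¹)) =
      ρ u * (ρ v * comb E (σ v⁻¹) * comb E (σ u⁻¹))
    simp only [Matrix.mul_assoc]
  have hM1 : M 1 = unitOf E := by
    show ρ 1 * comb E (σ 1⁻¹) = unitOf E
    rw [inv_one, hρ.one, hσ.one, Matrix.one_mul, comb_one]
  -- the vectors
  let J : Fin d → Fin m → (Fin r → K) := fun k t => E k o *ᵥ (fun i => A i t)
  have hEJ : ∀ i j k t, E i j *ᵥ J k t = if j = k then J i t else 0 := by
    intro i j k t
    show E i j *ᵥ (E k o *ᵥ _) = _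
    rw [Matrix.mulVec_mulVec, hE]
    split_ifs
    · rfl
    · rw [Matrix.zero_mulVec]
  have hAcol : ∀ t, (fun i => A i t) = A *ᵥ Pi.single t 1 := by
    intro t
    rw [Matrix.mulVec_single_one]
    rfl
  have hJo : ∀ t, J o t = fun i => A i t := by
    intro t
    show E o o *ᵥ _ = _
    rw [hAcol, Matrix.mulVec_mulVec, hEA]
  have hcombJ : ∀ T j t, comb E T *ᵥ J j t = ∑ k, T k j • J k t := by
    intro T j t
    simp only [comb, Matrix.sum_mulVec, Matrix.smul_mulVec, hEJ]
    refine Finset.sum_congr rfl fun i _ => ?_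
    rw [Finset.sum_eq_single j]
    · rw [if_pos rfl]
    · intro l _ hl
      rw [if_neg hl, smul_zero]
    · intro h
      exact absurd (Finset.mem_univ j) h
  have heJ : ∀ j t, unitOf E *ᵥ J j t = J j t := by
    intro j t
    rw [← comb_one, hcombJ, Finset.sum_eq_single j]
    · rw [Matrix.one_apply_eq, one_smul]
    · intro l _ hl
      rw [Matrix.one_apply_ne hl, zero_smul]
    · intro h
      exact absurd (Finset.mem_univ j) h
  let τ : P → Matrix (Fin m) (Fin m) K := fun u => B * M u * A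
  have hMA : ∀ u ∈ U, M u * A = A * τ u := by
    intro u hu
    show M u * A = A * (B * M u * A)
    have h1 : A * (B * M u * A) = (A * B) * M u * A := by
      simp only [Matrix.mul_assoc]
    rw [h1, hAB, hMcomm u hu, Matrix.mul_assoc (M u) (E o o) A, hEA]
  have hMJ : ∀ u ∈ U, ∀ k t, M u *ᵥ J k t = ∑ s, τ u s t • J k s := by
    intro u hu k t
    show M u *ᵥ (E k o *ᵥ _) = _
    rw [Matrix.mulVec_mulVec, ← hMcomm u hu, hAcol, Matrix.mulVec_mulVec, Matrix.mul_assoc,
      hMA u hu, ← Matrix.mul_assoc, ← Matrix.mulVec_mulVec, ← Matrix.mulVec_mulVec]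
    have h1 : τ u *ᵥ Pi.single t 1 = ∑ s, τ u s t • (Pi.single s 1 : Fin m → K) := by
      rw [Matrix.mulVec_single_one]
      funext s
      rw [Finset.sum_apply, Finset.sum_eq_single s]
      · rw [Pi.smul_apply, Pi.single_eq_same, smul_eq_mul, mul_one]
        rfl
      · intro l _ hl
        rw [Pi.smul_apply, Pi.single_eq_of_ne (Ne.symm hl), smul_zero]
      · intro h
        exact absurd (Finset.mem_univ s) h
    rw [h1, Matrix.mulVec_sum, Matrix.mulVec_sum]
    refine Finset.sum_congr rfl fun s _ => ?_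
    rw [Matrix.mulVec_smul, Matrix.mulVec_smul, ← hAcol]
  refine ⟨m, τ, J, hm, ⟨?_, ?_, ?_⟩, ?_, ?_, hEJ⟩
  · show B * M 1 * A = 1
    rw [hM1, Matrix.mul_assoc, heA, hBA]
  · intro u hu v hv
    have h1 : A * (τ (u * v)) = A * (τ u * τ v) := by
      rw [← hMA _ (U.mul_mem hu hv), hMmul u hu v hv, Matrix.mul_assoc, hMA v hv,
        ← Matrix.mul_assoc, hMA u hu, Matrix.mul_assoc]
    have h2 := congrArg (fun X => B * X) h1
    simp only [← Matrix.mul_assoc, hBA, Matrix.one_mul] at h2
    exact h2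
  · have h1 : ContinuousOn (fun u => σ u⁻¹) (U : Set P) :=
      hσ.cont.comp continuous_inv.continuousOn (fun u hu => U.inv_mem hu)
    have h2 : ContinuousOn (fun u => comb E (σ u⁻¹)) (U : Set P) :=
      (continuous_comb E).comp_continuousOn h1
    have h3 : Continuous fun X : Matrix (Fin r) (Fin r) K => B * X * A :=
      (continuous_const.matrix_mul continuous_id).matrix_mul continuous_const
    exact h3.comp_continuousOn (hρ.cont.mul h2)
  · rw [Fintype.linearIndependent_iff]
    intro g hg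
    rintro ⟨k, t⟩
    have h1 := congrArg (fun v => E o k *ᵥ v) hg
    simp only [Matrix.mulVec_sum, Matrix.mulVec_smul, hEJ, Matrix.mulVec_zero] at h1
    rw [Fintype.sum_prod_type, Finset.sum_eq_single k] at h1
    · simp only [if_true] at h1
      have h2 : A *ᵥ (fun t => g (k, t)) = 0 := by
        rw [← h1]
        funext i
        rw [Finset.sum_apply]
        simp only [Matrix.mulVec, dotProduct, Pi.smul_apply, hJo, smul_eq_mul]
        exact Finset.sum_congr rfl fun s _ => mul_comm _ _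
      have h3 := congrArg (fun v => B *ᵥ v) h2
      simp only [Matrix.mulVec_mulVec, hBA, Matrix.one_mulVec, Matrix.mulVec_zero] at h3
      exact congrFun h3 t
    · intro l _ hl
      refine Finset.sum_eq_zero fun s _ => ?_
      rw [if_neg (Ne.symm hl), smul_zero]
    · intro h
      exact absurd (Finset.mem_univ k) h
  · intro u hu j t
    have h1 : ρ u * unitOf E = M u * comb E (σ u) := by
      show ρ u * unitOf E = ρ u * comb E (σ u⁻¹) * comb E (σ u)
      rw [Matrix.mul_assoc, comb_mul hE, hσinv u hu, comb_one]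
    rw [← heJ j t, Matrix.mulVec_mulVec, h1, ← Matrix.mulVec_mulVec, hcombJ, Matrix.mulVec_sum]
    refine Finset.sum_congr rfl fun k _ => ?_
    rw [Matrix.mulVec_smul, hMJ u hu, Finset.smul_sum]
    refine Finset.sum_congr rfl fun s _ => ?_
    rw [smul_smul]

end Pool.Agent.GeoOrig
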