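import Pool.Agent.Lib.GeoOrig.SkewIso

/-!
# Configurations of points on a curve of genus `g`

Bellingeri's relations between the standard generators of the fundamental group of the space of
configurations of points on a surface of genus `g` with at least one puncture, and the bounded
support theorem.
-/

namespace Pool.Agent.BraidRep

/-- `i` and `k` are the two loops of one of the `g` handles: `i = 2 t`, `k = 2 t + 1`, `t < g`. -/
def Handle (g : ℕ) {n : ℕ} (i k : Fin n) : Prop := ∃ t < g, i.val = 2 * t ∧ k.val = 2 * t + 1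

/-- The relations of P. Bellingeri (On presentations of surface braid groups, J. Algebra 274
(2004), presentation of the pure braid group of a surface of genus `g` with at least one puncture;
the relations (PR1)-(PR4), (ER1), (ER2), with all indices lowered by one) between elements `A i j`,
`i < j`, `m ≤ j`, of a group. The indices smaller than `2 g` stand for the handles (`2 t` and
`2 t + 1` for the two loops of the same handle), the indices `i` with `2 g ≤ i < m` for the
punctures except one, and the indices `≥ m` for the moving points. -/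
structure CurveBraid (g m : ℕ) {n : ℕ} {G : Type*} [Group G] (A : Fin n → Fin n → G) :
    Prop where
  le : 2 * g ≤ m
  disj : ∀ r s i j, m ≤ s.val → r < s → s < i → i < j → (A r s)⁻¹ * A i j * A r s = A i j
  nest : ∀ i r s j, m ≤ s.val → ¬ Handle g i r → i < r → r < s → s < j →
    (A r s)⁻¹ * A i j * A r s = A i j
  adj : ∀ r s j, m ≤ s.val → r < s → s < j →
    (A r s)⁻¹ * A s j * A r s = A r j * A s j * (A r j)⁻¹
  same : ∀ r s j, m ≤ s.val → r < s → s < j →
    (A r s)⁻¹ * A r j * A r s = (A r j * A s j) * A r j * (A r j * A s j)⁻¹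
  cross : ∀ r i s j, m ≤ s.val → ¬ Handle g r i → r < i → i < s → s < j →
    (A r s)⁻¹ * A i j * A r s =
    (A r j * A s j * (A r j)⁻¹ * (A s j)⁻¹) * A i j * (A r j * A s j * (A r j)⁻¹ * (A s j)⁻¹)⁻¹
  er1 : ∀ i k s j, m ≤ s.val → Handle g i k → s < j →
    (A k s)⁻¹ * A i j * A k s = A i j * A k j * (A s j)⁻¹ * (A k j)⁻¹
  er2 : ∀ i k s j, m ≤ s.val → Handle g i k → s < j →
    (A i s)⁻¹ * A k j * A i s = A i j * A s j * (A i j)⁻¹ * A k j * A s j * A i j *
      (A s j)⁻¹ * (A i j)⁻¹

section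

variable {g m n : ℕ} {G : Type*} [Group G] {A : Fin n → Fin n → G}

theorem Handle.lt {i k : Fin n} (h : Handle g i k) : i.val < 2 * g ∧ k.val < 2 * g := by
  obtain ⟨t, h1, h2, h3⟩ := h
  omega

theorem Handle.lt' {i k : Fin n} (h : Handle g i k) : i < k := by
  obtain ⟨t, h1, h2, h3⟩ := h
  exact Fin.lt_def.2 (by omega)

theorem CurveBraid.surface (h : CurveBraid g m A) : SurfaceBraid m A := by
  have hle := h.le
  refine ⟨h.disj, fun i r s j h0 h1 h2 h3 => h.nest i r s j (h0.trans (Fin.lt_def.1 h2).le)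
    (fun hh => ?_) h1 h2 h3, h.adj, h.same, fun r i s j h0 h1 h2 h3 => h.cross r i s j
    (h0.trans (Fin.lt_def.1 h2).le) (fun hh => ?_) h1 h2 h3⟩
  · have := hh.lt.2
    omega
  · have := hh.lt.2
    omega

/-- A homomorphism preserves the relations. -/
theorem CurveBraid.map {H : Type*} [Group H] (h : CurveBraid g m A) (f : G →* H) :
    CurveBraid g m (fun i j => f (A i j)) := by
  refine ⟨h.le, fun r s i j h0 h1 h2 h3 => ?_, fun i r s j h0 hh h1 h2 h3 => ?_,
    fun r s j h0 h1 h2 => ?_, fun r s j h0 h1 h2 => ?_, fun r i s j h0 hh h1 h2 h3 => ?_,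
    fun i k s j h0 h1 h2 => ?_, fun i k s j h0 h1 h2 => ?_⟩
  · simpa using congrArg f (h.disj r s i j h0 h1 h2 h3)
  · simpa using congrArg f (h.nest i r s j h0 hh h1 h2 h3)
  · simpa using congrArg f (h.adj r s j h0 h1 h2)
  · simpa using congrArg f (h.same r s j h0 h1 h2)
  · simpa using congrArg f (h.cross r i s j h0 hh h1 h2 h3)
  · simpa using congrArg f (h.er1 i k s j h0 h1 h2)
  · simpa using congrArg f (h.er2 i k s j h0 h1 h2)

/-- The computation with the two loops `a`, `b` of the first moving point around a handle, the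
two loops `x`, `y` of the second one, and the generator `c` attached to the two points. -/
private theorem handle_calc {a b c x y : G} (e1 : b⁻¹ * x * b = x * y * c⁻¹ * y⁻¹)
    (e2 : a⁻¹ * y * a = x * c * x⁻¹ * y * c * x * c⁻¹ * x⁻¹)
    (s1 : b⁻¹ * y * b = (y * c) * y * (y * c)⁻¹) (s2 : a⁻¹ * x * a = (x * c) * x * (x * c)⁻¹)
    (d1 : b⁻¹ * c * b = y * c * y⁻¹) (d2 : a⁻¹ * c * a = x * c * x⁻¹) :
    (Commute b x → c = 1) ∧ Commute (b⁻¹ * a * b) x ∧ (Commute (b⁻¹ * a * b) y → c = 1) := by
  have h1 : b⁻¹ * (x * c) * b = x := by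
    calc b⁻¹ * (x * c) * b = (b⁻¹ * x * b) * (b⁻¹ * c * b) := by group
      _ = x := by rw [e1, d1]; group
  have h2 : a⁻¹ * (x * c) * a = x * c := by
    calc a⁻¹ * (x * c) * a = (a⁻¹ * x * a) * (a⁻¹ * c * a) := by group
      _ = x * c := by rw [s2, d2]; group
  have h3 : b⁻¹ * (c⁻¹ * y * c) * b = y := by
    calc b⁻¹ * (c⁻¹ * y * c) * b = (b⁻¹ * c * b)⁻¹ * (b⁻¹ * y * b) * (b⁻¹ * c * b) := by group
      _ = y := by rw [s1, d1]; group
  have h4 : a⁻¹ * (c⁻¹ * y * c) * a = y * c := by
    calc a⁻¹ * (c⁻¹ * y * c) * a = (a⁻¹ * c * a)⁻¹ * (a⁻¹ * y * a) * (a⁻¹ * c * a) := by group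
      _ = y * c := by rw [e2, d2]; group
  have h5 : b⁻¹ * (y * c) * b = y * c := by
    calc b⁻¹ * (y * c) * b = (b⁻¹ * y * b) * (b⁻¹ * c * b) := by group
      _ = y * c := by rw [s1, d1]; group
  have h6 : b * x * b⁻¹ = x * c := by
    calc b * x * b⁻¹ = b * (b⁻¹ * (x * c) * b) * b⁻¹ := by rw [h1]
      _ = x * c := by group
  have h7 : b * y * b⁻¹ = c⁻¹ * y * c := by
    calc b * y * b⁻¹ = b * (b⁻¹ * (c⁻¹ * y * c) * b) * b⁻¹ := by rw [h3]
      _ = c⁻¹ * y * c := by group
  refine ⟨fun hc => ?_, ?_, fun hc => ?_⟩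
  · have h8 : b * x * b⁻¹ = x := by rw [hc.eq]; group
    rw [h6] at h8
    exact mul_eq_left.1 h8
  · apply commute_of_conj
    calc (b⁻¹ * a * b)⁻¹ * x * (b⁻¹ * a * b) = b⁻¹ * (a⁻¹ * (b * x * b⁻¹) * a) * b := by group
      _ = x := by rw [h6, h2, h1]
  · have h8 : (b⁻¹ * a * b)⁻¹ * y * (b⁻¹ * a * b) = y * c := by
      calc (b⁻¹ * a * b)⁻¹ * y * (b⁻¹ * a * b) = b⁻¹ * (a⁻¹ * (b * y * b⁻¹) * a) * b := by group
        _ = y * c := by rw [h7, h4, h5]
    have h9 : (b⁻¹ * a * b)⁻¹ * y * (b⁻¹ * a * b) = y := by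
      rw [mul_assoc, ← hc.eq]
      group
    rw [h8] at h9
    exact mul_eq_left.1 h9

theorem CurveBraid.handle_calc (h : CurveBraid g m A) {i k s j : Fin n} (hs : m ≤ s.val)
    (hik : Handle g i k) (hsj : s < j) :
    (Commute (A k s) (A i j) → A s j = 1) ∧
      Commute ((A k s)⁻¹ * A i s * A k s) (A i j) ∧
      (Commute ((A k s)⁻¹ * A i s * A k s) (A k j) → A s j = 1) := by
  have hle := h.le
  have h1 := hik.lt
  have his : i < s := Fin.lt_def.2 (by omega)
  have hks : k < s := Fin.lt_def.2 (by omega)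
  exact BraidRep.handle_calc (h.er1 i k s j hs hik hsj) (h.er2 i k s j hs hik hsj)
    (h.same k s j hs hks hsj) (h.same i s j hs his hsj) (h.adj k s j hs hks hsj)
    (h.adj i s j hs his hsj)

/-- The relations between the loops of a handle in a convenient form: `x = A i j`, `y = A k j`,
`a = A i s`, `b = A k s`, `c = A s j`. -/
theorem CurveBraid.handle_rel (h : CurveBraid g m A) {i k s j : Fin n} (hs : m ≤ s.val)
    (hik : Handle g i k) (hsj : s < j) :
    A k s * A i j * (A k s)⁻¹ = A i j * A s j ∧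
      A k s * A k j * (A k s)⁻¹ = (A s j)⁻¹ * A k j * A s j ∧
      ((A k s)⁻¹ * A i s * A k s)⁻¹ * A k j * ((A k s)⁻¹ * A i s * A k s) = A k j * A s j ∧
      (A i s)⁻¹ * (A i j * A s j) * A i s = A i j * A s j ∧
      (A k s)⁻¹ * (A k j * A s j) * A k s = A k j * A s j := by
  have hle := h.le
  have h1 := hik.lt
  have his : i < s := Fin.lt_def.2 (by omega)
  have hks : k < s := Fin.lt_def.2 (by omega)
  have e1 := h.er1 i k s j hs hik hsj
  have e2 := h.er2 i k s j hs hik hsj
  have s1 := h.same k s j hs hks hsj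
  have s2 := h.same i s j hs his hsj
  have d1 := h.adj k s j hs hks hsj
  have d2 := h.adj i s j hs his hsj
  generalize A i s = a at *
  generalize A k s = b at *
  generalize A i j = x at *
  generalize A k j = y at *
  generalize A s j = c at *
  have h1 : b⁻¹ * (x * c) * b = x := by
    calc b⁻¹ * (x * c) * b = (b⁻¹ * x * b) * (b⁻¹ * c * b) := by group
      _ = x := by rw [e1, d1]; group
  have h2 : a⁻¹ * (x * c) * a = x * c := by
    calc a⁻¹ * (x * c) * a = (a⁻¹ * x * a) * (a⁻¹ * c * a) := by group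
      _ = x * c := by rw [s2, d2]; group
  have h3 : b⁻¹ * (c⁻¹ * y * c) * b = y := by
    calc b⁻¹ * (c⁻¹ * y * c) * b = (b⁻¹ * c * b)⁻¹ * (b⁻¹ * y * b) * (b⁻¹ * c * b) := by group
      _ = y := by rw [s1, d1]; group
  have h4 : a⁻¹ * (c⁻¹ * y * c) * a = y * c := by
    calc a⁻¹ * (c⁻¹ * y * c) * a = (a⁻¹ * c * a)⁻¹ * (a⁻¹ * y * a) * (a⁻¹ * c * a) := by group
      _ = y * c := by rw [e2, d2]; group
  have h5 : b⁻¹ * (y * c) * b = y * c := by
    calc b⁻¹ * (y * c) * b = (b⁻¹ * y * b) * (b⁻¹ * c * b) := by group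
      _ = y * c := by rw [s1, d1]; group
  have h6 : b * x * b⁻¹ = x * c := by
    calc b * x * b⁻¹ = b * (b⁻¹ * (x * c) * b) * b⁻¹ := by rw [h1]
      _ = x * c := by group
  have h7 : b * y * b⁻¹ = c⁻¹ * y * c := by
    calc b * y * b⁻¹ = b * (b⁻¹ * (c⁻¹ * y * c) * b) * b⁻¹ := by rw [h3]
      _ = c⁻¹ * y * c := by group
  refine ⟨h6, h7, ?_, h2, h5⟩
  calc (b⁻¹ * a * b)⁻¹ * y * (b⁻¹ * a * b) = b⁻¹ * (a⁻¹ * (b * y * b⁻¹) * a) * b := by group
    _ = y * c := by rw [h7, h4, h5]

/-- The bound for the number of noncommuting triples which contain two given moving points. -/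
theorem CurveBraid.bound (h : CurveBraid g m A) {C : Set G} {N : ℕ}
    (hC : ∀ i j, i < j → m ≤ j.val → A i j ∈ C) (hconj : ∀ b ∈ C, ∀ x, x⁻¹ * b * x ∈ C)
    (hsk : SkewOn C N) {s j : Fin n} (hs : m ≤ s.val) (hsj : s < j) (h1 : A s j ≠ 1)
    (U : Finset (Fin n))
    (hU : ∀ k ∈ U, 2 * g ≤ k.val ∧ k < s ∧ ¬ Commute (A k s) (A k j)) :
    2 * g + U.card ≤ N := by
  classical
  have hle := h.le
  let nx : ℕ → Fin n := fun i => if hi : i < n then ⟨i, hi⟩ else s
  have hsn : s.val < n := s.2
  have hnx : ∀ i, i < n → (nx i).val = i := fun i hi => by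
    show (if hi : i < n then (⟨i, hi⟩ : Fin n) else s).val = i
    rw [dif_pos hi]
  have hnx' : ∀ k : Fin n, nx k.val = k := fun k => Fin.ext (hnx k.val k.2)
  let T : ℕ → G := fun p => if p < 2 * g then
    (if p % 2 = 0 then A (nx (p + 1)) s else (A (nx p) s)⁻¹ * A (nx (p - 1)) s * A (nx p) s)
    else A (nx p) s
  let S : Finset ℕ := Finset.range (2 * g) ∪ U.image (fun k => k.val)
  have hSlt : ∀ p ∈ S, p < s.val ∧ (p < 2 * g ∨ (2 * g ≤ p ∧ nx p ∈ U)) := by
    intro p hp
    rcases Finset.mem_union.1 hp with hp | hp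
    · have := Finset.mem_range.1 hp
      exact ⟨by omega, Or.inl this⟩
    · obtain ⟨k, hk, rfl⟩ := Finset.mem_image.1 hp
      obtain ⟨a1, a2, a3⟩ := hU k hk
      exact ⟨Fin.lt_def.1 a2, Or.inr ⟨a1, by rw [hnx']; exact hk⟩⟩
  have hcard : S.card = 2 * g + U.card := by
    have h2 : Disjoint (Finset.range (2 * g)) (U.image (fun k => k.val)) := by
      rw [Finset.disjoint_left]
      intro p hp hp'
      obtain ⟨k, hk, rfl⟩ := Finset.mem_image.1 hp'
      have := Finset.mem_range.1 hp
      have := (hU k hk).1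
      omega
    show (Finset.range (2 * g) ∪ U.image (fun k => k.val)).card = 2 * g + U.card
    rw [Finset.card_union_of_disjoint h2, Finset.card_range,
      Finset.card_image_of_injective _ Fin.val_injective]
  rw [← hcard]
  have hA : ∀ p, p < s.val → A (nx p) s ∈ C := fun p hp =>
    hC _ _ (Fin.lt_def.2 (by rw [hnx p (by omega)]; exact hp)) hs
  have nest : ∀ k p : ℕ, k < p → p < s.val → ¬ Handle g (nx k) (nx p) →
      Commute (A (nx p) s) (A (nx k) j) := by
    intro k p hkp hps hh
    apply commute_of_conj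
    have e1 := hnx k (by omega)
    have e2 := hnx p (by omega)
    exact h.nest _ _ _ _ hs hh (Fin.lt_def.2 (by omega)) (Fin.lt_def.2 (by omega)) hsj
  refine hsk.card_le (fun p => p) (fun p => A (nx p) j) T S (fun p hp => ⟨?_, ?_⟩)
    (fun p hp k hk hkp => ?_) (fun p hp hc => ?_) (fun p _ k _ he => he)
  · have h2 := (hSlt p hp).1
    have h3 := hnx p (by omega)
    have h4 := Fin.lt_def.1 hsj
    exact hC _ _ (Fin.lt_def.2 (by omega)) (by omega)
  · have h2 := (hSlt p hp).1
    show (if p < 2 * g then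
      (if p % 2 = 0 then A (nx (p + 1)) s else (A (nx p) s)⁻¹ * A (nx (p - 1)) s * A (nx p) s)
      else A (nx p) s) ∈ C
    split_ifs with h3 h4
    · exact hA _ (by omega)
    · exact hconj _ (hA _ (by omega)) _
    · exact hA _ h2
  · obtain ⟨h2, h2'⟩ := hSlt p hp
    have hkp' : k < p := hkp
    show Commute (if p < 2 * g then
      (if p % 2 = 0 then A (nx (p + 1)) s else (A (nx p) s)⁻¹ * A (nx (p - 1)) s * A (nx p) s)
      else A (nx p) s) (A (nx k) j)
    split_ifs with h3 h4
    · apply nest k (p + 1) (by omega) (by omega)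
      rintro ⟨t, -, e1, e2⟩
      rw [hnx _ (by omega)] at e1 e2
      omega
    · by_cases h5 : k = p - 1
      · have hh : Handle g (nx (p - 1)) (nx p) := by
          refine ⟨p / 2, by omega, ?_, ?_⟩
          · rw [hnx _ (by omega)]; omega
          · rw [hnx _ (by omega)]; omega
        rw [h5]
        exact (h.handle_calc hs hh hsj).2.1
      · have a1 : Commute (A (nx p) s) (A (nx k) j) := by
          apply nest k p (by omega) (by omega)
          rintro ⟨t, -, e1, e2⟩
          rw [hnx _ (by omega)] at e1 e2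
          omega
        have a2 : Commute (A (nx (p - 1)) s) (A (nx k) j) := by
          apply nest k (p - 1) (by omega) (by omega)
          rintro ⟨t, -, e1, e2⟩
          rw [hnx _ (by omega)] at e1 e2
          omega
        exact (a1.inv_left.mul_left a2).mul_left a1
    · apply nest k p (by omega) (by omega)
      intro hh
      have := hh.lt.2
      rw [hnx _ (by omega)] at this
      omega
  · obtain ⟨h2, h2'⟩ := hSlt p hp
    revert hc
    show ¬ Commute (if p < 2 * g then
      (if p % 2 = 0 then A (nx (p + 1)) s else (A (nx p) s)⁻¹ * A (nx (p - 1)) s * A (nx p) s)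
      else A (nx p) s) (A (nx p) j)
    intro hc
    split_ifs at hc with h3 h4
    · have hh : Handle g (nx p) (nx (p + 1)) := by
        refine ⟨p / 2, by omega, ?_, ?_⟩
        · rw [hnx _ (by omega)]; omega
        · rw [hnx _ (by omega)]; omega
      exact h1 ((h.handle_calc hs hh hsj).1 hc)
    · have hh : Handle g (nx (p - 1)) (nx p) := by
        refine ⟨p / 2, by omega, ?_, ?_⟩
        · rw [hnx _ (by omega)]; omega
        · rw [hnx _ (by omega)]; omega
      exact h1 ((h.handle_calc hs hh hsj).2.2 hc)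
    · rcases h2' with h2' | ⟨-, h2'⟩
      · exact h3 h2'
      · exact (hU _ h2').2.2 hc

end

end Pool.Agent.BraidRep
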