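import Pool.Agent.Lib.GeoOrig.CurveBraid

/-!
# Configurations of points on a curve, all punctures included

Bellingeri's relations with the relation (TR): the fundamental group of the space of configurations
of points on a closed surface of genus `g` minus `m - 2 g` points.
-/

namespace Pool.Agent.BraidRep

variable {g m n : ℕ} {G : Type*} [Group G] {A : Fin n → Fin n → G}

/-- The factors of Bellingeri's relation (TR) for the moving point `v`: a commutator
`a b⁻¹ a⁻¹ b` of the two loops `a = A (2 t) v`, `b = A (2 t + 1) v` for every handle `t < g`,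
and the generators attached to `v` and the other points. -/
def turn (g : ℕ) (A : Fin n → Fin n → G) (v i : Fin n) : G :=
  if i.val < 2 * g then
    if h : i.val % 2 = 0 ∧ i.val + 1 < n then
      A i v * (A ⟨i.val + 1, h.2⟩ v)⁻¹ * (A i v)⁻¹ * A ⟨i.val + 1, h.2⟩ v
    else 1
  else if i = v then 1 else sy A i v

/-- Bellingeri's relations including (TR): the loop of a moving point around everything else is
trivial. The indices `i` with `2 g ≤ i < m` stand for all the punctures. -/
structure ClosedBraid (g m : ℕ) {n : ℕ} {G : Type*} [Group G] (A : Fin n → Fin n → G) :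
    Prop extends CurveBraid g m A where
  tr : ∀ v : Fin n, m ≤ v.val → ((List.finRange n).map (turn g A v)).prod = 1

/-- A homomorphism preserves the relations. -/
theorem ClosedBraid.map {H : Type*} [Group H] (h : ClosedBraid g m A) (f : G →* H) :
    ClosedBraid g m (fun i j => f (A i j)) := by
  refine ⟨h.toCurveBraid.map f, fun v hv => ?_⟩
  have h1 := congrArg f (h.tr v hv)
  rw [map_one, map_list_prod, List.map_map] at h1
  rw [← h1]
  congr 1
  apply List.map_congr_left
  intro i _
  show turn g (fun i j => f (A i j)) v i = f (turn g A v i)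
  unfold turn sy
  split_ifs <;> simp

/-- If an ordered product is trivial then each factor is generated by the others. -/
theorem mem_of_prod {ι : Type*} [DecidableEq ι] (H : Subgroup G) (f : ι → G) (l : List ι)
    (hl : l.Nodup) (hp : (l.map f).prod ∈ H) {i : ι} (hi : i ∈ l)
    (h : ∀ k ∈ l, k ≠ i → f k ∈ H) : f i ∈ H := by
  obtain ⟨s, t, rfl⟩ := List.append_of_mem hi
  rw [List.map_append, List.map_cons, List.prod_append, List.prod_cons] at hp
  have hnd := List.nodup_middle.1 hl
  have hst : i ∉ s ++ t := (List.nodup_cons.1 hnd).1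
  have h1 : (s.map f).prod ∈ H := by
    apply list_prod_mem
    intro x hx
    obtain ⟨k, hk, rfl⟩ := List.mem_map.1 hx
    refine h k (List.mem_append_left _ hk) ?_
    rintro rfl
    exact hst (List.mem_append_left _ hk)
  have h2 : (t.map f).prod ∈ H := by
    apply list_prod_mem
    intro x hx
    obtain ⟨k, hk, rfl⟩ := List.mem_map.1 hx
    refine h k (List.mem_append_right _ (List.mem_cons_of_mem _ hk)) ?_
    rintro rfl
    exact hst (List.mem_append_right _ hk)
  have h3 : f i = (s.map f).prod⁻¹ * ((s.map f).prod * (f i * (t.map f).prod)) *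
      (t.map f).prod⁻¹ := by group
  rw [h3]
  exact H.mul_mem (H.mul_mem (H.inv_mem h1) hp) (H.inv_mem h2)

/-- The generator attached to `v` and `i` is generated by the others attached to `v`. -/
theorem ClosedBraid.mem_closure (h : ClosedBraid g m A) {i v : Fin n} (hi : 2 * g ≤ i.val)
    (hv : m ≤ v.val) (hiv : i ≠ v) :
    sy A i v ∈ Subgroup.closure {y | ∃ k, k ≠ v ∧ k ≠ i ∧ y = sy A k v} := by
  classical
  have hle := h.le
  have hgen : ∀ k, k ≠ v → k ≠ i →
      sy A k v ∈ Subgroup.closure {y | ∃ k, k ≠ v ∧ k ≠ i ∧ y = sy A k v} :=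
    fun k h1 h2 => Subgroup.subset_closure ⟨k, h1, h2, rfl⟩
  have h1 : turn g A v i = sy A i v := by
    unfold turn
    rw [if_neg (by omega), if_neg hiv]
  rw [← h1]
  refine mem_of_prod _ (turn g A v) (List.finRange n) (List.nodup_finRange n) ?_
    (List.mem_finRange i) fun k _ hki => ?_
  · rw [h.tr v hv]
    exact Subgroup.one_mem _
  · unfold turn
    by_cases hk : k.val < 2 * g
    · rw [if_pos hk]
      split_ifs with h2
      · have e1 : A k v = sy A k v := (sy_of_lt (Fin.lt_def.2 (by omega))).symm
        have e2 : A ⟨k.val + 1, h2.2⟩ v = sy A ⟨k.val + 1, h2.2⟩ v :=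
          (sy_of_lt (Fin.lt_def.2 (show k.val + 1 < v.val by omega))).symm
        have m1 := hgen k (by rintro rfl; omega) hki
        have m2 := hgen ⟨k.val + 1, h2.2⟩
          (fun h3 => by have := congrArg Fin.val h3; simp only at this; omega)
          (fun h3 => by have := congrArg Fin.val h3; simp only at this; omega)
        rw [e1, e2]
        exact Subgroup.mul_mem _ (Subgroup.mul_mem _ (Subgroup.mul_mem _ m1
          (Subgroup.inv_mem _ m2)) (Subgroup.inv_mem _ m1)) m2
      · exact Subgroup.one_mem _
    · rw [if_neg hk]
      split_ifs with h2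
      · exact Subgroup.one_mem _
      · exact hgen k h2 hki

end Pool.Agent.BraidRep
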