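import Pool.Agent.Lib.GeoOrig.CurvePartner

/-!
# Two moving points on a curve of genus one minus a point

The relations between the loops `a`, `b`, `e` of the first moving point (around the handle and the
puncture), the loops `x`, `y`, `d` of the second one, and the loop `c` attached to both.
-/

namespace Pool.Agent.BraidRep

/-- The relations between the generators of the fundamental group of the space of configurations
of two points on a curve of genus one minus a point. -/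
structure Ell {G : Type*} [Group G] (a b x y e d c : G) : Prop where
  bx : b * x * b⁻¹ = x * c
  yb : b * y * b⁻¹ = c⁻¹ * y * c
  bc : b * c * b⁻¹ = c⁻¹ * y⁻¹ * c * y * c
  ax : a * x * a⁻¹ = c⁻¹ * x * c
  ac : a * c * a⁻¹ = c⁻¹ * x⁻¹ * c * x * c
  ay : a * y * a⁻¹ = c⁻¹ * y * x⁻¹ * c⁻¹ * x * c
  te : b⁻¹ * a * b * a⁻¹ = e * c
  td : y⁻¹ * x * y * x⁻¹ = d * c
  ex : Commute e x
  ey : Commute e y
  da : Commute a (c⁻¹ * d * c)
  db : Commute b (c⁻¹ * d * c)
  ed : e * d * e⁻¹ = c⁻¹ * d * c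
  edc : Commute e (d * c)
  ced : Commute c (e * d)

section

variable {G : Type*} [Group G] {a b x y e d c : G}

/-- The twist which fixes `b` and `y`. -/
theorem Ell.tw (h : Ell a b x y e d c) : Ell (a * b) b (x * y) y e d c := by
  refine ⟨?_, h.yb, h.bc, ?_, ?_, ?_, ?_, ?_, h.ex.mul_right h.ey, h.ey, h.da.mul_left h.db,
    h.db, h.ed, h.edc, h.ced⟩
  · calc b * (x * y) * b⁻¹ = (b * x * b⁻¹) * (b * y * b⁻¹) := by group
      _ = _ := by rw [h.bx, h.yb]; group
  · calc a * b * (x * y) * (a * b)⁻¹ = a * ((b * x * b⁻¹) * (b * y * b⁻¹)) * a⁻¹ := by group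
      _ = (a * x * a⁻¹) * (a * y * a⁻¹) * (a * c * a⁻¹) := by rw [h.bx, h.yb]; group
      _ = _ := by rw [h.ax, h.ay, h.ac]; group
  · calc a * b * c * (a * b)⁻¹ = a * (b * c * b⁻¹) * a⁻¹ := by group
      _ = (a * c * a⁻¹)⁻¹ * (a * y * a⁻¹)⁻¹ * (a * c * a⁻¹) * (a * y * a⁻¹) *
          (a * c * a⁻¹) := by rw [h.bc]; group
      _ = _ := by rw [h.ay, h.ac]; group
  · calc a * b * y * (a * b)⁻¹ = a * (b * y * b⁻¹) * a⁻¹ := by group
      _ = (a * c * a⁻¹)⁻¹ * (a * y * a⁻¹) * (a * c * a⁻¹) := by rw [h.yb]; group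
      _ = _ := by rw [h.ay, h.ac]; group
  · rw [← h.te]; group
  · rw [← h.td]; group

/-- The inverse of the twist which fixes `b` and `y`. -/
theorem Ell.twi (h : Ell a b x y e d c) : Ell (a * b⁻¹) b (x * y⁻¹) y e d c := by
  have b1 : b⁻¹ * c * b = y * c * y⁻¹ := by
    have e1 : b * (y * c * y⁻¹) * b⁻¹ = c := by
      calc b * (y * c * y⁻¹) * b⁻¹ = (b * y * b⁻¹) * (b * c * b⁻¹) * (b * y * b⁻¹)⁻¹ := by group
        _ = c := by rw [h.yb, h.bc]; group
    calc b⁻¹ * c * b = b⁻¹ * (b * (y * c * y⁻¹) * b⁻¹) * b := by rw [e1]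
      _ = _ := by group
  have b2 : b⁻¹ * y * b = y * c * y * c⁻¹ * y⁻¹ := by
    have e1 : b * (y * c * y * c⁻¹ * y⁻¹) * b⁻¹ = y := by
      calc b * (y * c * y * c⁻¹ * y⁻¹) * b⁻¹ = (b * y * b⁻¹) * (b * c * b⁻¹) * (b * y * b⁻¹) *
          (b * c * b⁻¹)⁻¹ * (b * y * b⁻¹)⁻¹ := by group
        _ = y := by rw [h.yb, h.bc]; group
    calc b⁻¹ * y * b = b⁻¹ * (b * (y * c * y * c⁻¹ * y⁻¹) * b⁻¹) * b := by rw [e1]
      _ = _ := by group
  have b3 : b⁻¹ * x * b = x * y * c⁻¹ * y⁻¹ := by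
    have e1 : b * (x * y * c⁻¹ * y⁻¹) * b⁻¹ = x := by
      calc b * (x * y * c⁻¹ * y⁻¹) * b⁻¹ = (b * x * b⁻¹) * (b * y * b⁻¹) * (b * c * b⁻¹)⁻¹ *
          (b * y * b⁻¹)⁻¹ := by group
        _ = x := by rw [h.bx, h.yb, h.bc]; group
    calc b⁻¹ * x * b = b⁻¹ * (b * (x * y * c⁻¹ * y⁻¹) * b⁻¹) * b := by rw [e1]
      _ = _ := by group
  refine ⟨?_, h.yb, h.bc, ?_, ?_, ?_, ?_, ?_, h.ex.mul_right h.ey.inv_right, h.ey,
    h.da.mul_left h.db.inv_left, h.db, h.ed, h.edc, h.ced⟩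
  · calc b * (x * y⁻¹) * b⁻¹ = (b * x * b⁻¹) * (b * y * b⁻¹)⁻¹ := by group
      _ = _ := by rw [h.bx, h.yb]; group
  · calc a * b⁻¹ * (x * y⁻¹) * (a * b⁻¹)⁻¹ =
        a * ((b⁻¹ * x * b) * (b⁻¹ * y * b)⁻¹) * a⁻¹ := by group
      _ = (a * x * a⁻¹) * (a * c * a⁻¹)⁻¹ * (a * y * a⁻¹)⁻¹ := by
            rw [b3, b2]; group
      _ = _ := by rw [h.ax, h.ay, h.ac]; group
  · calc a * b⁻¹ * c * (a * b⁻¹)⁻¹ = a * (b⁻¹ * c * b) * a⁻¹ := by group
      _ = (a * y * a⁻¹) * (a * c * a⁻¹) * (a * y * a⁻¹)⁻¹ := by rw [b1]; group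
      _ = _ := by rw [h.ay, h.ac]; group
  · calc a * b⁻¹ * y * (a * b⁻¹)⁻¹ = a * (b⁻¹ * y * b) * a⁻¹ := by group
      _ = (a * y * a⁻¹) * (a * c * a⁻¹) * (a * y * a⁻¹) * (a * c * a⁻¹)⁻¹ *
          (a * y * a⁻¹)⁻¹ := by rw [b2]; group
      _ = _ := by rw [h.ay, h.ac]; group
  · rw [← h.te]; group
  · rw [← h.td]; group

/-- The twist which fixes `a` and `x`. -/
theorem Ell.tw' (h : Ell a b x y e d c) : Ell a (a * b) x (x * y) e d c := by
  have h1 := h.tw
  refine ⟨?_, h1.ax, h1.ac, h.ax, h.ac, ?_, ?_, ?_, h.ex, h.ex.mul_right h.ey, h.da,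
    h.da.mul_left h.db, h.ed, h.edc, h.ced⟩
  · calc a * b * x * (a * b)⁻¹ = a * (b * x * b⁻¹) * a⁻¹ := by group
      _ = (a * x * a⁻¹) * (a * c * a⁻¹) := by rw [h.bx]; group
      _ = _ := by rw [h.ax, h.ac]; group
  · calc a * (x * y) * a⁻¹ = (a * x * a⁻¹) * (a * y * a⁻¹) := by group
      _ = _ := by rw [h.ax, h.ay]; group
  · rw [← h.te]; group
  · rw [← h.td]; group

/-- The loops around the handle in a position in which `b⁻¹` is conjugate to the first one. -/
theorem Ell.rot (h : Ell a b x y e d c) :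
    Ell (a * b⁻¹ * a⁻¹) (a * b) (x * y⁻¹ * x⁻¹) (x * y) e d c := by
  have h1 := h.tw'.twi
  have e1 : a * (a * b)⁻¹ = a * b⁻¹ * a⁻¹ := by group
  have e2 : x * (x * y)⁻¹ = x * y⁻¹ * x⁻¹ := by group
  rwa [e1, e2] at h1

/-- `a` commutes with `x d c`. -/
theorem Ell.a_X (h : Ell a b x y e d c) : Commute a (x * d * c) := by
  have h1 : a * (x * d * c) * a⁻¹ = x * d * c := by
    calc a * (x * d * c) * a⁻¹ = (a * x * a⁻¹) * (a * c * a⁻¹) *
        (a * (c⁻¹ * d * c) * a⁻¹) := by group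
      _ = (a * x * a⁻¹) * (a * c * a⁻¹) * (c⁻¹ * d * c) := by rw [h.da.eq]; group
      _ = _ := by rw [h.ax, h.ac]; group
  show a * (x * d * c) = x * d * c * a
  calc a * (x * d * c) = a * (x * d * c) * a⁻¹ * a := by group
    _ = _ := by rw [h1]

theorem Ell.b_Y (h : Ell a b x y e d c) : Commute b (y * d * c) := by
  have h1 : b * (y * d * c) * b⁻¹ = y * d * c := by
    calc b * (y * d * c) * b⁻¹ = (b * y * b⁻¹) * (b * c * b⁻¹) *
        (b * (c⁻¹ * d * c) * b⁻¹) := by group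
      _ = (b * y * b⁻¹) * (b * c * b⁻¹) * (c⁻¹ * d * c) := by rw [h.db.eq]; group
      _ = _ := by rw [h.yb, h.bc]; group
  show b * (y * d * c) = y * d * c * b
  calc b * (y * d * c) = b * (y * d * c) * b⁻¹ * b := by group
    _ = _ := by rw [h1]

theorem Ell.e_X (h : Ell a b x y e d c) : Commute e (x * d * c) := by
  rw [mul_assoc]
  exact h.ex.mul_right h.edc

theorem Ell.e_Y (h : Ell a b x y e d c) : Commute e (y * d * c) := by
  rw [mul_assoc]
  exact h.ey.mul_right h.edc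

/-- The loops of the third point: `(a e) (x d c)` and `(b e) (y d c)`. -/
theorem Ell.al (h : Ell a b x y e d c) : (a * e) * (x * d * c) = a * x * (e * d * c) := by
  calc (a * e) * (x * d * c) = a * (e * x) * d * c := by group
    _ = a * (x * e) * d * c := by rw [h.ex.eq]
    _ = _ := by group

theorem Ell.c_al (h : Ell a b x y e d c) : Commute c ((a * e) * (x * d * c)) := by
  rw [h.al]
  have h1 : a * (x * c) * a⁻¹ = x * c := by
    calc a * (x * c) * a⁻¹ = (a * x * a⁻¹) * (a * c * a⁻¹) := by group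
      _ = _ := by rw [h.ax, h.ac]; group
  have h2 : Commute c (a * x) := by
    show c * (a * x) = a * x * c
    calc c * (a * x) = c * (a * x * a⁻¹) * a := by group
      _ = x * c * a := by rw [h.ax]; group
      _ = a * (x * c) * a⁻¹ * a := by rw [h1]
      _ = _ := by group
  have h3 : Commute c (e * d * c) := h.ced.mul_right (Commute.refl c)
  exact h2.mul_right h3

theorem Ell.c_be (h : Ell a b x y e d c) : Commute c ((b * e) * (y * d * c)) := by
  have h0 : (b * e) * (y * d * c) = b * y * (e * d * c) := by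
    calc (b * e) * (y * d * c) = b * (e * y) * d * c := by group
      _ = b * (y * e) * d * c := by rw [h.ey.eq]
      _ = _ := by group
  rw [h0]
  have h1 : b * (y * c) * b⁻¹ = y * c := by
    calc b * (y * c) * b⁻¹ = (b * y * b⁻¹) * (b * c * b⁻¹) := by group
      _ = _ := by rw [h.yb, h.bc]; group
  have h2 : Commute c (b * y) := by
    show c * (b * y) = b * y * c
    calc c * (b * y) = c * (b * y * b⁻¹) * b := by group
      _ = y * c * b := by rw [h.yb]; group
      _ = b * (y * c) * b⁻¹ * b := by rw [h1]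
      _ = _ := by group
  have h3 : Commute c (e * d * c) := h.ced.mul_right (Commute.refl c)
  exact h2.mul_right h3

theorem Ell.a_xc (h : Ell a b x y e d c) : Commute a (x * c) := by
  have h1 : a * (x * c) * a⁻¹ = x * c := by
    calc a * (x * c) * a⁻¹ = (a * x * a⁻¹) * (a * c * a⁻¹) := by group
      _ = _ := by rw [h.ax, h.ac]; group
  show a * (x * c) = x * c * a
  calc a * (x * c) = a * (x * c) * a⁻¹ * a := by group
    _ = _ := by rw [h1]

theorem Ell.b_yc (h : Ell a b x y e d c) : Commute b (y * c) := by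
  have h1 : b * (y * c) * b⁻¹ = y * c := by
    calc b * (y * c) * b⁻¹ = (b * y * b⁻¹) * (b * c * b⁻¹) := by group
      _ = _ := by rw [h.yb, h.bc]; group
  show b * (y * c) = y * c * b
  calc b * (y * c) = b * (y * c) * b⁻¹ * b := by group
    _ = _ := by rw [h1]

/-- `Y = y d c` is `x y x⁻¹`. -/
theorem Ell.Y_eq (h : Ell a b x y e d c) : y * d * c = x * y * x⁻¹ := by
  calc y * d * c = y * (d * c) := by group
    _ = _ := by rw [← h.td]; group

/-- `X = x d c` is a conjugate of `x`. -/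
theorem Ell.X_eq (h : Ell a b x y e d c) :
    x * d * c = (x * y⁻¹) * x * (x * y⁻¹)⁻¹ := by
  calc x * d * c = x * (d * c) := by group
    _ = _ := by rw [← h.td]; group

/-- The conjugate of `a` under `Y`. -/
theorem Ell.Y_a (h : Ell a b x y e d c) : (y * d * c) * a * (y * d * c)⁻¹ = c * a := by
  have h1 : a * (y * d * c) * a⁻¹ = c⁻¹ * (y * d * c) := by
    calc a * (y * d * c) * a⁻¹ = (a * y * a⁻¹) * (a * c * a⁻¹) *
        (a * (c⁻¹ * d * c) * a⁻¹) := by group
      _ = (a * y * a⁻¹) * (a * c * a⁻¹) * (c⁻¹ * d * c) := by rw [h.da.eq]; group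
      _ = _ := by rw [h.ay, h.ac]; group
  have h2 : y * d * c = c * (a * (y * d * c) * a⁻¹) := by rw [h1]; group
  calc (y * d * c) * a * (y * d * c)⁻¹ = c * (a * (y * d * c) * a⁻¹) * a * (y * d * c)⁻¹ := by
        rw [← h2]
    _ = c * a := by group

/-- The conjugate of `a` under `β = (b e) (y d c)`. -/
theorem Ell.be_a (h : Ell a b x y e d c) :
    ((b * e) * (y * d * c)) * (a * e) * ((b * e) * (y * d * c))⁻¹ = a := by
  have h1 : (y * d * c) * (a * e) * (y * d * c)⁻¹ = c * a * e := by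
    calc (y * d * c) * (a * e) * (y * d * c)⁻¹ = ((y * d * c) * a * (y * d * c)⁻¹) *
        ((y * d * c) * e * (y * d * c)⁻¹) := by group
      _ = (c * a) * (e * (y * d * c) * (y * d * c)⁻¹) := by rw [h.Y_a, h.e_Y.eq]
      _ = _ := by group
  calc ((b * e) * (y * d * c)) * (a * e) * ((b * e) * (y * d * c))⁻¹ =
      (b * e) * ((y * d * c) * (a * e) * (y * d * c)⁻¹) * (b * e)⁻¹ := by group
    _ = b * (e * c) * a * e * (b * e)⁻¹ := by rw [h1]; group
    _ = a := by rw [← h.te]; group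

theorem Ell.be_comm (h : Ell a b x y e d c) : Commute (b * e) (y * d * c) :=
  h.b_Y.mul_left h.e_Y

theorem Ell.al_comm (h : Ell a b x y e d c) : Commute (a * e) (x * d * c) :=
  h.a_X.mul_left h.e_X

/-- The conjugate of `x d` under `Y₃ = b e`. -/
theorem Ell.Y3_xd (h : Ell a b x y e d c) :
    (b * e) * (x * d) * (b * e)⁻¹ = x * d * c := by
  calc (b * e) * (x * d) * (b * e)⁻¹ = b * ((e * x) * d * e⁻¹) * b⁻¹ := by group
    _ = b * ((x * e) * d * e⁻¹) * b⁻¹ := by rw [h.ex.eq]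
    _ = b * x * (e * d * e⁻¹) * b⁻¹ := by group
    _ = (b * x * b⁻¹) * (b * (c⁻¹ * d * c) * b⁻¹) := by rw [h.ed]; group
    _ = (b * x * b⁻¹) * (c⁻¹ * d * c) := by rw [h.db.eq]; group
    _ = _ := by rw [h.bx]; group

theorem Ell.Y4_X4 (h : Ell a b x y e d c) :
    (y * d * c) * (x * d * c) * (y * d * c)⁻¹ = x := by
  rw [h.X_eq, h.Y_eq]
  group

/-- The conjugate of `x d` under `β`. -/
theorem Ell.be_x (h : Ell a b x y e d c) :
    ((b * e) * (y * d * c)) * (x * d) * ((b * e) * (y * d * c))⁻¹ = x := by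
  rw [h.be_comm.eq]
  calc (y * d * c) * (b * e) * (x * d) * ((y * d * c) * (b * e))⁻¹ =
      (y * d * c) * ((b * e) * (x * d) * (b * e)⁻¹) * (y * d * c)⁻¹ := by group
    _ = x := by rw [h.Y3_xd, h.Y4_X4]

/-- The conjugate of `α` under `Y₃`. -/
theorem Ell.Y3_al (h : Ell a b x y e d c) :
    (b * e) * ((a * e) * (x * d * c)) * (b * e)⁻¹ = ((a * e) * (x * d * c)) * e⁻¹ := by
  have h1 : (b * e) * (x * d * c) * (b * e)⁻¹ = (x * d * c) * ((b * e) * c * (b * e)⁻¹) := by
    calc (b * e) * (x * d * c) * (b * e)⁻¹ = ((b * e) * (x * d) * (b * e)⁻¹) *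
        ((b * e) * c * (b * e)⁻¹) := by group
      _ = _ := by rw [h.Y3_xd]
  have h2 : (b * e) * (c * (a * e)) * (b * e)⁻¹ = (a * e) * e⁻¹ := by
    calc (b * e) * (c * (a * e)) * (b * e)⁻¹ = b * (e * c) * a * e * (b * e)⁻¹ := by group
      _ = _ := by rw [← h.te]; group
  rw [h.al_comm.eq]
  calc (b * e) * ((x * d * c) * (a * e)) * (b * e)⁻¹ =
      ((b * e) * (x * d * c) * (b * e)⁻¹) * ((b * e) * c * (b * e)⁻¹)⁻¹ *
        ((b * e) * (c * (a * e)) * (b * e)⁻¹) := by group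
    _ = _ := by rw [h1, h2]; group

/-- The conjugate of `α` under `Y₄`. -/
theorem Ell.Y4_al (h : Ell a b x y e d c) :
    (y * d * c) * ((a * e) * (x * d * c)) * (y * d * c)⁻¹ =
      ((a * e) * (x * d * c)) * d⁻¹ := by
  have h1 : (y * d * c) * (a * e) * (y * d * c)⁻¹ = c * a * e := by
    calc (y * d * c) * (a * e) * (y * d * c)⁻¹ = ((y * d * c) * a * (y * d * c)⁻¹) *
        ((y * d * c) * e * (y * d * c)⁻¹) := by group
      _ = (c * a) * (e * (y * d * c) * (y * d * c)⁻¹) := by rw [h.Y_a, h.e_Y.eq]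
      _ = _ := by group
  have h3 : Commute c (a * x) := by
    have h4 := h.c_al
    rw [h.al] at h4
    have h5 : Commute c (e * d * c) := h.ced.mul_right (Commute.refl c)
    have h6 : a * x = a * x * (e * d * c) * (e * d * c)⁻¹ := by group
    rw [h6]
    exact h4.mul_right h5.inv_right
  calc (y * d * c) * ((a * e) * (x * d * c)) * (y * d * c)⁻¹ =
      ((y * d * c) * (a * e) * (y * d * c)⁻¹) * ((y * d * c) * (x * d * c) *
        (y * d * c)⁻¹) := by group
    _ = c * a * (e * x) := by rw [h1, h.Y4_X4]; group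
    _ = (c * (a * x)) * e := by rw [h.ex.eq]; group
    _ = a * x * (c * (e * d)) * d⁻¹ := by rw [h3.eq]; group
    _ = a * x * (e * d * c) * d⁻¹ := by rw [h.ced.eq]
    _ = _ := by rw [← h.al]

/-- The product `β α`. -/
theorem Ell.be_al (h : Ell a b x y e d c) :
    ((b * e) * (y * d * c)) * ((a * e) * (x * d * c)) =
      (a * b * e) * (x * y * d * c) := by
  have h1 : (y * d * c) * (a * e) * (y * d * c)⁻¹ = c * a * e := by
    calc (y * d * c) * (a * e) * (y * d * c)⁻¹ = ((y * d * c) * a * (y * d * c)⁻¹) *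
        ((y * d * c) * e * (y * d * c)⁻¹) := by group
      _ = (c * a) * (e * (y * d * c) * (y * d * c)⁻¹) := by rw [h.Y_a, h.e_Y.eq]
      _ = _ := by group
  calc ((b * e) * (y * d * c)) * ((a * e) * (x * d * c)) =
      (b * e) * ((y * d * c) * (a * e) * (y * d * c)⁻¹) * ((y * d * c) * (x * d * c) *
        (y * d * c)⁻¹) * (y * d * c) := by group
    _ = b * (e * c) * a * (e * x) * (y * d * c) := by rw [h1, h.Y4_X4]; group
    _ = a * b * (e * x) * (y * d * c) := by rw [← h.te]; group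
    _ = _ := by group

/-- The commutator of `α` and `β`. -/
theorem Ell.comm_al_be (h : Ell a b x y e d c) :
    ((b * e) * (y * d * c)) * ((a * e) * (x * d * c)) * ((b * e) * (y * d * c))⁻¹ =
      ((a * e) * (x * d * c)) * (e * d)⁻¹ := by
  have h1 : (b * e) * d * (b * e)⁻¹ = c⁻¹ * d * c := by
    calc (b * e) * d * (b * e)⁻¹ = b * (e * d * e⁻¹) * b⁻¹ := by group
      _ = c⁻¹ * d * c := by rw [h.ed, h.db.eq]; group
  calc ((b * e) * (y * d * c)) * ((a * e) * (x * d * c)) * ((b * e) * (y * d * c))⁻¹ =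
      (b * e) * ((y * d * c) * ((a * e) * (x * d * c)) * (y * d * c)⁻¹) * (b * e)⁻¹ := by group
    _ = ((b * e) * ((a * e) * (x * d * c)) * (b * e)⁻¹) * ((b * e) * d * (b * e)⁻¹)⁻¹ := by
        rw [h.Y4_al]; group
    _ = ((a * e) * (x * d * c)) * (c⁻¹ * d * c * e)⁻¹ := by rw [h.Y3_al, h1]; group
    _ = _ := by
      congr 2
      rw [← h.ed]; group

/-- If `α` and `β` commute then `e` and `d` commute. -/
theorem Ell.ed_of_comm (h : Ell a b x y e d c)
    (hc : Commute ((a * e) * (x * d * c)) ((b * e) * (y * d * c))) : Commute e d := by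
  have h1 := h.comm_al_be
  rw [← hc.eq, mul_inv_cancel_right] at h1
  have h2 : (e * d)⁻¹ = 1 := by
    have h3 : ((a * e) * (x * d * c)) * 1 = ((a * e) * (x * d * c)) * (e * d)⁻¹ := by
      rw [mul_one]; exact h1
    exact (mul_left_cancel h3).symm
  have h3 : d = e⁻¹ := by
    rw [inv_eq_one] at h2
    exact eq_inv_of_mul_eq_one_right h2
  rw [h3]
  exact (Commute.refl e).inv_right

end

end Pool.Agent.BraidRep
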