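import Pool.Agent.Lib.GeoOrig.EllLin
import Pool.Agent.Lib.GeoOrig.EllGroup

/-!
# Two points on a curve of genus one minus a point, in dimension three
-/

namespace Pool.Agent.BraidRep

/-- A homomorphism preserves the relations. -/
theorem Ell.map {G H : Type*} [Group G] [Group H] {a b x y e d c : G} (h : Ell a b x y e d c)
    (f : G →* H) : Ell (f a) (f b) (f x) (f y) (f e) (f d) (f c) := by
  refine ⟨?_, ?_, ?_, ?_, ?_, ?_, ?_, ?_, h.ex.map f, h.ey.map f, ?_, ?_, ?_, ?_, ?_⟩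
  · simpa using congrArg f h.bx
  · simpa using congrArg f h.yb
  · simpa using congrArg f h.bc
  · simpa using congrArg f h.ax
  · simpa using congrArg f h.ac
  · simpa using congrArg f h.ay
  · simpa using congrArg f h.te
  · simpa using congrArg f h.td
  · simpa using h.da.map f
  · simpa using h.db.map f
  · simpa using congrArg f h.ed
  · simpa using h.edc.map f
  · simpa using h.ced.map f

section

variable {K V : Type*} [Field K] [AddCommGroup V] [Module K V]
  {a b x y e d c g : (Module.End K V)ˣ}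

/-- The relations, and `e`, `d`, `c` do not commute pairwise. -/
private structure Sys (a b x y e d c : (Module.End K V)ˣ) : Prop where
  el : Ell a b x y e d c
  ec : ¬ Commute e c
  dc : ¬ Commute d c
  ed : ¬ Commute e d

private theorem Sys.tw (h : Sys a b x y e d c) : Sys (a * b) b (x * y) y e d c :=
  ⟨h.el.tw, h.ec, h.dc, h.ed⟩

private theorem Sys.tw' (h : Sys a b x y e d c) : Sys a (a * b) x (x * y) e d c :=
  ⟨h.el.tw', h.ec, h.dc, h.ed⟩

private theorem Sys.rot (h : Sys a b x y e d c) :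
    Sys (a * b⁻¹ * a⁻¹) (a * b) (x * y⁻¹ * x⁻¹) (x * y) e d c :=
  ⟨h.el.rot, h.ec, h.dc, h.ed⟩

private theorem Sys.nxy (h : Sys a b x y e d c) : ¬ Commute x y := by
  intro h1
  apply h.dc
  have h2 : d * c = 1 := by
    rw [← h.el.td]
    calc y⁻¹ * x * y * x⁻¹ = y⁻¹ * (x * y) * x⁻¹ := by group
      _ = 1 := by rw [h1.eq]; group
  rw [eq_inv_of_mul_eq_one_left h2]
  exact (Commute.refl c).inv_left

private theorem Sys.nab (h : Sys a b x y e d c) : ¬ Commute a b := by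
  intro h1
  apply h.ec
  have h2 : e * c = 1 := by
    rw [← h.el.te]
    calc b⁻¹ * a * b * a⁻¹ = b⁻¹ * (a * b) * a⁻¹ := by group
      _ = 1 := by rw [h1.eq]; group
  rw [eq_inv_of_mul_eq_one_left h2]
  exact (Commute.refl c).inv_left

private theorem Hu.of_conj (h : Hu (g * x * g⁻¹)) : Hu x := by
  have h1 := h.conj g⁻¹
  have h2 : g⁻¹ * (g * x * g⁻¹) * g⁻¹⁻¹ = x := by group
  rwa [h2] at h1

variable [FiniteDimensional K V]

/-- The form of the dichotomy with `c x` instead of `x c`. -/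
private theorem Hu.dichotomy' (h3 : Module.finrank K V = 3) (hx : Hu x) (hc : Hu c)
    (h : g * x * g⁻¹ = c * x) : TT c ∨ (JJ c ∧ Rf x) := by
  have h1 : Hu (x⁻¹ * c * x) := by
    have := hc.conj x⁻¹
    rwa [inv_inv] at this
  have h2 : x * (x⁻¹ * c * x) * x⁻¹ = c := by group
  rcases hx.dichotomy h3 h1 (g := g) (by rw [h]; group) with h4 | ⟨h4, h5⟩
  · left
    rw [← h2]
    exact h4.conj x
  · right
    rw [← h2]
    exact ⟨h4.conj x, h5⟩

variable [IsAlgClosed K]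

private theorem Sys.hu_e (h : Sys a b x y e d c) (h3 : Module.finrank K V = 3) : Hu e := by
  rcases hu_or h3 e with h1 | h1
  · exact h1
  · exact absurd (h1 _ _ h.el.ex.symm h.el.ey.symm) h.nxy

private theorem Sys.hu_d (h : Sys a b x y e d c) (h3 : Module.finrank K V = 3) : Hu d := by
  rcases hu_or h3 (c⁻¹ * d * c) with h1 | h1
  · have h2 := h1.conj c
    have h4 : c * (c⁻¹ * d * c) * c⁻¹ = d := by group
    rwa [h4] at h2
  · exact absurd (h1 _ _ h.el.da h.el.db) h.nab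

private theorem Sys.hu_c (h : Sys a b x y e d c) (h3 : Module.finrank K V = 3) : Hu c := by
  rcases hu_or h3 c with h1 | h1
  · exact h1
  · exact absurd (h.el.ed_of_comm (h1 _ _ h.el.c_al.symm h.el.c_be.symm)) h.ed

private theorem Sys.ab (h : Sys a b x y e d c) (h3 : Module.finrank K V = 3) : Hu a ∨ Hu b := by
  rcases hu_or h3 a with h1 | h1
  · exact Or.inl h1
  rcases hu_or h3 b with h2 | h2
  · exact Or.inr h2
  exfalso
  have e1 : Commute (c⁻¹ * d * c) (x * c) := h1 _ _ h.el.da.symm h.el.a_xc.symm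
  have e2 : Commute (c⁻¹ * d * c) (y * c) := h2 _ _ h.el.db.symm h.el.b_yc.symm
  -- `y x⁻¹`
  have e3 : Commute (c⁻¹ * d * c) (y * x⁻¹) := by
    have e4 := e2.mul_right e1.inv_right
    have e5 : y * c * (x * c)⁻¹ = y * x⁻¹ := by group
    rwa [e5] at e4
  have e4 : Commute d (y⁻¹ * x) := by
    have e5 := e2.inv_right.mul_right e1
    have e6 : (y * c)⁻¹ * (x * c) = c⁻¹ * (y⁻¹ * x) * c := by group
    rw [e6] at e5
    show d * (y⁻¹ * x) = y⁻¹ * x * d
    calc d * (y⁻¹ * x) = c * ((c⁻¹ * d * c) * (c⁻¹ * (y⁻¹ * x) * c)) * c⁻¹ := by group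
      _ = c * ((c⁻¹ * (y⁻¹ * x) * c) * (c⁻¹ * d * c)) * c⁻¹ := by rw [e5.eq]
      _ = _ := by group
  have e5 : d * c = (y⁻¹ * x) * (y * x⁻¹) := by rw [← h.el.td]; group
  have e6 : (d * c) * (c⁻¹ * d * c) * (d * c)⁻¹ = d := by group
  rw [e5] at e6
  have e7 : (y⁻¹ * x) * (c⁻¹ * d * c) * (y⁻¹ * x)⁻¹ = d := by
    calc (y⁻¹ * x) * (c⁻¹ * d * c) * (y⁻¹ * x)⁻¹ =
        (y⁻¹ * x) * ((c⁻¹ * d * c) * (y * x⁻¹)) * (y * x⁻¹)⁻¹ * (y⁻¹ * x)⁻¹ := by group
      _ = (y⁻¹ * x) * ((y * x⁻¹) * (c⁻¹ * d * c)) * (y * x⁻¹)⁻¹ * (y⁻¹ * x)⁻¹ := by rw [e3.eq]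
      _ = (y⁻¹ * x * (y * x⁻¹)) * (c⁻¹ * d * c) * (y⁻¹ * x * (y * x⁻¹))⁻¹ := by group
      _ = d := e6
  have e8 : c⁻¹ * d * c = d := by
    calc c⁻¹ * d * c = (y⁻¹ * x)⁻¹ * ((y⁻¹ * x) * (c⁻¹ * d * c) * (y⁻¹ * x)⁻¹) *
          (y⁻¹ * x) := by group
      _ = (y⁻¹ * x)⁻¹ * (d * (y⁻¹ * x)) := by rw [e7]; group
      _ = d := by rw [e4.eq]; group
  apply h.dc
  show d * c = c * d
  calc d * c = c * (c⁻¹ * d * c) := by group
    _ = c * d := by rw [e8]

private theorem Sys.rg_X (h : Sys a b x y e d c) (hx : Rg x) : Rg (x * d * c) := by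
  rw [h.el.X_eq]
  exact hx.conj _

private theorem Sys.hu_X (h : Sys a b x y e d c) : Hu (x * d * c) ↔ Hu x := by
  rw [h.el.X_eq]
  exact ⟨fun h1 => h1.of_conj, fun h1 => h1.conj _⟩

private theorem Sys.xy (h : Sys a b x y e d c) (h3 : Module.finrank K V = 3) : Hu x ∨ Hu y := by
  rcases hu_or h3 x with h1 | h1
  · exact Or.inl h1
  rcases hu_or h3 y with h2 | h2
  · exact Or.inr h2
  exfalso
  have e1 : Commute e a := h.rg_X h1 _ _ h.el.e_X h.el.a_X
  have e2 : Rg (y * d * c) := by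
    rw [h.el.Y_eq]
    exact h2.conj _
  have e3 : Commute e b := e2 _ _ h.el.e_Y h.el.b_Y
  have e4 : Commute e (e * c) := by
    rw [← h.el.te]
    exact ((e3.inv_right.mul_right e1).mul_right e3).mul_right e1.inv_right
  apply h.ec
  have e5 : c = e⁻¹ * (e * c) := by group
  rw [e5]
  exact (Commute.refl e).inv_right.mul_right e4

private theorem Sys.ax (h : Sys a b x y e d c) (h3 : Module.finrank K V = 3) :
    Hu ((a * e) * (x * d * c)) ∨ Hu x := by
  rcases hu_or h3 ((a * e) * (x * d * c)) with h1 | h1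
  · exact Or.inl h1
  rcases hu_or h3 x with h2 | h2
  · exact Or.inr h2
  exfalso
  have e1 : Commute (x * d * c) ((a * e) * (x * d * c)) :=
    h.el.al_comm.symm.mul_right (Commute.refl _)
  have e2 : Commute c (x * d * c) := h1 _ _ h.el.c_al e1
  exact h.ec (h.rg_X h2 _ _ h.el.e_X e2)

private theorem Sys.a_e (h : Sys a b x y e d c) (h3 : Module.finrank K V = 3) (ha : Hu a) :
    TT e ∨ (JJ e ∧ Rf a) := by
  refine ha.dichotomy h3 (h.hu_e h3) (g := ((b * e) * (y * d * c))⁻¹) ?_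
  have h1 := h.el.be_a
  calc ((b * e) * (y * d * c))⁻¹ * a * (((b * e) * (y * d * c))⁻¹)⁻¹ =
      ((b * e) * (y * d * c))⁻¹ * (((b * e) * (y * d * c)) * (a * e) *
        ((b * e) * (y * d * c))⁻¹) * ((b * e) * (y * d * c)) := by rw [h1, inv_inv]
    _ = a * e := by group

private theorem Sys.a_c (h : Sys a b x y e d c) (h3 : Module.finrank K V = 3) (ha : Hu a) :
    TT c ∨ (JJ c ∧ Rf a) :=
  ha.dichotomy' h3 (h.hu_c h3) h.el.Y_a

private theorem Sys.x_d (h : Sys a b x y e d c) (h3 : Module.finrank K V = 3) (hx : Hu x) :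
    TT d ∨ (JJ d ∧ Rf x) := by
  refine hx.dichotomy h3 (h.hu_d h3) (g := ((b * e) * (y * d * c))⁻¹) ?_
  have h1 := h.el.be_x
  calc ((b * e) * (y * d * c))⁻¹ * x * (((b * e) * (y * d * c))⁻¹)⁻¹ =
      ((b * e) * (y * d * c))⁻¹ * (((b * e) * (y * d * c)) * (x * d) *
        ((b * e) * (y * d * c))⁻¹) * ((b * e) * (y * d * c)) := by rw [h1, inv_inv]
    _ = x * d := by group

private theorem Sys.x_c (h : Sys a b x y e d c) (h3 : Module.finrank K V = 3) (hx : Hu x) :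
    TT c ∨ (JJ c ∧ Rf x) :=
  hx.dichotomy h3 (h.hu_c h3) h.el.bx

private theorem Sys.al_e (h : Sys a b x y e d c) (h3 : Module.finrank K V = 3)
    (ha : Hu ((a * e) * (x * d * c))) : TT e ∨ Rf ((a * e) * (x * d * c)) := by
  rcases ha.dichotomy h3 ((h.hu_e h3).inv h3) h.el.Y3_al with h1 | h1
  · left
    have h2 := h1.inv
    rwa [inv_inv] at h2
  · exact Or.inr h1.2

private theorem Sys.al_d (h : Sys a b x y e d c) (h3 : Module.finrank K V = 3)
    (ha : Hu ((a * e) * (x * d * c))) : TT d ∨ Rf ((a * e) * (x * d * c)) := by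
  rcases ha.dichotomy h3 ((h.hu_d h3).inv h3) h.el.Y4_al with h1 | h1
  · left
    have h2 := h1.inv
    rwa [inv_inv] at h2
  · exact Or.inr h1.2

private theorem Hu.rot (h3 : Module.finrank K V = 3) (h : Hu b) (a : (Module.End K V)ˣ) :
    Hu (a * b⁻¹ * a⁻¹) := (h.inv h3).conj a

/-- Each of `e`, `d`, `c` is a transvection or the negative of a reflection. -/
private theorem Sys.tj (h : Sys a b x y e d c) (h3 : Module.finrank K V = 3) :
    (TT e ∨ JJ e) ∧ (TT d ∨ JJ d) ∧ (TT c ∨ JJ c) := by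
  refine ⟨?_, ?_, ?_⟩
  · rcases h.ab h3 with h1 | h1
    · exact (h.a_e h3 h1).imp_right And.left
    · exact (h.rot.a_e h3 (h1.rot h3 a)).imp_right And.left
  · rcases h.xy h3 with h1 | h1
    · exact (h.x_d h3 h1).imp_right And.left
    · exact (h.rot.x_d h3 (h1.rot h3 x)).imp_right And.left
  · rcases h.ab h3 with h1 | h1
    · exact (h.a_c h3 h1).imp_right And.left
    · exact (h.rot.a_c h3 (h1.rot h3 a)).imp_right And.left

private theorem Sys.of_e (h : Sys a b x y e d c) (h3 : Module.finrank K V = 3)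
    (h2 : (2 : K) ≠ 0) (he : TT e) : JJ d ∧ JJ c :=
  he.both h3 h2 h.el.ex.symm h.el.ey.symm h.el.td (h.tj h3).2.1 (h.tj h3).2.2 h.ed h.ec h.dc

private theorem Sys.of_c (h : Sys a b x y e d c) (h3 : Module.finrank K V = 3)
    (h2 : (2 : K) ≠ 0) (hc : TT c) : JJ e ∧ JJ d := by
  refine hc.both h3 h2 (p := ((a * e) * (x * d * c))⁻¹) (q := ((b * e) * (y * d * c))⁻¹)
    h.el.c_al.symm.inv_left h.el.c_be.symm.inv_left ?_ (h.tj h3).1 (h.tj h3).2.1
    (fun h1 => h.ec h1.symm) (fun h1 => h.dc h1.symm) h.ed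
  have h1 := h.el.comm_al_be
  generalize (a * e) * (x * d * c) = al at *
  generalize (b * e) * (y * d * c) = be at *
  calc be⁻¹⁻¹ * al⁻¹ * be⁻¹ * al⁻¹⁻¹ = (be * al * be⁻¹)⁻¹ * al := by group
    _ = e * d := by rw [h1]; group

/-- If `a` is of the form scalar plus rank one then it is a multiple of a reflection. -/
private theorem Sys.rf_a (h : Sys a b x y e d c) (h3 : Module.finrank K V = 3)
    (h2 : (2 : K) ≠ 0) (ha : Hu a) : Rf a := by
  rcases h.a_e h3 ha with h1 | h1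
  · rcases h.a_c h3 ha with h4 | h4
    · exact absurd (h.of_e h3 h2 h1).2 (h4.not_jj h3 h2)
    · exact h4.2
  · exact h1.2

private theorem Sys.rf_x (h : Sys a b x y e d c) (h3 : Module.finrank K V = 3)
    (h2 : (2 : K) ≠ 0) (hx : Hu x) : Rf x := by
  rcases h.x_d h3 hx with h1 | h1
  · rcases h.x_c h3 hx with h4 | h4
    · exact absurd (h.of_c h3 h2 h4).2 (h1.not_jj h3 h2)
    · exact h4.2
  · exact h1.2

private theorem Sys.rf_al (h : Sys a b x y e d c) (h3 : Module.finrank K V = 3)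
    (h2 : (2 : K) ≠ 0) (ha : Hu ((a * e) * (x * d * c))) : Rf ((a * e) * (x * d * c)) := by
  rcases h.al_e h3 ha with h1 | h1
  · rcases h.al_d h3 ha with h4 | h4
    · exact absurd (h.of_e h3 h2 h1).1 (h4.not_jj h3 h2)
    · exact h4
  · exact h1

private theorem Sys.of_a (h : Sys a b x y e d c) (h3 : Module.finrank K V = 3)
    (h2 : (2 : K) ≠ 0) (ha : Hu a) : Hu x ∧ Hu ((a * e) * (x * d * c)) := by
  -- `a e` is conjugate to `a`
  have h1 : Rf (a * e) := by
    have h4 := (h.rf_a h3 h2 ha).conj ((b * e) * (y * d * c))⁻¹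
    have h5 := h.el.be_a
    have h6 : ((b * e) * (y * d * c))⁻¹ * a * (((b * e) * (y * d * c))⁻¹)⁻¹ = a * e := by
      calc ((b * e) * (y * d * c))⁻¹ * a * (((b * e) * (y * d * c))⁻¹)⁻¹ =
          ((b * e) * (y * d * c))⁻¹ * (((b * e) * (y * d * c)) * (a * e) *
            ((b * e) * (y * d * c))⁻¹) * ((b * e) * (y * d * c)) := by rw [h5, inv_inv]
        _ = a * e := by group
    rwa [h6] at h4
  rcases h.ax h3 with h4 | h4
  · refine ⟨?_, h4⟩
    have h5 := h.rf_al h3 h2 h4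
    rw [← h.hu_X]
    have h6 : x * d * c = (a * e)⁻¹ * ((a * e) * (x * d * c)) := by group
    rw [h6]
    refine h1.inv.hu_mul h3 h5 ?_
    exact ((Commute.refl (a * e)).mul_right h.el.al_comm).inv_left
  · refine ⟨h4, ?_⟩
    have h5 : Rf (x * d * c) := by
      rw [h.el.X_eq]
      exact (h.rf_x h3 h2 h4).conj _
    exact h1.hu_mul h3 h5 h.el.al_comm

private theorem Sys.not_ab (h : Sys a b x y e d c) (h3 : Module.finrank K V = 3)
    (h2 : (2 : K) ≠ 0) (ha : Hu a) (hb : Hu b) : False := by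
  obtain ⟨hx, hal⟩ := h.of_a h3 h2 ha
  obtain ⟨hy', hbe'⟩ := h.rot.of_a h3 h2 (hb.rot h3 a)
  have rx := h.rf_x h3 h2 hx
  have ral := h.rf_al h3 h2 hal
  have ry' := h.rot.rf_x h3 h2 hy'
  have rbe' := h.rot.rf_al h3 h2 hbe'
  have ry : Rf y := by
    have h4 := (ry'.conj x⁻¹).inv
    have h5 : (x⁻¹ * (x * y⁻¹ * x⁻¹) * x⁻¹⁻¹)⁻¹ = y := by group
    rwa [h5] at h4
  -- the loop `α'` of the rotated system is `α⁻¹ β⁻¹ α`
  have e1 := h.el.be_al
  have e2 := h.el.rot.be_al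
  have e3 : a * b⁻¹ * a⁻¹ * (a * b) = a := by group
  have e4 : x * y⁻¹ * x⁻¹ * (x * y) = x := by group
  rw [e3, e4, ← e1] at e2
  have rbe : Rf ((b * e) * (y * d * c)) := by
    have h4 := (rbe'.conj ((a * e) * (x * d * c))).inv
    generalize (a * e) * (x * d * c) = al at *
    generalize (b * e) * (y * d * c) = be at *
    generalize a * b⁻¹ * a⁻¹ * e * (x * y⁻¹ * x⁻¹ * d * c) = z at *
    have h5 : z = (be * al)⁻¹ * al := eq_inv_mul_of_mul_eq e2
    have h6 : (al * z * al⁻¹)⁻¹ = be := by rw [h5]; group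
    rwa [h6] at h4
  rcases h.tw.ax h3 with h4 | h4
  · have h5 := h.tw.rf_al h3 h2 h4
    rw [← e1] at h5
    exact h.ed (h.el.ed_of_comm (rbe.comm ral h5).symm)
  · exact h.nxy (rx.comm ry (h.tw.rf_x h3 h2 h4))

/-- There are no such elements in dimension three. -/
theorem no_ell (h3 : Module.finrank K V = 3) (h2 : (2 : K) ≠ 0) (h : Ell a b x y e d c)
    (ec : ¬ Commute e c) (dc : ¬ Commute d c) (ed : ¬ Commute e d) : False := by
  have s : Sys a b x y e d c := ⟨h, ec, dc, ed⟩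
  rcases s.ab h3 with h1 | h1
  · rcases s.tw.ab h3 with h4 | h4
    · exact s.tw'.not_ab h3 h2 h1 h4
    · exact s.not_ab h3 h2 h1 h4
  · rcases s.tw'.ab h3 with h4 | h4
    · exact s.not_ab h3 h2 h4 h1
    · exact s.tw.not_ab h3 h2 h4 h1

end

end Pool.Agent.BraidRep
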