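import Pool.Agent.Lib.GeoOrig.CurveThree
import Pool.Agent.Lib.GeoOrig.CurveClosed
import Pool.Agent.Lib.GeoOrig.EllMain

/-!
# Representations of dimension three: the bound in genus one
-/

open Matrix

namespace Pool.Agent.BraidRep

section

variable {n : ℕ} {G : Type*} [Group G]

/-- In an ordered product the factors after the last nontrivial one may be omitted. -/
theorem prod_split {l : List (Fin n)} (hl : l.Pairwise (· < ·)) {q : Fin n} (hq : q ∈ l)
    (f : Fin n → G) (h : ∀ i ∈ l, q < i → f i = 1) :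
    (l.map f).prod = ((l.filter (· < q)).map f).prod * f q := by
  obtain ⟨s, t, rfl⟩ := List.append_of_mem hq
  rw [List.pairwise_append, List.pairwise_cons] at hl
  obtain ⟨-, ⟨h1, -⟩, h2⟩ := hl
  have h3 : s.filter (· < q) = s := by
    rw [List.filter_eq_self]
    intro i hi
    simpa using h2 i hi q List.mem_cons_self
  have h4 : (q :: t).filter (· < q) = [] := by
    rw [List.filter_eq_nil_iff]
    intro i hi
    rcases List.mem_cons.1 hi with rfl | hi
    · simp
    · simpa using (h1 i hi).le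
  have h5 : (t.map f).prod = 1 := by
    apply List.prod_eq_one
    intro x hx
    obtain ⟨i, hi, rfl⟩ := List.mem_map.1 hx
    exact h i (List.mem_append_right _ (List.mem_cons_of_mem _ hi)) (h1 i hi)
  rw [List.filter_append, h3, h4, List.append_nil, List.map_append, List.prod_append,
    List.map_cons, List.prod_cons, h5, mul_one]

/-- An ordered product with three nontrivial factors. -/
private theorem prod_three (f : Fin n → G) {o p q : Fin n} (h0 : ∀ i, o ≤ i) (h1 : o < p)
    (h2 : p < q) (h : ∀ i, i ≠ o → i ≠ p → i ≠ q → f i = 1) :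
    ((List.finRange n).map f).prod = f o * f p * f q := by
  have hs : (List.finRange n).Pairwise (· < ·) := List.pairwise_lt_finRange n
  rw [prod_split hs (List.mem_finRange q) f fun i _ hi => h i ((h1.trans h2).trans hi).ne'
      (h2.trans hi).ne' hi.ne']
  rw [prod_split (hs.filter _) (q := p) (by simpa using h2) f fun i hi hi' => by
      have h3 : i < q := by simpa using hi
      exact h i (h1.trans hi').ne' hi'.ne' h3.ne]
  rw [prod_split ((hs.filter _).filter _) (q := o) (by simpa using ⟨h1, h1.trans h2⟩) f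
    fun i hi hi' => by
      have h3 : i < p ∧ i < q := by simpa using hi
      exact h i hi'.ne' h3.1.ne h3.2.ne]
  have h4 : ((((List.finRange n).filter (· < q)).filter (· < p)).filter (· < o)) = [] := by
    rw [List.filter_eq_nil_iff]
    intro i _
    simpa using h0 i
  rw [h4, List.map_nil, List.prod_nil, one_mul]

variable {m : ℕ} {A : Fin n → Fin n → G}

/-- On a curve of genus one, if the generators attached to the moving points `s < j` and to the
points other than `p < s`, `s` and `j` are central, then the remaining ones satisfy the relations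
of two points on a curve of genus one minus a point, up to central factors. -/
theorem ClosedBraid.ell (h : ClosedBraid 1 m A) {p s j : Fin n} (hp : 2 ≤ p.val)
    (hs : m ≤ s.val) (hps : p < s) (hsj : s < j) (o u : Fin n) (ho : o.val = 0)
    (hu : u.val = 1)
    (hZs : ∀ i : Fin n, 2 ≤ i.val → i ≠ p → i ≠ s → i ≠ j → sy A i s ∈ Subgroup.center G)
    (hZj : ∀ i : Fin n, 2 ≤ i.val → i ≠ p → i ≠ s → i ≠ j → sy A i j ∈ Subgroup.center G) :
    ∃ z ∈ Subgroup.center G, ∃ z' ∈ Subgroup.center G,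
      Ell (A o s) (A u s) (A o j) (A u j) (z * A p s) (z' * A p j) (A s j) := by
  have hle := h.le
  have hpv := Fin.lt_def.1 hps
  have hsv := Fin.lt_def.1 hsj
  have hj : m ≤ j.val := by omega
  have hpj := hps.trans hsj
  have hos : o < s := Fin.lt_def.2 (by omega)
  have hus : u < s := Fin.lt_def.2 (by omega)
  have hop : o < p := Fin.lt_def.2 (by omega)
  have hup : u < p := Fin.lt_def.2 (by omega)
  have hou : Handle 1 o u := ⟨0, by norm_num, by omega, by omega⟩
  have nh : ∀ i, ¬ Handle 1 i p := by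
    rintro i ⟨t, ht, -, h1⟩
    omega
  -- the products
  let q : G →* G ⧸ Subgroup.center G := QuotientGroup.mk' _
  have hq1 : ∀ a, a ∈ Subgroup.center G → q a = 1 := fun a ha =>
    (QuotientGroup.eq_one_iff a).2 ha
  have hturn : ∀ v : Fin n, m ≤ v.val → ∀ i, i.val ≠ 0 → turn 1 A v i =
      if i.val = 1 then 1 else if i = v then 1 else sy A i v := by
    intro v hv i hi
    unfold turn
    by_cases h1 : i.val = 1
    · rw [if_pos (by omega), if_pos h1, dif_neg (by omega)]
    · rw [if_neg (by omega), if_neg h1]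
  have hturn0 : ∀ v, turn 1 A v o = A o v * (A u v)⁻¹ * (A o v)⁻¹ * A u v := by
    intro v
    unfold turn
    have h1 : (⟨o.val + 1, by have := u.2; omega⟩ : Fin n) = u := Fin.ext (by simp [ho, hu])
    rw [if_pos (by omega), dif_pos ⟨by omega, by have := u.2; omega⟩, h1]
  have key : ∀ v w : Fin n, m ≤ v.val → p < w → w ≠ v → (∀ i : Fin n, 2 ≤ i.val → i ≠ p →
      i ≠ w → i ≠ v → sy A i v ∈ Subgroup.center G) → p ≠ v →
      (A o v * (A u v)⁻¹ * (A o v)⁻¹ * A u v) * sy A p v * sy A w v ∈ Subgroup.center G := by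
    intro v w hv hpw hwv hZ hpv'
    rw [← QuotientGroup.eq_one_iff]
    show q _ = 1
    have h1 := congrArg q (h.tr v hv)
    rw [map_one, map_list_prod, List.map_map] at h1
    rw [prod_three (q ∘ turn 1 A v) (fun i => Fin.le_def.2 (by omega)) hop hpw
      (fun i h2 h3 h4 => ?_)] at h1
    · rw [Function.comp_apply, Function.comp_apply, Function.comp_apply, hturn0,
        hturn v hv p (by omega), if_neg (by omega), if_neg hpv',
        hturn v hv w (by have := Fin.lt_def.1 hpw; omega),
        if_neg (by have := Fin.lt_def.1 hpw; omega), if_neg hwv] at h1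
      rw [map_mul, map_mul]
      exact h1
    · have h5 : i.val ≠ 0 := fun h5 => h2 (Fin.ext (h5.trans ho.symm))
      rw [Function.comp_apply, hturn v hv i h5]
      split_ifs with h6 h7
      · exact map_one q
      · exact map_one q
      · exact hq1 _ (hZ i (by omega) h3 h4 h7)
  have k1 := key s j hs hpj hsj.ne' (fun i c1 c2 c3 c4 => hZs i c1 c2 c4 c3) hps.ne
  have k2 := key j s hj hps hsj.ne (fun i c1 c2 c3 c4 => hZj i c1 c2 c3 c4) hpj.ne
  rw [sy_of_lt hps, sy_of_gt hsj] at k1
  rw [sy_of_lt hpj, sy_of_lt hsj] at k2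
  -- the relations
  have e1 := h.er1 o u s j hs hou hsj
  have e2 := h.er2 o u s j hs hou hsj
  have s1 := h.same u s j hs hus hsj
  have s2 := h.same o s j hs hos hsj
  have d1 := h.adj u s j hs hus hsj
  have d2 := h.adj o s j hs hos hsj
  have n1 : Commute (A p s) (A o j) := commute_of_conj (h.nest o p s j hs (nh o) hop hps hsj)
  have n2 : Commute (A p s) (A u j) := commute_of_conj (h.nest u p s j hs (nh u) hup hps hsj)
  have c1 := h.conjD hs (nh o) hop hps hsj
  have c2 := h.conjD hs (nh u) hup hps hsj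
  have p1 := h.sameD hs hps hsj
  have p2 := h.adj p s j hs hps hsj
  have p3 := h.sameD hs hos hsj
  have p4 := h.sameD hs hus hsj
  have p5 := (h.handle_rel hs hou hsj).1
  have p6 := (h.handle_rel hs hou hsj).2.1
  clear hturn hturn0 key hZs hZj
  generalize A o s = a at *
  generalize A u s = b at *
  generalize A o j = x at *
  generalize A u j = y at *
  generalize A p s = e at *
  generalize A p j = d at *
  generalize A s j = c at *
  -- central factors
  refine ⟨((a * b⁻¹ * a⁻¹ * b) * e * c)⁻¹, Subgroup.inv_mem _ k1,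
    ((x * y⁻¹ * x⁻¹ * y) * d * c)⁻¹, Subgroup.inv_mem _ k2, ?_⟩
  set z := ((a * b⁻¹ * a⁻¹ * b) * e * c)⁻¹ with hz
  set z' := ((x * y⁻¹ * x⁻¹ * y) * d * c)⁻¹ with hz'
  have cz : ∀ w, Commute z w := fun w =>
    (Subgroup.mem_center_iff.1 (Subgroup.inv_mem _ k1) w).symm
  have cz' : ∀ w, Commute z' w := fun w =>
    (Subgroup.mem_center_iff.1 (Subgroup.inv_mem _ k2) w).symm
  have bc : b * c * b⁻¹ = c⁻¹ * y⁻¹ * c * y * c := by
    have f1 : c = (b * y * b⁻¹) * (b * c * b⁻¹) * (b * y * b⁻¹)⁻¹ := by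
      calc c = b * (b⁻¹ * c * b) * b⁻¹ := by group
        _ = _ := by rw [d1]; group
    rw [p6] at f1
    calc b * c * b⁻¹ = (c⁻¹ * y * c)⁻¹ * ((c⁻¹ * y * c) * (b * c * b⁻¹) * (c⁻¹ * y * c)⁻¹) *
          (c⁻¹ * y * c) := by group
      _ = _ := by rw [← f1]; group
  have ac : a * c * a⁻¹ = c⁻¹ * x⁻¹ * c * x * c := by
    have f1 : c = (a * x * a⁻¹) * (a * c * a⁻¹) * (a * x * a⁻¹)⁻¹ := by
      calc c = a * (a⁻¹ * c * a) * a⁻¹ := by group
        _ = _ := by rw [d2]; group
    rw [p3] at f1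
    calc a * c * a⁻¹ = (c⁻¹ * x * c)⁻¹ * ((c⁻¹ * x * c) * (a * c * a⁻¹) * (c⁻¹ * x * c)⁻¹) *
          (c⁻¹ * x * c) := by group
      _ = _ := by rw [← f1]; group
  have ay : a * y * a⁻¹ = c⁻¹ * y * x⁻¹ * c⁻¹ * x * c := by
    have f1 : a⁻¹ * (c⁻¹ * y * c) * a = y * c := by
      calc a⁻¹ * (c⁻¹ * y * c) * a = (a⁻¹ * c * a)⁻¹ * (a⁻¹ * y * a) * (a⁻¹ * c * a) := by group
        _ = y * c := by rw [e2, d2]; group
    have f2 : c⁻¹ * y * c = (a * y * a⁻¹) * (a * c * a⁻¹) := by
      calc c⁻¹ * y * c = a * (a⁻¹ * (c⁻¹ * y * c) * a) * a⁻¹ := by group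
        _ = _ := by rw [f1]; group
    calc a * y * a⁻¹ = ((a * y * a⁻¹) * (a * c * a⁻¹)) * (a * c * a⁻¹)⁻¹ := by group
      _ = _ := by rw [← f2, ac]; group
  have te : b⁻¹ * a * b * a⁻¹ = z * e * c := by
    calc b⁻¹ * a * b * a⁻¹ = (b⁻¹ * a * b * a⁻¹) * z * z⁻¹ := by group
      _ = z * ((b⁻¹ * a * b * a⁻¹) * z⁻¹) := by rw [← (cz _).eq]; group
      _ = _ := by rw [hz]; group
  have td : y⁻¹ * x * y * x⁻¹ = z' * d * c := by
    calc y⁻¹ * x * y * x⁻¹ = (y⁻¹ * x * y * x⁻¹) * z' * z'⁻¹ := by group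
      _ = z' * ((y⁻¹ * x * y * x⁻¹) * z'⁻¹) := by rw [← (cz' _).eq]; group
      _ = _ := by rw [hz']; group
  have cd' : c⁻¹ * (z' * d) * c = z' * (c⁻¹ * d * c) := by
    calc c⁻¹ * (z' * d) * c = (c⁻¹ * z') * (d * c) := by group
      _ = (z' * c⁻¹) * (d * c) := by rw [(cz' c⁻¹).eq]
      _ = _ := by group
  have p2' : e * (d * c) * e⁻¹ = d * c := by
    have f1 : c = (e * d * e⁻¹) * (e * c * e⁻¹) * (e * d * e⁻¹)⁻¹ := by
      calc c = e * (e⁻¹ * c * e) * e⁻¹ := by group
        _ = _ := by rw [p2]; group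
    rw [p1] at f1
    calc e * (d * c) * e⁻¹ = (e * d * e⁻¹) * (e * c * e⁻¹) := by group
      _ = (c⁻¹ * d * c) * (e * c * e⁻¹) * (c⁻¹ * d * c)⁻¹ * (c⁻¹ * d * c) := by
          rw [p1]; group
      _ = d * c := by rw [← f1]; group
  have p2'' : Commute e (d * c) := by
    show e * (d * c) = d * c * e
    calc e * (d * c) = e * (d * c) * e⁻¹ * e := by group
      _ = _ := by rw [p2']
  have p2''' : Commute c (e * d) := by
    show c * (e * d) = e * d * c
    calc c * (e * d) = e * (e⁻¹ * c * e) * d := by group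
      _ = _ := by rw [p2]; group
  refine ⟨p5, p6, bc, p3, ac, ay, te, td, (cz _).mul_left n1, (cz _).mul_left n2, ?_, ?_, ?_,
    ?_, ?_⟩
  · rw [cd']
    exact (cz' a).symm.mul_right c1
  · rw [cd']
    exact (cz' b).symm.mul_right c2
  · rw [cd', ← p1]
    calc z * e * (z' * d) * (z * e)⁻¹ = z * (e * z') * d * e⁻¹ * z⁻¹ := by group
      _ = z * (z' * (e * d * e⁻¹)) * z⁻¹ := by rw [← (cz' e).eq]; group
      _ = (z' * (e * d * e⁻¹)) * z * z⁻¹ := by rw [(cz _).eq]
      _ = _ := by group
  · rw [mul_assoc]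
    exact (cz _).mul_left ((cz' e).symm.mul_right p2'')
  · have f1 : z * e * (z' * d) = z * (z' * (e * d)) := by
      calc z * e * (z' * d) = z * (e * z') * d := by group
        _ = z * (z' * e) * d := by rw [(cz' e).eq]
        _ = _ := by group
    rw [f1]
    exact (cz c).symm.mul_right ((cz' c).symm.mul_right p2''')

end

end Pool.Agent.BraidRep
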