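import Pool.Agent.Lib.GeoOrig.Ker

/-!
# Module PRIME: assembly of the theorem on tensor-indecomposable factors
-/

namespace Pool.Agent.GeoOrig

open Matrix Topology
open scoped Kronecker

variable {K : Type*} [NontriviallyNormedField K] {P : Type*} [Group P] [TopologicalSpace P]
  [IsTopologicalGroup P] [CompactSpace P] [TotallyDisconnectedSpace P]

/-- Internal form of the theorem on tensor-indecomposable factors. -/
theorem prime_main [IsAlgClosed K] {r : ℕ} (hr : 0 < r) (ρ : P →* GL (Fin r) K)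
    (hρ : Continuous ρ)
    (hirr : ∀ W : Submodule K (Fin r → K),
      (∀ g, ∀ w ∈ W, (ρ g : Matrix (Fin r) (Fin r) K) *ᵥ w ∈ W) → W = ⊥ ∨ W = ⊤) :
    ∃ V : Subgroup P, IsOpen (V : Set P) ∧ V.Normal ∧
      ∃ (n : ℕ) (d : Fin n → ℕ) (f : ∀ i, P → Matrix (Fin (d i)) (Fin (d i)) K),
        (∀ i, 2 ≤ d i ∧ LieIrr V (f i) ∧ TPrime V (f i)) ∧ (∏ i, d i ∣ r) ∧
        ∃ χ : P → K, χ 1 = 1 ∧ (∀ u ∈ V, ∀ v ∈ V, χ (u * v) = χ u * χ v) ∧
          (∀ u ∈ V, χ u ≠ 0) ∧ ContinuousOn χ (V : Set P) ∧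
          (∃ J : ((∀ i, Fin (d i)) → K) →ₗ[K] (Fin r → K), Function.Injective J ∧
            ∀ v ∈ V, ∀ w, (ρ v : Matrix (Fin r) (Fin r) K) *ᵥ J w =
              J (χ v • ((tens fun i => f i v) *ᵥ w))) ∧
          (∀ v ∈ V, ρ v = 1 → ∀ i, f i v = 1) ∧
          ((∃ G : Subgroup P, (∀ x y : P, x * y * x⁻¹ * y⁻¹ ∈ G) ∧ CharFin K G) →
            (∃ m : ℕ, 0 < m ∧ ∀ g, (ρ g : Matrix (Fin r) (Fin r) K).det ^ m = 1) →
            ∀ v ∈ V, χ v = 1) := by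
  classical
  obtain ⟨V₀, hV₀o, hV₀n, D, hD, σ₀, hσ₀, hdet₀, hsc₀, hspan₀, -, χ, hχ1, hχmul, hχ0, hχcont,
    ⟨J₁, hJ₁li, hact₁⟩, hχt⟩ := lie_irreducible_part hr ρ hρ hirr
  have hlie : LieIrr V₀ σ₀ := ⟨hσ₀, hdet₀, hspan₀, hsc₀⟩
  obtain ⟨W, hWV₀, hWo, hdec⟩ := decomp D V₀ hV₀o σ₀ hD hlie
  obtain ⟨V, hVW, hVo, hVn⟩ := exists_normal hWo
  have hVV₀ : V ≤ V₀ := hVW.trans hWV₀
  obtain ⟨n, d, f, hf, heqv⟩ := (hdec.mono hVW).toFin
  have hcard := heqv.card_eq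
  rw [Fintype.card_fin, Fintype.card_pi] at hcard
  simp only [Fintype.card_fin] at hcard
  obtain ⟨A, B, hAB, hBA, hform⟩ := heqv
  set L : (Fin D → K) →ₗ[K] (Fin r → K) := Fintype.linearCombination K J₁ with hL
  have hLinj : Function.Injective L :=
    linearIndependent_iff_injective_fintypeLinearCombination.1 hJ₁li
  have hLact : ∀ u ∈ V₀, ∀ w : Fin D → K,
      (ρ u : Matrix (Fin r) (Fin r) K) *ᵥ L w = L (χ u • (σ₀ u *ᵥ w)) := by
    intro u hu w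
    rw [map_smul, hL, Fintype.linearCombination_apply, Fintype.linearCombination_apply,
      Matrix.mulVec_sum]
    have h1 : ∀ t, (ρ u : Matrix (Fin r) (Fin r) K) *ᵥ (w t • J₁ t) =
        ∑ s, (w t * (χ u * σ₀ u s t)) • J₁ s := by
      intro t
      rw [Matrix.mulVec_smul, hact₁ u hu t, Finset.smul_sum]
      exact Finset.sum_congr rfl fun s _ => smul_smul _ _ _
    simp only [h1]
    rw [Finset.sum_comm, Finset.smul_sum]
    refine Finset.sum_congr rfl fun s _ => ?_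
    rw [← Finset.sum_smul, smul_smul]
    congr 1
    simp only [Matrix.mulVec, dotProduct, Finset.mul_sum]
    exact Finset.sum_congr rfl fun t _ => by ring
  set J : ((∀ i, Fin (d i)) → K) →ₗ[K] (Fin r → K) := L.comp (Matrix.mulVecLin A) with hJ
  have hJv : ∀ w, J w = L (A *ᵥ w) := fun w => rfl
  have hJinj : Function.Injective J := by
    intro a b hab
    rw [hJv, hJv] at hab
    have h1 := congrArg (fun w => B *ᵥ w) (hLinj hab)
    simpa only [Matrix.mulVec_mulVec, hBA, Matrix.one_mulVec] using h1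
  have hJact : ∀ v ∈ V, ∀ w, (ρ v : Matrix (Fin r) (Fin r) K) *ᵥ J w =
      J (χ v • ((tens fun i => f i v) *ᵥ w)) := by
    intro v hv w
    rw [hJv, hJv, hLact v (hVV₀ hv), hform v hv]
    congr 1
    rw [Matrix.mulVec_smul]
    congr 1
    rw [Matrix.mulVec_mulVec, Matrix.mulVec_mulVec, Matrix.mul_assoc, hBA, Matrix.mul_one]
  refine ⟨V, hVo, hVn, n, d, f, hf, ?_, χ, hχ1, fun u hu v hv => hχmul u (hVV₀ hu) v (hVV₀ hv),
    fun u hu => hχ0 u (hVV₀ hu), hχcont.mono hVV₀, ⟨J, hJinj, hJact⟩, fun v hv hρv i => ?_,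
    fun h1 h2 u hu => hχt h1 h2 u (hVV₀ hu)⟩
  · rw [← hcard]
    refine dim_dvd hD ρ hirr hVn (σ := fun v => χ v • σ₀ v) ?_ hJ₁li (fun v hv j => ?_)
    · rw [eq_top_iff, ← hspan₀ V hVV₀ hVo, Submodule.span_le]
      rintro _ ⟨v, hv, rfl⟩
      have h1 : σ₀ v = (χ v)⁻¹ • (χ v • σ₀ v) := by
        rw [smul_smul, inv_mul_cancel₀ (hχ0 v (hVV₀ hv)), one_smul]
      rw [h1]
      exact Submodule.smul_mem _ _ (Submodule.subset_span ⟨v, hv, rfl⟩)
    · rw [hact₁ v (hVV₀ hv) j]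
      rfl
  · have h1 : ∀ w, χ v • ((tens fun i => f i v) *ᵥ w) = w := by
      intro w
      apply hJinj
      rw [← hJact v hv w, hρv, Units.val_one, Matrix.one_mulVec]
    have hχv : χ v ≠ 0 := hχ0 v (hVV₀ hv)
    have h2 : (tens fun i => f i v) = (χ v)⁻¹ • (1 : Matrix (∀ i, Fin (d i)) (∀ i, Fin (d i)) K) := by
      refine Matrix.ext_of_mulVec_single fun q => ?_
      rw [Matrix.smul_mulVec, Matrix.one_mulVec]
      have h3 := h1 (Pi.single q 1)
      rw [eq_inv_smul_iff₀ hχv]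
      exact h3
    obtain ⟨c, hc⟩ := tens_scalar (fun i => by have := (hf i).1; omega) (inv_ne_zero hχv) h2 i
    exact (hf i).2.1.scal v hv c hc

end Pool.Agent.GeoOrig
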