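import Pool.Agent.Lib.GeoOrig.CurveType
import Pool.Agent.Lib.GeoOrig.Prime

/-!
# The action of a profinite group on a tensor-indecomposable factor

`σ` is a representation of the open normal subgroup `V` of `P`. `stab` is the group of the
elements `x` of `P` such that `σ (x w x⁻¹) = σ w` for all `w` in an open normal subgroup; the
largest normal subgroup of `P` contained in it is the kernel of the action of `P` on the germs of
all conjugates of `σ`.
-/

namespace Pool.Agent.GeoOrig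

open Matrix Topology Pool.Agent.BraidRep

section

variable {K : Type*} [NontriviallyNormedField K] {P : Type*} [Group P] [TopologicalSpace P]
  [IsTopologicalGroup P] {D : ℕ}

/-- The elements of `P` which fix the germ of `σ`. -/
def stab (V : Subgroup P) (hVo : IsOpen (V : Set P)) (hVn : V.Normal)
    (σ : P → Matrix (Fin D) (Fin D) K) : Subgroup P where
  carrier := {x | ∃ W : Subgroup P, W ≤ V ∧ IsOpen (W : Set P) ∧ W.Normal ∧
    ∀ w ∈ W, σ (x * w * x⁻¹) = σ w}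
  one_mem' := ⟨V, le_rfl, hVo, hVn, fun w _ => by rw [one_mul, inv_one, mul_one]⟩
  mul_mem' := by
    rintro a b ⟨W, h1, h2, h3, h4⟩ ⟨W', h1', h2', h3', h4'⟩
    refine ⟨W ⊓ W', inf_le_left.trans h1, ?_, Subgroup.normal_inf_normal W W', fun w hw => ?_⟩
    · rw [Subgroup.coe_inf]
      exact h2.inter h2'
    · have e1 : a * b * w * (a * b)⁻¹ = a * (b * w * b⁻¹) * a⁻¹ := by group
      rw [e1, h4 _ (h3.conj_mem w hw.1 b), h4' w hw.2]
  inv_mem' := by
    rintro a ⟨W, h1, h2, h3, h4⟩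
    refine ⟨W, h1, h2, h3, fun w hw => ?_⟩
    have e1 := h4 (a⁻¹ * w * a⁻¹⁻¹) (h3.conj_mem w hw a⁻¹)
    have e2 : a * (a⁻¹ * w * a⁻¹⁻¹) * a⁻¹ = w := by group
    rw [e2] at e1
    exact e1.symm

variable {V : Subgroup P} {hVo : IsOpen (V : Set P)} {hVn : V.Normal}
  {σ : P → Matrix (Fin D) (Fin D) K}

omit [IsTopologicalGroup P] in
private theorem LieIrr.inv (hσ : LieIrr V σ) {v : P} (hv : v ∈ V) : σ v * σ v⁻¹ = 1 := by
  rw [← hσ.rep.mul v hv _ (V.inv_mem hv), mul_inv_cancel, hσ.rep.one]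

omit [IsTopologicalGroup P] in
private theorem LieIrr.inv' (hσ : LieIrr V σ) {v : P} (hv : v ∈ V) : σ v⁻¹ * σ v = 1 := by
  rw [← hσ.rep.mul _ (V.inv_mem hv) v hv, inv_mul_cancel, hσ.rep.one]

omit [IsTopologicalGroup P] in
/-- An element of `V` which commutes, under `σ`, with a spanning set is in the kernel. -/
private theorem LieIrr.one_of_comm (hσ : LieIrr V σ) {S : Set P} (hS : ∀ s ∈ S, s ∈ V)
    (hspan : Submodule.span K (σ '' S) = ⊤) {x : P} (hx : x ∈ V)
    (h : ∀ s ∈ S, σ (x * s * x⁻¹) = σ s) : σ x = 1 := by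
  obtain ⟨c, hc⟩ := scalar_of_span hspan (M := σ x) (by
    rintro _ ⟨s, hs, rfl⟩
    have h1 := h s hs
    rw [hσ.rep.mul _ (V.mul_mem hx (hS s hs)) _ (V.inv_mem hx), hσ.rep.mul x hx s (hS s hs)] at h1
    calc σ x * σ s = σ x * σ s * (σ x⁻¹ * σ x) := by rw [hσ.inv' hx, mul_one]
      _ = (σ x * σ s * σ x⁻¹) * σ x := by simp only [mul_assoc]
      _ = σ s * σ x := by rw [h1])
  exact hσ.scal x hx c hc

theorem stab_one (hσ : LieIrr V σ) {x : P} (hx : x ∈ stab V hVo hVn σ) (hxV : x ∈ V) :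
    σ x = 1 := by
  obtain ⟨W, h1, h2, -, h4⟩ := hx
  exact hσ.one_of_comm (S := (W : Set P)) (fun s hs => h1 hs) (hσ.span W h1 h2) hxV h4

omit [IsTopologicalGroup P] in
/-- Two functions continuous on the open subgroup `V` which agree on `S ∩ V` agree on the
closure of `S`, intersected with `V`. -/
private theorem eq_on_closure (hVo : IsOpen (V : Set P)) {X : Type*} [TopologicalSpace X]
    [T2Space X] {f g : P → X} (hf : ContinuousOn f (V : Set P)) (hg : ContinuousOn g (V : Set P))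
    {S : Set P} (h : ∀ s ∈ S, s ∈ V → f s = g s) {x : P} (hx : x ∈ closure S) (hxV : x ∈ V) :
    f x = g x := by
  have h1 : x ∈ closure ((V : Set P) ∩ S) := hVo.inter_closure ⟨hxV, hx⟩
  have h2 : Set.EqOn f g ((V : Set P) ∩ S) := fun s hs => h s hs.2 hs.1
  have h3 : Set.EqOn f g ((V : Set P) ∩ closure ((V : Set P) ∩ S)) :=
    h2.of_subset_closure (hf.mono Set.inter_subset_left) (hg.mono Set.inter_subset_left)
      (fun s hs => ⟨hs.1, subset_closure hs⟩) (fun s hs => hs.2)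
  exact h3 ⟨hxV, h1⟩

/-- The kernel of the action on germs is closed in `V`. -/
theorem germ_closure (hσ : LieIrr V σ) {Q : Set P}
    (hQ : ∀ x ∈ Q, x ∈ (stab V hVo hVn σ).normalCore) {x : P}
    (hx : x ∈ (Subgroup.normalClosure Q).topologicalClosure) (hxV : x ∈ V) : σ x = 1 := by
  have h1 : Subgroup.normalClosure Q ≤ (stab V hVo hVn σ).normalCore :=
    Subgroup.normalClosure_le_normal hQ
  have hx' : x ∈ closure ((Subgroup.normalClosure Q : Subgroup P) : Set P) := by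
    rw [← Subgroup.topologicalClosure_coe]
    exact hx
  exact eq_on_closure hVo hσ.rep.cont continuousOn_const (f := σ) (g := fun _ => 1)
    (fun s hs hsV => stab_one hσ (Subgroup.normalCore_le _ (h1 hs)) hsV) hx' hxV

/-- A normal subgroup on which `σ` is trivial near `1` acts trivially on the germs. -/
theorem germ_of_trivial [CompactSpace P] [TotallyDisconnectedSpace P] (hσ : LieIrr V σ)
    {N : Subgroup P} (hN : N.Normal) {V' : Subgroup P} (hV'o : IsOpen (V' : Set P))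
    (h : ∀ x ∈ N ⊓ V', σ x = 1) : N ≤ (stab V hVo hVn σ).normalCore := by
  have : N.Normal := hN
  rw [Subgroup.normal_le_normalCore]
  intro x hx
  obtain ⟨W, h1, h2, h3⟩ := exists_normal (U := V' ⊓ V) (by
    rw [Subgroup.coe_inf]
    exact hV'o.inter hVo)
  refine ⟨W, h1.trans inf_le_right, h2, h3, fun w hw => ?_⟩
  have h4 : x * w * x⁻¹ * w⁻¹ ∈ W := W.mul_mem (h3.conj_mem w hw x) (W.inv_mem hw)
  have h5 : x * w * x⁻¹ * w⁻¹ ∈ N := by
    have e1 : x * w * x⁻¹ * w⁻¹ = x * (w * x⁻¹ * w⁻¹) := by group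
    rw [e1]
    exact N.mul_mem hx (hN.conj_mem _ (N.inv_mem hx) w)
  have e2 : x * w * x⁻¹ = (x * w * x⁻¹ * w⁻¹) * w := by group
  rw [e2, hσ.rep.mul _ ((h1 h4).2) w ((h1 hw).2), h _ ⟨h5, (h1 h4).1⟩, one_mul]

/-- The kernel of a homomorphism on which `σ` is trivial acts trivially on the germs. -/
theorem germ_of_ker (hσ : LieIrr V σ) {G : Type*} [Group G] (ρ : P →* G)
    (h : ∀ v ∈ V, ρ v = 1 → σ v = 1) {x : P} (hx : ρ x = 1) :
    x ∈ (stab V hVo hVn σ).normalCore := by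
  have h1 : ρ.ker ≤ (stab V hVo hVn σ).normalCore := by
    rw [Subgroup.normal_le_normalCore]
    intro z hz
    rw [MonoidHom.mem_ker] at hz
    refine ⟨V, le_rfl, hVo, hVn, fun w hw => ?_⟩
    have h4 : z * w * z⁻¹ * w⁻¹ ∈ V := V.mul_mem (hVn.conj_mem w hw z) (V.inv_mem hw)
    have h5 : ρ (z * w * z⁻¹ * w⁻¹) = 1 := by
      rw [map_mul, map_mul, map_mul, map_inv, map_inv, hz]
      group
    have e2 : z * w * z⁻¹ = (z * w * z⁻¹ * w⁻¹) * w := by group
    rw [e2, hσ.rep.mul _ h4 w hw, h _ h4 h5, one_mul]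
  exact h1 (MonoidHom.mem_ker.2 hx)

/-- If the closure `N` of `N₀` is normal and `σ` is irreducible on `N ∩ V` then an element which
commutes with `N₀` modulo the kernel of the action on the germs acts trivially on the germs. -/
theorem germ_of_comm (hσ : LieIrr V σ) {N₀ : Subgroup P} (hN : N₀.topologicalClosure.Normal)
    (hspan : Submodule.span K (σ '' ((N₀.topologicalClosure ⊓ V : Subgroup P) : Set P)) = ⊤)
    {z : P} (hz : ∀ x ∈ N₀, z * x * z⁻¹ * x⁻¹ ∈ (stab V hVo hVn σ).normalCore) :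
    z ∈ (stab V hVo hVn σ).normalCore := by
  intro y
  set z' := y * z * y⁻¹ with hz'
  -- `z'` acts trivially on `N ∩ V`
  have h1 : ∀ x ∈ N₀.topologicalClosure, x ∈ V → σ (z' * x * z'⁻¹) = σ x := by
    have key : ∀ x ∈ N₀.topologicalClosure, x ∈ V →
        σ (y * (z * x * z⁻¹) * y⁻¹) = σ (y * x * y⁻¹) := by
      intro x hx hxV
      have hx' : x ∈ closure (N₀ : Set P) := by
        rw [← Subgroup.topologicalClosure_coe]
        exact hx
      have hc : ∀ a : P, ContinuousOn (fun x => σ (a * x * a⁻¹)) (V : Set P) := by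
        intro a
        have h3 : Continuous fun x : P => a * x * a⁻¹ := by fun_prop
        exact hσ.rep.cont.comp h3.continuousOn (fun v hv => hVn.conj_mem v hv a)
      have hf : ContinuousOn (fun x => σ (y * (z * x * z⁻¹) * y⁻¹)) (V : Set P) := by
        have h3 := hc (y * z)
        have e : (fun x => σ (y * (z * x * z⁻¹) * y⁻¹)) =
            fun x => σ (y * z * x * (y * z)⁻¹) := by
          funext x
          congr 1
          group
        rw [e]
        exact h3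
      refine eq_on_closure hVo hf (hc y) (fun s hs hsV => ?_) hx' hxV
      have h4 := hz s hs
      have h5 : z * s * z⁻¹ * s⁻¹ ∈ V := V.mul_mem (hVn.conj_mem s hsV z) (V.inv_mem hsV)
      have h6 : y * (z * s * z⁻¹ * s⁻¹) * y⁻¹ ∈ V := hVn.conj_mem _ h5 y
      have h7 : σ (y * (z * s * z⁻¹ * s⁻¹) * y⁻¹) = 1 := stab_one hσ (h4 y) h6
      have e2 : y * (z * s * z⁻¹) * y⁻¹ = (y * (z * s * z⁻¹ * s⁻¹) * y⁻¹) * (y * s * y⁻¹) := by
        group
      show σ (y * (z * s * z⁻¹) * y⁻¹) = σ (y * s * y⁻¹)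
      rw [e2, hσ.rep.mul _ h6 _ (hVn.conj_mem s hsV y), h7, one_mul]
    intro x hx hxV
    have h3 := key (y⁻¹ * x * y⁻¹⁻¹) (hN.conj_mem x hx y⁻¹) (hVn.conj_mem x hxV y⁻¹)
    have e1 : y * (z * (y⁻¹ * x * y⁻¹⁻¹) * z⁻¹) * y⁻¹ = z' * x * z'⁻¹ := by
      rw [hz']
      group
    have e2 : y * (y⁻¹ * x * y⁻¹⁻¹) * y⁻¹ = x := by group
    rw [e1, e2] at h3
    exact h3
  refine ⟨V, le_rfl, hVo, hVn, fun v hv => ?_⟩
  have hzv : z' * v * z'⁻¹ ∈ V := hVn.conj_mem v hv z'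
  have hm : v⁻¹ * (z' * v * z'⁻¹) ∈ V := V.mul_mem (V.inv_mem hv) hzv
  have h2 : σ (v⁻¹ * (z' * v * z'⁻¹)) = 1 := by
    refine hσ.one_of_comm (S := ((N₀.topologicalClosure ⊓ V : Subgroup P) : Set P))
      (fun s hs => hs.2) hspan hm ?_
    intro s hs
    obtain ⟨hs1, hs2⟩ := hs
    -- `s` with `s = z'⁻¹ t z'`
    set M := v⁻¹ * (z' * v * z'⁻¹) with hM
    have a1 : z'⁻¹ * s * z'⁻¹⁻¹ ∈ N₀.topologicalClosure := hN.conj_mem s hs1 z'⁻¹
    have a2 : z'⁻¹ * s * z'⁻¹⁻¹ ∈ V := hVn.conj_mem s hs2 z'⁻¹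
    set t := z'⁻¹ * s * z'⁻¹⁻¹ with ht
    have b1 : σ s = σ t := by
      have := h1 t a1 a2
      have e : z' * t * z'⁻¹ = s := by rw [ht]; group
      rw [e] at this
      exact this
    have c1 : v * t * v⁻¹ ∈ N₀.topologicalClosure := hN.conj_mem t a1 v
    have c2 : v * t * v⁻¹ ∈ V := hVn.conj_mem t a2 v
    have b2 : σ (z' * (v * t * v⁻¹) * z'⁻¹) = σ (v * t * v⁻¹) := h1 _ c1 c2
    have e3 : M * s * M⁻¹ = v⁻¹ * (z' * (v * t * v⁻¹) * z'⁻¹) * v⁻¹⁻¹ := by
      rw [hM, ht]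
      group
    have c3 : z' * (v * t * v⁻¹) * z'⁻¹ ∈ V := hVn.conj_mem _ c2 z'
    rw [e3, hσ.rep.mul _ (V.mul_mem (V.inv_mem hv) c3) _ (V.inv_mem (V.inv_mem hv)),
      hσ.rep.mul _ (V.inv_mem hv) _ c3, b2, ← hσ.rep.mul _ (V.inv_mem hv) _ c2,
      ← hσ.rep.mul _ (V.mul_mem (V.inv_mem hv) c2) _ (V.inv_mem (V.inv_mem hv)), b1]
    congr 1
    group
  have e4 : z' * v * z'⁻¹ = v * (v⁻¹ * (z' * v * z'⁻¹)) := by group
  rw [e4, hσ.rep.mul v hv _ hm, h2, mul_one]

end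

end Pool.Agent.GeoOrig
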