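import Pool.Agent.Lib.GeoOrig.CurveType

/-!
# Partners of the generators attached to a moving point

For two moving points `s < j` of a curve of genus `g` and an index `p < s` we construct an element
which commutes with all `A l j`, `l < s`, `l ≠ p`, and does not commute with `A p j`.
-/

namespace Pool.Agent.BraidRep

section

variable {g m n : ℕ} {G : Type*} [Group G] {A : Fin n → Fin n → G}

private theorem comm_of_conj' {w x x' y : G} (h : w * x * w⁻¹ = x') (hy : Commute y x') :
    Commute (w⁻¹ * y * w) x := by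
  have h1 : x = w⁻¹ * x' * w := by rw [← h]; group
  rw [h1]
  show w⁻¹ * y * w * (w⁻¹ * x' * w) = w⁻¹ * x' * w * (w⁻¹ * y * w)
  calc w⁻¹ * y * w * (w⁻¹ * x' * w) = w⁻¹ * (y * x') * w := by group
    _ = w⁻¹ * (x' * y) * w := by rw [hy.eq]
    _ = _ := by group

/-- The generators attached to two chords which cross, in a convenient form. -/
theorem CurveBraid.conjD (h : CurveBraid g m A) {r i s j : Fin n} (hs : m ≤ s.val)
    (hh : ¬ Handle g r i) (hri : r < i) (his : i < s) (hsj : s < j) :
    Commute (A r s) ((A s j)⁻¹ * A i j * A s j) := by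
  have h1 := h.cross r i s j hs hh hri his hsj
  have h2 := h.adj r s j hs (hri.trans his) hsj
  apply commute_of_conj
  calc (A r s)⁻¹ * ((A s j)⁻¹ * A i j * A s j) * A r s =
      ((A r s)⁻¹ * A s j * A r s)⁻¹ * ((A r s)⁻¹ * A i j * A r s) *
        ((A r s)⁻¹ * A s j * A r s) := by group
    _ = _ := by rw [h1, h2]; group

/-- The action of `A k s` on `A k j`. -/
theorem CurveBraid.sameD (h : CurveBraid g m A) {k s j : Fin n} (hs : m ≤ s.val)
    (hks : k < s) (hsj : s < j) :
    A k s * A k j * (A k s)⁻¹ = (A s j)⁻¹ * A k j * A s j := by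
  have h1 := h.same k s j hs hks hsj
  have h2 := h.adj k s j hs hks hsj
  generalize A k s = b at *
  generalize A k j = y at *
  generalize A s j = c at *
  have h3 : b⁻¹ * (c⁻¹ * y * c) * b = y := by
    calc b⁻¹ * (c⁻¹ * y * c) * b = (b⁻¹ * c * b)⁻¹ * (b⁻¹ * y * b) * (b⁻¹ * c * b) := by group
      _ = y := by rw [h1, h2]; group
  calc b * y * b⁻¹ = b * (b⁻¹ * (c⁻¹ * y * c) * b) * b⁻¹ := by rw [h3]
    _ = c⁻¹ * y * c := by group

/-- The commutator of the two loops of a handle acts like `A s j`, and a conjugate of the second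
loop commutes with the second loop of the other point. -/
theorem CurveBraid.handle_shift (h : CurveBraid g m A) {i k s j : Fin n} (hs : m ≤ s.val)
    (hik : Handle g i k) (hsj : s < j) :
    (A i s * (A k s)⁻¹ * (A i s)⁻¹ * A k s) * A i j *
        (A i s * (A k s)⁻¹ * (A i s)⁻¹ * A k s)⁻¹ = (A s j)⁻¹ * A i j * A s j ∧
      (A i s * (A k s)⁻¹ * (A i s)⁻¹ * A k s) * A k j *
        (A i s * (A k s)⁻¹ * (A i s)⁻¹ * A k s)⁻¹ = (A s j)⁻¹ * A k j * A s j ∧
      Commute ((A k s)⁻¹ * A i s * A k s * (A i s)⁻¹ * A k s) (A k j) ∧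
      (Commute ((A k s)⁻¹ * A i s * A k s * (A i s)⁻¹ * A k s) (A i j) → A s j = 1) := by
  have hle := h.le
  have h1 := hik.lt
  have his : i < s := Fin.lt_def.2 (by omega)
  have hks : k < s := Fin.lt_def.2 (by omega)
  obtain ⟨r1, r2, r3, r4, r5⟩ := h.handle_rel hs hik hsj
  have r6 := (h.handle_calc hs hik hsj).2.1
  have r7 := h.sameD hs his hsj
  have d1 := h.adj k s j hs hks hsj
  have d2 := h.adj i s j hs his hsj
  generalize A i s = a at *
  generalize A k s = b at *
  generalize A i j = x at *
  generalize A k j = y at *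
  generalize A s j = c at *
  -- `b x b⁻¹ = x c`, `b y b⁻¹ = c⁻¹ y c`, `a'⁻¹ y a' = y c`, `a' x = x a'` for `a' = b⁻¹ a b`
  have e1 : b⁻¹ * (x * c) * b = x := by rw [← r1]; group
  have e2 : (b⁻¹ * a * b) * x * (b⁻¹ * a * b)⁻¹ = x := by rw [r6.eq]; group
  have e3 : (b⁻¹ * a * b) * (y * c) * (b⁻¹ * a * b)⁻¹ = y := by rw [← r3]; group
  have e4 : (b⁻¹ * a * b)⁻¹ * x * (b⁻¹ * a * b) = x := by
    rw [mul_assoc, ← r6.eq]; group
  have e5 : b * (y * c) * b⁻¹ = y * c := by
    calc b * (y * c) * b⁻¹ = b * (b⁻¹ * (y * c) * b) * b⁻¹ := by rw [r5]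
      _ = y * c := by group
  have e6 : a⁻¹ * (c⁻¹ * y * c) * a = y * c := by
    calc a⁻¹ * (c⁻¹ * y * c) * a = b * ((b⁻¹ * a * b)⁻¹ * (b⁻¹ * (c⁻¹ * y * c) * b) *
        (b⁻¹ * a * b)) * b⁻¹ := by group
      _ = b * ((b⁻¹ * a * b)⁻¹ * y * (b⁻¹ * a * b)) * b⁻¹ := by
        congr 3
        rw [← r2]; group
      _ = y * c := by rw [r3, e5]
  have e7 : a * (y * c) * a⁻¹ = c⁻¹ * y * c := by
    calc a * (y * c) * a⁻¹ = a * (a⁻¹ * (c⁻¹ * y * c) * a) * a⁻¹ := by rw [e6]
      _ = _ := by group
  have e8 : a * (x * c) * a⁻¹ = x * c := by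
    calc a * (x * c) * a⁻¹ = a * (a⁻¹ * (x * c) * a) * a⁻¹ := by rw [r4]
      _ = _ := by group
  have e9 : b⁻¹ * (c⁻¹ * y * c) * b = y := by rw [← r2]; group
  have e10 : a⁻¹ * (c⁻¹ * x * c) * a = x := by rw [← r7]; group
  -- the images under conjugation by `a b⁻¹ a⁻¹ b`
  have f1 : (a * b⁻¹ * a⁻¹ * b) * x * (a * b⁻¹ * a⁻¹ * b)⁻¹ = c⁻¹ * x * c := by
    calc (a * b⁻¹ * a⁻¹ * b) * x * (a * b⁻¹ * a⁻¹ * b)⁻¹ =
        a * (b⁻¹ * (a⁻¹ * (b * x * b⁻¹) * a) * b) * a⁻¹ := by group
      _ = _ := by rw [r1, r4, e1, r7]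
  have f2 : (a * b⁻¹ * a⁻¹ * b) * y * (a * b⁻¹ * a⁻¹ * b)⁻¹ = c⁻¹ * y * c := by
    calc (a * b⁻¹ * a⁻¹ * b) * y * (a * b⁻¹ * a⁻¹ * b)⁻¹ =
        a * (b⁻¹ * (a⁻¹ * (b * y * b⁻¹) * a) * b) * a⁻¹ := by group
      _ = _ := by rw [r2, e6, r5, e7]
  refine ⟨f1, f2, ?_, fun hc => ?_⟩
  · -- `b` commutes with `y c`, which is the conjugate of `y`
    have h2 : (b⁻¹ * a * b)⁻¹ * y * (b⁻¹ * a * b) = y * c := r3
    have h3 : Commute b (y * c) := by
      show b * (y * c) = y * c * b
      calc b * (y * c) = (b * (y * c) * b⁻¹) * b := by group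
        _ = y * c * b := by rw [e5]
    have h4 := comm_of_conj' (w := (b⁻¹ * a * b)⁻¹) (x := y) (x' := y * c) (y := b)
      (by rw [inv_inv]; exact h2) h3
    have h5 : b⁻¹ * a * b * a⁻¹ * b = ((b⁻¹ * a * b)⁻¹)⁻¹ * b * (b⁻¹ * a * b)⁻¹ := by group
    rw [h5]
    exact h4
  · -- conjugate by `a'`
    have h5 : b⁻¹ * a * b * a⁻¹ * b = (b⁻¹ * a * b) * b * (b⁻¹ * a * b)⁻¹ := by group
    rw [h5] at hc
    have h6 : b * x * b⁻¹ = x := by
      calc b * x * b⁻¹ = b * ((b⁻¹ * a * b)⁻¹ * x * (b⁻¹ * a * b)) * b⁻¹ := by rw [e4]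
        _ = (b⁻¹ * a * b)⁻¹ * (((b⁻¹ * a * b) * b * (b⁻¹ * a * b)⁻¹) * x) * (b⁻¹ * a * b) *
            b⁻¹ := by group
        _ = (b⁻¹ * a * b)⁻¹ * (x * ((b⁻¹ * a * b) * b * (b⁻¹ * a * b)⁻¹)) * (b⁻¹ * a * b) *
            b⁻¹ := by rw [hc.eq]
        _ = (b⁻¹ * a * b)⁻¹ * x * (b⁻¹ * a * b) := by group
        _ = x := e4
    rw [r1] at h6
    exact mul_eq_left.1 h6

/-- There is an element which commutes with the `A l j`, `l < q`, and acts like `A s j` on the
`A l j`, `q ≤ l < s`. -/
theorem CurveBraid.shift (h : CurveBraid g m A) {s j : Fin n} (hs : m ≤ s.val) (hsj : s < j) :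
    ∀ d q : ℕ, q + d = s.val → (2 * g ≤ q ∨ q % 2 = 0) → ∃ w : G,
      (∀ l : Fin n, l.val < q → Commute w (A l j)) ∧
      ∀ l : Fin n, q ≤ l.val → l < s → w * A l j * w⁻¹ = (A s j)⁻¹ * A l j * A s j := by
  have hle := h.le
  have hsn := s.2
  intro d
  induction d using Nat.strong_induction_on with
  | _ d ih =>
  intro q hq hpar
  rcases Nat.eq_zero_or_pos d with rfl | hd
  · refine ⟨1, fun l _ => Commute.one_left _, fun l h1 h2 => ?_⟩
    have := Fin.lt_def.1 h2
    omega
  by_cases hg : 2 * g ≤ q
  · obtain ⟨w, w1, w2⟩ := ih (d - 1) (by omega) (q + 1) (by omega) (Or.inl (by omega))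
    let k : Fin n := ⟨q, by omega⟩
    have hks : k < s := Fin.lt_def.2 (show q < s.val by omega)
    refine ⟨A k s * w, fun l hl => ?_, fun l h1 h2 => ?_⟩
    · have h3 : Commute (A k s) (A l j) := by
        apply commute_of_conj
        refine h.nest l k s j hs (fun hh => ?_) (Fin.lt_def.2 hl) hks hsj
        have h4 : q < 2 * g := hh.lt.2
        omega
      exact h3.mul_left (w1 l (by omega))
    · by_cases h3 : l.val = q
      · have hlk : l = k := Fin.ext h3
        have h4 := w1 l (by omega)
        calc (A k s * w) * A l j * (A k s * w)⁻¹ = A k s * (w * A l j * w⁻¹) * (A k s)⁻¹ := by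
              group
          _ = A k s * A l j * (A k s)⁻¹ := by rw [h4.eq]; group
          _ = _ := by rw [hlk]; exact h.sameD hs hks hsj
      · have hkl : k < l := Fin.lt_def.2 (show q < l.val by omega)
        have h5 := h.conjD hs (r := k) (i := l) (fun hh => by
          have h4 : q < 2 * g := hh.lt.1
          omega) hkl h2 hsj
        calc (A k s * w) * A l j * (A k s * w)⁻¹ = A k s * (w * A l j * w⁻¹) * (A k s)⁻¹ := by
              group
          _ = A k s * ((A s j)⁻¹ * A l j * A s j) * (A k s)⁻¹ := by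
              rw [w2 l (by omega) h2]
          _ = (A s j)⁻¹ * A l j * A s j := by rw [h5.eq]; group
  · have hq2 : q % 2 = 0 := by omega
    obtain ⟨w, w1, w2⟩ := ih (d - 2) (by omega) (q + 2) (by omega) (by omega)
    let i : Fin n := ⟨q, by omega⟩
    let k : Fin n := ⟨q + 1, by omega⟩
    have his : i < s := Fin.lt_def.2 (show q < s.val by omega)
    have hks : k < s := Fin.lt_def.2 (show q + 1 < s.val by omega)
    have hik : Handle g i k := ⟨q / 2, by omega, show q = 2 * (q / 2) by omega,
      show q + 1 = 2 * (q / 2) + 1 by omega⟩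
    obtain ⟨f1, f2, -, -⟩ := h.handle_shift hs hik hsj
    set H : G := A i s * (A k s)⁻¹ * (A i s)⁻¹ * A k s with hH
    refine ⟨H * w, fun l hl => ?_, fun l h1 h2 => ?_⟩
    · have h3 : Commute (A i s) (A l j) := by
        apply commute_of_conj
        refine h.nest l i s j hs (fun hh => ?_) (Fin.lt_def.2 hl) his hsj
        obtain ⟨t, -, -, h4⟩ := hh
        have h4' : q = 2 * t + 1 := h4
        omega
      have h4 : Commute (A k s) (A l j) := by
        apply commute_of_conj
        refine h.nest l k s j hs (fun hh => ?_) (Fin.lt_def.2 (show l.val < q + 1 by omega))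
          hks hsj
        obtain ⟨t, -, h4, h5⟩ := hh
        have h5' : q + 1 = 2 * t + 1 := h5
        omega
      exact (((h3.mul_left h4.inv_left).mul_left h3.inv_left).mul_left h4).mul_left
        (w1 l (by omega))
    · by_cases h3 : l.val = q
      · have hlk : l = i := Fin.ext h3
        have h4 := w1 l (by omega)
        calc (H * w) * A l j * (H * w)⁻¹ = H * (w * A l j * w⁻¹) * H⁻¹ := by group
          _ = H * A l j * H⁻¹ := by rw [h4.eq]; group
          _ = _ := by rw [hlk]; exact f1
      · by_cases h3' : l.val = q + 1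
        · have hlk : l = k := Fin.ext h3'
          have h4 := w1 l (by omega)
          calc (H * w) * A l j * (H * w)⁻¹ = H * (w * A l j * w⁻¹) * H⁻¹ := by group
            _ = H * A l j * H⁻¹ := by rw [h4.eq]; group
            _ = _ := by rw [hlk]; exact f2
        · have h5 := h.conjD hs (r := i) (i := l) (fun hh => by
            obtain ⟨t, -, h4, h5⟩ := hh
            have h4' : q = 2 * t := h4
            omega) (Fin.lt_def.2 (show q < l.val by omega)) h2 hsj
          have h6 := h.conjD hs (r := k) (i := l) (fun hh => by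
            obtain ⟨t, -, h4, h5⟩ := hh
            have h4' : q + 1 = 2 * t := h4
            omega) (Fin.lt_def.2 (show q + 1 < l.val by omega)) h2 hsj
          have h7 : Commute H ((A s j)⁻¹ * A l j * A s j) :=
            ((h5.mul_left h6.inv_left).mul_left h5.inv_left).mul_left h6
          calc (H * w) * A l j * (H * w)⁻¹ = H * (w * A l j * w⁻¹) * H⁻¹ := by group
            _ = H * ((A s j)⁻¹ * A l j * A s j) * H⁻¹ := by rw [w2 l (by omega) h2]
            _ = (A s j)⁻¹ * A l j * A s j := by rw [h7.eq]; group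

/-- The partner of a generator: it commutes with all `A l j`, `l < s`, except `A p j`. -/
theorem CurveBraid.partner (h : CurveBraid g m A) {s j : Fin n} (hs : m ≤ s.val) (hsj : s < j)
    {p : Fin n} (hps : p < s) (h1 : A s j ≠ 1)
    (h2 : 2 * g ≤ p.val → ¬ Commute (A p s) (A p j)) :
    ∃ y : G, (∀ l, l < s → l ≠ p → Commute y (A l j)) ∧ ¬ Commute y (A p j) := by
  have hle := h.le
  have hps' := Fin.lt_def.1 hps
  by_cases hg : 2 * g ≤ p.val
  · obtain ⟨w, w1, w2⟩ := h.shift hs hsj (s.val - (p.val + 1)) (p.val + 1) (by omega)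
      (Or.inl (by omega))
    refine ⟨w⁻¹ * A p s * w, fun l hl hlp => ?_, fun hc => h2 hg ?_⟩
    · rcases lt_or_gt_of_ne hlp with h3 | h3
      · have h4 : Commute (A p s) (A l j) := by
          apply commute_of_conj
          refine h.nest l p s j hs (fun hh => ?_) h3 hps hsj
          have := hh.lt.2
          omega
        have h5 := w1 l (by have := Fin.lt_def.1 h3; omega)
        exact (h5.inv_left.mul_left h4).mul_left h5
      · refine comm_of_conj' (w2 l (by have := Fin.lt_def.1 h3; omega) hl) ?_
        refine h.conjD hs (fun hh => ?_) h3 hl hsj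
        have := hh.lt.1
        omega
    · have h5 := w1 p (by omega)
      have h6 : A p s = w * (w⁻¹ * A p s * w) * w⁻¹ := by group
      rw [h6]
      exact (h5.mul_left hc).mul_left h5.inv_left
  · rcases Nat.mod_two_eq_zero_or_one p.val with hpar | hpar
    · -- the first loop of a handle
      let k : Fin n := ⟨p.val + 1, by have := s.2; omega⟩
      have hks : k < s := Fin.lt_def.2 (show p.val + 1 < s.val by omega)
      have hpk : Handle g p k := ⟨p.val / 2, by omega, by omega,
        show p.val + 1 = 2 * (p.val / 2) + 1 by omega⟩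
      obtain ⟨-, -, f3, f4⟩ := h.handle_shift hs hpk hsj
      obtain ⟨w, w1, w2⟩ := h.shift hs hsj (s.val - (p.val + 2)) (p.val + 2) (by omega)
        (by omega)
      set B : G := (A k s)⁻¹ * A p s * A k s * (A p s)⁻¹ * A k s with hB
      refine ⟨w⁻¹ * B * w, fun l hl hlp => ?_, fun hc => h1 (f4 ?_)⟩
      · rcases lt_or_gt_of_ne hlp with h3 | h3
        · have h4 : Commute (A p s) (A l j) := by
            apply commute_of_conj
            refine h.nest l p s j hs (fun hh => ?_) h3 hps hsj
            obtain ⟨t, -, -, h4⟩ := hh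
            omega
          have h6 : Commute (A k s) (A l j) := by
            apply commute_of_conj
            refine h.nest l k s j hs (fun hh => ?_)
              (Fin.lt_def.2 (show l.val < p.val + 1 by have := Fin.lt_def.1 h3; omega)) hks hsj
            obtain ⟨t, -, h4, h5⟩ := hh
            have h5' : p.val + 1 = 2 * t + 1 := h5
            have := Fin.lt_def.1 h3
            omega
          have h5 := w1 l (by have := Fin.lt_def.1 h3; omega)
          have h7 : Commute B (A l j) :=
            (((h6.inv_left.mul_left h4).mul_left h6).mul_left h4.inv_left).mul_left h6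
          exact (h5.inv_left.mul_left h7).mul_left h5
        · by_cases hlk : l = k
          · have h5 := w1 l (by rw [hlk]; show p.val + 1 < p.val + 2; omega)
            rw [hlk] at h5 ⊢
            exact (h5.inv_left.mul_left f3).mul_left h5
          · have hlv : p.val + 2 ≤ l.val := by
              have h8 := Fin.lt_def.1 h3
              have h9 : l.val ≠ p.val + 1 := fun h => hlk (Fin.ext h)
              omega
            refine comm_of_conj' (w2 l hlv hl) ?_
            have h5 := h.conjD hs (r := p) (i := l) (fun hh => by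
              obtain ⟨t, -, h4, h5⟩ := hh
              omega) h3 hl hsj
            have h6 := h.conjD hs (r := k) (i := l) (fun hh => by
              obtain ⟨t, -, h4, h5⟩ := hh
              have h4' : p.val + 1 = 2 * t := h4
              omega) (Fin.lt_def.2 (show p.val + 1 < l.val by omega)) hl hsj
            exact (((h6.inv_left.mul_left h5).mul_left h6).mul_left h5.inv_left).mul_left h6
      · have h5 := w1 p (by omega)
        have h6 : B = w * (w⁻¹ * B * w) * w⁻¹ := by group
        rw [h6]
        exact (h5.mul_left hc).mul_left h5.inv_left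
    · -- the second loop of a handle
      let i : Fin n := ⟨p.val - 1, by have := s.2; omega⟩
      have his : i < s := Fin.lt_def.2 (show p.val - 1 < s.val by omega)
      have hip : Handle g i p := ⟨p.val / 2, by omega,
        show p.val - 1 = 2 * (p.val / 2) by omega, by omega⟩
      obtain ⟨-, f3, f4⟩ := h.handle_calc hs hip hsj
      obtain ⟨w, w1, w2⟩ := h.shift hs hsj (s.val - (p.val + 1)) (p.val + 1) (by omega)
        (by omega)
      set B : G := (A p s)⁻¹ * A i s * A p s with hB
      refine ⟨w⁻¹ * B * w, fun l hl hlp => ?_, fun hc => h1 (f4 ?_)⟩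
      · rcases lt_or_gt_of_ne hlp with h3 | h3
        · by_cases hli : l = i
          · have h5 := w1 l (by have := Fin.lt_def.1 h3; omega)
            rw [hli] at h5 ⊢
            exact (h5.inv_left.mul_left f3).mul_left h5
          · have hlv : l.val < p.val - 1 := by
              have h8 := Fin.lt_def.1 h3
              have h9 : l.val ≠ p.val - 1 := fun h => hli (Fin.ext h)
              omega
            have h4 : Commute (A p s) (A l j) := by
              apply commute_of_conj
              refine h.nest l p s j hs (fun hh => ?_) h3 hps hsj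
              obtain ⟨t, -, h4, h5⟩ := hh
              omega
            have h6 : Commute (A i s) (A l j) := by
              apply commute_of_conj
              refine h.nest l i s j hs (fun hh => ?_) (Fin.lt_def.2 hlv) his hsj
              obtain ⟨t, -, h4, h5⟩ := hh
              have h5' : p.val - 1 = 2 * t + 1 := h5
              omega
            have h5 := w1 l (by have := Fin.lt_def.1 h3; omega)
            have h7 : Commute B (A l j) := (h4.inv_left.mul_left h6).mul_left h4
            exact (h5.inv_left.mul_left h7).mul_left h5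
        · have hlv := Fin.lt_def.1 h3
          refine comm_of_conj' (w2 l (by omega) hl) ?_
          have h5 := h.conjD hs (r := p) (i := l) (fun hh => by
            obtain ⟨t, -, h4, h5⟩ := hh
            omega) h3 hl hsj
          have h6 := h.conjD hs (r := i) (i := l) (fun hh => by
            obtain ⟨t, -, h4, h5⟩ := hh
            have h4' : p.val - 1 = 2 * t := h4
            omega) (Fin.lt_def.2 (show p.val - 1 < l.val by omega)) hl hsj
          exact (h5.inv_left.mul_left h6).mul_left h5
      · have h5 := w1 p (by omega)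
        have h6 : B = w * (w⁻¹ * B * w) * w⁻¹ := by group
        rw [h6]
        exact (h5.mul_left hc).mul_left h5.inv_left

end

end Pool.Agent.BraidRep
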