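import Pool.Agent.Lib.GeoOrig.CurveEll

/-!
# Five moving points on the projective line

The generator attached to two of the points is the full twist of the other three, up to central
elements.
-/

namespace Pool.Agent.BraidRep

section

variable {n : ℕ} {G : Type*} [Group G]

/-- An ordered product with four nontrivial factors. -/
private theorem prod_four (f : Fin n → G) {p q r s : Fin n} (h1 : p < q) (h2 : q < r)
    (h3 : r < s) (h : ∀ i, i ≠ p → i ≠ q → i ≠ r → i ≠ s → f i = 1) :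
    ((List.finRange n).map f).prod = f p * f q * f r * f s := by
  have hs : (List.finRange n).Pairwise (· < ·) := List.pairwise_lt_finRange n
  have h13 := h1.trans h2
  have h24 := h2.trans h3
  have h14 := h13.trans h3
  rw [prod_split hs (List.mem_finRange s) f fun i _ hi => h i (h14.trans hi).ne'
      (h24.trans hi).ne' (h3.trans hi).ne' hi.ne']
  rw [prod_split (hs.filter _) (q := r) (by simpa using h3) f fun i hi hi' => by
      have h4 : i < s := by simpa using hi
      exact h i (h13.trans hi').ne' (h2.trans hi').ne' hi'.ne' h4.ne]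
  rw [prod_split ((hs.filter _).filter _) (q := q) (by simpa using ⟨h2, h24⟩) f
    fun i hi hi' => by
      have h4 : i < r ∧ i < s := by simpa using hi
      exact h i (h1.trans hi').ne' hi'.ne' h4.1.ne h4.2.ne]
  rw [prod_split (((hs.filter _).filter _).filter _) (q := p) (by simpa using ⟨h1, h13, h14⟩) f
    fun i hi hi' => by
      have h4 : i < q ∧ i < r ∧ i < s := by simpa using hi
      exact h i hi'.ne' h4.1.ne h4.2.1.ne h4.2.2.ne]
  have h5 : ((((((List.finRange n).filter (· < s)).filter (· < r)).filter (· < q)).filter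
      (· < p)).map f).prod = 1 := by
    apply List.prod_eq_one
    intro x hx
    obtain ⟨i, hi, rfl⟩ := List.mem_map.1 hx
    have h4 : i < p ∧ i < q ∧ i < r ∧ i < s := by simpa using hi
    exact h i h4.1.ne h4.2.1.ne h4.2.2.1.ne h4.2.2.2.ne
  rw [h5, one_mul]

private theorem conj_word {a x y z x' y' z' : G} (hx : a⁻¹ * x * a = x') (hy : a⁻¹ * y * a = y')
    (hz : a⁻¹ * z * a = z') : a * x' * a⁻¹ = x ∧ a * y' * a⁻¹ = y ∧ a * z' * a⁻¹ = z := by
  refine ⟨?_, ?_, ?_⟩
  · rw [← hx]; group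
  · rw [← hy]; group
  · rw [← hz]; group

/-- The full twist on four strands is central. -/
private theorem twist {a b c x y z : G}
    (ax : a⁻¹ * x * a = (x * y) * x * (x * y)⁻¹) (ay : a⁻¹ * y * a = x * y * x⁻¹)
    (az : a⁻¹ * z * a = z)
    (bx : b⁻¹ * x * b = (x * z) * x * (x * z)⁻¹)
    (bi : b⁻¹ * y * b = (x * z * x⁻¹ * z⁻¹) * y * (x * z * x⁻¹ * z⁻¹)⁻¹)
    (bz : b⁻¹ * z * b = x * z * x⁻¹) (cx : c⁻¹ * x * c = x)
    (cy : c⁻¹ * y * c = (y * z) * y * (y * z)⁻¹) (cz : c⁻¹ * z * c = y * z * y⁻¹) :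
    Commute (a * b * c * (x * y * z)) x ∧ Commute (a * b * c * (x * y * z)) y ∧
      Commute (a * b * c * (x * y * z)) z := by
  have key : ∀ v, (a * b * c)⁻¹ * v * (a * b * c) = (x * y * z) * v * (x * y * z)⁻¹ →
      Commute (a * b * c * (x * y * z)) v := by
    intro v hv
    show a * b * c * (x * y * z) * v = v * (a * b * c * (x * y * z))
    calc a * b * c * (x * y * z) * v =
        a * b * c * ((x * y * z) * v * (x * y * z)⁻¹) * (x * y * z) := by group
      _ = a * b * c * ((a * b * c)⁻¹ * v * (a * b * c)) * (x * y * z) := by rw [hv]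
      _ = _ := by group
  -- the conjugates under `b` and `c` of words
  refine ⟨key x ?_, key y ?_, key z ?_⟩
  · calc (a * b * c)⁻¹ * x * (a * b * c) = c⁻¹ * (b⁻¹ * (a⁻¹ * x * a) * b) * c := by group
      _ = c⁻¹ * ((b⁻¹ * x * b) * (b⁻¹ * y * b) * (b⁻¹ * x * b) * (b⁻¹ * y * b)⁻¹ *
          (b⁻¹ * x * b)⁻¹) * c := by rw [ax]; group
      _ = c⁻¹ * (x * y * z * x * z⁻¹ * y⁻¹ * x⁻¹) * c := by rw [bx, bi]; group
      _ = (c⁻¹ * x * c) * (c⁻¹ * y * c) * (c⁻¹ * z * c) * (c⁻¹ * x * c) * (c⁻¹ * z * c)⁻¹ *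
          (c⁻¹ * y * c)⁻¹ * (c⁻¹ * x * c)⁻¹ := by group
      _ = _ := by rw [cx, cy, cz]; group
  · calc (a * b * c)⁻¹ * y * (a * b * c) = c⁻¹ * (b⁻¹ * (a⁻¹ * y * a) * b) * c := by group
      _ = c⁻¹ * ((b⁻¹ * x * b) * (b⁻¹ * y * b) * (b⁻¹ * x * b)⁻¹) * c := by rw [ay]; group
      _ = (c⁻¹ * x * c) * (c⁻¹ * z * c) * (c⁻¹ * x * c) * (c⁻¹ * z * c)⁻¹ * (c⁻¹ * x * c)⁻¹ *
          ((c⁻¹ * x * c) * (c⁻¹ * z * c) * (c⁻¹ * x * c)⁻¹ * (c⁻¹ * z * c)⁻¹ *
          (c⁻¹ * y * c) * (c⁻¹ * z * c) * (c⁻¹ * x * c) * (c⁻¹ * z * c)⁻¹ *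
          (c⁻¹ * x * c)⁻¹) * ((c⁻¹ * x * c) * (c⁻¹ * z * c) * (c⁻¹ * x * c) *
          (c⁻¹ * z * c)⁻¹ * (c⁻¹ * x * c)⁻¹)⁻¹ := by rw [bx, bi]; group
      _ = _ := by rw [cx, cy, cz]; group
  · calc (a * b * c)⁻¹ * z * (a * b * c) = c⁻¹ * (b⁻¹ * (a⁻¹ * z * a) * b) * c := by group
      _ = (c⁻¹ * x * c) * (c⁻¹ * z * c) * (c⁻¹ * x * c)⁻¹ := by rw [az, bz]; group
      _ = _ := by rw [cx, cz]; group

variable {m : ℕ} {A : Fin n → Fin n → G}

/-- Five moving points on the projective line. -/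
theorem ClosedBraid.twist (h : ClosedBraid 0 m A) {p q r s t : Fin n} (hp : m ≤ p.val)
    (hpq : p < q) (hqr : q < r) (hrs : r < s) (hst : s < t)
    (hZ : ∀ i : Fin n, i ≠ p → i ≠ q → i ≠ r → i ≠ s → i ≠ t →
      sy A i s ∈ Subgroup.center G)
    (hN : ∀ y : G, (∀ i, i ≠ s → y * sy A i s * y⁻¹ * (sy A i s)⁻¹ ∈ Subgroup.center G) →
      y ∈ Subgroup.center G) :
    ∃ z ∈ Subgroup.center G, A p q * A p r * A q r = z * A s t := by
  have hpr := hpq.trans hqr
  have hqs := hqr.trans hrs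
  have hps := hpq.trans hqs
  have hqm : m ≤ q.val := hp.trans (Fin.lt_def.1 hpq).le
  have hrm : m ≤ r.val := hqm.trans (Fin.lt_def.1 hqr).le
  have hsm : m ≤ s.val := hrm.trans (Fin.lt_def.1 hrs).le
  have nh : ∀ i j : Fin n, ¬ Handle 0 i j := by
    rintro i j ⟨t, ht, -⟩
    omega
  -- (TR)
  let φ : G →* G ⧸ Subgroup.center G := QuotientGroup.mk' _
  have hφ : ∀ a, φ a = 1 ↔ a ∈ Subgroup.center G := fun a => QuotientGroup.eq_one_iff a
  have e1 : A p s * A q s * A r s * A s t ∈ Subgroup.center G := by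
    rw [← hφ]
    have h1 := congrArg φ (h.tr s hsm)
    rw [map_one, map_list_prod, List.map_map] at h1
    have hturn : ∀ i, turn 0 A s i = if i = s then 1 else sy A i s := by
      intro i
      unfold turn
      rw [if_neg (by omega)]
    rw [prod_four (φ ∘ turn 0 A s) hpq hqr (hrs.trans hst) (fun i h2 h3 h4 h5 => ?_)] at h1
    · simp only [Function.comp_apply, hturn] at h1
      rw [if_neg hps.ne, if_neg hqs.ne, if_neg hrs.ne, if_neg hst.ne', sy_of_lt hps,
        sy_of_lt hqs, sy_of_lt hrs, sy_of_gt hst] at h1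
      rw [map_mul, map_mul, map_mul]
      exact h1
    · rw [Function.comp_apply, hturn]
      split_ifs with h6
      · exact map_one φ
      · exact (hφ _).2 (hZ i h2 h3 h4 h6 h5)
  obtain ⟨c1, c2, c3⟩ := BraidRep.twist
    (h.same p q s hqm hpq hqs) (h.adj p q s hqm hpq hqs)
    (h.disj p q r s hqm hpq hqr hrs) (h.same p r s hrm hpr hrs)
    (h.cross p q r s hrm (nh p q) hpq hqr hrs) (h.adj p r s hrm hpr hrs)
    (h.nest p q r s hrm (nh p q) hpq hqr hrs) (h.same q r s hrm hqr hrs)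
    (h.adj q r s hrm hqr hrs)
  have e2 : ∀ w, Commute (A p s * A q s * A r s * A s t) w := fun w =>
    (Subgroup.mem_center_iff.1 e1 w).symm
  have c4 : Commute (A p q * A p r * A q r * (A p s * A q s * A r s)) (A s t) := by
    have h1 : A s t = (A p s * A q s * A r s)⁻¹ * (A p s * A q s * A r s * A s t) := by group
    rw [h1]
    exact ((c1.mul_right c2).mul_right c3).inv_right.mul_right (e2 _).symm
  have e3 : A p q * A p r * A q r * (A p s * A q s * A r s) ∈ Subgroup.center G := by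
    apply hN
    intro i hi
    have h1 : Commute (A p q * A p r * A q r * (A p s * A q s * A r s)) (sy A i s) := by
      by_cases h2 : i = p
      · rw [h2, sy_of_lt hps]; exact c1
      by_cases h3 : i = q
      · rw [h3, sy_of_lt hqs]; exact c2
      by_cases h4 : i = r
      · rw [h4, sy_of_lt hrs]; exact c3
      by_cases h5 : i = t
      · rw [h5, sy_of_gt hst]; exact c4
      exact Subgroup.mem_center_iff.1 (hZ i h2 h3 h4 hi h5) _
    rw [h1.eq]
    have h2 : ∀ u v : G, v * u * u⁻¹ * v⁻¹ = 1 := fun u v => by group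
    rw [h2]
    exact Subgroup.one_mem _
  refine ⟨(A p q * A p r * A q r * (A p s * A q s * A r s)) *
    (A p s * A q s * A r s * A s t)⁻¹, Subgroup.mul_mem _ e3 (Subgroup.inv_mem _ e1), ?_⟩
  have e4 := (e2 (A s t)).eq
  generalize A p s * A q s * A r s = D at *
  have e5 : D * A s t = A s t * D := by
    have h1 : D * A s t * A s t = A s t * D * A s t := by rw [e4]; group
    exact mul_right_cancel h1
  calc A p q * A p r * A q r = A p q * A p r * A q r * D * (A s t * D)⁻¹ * A s t := by group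
    _ = _ := by rw [e5]

end

end Pool.Agent.BraidRep
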