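import Pool.Agent.Lib.GeoOrig.CurveTriples
import Pool.Agent.Lib.GeoOrig.BipThree

/-!
# Families with Bellingeri's relations in `GL₃`
-/

open Matrix

namespace Pool.Agent.BraidRep

section

variable {K : Type*} [Field K]

/-- The endomorphism attached to an invertible matrix. -/
private noncomputable def Phi (a : GL (Fin 3) K) : Module.End K (Fin 3 → K) :=
  Matrix.toLinAlgEquiv' (a : Matrix (Fin 3) (Fin 3) K)

private theorem phi_apply (a : GL (Fin 3) K) (w : Fin 3 → K) :
    Phi a w = (a : Matrix (Fin 3) (Fin 3) K) *ᵥ w := Matrix.toLinAlgEquiv'_apply _ _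

private theorem phi_commute {a b : GL (Fin 3) K} : Commute (Phi a) (Phi b) ↔ Commute a b := by
  constructor
  · intro h
    apply Commute.units_of_val
    have h1 : Matrix.toLinAlgEquiv'
          ((a : Matrix (Fin 3) (Fin 3) K) * (b : Matrix (Fin 3) (Fin 3) K)) =
        Matrix.toLinAlgEquiv'
          ((b : Matrix (Fin 3) (Fin 3) K) * (a : Matrix (Fin 3) (Fin 3) K)) := by
      rw [map_mul, map_mul]
      exact h.eq
    exact Matrix.toLinAlgEquiv'.injective h1
  · intro h
    exact h.units_val.map (Matrix.toLinAlgEquiv' : Matrix (Fin 3) (Fin 3) K ≃ₐ[K] _)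

private theorem rank_of_homol {a : GL (Fin 3) K} (h : Homol (Phi a))
    (ha : a ∉ Subgroup.center (GL (Fin 3) K)) :
    ∃ c : K, ((a : Matrix (Fin 3) (Fin 3) K) -
      c • (1 : Matrix (Fin 3) (Fin 3) K)).rank = 1 := by
  obtain ⟨c, f, u, hx⟩ := h
  refine ⟨c, ?_⟩
  have h1 : (a : Matrix (Fin 3) (Fin 3) K) - c • (1 : Matrix (Fin 3) (Fin 3) K) =
      Matrix.vecMulVec u (fun k => f (Pi.single k 1)) := by
    apply Matrix.ext_of_mulVec_single
    intro i
    rw [Matrix.sub_mulVec, Matrix.smul_mulVec, Matrix.one_mulVec, ← phi_apply, hx,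
      add_sub_cancel_left]
    ext k
    simp [Matrix.vecMulVec, Matrix.mulVec, dotProduct, Pi.single_apply, mul_comm]
  apply le_antisymm
  · rw [h1]
    exact Matrix.rank_vecMulVec_le _ _
  · rw [Nat.one_le_iff_ne_zero]
    intro h2
    apply ha
    rw [mem_center_iff]
    refine ⟨c, ?_⟩
    have h3 : LinearMap.range ((a : Matrix (Fin 3) (Fin 3) K) -
        c • (1 : Matrix (Fin 3) (Fin 3) K)).mulVecLin = ⊥ := Submodule.finrank_eq_zero.1 h2
    have h4 := LinearMap.range_eq_bot.1 h3
    have h5 : (a : Matrix (Fin 3) (Fin 3) K) - c • (1 : Matrix (Fin 3) (Fin 3) K) = 0 := by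
      apply Matrix.ext_of_mulVec_single
      intro i
      have h6 := LinearMap.congr_fun h4 (Pi.single i 1)
      rw [Matrix.mulVecLin_apply] at h6
      rw [h6, Matrix.zero_mulVec]
      rfl
    exact sub_eq_zero.1 h5

/-- The stabiliser of a subspace. -/
private def stabW (W : Submodule K (Fin 3 → K)) : Subgroup (GL (Fin 3) K) where
  carrier := {a | ∀ w ∈ W, (a : Matrix (Fin 3) (Fin 3) K) *ᵥ w ∈ W}
  one_mem' := fun w hw => by simpa using hw
  mul_mem' := fun {a b} ha hb w hw => by
    rw [Units.val_mul, ← Matrix.mulVec_mulVec]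
    exact ha _ (hb w hw)
  inv_mem' := fun {a} ha w hw => by
    have h1 : W.map (Phi a) ≤ W := by
      rintro _ ⟨w, hw, rfl⟩
      rw [phi_apply]
      exact ha w hw
    have hinj : Function.Injective (Phi a) := by
      intro x y hxy
      rw [phi_apply, phi_apply] at hxy
      have h2 := congrArg (fun z => ((a⁻¹ : GL (Fin 3) K) : Matrix (Fin 3) (Fin 3) K) *ᵥ z) hxy
      simpa [Matrix.mulVec_mulVec, ← Units.val_mul] using h2
    have h2 : W.map (Phi a) = W :=
      Submodule.eq_of_le_of_finrank_eq h1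
        (Submodule.equivMapOfInjective (Phi a) hinj W).finrank_eq.symm
    have h3 : w ∈ W.map (Phi a) := by rw [h2]; exact hw
    obtain ⟨w', hw', rfl⟩ := h3
    rw [phi_apply, Matrix.mulVec_mulVec, ← Units.val_mul, inv_mul_cancel, Units.val_one,
      Matrix.one_mulVec]
    exact hw'

private theorem center_le_stabW (W : Submodule K (Fin 3 → K)) :
    Subgroup.center (GL (Fin 3) K) ≤ stabW W := by
  intro a ha w hw
  obtain ⟨c, hc⟩ := mem_center_iff.1 ha
  rw [hc, Matrix.smul_mulVec, Matrix.one_mulVec]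
  exact W.smul_mem c hw

variable {g m n : ℕ}

/-- Families with Bellingeri's relations in `GL₃(K)` such that for every moving point `v` the
`A i v` and `A v i` are all scalar, or act irreducibly and have a trivial centraliser in `PGL₃`,
and such that each `A i v`, `i ≥ 2 g`, is generated by the others up to scalars. -/
theorem CurveBraid.rank_three [IsAlgClosed K] {A : Fin n → Fin n → GL (Fin 3) K}
    (h : CurveBraid g m A)
    (hN : ∀ v : Fin n, m ≤ v.val → (∀ i, i ≠ v → sy A i v ∈ Subgroup.center (GL (Fin 3) K)) ∨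
      ((∀ W : Submodule K (Fin 3 → K), (∀ i, i ≠ v → ∀ w ∈ W,
          ((sy A i v : GL (Fin 3) K) : Matrix (Fin 3) (Fin 3) K) *ᵥ w ∈ W) → W = ⊥ ∨ W = ⊤) ∧
        ∀ y : GL (Fin 3) K, (∀ i, i ≠ v →
          y * sy A i v * y⁻¹ * (sy A i v)⁻¹ ∈ Subgroup.center (GL (Fin 3) K)) →
            y ∈ Subgroup.center (GL (Fin 3) K)))
    (hI : ∀ i v : Fin n, 2 * g ≤ i.val → m ≤ v.val → i ≠ v →
      sy A i v ∈ Subgroup.center (GL (Fin 3) K) ⊔
        Subgroup.closure {y | ∃ k, k ≠ v ∧ k ≠ i ∧ y = sy A k v}) :
    ∃ S T : Finset (Fin n), (∀ k ∈ S, 2 * g ≤ k.val ∧ k.val < m) ∧ (∀ v ∈ T, m ≤ v.val) ∧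
      (T.card ≤ 1 ∨ 2 * g + S.card + T.card ≤ 5) ∧
      (∀ i j, i < j → m ≤ j.val → (j ∉ T ∨ (m ≤ i.val ∧ i ∉ T) ∨
        (2 * g ≤ i.val ∧ i.val < m ∧ i ∉ S)) → A i j ∈ Subgroup.center (GL (Fin 3) K)) ∧
      (∀ i ∈ T, ∀ j ∈ T, i < j → A i j ∉ Subgroup.center (GL (Fin 3) K)) ∧
      (∀ a b c, a < b → b < c → b ∈ T → c ∈ T → a ∈ S ∨ a ∈ T → ¬ Commute (A a b) (A a c) ∧
        ¬ Commute (A a b) (A b c) ∧ ¬ Commute (A a c) (A b c)) ∧
      (T.card = 5 → ∀ i ∈ T, ∀ j ∈ T, i < j → ∃ c : K,
        ((A i j : Matrix (Fin 3) (Fin 3) K) - c • (1 : Matrix (Fin 3) (Fin 3) K)).rank = 1) := by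
  classical
  have hle := h.le
  let q : GL (Fin 3) K →* GL (Fin 3) K ⧸ Subgroup.center (GL (Fin 3) K) :=
    QuotientGroup.mk' _
  have hq1 : ∀ a, q a = 1 ↔ a ∈ Subgroup.center (GL (Fin 3) K) := fun a =>
    QuotientGroup.eq_one_iff a
  have hsy : ∀ i j, sy (fun i j => q (A i j)) i j = q (sy A i j) := by
    intro i j
    unfold sy
    split_ifs <;> rfl
  have hq := h.map q
  obtain ⟨S, T, a1, a2, a3, a4, a5, a6⟩ := hq.triples (fun v hv => by
    rcases hN v hv with h1 | ⟨-, h1⟩
    · left
      intro i hi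
      rw [hsy, hq1]
      exact h1 i hi
    · right
      intro x hx
      obtain ⟨y, rfl⟩ := QuotientGroup.mk'_surjective _ x
      rw [show QuotientGroup.mk' (Subgroup.center (GL (Fin 3) K)) y = q y from rfl, hq1]
      refine h1 y fun i hi => ?_
      have h2 := hx i hi
      rw [hsy] at h2
      rw [← hq1, map_mul, map_mul, map_mul, map_inv, map_inv, show q y * q (sy A i v) =
        q (sy A i v) * q y from h2.eq]
      group)
  have hnc : ∀ i j k l : Fin n, ¬ Commute (sy (fun i j => q (A i j)) i j)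
      (sy (fun i j => q (A i j)) k l) → ¬ Commute (sy A i j) (sy A k l) := by
    intro i j k l h1 h2
    apply h1
    rw [hsy, hsy]
    exact h2.map q
  have a4' : ∀ i j, i < j → m ≤ j.val → (j ∉ T ∨ (m ≤ i.val ∧ i ∉ T) ∨
        (2 * g ≤ i.val ∧ i.val < m ∧ i ∉ S)) → A i j ∈ Subgroup.center (GL (Fin 3) K) :=
    fun i j h1 h2 h3 => (hq1 _).1 (a4 i j h1 h2 h3)
  have a5' : ∀ i ∈ T, ∀ j ∈ T, i < j → A i j ∉ Subgroup.center (GL (Fin 3) K) := by
    intro i hi j hj hij h1
    apply a5 i hi j hj hij.ne
    rw [hsy, hq1, sy_of_lt hij]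
    exact h1
  have a7 : ∀ a b c, a < b → b < c → b ∈ T → c ∈ T → a ∈ S ∨ a ∈ T →
      ¬ Commute (A a b) (A a c) ∧ ¬ Commute (A a b) (A b c) ∧ ¬ Commute (A a c) (A b c) := by
    intro a b c hab hbc hb hc ha
    have hac := hab.trans hbc
    have h1 : ¬ Tr (fun i j => q (A i j)) a b c := by
      refine a6 b hb c hc hbc.ne a ?_
      rcases ha with ha | ha
      · exact Or.inl ha
      · exact Or.inr ⟨ha, hab.ne, hac.ne⟩
    have h2 : ∀ x y : GL (Fin 3) K, Commute x y → Commute (q x) (q y) := fun x y hc =>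
      hc.map q
    have hfl := hq.surface.fl
    refine ⟨fun hc => h1 ?_, fun hc => h1 ?_, fun hc => h1 ?_⟩
    · exact hfl.tr_of_lt (a2 b hb) hab hbc (Or.inl (h2 _ _ hc))
    · exact hfl.tr_of_lt (a2 b hb) hab hbc (Or.inr (Or.inl (h2 _ _ hc)))
    · exact hfl.tr_of_lt (a2 b hb) hab hbc (Or.inr (Or.inr (h2 _ _ hc)))
  refine ⟨S, T, a1, a2, ?_, a4', a5', a7, fun hT5 i hi j hj hij => ?_⟩
  · by_cases hT1 : T.card ≤ 1
    · exact Or.inl hT1
    right
    push Not at hT1
    have hTne : T.Nonempty := Finset.card_pos.1 (by omega)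
    obtain ⟨j, hj, hjmax⟩ : ∃ j ∈ T, ∀ v ∈ T, v ≤ j :=
      ⟨T.max' hTne, T.max'_mem hTne, fun v hv => T.le_max' v hv⟩
    have hT'card : (T.erase j).card = T.card - 1 := Finset.card_erase_of_mem hj
    have hT'ne : (T.erase j).Nonempty := Finset.card_pos.1 (by omega)
    obtain ⟨s, hs, hsmax⟩ : ∃ s ∈ T.erase j, ∀ v ∈ T.erase j, v ≤ s :=
      ⟨(T.erase j).max' hT'ne, (T.erase j).max'_mem hT'ne, fun v hv => (T.erase j).le_max' v hv⟩
    have hsT : s ∈ T := Finset.mem_of_mem_erase hs
    have hsj' : s ≠ j := Finset.ne_of_mem_erase hs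
    have hsj : s < j := lt_of_le_of_ne (hjmax s hsT) hsj'
    have hs1 := a2 s hsT
    have hj1 := a2 j hj
    have hsjv := Fin.lt_def.1 hsj
    have hne : A s j ≠ 1 := by
      intro h2
      apply a5 s hsT j hj hsj'
      rw [hsy, sy_of_lt hsj, h2, map_one]
    -- the indices of the system
    let I : Finset (Fin n) := Finset.univ.filter fun p => p < s ∧ (p.val < 2 * g ∨ p ∈ S ∨ p ∈ T)
    have hImem : ∀ p, p ∈ I ↔ p < s ∧ (p.val < 2 * g ∨ p ∈ S ∨ p ∈ T) := fun p => by
      simp [I]
    have hpart : ∀ p, ∃ y : GL (Fin 3) K, p ∈ I →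
        (∀ l, l < s → l ≠ p → Commute y (A l j)) ∧ ¬ Commute y (A p j) := by
      intro p
      by_cases hp : p ∈ I
      · obtain ⟨h1, h2⟩ := (hImem p).1 hp
        obtain ⟨y, hy⟩ := h.partner hs1 hsj h1 hne (fun hg => by
          have hps : p < j := h1.trans hsj
          have h3 : ¬ Tr (fun i j => q (A i j)) p s j := by
            refine a6 s hsT j hj hsj' p ?_
            rcases h2 with h2 | h2 | h2
            · omega
            · exact Or.inl h2
            · exact Or.inr ⟨h2, h1.ne, hps.ne⟩
          intro hc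
          apply h3
          refine hq.surface.fl.tr_of_commute (Or.inr (Or.inr ⟨hs1, hj1⟩)) h1.ne hps.ne hsj' ?_
          rw [hsy, hsy, sy_of_lt h1, sy_of_lt hps]
          exact hc.map q)
        exact ⟨y, fun _ => hy⟩
      · exact ⟨1, fun h1 => absurd h1 hp⟩
    choose y hy using hpart
    have hIcard : 2 * g + S.card + T.card = I.card + 2 := by
      have e1 : I = (Finset.univ.filter fun p : Fin n => p.val < 2 * g) ∪
          (S ∪ (T.erase j).erase s) := by
        ext p
        rw [hImem, Finset.mem_union, Finset.mem_union, Finset.mem_filter, Finset.mem_erase,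
          Finset.mem_erase]
        constructor
        · rintro ⟨b1, b2 | b2 | b2⟩
          · exact Or.inl ⟨Finset.mem_univ _, b2⟩
          · exact Or.inr (Or.inl b2)
          · exact Or.inr (Or.inr ⟨b1.ne, (b1.trans hsj).ne, b2⟩)
        · rintro (⟨-, b1⟩ | b1 | ⟨b1, b2, b3⟩)
          · exact ⟨Fin.lt_def.2 (by omega), Or.inl b1⟩
          · exact ⟨Fin.lt_def.2 (by have := (a1 p b1).2; omega), Or.inr (Or.inl b1)⟩
          · exact ⟨lt_of_le_of_ne (hsmax p (Finset.mem_erase.2 ⟨b2, b3⟩)) b1,
              Or.inr (Or.inr b3)⟩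
      have e2 : Disjoint (Finset.univ.filter fun p : Fin n => p.val < 2 * g)
          (S ∪ (T.erase j).erase s) := by
        rw [Finset.disjoint_left]
        intro p hp hp'
        have b1 := (Finset.mem_filter.1 hp).2
        rcases Finset.mem_union.1 hp' with b2 | b2
        · have := (a1 p b2).1
          omega
        · have := a2 p (Finset.mem_of_mem_erase (Finset.mem_of_mem_erase b2))
          omega
      have e3 : Disjoint S ((T.erase j).erase s) := by
        rw [Finset.disjoint_left]
        intro p hp hp'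
        have b1 := (a1 p hp).2
        have b2 := a2 p (Finset.mem_of_mem_erase (Finset.mem_of_mem_erase hp'))
        omega
      have e4 : (Finset.univ.filter fun p : Fin n => p.val < 2 * g).card = 2 * g := by
        have e5 : (Finset.univ.filter fun p : Fin n => p.val < 2 * g).image Fin.val =
            Finset.range (2 * g) := by
          ext k
          rw [Finset.mem_image, Finset.mem_range]
          constructor
          · rintro ⟨p, hp, rfl⟩
            exact (Finset.mem_filter.1 hp).2
          · intro hk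
            exact ⟨⟨k, by have := s.2; omega⟩, Finset.mem_filter.2 ⟨Finset.mem_univ _, hk⟩, rfl⟩
        rw [← Finset.card_image_of_injective _ Fin.val_injective, e5, Finset.card_range]
      rw [e1, Finset.card_union_of_disjoint e2, Finset.card_union_of_disjoint e3, e4,
        Finset.card_erase_of_mem hs, hT'card]
      omega
    have hI4 : I.card ≤ 4 :=
      (skewOn_gl (K := K) (by norm_num : 0 < 3)).card_le (fun p : Fin n => p.val)
        (fun p => A p j) y I (fun _ _ => ⟨Set.mem_univ _, Set.mem_univ _⟩)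
        (fun p hp k hk hkp => (hy p hp).1 k ((hImem k).1 hk).1 fun h1 => by
          rw [h1] at hkp
          exact lt_irrefl _ hkp)
        (fun p hp => (hy p hp).2) (fun p _ k _ he => Fin.ext he)
    have hI3 : I.card ≠ 4 := by
      intro hI4
      let e := I.orderEmbOfFin hI4
      have heI : ∀ a, e a ∈ I := fun a => I.orderEmbOfFin_mem hI4 a
      have hes : ∀ p ∈ I, ∃ a, e a = p := by
        intro p hp
        have : p ∈ Set.range e := by
          rw [Finset.range_orderEmbOfFin]
          exact hp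
        exact this
      refine no_bip_four (K := K) (V := Fin 3 → K) (by simp) (fun a => Phi (A (e a) j))
        (fun a => Phi (y (e a))) (fun a b hab => ?_) (fun a => ?_) (fun W hW => ?_)
      · rw [phi_commute]
        exact (hy _ (heI a)).1 _ ((hImem _).1 (heI b)).1 fun h1 => hab (e.injective h1).symm
      · rw [phi_commute]
        exact (hy _ (heI a)).2
      · -- the other generators preserve the subspace, too
        have c1 : ∀ p, p ≠ j → p ≠ s → sy A p j ∈ stabW W := by
          intro p hpj hps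
          rcases lt_or_gt_of_ne hps with h1 | h1
          · have hpj' : p < j := h1.trans hsj
            rw [sy_of_lt hpj']
            by_cases hpI : p ∈ I
            · obtain ⟨a, rfl⟩ := hes p hpI
              intro w hw
              rw [← phi_apply]
              exact hW a w hw
            · apply center_le_stabW
              apply a4' p j hpj' hj1
              have h2 : ¬ (p.val < 2 * g ∨ p ∈ S ∨ p ∈ T) := fun h2 =>
                hpI ((hImem p).2 ⟨h1, h2⟩)
              push Not at h2
              obtain ⟨b1, b2, b3⟩ := h2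
              by_cases b4 : m ≤ p.val
              · exact Or.inr (Or.inl ⟨b4, b3⟩)
              · exact Or.inr (Or.inr ⟨b1, by omega, b2⟩)
          · have hpT : p ∉ T := by
              intro hpT
              have := hsmax p (Finset.mem_erase.2 ⟨hpj, hpT⟩)
              exact absurd h1 (not_lt.2 this)
            have hpm : m ≤ p.val := by
              have := Fin.lt_def.1 h1
              omega
            apply center_le_stabW
            rcases lt_or_gt_of_ne hpj with h2 | h2
            · rw [sy_of_lt h2]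
              exact a4' p j h2 hj1 (Or.inr (Or.inl ⟨hpm, hpT⟩))
            · rw [sy_of_gt h2]
              exact a4' j p h2 hpm (Or.inl hpT)
        have c2 : sy A s j ∈ stabW W := by
          have h1 := hI s j (by omega) hj1 hsj'
          refine (sup_le (center_le_stabW W) ?_ : _ ≤ stabW W) h1
          rw [Subgroup.closure_le]
          rintro _ ⟨k, hk1, hk2, rfl⟩
          exact c1 k hk1 hk2
        rcases hN j hj1 with h1 | ⟨h1, -⟩
        · exfalso
          obtain ⟨i, hi, hi'⟩ := a3 j hj
          apply hi'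
          rw [hsy, hq1]
          exact h1 i hi
        · refine h1 W fun i hi w hw => ?_
          by_cases his : i = s
          · rw [his]
            exact c2 w hw
          · exact c1 i hi his w hw
    omega
  · -- five moving points
    let e := T.orderEmbOfFin hT5
    have heT : ∀ a, e a ∈ T := fun a => T.orderEmbOfFin_mem hT5 a
    have hes : ∀ p ∈ T, ∃ a, e a = p := by
      intro p hp
      have : p ∈ Set.range e := by
        rw [Finset.range_orderEmbOfFin]
        exact hp
      exact this
    obtain ⟨a, rfl⟩ := hes i hi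
    obtain ⟨b, rfl⟩ := hes j hj
    have hab : a < b := (OrderEmbedding.lt_iff_lt e).1 hij
    have hlt : ∀ a b, a < b → e a < e b := fun a b hab => (OrderEmbedding.lt_iff_lt e).2 hab
    obtain ⟨C, D, hC, hD, hCD⟩ := (h.sub (fun a => e a) hlt fun a => a2 _ (heT a)).five
      (fun a b c hab hbc => a7 _ _ _ (hlt _ _ hab) (hlt _ _ hbc) (heT b) (heT c)
        (Or.inr (heT a))) a b hab
    rcases homol_or (K := K) (V := Fin 3 → K) (by simp) (Phi (A (e a) (e b))) with h1 | ⟨h1, -⟩
    · exact rank_of_homol h1 (a5' _ (heT a) _ (heT b) (hlt _ _ hab))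
    · exact absurd (phi_commute.1 (h1 _ _ (phi_commute.2 hC) (phi_commute.2 hD))) hCD

end

end Pool.Agent.BraidRep
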