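import Pool.Agent.Lib.GeoOrig.CurvePartner

/-!
# The triples of a family with Bellingeri's relations, and five moving points
-/

namespace Pool.Agent.BraidRep

section

variable {g m n : ℕ} {H : Type*} [Group H] {A : Fin n → Fin n → H}

/-- If for every moving point `v` the `A i v` and `A v i` are all trivial or have a trivial
centraliser, then there are a set `S` of punctures and a set `T` of moving points such that the
generators not attached to `S`, `T` and handles are trivial, and the triples which consist of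
elements of `S` and `T`, two of them in `T`, do not commute. -/
theorem CurveBraid.triples (h : CurveBraid g m A)
    (hN : ∀ v : Fin n, m ≤ v.val → (∀ i, i ≠ v → sy A i v = 1) ∨
      ∀ x : H, (∀ i, i ≠ v → Commute x (sy A i v)) → x = 1) :
    ∃ S T : Finset (Fin n), (∀ k ∈ S, 2 * g ≤ k.val ∧ k.val < m) ∧ (∀ v ∈ T, m ≤ v.val) ∧
      (∀ v ∈ T, ∃ i, i ≠ v ∧ sy A i v ≠ 1) ∧
      (∀ i j, i < j → m ≤ j.val → (j ∉ T ∨ (m ≤ i.val ∧ i ∉ T) ∨
        (2 * g ≤ i.val ∧ i.val < m ∧ i ∉ S)) → A i j = 1) ∧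
      (∀ v ∈ T, ∀ w ∈ T, v ≠ w → sy A v w ≠ 1) ∧
      ∀ v ∈ T, ∀ w ∈ T, v ≠ w → ∀ k, k ∈ S ∨ (k ∈ T ∧ k ≠ v ∧ k ≠ w) → ¬ Tr A k v w := by
  classical
  have hle := h.le
  let T : Finset (Fin n) := Finset.univ.filter fun v => m ≤ v.val ∧ ∃ i, i ≠ v ∧ sy A i v ≠ 1
  let S : Finset (Fin n) := Finset.univ.filter fun k => 2 * g ≤ k.val ∧ k.val < m ∧
    ∃ v ∈ T, sy A k v ≠ 1
  have hT : ∀ {v}, v ∈ T → m ≤ v.val ∧ (∃ i, i ≠ v ∧ sy A i v ≠ 1) ∧
      ∀ x : H, (∀ i, i ≠ v → Commute x (sy A i v)) → x = 1 := by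
    intro v hv
    obtain ⟨-, h1, i, h2, h3⟩ := Finset.mem_filter.1 hv
    refine ⟨h1, ⟨i, h2, h3⟩, fun x hx => ?_⟩
    rcases hN v h1 with h4 | h4
    · exact absurd (h4 i h2) h3
    · exact h4 x hx
  have hTn : ∀ {v}, m ≤ v.val → v ∉ T → ∀ i, i ≠ v → sy A i v = 1 := by
    intro v hv hvT i hi
    by_contra hcon
    exact hvT (Finset.mem_filter.2 ⟨Finset.mem_univ _, hv, i, hi, hcon⟩)
  have claimA : ∀ {v w}, v ∈ T → w ∈ T → v ≠ w → sy A v w ≠ 1 := by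
    intro v w hv hw hvw h1
    obtain ⟨hv1, ⟨i, hi, hi'⟩, -⟩ := hT hv
    obtain ⟨hw1, -, hw2⟩ := hT hw
    apply hi'
    apply hw2
    intro l hl
    exact h.comm_of_one hv1 hw1 hvw h1 i l hi hl
  have claimB : ∀ {k v w}, v ∈ T → w ∈ T → v ≠ w → k ≠ v → k ≠ w → 2 * g ≤ k.val →
      Tr A k v w → sy A k v = 1 := by
    intro k v w hv hw hvw hkv hkw hk ht
    obtain ⟨hv1, -, -⟩ := hT hv
    obtain ⟨hw1, -, hw2⟩ := hT hw
    apply hw2
    intro l hl
    exact h.central hv1 hw1 hvw hkv hkw hk ht l hl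
  have claimC : ∀ {k v w}, v ∈ T → w ∈ T → v ≠ w → k ∈ S → ¬ Tr A k v w := by
    intro k v w hv hw hvw hk ht
    obtain ⟨-, hk1, hk2, u, hu, huk⟩ := Finset.mem_filter.1 hk
    have hv1 := (hT hv).1
    have hw1 := (hT hw).1
    have hu1 := (hT hu).1
    have hkm : ∀ {x : Fin n}, m ≤ x.val → k ≠ x := by
      rintro x hx rfl
      omega
    have b1 : sy A k v = 1 := claimB hv hw hvw (hkm hv1) (hkm hw1) hk1 ht
    by_cases huv : v = u
    · rw [← huv] at huk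
      exact huk b1
    · have b2 : Tr A k v u := h.tr_of_one hv1 hu1 huv (hkm hv1) (hkm hu1) (Or.inr b1)
      exact huk (claimB hu hv (Ne.symm huv) (hkm hu1) (hkm hv1) hk1 b2.swap')
  refine ⟨S, T, fun k hk => ?_, fun v hv => (hT hv).1, fun v hv => (hT hv).2.1,
    fun i j hij hj hcase => ?_, fun v hv w hw hvw => claimA hv hw hvw,
    fun v hv w hw hvw k hk ht => ?_⟩
  · obtain ⟨-, h1, h2, -⟩ := Finset.mem_filter.1 hk
    exact ⟨h1, h2⟩
  · have hij' : i ≠ j := hij.ne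
    have e1 : A i j = sy A i j := by rw [sy_of_lt hij]
    rw [e1]
    rcases hcase with h1 | ⟨h1, h2⟩ | ⟨h1, h2, h3⟩
    · exact hTn hj h1 i hij'
    · rw [sy_comm]
      exact hTn h1 h2 j hij'.symm
    · by_cases hjT : j ∈ T
      · by_contra hcon
        exact h3 (Finset.mem_filter.2 ⟨Finset.mem_univ _, h1, h2, j, hjT, hcon⟩)
      · exact hTn hj hjT i hij'
  · rcases hk with hk | ⟨hk, hkv, hkw⟩
    · exact claimC hv hw hvw hk ht
    · have hk1 := (hT hk).1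
      exact claimA hk hv hkv (claimB hv hw hvw hkv hkw (by omega) ht)

/-- A subfamily which consists of moving points. -/
theorem CurveBraid.sub (h : CurveBraid g m A) {k : ℕ} (e : Fin k → Fin n)
    (he : ∀ a b, a < b → e a < e b) (hm : ∀ a, m ≤ (e a).val) :
    CurveBraid 0 0 (fun a b => A (e a) (e b)) := by
  have hle := h.le
  have hh : ∀ a b, ¬ Handle g (e a) (e b) := fun a b hab => by
    have h1 := hab.lt.1
    have h2 := hm a
    omega
  refine ⟨le_rfl, fun r s i j _ h1 h2 h3 => h.disj _ _ _ _ (hm s) (he _ _ h1) (he _ _ h2)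
    (he _ _ h3), fun i r s j _ _ h1 h2 h3 => h.nest _ _ _ _ (hm s) (hh i r) (he _ _ h1)
    (he _ _ h2) (he _ _ h3), fun r s j _ h1 h2 => h.adj _ _ _ (hm s) (he _ _ h1) (he _ _ h2),
    fun r s j _ h1 h2 => h.same _ _ _ (hm s) (he _ _ h1) (he _ _ h2),
    fun r i s j _ _ h1 h2 h3 => h.cross _ _ _ _ (hm s) (hh r i) (he _ _ h1) (he _ _ h2)
    (he _ _ h3), fun i k s j _ hik => ?_, fun i k s j _ hik => ?_⟩
  · obtain ⟨t, ht, -⟩ := hik
    omega
  · obtain ⟨t, ht, -⟩ := hik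
    omega

private theorem conj_shift {w x y : H} (hw : Commute w y) (h : Commute (w * x * w⁻¹) y) :
    Commute x y := by
  have h1 : x = w⁻¹ * (w * x * w⁻¹) * w := by group
  rw [h1]
  exact (hw.inv_left.mul_left h).mul_left hw

/-- For five moving points every generator commutes with two elements which do not commute. -/
theorem CurveBraid.five {B : Fin 5 → Fin 5 → H} (h : CurveBraid 0 0 B)
    (hn : ∀ i j k, i < j → j < k → ¬ Commute (B i j) (B i k) ∧ ¬ Commute (B i j) (B j k) ∧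
      ¬ Commute (B i k) (B j k)) (i j : Fin 5) (hij : i < j) :
    ∃ C D : H, Commute C (B i j) ∧ Commute D (B i j) ∧ ¬ Commute C D := by
  have dj : ∀ r s i j : Fin 5, r < s → s < i → i < j → Commute (B r s) (B i j) :=
    fun r s i j h1 h2 h3 => commute_of_conj (h.disj r s i j (Nat.zero_le _) h1 h2 h3)
  have nohandle : ∀ i j : Fin 5, ¬ Handle 0 i j := by
    rintro i j ⟨t, ht, -⟩
    omega
  have ne : ∀ i r s j : Fin 5, i < r → r < s → s < j → Commute (B r s) (B i j) :=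
    fun i r s j h1 h2 h3 =>
      commute_of_conj (h.nest i r s j (Nat.zero_le _) (nohandle i r) h1 h2 h3)
  have cr : ∀ r i s j : Fin 5, r < i → i < s → s < j →
      Commute (B r s) ((B s j)⁻¹ * B i j * B s j) :=
    fun r i s j h1 h2 h3 => h.conjD (Nat.zero_le _) (nohandle r i) h1 h2 h3
  have sm : ∀ k s j : Fin 5, k < s → s < j →
      B k s * B k j * (B k s)⁻¹ = (B s j)⁻¹ * B k j * B s j :=
    fun k s j h1 h2 => h.sameD (Nat.zero_le _) h1 h2
  have cc : ∀ {c x y : H}, Commute y (c⁻¹ * x * c) → Commute (c * y * c⁻¹) x := by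
    intro c x y hy
    have h1 : x = c * (c⁻¹ * x * c) * c⁻¹ := by group
    rw [h1]
    show c * y * c⁻¹ * (c * (c⁻¹ * x * c) * c⁻¹) = c * (c⁻¹ * x * c) * c⁻¹ * (c * y * c⁻¹)
    calc c * y * c⁻¹ * (c * (c⁻¹ * x * c) * c⁻¹) = c * (y * (c⁻¹ * x * c)) * c⁻¹ := by group
      _ = c * ((c⁻¹ * x * c) * y) * c⁻¹ := by rw [hy.eq]
      _ = _ := by group
  have key : (i = 0 ∧ j = 1) ∨ (i = 1 ∧ j = 2) ∨ (i = 2 ∧ j = 3) ∨ (i = 3 ∧ j = 4) ∨
      (i = 0 ∧ j = 4) ∨ (i = 0 ∧ j = 2) ∨ (i = 1 ∧ j = 3) ∨ (i = 0 ∧ j = 3) ∨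
      (i = 1 ∧ j = 4) ∨ (i = 2 ∧ j = 4) := by
    revert i j; decide
  rcases key with ⟨rfl, rfl⟩ | ⟨rfl, rfl⟩ | ⟨rfl, rfl⟩ | ⟨rfl, rfl⟩ | ⟨rfl, rfl⟩ | ⟨rfl, rfl⟩ |
    ⟨rfl, rfl⟩ | ⟨rfl, rfl⟩ | ⟨rfl, rfl⟩ | ⟨rfl, rfl⟩
  · exact ⟨B 2 3, B 3 4, (dj 0 1 2 3 (by decide) (by decide) (by decide)).symm,
      (dj 0 1 3 4 (by decide) (by decide) (by decide)).symm,
      (hn 2 3 4 (by decide) (by decide)).2.1⟩
  · exact ⟨B 0 3, B 0 4, (ne 0 1 2 3 (by decide) (by decide) (by decide)).symm,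
      (ne 0 1 2 4 (by decide) (by decide) (by decide)).symm,
      (hn 0 3 4 (by decide) (by decide)).1⟩
  · exact ⟨B 0 1, B 0 4, dj 0 1 2 3 (by decide) (by decide) (by decide),
      (ne 0 2 3 4 (by decide) (by decide) (by decide)).symm,
      (hn 0 1 4 (by decide) (by decide)).1⟩
  · exact ⟨B 0 1, B 1 2, dj 0 1 3 4 (by decide) (by decide) (by decide),
      dj 1 2 3 4 (by decide) (by decide) (by decide),
      (hn 0 1 2 (by decide) (by decide)).2.1⟩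
  · exact ⟨B 1 2, B 2 3, ne 0 1 2 4 (by decide) (by decide) (by decide),
      ne 0 2 3 4 (by decide) (by decide) (by decide),
      (hn 1 2 3 (by decide) (by decide)).2.1⟩
  · -- `0 2`
    refine ⟨B 3 4, (B 2 3)⁻¹ * B 1 3 * B 2 3,
      (dj 0 2 3 4 (by decide) (by decide) (by decide)).symm,
      (cr 0 1 2 3 (by decide) (by decide) (by decide)).symm, fun hc => ?_⟩
    rw [← sm 1 2 3 (by decide) (by decide)] at hc
    exact (hn 1 3 4 (by decide) (by decide)).2.1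
      (conj_shift (dj 1 2 3 4 (by decide) (by decide) (by decide)) hc.symm)
  · -- `1 3`
    refine ⟨B 0 4, B 2 3 * B 0 2 * (B 2 3)⁻¹,
      (ne 0 1 3 4 (by decide) (by decide) (by decide)).symm,
      cc (cr 0 1 2 3 (by decide) (by decide) (by decide)), fun hc => ?_⟩
    exact (hn 0 2 4 (by decide) (by decide)).1
      (conj_shift (ne 0 2 3 4 (by decide) (by decide) (by decide)) hc.symm)
  · -- `0 3`
    refine ⟨B 1 2, (B 3 4)⁻¹ * B 1 4 * B 3 4, ne 0 1 2 3 (by decide) (by decide) (by decide),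
      (cr 0 1 3 4 (by decide) (by decide) (by decide)).symm, fun hc => ?_⟩
    have h1 : Commute (B 3 4)⁻¹ (B 1 2) :=
      (dj 1 2 3 4 (by decide) (by decide) (by decide)).symm.inv_left
    have h2 : Commute (B 1 4) (B 1 2) := by
      refine conj_shift h1 ?_
      rw [inv_inv]
      exact hc.symm
    exact (hn 1 2 4 (by decide) (by decide)).1 h2.symm
  · -- `1 4`
    refine ⟨B 2 3, (B 1 3 * B 2 3)⁻¹ * B 0 3 * (B 1 3 * B 2 3),
      ne 1 2 3 4 (by decide) (by decide) (by decide), ?_, fun hc => ?_⟩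
    · have h1 : (B 1 3 * B 2 3) * B 1 4 * (B 1 3 * B 2 3)⁻¹ =
          (B 3 4)⁻¹ * B 1 4 * B 3 4 := by
        have h2 := ne 1 2 3 4 (by decide) (by decide) (by decide)
        calc (B 1 3 * B 2 3) * B 1 4 * (B 1 3 * B 2 3)⁻¹ =
            B 1 3 * (B 2 3 * B 1 4) * (B 2 3)⁻¹ * (B 1 3)⁻¹ := by group
          _ = B 1 3 * B 1 4 * (B 1 3)⁻¹ := by rw [h2.eq]; group
          _ = _ := sm 1 3 4 (by decide) (by decide)
      have h3 := cr 0 1 3 4 (by decide) (by decide) (by decide)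
      have h4 : B 1 4 = (B 1 3 * B 2 3)⁻¹ * ((B 3 4)⁻¹ * B 1 4 * B 3 4) *
          (B 1 3 * B 2 3) := by rw [← h1]; group
      rw [h4]
      show (B 1 3 * B 2 3)⁻¹ * B 0 3 * (B 1 3 * B 2 3) *
        ((B 1 3 * B 2 3)⁻¹ * ((B 3 4)⁻¹ * B 1 4 * B 3 4) * (B 1 3 * B 2 3)) =
        (B 1 3 * B 2 3)⁻¹ * ((B 3 4)⁻¹ * B 1 4 * B 3 4) * (B 1 3 * B 2 3) *
        ((B 1 3 * B 2 3)⁻¹ * B 0 3 * (B 1 3 * B 2 3))
      calc (B 1 3 * B 2 3)⁻¹ * B 0 3 * (B 1 3 * B 2 3) *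
          ((B 1 3 * B 2 3)⁻¹ * ((B 3 4)⁻¹ * B 1 4 * B 3 4) * (B 1 3 * B 2 3)) =
          (B 1 3 * B 2 3)⁻¹ * (B 0 3 * ((B 3 4)⁻¹ * B 1 4 * B 3 4)) * (B 1 3 * B 2 3) := by
            group
        _ = (B 1 3 * B 2 3)⁻¹ * (((B 3 4)⁻¹ * B 1 4 * B 3 4) * B 0 3) *
            (B 1 3 * B 2 3) := by rw [h3.eq]
        _ = _ := by group
    · -- conjugate by `B 1 3 * B 2 3`
      have h1 : Commute (B 0 3) (B 1 3 * B 2 3 * (B 1 3)⁻¹) := by
        show B 0 3 * (B 1 3 * B 2 3 * (B 1 3)⁻¹) = B 1 3 * B 2 3 * (B 1 3)⁻¹ * B 0 3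
        calc B 0 3 * (B 1 3 * B 2 3 * (B 1 3)⁻¹) =
            (B 1 3 * B 2 3) * (((B 1 3 * B 2 3)⁻¹ * B 0 3 * (B 1 3 * B 2 3)) * B 2 3) *
              (B 1 3 * B 2 3)⁻¹ := by group
          _ = (B 1 3 * B 2 3) * (B 2 3 * ((B 1 3 * B 2 3)⁻¹ * B 0 3 * (B 1 3 * B 2 3))) *
              (B 1 3 * B 2 3)⁻¹ := by rw [hc.eq]
          _ = _ := by group
      have h2 := h.adj 1 2 3 (Nat.zero_le _) (by decide) (by decide)
      rw [← h2] at h1
      have h3 : Commute (B 1 2) (B 0 3) := ne 0 1 2 3 (by decide) (by decide) (by decide)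
      have h4 : Commute (B 2 3) (B 0 3) := by
        refine conj_shift (w := (B 1 2)⁻¹) h3.inv_left ?_
        rw [inv_inv]
        exact h1.symm
      exact (hn 0 2 3 (by decide) (by decide)).2.2 h4.symm
  · -- `2 4`
    refine ⟨B 0 1, B 3 4 * B 0 3 * (B 3 4)⁻¹, dj 0 1 2 4 (by decide) (by decide) (by decide),
      cc (cr 0 2 3 4 (by decide) (by decide) (by decide)), fun hc => ?_⟩
    exact (hn 0 1 3 (by decide) (by decide)).1
      (conj_shift (dj 0 1 3 4 (by decide) (by decide) (by decide)).symm hc.symm).symm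

end

end Pool.Agent.BraidRep
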