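import Pool.Agent.Lib.GeoOrig.CurveBraid

/-!
# The moving points on which a homomorphism depends

`A` is a family which satisfies Bellingeri's relations in a group `H` (in the application, the
image in a projective linear group). For a moving point `v` the elements `sy A i v` generate the
image of the kernel of the map which forgets `v`.
-/

namespace Pool.Agent.BraidRep

section

variable {g m n : ℕ} {H : Type*} [Group H] {A : Fin n → Fin n → H}

/-- Two chords with different fixed ends, and different moving ends. -/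
theorem CurveBraid.nonmov (h : CurveBraid g m A) {k l v w : Fin n} (hv : m ≤ v.val)
    (hw : m ≤ w.val) (hvw : v ≠ w) (hk : k.val < m) (hl : l.val < m) (hkl : k ≠ l)
    (hn : ¬ Handle g k l) (hn' : ¬ Handle g l k) (ht : Tr A k v w) :
    Commute (A k v) (A l w) := by
  have hkv : k < v := Fin.lt_def.2 (by omega)
  have hkw : k < w := Fin.lt_def.2 (by omega)
  have hlv : l < v := Fin.lt_def.2 (by omega)
  have hlw : l < w := Fin.lt_def.2 (by omega)
  obtain ⟨t1, t2, t3⟩ := ht
  rw [sy_of_lt hkv] at t2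
  rw [sy_of_lt hkw] at t3
  rcases lt_or_gt_of_ne hvw with h1 | h1
  · rw [sy_of_lt h1] at t3
    rcases lt_or_gt_of_ne hkl with h2 | h2
    · apply commute_of_conj
      rw [h.cross k l v w hv hn h2 hlv h1]
      have h3 : A k w * A v w * (A k w)⁻¹ * (A v w)⁻¹ = 1 := by
        rw [t3.eq]
        group
      rw [h3, one_mul, inv_one, mul_one]
    · exact commute_of_conj (h.nest l k v w hv hn' h2 hkv h1)
  · rw [sy_of_gt h1] at t2
    rcases lt_or_gt_of_ne hkl with h2 | h2
    · exact (commute_of_conj (h.nest k l w v hw hn h2 hlw h1)).symm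
    · have h3 : (A w v)⁻¹ * A k v * A w v = A k v := by
        rw [mul_assoc, t2.eq]
        group
      have h4 : Commute (A l w) ((A w v)⁻¹ * A k v * A w v) := by
        have h5 := h.cross l k w v hw hn' h2 hkw h1
        have h6 := h.adj l w v hw hlw h1
        apply commute_of_conj
        calc (A l w)⁻¹ * ((A w v)⁻¹ * A k v * A w v) * A l w =
            ((A l w)⁻¹ * A w v * A l w)⁻¹ * ((A l w)⁻¹ * A k v * A l w) *
              ((A l w)⁻¹ * A w v * A l w) := by group
          _ = _ := by rw [h5, h6]; group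
      rw [h3] at h4
      exact h4.symm

/-- A commuting triple `k, v, w`, where `v` and `w` are moving and `k` is not a handle. -/
theorem CurveBraid.central (h : CurveBraid g m A) {k v w : Fin n} (hv : m ≤ v.val)
    (hw : m ≤ w.val) (hvw : v ≠ w) (hkv : k ≠ v) (hkw : k ≠ w) (hk : 2 * g ≤ k.val)
    (ht : Tr A k v w) (l : Fin n) (hl : l ≠ w) : Commute (sy A k v) (sy A l w) := by
  by_cases hlk : l = k
  · rw [hlk]
    exact ht.1
  by_cases hlv : l = v
  · rw [hlv]
    exact ht.2.1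
  by_cases hm : m ≤ k.val ∨ m ≤ l.val
  · have hfl := h.surface.fl
    refine hfl.opp hkv hl (Ne.symm hlk) hkw (Ne.symm hlv) hvw (Or.inr hv) (Or.inr hw) (Or.inl ?_)
      (Or.inr (Or.inl ⟨Or.inr (Or.inr ⟨hv, hw⟩), ht⟩))
    unfold Mv3
    omega
  · push Not at hm
    obtain ⟨hm1, hm2⟩ := hm
    rw [sy_of_lt (Fin.lt_def.2 (by omega) : k < v), sy_of_lt (Fin.lt_def.2 (by omega) : l < w)]
    refine h.nonmov hv hw hvw hm1 hm2 (Ne.symm hlk) (fun hh => ?_) (fun hh => ?_) ht
    · have := hh.lt.1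
      omega
    · have := hh.lt.2
      omega

/-- If one of the generators attached to a triple is trivial then the triple commutes. -/
theorem CurveBraid.tr_of_one (h : CurveBraid g m A) {k v w : Fin n} (hv : m ≤ v.val)
    (hw : m ≤ w.val) (hvw : v ≠ w) (hkv : k ≠ v) (hkw : k ≠ w)
    (h1 : sy A v w = 1 ∨ sy A k v = 1) : Tr A k v w := by
  have hfl := h.surface.fl
  rcases h1 with h1 | h1
  · have h2 : Tr A v w k := hfl.tr_of_commute (Or.inl ⟨hv, hw⟩) hvw hkv.symm hkw.symm
      (by rw [h1]; exact Commute.one_left _)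
    exact h2.swap'.swap
  · exact hfl.tr_of_commute (Or.inr (Or.inr ⟨hv, hw⟩)) hkv hkw hvw
      (by rw [h1]; exact Commute.one_left _)

/-- If the generator attached to two moving points is trivial, then the subgroups attached to the
two points commute. -/
theorem CurveBraid.comm_of_one (h : CurveBraid g m A) {v w : Fin n} (hv : m ≤ v.val)
    (hw : m ≤ w.val) (hvw : v ≠ w) (h1 : sy A v w = 1) (k l : Fin n) (hk : k ≠ v) (hl : l ≠ w) :
    Commute (sy A k v) (sy A l w) := by
  by_cases hkw : k = w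
  · rw [hkw, sy_comm, h1]
    exact Commute.one_left _
  have ht : Tr A k v w := h.tr_of_one hv hw hvw hk hkw (Or.inl h1)
  by_cases hlk : l = k
  · rw [hlk]
    exact ht.1
  by_cases hlv : l = v
  · rw [hlv]
    exact ht.2.1
  by_cases hm : m ≤ k.val ∨ m ≤ l.val
  · have hfl := h.surface.fl
    refine hfl.opp hk hl (Ne.symm hlk) hkw (Ne.symm hlv) hvw (Or.inr hv) (Or.inr hw) (Or.inl ?_)
      (Or.inr (Or.inl ⟨Or.inr (Or.inr ⟨hv, hw⟩), ht⟩))
    unfold Mv3
    omega
  push Not at hm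
  obtain ⟨hm1, hm2⟩ := hm
  rw [sy_of_lt (Fin.lt_def.2 (by omega) : k < v), sy_of_lt (Fin.lt_def.2 (by omega) : l < w)]
  -- the two loops of a handle
  have key : ∀ {i i' s j : Fin n}, Handle g i i' → m ≤ s.val → s < j → A s j = 1 →
      Commute (A i' s) (A i j) ∧ Commute (A i s) (A i' j) := by
    intro i i' s j hh hs hsj h2
    have e1 := h.er1 i i' s j hs hh hsj
    have e2 := h.er2 i i' s j hs hh hsj
    rw [h2] at e1 e2
    refine ⟨commute_of_conj ?_, commute_of_conj ?_⟩
    · rw [e1]; group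
    · rw [e2]; group
  by_cases hh : Handle g k l
  · rcases lt_or_gt_of_ne hvw with h2 | h2
    · rw [sy_of_lt h2] at h1
      exact (key hh hv h2 h1).2
    · rw [sy_of_gt h2] at h1
      exact (key hh hw h2 h1).1.symm
  by_cases hh' : Handle g l k
  · rcases lt_or_gt_of_ne hvw with h2 | h2
    · rw [sy_of_lt h2] at h1
      exact (key hh' hv h2 h1).1
    · rw [sy_of_gt h2] at h1
      exact (key hh' hw h2 h1).2.symm
  exact h.nonmov hv hw hvw hm1 hm2 (Ne.symm hlk) hh hh' ht

/-- Let `A` satisfy Bellingeri's relations in a group `P` and let `τ` be a homomorphism from `P`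
to a group `H` such that the number of noncommuting triples is bounded, and such that for every
moving point `v` the `τ (A i v)` and `τ (A v j)` are all trivial or have a trivial centraliser. -/
theorem CurveBraid.typeOf {P : Type*} [Group P] {A : Fin n → Fin n → P}
    (h : CurveBraid g m A) (τ : P →* H) {N : ℕ}
    (hB : ∀ s j, m ≤ s.val → s < j → τ (A s j) ≠ 1 → ∀ U : Finset (Fin n),
      (∀ k ∈ U, 2 * g ≤ k.val ∧ k < s ∧ ¬ Commute (τ (A k s)) (τ (A k j))) →
        2 * g + U.card ≤ N)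
    (hN : ∀ v : Fin n, m ≤ v.val → (∀ i, i ≠ v → τ (sy A i v) = 1) ∨
      ∀ x : H, (∀ i, i ≠ v → Commute x (τ (sy A i v))) → x = 1) :
    ∃ S T : Finset (Fin n), (∀ k ∈ S, 2 * g ≤ k.val ∧ k.val < m) ∧ (∀ v ∈ T, m ≤ v.val) ∧
      (T.card ≤ 1 ∨ 2 * g + S.card + T.card ≤ N + 2) ∧
      ∀ i j, i < j → m ≤ j.val → (j ∉ T ∨ (m ≤ i.val ∧ i ∉ T) ∨
        (2 * g ≤ i.val ∧ i.val < m ∧ i ∉ S)) → τ (A i j) = 1 := by
  classical
  have hle := h.le
  let Ā : Fin n → Fin n → H := fun i j => τ (A i j)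
  have hĀ : CurveBraid g m Ā := h.map τ
  have hsy : ∀ i j, sy Ā i j = τ (sy A i j) := by
    intro i j
    unfold sy
    split_ifs <;> rfl
  let T : Finset (Fin n) := Finset.univ.filter fun v => m ≤ v.val ∧ ∃ i, i ≠ v ∧ sy Ā i v ≠ 1
  let S : Finset (Fin n) := Finset.univ.filter fun k => 2 * g ≤ k.val ∧ k.val < m ∧
    ∃ v ∈ T, sy Ā k v ≠ 1
  have hT : ∀ {v}, v ∈ T → m ≤ v.val ∧ (∃ i, i ≠ v ∧ sy Ā i v ≠ 1) ∧
      ∀ x : H, (∀ i, i ≠ v → Commute x (sy Ā i v)) → x = 1 := by
    intro v hv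
    obtain ⟨-, h1, i, h2, h3⟩ := Finset.mem_filter.1 hv
    refine ⟨h1, ⟨i, h2, h3⟩, fun x hx => ?_⟩
    rcases hN v h1 with h4 | h4
    · exact absurd (by rw [hsy]; exact h4 i h2) h3
    · exact h4 x fun i hi => by rw [← hsy]; exact hx i hi
  have hTn : ∀ {v}, m ≤ v.val → v ∉ T → ∀ i, i ≠ v → sy Ā i v = 1 := by
    intro v hv hvT i hi
    by_contra hcon
    exact hvT (Finset.mem_filter.2 ⟨Finset.mem_univ _, hv, i, hi, hcon⟩)
  have claimA : ∀ {v w}, v ∈ T → w ∈ T → v ≠ w → sy Ā v w ≠ 1 := by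
    intro v w hv hw hvw h1
    obtain ⟨hv1, ⟨i, hi, hi'⟩, -⟩ := hT hv
    obtain ⟨hw1, -, hw2⟩ := hT hw
    apply hi'
    apply hw2
    intro l hl
    exact hĀ.comm_of_one hv1 hw1 hvw h1 i l hi hl
  have claimB : ∀ {k v w}, v ∈ T → w ∈ T → v ≠ w → k ≠ v → k ≠ w → 2 * g ≤ k.val →
      Tr Ā k v w → sy Ā k v = 1 := by
    intro k v w hv hw hvw hkv hkw hk ht
    obtain ⟨hv1, -, -⟩ := hT hv
    obtain ⟨hw1, -, hw2⟩ := hT hw
    apply hw2
    intro l hl
    exact hĀ.central hv1 hw1 hvw hkv hkw hk ht l hl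
  have claimC : ∀ {k v w}, v ∈ T → w ∈ T → v ≠ w → k ∈ S → ¬ Tr Ā k v w := by
    intro k v w hv hw hvw hk ht
    obtain ⟨-, hk1, hk2, u, hu, huk⟩ := Finset.mem_filter.1 hk
    have hv1 := (hT hv).1
    have hw1 := (hT hw).1
    have hu1 := (hT hu).1
    have hkm : ∀ {x : Fin n}, m ≤ x.val → k ≠ x := by
      rintro x hx rfl
      omega
    have b1 : sy Ā k v = 1 := claimB hv hw hvw (hkm hv1) (hkm hw1) hk1 ht
    by_cases huv : v = u
    · rw [← huv] at huk
      exact huk b1
    · have b2 : Tr Ā k v u := hĀ.tr_of_one hv1 hu1 huv (hkm hv1) (hkm hu1) (Or.inr b1)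
      exact huk (claimB hu hv (Ne.symm huv) (hkm hu1) (hkm hv1) hk1 b2.swap')
  refine ⟨S, T, fun k hk => ?_, fun v hv => (hT hv).1, ?_, fun i j hij hj hcase => ?_⟩
  · obtain ⟨-, h1, h2, -⟩ := Finset.mem_filter.1 hk
    exact ⟨h1, h2⟩
  · by_cases hT1 : T.card ≤ 1
    · exact Or.inl hT1
    right
    push Not at hT1
    have hTne : T.Nonempty := Finset.card_pos.1 (by omega)
    let s := T.max' hTne
    have hs : s ∈ T := T.max'_mem hTne
    have hT'card : (T.erase s).card = T.card - 1 := Finset.card_erase_of_mem hs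
    have hT'ne : (T.erase s).Nonempty := Finset.card_pos.1 (by omega)
    let j := (T.erase s).max' hT'ne
    have hj : j ∈ T.erase s := (T.erase s).max'_mem hT'ne
    have hjT : j ∈ T := Finset.mem_of_mem_erase hj
    have hjs' : j ≠ s := Finset.ne_of_mem_erase hj
    have hjs : j < s := lt_of_le_of_ne (T.le_max' j hjT) hjs'
    have hj1 := (hT hjT).1
    have hs1 := (hT hs).1
    have hne : τ (A j s) ≠ 1 := by
      intro h2
      apply claimA hjT hs hjs'
      rw [hsy, sy_of_lt hjs, h2]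
    have hdisj : Disjoint S ((T.erase s).erase j) := by
      rw [Finset.disjoint_left]
      intro k hk hk'
      obtain ⟨-, -, h2, -⟩ := Finset.mem_filter.1 hk
      have h3 := (hT (Finset.mem_of_mem_erase (Finset.mem_of_mem_erase hk'))).1
      omega
    have hnc : ∀ k, k < j → ¬ Tr Ā k j s → ¬ Commute (τ (A k j)) (τ (A k s)) := by
      intro k hkj hnt hc
      apply hnt
      refine hĀ.surface.fl.tr_of_commute (Or.inr (Or.inr ⟨hj1, hs1⟩)) hkj.ne
        (hkj.trans hjs).ne hjs' ?_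
      rw [sy_of_lt hkj, sy_of_lt (hkj.trans hjs)]
      exact hc
    have hb := hB j s hj1 hjs hne (S ∪ (T.erase s).erase j) (by
      intro k hk
      rcases Finset.mem_union.1 hk with hk | hk
      · obtain ⟨-, h2, h3, -⟩ := Finset.mem_filter.1 hk
        have hkj : k < j := Fin.lt_def.2 (by omega)
        exact ⟨h2, hkj, hnc k hkj (claimC hjT hs hjs' hk)⟩
      · have hk2 := Finset.mem_of_mem_erase hk
        have hkj' : k ≠ j := Finset.ne_of_mem_erase hk
        have hks' : k ≠ s := Finset.ne_of_mem_erase hk2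
        have hkT : k ∈ T := Finset.mem_of_mem_erase hk2
        have hk1 := (hT hkT).1
        have hkj : k < j := lt_of_le_of_ne ((T.erase s).le_max' k hk2) hkj'
        refine ⟨by omega, hkj, hnc k hkj fun ht => ?_⟩
        exact claimA hkT hjT hkj' (claimB hjT hs hjs' hkj' hks' (by omega) ht))
    rw [Finset.card_union_of_disjoint hdisj, Finset.card_erase_of_mem
      (Finset.mem_erase.2 ⟨hjs', hjT⟩), hT'card] at hb
    omega
  · have hij' : i ≠ j := hij.ne
    have e1 : τ (A i j) = sy Ā i j := by rw [hsy, sy_of_lt hij]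
    rw [e1]
    rcases hcase with h1 | ⟨h1, h2⟩ | ⟨h1, h2, h3⟩
    · exact hTn hj h1 i hij'
    · rw [sy_comm]
      exact hTn h1 h2 j hij'.symm
    · by_cases hjT : j ∈ T
      · by_contra hcon
        exact h3 (Finset.mem_filter.2 ⟨Finset.mem_univ _, h1, h2, j, hjT, hcon⟩)
      · exact hTn hj hjT i hij'

/-- Let `A` satisfy Bellingeri's relations in a group `P`, let `ρ` be a homomorphism from `P` to a
group `G` in which skew systems have length at most `N`, and let `τ` be a homomorphism from `P` to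
a group `H` which is trivial on the kernel of `ρ`, such that for every moving point `v` the
`τ (A i v)` and `τ (A v j)` are all trivial or have a trivial centraliser. -/
theorem CurveBraid.type {P G : Type*} [Group P] [Group G] {A : Fin n → Fin n → P}
    (h : CurveBraid g m A) (ρ : P →* G) {C : Set G} {N : ℕ}
    (hC : ∀ i j, i < j → m ≤ j.val → ρ (A i j) ∈ C) (hconj : ∀ b ∈ C, ∀ x, x⁻¹ * b * x ∈ C)
    (hsk : SkewOn C N) (τ : P →* H) (hker : ∀ x, ρ x = 1 → τ x = 1)
    (hN : ∀ v : Fin n, m ≤ v.val → (∀ i, i ≠ v → τ (sy A i v) = 1) ∨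
      ∀ x : H, (∀ i, i ≠ v → Commute x (τ (sy A i v))) → x = 1) :
    ∃ S T : Finset (Fin n), (∀ k ∈ S, 2 * g ≤ k.val ∧ k.val < m) ∧ (∀ v ∈ T, m ≤ v.val) ∧
      (T.card ≤ 1 ∨ 2 * g + S.card + T.card ≤ N + 2) ∧
      ∀ i j, i < j → m ≤ j.val → (j ∉ T ∨ (m ≤ i.val ∧ i ∉ T) ∨
        (2 * g ≤ i.val ∧ i.val < m ∧ i ∉ S)) → τ (A i j) = 1 := by
  refine h.typeOf τ (fun s j hs hsj h1 U hU => ?_) hN
  refine (h.map ρ).bound hC hconj hsk hs hsj (fun h2 => h1 (hker _ h2)) U fun k hk => ?_
  obtain ⟨a1, a2, a3⟩ := hU k hk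
  refine ⟨a1, a2, fun hc => a3 ?_⟩
  have h2 : τ (A k s * A k j * (A k s)⁻¹ * (A k j)⁻¹) = 1 := by
    apply hker
    rw [map_mul, map_mul, map_mul, map_inv, map_inv, hc.eq]
    group
  rw [map_mul, map_mul, map_mul, map_inv, map_inv, mul_inv_eq_one, mul_inv_eq_iff_eq_mul] at h2
  exact h2

end

end Pool.Agent.BraidRep
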