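import Pool.Agent.Lib.GeoOrig.PGLTwo
import Pool.Agent.Lib.GeoOrig.CurveType

/-!
# Configurations on curves of positive genus and `PGL₂`

If the images in `PGL₂` of the generators `A i j`, where `i` is a puncture or a moving point, do not
have order two, then there are no noncommuting triples except in genus zero and no two moving
points with a nontrivial generator in genus at least two.
-/

namespace Pool.Agent.BraidRep

open Matrix

section

variable {K : Type*} [Field K]

/-- `PGL₂` -/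

private theorem conj_one {G : Type*} [Group G] {b x c : G} (h : b * x * b⁻¹ = x * c)
    (hc : Commute b x) : c = 1 := by
  have h8 : b * x * b⁻¹ = x := by rw [hc.eq]; group
  rw [h] at h8
  exact mul_eq_left.1 h8

/-- One handle and one puncture or moving point. -/
private theorem one_handle (h2 : (2 : K) ≠ 0) {a b x y c z : (GL (Fin 2) K ⧸ Subgroup.center (GL (Fin 2) K))} (hc : c ≠ 1) (hz : z ^ 2 ≠ 1)
    (hzx : Commute z x) (hzy : Commute z y) (r1 : b * x * b⁻¹ = x * c)
    (r2 : b * y * b⁻¹ = c⁻¹ * y * c) (r3 : Commute (b⁻¹ * a * b) x)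
    (r4 : (b⁻¹ * a * b)⁻¹ * y * (b⁻¹ * a * b) = y * c) : False := by
  have hTy : ¬ Commute (b⁻¹ * a * b) y := by
    intro h
    apply hc
    have h9 : (b⁻¹ * a * b)⁻¹ * y * (b⁻¹ * a * b) = y := by
      rw [mul_assoc, ← h.eq]
      group
    rw [r4] at h9
    exact mul_eq_left.1 h9
  have hcb : Commute (c * b) y := by
    have h3 : c * b * y * (c * b)⁻¹ = y := by
      calc c * b * y * (c * b)⁻¹ = c * (b * y * b⁻¹) * c⁻¹ := by group
        _ = y := by rw [r2]; group
    exact mul_inv_eq_iff_eq_mul.1 h3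
  have hx1 : x ≠ 1 := by
    rintro rfl
    apply hc
    have h3 : (1 : (GL (Fin 2) K ⧸ Subgroup.center (GL (Fin 2) K))) = c := by
      calc (1 : (GL (Fin 2) K ⧸ Subgroup.center (GL (Fin 2) K))) = b * 1 * b⁻¹ := by group
        _ = c := by rw [r1, one_mul]
    exact h3.symm
  have hy1 : y ≠ 1 := by
    rintro rfl
    exact hTy (Commute.one_right _)
  by_cases hx : x ^ 2 = 1
  · by_cases hy : y ^ 2 = 1
    · -- two involutions commuting with `z`
      have hxy : x = y := pg_unique h2 hz hzx hzy hx hy hx1 hy1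
      rw [← hxy, r1] at r2
      apply hc
      have h3 : x = c⁻¹ * x := mul_right_cancel r2
      have h4 : c⁻¹ = 1 := mul_eq_right.1 h3.symm
      exact inv_eq_one.1 h4
    · -- `c b` and `z` commute with `y`
      have h3 : Commute (c * b) z := pg_comm hy hcb.symm hzy.symm
      have h4 : Commute (c * b) x := pg_comm hz h3.symm hzx
      apply hc
      have h5 : c * b * x * (c * b)⁻¹ = x := by rw [h4.eq]; group
      have h6 : c * b * x * (c * b)⁻¹ = c * x := by
        calc c * b * x * (c * b)⁻¹ = c * (b * x * b⁻¹) * c⁻¹ := by group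
          _ = c * x := by rw [r1]; group
      rw [h6] at h5
      exact mul_eq_right.1 h5
  · have h3 : Commute (b⁻¹ * a * b) z := pg_comm hx r3.symm hzx.symm
    exact hTy (pg_comm hz h3.symm hzy)

/-- Two handles. -/
private theorem two_handles (h2 : (2 : K) ≠ 0) {a b x y a' b' x' y' c : (GL (Fin 2) K ⧸ Subgroup.center (GL (Fin 2) K))} (hc : c ^ 2 ≠ 1)
    (r1 : b * x * b⁻¹ = x * c) (r2 : b * y * b⁻¹ = c⁻¹ * y * c)
    (r3 : Commute (b⁻¹ * a * b) x) (r4 : (b⁻¹ * a * b)⁻¹ * y * (b⁻¹ * a * b) = y * c)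
    (r1' : b' * x' * b'⁻¹ = x' * c) (r2' : b' * y' * b'⁻¹ = c⁻¹ * y' * c)
    (r3' : Commute (b'⁻¹ * a' * b') x')
    (r4' : (b'⁻¹ * a' * b')⁻¹ * y' * (b'⁻¹ * a' * b') = y' * c)
    (r5' : a'⁻¹ * (x' * c) * a' = x' * c) (r6' : b'⁻¹ * (y' * c) * b' = y' * c)
    (hax : Commute a' x) (hay : Commute a' y) (hbx : Commute b' x) (hby : Commute b' y) :
    False := by
  have hc1 : c ≠ 1 := by
    rintro rfl
    exact hc (one_pow 2)
  have hTy' : ¬ Commute (b'⁻¹ * a' * b') y' := by
    intro h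
    apply hc1
    have h9 : (b'⁻¹ * a' * b')⁻¹ * y' * (b'⁻¹ * a' * b') = y' := by
      rw [mul_assoc, ← h.eq]
      group
    rw [r4'] at h9
    exact mul_eq_left.1 h9
  have hbx' : ¬ Commute b' x' := fun h => hc1 (conj_one r1' h)
  have hT1 : b'⁻¹ * a' * b' ≠ 1 := by
    intro h
    apply hTy'
    rw [h]
    exact Commute.one_left _
  have hb1 : b' ≠ 1 := by
    intro h
    apply hbx'
    rw [h]
    exact Commute.one_left _
  have hne : b'⁻¹ * a' * b' ≠ b' := by
    intro h
    apply hbx'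
    rw [← h]
    exact r3'
  have hTx : Commute (b'⁻¹ * a' * b') x := (hbx.inv_left.mul_left hax).mul_left hbx
  have hTy : Commute (b'⁻¹ * a' * b') y := (hby.inv_left.mul_left hay).mul_left hby
  -- an element which commutes with `x` and `y` is an involution
  have key : ∀ z : (GL (Fin 2) K ⧸ Subgroup.center (GL (Fin 2) K)), Commute z x → Commute z y → z ^ 2 = 1 := by
    intro z hzx hzy
    by_contra hz
    exact one_handle h2 hc1 hz hzx hzy r1 r2 r3 r4
  have hT2 := key _ hTx hTy
  have hb2 := key _ hbx hby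
  have hx2 : x ^ 2 = 1 := by
    by_contra hx
    exact hne (pg_unique h2 hx hTx.symm hbx.symm hT2 hb2 hT1 hb1)
  have hy2 : y ^ 2 = 1 := by
    by_contra hy
    exact hne (pg_unique h2 hy hTy.symm hby.symm hT2 hb2 hT1 hb1)
  have hx1 : x ≠ 1 := by
    rintro rfl
    apply hc1
    have h3 : (1 : (GL (Fin 2) K ⧸ Subgroup.center (GL (Fin 2) K))) = c := by
      calc (1 : (GL (Fin 2) K ⧸ Subgroup.center (GL (Fin 2) K))) = b * 1 * b⁻¹ := by group
        _ = c := by rw [r1, one_mul]
    exact h3.symm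
  have hy1 : y ≠ 1 := by
    rintro rfl
    apply hc1
    have h3 : (1 : (GL (Fin 2) K ⧸ Subgroup.center (GL (Fin 2) K))) = c := by
      calc (1 : (GL (Fin 2) K ⧸ Subgroup.center (GL (Fin 2) K))) = (b⁻¹ * a * b)⁻¹ * 1 * (b⁻¹ * a * b) := by group
        _ = c := by rw [r4, one_mul]
    exact h3.symm
  have hxy : x ≠ y := by
    intro hxy
    rw [← hxy, r1] at r2
    have h3 : x = c⁻¹ * x := mul_right_cancel r2
    have h4 : c⁻¹ = 1 := mul_eq_right.1 h3.symm
    exact hc1 (inv_eq_one.1 h4)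
  have hxx : x * x = 1 := by rw [← pow_two]; exact hx2
  have hyy : y * y = 1 := by rw [← pow_two]; exact hy2
  -- `x` and `y` invert `c`
  have hxc : x * c * x = c⁻¹ := by
    have h3 : (x * c) * (x * c) = 1 := by
      rw [← r1]
      calc b * x * b⁻¹ * (b * x * b⁻¹) = b * (x * x) * b⁻¹ := by group
        _ = 1 := by rw [hxx]; group
    calc x * c * x = (x * c) * (x * c) * c⁻¹ := by group
      _ = c⁻¹ := by rw [h3, one_mul]
  have hyc : y * c * y = c⁻¹ := by
    have h3 : (y * c) * (y * c) = 1 := by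
      rw [← r4]
      calc (b⁻¹ * a * b)⁻¹ * y * (b⁻¹ * a * b) * ((b⁻¹ * a * b)⁻¹ * y * (b⁻¹ * a * b)) =
          (b⁻¹ * a * b)⁻¹ * (y * y) * (b⁻¹ * a * b) := by group
        _ = 1 := by rw [hyy]; group
    calc y * c * y = (y * c) * (y * c) * c⁻¹ := by group
      _ = c⁻¹ := by rw [h3, one_mul]
  have hcc : c ≠ c⁻¹ := by
    intro h
    apply hc
    rw [pow_two]
    nth_rewrite 1 [h]
    exact inv_mul_cancel c
  have hnxc : ¬ Commute x c := by
    intro h
    apply hcc
    rw [← hxc, h.eq, mul_assoc, hxx, mul_one]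
  have hnyc : ¬ Commute y c := by
    intro h
    apply hcc
    rw [← hyc, h.eq, mul_assoc, hyy, mul_one]
  have hwc : Commute (x * y) c := by
    have h3 : y * c = c⁻¹ * y := by
      calc y * c = y * c * (y * y) := by rw [hyy, mul_one]
        _ = y * c * y * y := by group
        _ = c⁻¹ * y := by rw [hyc]
    have h4 : x * c⁻¹ = c * x := by
      calc x * c⁻¹ = x * (x * c * x) := by rw [hxc]
        _ = (x * x) * (c * x) := by group
        _ = c * x := by rw [hxx, one_mul]
    show x * y * c = c * (x * y)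
    rw [mul_assoc, h3, ← mul_assoc, h4, mul_assoc]
  by_cases hw : (x * y) ^ 2 = 1
  swap
  · -- `x y` is not an involution
    have h3 : Commute c b' := pg_comm hw hwc (hbx.mul_right hby).symm
    have h4 : Commute c (b'⁻¹ * a' * b') := pg_comm hw hwc (hTx.mul_right hTy).symm
    exact hne (pg_unique h2 hc h4 h3 hT2 hb2 hT1 hb1)
  -- a Klein four group
  have hcxy : Commute x y := by
    have h3 : x * y * (x * y) = 1 := by rw [← pow_two]; exact hw
    show x * y = y * x
    calc x * y = x * y * (x * x) := by rw [hxx, mul_one]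
      _ = x * y * (x * (y * y) * x) := by rw [hyy, mul_one]
      _ = (x * y * (x * y)) * (y * x) := by group
      _ = y * x := by rw [h3, one_mul]
  have ha1 : a' ≠ 1 := by
    rintro rfl
    apply hT1
    group
  have hka := pg_klein h2 hx2 hy2 hx1 hy1 hxy hcxy hax hay
  have hkb := pg_klein h2 hx2 hy2 hx1 hy1 hxy hcxy hbx hby
  -- `a'` and `b'` commute
  have hcomm : Commute b' a' := by
    have hV : ∀ u : (GL (Fin 2) K ⧸ Subgroup.center (GL (Fin 2) K)), (u = 1 ∨ u = x ∨ u = y ∨ u = x * y) → Commute b' u := by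
      rintro u (rfl | rfl | rfl | rfl)
      · exact Commute.one_right _
      · exact hbx
      · exact hby
      · exact hbx.mul_right hby
    exact hV a' hka
  have hTa : b'⁻¹ * a' * b' = a' := by
    rw [mul_assoc, ← hcomm.eq]
    group
  rw [hTa] at r3' r4' hTy'
  have hac : Commute a' c := by
    have h3 : x' * (a'⁻¹ * c * a') = x' * c := by
      calc x' * (a'⁻¹ * c * a') = a'⁻¹ * (a' * x') * a'⁻¹ * c * a' := by group
        _ = a'⁻¹ * (x' * a') * a'⁻¹ * c * a' := by rw [r3'.eq]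
        _ = a'⁻¹ * (x' * c) * a' := by group
        _ = x' * c := r5'
    exact commute_of_conj (mul_left_cancel h3)
  have ha : a' = x * y := by
    rcases hka with h | h | h | h
    · exact absurd h ha1
    · exact absurd (h ▸ hac) hnxc
    · exact absurd (h ▸ hac) hnyc
    · exact h
  have hbinv : b' * c * b'⁻¹ = c⁻¹ := by
    rcases hkb with h | h | h | h
    · exact absurd h hb1
    · rw [h, inv_eq_of_mul_eq_one_left hxx]
      exact hxc
    · rw [h, inv_eq_of_mul_eq_one_left hyy]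
      exact hyc
    · exfalso
      apply hbx'
      rw [h, ← ha]
      exact r3'
  -- `y'` inverts `c`
  have hyinv : y' * c * y'⁻¹ = c⁻¹ := by
    have h3 : b' * (y' * c) * b'⁻¹ = y' * c := by
      calc b' * (y' * c) * b'⁻¹ = b' * (b'⁻¹ * (y' * c) * b') * b'⁻¹ := by rw [r6']
        _ = y' * c := by group
    have h4 : c⁻¹ * y' * c * c⁻¹ = y' * c := by
      calc c⁻¹ * y' * c * c⁻¹ = (b' * y' * b'⁻¹) * (b' * c * b'⁻¹) := by rw [r2', hbinv]
        _ = b' * (y' * c) * b'⁻¹ := by group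
        _ = y' * c := h3
    calc y' * c * y'⁻¹ = c⁻¹ * y' * c * c⁻¹ * y'⁻¹ := by rw [h4]
      _ = c⁻¹ := by group
  apply hTy'
  -- `a'` is the only involution which commutes with `c`
  have ha2 : a' ^ 2 = 1 := by rw [ha]; exact hw
  have h5 : Commute c (y' * a' * y'⁻¹) := by
    have h6 : y'⁻¹ * c * y' = c⁻¹ := by
      have h7 : c = y'⁻¹ * c⁻¹ * y' := by rw [← hyinv]; group
      calc y'⁻¹ * c * y' = (y'⁻¹ * c⁻¹ * y')⁻¹ := by group
        _ = c⁻¹ := by rw [← h7]
    have h8 : c = y' * c⁻¹ * y'⁻¹ := by rw [← h6]; group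
    show c * (y' * a' * y'⁻¹) = y' * a' * y'⁻¹ * c
    calc c * (y' * a' * y'⁻¹) = y' * c⁻¹ * y'⁻¹ * (y' * a' * y'⁻¹) := by rw [← h8]
      _ = y' * (c⁻¹ * a') * y'⁻¹ := by group
      _ = y' * (a' * c⁻¹) * y'⁻¹ := by rw [(hac.inv_right).eq]
      _ = y' * a' * y'⁻¹ * (y' * c⁻¹ * y'⁻¹) := by group
      _ = y' * a' * y'⁻¹ * c := by rw [← h8]
  have h6 : a' = y' * a' * y'⁻¹ := by
    refine pg_unique h2 hc hac.symm h5 ha2 ?_ ha1 ?_
    · calc (y' * a' * y'⁻¹) ^ 2 = y' * a' ^ 2 * y'⁻¹ := by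
            rw [pow_two, pow_two]
            group
        _ = 1 := by rw [ha2]; group
    · intro h7
      apply ha1
      calc a' = y'⁻¹ * (y' * a' * y'⁻¹) * y' := by group
        _ = 1 := by rw [h7]; group
  show a' * y' = y' * a'
  calc a' * y' = y' * a' * y'⁻¹ * y' := by rw [← h6]
    _ = y' * a' := by group


/-- The bound for `PGL₂` if the images of the local generators do not have order two. -/
theorem CurveBraid.bound_pg {g m n : ℕ} {A : Fin n → Fin n → (GL (Fin 2) K ⧸ Subgroup.center (GL (Fin 2) K))} (h2 : (2 : K) ≠ 0)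
    (h : CurveBraid g m A)
    (hC : ∀ i j, 2 * g ≤ i.val → i < j → m ≤ j.val → A i j ^ 2 = 1 → A i j = 1)
    {s j : Fin n} (hs : m ≤ s.val) (hsj : s < j) (h1 : A s j ≠ 1) (U : Finset (Fin n))
    (hU : ∀ k ∈ U, 2 * g ≤ k.val ∧ k < s ∧ ¬ Commute (A k s) (A k j)) :
    2 * g + U.card ≤ 2 := by
  have hle := h.le
  have hjm : m ≤ j.val := hs.trans (Fin.lt_def.1 hsj).le
  have hsn := s.2
  by_cases hg : g = 0
  · subst hg
    exact h.bound (C := {x | x ^ 2 = 1 → x = 1}) (fun i j => hC i j (by omega))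
      (fun b hb x => ct_pgl.conj b hb x) ct_pgl.skewOn hs hsj h1 U hU
  have hc2 : A s j ^ 2 ≠ 1 := fun h3 => h1 (hC s j (by omega) hsj hjm h3)
  have hU0 : U = ∅ := by
    rw [Finset.eq_empty_iff_forall_notMem]
    intro k hk
    obtain ⟨a1, a2, a3⟩ := hU k hk
    let i0 : Fin n := ⟨0, by omega⟩
    let i1 : Fin n := ⟨1, by omega⟩
    have hh : Handle g i0 i1 := ⟨0, by omega, rfl, rfl⟩
    obtain ⟨r1, r2, r4, -, -⟩ := h.handle_rel hs hh hsj
    have r3 := (h.handle_calc hs hh hsj).2.1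
    have hz1 : A k s ≠ 1 := by
      intro h3
      apply a3
      rw [h3]
      exact Commute.one_left _
    have hz : A k s ^ 2 ≠ 1 := fun h3 => hz1 (hC k s a1 a2 hs h3)
    have nest : ∀ i : Fin n, i.val < 2 * g → Commute (A k s) (A i j) := by
      intro i hi
      apply commute_of_conj
      refine h.nest i k s j hs (fun hh' => ?_) (Fin.lt_def.2 (by omega)) a2 hsj
      have := hh'.lt.2
      omega
    exact one_handle h2 h1 hz (nest i0 (by show 0 < 2 * g; omega))
      (nest i1 (by show 1 < 2 * g; omega)) r1 r2 r3 r4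
  rw [hU0, Finset.card_empty, add_zero]
  by_contra hcon
  let i0 : Fin n := ⟨0, by omega⟩
  let i1 : Fin n := ⟨1, by omega⟩
  let i2 : Fin n := ⟨2, by omega⟩
  let i3 : Fin n := ⟨3, by omega⟩
  have hh : Handle g i0 i1 := ⟨0, by omega, rfl, rfl⟩
  have hh' : Handle g i2 i3 := ⟨1, by omega, rfl, rfl⟩
  obtain ⟨r1, r2, r4, -, -⟩ := h.handle_rel hs hh hsj
  have r3 := (h.handle_calc hs hh hsj).2.1
  obtain ⟨r1', r2', r4', r5', r6'⟩ := h.handle_rel hs hh' hsj
  have r3' := (h.handle_calc hs hh' hsj).2.1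
  have nest : ∀ i k : Fin n, i.val < 2 → 2 ≤ k.val → k.val < 4 → Commute (A k s) (A i j) := by
    intro i k hi hk hk'
    apply commute_of_conj
    refine h.nest i k s j hs (fun hh'' => ?_) (Fin.lt_def.2 (by omega))
      (Fin.lt_def.2 (by omega)) hsj
    obtain ⟨t, h3, h4, h5⟩ := hh''
    omega
  exact two_handles h2 hc2 r1 r2 r3 r4 r1' r2' r3' r4' r5' r6'
    (nest i0 i2 (by show 0 < 2; omega) (by show 2 ≤ 2; omega) (by show 2 < 4; omega))
    (nest i1 i2 (by show 1 < 2; omega) (by show 2 ≤ 2; omega) (by show 2 < 4; omega))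
    (nest i0 i3 (by show 0 < 2; omega) (by show 2 ≤ 3; omega) (by show 3 < 4; omega))
    (nest i1 i3 (by show 1 < 2; omega) (by show 2 ≤ 3; omega) (by show 3 < 4; omega))

end

end Pool.Agent.BraidRep
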