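import Pool.Agent.Lib.GeoOrig.Ind

/-!
# Module DEC: decomposition into tensor-indecomposable representations
-/

namespace Pool.Agent.GeoOrig

open Matrix Topology
open scoped Kronecker

variable {K : Type*} [NontriviallyNormedField K] {P : Type*} [Group P] [TopologicalSpace P]
  [IsTopologicalGroup P] [CompactSpace P] [TotallyDisconnectedSpace P]

/-- The tensor product of matrices, indexed by functions; general finite index set. -/
def tens {ι : Type*} [Fintype ι] {d : ι → ℕ} (A : ∀ i, Matrix (Fin (d i)) (Fin (d i)) K) :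
    Matrix (∀ i, Fin (d i)) (∀ i, Fin (d i)) K :=
  Matrix.of fun k j => ∏ i, A i (k i) (j i)

/-- `σ` is on `V` equivalent to a tensor product of tensor-indecomposable representations. -/
def Dec {D : ℕ} (V : Subgroup P) (σ : P → Matrix (Fin D) (Fin D) K) : Prop :=
  ∃ (ι : Type) (_ : Fintype ι) (_ : DecidableEq ι) (d : ι → ℕ)
    (f : ∀ i, P → Matrix (Fin (d i)) (Fin (d i)) K),
    (∀ i, 2 ≤ d i ∧ LieIrr V (f i) ∧ TPrime V (f i)) ∧ EqvOn V σ (fun v => tens fun i => f i v)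

omit [IsTopologicalGroup P] [CompactSpace P] [TotallyDisconnectedSpace P] in
theorem Dec.mono {D : ℕ} {V W : Subgroup P} {σ : P → Matrix (Fin D) (Fin D) K} (h : Dec V σ)
    (hW : W ≤ V) : Dec W σ := by
  obtain ⟨ι, h1, h2, d, f, h3, h4⟩ := h
  exact ⟨ι, h1, h2, d, f, fun i => ⟨(h3 i).1, (h3 i).2.1.mono hW, (h3 i).2.2.mono hW⟩,
    h4.mono hW⟩

omit [IsTopologicalGroup P] [CompactSpace P] [TotallyDisconnectedSpace P] in
theorem dec_one {D : ℕ} (hD : D = 1) {V : Subgroup P} {σ : P → Matrix (Fin D) (Fin D) K}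
    (hσ : LieIrr V σ) : Dec V σ := by
  refine ⟨Empty, inferInstance, inferInstance, fun i => i.elim, fun i => i.elim,
    fun i => i.elim, ?_⟩
  subst hD
  let e : (∀ i : Empty, Fin ((fun i => i.elim : Empty → ℕ) i)) ≃ Fin 1 :=
    Equiv.ofUnique _ _
  refine (eqvOn_submatrix σ e).congr_right fun v hv => ?_
  ext k j
  rw [eq_one_of_det rfl (hσ.det v hv)]
  rw [Subsingleton.elim k j]
  simp [tens]

omit [IsTopologicalGroup P] [CompactSpace P] [TotallyDisconnectedSpace P] in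
theorem dec_prime {D : ℕ} (hD : 2 ≤ D) {V : Subgroup P} {σ : P → Matrix (Fin D) (Fin D) K}
    (hσ : LieIrr V σ) (hp : TPrime V σ) : Dec V σ := by
  refine ⟨Unit, inferInstance, inferInstance, fun _ => D, fun _ => σ,
    fun _ => ⟨hD, hσ, hp⟩, ?_⟩
  let e : (Unit → Fin D) ≃ Fin D := Equiv.funUnique Unit (Fin D)
  refine (eqvOn_submatrix σ e).congr_right fun v hv => ?_
  ext k j
  simp [tens, e]

omit [IsTopologicalGroup P] [CompactSpace P] [TotallyDisconnectedSpace P] in
theorem dec_kron {D a b : ℕ} {V : Subgroup P} {σ : P → Matrix (Fin D) (Fin D) K}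
    {α : P → Matrix (Fin a) (Fin a) K} {β : P → Matrix (Fin b) (Fin b) K}
    (h : EqvOn V σ (fun v => α v ⊗ₖ β v)) (hα : Dec V α) (hβ : Dec V β) : Dec V σ := by
  obtain ⟨ι₁, i1, i2, d₁, f₁, h3, h4⟩ := hα
  obtain ⟨ι₂, i3, i4, d₂, f₂, h3', h4'⟩ := hβ
  let d : ι₁ ⊕ ι₂ → ℕ := Sum.elim d₁ d₂
  let f : ∀ i : ι₁ ⊕ ι₂, P → Matrix (Fin (d i)) (Fin (d i)) K := fun i =>
    match i with
    | .inl i => f₁ i
    | .inr i => f₂ i
  refine ⟨ι₁ ⊕ ι₂, inferInstance, inferInstance, d, f, ?_, ?_⟩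
  · rintro (i | i)
    · exact h3 i
    · exact h3' i
  · let e : (∀ i, Fin (d i)) ≃ (∀ i, Fin (d₁ i)) × (∀ i, Fin (d₂ i)) :=
      Equiv.sumPiEquivProdPi fun i => Fin (d i)
    have h5 := h.trans (h4.kron h4')
    refine (h5.trans (eqvOn_submatrix _ e)).congr_right fun v hv => ?_
    ext k j
    simp only [Matrix.submatrix_apply, Matrix.kroneckerMap_apply, tens, Matrix.of_apply]
    rw [Fintype.prod_sum_type]
    rfl

omit [IsTopologicalGroup P] [CompactSpace P] [TotallyDisconnectedSpace P] in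
/-- Every Lie-irreducible representation is virtually a tensor product of tensor-indecomposable
Lie-irreducible representations. -/
theorem decomp (D : ℕ) : ∀ (V : Subgroup P) (_ : IsOpen (V : Set P))
    (σ : P → Matrix (Fin D) (Fin D) K) (_ : 0 < D) (_ : LieIrr V σ),
    ∃ W : Subgroup P, W ≤ V ∧ IsOpen (W : Set P) ∧ Dec W σ := by
  induction D using Nat.strong_induction_on with
  | _ D ih =>
    intro V hV σ hD hσ
    by_cases h1 : D = 1
    · exact ⟨V, le_rfl, hV, dec_one h1 hσ⟩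
    by_cases h2 : TPrime V σ
    · exact ⟨V, le_rfl, hV, dec_prime (by omega) hσ h2⟩
    simp only [TPrime, not_forall, not_not] at h2
    obtain ⟨W, hWV, hWo, a, b, ha, hb, α, β, hα, hβ, heqv⟩ := h2
    have hab : D = a * b := by
      have := heqv.card_eq
      rwa [Fintype.card_prod, Fintype.card_fin, Fintype.card_fin, Fintype.card_fin] at this
    obtain ⟨W₁, hW₁, hW₁o, hα'⟩ := ih a (by nlinarith) W hWo α (by omega) hα
    obtain ⟨W₂, hW₂, hW₂o, hβ'⟩ := ih b (by nlinarith) W₁ hW₁o β (by omega) (hβ.mono hW₁)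
    exact ⟨W₂, hW₂.trans (hW₁.trans hWV), hW₂o,
      dec_kron (heqv.mono (hW₂.trans hW₁)) (hα'.mono hW₂) hβ'⟩

omit [IsTopologicalGroup P] [CompactSpace P] [TotallyDisconnectedSpace P] in
/-- The same with an index set `Fin n`. -/
theorem Dec.toFin {D : ℕ} {V : Subgroup P} {σ : P → Matrix (Fin D) (Fin D) K} (h : Dec V σ) :
    ∃ (n : ℕ) (d : Fin n → ℕ) (f : ∀ i, P → Matrix (Fin (d i)) (Fin (d i)) K),
      (∀ i, 2 ≤ d i ∧ LieIrr V (f i) ∧ TPrime V (f i)) ∧
        EqvOn V σ (fun v => tens fun i => f i v) := by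
  obtain ⟨ι, i1, i2, d, f, h3, h4⟩ := h
  let e : Fin (Fintype.card ι) ≃ ι := (Fintype.equivFin ι).symm
  refine ⟨Fintype.card ι, fun i => d (e i), fun i => f (e i), fun i => h3 (e i), ?_⟩
  let E : (∀ i, Fin (d (e i))) ≃ (∀ j, Fin (d j)) := Equiv.piCongrLeft (fun j => Fin (d j)) e
  have hE : ∀ p i, E p (e i) = p i := fun p i =>
    Equiv.piCongrLeft_apply_apply (fun j => Fin (d j)) e p i
  refine (h4.trans (eqvOn_submatrix _ E)).congr_right fun v hv => ?_
  ext k j
  simp only [Matrix.submatrix_apply, tens, Matrix.of_apply]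
  rw [← Equiv.prod_comp e]
  simp only [hE]

end Pool.Agent.GeoOrig
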