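import Mathlib

/-!
# Definitions for the structure theorem on lisse sheaves (MP_80bee4_ag)

Everything is elementary: `P` is a profinite group, representations are given by functions
`P → Matrix n n K` which are multiplicative and continuous on a subgroup `U`.
-/

namespace Pool.Agent.GeoOrig

open Matrix

section

variable {K : Type*} [NontriviallyNormedField K] {P : Type*} [Group P] [TopologicalSpace P]

/-- `ρ` is a continuous matrix representation of the subgroup `U`
(its values outside of `U` play no role). -/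
structure RepOn {n : Type*} [Fintype n] [DecidableEq n] (U : Subgroup P)
    (ρ : P → Matrix n n K) : Prop where
  one : ρ 1 = 1
  mul : ∀ u ∈ U, ∀ v ∈ U, ρ (u * v) = ρ u * ρ v
  cont : ContinuousOn ρ (U : Set P)

variable (K) in
/-- Every continuous character of every open subgroup `U` has finite order on `U ∩ G`. -/
def CharFin (G : Subgroup P) : Prop :=
  ∀ U : Subgroup P, IsOpen (U : Set P) → ∀ χ : U →* Kˣ, Continuous χ →
    ∃ m : ℕ, 0 < m ∧ ∀ g : U, (g : P) ∈ G → χ g ^ m = 1

/-- Every subspace of `K ^ r` stable under the matrices of `S` has a stable complement. -/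
def SSOn {r : ℕ} (S : Set (Matrix (Fin r) (Fin r) K)) : Prop :=
  ∀ W : Submodule K (Fin r → K), (∀ A ∈ S, ∀ w ∈ W, A *ᵥ w ∈ W) →
    ∃ W' : Submodule K (Fin r → K), (∀ A ∈ S, ∀ w ∈ W', A *ᵥ w ∈ W') ∧ IsCompl W W'

/-- The relations of matrix units. -/
def MatUnits {r d : ℕ} (E : Fin d → Fin d → Matrix (Fin r) (Fin r) K) : Prop :=
  ∀ i j k l, E i j * E k l = if j = k then E i l else 0

/-- The image of the matrix `S` under the (nonunital) algebra homomorphism given by `E`. -/
def comb {r d : ℕ} (E : Fin d → Fin d → Matrix (Fin r) (Fin r) K)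
    (S : Matrix (Fin d) (Fin d) K) : Matrix (Fin r) (Fin r) K :=
  ∑ i, ∑ j, S i j • E i j

/-- The idempotent `∑ E i i`. -/
def unitOf {r d : ℕ} (E : Fin d → Fin d → Matrix (Fin r) (Fin r) K) :
    Matrix (Fin r) (Fin r) K :=
  ∑ i, E i i

/-- The tensor product of the square matrices `A i`, indexed by functions. -/
def piKron {n : ℕ} {d : Fin n → ℕ} (A : ∀ i, Matrix (Fin (d i)) (Fin (d i)) K) :
    Matrix (∀ i, Fin (d i)) (∀ i, Fin (d i)) K :=
  Matrix.of fun k j => ∏ i, A i (k i) (j i)

end

end Pool.Agent.GeoOrig
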