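import Pool.Agent.Lib.GeoOrig.Defs

/-!
# Module DET: the determinant of a sum of translates
-/

namespace Pool.Agent.GeoOrig

open Matrix

variable {K : Type*} [NontriviallyNormedField K] {P : Type*} [Group P]

/-- the index equivalence used to add one translate -/
private def detE (κ : Type) (n : ℕ) : (κ × Fin n) ⊕ κ ≃ κ × Fin (n + 1) :=
  ((Equiv.sumCongr (Equiv.refl (κ × Fin n)) (Equiv.prodUnique κ (Fin 1)).symm).trans
    (Equiv.prodSumDistrib κ (Fin n) (Fin 1)).symm).trans
      (Equiv.prodCongr (Equiv.refl κ) finSumFinEquiv)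

private theorem detE_inl {κ : Type} {n : ℕ} (j : κ) (i : Fin n) :
    detE κ n (Sum.inl (j, i)) = (j, Fin.castSucc i) := rfl

private theorem detE_inr {κ : Type} {n : ℕ} (j : κ) :
    detE κ n (Sum.inr j) = (j, Fin.last n) := by
  show (j, Fin.natAdd n (default : Fin 1)) = (j, Fin.last n)
  rfl

private theorem det_snoc {κ : Type} {V : Type*} [AddCommGroup V] [Module K V] {n : ℕ}
    (G : P → κ → V) (g : Fin n → P) (h : P)
    (hg : LinearIndependent K fun p : κ × Fin n => G (g p.2) p.1)
    (hh : LinearIndependent K (G h))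
    (hdis : Disjoint (Submodule.span K (Set.range fun p : κ × Fin n => G (g p.2) p.1))
      (Submodule.span K (Set.range (G h)))) :
    LinearIndependent K fun p : κ × Fin (n + 1) =>
      G ((Fin.snoc g h : Fin (n + 1) → P) p.2) p.1 := by
  have h2 := hg.sum_type hh hdis
  rw [← linearIndependent_equiv (detE κ n)]
  have h3 : (fun p : κ × Fin (n + 1) => G ((Fin.snoc g h : Fin (n + 1) → P) p.2) p.1) ∘
      (detE κ n) = Sum.elim (fun p : κ × Fin n => G (g p.2) p.1) (G h) := by
    funext x
    rcases x with ⟨j, i⟩ | j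
    · simp only [Function.comp_apply, Sum.elim_inl, detE_inl, Fin.snoc_castSucc]
    · simp only [Function.comp_apply, Sum.elim_inr, detE_inr, Fin.snoc_last]
  rw [h3]
  exact h2

private theorem det_span {κ : Type} [Fintype κ] [DecidableEq κ] {V : Type*} [AddCommGroup V]
    [Module K V] (W : Submodule K V) (v : κ → V) (c : κ → K) (S : Set (Matrix κ κ K))
    (hS : Submodule.span K S = ⊤) (h : ∀ M ∈ S, ∑ k, (M *ᵥ c) k • v k ∈ W) {l : κ}
    (hl : c l ≠ 0) (j : κ) : v j ∈ W := by
  have hev : ∀ M : Matrix κ κ K, ∑ k, (M *ᵥ c) k • v k ∈ W := by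
    intro M
    have hM : M ∈ Submodule.span K S := by
      rw [hS]
      exact Submodule.mem_top
    induction hM using Submodule.span_induction with
    | mem x hx => exact h x hx
    | zero =>
      simp only [Matrix.zero_mulVec, Pi.zero_apply, zero_smul, Finset.sum_const_zero]
      exact W.zero_mem
    | add x y _ _ hx hy =>
      simp only [Matrix.add_mulVec, Pi.add_apply, add_smul, Finset.sum_add_distrib]
      exact W.add_mem hx hy
    | smul a x _ hx =>
      simp only [Matrix.smul_mulVec, Pi.smul_apply, smul_eq_mul, mul_smul]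
      rw [← Finset.smul_sum]
      exact W.smul_mem a hx
  have h1 := hev (Matrix.single j l (c l)⁻¹)
  have h2 : ∑ k, (Matrix.single j l (c l)⁻¹ *ᵥ c) k • v k = v j := by
    rw [Finset.sum_eq_single j]
    · have h3 : (Matrix.single j l (c l)⁻¹ *ᵥ c) j = 1 := by
        rw [Matrix.mulVec, dotProduct, Finset.sum_eq_single l]
        · rw [Matrix.single_apply_same, inv_mul_cancel₀ hl]
        · intro b _ hb
          rw [Matrix.single_apply_of_ne, zero_mul]
          tauto
        · intro hb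
          exact absurd (Finset.mem_univ _) hb
      rw [h3, one_smul]
    · intro b _ hb
      have h3 : (Matrix.single j l (c l)⁻¹ *ᵥ c) b = 0 := by
        rw [Matrix.mulVec, dotProduct]
        refine Finset.sum_eq_zero fun i _ => ?_
        rw [Matrix.single_apply_of_ne, zero_mul]
        tauto
      rw [h3, zero_smul]
    · intro hb
      exact absurd (Finset.mem_univ _) hb
  rwa [h2] at h1

private theorem det_mulVec_sum {r : ℕ} {κ : Type} [Fintype κ] (A : Matrix (Fin r) (Fin r) K)
    (c : κ → K) (v : κ → (Fin r → K)) : A *ᵥ (∑ k, c k • v k) = ∑ k, c k • (A *ᵥ v k) := by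
  have h4 := map_sum (Matrix.mulVecLin A) (fun k => c k • v k) Finset.univ
  simp only [Matrix.mulVecLin_apply, Matrix.mulVec_smul] at h4
  exact h4

private theorem det_comb {r : ℕ} {κ : Type} [Fintype κ] (A : Matrix (Fin r) (Fin r) K)
    (c : κ → K) (v : κ → (Fin r → K)) (a : K) (M : Matrix κ κ K)
    (hA : ∀ j, A *ᵥ v j = ∑ k, (a * M k j) • v k) :
    A *ᵥ (∑ k, c k • v k) = a • ∑ k, (M *ᵥ c) k • v k := by
  rw [det_mulVec_sum]
  simp only [hA, Finset.smul_sum, smul_smul]
  rw [Finset.sum_comm]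
  refine Finset.sum_congr rfl fun k _ => ?_
  rw [← Finset.sum_smul]
  congr 1
  rw [Matrix.mulVec, dotProduct, Finset.mul_sum]
  refine Finset.sum_congr rfl fun i _ => ?_
  ring

private theorem det_block {r n : ℕ} {κ : Type} [Fintype κ] [DecidableEq κ]
    (b : Module.Basis (κ × Fin n) K (Fin r → K)) (A : Matrix (Fin r) (Fin r) K)
    (M : Fin n → Matrix κ κ K) (h : ∀ j i, A *ᵥ b (j, i) = ∑ k, M i k j • b (k, i)) :
    A.det = ∏ i, (M i).det := by
  have h1 : A.det = (LinearMap.toMatrix b b (Matrix.toLin' A)).det := by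
    rw [LinearMap.det_toMatrix, LinearMap.det_toLin']
  have h2 : LinearMap.toMatrix b b (Matrix.toLin' A) = Matrix.blockDiagonal M := by
    ext ⟨k, i'⟩ ⟨j, i⟩
    rw [LinearMap.toMatrix_apply, Matrix.blockDiagonal_apply, Matrix.toLin'_apply, h j i, map_sum,
      Finsupp.finset_sum_apply]
    simp only [map_smul, Finsupp.smul_apply, Module.Basis.repr_self, smul_eq_mul,
      Finsupp.single_apply, Prod.mk.injEq]
    by_cases hii : i' = i
    · subst hii
      rw [if_pos rfl, Finset.sum_eq_single k]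
      · simp
      · intro b' _ hb'
        rw [if_neg (by tauto), mul_zero]
      · intro hb'
        exact absurd (Finset.mem_univ _) hb'
    · rw [if_neg hii]
      refine Finset.sum_eq_zero fun b' _ => ?_
      rw [if_neg (by tauto), mul_zero]
  rw [h1, h2, Matrix.det_blockDiagonal]

private theorem det_max {Q : ℕ → Prop} {r : ℕ} (h0 : Q 0) (hr : ∀ n, Q n → n ≤ r) :
    ∃ n, Q n ∧ ¬ Q (n + 1) := by
  by_contra hcon
  push Not at hcon
  have h1 : ∀ n, Q n := by
    intro n
    induction n with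
    | zero => exact h0
    | succ n ih => exact hcon n ih
  exact absurd (hr (r + 1) (h1 _)) (by omega)

private theorem det_stable {r : ℕ} {ι : Type*} (A : Matrix (Fin r) (Fin r) K)
    (f : ι → (Fin r → K)) (W : Submodule K (Fin r → K)) (h : ∀ i, A *ᵥ f i ∈ W) :
    ∀ w ∈ Submodule.span K (Set.range f), A *ᵥ w ∈ W := by
  intro w hw
  induction hw using Submodule.span_induction with
  | mem x hx =>
    obtain ⟨i, rfl⟩ := hx
    exact h i
  | zero => rw [Matrix.mulVec_zero]; exact W.zero_mem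
  | add x y _ _ hx hy => rw [Matrix.mulVec_add]; exact W.add_mem hx hy
  | smul c x _ hx => rw [Matrix.mulVec_smul]; exact W.smul_mem c hx

/-- DET. `ρ` irreducible, `U` normal, `J` a basis of a subspace `V₀` on which `U` acts by
`χ u • Σ u` with `det (Σ u) = 1`, such that the matrices `Σ u` (`u ∈ U`) span all matrices (so `V₀` is
irreducible and stays so after translation by `ρ g`), and `χ` is invariant under conjugation by `P`.
Then a power of `χ` with positive exponent divides the determinant of `ρ`: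
`det (ρ u) = χ u ^ k`, `k > 0`.

Proof: choose a finite set `T` of elements of `P`, as large as possible such that the vectors
`ρ g *ᵥ J j` (`g ∈ T`, `j : κ`) are linearly independent. Their span is stable under `U`, and each
`ρ g V₀` is an irreducible `U`-module, so contained in the span by maximality; as `ρ` is irreducible,
the span is everything. In this basis `ρ u` is block diagonal with blocks
`χ (g⁻¹ u g) • Σ (g⁻¹ u g)`, so `det (ρ u) = ∏ g ∈ T, χ (g⁻¹ u g) ^ card κ = χ u ^ (card κ * card T)`. -/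
theorem det_eq_pow {r : ℕ} (hr : 0 < r) (ρ : P →* GL (Fin r) K)
    (hirr : ∀ W : Submodule K (Fin r → K),
      (∀ g, ∀ w ∈ W, (ρ g : Matrix (Fin r) (Fin r) K) *ᵥ w ∈ W) → W = ⊥ ∨ W = ⊤)
    {U : Subgroup P} (hUn : U.Normal) {κ : Type} [Fintype κ] [DecidableEq κ] [Nonempty κ]
    (Sg : P → Matrix κ κ K) (hdet : ∀ u ∈ U, (Sg u).det = 1)
    (hspan : Submodule.span K (Sg '' (U : Set P)) = ⊤) (χ : P → K)
    (hχ : ∀ g : P, ∀ u ∈ U, χ (g⁻¹ * u * g) = χ u) (hχ0 : ∀ u ∈ U, χ u ≠ 0)
    (J : κ → (Fin r → K)) (hJ : LinearIndependent K J)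
    (hact : ∀ u ∈ U, ∀ j, (ρ u : Matrix (Fin r) (Fin r) K) *ᵥ J j =
      ∑ k, (χ u * Sg u k j) • J k) :
    ∃ k : ℕ, 0 < k ∧ ∀ u ∈ U, (ρ u : Matrix (Fin r) (Fin r) K).det = χ u ^ k := by
  classical
  have hmulV : ∀ (g h : P) (w : Fin r → K), (ρ g : Matrix (Fin r) (Fin r) K) *ᵥ
      ((ρ h : Matrix (Fin r) (Fin r) K) *ᵥ w) = (ρ (g * h) : Matrix (Fin r) (Fin r) K) *ᵥ w := by
    intro g h w
    rw [Matrix.mulVec_mulVec, map_mul, Units.val_mul]
  have hinj : ∀ g : P, Function.Injective
      (Matrix.mulVecLin (ρ g : Matrix (Fin r) (Fin r) K)) := by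
    intro g v w hvw
    have h1 := congrArg (fun x => (ρ g⁻¹ : Matrix (Fin r) (Fin r) K) *ᵥ x) hvw
    simp only [Matrix.mulVecLin_apply, hmulV, inv_mul_cancel, map_one, Units.val_one,
      Matrix.one_mulVec] at h1
    exact h1
  -- the action of `U` on the translates
  have hactg : ∀ u ∈ U, ∀ h : P, ∀ j, (ρ u : Matrix (Fin r) (Fin r) K) *ᵥ
      ((ρ h : Matrix (Fin r) (Fin r) K) *ᵥ J j) = ∑ k, (χ (h⁻¹ * u * h) * Sg (h⁻¹ * u * h) k j) •
        ((ρ h : Matrix (Fin r) (Fin r) K) *ᵥ J k) := by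
    intro u hu h j
    have h1 : h⁻¹ * u * h ∈ U := by
      have := hUn.conj_mem u hu h⁻¹
      rwa [inv_inv] at this
    have h3 : u * h = h * (h⁻¹ * u * h) := by group
    rw [hmulV, h3, ← hmulV, hact _ h1 j, det_mulVec_sum]
  have hconj : ∀ g : P, ∀ u ∈ U, g⁻¹ * u * g ∈ U := by
    intro g u hu
    have := hUn.conj_mem u hu g⁻¹
    rwa [inv_inv] at this
  obtain ⟨G, hG⟩ : ∃ G : P → κ → (Fin r → K),
    ∀ g j, G g j = (ρ g : Matrix (Fin r) (Fin r) K) *ᵥ J j := ⟨_, fun _ _ => rfl⟩
  have hmulG : ∀ g h j, (ρ g : Matrix (Fin r) (Fin r) K) *ᵥ G h j = G (g * h) j := by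
    intro g h j
    rw [hG, hG, hmulV]
  have hactG : ∀ u ∈ U, ∀ h : P, ∀ j, (ρ u : Matrix (Fin r) (Fin r) K) *ᵥ G h j =
      ∑ k, (χ (h⁻¹ * u * h) * Sg (h⁻¹ * u * h) k j) • G h k := by
    intro u hu h j
    simp only [hG]
    exact hactg u hu h j
  have hGli : ∀ h, LinearIndependent K (G h) := by
    intro h
    have h1 : LinearMap.ker (Matrix.mulVecLin (ρ h : Matrix (Fin r) (Fin r) K)) = ⊥ :=
      LinearMap.ker_eq_bot.2 (hinj h)
    have h2 := hJ.map' _ h1
    have h3 : (Matrix.mulVecLin (ρ h : Matrix (Fin r) (Fin r) K)) ∘ J = G h := by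
      funext j
      rw [hG]
      rfl
    rwa [h3] at h2
  obtain ⟨n, ⟨g, hg⟩, hmax⟩ : ∃ n, (∃ g : Fin n → P,
      LinearIndependent K fun p : κ × Fin n => G (g p.2) p.1) ∧
      ¬ (∃ g : Fin (n + 1) → P,
        LinearIndependent K fun p : κ × Fin (n + 1) => G (g p.2) p.1) := by
    refine det_max (Q := fun n => ∃ g : Fin n → P,
      LinearIndependent K fun p : κ × Fin n => G (g p.2) p.1) (r := r) ?_ ?_
    · refine ⟨fun i => i.elim0, ?_⟩
      have : IsEmpty (κ × Fin 0) := inferInstance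
      exact linearIndependent_empty_type
    · rintro n ⟨g, hg⟩
      have h1 := hg.fintype_card_le_finrank
      rw [Fintype.card_prod, Fintype.card_fin, Module.finrank_fin_fun] at h1
      have h2 : 1 ≤ Fintype.card κ := Fintype.card_pos
      nlinarith
  obtain ⟨W, hW⟩ : ∃ W : Submodule K (Fin r → K),
    W = Submodule.span K (Set.range fun p : κ × Fin n => G (g p.2) p.1) := ⟨_, rfl⟩
  have hWU : ∀ u ∈ U, ∀ w ∈ W, (ρ u : Matrix (Fin r) (Fin r) K) *ᵥ w ∈ W := by
    intro u hu w hw
    rw [hW] at hw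
    refine det_stable _ _ W ?_ w hw
    rintro ⟨j, i⟩
    rw [hactG u hu]
    refine Submodule.sum_mem _ fun k _ => Submodule.smul_mem _ _ ?_
    rw [hW]
    exact Submodule.subset_span ⟨(k, i), rfl⟩
  -- each translate is contained in `W`
  have hall : ∀ h : P, ∀ j, G h j ∈ W := by
    intro h
    by_cases hdis : Disjoint W (Submodule.span K (Set.range (G h)))
    · exfalso
      rw [hW] at hdis
      exact hmax ⟨Fin.snoc g h, det_snoc G g h hg (hGli h) hdis⟩
    · rw [Submodule.disjoint_def] at hdis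
      push Not at hdis
      obtain ⟨w, hwW, hwh, hw0⟩ := hdis
      rw [Submodule.mem_span_range_iff_exists_fun] at hwh
      obtain ⟨c, hc⟩ := hwh
      have hc0 : ∃ l, c l ≠ 0 := by
        by_contra hcon
        push Not at hcon
        apply hw0
        rw [← hc]
        exact Finset.sum_eq_zero fun i _ => by rw [hcon i, zero_smul]
      obtain ⟨l, hl⟩ := hc0
      intro j
      refine det_span W (G h) c (Sg '' (U : Set P)) hspan ?_ hl j
      rintro _ ⟨u, hu, rfl⟩
      have hu' : h * u * h⁻¹ ∈ U := hUn.conj_mem u hu h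
      have h2 := hWU _ hu' w hwW
      have h6 : h⁻¹ * (h * u * h⁻¹) * h = u := by group
      have h3 := det_comb (ρ (h * u * h⁻¹) : Matrix (Fin r) (Fin r) K) c (G h) (χ u) (Sg u)
        (fun j => by rw [hactG _ hu' h j, h6])
      rw [hc] at h3
      rw [h3] at h2
      have h4 := W.smul_mem (χ u)⁻¹ h2
      rwa [smul_smul, inv_mul_cancel₀ (hχ0 u hu), one_smul] at h4
  have hWtop : W = ⊤ := by
    rcases hirr W (by
      intro h w hw
      rw [hW] at hw
      refine det_stable _ _ W ?_ w hw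
      rintro ⟨j, i⟩
      rw [hmulG]
      exact hall _ j) with h1 | h1
    · exfalso
      have j : κ := Classical.arbitrary κ
      have h2 := hall 1 j
      rw [h1, Submodule.mem_bot] at h2
      exact (hGli 1).ne_zero j h2
    · exact h1
  have hn0 : 0 < n := by
    rcases Nat.eq_zero_or_pos n with h0 | h0
    · exfalso
      subst h0
      have h1 : W = ⊥ := by
        rw [hW, Set.range_eq_empty, Submodule.span_empty]
      rw [h1] at hWtop
      have : Nonempty (Fin r) := ⟨⟨0, hr⟩⟩
      have : Nontrivial (Fin r → K) := inferInstance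
      exact bot_ne_top hWtop
    · exact h0
  refine ⟨Fintype.card κ * n, Nat.mul_pos Fintype.card_pos hn0, fun u hu => ?_⟩
  obtain ⟨b, hb⟩ : ∃ b : Module.Basis (κ × Fin n) K (Fin r → K), ∀ j i, b (j, i) = G (g i) j :=
    ⟨Module.Basis.mk hg (by rw [← hW, hWtop]), fun j i => Module.Basis.mk_apply _ _ _⟩
  rw [det_block b _ (fun i => χ u • Sg ((g i)⁻¹ * u * g i)) (by
    intro j i
    simp only [hb, Matrix.smul_apply, smul_eq_mul]
    rw [hactG u hu, hχ (g i) u hu])]
  have h3 : ∀ i : Fin n, (χ u • Sg ((g i)⁻¹ * u * g i)).det = χ u ^ Fintype.card κ := by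
    intro i
    rw [Matrix.det_smul, hdet _ (hconj _ u hu), mul_one]
  simp only [h3]
  rw [Finset.prod_const, Finset.card_univ, Fintype.card_fin, ← pow_mul]

end Pool.Agent.GeoOrig
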