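import Pool.Agent.Lib.GeoOrig.Defs

/-!
# Module EIG: common eigenvectors
-/

namespace Pool.Agent.GeoOrig

open Matrix

variable {K : Type*} [NontriviallyNormedField K]

private theorem eig_aux [IsAlgClosed K] {m : ℕ}
    (S : Set (Matrix (Fin m) (Fin m) K)) (hS : ∀ A ∈ S, ∀ B ∈ S, A * B = B * A) :
    ∀ (n : ℕ) (W : Submodule K (Fin m → K)), W ≠ ⊥ → (∀ A ∈ S, ∀ w ∈ W, A *ᵥ w ∈ W) →
      Module.finrank K W ≤ n → ∃ v ∈ W, v ≠ 0 ∧ ∀ A ∈ S, ∃ c : K, A *ᵥ v = c • v := by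
  intro n
  induction n with
  | zero =>
    intro W hW _ hn
    exact absurd (Submodule.finrank_eq_zero.mp (Nat.le_zero.mp hn)) hW
  | succ n ih =>
    intro W hW hstab hn
    obtain ⟨v₀, hv₀, hv₀0⟩ := Submodule.exists_mem_ne_zero_of_ne_bot hW
    by_cases hsc : ∀ A ∈ S, ∃ c : K, ∀ w ∈ W, A *ᵥ w = c • w
    · refine ⟨v₀, hv₀, hv₀0, fun A hA => ?_⟩
      obtain ⟨c, hc⟩ := hsc A hA
      exact ⟨c, hc v₀ hv₀⟩
    · push Not at hsc
      obtain ⟨A, hA, hAc⟩ := hsc
      let T : W →ₗ[K] W := (Matrix.mulVecLin A).restrict (fun w hw => hstab A hA w hw)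
      have hnt : Nontrivial W := ⟨⟨⟨v₀, hv₀⟩, 0, fun h => hv₀0 (congrArg Subtype.val h)⟩⟩
      obtain ⟨c, hc⟩ := Module.End.exists_eigenvalue T
      obtain ⟨x, hx⟩ := hc.exists_hasEigenvector
      have hx1 : A *ᵥ (x : Fin m → K) = c • (x : Fin m → K) := by
        have := congrArg Subtype.val hx.apply_eq_smul
        exact this
      have hx0 : (x : Fin m → K) ≠ 0 := fun h => hx.2 (Subtype.ext h)
      let D : (Fin m → K) →ₗ[K] (Fin m → K) := Matrix.mulVecLin A - c • LinearMap.id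
      let E : Submodule K (Fin m → K) := W ⊓ LinearMap.ker D
      have hE : ∀ w, w ∈ E ↔ w ∈ W ∧ A *ᵥ w = c • w := by
        intro w
        show w ∈ W ∧ w ∈ LinearMap.ker D ↔ _
        rw [LinearMap.mem_ker]
        simp [D, sub_eq_zero]
      have hEne : E ≠ ⊥ := by
        intro h
        have : (x : Fin m → K) ∈ E := (hE _).mpr ⟨x.2, hx1⟩
        rw [h, Submodule.mem_bot] at this
        exact hx0 this
      have hlt : E < W := by
        refine lt_of_le_of_ne inf_le_left ?_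
        intro h
        obtain ⟨w, hw, hwc⟩ := hAc c
        rw [← h] at hw
        exact hwc ((hE w).mp hw).2
      obtain ⟨v, hv, hv0, hvS⟩ := ih E hEne (by
        intro B hB w hw
        obtain ⟨h1, h2⟩ := (hE w).mp hw
        refine (hE _).mpr ⟨hstab B hB w h1, ?_⟩
        rw [Matrix.mulVec_mulVec, hS A hA B hB, ← Matrix.mulVec_mulVec, h2, Matrix.mulVec_smul])
        (by
          have := Submodule.finrank_lt_finrank_of_lt hlt
          omega)
      exact ⟨v, ((hE v).mp hv).1, hv0, hvS⟩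

/-- A commuting family of matrices over an algebraically closed field has a common eigenvector. -/
theorem common_eigenvector [IsAlgClosed K] {m : ℕ} (hm : 0 < m)
    (S : Set (Matrix (Fin m) (Fin m) K)) (hS : ∀ A ∈ S, ∀ B ∈ S, A * B = B * A) :
    ∃ v : Fin m → K, v ≠ 0 ∧ ∀ A ∈ S, ∃ c : K, A *ᵥ v = c • v := by
  have hnt : Nontrivial (Fin m → K) := by
    have : Nonempty (Fin m) := ⟨⟨0, hm⟩⟩
    infer_instance
  obtain ⟨v, -, hv, hvS⟩ := eig_aux S hS _ ⊤ top_ne_bot (fun _ _ _ _ => Submodule.mem_top) le_rfl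
  exact ⟨v, hv, hvS⟩

end Pool.Agent.GeoOrig
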