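import Pool.Agent.Lib.GeoOrig.BipThree

/-!
# Homologies of a space of dimension three

Invertible endomorphisms of a space of dimension three of the form scalar plus rank one:
transvections, reflections and their negatives.
-/

namespace Pool.Agent.BraidRep

section

variable {K V : Type*} [Field K] [AddCommGroup V] [Module K V]

/-- An invertible endomorphism of the form scalar plus rank one. -/
def Hu (x : (Module.End K V)ˣ) : Prop := Homol (x : Module.End K V)

/-- The square is scalar and the trace is not zero. -/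
def Rf (x : (Module.End K V)ˣ) : Prop :=
  (∃ k : K, ∀ w, x.val (x.val w) = k • w) ∧ LinearMap.trace K V x.val ≠ 0

/-- A transvection. -/
def TT (x : (Module.End K V)ˣ) : Prop :=
  ∃ (f : V →ₗ[K] K) (u : V), f u = 0 ∧ ∀ w, x.val w = w + f w • u

/-- The negative of a reflection. -/
def JJ (x : (Module.End K V)ˣ) : Prop :=
  ∃ (f : V →ₗ[K] K) (u : V), f u = -2 ∧ ∀ w, x.val w = -(w + f w • u)

variable {x y g c : (Module.End K V)ˣ}

theorem inv_val_val (g : (Module.End K V)ˣ) (w : V) : (g⁻¹).val (g.val w) = w := by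
  rw [← Module.End.mul_apply, ← Units.val_mul, inv_mul_cancel]
  rfl

theorem val_inv_val (g : (Module.End K V)ˣ) (w : V) : g.val ((g⁻¹).val w) = w := by
  rw [← Module.End.mul_apply, ← Units.val_mul, mul_inv_cancel]
  rfl

theorem conj_val (g x : (Module.End K V)ˣ) (w : V) :
    (g * x * g⁻¹).val w = g.val (x.val ((g⁻¹).val w)) := rfl

theorem Hu.conj (h : Hu x) (g : (Module.End K V)ˣ) : Hu (g * x * g⁻¹) := by
  obtain ⟨c, f, u, h1⟩ := h
  refine ⟨c, f ∘ₗ (g⁻¹).val, g.val u, fun w => ?_⟩
  rw [conj_val, h1, map_add, map_smul, map_smul, val_inv_val]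
  rfl

theorem TT.conj (h : TT x) (g : (Module.End K V)ˣ) : TT (g * x * g⁻¹) := by
  obtain ⟨f, u, h1, h2⟩ := h
  refine ⟨f ∘ₗ (g⁻¹).val, g.val u, ?_, fun w => ?_⟩
  · rw [LinearMap.comp_apply, inv_val_val, h1]
  · rw [conj_val, h2, map_add, map_smul, val_inv_val]
    rfl

theorem JJ.conj (h : JJ x) (g : (Module.End K V)ˣ) : JJ (g * x * g⁻¹) := by
  obtain ⟨f, u, h1, h2⟩ := h
  refine ⟨f ∘ₗ (g⁻¹).val, g.val u, ?_, fun w => ?_⟩
  · rw [LinearMap.comp_apply, inv_val_val, h1]
  · rw [conj_val, h2, map_neg, map_add, map_smul, val_inv_val]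
    rfl

theorem TT.inv (h : TT x) : TT x⁻¹ := by
  obtain ⟨f, u, h1, h2⟩ := h
  refine ⟨f, -u, by rw [map_neg, h1, neg_zero], fun w => ?_⟩
  have h3 : x.val (w + f w • -u) = w := by
    rw [h2, map_add, map_smul, map_neg, h1]
    simp
  rw [← inv_val_val x (w + f w • -u), h3]

theorem JJ.inv (h : JJ x) : JJ x⁻¹ := by
  obtain ⟨f, u, h1, h2⟩ := h
  refine ⟨f, u, h1, fun w => ?_⟩
  have h3 : x.val (-(w + f w • u)) = w := by
    rw [h2, map_neg, map_add, map_smul, h1, smul_eq_mul]
    module
  rw [← inv_val_val x (-(w + f w • u)), h3]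

theorem TT.hu (h : TT x) : Hu x := by
  obtain ⟨f, u, h1, h2⟩ := h
  exact ⟨1, f, u, fun w => by rw [h2, one_smul]⟩

theorem Rf.conj (h : Rf x) (g : (Module.End K V)ˣ) : Rf (g * x * g⁻¹) := by
  obtain ⟨⟨k, h1⟩, h2⟩ := h
  refine ⟨⟨k, fun w => ?_⟩, ?_⟩
  · rw [conj_val, conj_val, inv_val_val, h1, map_smul, val_inv_val]
  · have h3 : LinearMap.trace K V (g * x * g⁻¹).val = LinearMap.trace K V x.val := by
      rw [Units.val_mul, LinearMap.trace_mul_comm, ← Units.val_mul]
      congr 2
      group
    rwa [h3]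

theorem Rf.inv (h : Rf x) : Rf x⁻¹ := by
  obtain ⟨⟨k, h1⟩, h2⟩ := h
  have hk : k ≠ 0 := by
    rintro rfl
    apply h2
    have h3 : x.val = 0 := by
      ext w
      have h4 := h1 ((x⁻¹).val w)
      rw [val_inv_val, zero_smul] at h4
      rw [h4, LinearMap.zero_apply]
    rw [h3, map_zero]
  have h3 : (x⁻¹).val = k⁻¹ • x.val := by
    ext w
    have h4 : x.val (k⁻¹ • x.val w) = w := by
      rw [map_smul, h1, smul_smul, inv_mul_cancel₀ hk, one_smul]
    rw [LinearMap.smul_apply, ← inv_val_val x (k⁻¹ • x.val w), h4]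
  refine ⟨⟨k⁻¹, fun w => ?_⟩, ?_⟩
  · rw [h3, LinearMap.smul_apply, LinearMap.smul_apply, map_smul, h1, smul_smul, smul_smul,
      mul_assoc, inv_mul_cancel₀ hk, mul_one]
  · rw [h3, map_smul, smul_eq_mul]
    exact mul_ne_zero (inv_ne_zero hk) h2

/-- If the squares of `x`, `y` and `x y` are scalar and the trace of `y` is not zero then `x` and
`y` commute. -/
theorem Rf.comm (hx : Rf x) (hy : Rf y) (hxy : Rf (x * y)) : Commute x y := by
  obtain ⟨⟨k, h1⟩, -⟩ := hx
  obtain ⟨⟨l, h2⟩, h3⟩ := hy
  obtain ⟨⟨m, h4⟩, -⟩ := hxy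
  have h5 : ∀ w, x.val (y.val (x.val (y.val w))) = m • w := h4
  have hk : k ≠ 0 := by
    rintro rfl
    apply h3
    have h6 : ∀ w : V, w = 0 := by
      intro w
      have h7 := h1 ((x⁻¹).val ((x⁻¹).val w))
      rw [val_inv_val, val_inv_val, zero_smul] at h7
      exact h7
    have h7 : y.val = 0 := by
      ext w
      exact h6 _
    rw [h7, map_zero]
  -- `l x y x = m y`
  have h6 : ∀ w, l • x.val (y.val (x.val w)) = m • y.val w := by
    intro w
    have h7 := h5 (y.val w)
    rw [h2, map_smul, map_smul, map_smul] at h7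
    exact h7
  have h7 : ∀ w, (l * k) • x.val (y.val ((x⁻¹).val w)) = m • y.val w := by
    intro w
    have h8 : (x⁻¹).val w = k⁻¹ • x.val w := by
      have h9 : x.val (k⁻¹ • x.val w) = w := by
        rw [map_smul, h1, smul_smul, inv_mul_cancel₀ hk, one_smul]
      conv_lhs => rw [← h9]
      exact inv_val_val _ _
    rw [h8, map_smul, map_smul, smul_smul, mul_assoc, mul_inv_cancel₀ hk, mul_one]
    exact h6 w
  have h8 : (l * k) • (x * y * x⁻¹).val = m • y.val := by
    ext w
    exact h7 w
  have h9 : LinearMap.trace K V (x * y * x⁻¹).val = LinearMap.trace K V y.val := by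
    rw [Units.val_mul, LinearMap.trace_mul_comm, ← Units.val_mul]
    congr 2
    group
  have h10 : l * k = m := by
    have h11 := congrArg (LinearMap.trace K V) h8
    rw [map_smul, map_smul, h9, smul_eq_mul, smul_eq_mul] at h11
    exact mul_right_cancel₀ h3 h11
  have hl : l ≠ 0 := by
    rintro rfl
    apply h3
    have h6 : ∀ w : V, w = 0 := by
      intro w
      have h7 := h2 ((y⁻¹).val ((y⁻¹).val w))
      rw [val_inv_val, val_inv_val, zero_smul] at h7
      exact h7
    have h7 : y.val = 0 := by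
      ext w
      exact h6 _
    rw [h7, map_zero]
  have h11 : x * y * x⁻¹ = y := by
    apply Units.ext
    rw [← h10] at h8
    exact smul_right_injective _ (mul_ne_zero hl hk) h8
  show x * y = y * x
  calc x * y = x * y * x⁻¹ * x := by group
    _ = y * x := by rw [h11]

variable [FiniteDimensional K V]

/-- A common zero of two linear forms. -/
theorem exists_zero (h3 : Module.finrank K V = 3) (f h : V →ₗ[K] K) :
    ∃ w, w ≠ 0 ∧ f w = 0 ∧ h w = 0 := by
  have e1 := LinearMap.finrank_range_add_finrank_ker (f.prod h)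
  have e2 : Module.finrank K (LinearMap.range (f.prod h)) ≤ 2 := by
    refine (Submodule.finrank_le _).trans ?_
    simp
  have e3 : 0 < Module.finrank K (LinearMap.ker (f.prod h)) := by omega
  have : Nontrivial (LinearMap.ker (f.prod h)) := Module.nontrivial_of_finrank_pos e3
  obtain ⟨⟨w, hw⟩, hw'⟩ := exists_ne (0 : LinearMap.ker (f.prod h))
  have hw2 := LinearMap.mem_ker.1 hw
  rw [LinearMap.prod_apply, Prod.mk_eq_zero] at hw2
  exact ⟨w, fun h => hw' (Subtype.ext h), hw2.1, hw2.2⟩

/-- The common zeros of two independent linear forms form a line. -/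
theorem mem_of_zero (h3 : Module.finrank K V = 3) {f h : V →ₗ[K] K} {u w₀ w₁ : V} (hu : u ≠ 0)
    (hfu : f u = 0) (hhu : h u = 0) (h1 : f w₀ = 0) (h2 : h w₀ ≠ 0) (h4 : f w₁ ≠ 0) {w : V}
    (hw : f w = 0) (hw' : h w = 0) : ∃ a : K, w = a • u := by
  have e1 := LinearMap.finrank_range_add_finrank_ker (f.prod h)
  have e2 : LinearMap.range (f.prod h) = ⊤ := by
    rw [LinearMap.range_eq_top]
    rintro ⟨a, b⟩
    refine ⟨(a / f w₁) • w₁ + ((b - a / f w₁ * h w₁) / h w₀) • w₀, ?_⟩
    refine Prod.ext ?_ ?_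
    · show f _ = a
      rw [map_add, map_smul, map_smul, h1, smul_eq_mul, smul_eq_mul, mul_zero, add_zero,
        div_mul_cancel₀ _ h4]
    · show h _ = b
      rw [map_add, map_smul, map_smul, smul_eq_mul, smul_eq_mul, div_mul_cancel₀ _ h2]
      ring
  rw [e2, finrank_top, h3, Module.finrank_prod, Module.finrank_self] at e1
  have e3 : Module.finrank K (LinearMap.ker (f.prod h)) = 1 := by omega
  have m1 : u ∈ LinearMap.ker (f.prod h) := by
    rw [LinearMap.mem_ker, LinearMap.prod_apply, Prod.mk_eq_zero]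
    exact ⟨hfu, hhu⟩
  have m2 : w ∈ LinearMap.ker (f.prod h) := by
    rw [LinearMap.mem_ker, LinearMap.prod_apply, Prod.mk_eq_zero]
    exact ⟨hw, hw'⟩
  obtain ⟨a, ha⟩ := exists_smul_eq_of_finrank_eq_one e3
    (x := ⟨u, m1⟩) (fun h => hu (congrArg Subtype.val h)) ⟨w, m2⟩
  exact ⟨a, (congrArg Subtype.val ha).symm⟩

theorem TT.not_jj (h3 : Module.finrank K V = 3) (h2 : (2 : K) ≠ 0) (h : TT x) : ¬ JJ x := by
  rintro ⟨f', u', -, h4⟩
  obtain ⟨f, u, -, h5⟩ := h
  obtain ⟨w, hw, hw1, hw2⟩ := exists_zero h3 f f'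
  have h6 := h5 w
  rw [h4, hw1, hw2, zero_smul, zero_smul, add_zero] at h6
  have h7 : (2 : K) • w = 0 := by
    rw [two_smul]
    nth_rewrite 1 [← h6]
    exact neg_add_cancel w
  exact hw ((smul_eq_zero.1 h7).resolve_left h2)

/-- The normal form of an invertible endomorphism of the form scalar plus rank one. -/
theorem Hu.form (h3 : Module.finrank K V = 3) (h : Hu x) :
    ∃ (k : K) (f : V →ₗ[K] K) (u : V), k ≠ 0 ∧ ∀ w, x.val w = k • (w + f w • u) := by
  obtain ⟨k, f, u, h1⟩ := h
  have hk : k ≠ 0 := by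
    rintro rfl
    obtain ⟨w, hw, hw1, -⟩ := exists_zero h3 f f
    apply hw
    rw [← inv_val_val x w, h1, hw1]
    simp
  refine ⟨k, k⁻¹ • f, u, hk, fun w => ?_⟩
  rw [h1, LinearMap.smul_apply, smul_add, smul_eq_mul, smul_smul, ← mul_assoc,
    mul_inv_cancel₀ hk, one_mul]

theorem Hu.inv (h3 : Module.finrank K V = 3) (h : Hu x) : Hu x⁻¹ := by
  obtain ⟨k, f, u, hk, h1⟩ := h.form h3
  refine ⟨k⁻¹, -f, (x⁻¹).val u, fun w => ?_⟩
  have h2 : x.val w = k • (w + f w • u) := h1 w
  have h4 : w = k • ((x⁻¹).val w + f w • (x⁻¹).val u) := by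
    conv_lhs => rw [← inv_val_val x w, h2]
    rw [map_smul, map_add, map_smul]
  have h5 : (x⁻¹).val w + f w • (x⁻¹).val u = k⁻¹ • w := by
    conv_rhs => rw [h4]
    rw [smul_smul, inv_mul_cancel₀ hk, one_smul]
  rw [← h5, LinearMap.neg_apply]
  module

/-- An endomorphism which satisfies a quadratic equation. -/
theorem homol_of_quad (h3 : Module.finrank K V = 3) {z : Module.End K V} {r s : K}
    (h : ∀ w, (z - r • (1 : Module.End K V)) ((z - s • (1 : Module.End K V)) w) = 0) :
    Homol z := by
  have h6 : LinearMap.range (z - s • (1 : Module.End K V)) ≤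
      LinearMap.ker (z - r • (1 : Module.End K V)) := by
    rintro _ ⟨w, rfl⟩
    exact LinearMap.mem_ker.2 (h w)
  have h7 := Submodule.finrank_mono h6
  have h8 := LinearMap.finrank_range_add_finrank_ker (z - r • (1 : Module.End K V))
  by_cases h9 : Module.finrank K (LinearMap.range (z - s • (1 : Module.End K V))) ≤ 1
  · exact homol_of_rank h9
  · exact homol_of_rank (c := r) (by omega)

/-- The product of two commuting elements with scalar squares. -/
theorem Rf.hu_mul [IsAlgClosed K] (h3 : Module.finrank K V = 3) (hx : Rf x) (hy : Rf y)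
    (h : Commute x y) : Hu (x * y) := by
  obtain ⟨⟨k, h1⟩, -⟩ := hx
  obtain ⟨⟨l, h2⟩, -⟩ := hy
  have h4 : ∀ w, x.val (y.val w) = y.val (x.val w) := by
    intro w
    have := congrArg (fun z : (Module.End K V)ˣ => z.val w) h.eq
    exact this
  obtain ⟨r, hr⟩ := IsAlgClosed.exists_pow_nat_eq (k * l) (n := 2) (by norm_num)
  refine homol_of_quad h3 (r := r) (s := -r) fun w => ?_
  have h5 : (x * y).val ((x * y).val w) = (r * r) • w := by
    show x.val (y.val (x.val (y.val w))) = _
    rw [← h4 (y.val w), h2, map_smul, map_smul, h1, smul_smul, ← pow_two, hr, mul_comm]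
  simp only [LinearMap.sub_apply, LinearMap.smul_apply, Module.End.one_apply, map_sub, map_smul]
  rw [h5]
  module

/-- If `x` and `c` are of the form scalar plus rank one and `x c` is conjugate to `x` then `c` is
a transvection, or `-c` and a multiple of `x` are reflections. -/
theorem Hu.dichotomy (h3 : Module.finrank K V = 3) (hx : Hu x) (hc : Hu c)
    (h : g * x * g⁻¹ = x * c) : TT c ∨ (JJ c ∧ Rf x) := by
  obtain ⟨ξ, q, p, hξ, h1⟩ := hx.form h3
  obtain ⟨l, f, u, hl, h2⟩ := hc.form h3
  -- the conjugate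
  have h4 : ∀ w, (x * c).val w = ξ • (w + q ((g⁻¹).val w) • g.val p) := by
    intro w
    rw [← h, conj_val, h1, map_smul, map_add, map_smul, val_inv_val]
  have h5 : ∀ w, (x * c).val w = ξ • (c.val w + q (c.val w) • p) := fun w => h1 _
  have hdet : LinearMap.det c.val = 1 := by
    have e1 := congrArg (fun z : (Module.End K V)ˣ => LinearMap.det z.val) h
    simp only [Units.val_mul, map_mul] at e1
    have e2 : LinearMap.det g.val * LinearMap.det (g⁻¹).val = 1 := by
      rw [← map_mul, ← Units.val_mul, mul_inv_cancel, Units.val_one, map_one]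
    have e3 : LinearMap.det x.val ≠ 0 := by
      intro e4
      have e5 : LinearMap.det x.val * LinearMap.det (x⁻¹).val = 1 := by
        rw [← map_mul, ← Units.val_mul, mul_inv_cancel, Units.val_one, map_one]
      rw [e4, zero_mul] at e5
      exact zero_ne_one e5
    have e4 : LinearMap.det x.val * LinearMap.det c.val = LinearMap.det x.val * 1 := by
      rw [← e1]
      linear_combination (LinearMap.det x.val) * e2
    exact mul_left_cancel₀ e3 e4
  have hdet2 : l ^ 3 * (1 + f u) = 1 := by
    have e1 : c.val = l • LinearMap.transvection f u := by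
      ext w
      rw [h2, LinearMap.smul_apply, LinearMap.transvection.apply]
    have e2 := hdet
    rw [e1, LinearMap.det_smul, h3, LinearMap.transvection.det] at e2
    exact e2
  by_cases hl1 : l = 1
  · left
    refine ⟨f, u, ?_, fun w => by rw [h2, hl1, one_smul]⟩
    rw [hl1] at hdet2
    linear_combination hdet2
  · right
    -- a vector killed by `f` and `q`
    obtain ⟨w, hw, hw1, hw2⟩ := exists_zero h3 f q
    have e1 : (l - 1) • w = q ((g⁻¹).val w) • g.val p := by
      have e2 := (h4 w).symm.trans (h5 w)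
      have e3 := smul_right_injective V hξ e2
      rw [h2, hw1, zero_smul, add_zero, map_smul, hw2, smul_zero, zero_smul, add_zero] at e3
      rw [sub_smul, one_smul, ← e3]
      abel
    have e2 : q p = l - 1 := by
      have e3 := congrArg (fun z => q ((g⁻¹).val z)) e1
      simp only [map_smul, smul_eq_mul, inv_val_val] at e3
      have e4 : q ((g⁻¹).val w) ≠ 0 := by
        intro e5
        rw [e5, zero_smul] at e1
        exact hw ((smul_eq_zero.1 e1).resolve_left (sub_ne_zero.2 hl1))
      have e5 : q ((g⁻¹).val w) * q p = q ((g⁻¹).val w) * (l - 1) := by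
        rw [← e3]; ring
      exact mul_left_cancel₀ e4 e5
    obtain ⟨w', hw', hw1', hw2'⟩ := exists_zero h3 f (q ∘ₗ (g⁻¹).val)
    have e3 : (1 - l) • w' = (l * q w') • p := by
      have e2 := (h4 w').symm.trans (h5 w')
      have e3 := smul_right_injective V hξ e2
      rw [LinearMap.comp_apply] at hw2'
      rw [h2, hw1', zero_smul, add_zero, map_smul, hw2', zero_smul, add_zero, smul_eq_mul] at e3
      rw [sub_smul, one_smul]
      nth_rewrite 1 [e3]
      abel
    have e4 : l = -1 := by
      have e5 := congrArg q e3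
      simp only [map_smul, smul_eq_mul] at e5
      have e6 : q w' ≠ 0 := by
        intro e7
        rw [e7, mul_zero, zero_smul] at e3
        exact hw' ((smul_eq_zero.1 e3).resolve_left (sub_ne_zero.2 (Ne.symm hl1)))
      have e7 : (1 - l) * (1 + l) = 0 := by
        have e8 : q w' * ((1 - l) * (1 + l)) = 0 := by
          rw [e2] at e5
          linear_combination e5
        exact (mul_eq_zero.1 e8).resolve_left e6
      rcases mul_eq_zero.1 e7 with e8 | e8
      · exact absurd (sub_eq_zero.1 e8).symm hl1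
      · linear_combination e8
    subst e4
    have e5 : f u = -2 := by linear_combination -hdet2
    have e6 : q p = -2 := by rw [e2]; ring
    refine ⟨⟨f, u, e5, fun w => by rw [h2, neg_one_smul]⟩, ⟨ξ * ξ, fun w => ?_⟩, ?_⟩
    · rw [h1, h1, map_smul, map_add, map_smul, e6]
      simp only [smul_eq_mul]
      module
    · have e7 : x.val = ξ • (LinearMap.id + q.smulRight p) := by
        ext w
        rw [h1, LinearMap.smul_apply, LinearMap.add_apply, LinearMap.id_apply,
          LinearMap.smulRight_apply]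
      rw [e7, map_smul, map_add, LinearMap.trace_id, LinearMap.trace_smulRight, h3, e6,
        smul_eq_mul]
      have e8 : ((3 : ℕ) : K) + -2 = 1 := by norm_num
      rw [e8, mul_one]
      exact hξ

/-- The centraliser is commutative. -/
def Rg (x : (Module.End K V)ˣ) : Prop :=
  ∀ b c : (Module.End K V)ˣ, Commute b x → Commute c x → Commute b c

omit [FiniteDimensional K V] in
theorem Rg.conj (h : Rg x) (g : (Module.End K V)ˣ) : Rg (g * x * g⁻¹) := by
  have key : ∀ b, Commute b (g * x * g⁻¹) → Commute (g⁻¹ * b * g) x := by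
    intro b hb
    show g⁻¹ * b * g * x = x * (g⁻¹ * b * g)
    calc g⁻¹ * b * g * x = g⁻¹ * (b * (g * x * g⁻¹)) * g := by group
      _ = g⁻¹ * ((g * x * g⁻¹) * b) * g := by rw [hb.eq]
      _ = _ := by group
  intro b c hb hc
  have h1 := h _ _ (key b hb) (key c hc)
  show b * c = c * b
  calc b * c = g * ((g⁻¹ * b * g) * (g⁻¹ * c * g)) * g⁻¹ := by group
    _ = g * ((g⁻¹ * c * g) * (g⁻¹ * b * g)) * g⁻¹ := by rw [h1.eq]
    _ = _ := by group

theorem hu_or [IsAlgClosed K] (h3 : Module.finrank K V = 3) (x : (Module.End K V)ˣ) :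
    Hu x ∨ Rg x := by
  rcases homol_or h3 x.val with h | ⟨h, -⟩
  · exact Or.inl h
  · exact Or.inr fun b c hb hc => Commute.units_of_val (h _ _ hb.units_val hc.units_val)

/-- A commutator of two elements which commute with a transvection `1 + f ⊗ u` is unipotent. -/
private theorem unip (h3 : Module.finrank K V = 3) {t p q : (Module.End K V)ˣ}
    {f : V →ₗ[K] K} {u : V} (hfu : f u = 0) (ht : ∀ w, t.val w = w + f w • u) (hf : f ≠ 0)
    (hu : u ≠ 0) (hp : Commute p t) (hq : Commute q t) :
    (q⁻¹ * p * q * p⁻¹).val u = u ∧ (∀ w, f ((q⁻¹ * p * q * p⁻¹).val w) = f w) ∧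
      ∀ w, ((q⁻¹ * p * q * p⁻¹).val - 1) (((q⁻¹ * p * q * p⁻¹).val - 1)
        (((q⁻¹ * p * q * p⁻¹).val - 1) w)) = 0 := by
  have ht' : ∀ w, t.val w = (1 : K) • w + f w • u := fun w => by rw [one_smul]; exact ht w
  -- a vector `w₀` of the kernel of `f` and a form `ψ` with `ψ u = 0`, `ψ w₀ ≠ 0`
  obtain ⟨w₁, hw₁⟩ : ∃ w₁, f w₁ ≠ 0 := by
    by_contra hcon
    push Not at hcon
    exact hf (LinearMap.ext hcon)
  obtain ⟨w₀, hw₀, ψ, hψ, hψu⟩ : ∃ w₀, f w₀ = 0 ∧ ∃ ψ : V →ₗ[K] K, ψ w₀ ≠ 0 ∧ ψ u = 0 := by
    have h1 : ∃ w₀ ∈ LinearMap.ker f, w₀ ∉ Submodule.span K {u} := by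
      by_contra hcon
      push Not at hcon
      have e1 : LinearMap.ker f ≤ Submodule.span K {u} := hcon
      have e2 := Submodule.finrank_mono e1
      have e3 := finrank_span_singleton (K := K) hu
      have e4 := LinearMap.finrank_range_add_finrank_ker f
      have e5 : Module.finrank K (LinearMap.range f) ≤ 1 := by
        refine (Submodule.finrank_le _).trans ?_
        simp
      omega
    obtain ⟨w₀, h2, h4⟩ := h1
    obtain ⟨ψ, h5, h6⟩ := Submodule.exists_le_ker_of_notMem h4
    exact ⟨w₀, h2, ψ, h5, h6 (Submodule.mem_span_singleton_self u)⟩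
  have char : ∀ y : (Module.End K V)ˣ, Commute y t → ∃ a b : K, y.val u = a • u ∧
      (∀ w, f (y.val w) = a * f w) ∧ ∀ w, f w = 0 → ψ (y.val w) = b * ψ w := by
    intro y hy
    obtain ⟨a, h1, h2⟩ := comm_homol ht' hf hu (z := y.val) hy.units_val
    refine ⟨a, ψ (y.val w₀) / ψ w₀, h1, h2, fun w hw => ?_⟩
    obtain ⟨k, hk⟩ := mem_of_zero h3 hu hfu hψu hw₀ hψ hw₁ (w := w - (ψ w / ψ w₀) • w₀)
      (by rw [map_sub, map_smul, hw, hw₀, smul_zero, sub_zero])
      (by rw [map_sub, map_smul, smul_eq_mul, div_mul_cancel₀ _ hψ, sub_self])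
    have e1 : ψ (y.val (w - (ψ w / ψ w₀) • w₀)) = 0 := by
      rw [hk, map_smul, h1, map_smul, map_smul, hψu, smul_zero, smul_zero]
    rw [map_sub, map_sub, map_smul, map_smul, smul_eq_mul] at e1
    rw [sub_eq_zero.1 e1]
    ring
  obtain ⟨a1, b1, c1, c2, c3⟩ := char p hp
  obtain ⟨a2, b2, d1, d2, d3⟩ := char q hq
  obtain ⟨a3, b3, e1, e2, e3⟩ := char p⁻¹ hp.inv_left
  obtain ⟨a4, b4, f1, f2, f3⟩ := char q⁻¹ hq.inv_left
  have ha1 : a1 * a3 = 1 := by
    have g1 : f (p.val ((p⁻¹).val w₁)) = f w₁ := by rw [val_inv_val]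
    rw [c2, e2, ← mul_assoc] at g1
    exact mul_right_cancel₀ hw₁ (g1.trans (one_mul _).symm)
  have ha2 : a2 * a4 = 1 := by
    have g1 : f (q.val ((q⁻¹).val w₁)) = f w₁ := by rw [val_inv_val]
    rw [d2, f2, ← mul_assoc] at g1
    exact mul_right_cancel₀ hw₁ (g1.trans (one_mul _).symm)
  have hb1 : b1 * b3 = 1 := by
    have g1 : ψ (p.val ((p⁻¹).val w₀)) = ψ w₀ := by rw [val_inv_val]
    rw [c3 _ (by rw [e2, hw₀, mul_zero]), e3 _ hw₀, ← mul_assoc] at g1
    exact mul_right_cancel₀ hψ (g1.trans (one_mul _).symm)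
  have hb2 : b2 * b4 = 1 := by
    have g1 : ψ (q.val ((q⁻¹).val w₀)) = ψ w₀ := by rw [val_inv_val]
    rw [d3 _ (by rw [f2, hw₀, mul_zero]), f3 _ hw₀, ← mul_assoc] at g1
    exact mul_right_cancel₀ hψ (g1.trans (one_mul _).symm)
  have z1 : (q⁻¹ * p * q * p⁻¹).val u = u := by
    show (q⁻¹).val (p.val (q.val ((p⁻¹).val u))) = u
    rw [e1, map_smul, map_smul, map_smul, d1, map_smul, map_smul, c1, map_smul, f1, smul_smul,
      smul_smul, smul_smul]
    have g1 : a3 * a2 * a1 * a4 = 1 := by
      calc a3 * a2 * a1 * a4 = (a1 * a3) * (a2 * a4) := by ring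
        _ = 1 := by rw [ha1, ha2, mul_one]
    rw [g1, one_smul]
  have z2 : ∀ w, f ((q⁻¹ * p * q * p⁻¹).val w) = f w := by
    intro w
    show f ((q⁻¹).val (p.val (q.val ((p⁻¹).val w)))) = f w
    rw [f2, c2, d2, e2]
    calc a4 * (a1 * (a2 * (a3 * f w))) = (a1 * a3) * (a2 * a4) * f w := by ring
      _ = f w := by rw [ha1, ha2]; ring
  have z3 : ∀ w, f w = 0 → ψ ((q⁻¹ * p * q * p⁻¹).val w) = ψ w := by
    intro w hw
    show ψ ((q⁻¹).val (p.val (q.val ((p⁻¹).val w)))) = ψ w
    have g1 : f ((p⁻¹).val w) = 0 := by rw [e2, hw, mul_zero]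
    have g2 : f (q.val ((p⁻¹).val w)) = 0 := by rw [d2, g1, mul_zero]
    have g3 : f (p.val (q.val ((p⁻¹).val w))) = 0 := by rw [c2, g2, mul_zero]
    rw [f3 _ g3, c3 _ g2, d3 _ g1, e3 _ hw]
    calc b4 * (b1 * (b2 * (b3 * ψ w))) = (b1 * b3) * (b2 * b4) * ψ w := by ring
      _ = ψ w := by rw [hb1, hb2]; ring
  refine ⟨z1, z2, fun w => ?_⟩
  set z : Module.End K V := (q⁻¹ * p * q * p⁻¹).val with hz
  have n1 : f ((z - 1) w) = 0 := by
    rw [LinearMap.sub_apply, Module.End.one_apply, map_sub, z2, sub_self]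
  have n2 : f ((z - 1) ((z - 1) w)) = 0 := by
    rw [LinearMap.sub_apply, Module.End.one_apply, map_sub, z2, sub_self]
  have n3 : ψ ((z - 1) ((z - 1) w)) = 0 := by
    rw [LinearMap.sub_apply z 1 ((z - 1) w), Module.End.one_apply, map_sub, z3 _ n1, sub_self]
  obtain ⟨k, hk⟩ := mem_of_zero h3 hu hfu hψu hw₀ hψ hw₁ n2 n3
  rw [hk, map_smul, LinearMap.sub_apply, z1, Module.End.one_apply, sub_self, smul_zero]

/-- Let `t` be a transvection which commutes with `p` and `q`, and suppose that the commutator of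
`p` and `q` is a product `r s`, where `r` and `s` are transvections or negatives of reflections.
If `t`, `r`, `s` do not commute pairwise then `r` and `s` are negatives of reflections. -/
theorem TT.both (h3 : Module.finrank K V = 3) (h2 : (2 : K) ≠ 0) {t r s p q : (Module.End K V)ˣ}
    (ht : TT t) (hp : Commute p t) (hq : Commute q t) (hz : q⁻¹ * p * q * p⁻¹ = r * s)
    (hr : TT r ∨ JJ r) (hs : TT s ∨ JJ s) (htr : ¬ Commute t r) (hts : ¬ Commute t s)
    (hrs : ¬ Commute r s) : JJ r ∧ JJ s := by
  obtain ⟨f, u, hfu, ht⟩ := ht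
  have hone : ∀ y : (Module.End K V)ˣ, (∀ w, t.val w = w) → Commute t y := by
    intro y h1
    have h4 : t = 1 := by
      apply Units.ext
      ext w
      exact h1 w
    rw [h4]
    exact Commute.one_left y
  have hf : f ≠ 0 := by
    rintro rfl
    exact htr (hone r fun w => by rw [ht]; simp)
  have hu : u ≠ 0 := by
    rintro rfl
    exact htr (hone r fun w => by rw [ht]; simp)
  obtain ⟨z1, z2, z3⟩ := unip h3 hfu ht hf hu hp hq
  rw [hz] at z1 z2 z3
  -- if exactly one of `r`, `s` is a transvection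
  have mixed : ∀ (f₁ f₂ : V →ₗ[K] K) (u₁ u₂ : V) (a b : K), (∀ w, r.val w = a • (w + f₁ w • u₁)) →
      (∀ w, s.val w = b • (w + f₂ w • u₂)) → a * b ≠ -1 := by
    intro f₁ f₂ u₁ u₂ a b hr hs hab
    obtain ⟨φ, hφ, hφ'⟩ := Submodule.exists_le_ker_of_lt_top
      (Submodule.span K (Set.range ![u₁, u₂])) (by
        rw [lt_top_iff_ne_top]
        intro h1
        have h4 := finrank_range_le_card (R := K) ![u₁, u₂]
        rw [Set.finrank, h1, finrank_top, h3] at h4
        simp at h4)
    have p1 : φ u₁ = 0 := hφ' (Submodule.subset_span ⟨0, rfl⟩)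
    have p2 : φ u₂ = 0 := hφ' (Submodule.subset_span ⟨1, rfl⟩)
    have p3 : ∀ w, φ ((r * s).val w) = - φ w := by
      intro w
      show φ (r.val (s.val w)) = _
      rw [hr, hs]
      simp only [map_add, map_smul, p1, p2, smul_eq_mul]
      linear_combination (φ w) * hab
    have p4 : ∀ w, φ (((r * s).val - 1) w) = -2 * φ w := by
      intro w
      rw [LinearMap.sub_apply, Module.End.one_apply, map_sub, p3]
      ring
    apply hφ
    ext w
    have p5 := congrArg φ (z3 w)
    rw [p4, p4, p4, map_zero] at p5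
    have p6 : (2 : K) ^ 3 * φ w = 0 := by linear_combination -p5
    exact (mul_eq_zero.1 p6).resolve_left (pow_ne_zero 3 h2)
  rcases hr with ⟨f₁, u₁, r1, r2⟩ | hr
  · rcases hs with ⟨f₂, u₂, s1, s2⟩ | ⟨f₂, u₂, s1, s2⟩
    · -- two transvections
      exfalso
      have c1 : f₁ u₂ ≠ 0 ∨ f₂ u₁ ≠ 0 :=
        ncomm_homol (c := 1) (c' := 1) (x := r.val) (x' := s.val)
          (fun w => by rw [one_smul]; exact r2 w) (fun w => by rw [one_smul]; exact s2 w)
          fun h => hrs (Commute.units_of_val h)
      have c2 : f u₁ ≠ 0 ∨ f₁ u ≠ 0 :=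
        ncomm_homol (c := 1) (c' := 1) (x := t.val) (x' := r.val)
          (fun w => by rw [one_smul]; exact ht w) (fun w => by rw [one_smul]; exact r2 w)
          fun h => htr (Commute.units_of_val h)
      have hrs' : ∀ w, (r * s).val w = w + f₁ w • u₁ + f₂ w • u₂ + (f₂ w * f₁ u₂) • u₁ := by
        intro w
        show r.val (s.val w) = _
        rw [r2, s2]
        simp only [map_add, map_smul, smul_eq_mul]
        module
      have tr0 : f₂ u₁ * f₁ u₂ = 0 := by
        have e1 : (r * s).val - 1 = f₁.smulRight u₁ + f₂.smulRight u₂ +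
            f₁ u₂ • f₂.smulRight u₁ := by
          ext w
          rw [LinearMap.sub_apply, hrs', Module.End.one_apply]
          simp only [LinearMap.add_apply, LinearMap.smulRight_apply, LinearMap.smul_apply]
          module
        have e2 : IsNilpotent ((r * s).val - 1) := by
          refine ⟨3, ?_⟩
          ext w
          rw [pow_succ, pow_two]
          exact z3 w
        have e3 := LinearMap.isNilpotent_trace_of_isNilpotent e2
        have e4 := e3.eq_zero
        rw [e1, map_add, map_add, map_smul, LinearMap.trace_smulRight,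
          LinearMap.trace_smulRight, LinearMap.trace_smulRight, r1, s1, smul_eq_mul] at e4
        linear_combination e4
      have k1 : f₁ u • u₁ + f₂ u • u₂ + (f₂ u * f₁ u₂) • u₁ = 0 := by
        have e1 := (hrs' u).symm.trans z1
        have e2 : u + (f₁ u • u₁ + f₂ u • u₂ + (f₂ u * f₁ u₂) • u₁) = u + 0 := by
          rw [add_zero, ← add_assoc, ← add_assoc]
          exact e1
        exact add_left_cancel e2
      have k2 : ∀ w, f₁ w * f u₁ + f₂ w * f u₂ + f₂ w * f₁ u₂ * f u₁ = 0 := by
        intro w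
        have e1 := z2 w
        rw [hrs'] at e1
        simp only [map_add, map_smul, smul_eq_mul] at e1
        linear_combination e1
      rcases mul_eq_zero.1 tr0 with h1 | h1
      · -- `f₂ u₁ = 0`
        have h4 : f₁ u₂ ≠ 0 := c1.resolve_right (fun h => h h1)
        have e1 : f₂ u = 0 := by
          have e2 := congrArg f₁ k1
          simp only [map_add, map_smul, smul_eq_mul, r1, map_zero, mul_zero, zero_add,
            add_zero] at e2
          exact (mul_eq_zero.1 e2).resolve_right h4
        have e2 : f₁ u = 0 := by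
          rw [e1, zero_smul, zero_mul, zero_smul, add_zero, add_zero] at k1
          refine (smul_eq_zero.1 k1).resolve_right ?_
          rintro rfl
          rcases c2 with h5 | h5
          · exact h5 (map_zero f)
          · exact hrs (by
              have h6 : r = 1 := by
                apply Units.ext
                ext w
                rw [r2]
                simp
              rw [h6]
              exact Commute.one_left s)
        have e3 : f u₁ = 0 := by
          have e4 := k2 u₂
          rw [s1] at e4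
          have e5 : f₁ u₂ * f u₁ = 0 := by linear_combination e4
          exact (mul_eq_zero.1 e5).resolve_left h4
        rcases c2 with h5 | h5
        · exact h5 e3
        · exact h5 e2
      · -- `f₁ u₂ = 0`
        have h4 : f₂ u₁ ≠ 0 := c1.resolve_left (fun h => h h1)
        have e1 : f₁ u = 0 := by
          have e2 := congrArg f₂ k1
          simp only [map_add, map_smul, smul_eq_mul, s1, h1, map_zero, mul_zero,
            add_zero, zero_mul] at e2
          exact (mul_eq_zero.1 e2).resolve_right h4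
        have e3 : f u₁ = 0 := by
          -- evaluate at a zero of `f₂` which is not a zero of `f₁`
          by_contra hcon
          have e4 : ∀ w, f₂ w = 0 → f₁ w = 0 := by
            intro w hw
            have e5 := k2 w
            rw [hw, zero_mul, zero_mul, zero_mul, add_zero, add_zero] at e5
            exact (mul_eq_zero.1 e5).resolve_right hcon
          have e6 := k2 u₁
          rw [r1, h1] at e6
          have e7 : f u₂ = 0 := by
            have e8 : f₂ u₁ * f u₂ = 0 := by linear_combination e6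
            exact (mul_eq_zero.1 e8).resolve_left h4
          have e8 : ∀ w, f₁ w = 0 := by
            intro w
            have e9 := k2 w
            rw [h1, e7] at e9
            have e10 : f₁ w * f u₁ = 0 := by linear_combination e9
            exact (mul_eq_zero.1 e10).resolve_right hcon
          apply hrs
          have h6 : r = 1 := by
            apply Units.ext
            ext w
            rw [r2, e8]
            simp
          rw [h6]
          exact Commute.one_left s
        rcases c2 with h5 | h5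
        · exact h5 e3
        · exact h5 e1
    · exfalso
      exact mixed f₁ f₂ u₁ u₂ 1 (-1) (fun w => by rw [one_smul]; exact r2 w)
        (fun w => by rw [neg_one_smul]; exact s2 w) (by ring)
  · rcases hs with ⟨f₂, u₂, s1, s2⟩ | hs
    · exfalso
      obtain ⟨f₁, u₁, r1, r2⟩ := hr
      exact mixed f₁ f₂ u₁ u₂ (-1) 1 (fun w => by rw [neg_one_smul]; exact r2 w)
        (fun w => by rw [one_smul]; exact s2 w) (by ring)
    · exact ⟨hr, hs⟩

end

end Pool.Agent.BraidRep
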