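import Pool.Agent.Lib.GeoOrig.Main

/-!
# Module EQV: equivalence of matrix representations, Lie-irreducible representations
-/

namespace Pool.Agent.GeoOrig

open Matrix Topology
open scoped Kronecker

section Alg

variable {K : Type*} [NontriviallyNormedField K] {P : Type*} [Group P]

/-- On `V` the matrices `σ v` and `T v` are conjugate by one invertible matrix. -/
def EqvOn {κ₀ κ : Type*} [Fintype κ₀] [DecidableEq κ₀] [Fintype κ] [DecidableEq κ]
    (V : Subgroup P) (σ : P → Matrix κ₀ κ₀ K) (T : P → Matrix κ κ K) : Prop :=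
  ∃ (A : Matrix κ₀ κ K) (B : Matrix κ κ₀ K), A * B = 1 ∧ B * A = 1 ∧
    ∀ v ∈ V, σ v = A * T v * B

theorem EqvOn.mono {κ₀ κ : Type*} [Fintype κ₀] [DecidableEq κ₀] [Fintype κ] [DecidableEq κ]
    {V W : Subgroup P} {σ : P → Matrix κ₀ κ₀ K} {T : P → Matrix κ κ K} (h : EqvOn V σ T)
    (hW : W ≤ V) : EqvOn W σ T := by
  obtain ⟨A, B, h1, h2, h3⟩ := h
  exact ⟨A, B, h1, h2, fun v hv => h3 v (hW hv)⟩

theorem EqvOn.trans {κ₀ κ₁ κ₂ : Type*} [Fintype κ₀] [DecidableEq κ₀] [Fintype κ₁]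
    [DecidableEq κ₁] [Fintype κ₂] [DecidableEq κ₂] {V : Subgroup P} {σ : P → Matrix κ₀ κ₀ K}
    {T : P → Matrix κ₁ κ₁ K} {T' : P → Matrix κ₂ κ₂ K} (h : EqvOn V σ T) (h' : EqvOn V T T') :
    EqvOn V σ T' := by
  obtain ⟨A, B, h1, h2, h3⟩ := h
  obtain ⟨A', B', h1', h2', h3'⟩ := h'
  refine ⟨A * A', B' * B, ?_, ?_, fun v hv => ?_⟩
  · rw [Matrix.mul_assoc, ← Matrix.mul_assoc A' B' B, h1', Matrix.one_mul, h1]
  · rw [Matrix.mul_assoc, ← Matrix.mul_assoc B A A', h2, Matrix.one_mul, h2']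
  · rw [h3 v hv, h3' v hv]
    simp only [Matrix.mul_assoc]

theorem EqvOn.symm {κ₀ κ : Type*} [Fintype κ₀] [DecidableEq κ₀] [Fintype κ] [DecidableEq κ]
    {V : Subgroup P} {σ : P → Matrix κ₀ κ₀ K} {T : P → Matrix κ κ K} (h : EqvOn V σ T) :
    EqvOn V T σ := by
  obtain ⟨A, B, h1, h2, h3⟩ := h
  refine ⟨B, A, h2, h1, fun v hv => ?_⟩
  rw [h3 v hv]
  calc T v = (B * A) * T v * (B * A) := by rw [h2, Matrix.one_mul, Matrix.mul_one]
    _ = B * (A * T v * B) * A := by simp only [Matrix.mul_assoc]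

theorem EqvOn.refl {κ : Type*} [Fintype κ] [DecidableEq κ] {V : Subgroup P}
    (σ : P → Matrix κ κ K) : EqvOn V σ σ :=
  ⟨1, 1, by rw [Matrix.one_mul], by rw [Matrix.one_mul], fun v _ => by
    rw [Matrix.one_mul, Matrix.mul_one]⟩

theorem EqvOn.congr_right {κ₀ κ : Type*} [Fintype κ₀] [DecidableEq κ₀] [Fintype κ] [DecidableEq κ]
    {V : Subgroup P} {σ : P → Matrix κ₀ κ₀ K} {T T' : P → Matrix κ κ K} (h : EqvOn V σ T)
    (hT : ∀ v ∈ V, T v = T' v) : EqvOn V σ T' := by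
  obtain ⟨A, B, h1, h2, h3⟩ := h
  exact ⟨A, B, h1, h2, fun v hv => by rw [h3 v hv, hT v hv]⟩

/-- Change of the index set. -/
theorem eqvOn_submatrix {κ κ' : Type*} [Fintype κ] [DecidableEq κ] [Fintype κ'] [DecidableEq κ']
    {V : Subgroup P} (T : P → Matrix κ κ K) (e : κ' ≃ κ) :
    EqvOn V T (fun v => (T v).submatrix e e) := by
  refine ⟨(1 : Matrix κ κ K).submatrix id e, (1 : Matrix κ κ K).submatrix e id, ?_, ?_,
    fun v _ => ?_⟩
  · rw [Matrix.submatrix_mul_equiv, Matrix.one_mul, Matrix.submatrix_id_id]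
  · rw [← Matrix.submatrix_mul _ _ e id e Function.bijective_id, Matrix.one_mul,
      Matrix.submatrix_one_equiv]
  · rw [Matrix.submatrix_mul_equiv, Matrix.submatrix_mul_equiv, Matrix.one_mul, Matrix.mul_one,
      Matrix.submatrix_id_id]

theorem EqvOn.kron {κ₀ κ₁ κ₂ κ₃ : Type*} [Fintype κ₀] [DecidableEq κ₀] [Fintype κ₁]
    [DecidableEq κ₁] [Fintype κ₂] [DecidableEq κ₂] [Fintype κ₃] [DecidableEq κ₃]
    {V : Subgroup P} {σ : P → Matrix κ₀ κ₀ K} {T : P → Matrix κ₁ κ₁ K} {σ' : P → Matrix κ₂ κ₂ K}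
    {T' : P → Matrix κ₃ κ₃ K} (h : EqvOn V σ T) (h' : EqvOn V σ' T') :
    EqvOn V (fun v => σ v ⊗ₖ σ' v) (fun v => T v ⊗ₖ T' v) := by
  obtain ⟨A, B, h1, h2, h3⟩ := h
  obtain ⟨A', B', h1', h2', h3'⟩ := h'
  refine ⟨A ⊗ₖ A', B ⊗ₖ B', ?_, ?_, fun v hv => ?_⟩
  · rw [← Matrix.mul_kronecker_mul, h1, h1', Matrix.one_kronecker_one]
  · rw [← Matrix.mul_kronecker_mul, h2, h2', Matrix.one_kronecker_one]
  · show σ v ⊗ₖ σ' v = (A ⊗ₖ A') * (T v ⊗ₖ T' v) * (B ⊗ₖ B')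
    rw [h3 v hv, h3' v hv, Matrix.mul_kronecker_mul, Matrix.mul_kronecker_mul]

theorem EqvOn.card_eq {κ₀ κ : Type*} [Fintype κ₀] [DecidableEq κ₀] [Fintype κ] [DecidableEq κ]
    {V : Subgroup P} {σ : P → Matrix κ₀ κ₀ K} {T : P → Matrix κ κ K} (h : EqvOn V σ T) :
    Fintype.card κ₀ = Fintype.card κ := by
  obtain ⟨A, B, h1, h2, -⟩ := h
  exact Matrix.square_of_invertible A B h1 h2

omit [Group P] in
/-- A spanning set goes to a spanning set. -/
theorem span_of_conj {κ₀ κ : Type*} [Fintype κ₀] [DecidableEq κ₀] [Fintype κ] [DecidableEq κ]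
    {A : Matrix κ₀ κ K} {B : Matrix κ κ₀ K} (hAB : A * B = 1)
    {S : Set P} {σ : P → Matrix κ₀ κ₀ K} {T : P → Matrix κ κ K}
    (h : ∀ v ∈ S, σ v = A * T v * B) (hT : Submodule.span K (T '' S) = ⊤) :
    Submodule.span K (σ '' S) = ⊤ := by
  rw [eq_top_iff]
  rintro X -
  have h1 : X = A * (B * X * A) * B := by
    rw [← Matrix.mul_assoc, ← Matrix.mul_assoc, hAB, Matrix.one_mul, Matrix.mul_assoc, hAB,
      Matrix.mul_one]
  rw [h1]
  have h2 : B * X * A ∈ Submodule.span K (T '' S) := by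
    rw [hT]
    exact Submodule.mem_top
  generalize B * X * A = Y at h2
  induction h2 using Submodule.span_induction with
  | mem Y hY =>
    obtain ⟨v, hv, rfl⟩ := hY
    rw [← h v hv]
    exact Submodule.subset_span ⟨v, hv, rfl⟩
  | zero => rw [Matrix.mul_zero, Matrix.zero_mul]; exact Submodule.zero_mem _
  | add a b _ _ ha hb => rw [Matrix.mul_add, Matrix.add_mul]; exact Submodule.add_mem _ ha hb
  | smul c a _ ha => rw [Matrix.mul_smul, Matrix.smul_mul]; exact Submodule.smul_mem _ _ ha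

/-- From a basis to matrices. -/
theorem eqvOn_of_basis {κ : Type*} [Fintype κ] [DecidableEq κ] {D : ℕ} {V : Subgroup P}
    {σ : P → Matrix (Fin D) (Fin D) K} {T : P → Matrix κ κ K} {J : κ → (Fin D → K)}
    (hJ : LinearIndependent K J) (hJs : Submodule.span K (Set.range J) = ⊤)
    (hact : ∀ v ∈ V, ∀ q, σ v *ᵥ J q = ∑ p, T v p q • J p) : EqvOn V σ T := by
  classical
  let b : Module.Basis κ K (Fin D → K) := Module.Basis.mk hJ (by rw [hJs])
  have hb : ∀ p, b p = J p := fun p => by simp [b]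
  let e : Module.Basis (Fin D) K (Fin D → K) := Pi.basisFun K (Fin D)
  refine ⟨e.toMatrix b, b.toMatrix e, Module.Basis.toMatrix_mul_toMatrix_flip _ _,
    Module.Basis.toMatrix_mul_toMatrix_flip _ _, fun v hv => ?_⟩
  have hA : ∀ i q, e.toMatrix b i q = J q i := by
    intro i q
    rw [Module.Basis.toMatrix_apply, hb]
    simp [e]
  have h1 : σ v * e.toMatrix b = e.toMatrix b * T v := by
    ext i q
    have h2 := congrFun (hact v hv q) i
    rw [Finset.sum_apply] at h2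
    simp only [Pi.smul_apply, smul_eq_mul] at h2
    rw [Matrix.mul_apply, Matrix.mul_apply]
    simp only [hA]
    calc ∑ j, σ v i j * J q j = (σ v *ᵥ J q) i := rfl
      _ = ∑ p, T v p q * J p i := h2
      _ = ∑ p, J p i * T v p q := Finset.sum_congr rfl fun p _ => mul_comm _ _
  rw [← h1, Matrix.mul_assoc, Module.Basis.toMatrix_mul_toMatrix_flip, Matrix.mul_one]

/-- Tensoring with the trivial representation of dimension one. -/
theorem eqvOn_kron_one {d m : ℕ} {V : Subgroup P} {α : P → Matrix (Fin d) (Fin d) K}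
    {β : P → Matrix (Fin m) (Fin m) K} (hm : m = 1) (hβ : ∀ v ∈ V, β v = 1) :
    EqvOn V (fun v => α v ⊗ₖ β v) α := by
  subst hm
  refine ((eqvOn_submatrix α (Equiv.prodUnique (Fin d) (Fin 1))).congr_right
    fun v hv => ?_).symm
  ext ⟨i, s⟩ ⟨j, t⟩
  rw [Subsingleton.elim s t, hβ v hv, Matrix.submatrix_apply, Matrix.kroneckerMap_apply,
    Matrix.one_apply_eq, mul_one]
  rfl

end Alg

end Pool.Agent.GeoOrig
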