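import Pool.Agent.Lib.GeoOrig.Prime

/-!
# Module HOM: the space of homomorphisms on a subgroup as a representation
-/

namespace Pool.Agent.GeoOrig

open Matrix Topology
open scoped Kronecker

variable {K : Type*} [NontriviallyNormedField K] {P : Type*} [Group P] [TopologicalSpace P]
  [IsTopologicalGroup P] [CompactSpace P] [TotallyDisconnectedSpace P]

private theorem coord_eq {r s k : ℕ} (c : Matrix (Fin s) (Fin r) K →ₗ[K] (Fin k → K))
    (l : Fin k) (Z : Matrix (Fin s) (Fin r) K) :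
    c Z l = ∑ a, ∑ b, Z a b * c (Matrix.single a b 1) l := by
  conv_lhs => rw [Matrix.matrix_eq_sum_single Z]
  rw [map_sum, Finset.sum_apply]
  refine Finset.sum_congr rfl fun a _ => ?_
  rw [map_sum, Finset.sum_apply]
  refine Finset.sum_congr rfl fun b _ => ?_
  have h6 : Matrix.single a b (Z a b) = Z a b • Matrix.single a b (1 : K) := by
    rw [Matrix.smul_single, smul_eq_mul, mul_one]
  rw [h6, map_smul, Pi.smul_apply, smul_eq_mul]

private theorem continuousOn_coord {P : Type*} [TopologicalSpace P] {r s k : ℕ}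
    (c : Matrix (Fin s) (Fin r) K →ₗ[K] (Fin k → K)) (l : Fin k) (X : Matrix (Fin s) (Fin r) K)
    {π : P → Matrix (Fin s) (Fin s) K} {ρ : P → Matrix (Fin r) (Fin r) K} {S : Set P}
    (hπ : ∀ a j, ContinuousOn (fun v => π v a j) S)
    (hρ : ∀ a j, ContinuousOn (fun v => ρ v a j) S) :
    ContinuousOn (fun v => c (π v * X * ρ v) l) S := by
  have h1 : (fun v => c (π v * X * ρ v) l) = fun v => ∑ a, ∑ b,
      (∑ j, (∑ i, π v a i * X i j) * ρ v j b) * c (Matrix.single a b 1) l := by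
    funext v
    rw [coord_eq c l]
    simp only [Matrix.mul_apply]
  rw [h1]
  refine continuousOn_finsetSum _ fun a _ => continuousOn_finsetSum _ fun b _ => ?_
  refine ContinuousOn.mul ?_ continuousOn_const
  refine continuousOn_finsetSum _ fun j _ => ?_
  refine ContinuousOn.mul ?_ (hρ j b)
  refine continuousOn_finsetSum _ fun i _ => ?_
  exact (hπ a i).mul continuousOn_const

private theorem continuousOn_entry {P : Type*} [TopologicalSpace P] {m n : ℕ}
    {M : P → Matrix (Fin m) (Fin n) K} {S : Set P} (h : ContinuousOn M S) (i : Fin m)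
    (j : Fin n) : ContinuousOn (fun v => M v i j) S := by
  intro x hx
  have h1 : Continuous (fun Z : Matrix (Fin m) (Fin n) K => Z i j) :=
    (continuous_apply j).comp (continuous_apply i : Continuous fun Z : Fin m → Fin n → K => Z i)
  exact h1.continuousAt.comp_continuousWithinAt (h x hx)

private theorem continuousOn_of_entry {P : Type*} [TopologicalSpace P] {m n : ℕ}
    {M : P → Matrix (Fin m) (Fin n) K} {S : Set P}
    (h : ∀ i j, ContinuousOn (fun v => M v i j) S) : ContinuousOn M S := by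
  intro x hx
  have h1 : Filter.Tendsto (fun v => (M v : Fin m → Fin n → K)) (nhdsWithin x S)
      (nhds (M x : Fin m → Fin n → K)) :=
    tendsto_pi_nhds.2 fun i => tendsto_pi_nhds.2 fun j => h i j x hx
  exact h1

/-- The action of `v` on homomorphisms. -/
def homAct {r s : ℕ} (π : P → Matrix (Fin s) (Fin s) K) (ρ : P → Matrix (Fin r) (Fin r) K)
    (v : P) : Matrix (Fin s) (Fin r) K →ₗ[K] Matrix (Fin s) (Fin r) K where
  toFun X := π v * X * ρ v⁻¹
  map_add' X Y := by rw [Matrix.mul_add, Matrix.add_mul]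
  map_smul' c X := by rw [Matrix.mul_smul, Matrix.smul_mul, RingHom.id_apply]

omit [IsTopologicalGroup P] [CompactSpace P] [TotallyDisconnectedSpace P] in
theorem homAct_mul {r s : ℕ} {U : Subgroup P} {π : P → Matrix (Fin s) (Fin s) K}
    {ρ : P → Matrix (Fin r) (Fin r) K} (hπ : RepOn U π) (hρ : RepOn U ρ) {u v : P} (hu : u ∈ U)
    (hv : v ∈ U) (X : Matrix (Fin s) (Fin r) K) :
    homAct π ρ (u * v) X = homAct π ρ u (homAct π ρ v X) := by
  show π (u * v) * X * ρ (u * v)⁻¹ = π u * (π v * X * ρ v⁻¹) * ρ u⁻¹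
  rw [_root_.mul_inv_rev, hπ.mul u hu v hv, hρ.mul _ (U.inv_mem hv) _ (U.inv_mem hu)]
  simp only [Matrix.mul_assoc]

omit [IsTopologicalGroup P] [CompactSpace P] [TotallyDisconnectedSpace P] in
theorem homAct_one {r s : ℕ} {U : Subgroup P} {π : P → Matrix (Fin s) (Fin s) K}
    {ρ : P → Matrix (Fin r) (Fin r) K} (hπ : RepOn U π) (hρ : RepOn U ρ)
    (X : Matrix (Fin s) (Fin r) K) : homAct π ρ 1 X = X := by
  show π 1 * X * ρ 1⁻¹ = X
  rw [inv_one, hπ.one, hρ.one, Matrix.one_mul, Matrix.mul_one]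

/-- The homomorphism space contains a piece which is irreducible on all open subgroups. -/
theorem homrep {r s : ℕ} {U₀ : Subgroup P} (hU₀ : IsOpen (U₀ : Set P)) (hU₀n : U₀.Normal)
    {π : P → Matrix (Fin s) (Fin s) K} {ρ : P → Matrix (Fin r) (Fin r) K} (hπ : RepOn U₀ π)
    (hρ : RepOn U₀ ρ) {N : Subgroup P} (hN : ∀ v ∈ U₀, ∀ x ∈ N, v * x * v⁻¹ ∈ N)
    {X₀ : Matrix (Fin s) (Fin r) K} (hX₀ : X₀ ≠ 0)
    (hX₀N : ∀ g ∈ N ⊓ U₀, π g * X₀ = X₀ * ρ g) :
    ∃ U : Subgroup P, U ≤ U₀ ∧ IsOpen (U : Set P) ∧ U.Normal ∧ ∃ k : ℕ, 0 < k ∧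
      ∃ (M : P → Matrix (Fin k) (Fin k) K) (X : Fin k → Matrix (Fin s) (Fin r) K),
        RepOn U M ∧ (∀ g ∈ N ⊓ U, M g = 1) ∧ LinearIndependent K X ∧
        (∀ U' : Subgroup P, U' ≤ U → IsOpen (U' : Set P) → ∀ Y : Submodule K (Fin k → K),
          (∀ v ∈ U', ∀ y ∈ Y, M v *ᵥ y ∈ Y) → Y = ⊥ ∨ Y = ⊤) ∧
        ∀ v ∈ U, ∀ i, X i * ρ v = ∑ l, M v i l • (π v * X l) := by
  classical
  let H : Submodule K (Matrix (Fin s) (Fin r) K) :=
    { carrier := {X | ∀ g ∈ N ⊓ U₀, π g * X = X * ρ g}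
      add_mem' := fun {X Y} hX hY g hg => by rw [Matrix.mul_add, Matrix.add_mul, hX g hg, hY g hg]
      zero_mem' := fun g _ => by rw [Matrix.mul_zero, Matrix.zero_mul]
      smul_mem' := fun c X hX g hg => by rw [Matrix.mul_smul, Matrix.smul_mul, hX g hg] }
  have hHst : ∀ v ∈ U₀, ∀ X ∈ H, homAct π ρ v X ∈ H := by
    intro v hv X hX g hg
    have hgv : v⁻¹ * g * v ∈ N ⊓ U₀ := by
      refine ⟨?_, U₀.mul_mem (U₀.mul_mem (U₀.inv_mem hv) hg.2) hv⟩
      have := hN v⁻¹ (U₀.inv_mem hv) g hg.1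
      rwa [inv_inv] at this
    have h1 := hX _ hgv
    show π g * (π v * X * ρ v⁻¹) = π v * X * ρ v⁻¹ * ρ g
    have h2 : π g * π v = π v * π (v⁻¹ * g * v) := by
      rw [← hπ.mul g hg.2 v hv, ← hπ.mul v hv _ hgv.2]
      congr 1
      group
    have h3 : ρ (v⁻¹ * g * v) * ρ v⁻¹ = ρ v⁻¹ * ρ g := by
      rw [← hρ.mul _ hgv.2 _ (U₀.inv_mem hv), ← hρ.mul _ (U₀.inv_mem hv) g hg.2]
      congr 1
      group
    calc π g * (π v * X * ρ v⁻¹) = π g * π v * X * ρ v⁻¹ := by simp only [Matrix.mul_assoc]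
      _ = π v * (π (v⁻¹ * g * v) * X) * ρ v⁻¹ := by rw [h2]; simp only [Matrix.mul_assoc]
      _ = π v * X * (ρ (v⁻¹ * g * v) * ρ v⁻¹) := by rw [h1]; simp only [Matrix.mul_assoc]
      _ = π v * X * ρ v⁻¹ * ρ g := by rw [h3]; simp only [Matrix.mul_assoc]
  -- a minimal stable subspace
  let Q : ℕ → Prop := fun n => ∃ U : Subgroup P, U ≤ U₀ ∧ IsOpen (U : Set P) ∧ U.Normal ∧
    ∃ Y : Submodule K (Matrix (Fin s) (Fin r) K), Y ≤ H ∧ Y ≠ ⊥ ∧
      (∀ v ∈ U, ∀ X ∈ Y, homAct π ρ v X ∈ Y) ∧ Module.finrank K Y = n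
  have hQ : ∃ n, Q n := by
    refine ⟨_, U₀, le_rfl, hU₀, hU₀n, H, le_rfl, ?_, hHst, rfl⟩
    intro h
    have h1 : X₀ ∈ H := hX₀N
    rw [h, Submodule.mem_bot] at h1
    exact hX₀ h1
  obtain ⟨U, hUU₀, hUo, hUn, Y, hYH, hY0, hYst, hYk⟩ := Nat.find_spec hQ
  set k := Nat.find hQ with hk
  have hk0 : 0 < k := by
    rw [← hYk]
    have : Nontrivial Y := Submodule.nontrivial_iff_ne_bot.2 hY0
    exact Module.finrank_pos
  have hmin : ∀ (U' : Subgroup P), U' ≤ U → IsOpen (U' : Set P) →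
      ∀ Y' : Submodule K (Matrix (Fin s) (Fin r) K), Y' ≤ Y → Y' ≠ ⊥ →
      (∀ v ∈ U', ∀ X ∈ Y', homAct π ρ v X ∈ Y') → k ≤ Module.finrank K Y' := by
    intro U' hU'U hU'o Y' hY'Y hY'0 hY'st
    obtain ⟨U'', hU''U', hU''o, hU''n⟩ := exists_normal hU'o
    exact Nat.find_min' hQ ⟨U'', hU''U'.trans (hU'U.trans hUU₀), hU''o, hU''n, Y',
      hY'Y.trans hYH, hY'0, fun v hv => hY'st v (hU''U' hv), rfl⟩
  obtain ⟨X, hXY, hXli, hXs⟩ : ∃ X : Fin k → Matrix (Fin s) (Fin r) K, (∀ i, X i ∈ Y) ∧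
      LinearIndependent K X ∧ ∀ Z ∈ Y, ∃ f : Fin k → K, ∑ i, f i • X i = Z := by
    let b : Module.Basis (Fin k) K Y := Module.finBasisOfFinrankEq K Y hYk
    refine ⟨fun i => (b i : Matrix (Fin s) (Fin r) K), fun i => (b i).2,
      b.linearIndependent.map' Y.subtype (Submodule.ker_subtype Y), fun Z hZ => ?_⟩
    refine ⟨fun i => b.repr ⟨Z, hZ⟩ i, ?_⟩
    have h1 := b.sum_repr ⟨Z, hZ⟩
    have h2 := congrArg (fun z : Y => (z : Matrix (Fin s) (Fin r) K)) h1
    simp only [Submodule.coe_sum, Submodule.coe_smul] at h2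
    exact h2
  -- coordinates on the whole space
  let Lc : (Fin k → K) →ₗ[K] Matrix (Fin s) (Fin r) K := Fintype.linearCombination K X
  have hLc : ∀ f, Lc f = ∑ i, f i • X i := fun f => Fintype.linearCombination_apply K X f
  have hLcinj : Function.Injective Lc :=
    linearIndependent_iff_injective_fintypeLinearCombination.1 hXli
  have hLcr : ∀ Z ∈ Y, ∃ f, Lc f = Z := by
    intro Z hZ
    obtain ⟨f, hf⟩ := hXs Z hZ
    exact ⟨f, by rw [hLc, hf]⟩
  have hLcY : ∀ f, Lc f ∈ Y := by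
    intro f
    rw [hLc]
    exact Submodule.sum_mem _ fun i _ => Submodule.smul_mem _ _ (hXY i)
  obtain ⟨c, hc⟩ := LinearMap.exists_leftInverse_of_injective Lc (LinearMap.ker_eq_bot.2 hLcinj)
  have hcL : ∀ f, c (Lc f) = f := fun f => LinearMap.congr_fun hc f
  have hLcc : ∀ Z ∈ Y, Lc (c Z) = Z := by
    intro Z hZ
    obtain ⟨f, rfl⟩ := hLcr Z hZ
    rw [hcL]
  have hLcs : ∀ i, Lc (Pi.single i 1) = X i := by
    intro i
    rw [hLc, Finset.sum_eq_single i]
    · rw [Pi.single_eq_same, one_smul]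
    · intro j _ hj
      rw [Pi.single_eq_of_ne hj, zero_smul]
    · intro h
      exact absurd (Finset.mem_univ i) h
  let M : P → Matrix (Fin k) (Fin k) K := fun v => Matrix.of fun i l => c (homAct π ρ v⁻¹ (X i)) l
  have hM : ∀ v i l, M v i l = c (homAct π ρ v⁻¹ (X i)) l := fun _ _ _ => rfl
  have hMX : ∀ v ∈ U, ∀ i, homAct π ρ v⁻¹ (X i) = ∑ l, M v i l • X l := by
    intro v hv i
    rw [← hLcc _ (hYst v⁻¹ (U.inv_mem hv) _ (hXY i)), hLc]
    rfl
  have hπU : RepOn U π := repOn_mono hπ hUU₀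
  have hρU : RepOn U ρ := repOn_mono hρ hUU₀
  have hπinv : ∀ v ∈ U, π v * π v⁻¹ = 1 := by
    intro v hv
    rw [← hπU.mul v hv _ (U.inv_mem hv), mul_inv_cancel, hπU.one]
  refine ⟨U, hUU₀, hUo, hUn, k, hk0, M, X, ⟨?_, ?_, ?_⟩, ?_, hXli, ?_, ?_⟩
  · ext i l
    rw [hM, inv_one, homAct_one hπU hρU, ← hLcs i, hcL, Matrix.one_apply, Pi.single_apply]
    by_cases h : i = l
    · rw [if_pos h, if_pos h.symm]
    · rw [if_neg h, if_neg (fun h' => h h'.symm)]
  · intro u hu v hv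
    ext i l
    rw [hM, _root_.mul_inv_rev, homAct_mul hπU hρU (U.inv_mem hv) (U.inv_mem hu), hMX u hu i,
      map_sum, map_sum, Matrix.mul_apply, Finset.sum_apply]
    refine Finset.sum_congr rfl fun j _ => ?_
    rw [map_smul, map_smul, Pi.smul_apply, smul_eq_mul, hM v j l]
  · have h1 : ContinuousOn (fun v : P => π v⁻¹) (U : Set P) :=
      hπU.cont.comp continuous_inv.continuousOn (fun u hu => U.inv_mem hu)
    have h3 : ∀ i l, ContinuousOn (fun v => M v i l) (U : Set P) := by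
      intro i l
      have h2 : ContinuousOn (fun v : P => c (π v⁻¹ * X i * ρ v) l) (U : Set P) :=
        continuousOn_coord c l (X i) (π := fun v => π v⁻¹) (ρ := ρ) (continuousOn_entry h1)
          (continuousOn_entry hρU.cont)
      have h7 : (fun v => M v i l) = fun v => c (π v⁻¹ * X i * ρ v) l := by
        funext v
        rw [hM]
        show c (π v⁻¹ * X i * ρ v⁻¹⁻¹) l = _
        rw [inv_inv]
      rw [h7]
      exact h2
    exact continuousOn_of_entry h3
  · intro g hg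
    ext i l
    have hgi : g⁻¹ ∈ N ⊓ U₀ := ⟨N.inv_mem hg.1, hUU₀ (U.inv_mem hg.2)⟩
    have h1 : homAct π ρ g⁻¹ (X i) = X i := by
      show π g⁻¹ * X i * ρ g⁻¹⁻¹ = X i
      rw [hYH (hXY i) g⁻¹ hgi, Matrix.mul_assoc, ← hρU.mul _ (U.inv_mem hg.2) _
        (by rw [inv_inv]; exact hg.2), mul_inv_cancel, hρU.one, Matrix.mul_one]
    rw [hM, h1, ← hLcs i, hcL, Matrix.one_apply, Pi.single_apply]
    by_cases h : i = l
    · rw [if_pos h, if_pos h.symm]
    · rw [if_neg h, if_neg (fun h' => h h'.symm)]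
  · intro U' hU'U hU'o Z hZ
    let Zp : Submodule K (Fin k → K) :=
      { carrier := {f | ∀ y ∈ Z, f ⬝ᵥ y = 0}
        add_mem' := fun {f g} hf hg y hy => by rw [add_dotProduct, hf y hy, hg y hy, add_zero]
        zero_mem' := fun y _ => zero_dotProduct y
        smul_mem' := fun c f hf y hy => by rw [smul_dotProduct, hf y hy, smul_zero] }
    have hst : ∀ v ∈ U', ∀ W ∈ Zp.map Lc, homAct π ρ v W ∈ Zp.map Lc := by
      rintro v hv _ ⟨f, hf, rfl⟩
      refine ⟨f ᵥ* M v⁻¹, ?_, ?_⟩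
      · intro y hy
        rw [← Matrix.dotProduct_mulVec]
        exact hf _ (hZ v⁻¹ (U'.inv_mem hv) y hy)
      · rw [hLc, hLc, map_sum]
        have h1 : ∀ i, homAct π ρ v (f i • X i) = ∑ l, (f i * M v⁻¹ i l) • X l := by
          intro i
          have h2 := hMX v⁻¹ (U.inv_mem (hU'U hv)) i
          rw [inv_inv] at h2
          rw [map_smul, h2, Finset.smul_sum]
          exact Finset.sum_congr rfl fun l _ => smul_smul _ _ _
        simp only [h1]
        rw [Finset.sum_comm]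
        refine Finset.sum_congr rfl fun l _ => ?_
        rw [← Finset.sum_smul]
        rfl
    have hle : Zp.map Lc ≤ Y := by
      rintro _ ⟨f, -, rfl⟩
      exact hLcY f
    by_cases h0 : Zp.map Lc = ⊥
    · right
      by_contra hne
      obtain ⟨φ, hφ0, hφ⟩ := Submodule.exists_le_ker_of_lt_top Z (lt_top_iff_ne_top.2 hne)
      have h1 : (fun i => φ (Pi.single i 1)) ∈ Zp := by
        intro y hy
        have h2 : φ y = 0 := hφ hy
        rw [← h2]
        conv_rhs => rw [← Finset.univ_sum_single y]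
        rw [map_sum]
        refine Finset.sum_congr rfl fun i _ => ?_
        have h3 : (Pi.single i (y i) : Fin k → K) = y i • Pi.single i 1 := by
          rw [← Pi.single_smul, smul_eq_mul, mul_one]
        rw [h3, map_smul, smul_eq_mul, mul_comm]
      have h2 : (fun i => φ (Pi.single i 1)) = (0 : Fin k → K) := by
        apply hLcinj
        rw [map_zero]
        have h3 : Lc (fun i => φ (Pi.single i 1)) ∈ Zp.map Lc := ⟨_, h1, rfl⟩
        rwa [h0, Submodule.mem_bot] at h3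
      apply hφ0
      refine LinearMap.pi_ext' fun i => LinearMap.ext_ring ?_
      exact congrFun h2 i
    · left
      have h1 := hmin U' hU'U hU'o _ hle h0 hst
      have h2 : Module.finrank K (Zp.map Lc) = Module.finrank K Zp :=
        (LinearEquiv.finrank_eq (Submodule.equivMapOfInjective Lc hLcinj Zp)).symm
      have h3 : Zp = ⊤ := by
        apply Submodule.eq_top_of_finrank_eq
        apply le_antisymm (Submodule.finrank_le Zp)
        rw [Module.finrank_fin_fun, ← h2]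
        exact h1
      rw [Submodule.eq_bot_iff]
      intro y hy
      funext i
      have h4 : (Pi.single i 1 : Fin k → K) ∈ Zp := by rw [h3]; exact Submodule.mem_top
      have h5 := h4 y hy
      rwa [single_one_dotProduct] at h5
  · intro v hv i
    have h1 := hMX v hv i
    have h2 : π v * homAct π ρ v⁻¹ (X i) = X i * ρ v := by
      show π v * (π v⁻¹ * X i * ρ v⁻¹⁻¹) = X i * ρ v
      rw [inv_inv, ← Matrix.mul_assoc, ← Matrix.mul_assoc, hπinv v hv, Matrix.one_mul]
    rw [← h2, h1, Matrix.mul_sum]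
    exact Finset.sum_congr rfl fun l _ => by rw [Matrix.mul_smul]

end Pool.Agent.GeoOrig
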