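import Pool.Agent.Lib.GeoOrig.Eqv

/-!
# Module IND: Lie-irreducible representations, tensor-indecomposable representations, dichotomy
-/

namespace Pool.Agent.GeoOrig

open Matrix Topology
open scoped Kronecker

variable {K : Type*} [NontriviallyNormedField K] {P : Type*} [Group P] [TopologicalSpace P]
  [IsTopologicalGroup P] [CompactSpace P] [TotallyDisconnectedSpace P]

/-- `σ` is a continuous representation of `V` of determinant one which is irreducible on all open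
subgroups, and takes no scalar values but `1`. -/
structure LieIrr {D : ℕ} (V : Subgroup P) (σ : P → Matrix (Fin D) (Fin D) K) : Prop where
  rep : RepOn V σ
  det : ∀ v ∈ V, (σ v).det = 1
  span : ∀ W : Subgroup P, W ≤ V → IsOpen (W : Set P) →
    Submodule.span K (σ '' (W : Set P)) = ⊤
  scal : ∀ v ∈ V, ∀ c : K, σ v = c • (1 : Matrix (Fin D) (Fin D) K) → σ v = 1

omit [IsTopologicalGroup P] [CompactSpace P] [TotallyDisconnectedSpace P] in
theorem LieIrr.mono {D : ℕ} {V W : Subgroup P} {σ : P → Matrix (Fin D) (Fin D) K}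
    (h : LieIrr V σ) (hW : W ≤ V) : LieIrr W σ :=
  ⟨repOn_mono h.rep hW, fun v hv => h.det v (hW hv), fun W' hW' => h.span W' (hW'.trans hW),
    fun v hv => h.scal v (hW hv)⟩

/-- `σ` is not a tensor product on any open subgroup. -/
def TPrime {D : ℕ} (V : Subgroup P) (σ : P → Matrix (Fin D) (Fin D) K) : Prop :=
  ∀ W : Subgroup P, W ≤ V → IsOpen (W : Set P) → ∀ a b : ℕ, 2 ≤ a → 2 ≤ b →
    ∀ (α : P → Matrix (Fin a) (Fin a) K) (β : P → Matrix (Fin b) (Fin b) K),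
      LieIrr W α → LieIrr W β → ¬ EqvOn W σ (fun v => α v ⊗ₖ β v)

omit [IsTopologicalGroup P] [CompactSpace P] [TotallyDisconnectedSpace P] in
theorem TPrime.mono {D : ℕ} {V W : Subgroup P} {σ : P → Matrix (Fin D) (Fin D) K}
    (h : TPrime V σ) (hW : W ≤ V) : TPrime W σ :=
  fun W' hW' => h W' (hW'.trans hW)

omit [IsTopologicalGroup P] [CompactSpace P] [TotallyDisconnectedSpace P] in
/-- Semisimplicity on a subgroup normalised by `W`. -/
theorem ssOn_of_normalized {D : ℕ} {W M : Subgroup P} {σ : P → Matrix (Fin D) (Fin D) K}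
    (hσ : RepOn W σ) (hspan : Submodule.span K (σ '' (W : Set P)) = ⊤) (hMW : M ≤ W)
    (hM : ∀ g ∈ W, ∀ x ∈ M, g * x * g⁻¹ ∈ M) : SSOn (σ '' (M : Set P)) := by
  classical
  let f : ↥W →* Matrix (Fin D) (Fin D) K :=
    { toFun := fun g => σ g
      map_one' := hσ.one
      map_mul' := fun a b => hσ.mul a a.2 b b.2 }
  have hn : (M.subgroupOf W).Normal := by
    refine ⟨fun x hx g => ?_⟩
    rw [Subgroup.mem_subgroupOf] at hx ⊢
    exact hM g g.2 x hx
  have h1 := cliff (K := K) f.toHomUnits (fun X hX => by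
    by_cases hX0 : X = ⊥
    · exact Or.inl hX0
    · right
      obtain ⟨w, hw, hw0⟩ := Submodule.exists_mem_ne_zero_of_ne_bot hX0
      refine eq_top_of_stable hspan ?_ hw hw0
      rintro _ ⟨g, hg, rfl⟩ w hw
      exact hX ⟨g, hg⟩ w hw) (M.subgroupOf W)
  have h2 : ((fun g : ↥W => ((f.toHomUnits g : GL (Fin D) K) : Matrix (Fin D) (Fin D) K)) ''
      ((M.subgroupOf W : Subgroup ↥W) : Set ↥W)) = σ '' (M : Set P) := by
    ext X
    constructor
    · rintro ⟨g, hg, rfl⟩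
      exact ⟨g, hg, rfl⟩
    · rintro ⟨g, hg, rfl⟩
      exact ⟨⟨g, hMW hg⟩, hg, rfl⟩
  rwa [h2] at h1

/-- A tensor decomposition of a Lie-irreducible representation consists of Lie-irreducible
representations. -/
theorem pair_of_J {D d m : ℕ} (hd : 0 < d) (hm : 0 < m) {V W : Subgroup P} (hWV : W ≤ V)
    (hWo : IsOpen (W : Set P)) {σ : P → Matrix (Fin D) (Fin D) K} (hσ : LieIrr V σ)
    {α : P → Matrix (Fin d) (Fin d) K} {β : P → Matrix (Fin m) (Fin m) K} (hα : RepOn W α)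
    (hαd : ∀ v ∈ W, (α v).det = 1)
    (hαs : ∀ v ∈ W, ∀ c : K, α v = c • (1 : Matrix (Fin d) (Fin d) K) → α v = 1)
    (hβ : RepOn W β) {J : Fin d → Fin m → (Fin D → K)}
    (hJ : LinearIndependent K (fun p : Fin d × Fin m => J p.1 p.2))
    (hact : ∀ v ∈ W, ∀ j t, σ v *ᵥ J j t = ∑ k, ∑ s, (α v k j * β v s t) • J k s) :
    ∃ W' : Subgroup P, W' ≤ W ∧ IsOpen (W' : Set P) ∧ LieIrr W' α ∧ LieIrr W' β ∧ d * m = D ∧
      EqvOn W' σ (fun v => α v ⊗ₖ β v) := by
  classical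
  have hned : Nonempty (Fin d) := ⟨⟨0, hd⟩⟩
  have hnem : Nonempty (Fin m) := ⟨⟨0, hm⟩⟩
  have hJs : Submodule.span K (Set.range fun p : Fin d × Fin m => J p.1 p.2) = ⊤ := by
    refine span_eq_top_of_stable (hσ.span W hWV hWo) hJ (⟨0, hd⟩, ⟨0, hm⟩) ?_
    rintro _ ⟨v, hv, rfl⟩ ⟨j, t⟩
    simp only
    rw [hact v hv j t]
    exact Submodule.sum_mem _ fun k _ => Submodule.sum_mem _ fun s _ =>
      Submodule.smul_mem _ _ (Submodule.subset_span ⟨(k, s), rfl⟩)
  have heqv : EqvOn W σ (fun v => α v ⊗ₖ β v) := by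
    refine eqvOn_of_basis hJ hJs fun v hv q => ?_
    rw [hact v hv q.1 q.2, Fintype.sum_prod_type]
    rfl
  -- the swapped basis
  have hJ' : LinearIndependent K (fun p : Fin m × Fin d => J p.2 p.1) :=
    hJ.comp (fun p : Fin m × Fin d => (p.2, p.1)) fun a b h =>
      Prod.ext (Prod.mk.inj h).2 (Prod.mk.inj h).1
  have hJs' : Submodule.span K (Set.range fun p : Fin m × Fin d => J p.2 p.1) = ⊤ := by
    rw [eq_top_iff, ← hJs]
    refine Submodule.span_mono ?_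
    rintro _ ⟨p, rfl⟩
    exact ⟨(p.2, p.1), rfl⟩
  have hβspan : ∀ W' : Subgroup P, W' ≤ W → IsOpen (W' : Set P) →
      Submodule.span K (β '' (W' : Set P)) = ⊤ := fun W' hW' hW'o =>
    (tensor_factor hJ hJs (ρ₀ := σ) (A := α) (S := W') fun v hv j t => hact v (hW' hv) j t).1
      (hσ.span W' (hW'.trans hWV) hW'o)
  have hαspan : ∀ W' : Subgroup P, W' ≤ W → IsOpen (W' : Set P) →
      Submodule.span K (α '' (W' : Set P)) = ⊤ := fun W' hW' hW'o =>
    (tensor_factor (J := fun t j => J j t) hJ' hJs' (ρ₀ := σ) (A := β) (S := W')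
      fun v hv t j => by
        rw [hact v (hW' hv) j t, Finset.sum_comm]
        exact Finset.sum_congr rfl fun s _ => Finset.sum_congr rfl fun k _ => by
          rw [mul_comm]).1 (hσ.span W' (hW'.trans hWV) hW'o)
  have hβdet : ∀ v ∈ W, (β v).det ^ d = 1 := by
    intro v hv
    have h1 := (tensor_factor hJ hJs (ρ₀ := σ) (A := α) (S := W)
      fun v hv j t => hact v hv j t).2 v hv
    rw [hσ.det v (hWV hv), hαd v hv, one_pow, one_mul, Fintype.card_fin] at h1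
    exact h1.symm
  obtain ⟨W₁, hW₁W, hW₁o, -, hW₁⟩ := exists_const hWo (f := fun v => (β v).det)
    ((Continuous.matrix_det continuous_id).comp_continuousOn hβ.cont) (W : Set P) (by
      refine (finite_roots hd).subset ?_
      rintro _ ⟨u, ⟨hu, _⟩, rfl⟩
      exact hβdet u hu)
  have hβdet1 : ∀ v ∈ W₁, (β v).det = 1 := by
    intro v hv
    rw [hW₁ v hv (hW₁W hv), hβ.one, Matrix.det_one]
  obtain ⟨W₂, hW₂W₁, hW₂o, -, hW₂⟩ := exists_noscalar hW₁o hm (repOn_mono hβ hW₁W) hβdet1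
  have hW₂W : W₂ ≤ W := hW₂W₁.trans hW₁W
  refine ⟨W₂, hW₂W, hW₂o, ⟨repOn_mono hα hW₂W, fun v hv => hαd v (hW₂W hv),
    fun W' hW' => hαspan W' (hW'.trans hW₂W), fun v hv => hαs v (hW₂W hv)⟩,
    ⟨repOn_mono hβ hW₂W, fun v hv => hβdet1 v (hW₂W₁ hv),
    fun W' hW' => hβspan W' (hW'.trans hW₂W), hW₂⟩, ?_, heqv.mono hW₂W⟩
  have h1 := heqv.card_eq
  rw [Fintype.card_prod, Fintype.card_fin, Fintype.card_fin, Fintype.card_fin] at h1
  exact h1.symm

/-- A matrix of size one. -/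
theorem eq_one_of_det {m : ℕ} (hm : m = 1) {A : Matrix (Fin m) (Fin m) K} (h : A.det = 1) :
    A = 1 := by
  subst hm
  rw [Matrix.det_fin_one] at h
  ext i j
  rw [Subsingleton.elim i 0, Subsingleton.elim j 0, h, Matrix.one_apply_eq]

/-- Dichotomy. -/
theorem dich [IsAlgClosed K] {D : ℕ} (hD : 0 < D) {V : Subgroup P} (hVo : IsOpen (V : Set P))
    {σ : P → Matrix (Fin D) (Fin D) K} (hσ : LieIrr V σ) (hp : TPrime V σ)
    {N W : Subgroup P} (hWo : IsOpen (W : Set P)) (hN : ∀ g ∈ W, ∀ x ∈ N, g * x * g⁻¹ ∈ N) :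
    (∃ V' : Subgroup P, V' ≤ V ∧ IsOpen (V' : Set P) ∧ ∀ x ∈ N ⊓ V', σ x = 1) ∨
      ∀ V' : Subgroup P, IsOpen (V' : Set P) →
        Submodule.span K (σ '' ((N ⊓ V ⊓ V' : Subgroup P) : Set P)) = ⊤ := by
  classical
  have hUo : IsOpen ((W ⊓ V : Subgroup P) : Set P) := by
    simpa using hWo.inter hVo
  obtain ⟨V₂, hV₂U, hV₂o, hV₂n, d, m, hd, hm, α, β, hα, hβ, hαd, hαs, hβs, hαspan, -, J, hJ,
    hact⟩ := stepN (N := N) hD hUo (fun u hu x hx => hN u hu.1 x hx)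
      (repOn_mono hσ.rep inf_le_right) (fun V₁ hV₁ hV₁o hV₁n => by
        refine ssOn_of_normalized (W := V₁) (repOn_mono hσ.rep (hV₁.trans inf_le_right))
          (hσ.span V₁ (hV₁.trans inf_le_right) hV₁o) inf_le_right ?_
        intro g hg x hx
        exact ⟨hN g (hV₁ hg).1 x hx.1, hV₁n.conj_mem x hx.2 g⟩)
  have hV₂V : V₂ ≤ V := hV₂U.trans inf_le_right
  obtain ⟨W', hW'V₂, hW'o, hα', hβ', hdm, heqv⟩ := pair_of_J hd hm hV₂V hV₂o hσ hα hαd hαs hβ hJ
    hact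
  have hW'V : W' ≤ V := hW'V₂.trans hV₂V
  by_cases h1 : d = 1
  · left
    obtain ⟨A, B, hAB, hBA, hform⟩ := heqv
    refine ⟨W', hW'V, hW'o, fun x hx => ?_⟩
    obtain ⟨c, hc⟩ := hβs x ⟨hx.1, hW'V₂ hx.2⟩
    rw [hform x hx.2]
    show A * (α x ⊗ₖ β x) * B = 1
    rw [hβ'.scal x hx.2 c hc, eq_one_of_det h1 (hα'.det x hx.2),
      Matrix.one_kronecker_one, Matrix.mul_one, hAB]
  by_cases h2 : m = 1
  · right
    intro V' hV'
    obtain ⟨A, B, hAB, hBA, hform⟩ := heqv.trans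
      (eqvOn_kron_one h2 fun v hv => eq_one_of_det h2 (hβ'.det v hv))
    have h3 : Submodule.span K (σ '' ((N ⊓ V₂ ⊓ (W' ⊓ V') : Subgroup P) : Set P)) = ⊤ := by
      refine span_of_conj (T := α) hAB (fun v hv => hform v hv.2.1) ?_
      exact hαspan (W' ⊓ V') (by simpa using hW'o.inter hV')
    rw [eq_top_iff, ← h3]
    refine Submodule.span_mono (Set.image_mono ?_)
    intro x hx
    exact ⟨⟨hx.1.1, hV₂V hx.1.2⟩, hx.2.2⟩
  · exact absurd heqv (hp W' hW'V hW'o d m (by omega) (by omega) α β hα' hβ')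

end Pool.Agent.GeoOrig
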