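import Pool.Agent.Lib.GeoOrig.Sub
import Pool.Agent.Lib.GeoOrig.Dec

/-!
# Module KER: a tensor-indecomposable representation and several subgroups
-/

namespace Pool.Agent.GeoOrig

open Matrix Topology
open scoped Kronecker

variable {K : Type*} [NontriviallyNormedField K] {P : Type*} [Group P] [TopologicalSpace P]
  [IsTopologicalGroup P] [CompactSpace P] [TotallyDisconnectedSpace P]

theorem not_span_scalar {D : ℕ} (hD : 2 ≤ D) {S : Set (Matrix (Fin D) (Fin D) K)}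
    (hS : ∀ X ∈ S, ∃ c : K, X = c • (1 : Matrix (Fin D) (Fin D) K)) :
    Submodule.span K S ≠ ⊤ := by
  intro htop
  let a : Fin D := ⟨0, by omega⟩
  let b : Fin D := ⟨1, by omega⟩
  have hab : a ≠ b := by
    intro h
    have := congrArg Fin.val h
    simp [a, b] at this
  have hX : Matrix.single a b (1 : K) ∈ Submodule.span K S := by
    rw [htop]
    exact Submodule.mem_top
  have hsc : ∀ X ∈ Submodule.span K S, X a b = 0 := by
    intro X hX
    induction hX using Submodule.span_induction with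
    | mem X hX =>
      obtain ⟨c, hc⟩ := hS X hX
      rw [hc, Matrix.smul_apply, Matrix.one_apply_ne hab, smul_zero]
    | zero => rfl
    | add X Y _ _ hX hY => rw [Matrix.add_apply, hX, hY, add_zero]
    | smul c X _ hX => rw [Matrix.smul_apply, hX, smul_zero]
  have h1 := hsc _ hX
  rw [Matrix.single_apply_same] at h1
  exact one_ne_zero h1

/-- Two subgroups on which `σ` is irreducible have intersection with the same property. -/
theorem span_inf [IsAlgClosed K] {D : ℕ} (hD : 2 ≤ D) {V : Subgroup P}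
    (hVo : IsOpen (V : Set P)) {σ : P → Matrix (Fin D) (Fin D) K} (hσ : LieIrr V σ)
    (hp : TPrime V σ) {N N' W : Subgroup P} (hWo : IsOpen (W : Set P))
    (hN : ∀ g ∈ W, ∀ x ∈ N, g * x * g⁻¹ ∈ N) (hN' : ∀ g ∈ W, ∀ x ∈ N', g * x * g⁻¹ ∈ N')
    (h1 : ∀ V' : Subgroup P, IsOpen (V' : Set P) →
      Submodule.span K (σ '' ((N ⊓ V ⊓ V' : Subgroup P) : Set P)) = ⊤)
    (h2 : ∀ V' : Subgroup P, IsOpen (V' : Set P) →
      Submodule.span K (σ '' ((N' ⊓ V ⊓ V' : Subgroup P) : Set P)) = ⊤) :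
    ∀ V' : Subgroup P, IsOpen (V' : Set P) →
      Submodule.span K (σ '' ((N ⊓ N' ⊓ V ⊓ V' : Subgroup P) : Set P)) = ⊤ := by
  rcases dich (by omega) hVo hσ hp (N := N ⊓ N') hWo
    (fun g hg x hx => ⟨hN g hg x hx.1, hN' g hg x hx.2⟩) with ⟨V', hV'V, hV'o, hV'⟩ | h
  swap
  · exact h
  exfalso
  obtain ⟨V₀, hV₀, hV₀o, hV₀n⟩ := exists_normal (U := V' ⊓ W) (by simpa using hV'o.inter hWo)
  have hV₀V' : V₀ ≤ V' := hV₀.trans inf_le_left
  have hV₀W : V₀ ≤ W := hV₀.trans inf_le_right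
  have hV₀V : V₀ ≤ V := hV₀V'.trans hV'V
  refine not_span_scalar hD ?_ (h2 V₀ hV₀o)
  rintro _ ⟨y, hy, rfl⟩
  refine scalar_of_span (h1 V₀ hV₀o) ?_
  rintro _ ⟨x, hx, rfl⟩
  have hyV : y ∈ V := hV₀V hy.2
  have hxV : x ∈ V := hV₀V hx.2
  have hc1 : y * x * y⁻¹ * x⁻¹ ∈ N ⊓ N' := by
    refine ⟨N.mul_mem (hN y (hV₀W hy.2) x hx.1.1) (N.inv_mem hx.1.1), ?_⟩
    have h3 : y * x * y⁻¹ * x⁻¹ = y * (x * y⁻¹ * x⁻¹) := by group
    rw [h3]
    exact N'.mul_mem hy.1.1 (hN' x (hV₀W hx.2) y⁻¹ (N'.inv_mem hy.1.1))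
  have hc2 : y * x * y⁻¹ * x⁻¹ ∈ V₀ :=
    V₀.mul_mem (V₀.mul_mem (V₀.mul_mem hy.2 hx.2) (V₀.inv_mem hy.2)) (V₀.inv_mem hx.2)
  have h4 := hV' _ ⟨hc1, hV₀V' hc2⟩
  have h5 : y * x = (y * x * y⁻¹ * x⁻¹) * (x * y) := by group
  rw [← hσ.rep.mul y hyV x hxV, h5, hσ.rep.mul _ (hV₀V hc2) _ (V.mul_mem hxV hyV), h4, one_mul,
    hσ.rep.mul x hxV y hyV]

theorem solvSer_map {P Q : Type*} [Group P] [Group Q] (f : P →* Q) (H : Subgroup P) (n : ℕ) :
    (solvSer H n).map f = solvSer (H.map f) n := by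
  induction n with
  | zero => rfl
  | succ n ih =>
    show (⁅solvSer H n, solvSer H n⁆ : Subgroup P).map f =
      ⁅solvSer (H.map f) n, solvSer (H.map f) n⁆
    rw [Subgroup.map_commutator, ih]

/-- Kernels. -/
theorem kernels [IsAlgClosed K] {D : ℕ} (hD : 2 ≤ D) {V : Subgroup P}
    (hVo : IsOpen (V : Set P)) {σ : P → Matrix (Fin D) (Fin D) K} (hσ : LieIrr V σ)
    (hp : TPrime V σ) {m : ℕ} (L : Fin m → Subgroup P) {W : Subgroup P}
    (hWo : IsOpen (W : Set P)) (hL : ∀ j, ∀ g ∈ W, ∀ x ∈ L j, g * x * g⁻¹ ∈ L j)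
    {V₁ : Subgroup P} (hV₁o : IsOpen (V₁ : Set P)) (k : ℕ)
    (hk : ∀ g ∈ solvSer (V₁ ⊓ ⨅ j, L j) k, g ∈ V →
      ∃ c : K, σ g = c • (1 : Matrix (Fin D) (Fin D) K)) :
    ∃ j, ∃ V' : Subgroup P, V' ≤ V ∧ IsOpen (V' : Set P) ∧ ∀ x ∈ L j ⊓ V', σ x = 1 := by
  classical
  by_contra hcon
  have hall : ∀ j, ∀ V' : Subgroup P, IsOpen (V' : Set P) →
      Submodule.span K (σ '' ((L j ⊓ V ⊓ V' : Subgroup P) : Set P)) = ⊤ := by
    intro j
    rcases dich (by omega) hVo hσ hp hWo (hL j) with h | h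
    · exact absurd ⟨j, h⟩ hcon
    · exact h
  have hfin : ∀ s : Finset (Fin m), ∀ V' : Subgroup P, IsOpen (V' : Set P) →
      Submodule.span K (σ '' (((⨅ j ∈ s, L j) ⊓ V ⊓ V' : Subgroup P) : Set P)) = ⊤ := by
    intro s
    induction s using Finset.induction_on with
    | empty =>
      intro V' hV'
      have h1 : ((⨅ j ∈ (∅ : Finset (Fin m)), L j) ⊓ V ⊓ V' : Subgroup P) = V ⊓ V' := by simp
      rw [h1]
      exact hσ.span _ inf_le_left (by simpa using hVo.inter hV')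
    | insert a s _ ih =>
      have h1 := span_inf hD hVo hσ hp hWo (hL a) (N' := ⨅ j ∈ s, L j) (fun g hg x hx => by
        simp only [Subgroup.mem_iInf] at hx ⊢
        exact fun j hj => hL j g hg x (hx j hj)) (hall a) ih
      intro V' hV'
      rw [Finset.iInf_insert]
      exact h1 V' hV'
  have hN : ∀ V' : Subgroup P, IsOpen (V' : Set P) →
      Submodule.span K (σ '' (((⨅ j, L j) ⊓ V ⊓ V' : Subgroup P) : Set P)) = ⊤ := by
    have h1 := hfin Finset.univ
    simpa using h1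
  -- the group `W' = V ∩ W ∩ V₁`
  set W' : Subgroup P := V ⊓ W ⊓ V₁ with hW'
  have hW'o : IsOpen (W' : Set P) := by
    simpa [hW'] using (hVo.inter hWo).inter hV₁o
  have hW'V : W' ≤ V := inf_le_left.trans inf_le_left
  have hW'W : W' ≤ W := inf_le_left.trans inf_le_right
  have hW'c : CompactSpace ↥W' := isCompact_iff_compactSpace.1 (W'.isClosed_of_isOpen hW'o).isCompact
  have hn : ((⨅ j, L j).subgroupOf W').Normal := by
    refine ⟨fun x hx g => ?_⟩
    rw [Subgroup.mem_subgroupOf] at hx ⊢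
    simp only [Subgroup.mem_iInf] at hx ⊢
    exact fun j => hL j g (hW'W g.2) x (hx j)
  have hrep : RepOn (⊤ : Subgroup ↥W') (fun g : ↥W' => σ g) :=
    ⟨hσ.rep.one, fun u _ v _ => hσ.rep.mul u (hW'V u.2) v (hW'V v.2), by
      have h1 : ContinuousOn σ (W' : Set P) := hσ.rep.cont.mono hW'V
      exact (h1.domRestrict : Continuous _).continuousOn⟩
  have h1 := solv_gen (N := (⨅ j, L j).subgroupOf W') (U := (⊤ : Subgroup ↥W'))
    (by simp) (by omega) hrep (fun u _ => hσ.det u (hW'V u.2)) (fun W'' hW'' => by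
      have h2 : IsOpen ((W''.map W'.subtype : Subgroup P) : Set P) := by
        rw [Subgroup.coe_map]
        exact hW'o.isOpenMap_subtype_val _ hW''
      rw [eq_top_iff, ← hN _ h2]
      refine Submodule.span_mono ?_
      rintro _ ⟨x, ⟨⟨hx1, hx2⟩, ⟨y, hy, rfl⟩⟩, rfl⟩
      exact ⟨y, ⟨⟨hx1, Subgroup.mem_top _⟩, hy⟩, rfl⟩) k (fun g hg => by
      refine hk g ?_ (hW'V g.2)
      have h3 : (g : P) ∈ (solvSer ((⨅ j, L j).subgroupOf W' ⊓ ⊤) k).map W'.subtype :=
        ⟨g, hg, rfl⟩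
      rw [solvSer_map] at h3
      refine solvSer_mono ?_ k h3
      rintro _ ⟨y, hy, rfl⟩
      exact ⟨y.2.2, hy.1⟩)
  omega

/-- The factors of a scalar tensor product are scalars. -/
theorem tens_scalar {ι : Type*} [Fintype ι] [DecidableEq ι] {d : ι → ℕ} (hd : ∀ i, 0 < d i)
    {A : ∀ i, Matrix (Fin (d i)) (Fin (d i)) K} {c : K} (hc : c ≠ 0)
    (hA : tens A = c • (1 : Matrix (∀ i, Fin (d i)) (∀ i, Fin (d i)) K)) (i : ι) :
    ∃ c' : K, A i = c' • (1 : Matrix (Fin (d i)) (Fin (d i)) K) := by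
  let k₀ : ∀ i, Fin (d i) := fun i => ⟨0, hd i⟩
  set q : K := ∏ l ∈ Finset.univ.erase i, A l (k₀ l) (k₀ l) with hq
  have h1 : ∀ a b, A i a b * q = tens A (Function.update k₀ i a) (Function.update k₀ i b) := by
    intro a b
    simp only [tens, Matrix.of_apply]
    rw [← Finset.mul_prod_erase Finset.univ _ (Finset.mem_univ i), Function.update_self,
      Function.update_self, hq]
    congr 1
    refine Finset.prod_congr rfl fun l hl => ?_
    rw [Function.update_of_ne (Finset.ne_of_mem_erase hl),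
      Function.update_of_ne (Finset.ne_of_mem_erase hl)]
  have hq0 : q ≠ 0 := by
    intro h0
    have h2 := h1 (k₀ i) (k₀ i)
    rw [h0, mul_zero, hA, Matrix.smul_apply, Matrix.one_apply_eq, smul_eq_mul, mul_one] at h2
    exact hc h2.symm
  refine ⟨c / q, ?_⟩
  ext a b
  have h2 := h1 a b
  rw [hA, Matrix.smul_apply] at h2
  rw [Matrix.smul_apply, smul_eq_mul, div_mul_eq_mul_div, eq_div_iff hq0, h2, smul_eq_mul]
  congr 1
  by_cases hab : a = b
  · rw [hab, Matrix.one_apply_eq, Matrix.one_apply_eq]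
  · rw [Matrix.one_apply_ne hab, Matrix.one_apply_ne]
    intro h
    apply hab
    have := congrFun h i
    rwa [Function.update_self, Function.update_self] at this

end Pool.Agent.GeoOrig
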