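import Pool.Agent.Lib.GeoOrig.Defs

/-!
# Module KRON: tensor products of matrices indexed by functions
-/

namespace Pool.Agent.GeoOrig

open Matrix

variable {K : Type*} [NontriviallyNormedField K]

theorem piKron_one {n : ℕ} {d : Fin n → ℕ} :
    piKron (fun i => (1 : Matrix (Fin (d i)) (Fin (d i)) K)) = 1 := by
  ext k j
  simp only [piKron, Matrix.of_apply, Matrix.one_apply]
  rw [Finset.prod_boole]
  simp only [Finset.mem_univ, forall_true_left]
  congr 1
  exact propext funext_iff.symm

theorem piKron_mul {n : ℕ} {d : Fin n → ℕ} (A B : ∀ i, Matrix (Fin (d i)) (Fin (d i)) K) :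
    piKron (fun i => A i * B i) = piKron A * piKron B := by
  ext k j
  simp only [piKron, Matrix.of_apply, Matrix.mul_apply]
  rw [Finset.prod_univ_sum, Fintype.piFinset_univ]
  refine Finset.sum_congr rfl fun l _ => ?_
  rw [Finset.prod_mul_distrib]

/-- Induction on `n` with `Fin.consEquiv`, `Matrix.det_kronecker` and `Matrix.det_reindex_self`. -/
theorem det_piKron {n : ℕ} {d : Fin n → ℕ} (A : ∀ i, Matrix (Fin (d i)) (Fin (d i)) K)
    (h : ∀ i, (A i).det = 1) : (piKron A).det = 1 := by
  induction n with
  | zero =>
    have h1 : piKron A = 1 := by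
      ext k j
      have hkj : k = j := Subsingleton.elim _ _
      subst hkj
      simp [piKron]
    rw [h1, Matrix.det_one]
  | succ n ih =>
    have h1 : (piKron A).submatrix (Fin.consEquiv fun i => Fin (d i))
        (Fin.consEquiv fun i => Fin (d i)) =
        Matrix.kroneckerMap (· * ·) (A 0) (piKron fun i : Fin n => A i.succ) := by
      ext ⟨a, b⟩ ⟨a', b'⟩
      simp only [Matrix.submatrix_apply, Matrix.kroneckerMap_apply, piKron, Matrix.of_apply,
        Fin.prod_univ_succ]
      rfl
    rw [← Matrix.det_submatrix_equiv_self (Fin.consEquiv fun i => Fin (d i)) (piKron A), h1,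
      Matrix.det_kronecker, h 0, ih _ fun i => h i.succ, one_pow, one_pow, one_mul]

theorem continuous_piKron {n : ℕ} {d : Fin n → ℕ} :
    Continuous (piKron : (∀ i, Matrix (Fin (d i)) (Fin (d i)) K) → _) := by
  refine continuous_matrix fun k j => ?_
  simp only [piKron, Matrix.of_apply]
  refine continuous_finsetProd _ fun i _ => ?_
  exact (continuous_apply (j i)).comp ((continuous_apply (k i)).comp (continuous_apply i))

/-- `piKron` as a multilinear map. -/
private noncomputable def piKronM {n : ℕ} (d : Fin n → ℕ) :
    MultilinearMap K (fun i : Fin n => Matrix (Fin (d i)) (Fin (d i)) K)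
      (Matrix (∀ i, Fin (d i)) (∀ i, Fin (d i)) K) where
  toFun A := piKron A
  map_update_add' {inst} m i x y := by
    have hinst : inst = instDecidableEqFin n := Subsingleton.elim _ _
    subst hinst
    ext k j
    simp only [piKron, Matrix.of_apply, Matrix.add_apply]
    have key : ∀ z : Matrix (Fin (d i)) (Fin (d i)) K,
        ∏ t, (Function.update m i z t) (k t) (j t) =
          z (k i) (j i) * ∏ t ∈ Finset.univ.erase i, m t (k t) (j t) := by
      intro z
      rw [← Finset.mul_prod_erase Finset.univ _ (Finset.mem_univ i), Function.update_self]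
      congr 1
      refine Finset.prod_congr rfl fun t ht => ?_
      rw [Function.update_of_ne (Finset.ne_of_mem_erase ht)]
    rw [key, key, key, Matrix.add_apply, add_mul]
  map_update_smul' {inst} m i c x := by
    have hinst : inst = instDecidableEqFin n := Subsingleton.elim _ _
    subst hinst
    ext k j
    simp only [piKron, Matrix.of_apply, Matrix.smul_apply]
    have key : ∀ z : Matrix (Fin (d i)) (Fin (d i)) K,
        ∏ t, (Function.update m i z t) (k t) (j t) =
          z (k i) (j i) * ∏ t ∈ Finset.univ.erase i, m t (k t) (j t) := by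
      intro z
      rw [← Finset.mul_prod_erase Finset.univ _ (Finset.mem_univ i), Function.update_self]
      congr 1
      refine Finset.prod_congr rfl fun t ht => ?_
      rw [Function.update_of_ne (Finset.ne_of_mem_erase ht)]
    rw [key, key, Matrix.smul_apply, smul_mul_assoc]

/-- If `S i` spans all `d i × d i` matrices for each `i`, the tensor products of elements of the
`S i` span all matrices. -/
theorem span_piKron {n : ℕ} {d : Fin n → ℕ} (S : ∀ i, Set (Matrix (Fin (d i)) (Fin (d i)) K))
    (hS : ∀ i, Submodule.span K (S i) = ⊤) :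
    Submodule.span K {M | ∃ A : ∀ i, Matrix (Fin (d i)) (Fin (d i)) K, (∀ i, A i ∈ S i) ∧
      M = piKron A} = ⊤ := by
  classical
  set T := Submodule.span K {M | ∃ A : ∀ i, Matrix (Fin (d i)) (Fin (d i)) K,
    (∀ i, A i ∈ S i) ∧ M = piKron A} with hT
  -- all the values of `piKron` are in `T`
  have hall : ∀ A : ∀ i, Matrix (Fin (d i)) (Fin (d i)) K, piKron A ∈ T := by
    intro A
    have h1 : ∀ i, ∃ c : Matrix (Fin (d i)) (Fin (d i)) K →₀ K,
        (c.support : Set _) ⊆ S i ∧ ∑ x ∈ c.support, c x • x = A i := by
      intro i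
      have h2 : A i ∈ Submodule.span K (S i) := by rw [hS i]; trivial
      obtain ⟨c, hc, hcA⟩ := (Finsupp.mem_span_iff_linearCombination K (S i) (A i)).mp h2 |>
        fun ⟨l, hl⟩ => (⟨l.mapDomain Subtype.val, by
          refine (Finset.coe_subset.mpr Finsupp.mapDomain_support).trans ?_
          intro x hx
          simp only [Finset.coe_image, Set.mem_image] at hx
          obtain ⟨y, _, rfl⟩ := hx
          exact y.2, by
          rw [← hl, Finsupp.linearCombination_apply]
          have := Finsupp.sum_mapDomain_index_inj (f := (Subtype.val : S i → _)) (s := l)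
            (h := fun x (a : K) => a • x) Subtype.val_injective
          exact this⟩ : ∃ c : Matrix (Fin (d i)) (Fin (d i)) K →₀ K,
            (c.support : Set _) ⊆ S i ∧ c.sum (fun x a => a • x) = A i)
      exact ⟨c, hc, hcA⟩
    choose c hc hcA using h1
    have h3 : A = fun i => ∑ x ∈ (c i).support, c i x • x := funext fun i => (hcA i).symm
    have h4 : piKron A = (piKronM (K := K) d) (fun i => ∑ x ∈ (c i).support, c i x • x) := by
      rw [← h3]; rfl
    rw [h4, MultilinearMap.map_sum_finset]
    refine Submodule.sum_mem _ fun p hp => ?_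
    rw [MultilinearMap.map_smul_univ]
    refine Submodule.smul_mem _ _ (Submodule.subset_span ⟨fun i => p i, fun i => ?_, rfl⟩)
    exact hc i (Fintype.mem_piFinset.mp hp i)
  rw [eq_top_iff]
  intro M _
  rw [Matrix.matrix_eq_sum_single M]
  refine Submodule.sum_mem _ fun k _ => Submodule.sum_mem _ fun j _ => ?_
  have h5 : Matrix.single k j (M k j) =
      M k j • piKron (fun i => Matrix.single (k i) (j i) (1 : K)) := by
    ext k' j'
    simp only [Matrix.smul_apply, piKron, Matrix.of_apply, Matrix.single_apply]
    rw [Finset.prod_boole]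
    by_cases h : k = k' ∧ j = j'
    · obtain ⟨rfl, rfl⟩ := h
      simp
    · rw [if_neg h, if_neg, smul_zero]
      intro h6
      apply h
      exact ⟨funext fun i => (h6 i (Finset.mem_univ i)).1,
        funext fun i => (h6 i (Finset.mem_univ i)).2⟩
  rw [h5]
  exact Submodule.smul_mem _ _ (hall _)

end Pool.Agent.GeoOrig
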