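import Pool.Agent.Lib.GeoOrig.CurveGerm
import Pool.Agent.Lib.GeoOrig.BraidScal

/-!
# Normal subgroups and Lie-irreducible representations of rank three
-/

namespace Pool.Agent.GeoOrig

open Matrix Topology Pool.Agent.BraidRep

section

variable {K : Type*} [NontriviallyNormedField K] {P : Type*} [Group P] [TopologicalSpace P]
  [IsTopologicalGroup P]

private theorem tens_one {n : ℕ} (hn : n = 1) {d : Fin n → ℕ}
    (A : ∀ i, Matrix (Fin (d i)) (Fin (d i)) K) (i₀ : Fin n) (w : Fin (d i₀) → K) :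
    (tens A) *ᵥ (fun p => w (p i₀)) = fun p => (A i₀ *ᵥ w) (p i₀) := by
  subst hn
  obtain rfl : i₀ = 0 := Subsingleton.elim _ _
  funext p
  rw [Matrix.mulVec, Matrix.mulVec, dotProduct, dotProduct]
  have h1 : ∀ q : (∀ i : Fin 1, Fin (d i)), tens A p q * w (q 0) =
      A 0 (p 0) (q 0) * w (q 0) := by
    intro q
    rw [show tens A p q = ∏ i, A i (p i) (q i) from rfl]
    simp
  rw [Finset.sum_congr rfl fun q _ => h1 q]
  let e : (∀ i : Fin 1, Fin (d i)) ≃ Fin (d 0) := Equiv.piUnique _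
  rw [← Equiv.sum_comp e fun j => A 0 (p 0) j * w j]
  rfl

private theorem prod_three {n : ℕ} {d : Fin n → ℕ} (hd : ∀ i, 2 ≤ d i) (h : ∏ i, d i = 3) :
    n = 1 := by
  rcases n with _ | _ | n
  · simp at h
  · rfl
  · exfalso
    rw [Fin.prod_univ_succ, Fin.prod_univ_succ] at h
    have h1 := hd 0
    have h2 := hd (Fin.succ 0)
    have h3 : 1 ≤ ∏ i : Fin n, d i.succ.succ :=
      Finset.one_le_prod' fun i _ => (by norm_num : 1 ≤ 2).trans (hd _)
    have h4 : 2 * 1 ≤ d (Fin.succ 0) * ∏ i : Fin n, d i.succ.succ := Nat.mul_le_mul h2 h3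
    have h5 : 2 * 2 ≤ d 0 * (d (Fin.succ 0) * ∏ i : Fin n, d i.succ.succ) :=
      Nat.mul_le_mul h1 (by omega)
    omega

/-- A representation of rank three which is irreducible on all open subgroups is, on an open
subgroup, the twist by a character of a tensor-indecomposable representation. -/
private theorem three_struct [IsAlgClosed K] [CompactSpace P] [TotallyDisconnectedSpace P]
    (ρ : P →* GL (Fin 3) K) (hρ : Continuous ρ)
    (hirr : ∀ V : Subgroup P, IsOpen (V : Set P) → ∀ W : Submodule K (Fin 3 → K),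
      (∀ x ∈ V, ∀ w ∈ W, (ρ x : Matrix (Fin 3) (Fin 3) K) *ᵥ w ∈ W) → W = ⊥ ∨ W = ⊤) :
    ∃ (V : Subgroup P) (σ : P → Matrix (Fin 3) (Fin 3) K) (χ : P → K)
      (M M' : Matrix (Fin 3) (Fin 3) K), IsOpen (V : Set P) ∧ LieIrr V σ ∧ TPrime V σ ∧
      (∀ v ∈ V, χ v ≠ 0) ∧ M * M' = 1 ∧ M' * M = 1 ∧
      ∀ v ∈ V, (ρ v : Matrix (Fin 3) (Fin 3) K) = χ v • (M * σ v * M') := by
  obtain ⟨V, hVo, -, n, d, f, hf, hdvd, χ, -, -, hχ0, -, ⟨J, hJ, hact⟩, -, -⟩ :=
    prime_main (by norm_num : 0 < 3) ρ hρ (fun W hW =>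
      hirr ⊤ isOpen_univ W fun x _ w hw => hW x w hw)
  have hrange : LinearMap.range J = ⊤ := by
    refine (hirr V hVo _ fun x hx w hw => ?_).resolve_left fun h => ?_
    · obtain ⟨w', rfl⟩ := hw
      rw [hact x hx]
      exact ⟨_, rfl⟩
    · have h1 : J = 0 := LinearMap.range_eq_bot.1 h
      have hne : Nonempty (∀ i, Fin (d i)) := ⟨fun i => ⟨0, by have := (hf i).1; omega⟩⟩
      have h2 : (fun _ => 1 : (∀ i, Fin (d i)) → K) = 0 := hJ (by rw [h1]; rfl)
      exact one_ne_zero (congrFun h2 hne.some)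
  have hprod : ∏ i, d i = 3 := by
    have h1 := LinearMap.finrank_range_of_inj hJ
    rw [hrange, finrank_top, Module.finrank_fin_fun, Module.finrank_pi, Fintype.card_pi] at h1
    simpa using h1.symm
  have hn := prod_three (fun i => (hf i).1) hprod
  have i₀ : Fin n := ⟨0, by omega⟩
  have hd : d i₀ = 3 := by
    subst hn
    obtain rfl : i₀ = 0 := Subsingleton.elim _ _
    simpa using hprod
  obtain ⟨D, σ, J₁, hD, hlie, hpr, hJ₁, hact₁⟩ : ∃ (D : ℕ) (σ : P → Matrix (Fin D) (Fin D) K)
      (J₁ : (Fin D → K) →ₗ[K] (Fin 3 → K)), D = 3 ∧ LieIrr V σ ∧ TPrime V σ ∧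
      Function.Injective J₁ ∧ ∀ v ∈ V, ∀ w, (ρ v : Matrix (Fin 3) (Fin 3) K) *ᵥ J₁ w =
        χ v • J₁ (σ v *ᵥ w) := by
    refine ⟨d i₀, f i₀, J ∘ₗ LinearMap.funLeft K K (fun p : (∀ i, Fin (d i)) => p i₀), hd,
      (hf i₀).2.1, (hf i₀).2.2, ?_, fun v hv w => ?_⟩
    · refine hJ.comp (LinearMap.funLeft_injective_of_surjective K K _ fun a => ?_)
      exact ⟨fun i => if h : i = i₀ then (by rw [h]; exact a) else ⟨0, by
        have := (hf i).1; omega⟩, by simp⟩
    · show (ρ v : Matrix (Fin 3) (Fin 3) K) *ᵥ J (fun p => w (p i₀)) = _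
      rw [hact v hv, tens_one hn, map_smul]
      rfl
  subst hD
  let e : (Fin 3 → K) ≃ₗ[K] (Fin 3 → K) := LinearEquiv.ofInjectiveEndo J₁ hJ₁
  have he : ∀ w, e w = J₁ w := fun w => rfl
  refine ⟨V, σ, χ, LinearMap.toMatrix' (e : (Fin 3 → K) →ₗ[K] (Fin 3 → K)),
    LinearMap.toMatrix' (e.symm : (Fin 3 → K) →ₗ[K] (Fin 3 → K)), hVo, hlie, hpr, hχ0, ?_, ?_,
    fun v hv => ?_⟩
  · rw [← LinearMap.toMatrix'_comp]
    simp
  · rw [← LinearMap.toMatrix'_comp]
    simp
  · have h1 : ∀ w, (ρ v : Matrix (Fin 3) (Fin 3) K) *ᵥ w =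
        (χ v • (LinearMap.toMatrix' (e : (Fin 3 → K) →ₗ[K] (Fin 3 → K)) * σ v *
          LinearMap.toMatrix' (e.symm : (Fin 3 → K) →ₗ[K] (Fin 3 → K)))) *ᵥ w := by
      intro w
      rw [Matrix.smul_mulVec, ← Matrix.mulVec_mulVec, ← Matrix.mulVec_mulVec,
        LinearMap.toMatrix'_mulVec, LinearMap.toMatrix'_mulVec]
      show _ = χ v • J₁ (σ v *ᵥ e.symm w)
      rw [← hact₁ v hv, ← he, LinearEquiv.apply_symm_apply]
    exact Matrix.ext_of_mulVec_single fun i => h1 _

/-- The matrices with a given cube root of unity on the diagonal. -/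
private theorem finite_cube : {A : Matrix (Fin 3) (Fin 3) K | ∃ c : K, c ^ 3 = 1 ∧
    A = c • (1 : Matrix (Fin 3) (Fin 3) K)}.Finite := by
  classical
  have h1 : ((Polynomial.nthRoots 3 (1 : K)).toFinset : Set K).Finite :=
    Finset.finite_toSet _
  refine (h1.image fun c => c • (1 : Matrix (Fin 3) (Fin 3) K)).subset ?_
  rintro A ⟨c, hc, rfl⟩
  refine ⟨c, ?_, rfl⟩
  rw [Finset.mem_coe, Multiset.mem_toFinset, Polynomial.mem_nthRoots (by norm_num)]
  exact hc

private theorem cube_of_det {A : Matrix (Fin 3) (Fin 3) K} {c : K}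
    (h : A = c • (1 : Matrix (Fin 3) (Fin 3) K)) (hdet : A.det = 1) : c ^ 3 = 1 := by
  rw [h, Matrix.det_smul, Matrix.det_one, mul_one, Fintype.card_fin] at hdet
  exact hdet

private theorem det_comm (a b : GL (Fin 3) K) :
    ((a * b * a⁻¹ * b⁻¹ : GL (Fin 3) K) : Matrix (Fin 3) (Fin 3) K).det = 1 := by
  have h1 : Matrix.GeneralLinearGroup.det (a * b * a⁻¹ * b⁻¹) = 1 := by
    rw [map_mul, map_mul, map_mul, map_inv, map_inv]
    rw [mul_comm (Matrix.GeneralLinearGroup.det a)]
    group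
  rw [← Matrix.GeneralLinearGroup.val_det_apply, h1, Units.val_one]

/-- Let `ρ` be a representation of rank three of a profinite group which is irreducible on all open
subgroups. If the closed subgroup generated by `S` is normal then `ρ` is scalar on `S`, or `S` acts
irreducibly and has a trivial centraliser in `PGL₃`. -/
theorem lie_three [IsAlgClosed K] [CompactSpace P] [TotallyDisconnectedSpace P]
    (ρ : P →* GL (Fin 3) K) (hρ : Continuous ρ)
    (hirr : ∀ V : Subgroup P, IsOpen (V : Set P) → ∀ W : Submodule K (Fin 3 → K),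
      (∀ x ∈ V, ∀ w ∈ W, (ρ x : Matrix (Fin 3) (Fin 3) K) *ᵥ w ∈ W) → W = ⊥ ∨ W = ⊤)
    (S : Set P) (hN : (Subgroup.closure S).topologicalClosure.Normal) :
    (∀ x ∈ S, ρ x ∈ Subgroup.center (GL (Fin 3) K)) ∨
      ((∀ W : Submodule K (Fin 3 → K),
        (∀ x ∈ S, ∀ w ∈ W, (ρ x : Matrix (Fin 3) (Fin 3) K) *ᵥ w ∈ W) → W = ⊥ ∨ W = ⊤) ∧
        ∀ y : GL (Fin 3) K, (∀ x ∈ S, y * ρ x * y⁻¹ * (ρ x)⁻¹ ∈
          Subgroup.center (GL (Fin 3) K)) → y ∈ Subgroup.center (GL (Fin 3) K)) := by
  obtain ⟨V, σ, χ, M, M', hVo, hlie, hpr, hχ0, hMM', hM'M, hform⟩ :=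
    three_struct ρ hρ hirr
  set N : Subgroup P := (Subgroup.closure S).topologicalClosure with hNdef
  have hSN : ∀ x ∈ S, x ∈ N := fun x hx =>
    Subgroup.le_topologicalClosure _ (Subgroup.subset_closure hx)
  have hcont : Continuous fun x => (ρ x : Matrix (Fin 3) (Fin 3) K) :=
    Units.continuous_val.comp hρ
  rcases dich (by norm_num : 0 < 3) hVo hlie hpr (N := N) (W := ⊤) isOpen_univ
      (fun g _ x hx => hN.conj_mem x hx g) with ⟨V', hV'V, hV'o, hV'⟩ | hspan
  · left
    intro z hz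
    rw [mem_center_iff]
    have hzN := hSN z hz
    obtain ⟨V₂, h21, h22, h23⟩ := exists_normal hV'o
    have hc : ∀ w ∈ V₂, ∃ c : K, ((ρ (z * w * z⁻¹ * w⁻¹) : GL (Fin 3) K) :
        Matrix (Fin 3) (Fin 3) K) = c • (1 : Matrix (Fin 3) (Fin 3) K) := by
      intro w hw
      have h1 : z * w * z⁻¹ * w⁻¹ ∈ V₂ :=
        V₂.mul_mem (h23.conj_mem w hw z) (V₂.inv_mem hw)
      have h2 : z * w * z⁻¹ * w⁻¹ ∈ N := by
        have e1 : z * w * z⁻¹ * w⁻¹ = z * (w * z⁻¹ * w⁻¹) := by group
        rw [e1]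
        exact N.mul_mem hzN (hN.conj_mem _ (N.inv_mem hzN) w)
      refine ⟨χ (z * w * z⁻¹ * w⁻¹), ?_⟩
      rw [hform _ (hV'V (h21 h1)), hV' _ ⟨h2, h21 h1⟩, mul_one, hMM']
    obtain ⟨V₃, h31, h32, -, h34⟩ := exists_const h22 (f := fun w =>
      ((ρ (z * w * z⁻¹ * w⁻¹) : GL (Fin 3) K) : Matrix (Fin 3) (Fin 3) K))
      (hcont.comp (by fun_prop : Continuous fun w => z * w * z⁻¹ * w⁻¹)).continuousOn
      Set.univ (finite_cube.subset (by
        rintro _ ⟨w, ⟨-, hw⟩, rfl⟩
        obtain ⟨c, hc⟩ := hc w hw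
        refine ⟨c, cube_of_det hc ?_, hc⟩
        rw [map_mul, map_mul, map_mul, map_inv, map_inv]
        exact det_comm _ _))
    refine schur (S := {g | ∃ w ∈ V₃, g = ρ w}) (fun W hW => ?_) ?_
    · exact hirr V₃ h32 W fun x hx w hw => hW _ ⟨x, hx, rfl⟩ w hw
    · rintro _ ⟨w, hw, rfl⟩
      have h1 := h34 w hw (Set.mem_univ _)
      have h2 : ρ (z * w * z⁻¹ * w⁻¹) = 1 := by
        apply Units.ext
        rw [h1, Units.val_one]
        simp
      rw [map_mul, map_mul, map_mul, map_inv, map_inv, mul_inv_eq_one,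
        mul_inv_eq_iff_eq_mul] at h2
      exact h2
  · right
    refine ⟨fun W hW => ?_, fun y hy => ?_⟩
    · -- a subspace stable under `S` is stable under `N`
      have h1 : ∀ x ∈ Subgroup.closure S, ∀ w ∈ W,
          (ρ x : Matrix (Fin 3) (Fin 3) K) *ᵥ w ∈ W := by
        intro x hx
        induction hx using Subgroup.closure_induction with
        | mem x hx => exact hW x hx
        | one => intro w hw; simpa using hw
        | mul x y _ _ hx hy =>
          intro w hw
          rw [map_mul, Units.val_mul, ← Matrix.mulVec_mulVec]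
          exact hx _ (hy w hw)
        | inv x _ hx =>
          intro w hw
          let φ : (Fin 3 → K) →ₗ[K] (Fin 3 → K) :=
            Matrix.toLin' (ρ x : Matrix (Fin 3) (Fin 3) K)
          have hφ : ∀ u, φ u = (ρ x : Matrix (Fin 3) (Fin 3) K) *ᵥ u := fun u =>
            Matrix.toLin'_apply _ _
          have hinv : ∀ u, ((ρ x⁻¹ : GL (Fin 3) K) : Matrix (Fin 3) (Fin 3) K) *ᵥ φ u = u := by
            intro u
            rw [hφ, Matrix.mulVec_mulVec, ← Units.val_mul, ← map_mul, inv_mul_cancel, map_one,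
              Units.val_one, Matrix.one_mulVec]
          have hinj : Function.Injective φ := fun a b hab => by rw [← hinv a, hab, hinv b]
          have h2 : W.map φ ≤ W := by
            rintro _ ⟨u, hu, rfl⟩
            rw [hφ]
            exact hx u hu
          have h3 : W.map φ = W := Submodule.eq_of_le_of_finrank_eq h2
            (Submodule.equivMapOfInjective φ hinj W).finrank_eq.symm
          have h4 : w ∈ W.map φ := by rw [h3]; exact hw
          obtain ⟨u, hu, rfl⟩ := h4
          rw [hinv]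
          exact hu
      have h2 : ∀ x ∈ N, ∀ w ∈ W, (ρ x : Matrix (Fin 3) (Fin 3) K) *ᵥ w ∈ W := by
        intro x hx w hw
        rw [← Subspace.forall_mem_dualAnnihilator_apply_eq_zero_iff]
        intro φ hφ
        have hφc : Continuous φ := LinearMap.continuous_on_pi φ
        have h3 : Continuous fun x => φ ((ρ x : Matrix (Fin 3) (Fin 3) K) *ᵥ w) :=
          hφc.comp (hcont.matrix_mulVec continuous_const)
        have h4 : IsClosed {x | φ ((ρ x : Matrix (Fin 3) (Fin 3) K) *ᵥ w) = 0} :=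
          isClosed_eq h3 continuous_const
        have h5 : ((Subgroup.closure S : Subgroup P) : Set P) ⊆
            {x | φ ((ρ x : Matrix (Fin 3) (Fin 3) K) *ᵥ w) = 0} := fun x hx =>
          (Submodule.mem_dualAnnihilator φ).1 hφ _ (h1 x hx w hw)
        have hx' : x ∈ closure ((Subgroup.closure S : Subgroup P) : Set P) := by
          rw [← Subgroup.topologicalClosure_coe]
          exact hx
        exact closure_minimal h5 h4 hx'
      -- hence under all matrices
      have h3 : ∀ A : Matrix (Fin 3) (Fin 3) K, ∀ w ∈ W, (M * A * M') *ᵥ w ∈ W := by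
        intro A w hw
        have hA : A ∈ Submodule.span K (σ '' ((N ⊓ V ⊓ ⊤ : Subgroup P) : Set P)) := by
          rw [hspan ⊤ isOpen_univ]
          exact Submodule.mem_top
        induction hA using Submodule.span_induction with
        | mem A hA =>
          obtain ⟨x, hx, rfl⟩ := hA
          have h4 := h2 x hx.1.1 w hw
          rw [hform x hx.1.2, Matrix.smul_mulVec] at h4
          have h5 := W.smul_mem (χ x)⁻¹ h4
          rwa [smul_smul, inv_mul_cancel₀ (hχ0 x hx.1.2), one_smul] at h5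
        | zero => rw [mul_zero, zero_mul, Matrix.zero_mulVec]; exact W.zero_mem
        | add A B _ _ hA hB =>
          rw [mul_add, add_mul, Matrix.add_mulVec]
          exact W.add_mem hA hB
        | smul c A _ hA =>
          rw [mul_smul_comm, smul_mul_assoc, Matrix.smul_mulVec]
          exact W.smul_mem c hA
      refine hirr ⊤ isOpen_univ W fun x _ w hw => ?_
      have h4 := h3 (M' * (ρ x : Matrix (Fin 3) (Fin 3) K) * M) w hw
      have h5 : M * (M' * (ρ x : Matrix (Fin 3) (Fin 3) K) * M) * M' =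
          (ρ x : Matrix (Fin 3) (Fin 3) K) := by
        calc M * (M' * (ρ x : Matrix (Fin 3) (Fin 3) K) * M) * M' =
            (M * M') * (ρ x : Matrix (Fin 3) (Fin 3) K) * (M * M') := by
              simp only [mul_assoc]
          _ = _ := by rw [hMM', one_mul, mul_one]
      rwa [h5] at h4
    · -- the centraliser
      have h1 : ∀ x ∈ N, ∃ c : K, ((y * ρ x * y⁻¹ * (ρ x)⁻¹ : GL (Fin 3) K) :
          Matrix (Fin 3) (Fin 3) K) = c • (1 : Matrix (Fin 3) (Fin 3) K) := by
        let q : GL (Fin 3) K →* GL (Fin 3) K ⧸ Subgroup.center (GL (Fin 3) K) :=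
          QuotientGroup.mk' _
        have hq : ∀ a, q a = 1 ↔ a ∈ Subgroup.center (GL (Fin 3) K) := fun a =>
          QuotientGroup.eq_one_iff a
        have hcl : Subgroup.closure S ≤ (Subgroup.centralizer {q y}).comap (q.comp ρ) := by
          rw [Subgroup.closure_le]
          intro x hx
          show q (ρ x) ∈ Subgroup.centralizer {q y}
          rw [Subgroup.mem_centralizer_iff]
          intro a ha
          rw [Set.mem_singleton_iff.1 ha]
          have h2 := (hq _).2 (hy x hx)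
          rw [map_mul, map_mul, map_mul, map_inv, map_inv, mul_inv_eq_one,
            mul_inv_eq_iff_eq_mul] at h2
          exact h2
        intro x hx
        have h3 : Continuous fun x => y * ρ x * y⁻¹ * (ρ x)⁻¹ := by fun_prop
        have h4 : IsClosed {x | Scal (y * ρ x * y⁻¹ * (ρ x)⁻¹)} := isClosed_scal.preimage h3
        have h5 : ((Subgroup.closure S : Subgroup P) : Set P) ⊆
            {x | Scal (y * ρ x * y⁻¹ * (ρ x)⁻¹)} := by
          intro x hx
          have h6 := (Subgroup.mem_centralizer_iff.1 (hcl hx)) _ rfl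
          show Scal _
          rw [← mem_center_iff, ← hq, map_mul, map_mul, map_mul, map_inv, map_inv,
            show q y * q (ρ x) = q (ρ x) * q y from h6]
          group
        have hx' : x ∈ closure ((Subgroup.closure S : Subgroup P) : Set P) := by
          rw [← Subgroup.topologicalClosure_coe]
          exact hx
        exact closure_minimal h5 h4 hx'
      obtain ⟨V₃, -, h32, -, h34⟩ := exists_const (U := ⊤) isOpen_univ (f := fun x =>
        ((y * ρ x * y⁻¹ * (ρ x)⁻¹ : GL (Fin 3) K) : Matrix (Fin 3) (Fin 3) K))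
        (Units.continuous_val.comp (by fun_prop :
          Continuous fun x => y * ρ x * y⁻¹ * (ρ x)⁻¹)).continuousOn
        (N : Set P) (finite_cube.subset (by
          rintro _ ⟨w, ⟨hw, -⟩, rfl⟩
          obtain ⟨c, hc⟩ := h1 w hw
          exact ⟨c, cube_of_det hc (det_comm _ _), hc⟩))
      have h2 : ∀ x ∈ V₃, x ∈ N → Commute y (ρ x) := by
        intro x hx hxN
        have h5 := h34 x hx hxN
        have h6 : y * ρ x * y⁻¹ * (ρ x)⁻¹ = 1 := by
          apply Units.ext
          rw [h5, Units.val_one]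
          simp
        rw [mul_inv_eq_one, mul_inv_eq_iff_eq_mul] at h6
        exact h6
      obtain ⟨c, hc⟩ := scalar_of_span (hspan V₃ h32)
        (M := M' * (y : Matrix (Fin 3) (Fin 3) K) * M) (by
        rintro _ ⟨x, hx, rfl⟩
        have h5 : (y : Matrix (Fin 3) (Fin 3) K) * (ρ x : Matrix (Fin 3) (Fin 3) K) =
            (ρ x : Matrix (Fin 3) (Fin 3) K) * (y : Matrix (Fin 3) (Fin 3) K) := by
          rw [← Units.val_mul, ← Units.val_mul, (h2 x hx.2 hx.1.1).eq]
        rw [hform x hx.1.2, mul_smul_comm, smul_mul_assoc] at h5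
        have h6 : (y : Matrix (Fin 3) (Fin 3) K) * (M * σ x * M') =
            M * σ x * M' * (y : Matrix (Fin 3) (Fin 3) K) := by
          have h7 := congrArg (fun B => (χ x)⁻¹ • B) h5
          simpa [smul_smul, inv_mul_cancel₀ (hχ0 x hx.1.2)] using h7
        calc M' * (y : Matrix (Fin 3) (Fin 3) K) * M * σ x =
            M' * (y : Matrix (Fin 3) (Fin 3) K) * M * σ x * (M' * M) := by
              rw [hM'M, mul_one]
          _ = M' * ((y : Matrix (Fin 3) (Fin 3) K) * (M * σ x * M')) * M := by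
              simp only [mul_assoc]
          _ = M' * (M * σ x * M' * (y : Matrix (Fin 3) (Fin 3) K)) * M := by rw [h6]
          _ = (M' * M) * σ x * (M' * (y : Matrix (Fin 3) (Fin 3) K) * M) := by
              simp only [mul_assoc]
          _ = σ x * (M' * (y : Matrix (Fin 3) (Fin 3) K) * M) := by rw [hM'M, one_mul])
      rw [mem_center_iff]
      refine ⟨c, ?_⟩
      calc (y : Matrix (Fin 3) (Fin 3) K) =
          (M * M') * (y : Matrix (Fin 3) (Fin 3) K) * (M * M') := by
            rw [hMM', one_mul, mul_one]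
        _ = M * (M' * (y : Matrix (Fin 3) (Fin 3) K) * M) * M' := by simp only [mul_assoc]
        _ = c • (1 : Matrix (Fin 3) (Fin 3) K) := by
          rw [hc, mul_smul_comm, mul_one, smul_mul_assoc, hMM']

end

end Pool.Agent.GeoOrig
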