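import Pool.Agent.Lib.GeoOrig.Defs

/-!
# Module LIFTR: roots near one
-/

namespace Pool.Agent.GeoOrig

open Matrix Topology

variable {K : Type*} [NontriviallyNormedField K]

private theorem LIFTR_prod (ε : ℝ) (hε : 0 ≤ ε) (s : Multiset K) :
    (∀ x ∈ s, ε ≤ ‖1 - x‖) → ε ^ Multiset.card s ≤ ‖(s.map fun x => 1 - x).prod‖ := by
  induction s using Multiset.induction_on with
  | empty => intro _; simp
  | cons a s ih =>
    intro h
    have h1 := ih fun x hx => h x (Multiset.mem_cons_of_mem hx)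
    have h2 := h a (Multiset.mem_cons_self a s)
    rw [Multiset.card_cons, Multiset.map_cons, Multiset.prod_cons, norm_mul, pow_succ, mul_comm]
    exact mul_le_mul h2 h1 (by positivity) (norm_nonneg _)

/-- Roots near one: for every neighbourhood `O` of `1` in `K` there is a neighbourhood `O'` of `1`
such that every element of `O'` has a `d`-th root in `O`.
(`X ^ d - c = ∏ (X - δ)`, evaluated at `1`: some `‖1 - δ‖ ^ d ≤ ‖1 - c‖`.) -/
theorem exists_root_near [IsAlgClosed K] {d : ℕ} (hd : 0 < d) {O : Set K} (hO : O ∈ 𝓝 (1 : K)) :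
    ∃ O' ∈ 𝓝 (1 : K), ∀ c ∈ O', ∃ δ ∈ O, δ ^ d = c := by
  obtain ⟨ε, hε, hεO⟩ := Metric.mem_nhds_iff.mp hO
  refine ⟨Metric.ball 1 (ε ^ d), Metric.ball_mem_nhds _ (by positivity), fun c hc => ?_⟩
  have hmonic : (Polynomial.X ^ d - Polynomial.C c : Polynomial K).Monic :=
    Polynomial.monic_X_pow_sub_C c hd.ne'
  have hsplit : (Polynomial.X ^ d - Polynomial.C c : Polynomial K).Splits :=
    IsAlgClosed.splits _
  have hprod := hsplit.eq_prod_roots_of_monic hmonic
  have hcard : Multiset.card (Polynomial.X ^ d - Polynomial.C c : Polynomial K).roots = d := by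
    rw [← hsplit.natDegree_eq_card_roots, Polynomial.natDegree_X_pow_sub_C]
  by_contra hcon
  push Not at hcon
  have h1 : ∀ x ∈ (Polynomial.X ^ d - Polynomial.C c : Polynomial K).roots, ε ≤ ‖1 - x‖ := by
    intro x hx
    rw [Polynomial.mem_roots hmonic.ne_zero, Polynomial.IsRoot, Polynomial.eval_sub,
      Polynomial.eval_pow, Polynomial.eval_X, Polynomial.eval_C, sub_eq_zero] at hx
    by_contra hlt
    push Not at hlt
    refine hcon x (hεO ?_) hx
    rw [Metric.mem_ball, dist_comm, dist_eq_norm]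
    exact hlt
  have h2 := LIFTR_prod ε hε.le _ h1
  have h3 : ((Polynomial.X ^ d - Polynomial.C c : Polynomial K).roots.map fun x => 1 - x).prod =
      1 - c := by
    have h4 := congrArg (Polynomial.eval (1 : K)) hprod
    rw [Polynomial.eval_multiset_prod, Multiset.map_map] at h4
    simp only [Polynomial.eval_sub, Polynomial.eval_pow, Polynomial.eval_X, Polynomial.eval_C,
      one_pow, Function.comp_def] at h4
    exact h4.symm
  rw [hcard, h3] at h2
  rw [Metric.mem_ball, dist_comm, dist_eq_norm] at hc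
  linarith

/-- There is a neighbourhood `O` of `1` in which `d`-th roots are unique, more precisely
`a, b, c ∈ O`, `(a * b) ^ d = c ^ d` implies `a * b = c` (finitely many `d`-th roots of unity). -/
theorem exists_root_unique (K : Type*) [NontriviallyNormedField K] {d : ℕ} (hd : 0 < d) :
    ∃ O ∈ 𝓝 (1 : K), (0 : K) ∉ O ∧ ∀ a ∈ O, ∀ b ∈ O, ∀ c ∈ O, (a * b) ^ d = c ^ d → a * b = c := by
  have hfin : {z : K | z ^ d = 1}.Finite := by
    refine (Polynomial.finite_setOfPred_isRoot
      (Polynomial.monic_X_pow_sub_C (1 : K) hd.ne').ne_zero).subset ?_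
    intro z hz
    have hz' : z ^ d = 1 := hz
    show Polynomial.IsRoot _ z
    rw [Polynomial.IsRoot, Polynomial.eval_sub, Polynomial.eval_pow, Polynomial.eval_X,
      Polynomial.eval_C, hz', sub_self]
  have hopen : IsOpen ({z : K | z ^ d = 1} \ {1})ᶜ :=
    (hfin.subset Set.sdiff_subset).isClosed.isOpen_compl
  have hcont : ContinuousAt (fun q : K × K × K => q.1 * q.2.1 * q.2.2⁻¹) (1, 1, 1) := by
    refine ContinuousAt.mul (ContinuousAt.mul ?_ ?_) (ContinuousAt.inv₀ ?_ one_ne_zero)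
    · exact continuous_fst.continuousAt
    · exact (continuous_fst.comp continuous_snd).continuousAt
    · exact (continuous_snd.comp continuous_snd).continuousAt
  have hmem : ({z : K | z ^ d = 1} \ {1})ᶜ ∈
      𝓝 ((fun q : K × K × K => q.1 * q.2.1 * q.2.2⁻¹) (1, 1, 1)) := by
    refine hopen.mem_nhds ?_
    simp
  have h1 := hcont hmem
  rw [Filter.mem_map, nhds_prod_eq, nhds_prod_eq] at h1
  obtain ⟨A, hA, B, hB, hAB⟩ := Filter.mem_prod_iff.mp h1
  obtain ⟨B1, hB1, B2, hB2, hB12⟩ := Filter.mem_prod_iff.mp hB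
  refine ⟨A ∩ (B1 ∩ B2) ∩ {0}ᶜ, ?_, ?_, ?_⟩
  · exact Filter.inter_mem (Filter.inter_mem hA (Filter.inter_mem hB1 hB2))
      (isOpen_compl_singleton.mem_nhds (by simp))
  · simp
  · rintro a ⟨⟨haA, -⟩, -⟩ b ⟨⟨-, hb1, -⟩, -⟩ c ⟨⟨-, -, hc2⟩, hc0⟩ habc
    have hc0' : c ≠ 0 := hc0
    have h2 : (a, b, c) ∈ A ×ˢ B := ⟨haA, hB12 ⟨hb1, hc2⟩⟩
    have h3 := hAB h2
    simp only [Set.mem_preimage, Set.mem_compl_iff, Set.mem_sdiff, Set.mem_singleton_iff,
      Set.mem_ofPred_eq, not_and, not_not] at h3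
    have h4 := h3 (by rw [mul_pow, inv_pow, habc, mul_inv_cancel₀ (pow_ne_zero _ hc0')])
    field_simp at h4
    exact h4

end Pool.Agent.GeoOrig
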