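import Pool.Agent.Lib.GeoOrig.Top
import Pool.Agent.Lib.GeoOrig.Comb
import Pool.Agent.Lib.GeoOrig.LiftRoot

/-!
# Module LIFT: lifting a projective representation near the identity
-/

namespace Pool.Agent.GeoOrig

open Matrix Topology

variable {K : Type*} [NontriviallyNormedField K] {P : Type*} [Group P] [TopologicalSpace P]
  [IsTopologicalGroup P] [CompactSpace P] [TotallyDisconnectedSpace P]

section aux

variable {r d : ℕ} {E : Fin d → Fin d → Matrix (Fin r) (Fin r) K}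

/-- `comb E` as a linear map. -/
private noncomputable def liftComb (E : Fin d → Fin d → Matrix (Fin r) (Fin r) K) :
    Matrix (Fin d) (Fin d) K →ₗ[K] Matrix (Fin r) (Fin r) K where
  toFun := comb E
  map_add' := comb_add E
  map_smul' := comb_smul E

private theorem lift_conj_comb {a b : Matrix (Fin r) (Fin r) K}
    (h : ∀ i j, ∃ T : Matrix (Fin d) (Fin d) K, a * E i j * b = comb E T)
    (S : Matrix (Fin d) (Fin d) K) :
    ∃ T : Matrix (Fin d) (Fin d) K, a * comb E S * b = comb E T := by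
  choose T hT using h
  refine ⟨∑ i, ∑ j, S i j • T i j, ?_⟩
  have h1 : comb E (∑ i, ∑ j, S i j • T i j) = liftComb E (∑ i, ∑ j, S i j • T i j) := rfl
  rw [h1, map_sum]
  simp only [map_sum, map_smul]
  have h2 : ∀ i j, liftComb E (T i j) = a * E i j * b := fun i j => (hT i j).symm
  simp only [h2, comb, Finset.mul_sum, Finset.sum_mul, mul_smul_comm, smul_mul_assoc]

private theorem lift_mul_comb {a b s : Matrix (Fin r) (Fin r) K}
    (h : ∀ i j, s * E i j = a * E i j * b * s) (S : Matrix (Fin d) (Fin d) K) :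
    s * comb E S = a * comb E S * b * s := by
  simp only [comb, Finset.mul_sum, Finset.sum_mul, mul_smul_comm, smul_mul_assoc]
  exact Finset.sum_congr rfl fun i _ => Finset.sum_congr rfl fun j _ => by rw [h]

/-- the intertwining matrix -/
private theorem lift_inter (hE : MatUnits E) {a b : Matrix (Fin r) (Fin r) K} (hba : b * a = 1)
    (z : Fin d) (k l : Fin d) :
    (∑ i, a * E i z * b * E z i) * E k l = a * E k l * b * ∑ i, a * E i z * b * E z i := by
  have h1 : (∑ i, a * E i z * b * E z i) * E k l = a * E k z * b * E z l := by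
    rw [Finset.sum_mul, Finset.sum_eq_single k]
    · rw [mul_assoc (a * E k z * b), hE, if_pos rfl]
    · intro i _ hi
      rw [mul_assoc (a * E i z * b), hE, if_neg hi, mul_zero]
    · intro hk; exact absurd (Finset.mem_univ k) hk
  have h2 : ∀ i, a * E k l * b * (a * E i z * b * E z i) =
      a * (E k l * E i z) * b * E z i := by
    intro i
    calc a * E k l * b * (a * E i z * b * E z i) = a * E k l * (b * a) * E i z * b * E z i := by
          noncomm_ring
      _ = a * (E k l * E i z) * b * E z i := by rw [hba, mul_one, mul_assoc a (E k l)]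
  have h3 : a * E k l * b * ∑ i, a * E i z * b * E z i = a * E k z * b * E z l := by
    rw [Finset.mul_sum, Finset.sum_eq_single l]
    · rw [h2, hE, if_pos rfl]
    · intro i _ hi
      rw [h2, hE, if_neg (Ne.symm hi), mul_zero, zero_mul, zero_mul]
    · intro hk; exact absurd (Finset.mem_univ l) hk
  rw [h1, h3]

private theorem lift_sum_mem (hE : MatUnits E) {a b : Matrix (Fin r) (Fin r) K} (z : Fin d)
    (h : ∀ i j, ∃ T : Matrix (Fin d) (Fin d) K, a * E i j * b = comb E T) :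
    ∃ T : Matrix (Fin d) (Fin d) K, ∑ i, a * E i z * b * E z i = comb E T := by
  choose T hT using h
  refine ⟨∑ i, T i z * Matrix.single z i 1, ?_⟩
  have h1 : comb E (∑ i, T i z * Matrix.single z i 1) =
      liftComb E (∑ i, T i z * Matrix.single z i 1) := rfl
  rw [h1, map_sum]
  refine Finset.sum_congr rfl fun i _ => ?_
  change _ = comb E _
  rw [← comb_mul hE, comb_single, one_smul, hT]

/-- Two invertible matrices which induce the same conjugation differ by a scalar. -/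
private theorem lift_scalar (hE : MatUnits E) (hE0 : ∀ i, E i i ≠ 0) (hd : 0 < d)
    {B C : Matrix (Fin d) (Fin d) K} (hB : IsUnit B.det)
    (h : ∀ S, ∃ R, C * S = R * C ∧ B * S = R * B) : ∃ c : K, C = c • B := by
  have hcomm : ∀ S, B⁻¹ * C * S = S * (B⁻¹ * C) := by
    intro S
    obtain ⟨R, h1, h2⟩ := h S
    have h3 : S = B⁻¹ * R * B := by
      rw [mul_assoc, ← h2, ← mul_assoc, Matrix.nonsing_inv_mul _ hB, one_mul]
    calc B⁻¹ * C * S = B⁻¹ * R * C := by rw [mul_assoc, h1, mul_assoc]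
      _ = B⁻¹ * R * (B * B⁻¹) * C := by rw [Matrix.mul_nonsing_inv _ hB, mul_one]
      _ = (B⁻¹ * R * B) * (B⁻¹ * C) := by noncomm_ring
      _ = S * (B⁻¹ * C) := by rw [← h3]
  obtain ⟨c, hc⟩ := scalar_of_comm hE hE0 hd (B⁻¹ * C) (by
    intro i j
    have h1 : E i j = comb E (Matrix.single i j 1) := by rw [comb_single, one_smul]
    rw [h1, comb_mul hE, comb_mul hE, hcomm])
  refine ⟨c, ?_⟩
  calc C = B * (B⁻¹ * C) := by rw [← mul_assoc, Matrix.mul_nonsing_inv _ hB, one_mul]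
    _ = c • B := by rw [hc, mul_smul_comm, mul_one]

end aux

/-- LIFT. `ρ` normalises the matrix algebra spanned by the matrix units `E`; near the identity the
conjugation action is given by a continuous representation `σ` with determinant `1`, and `σ v` is
never a scalar except `1`.

Proof: `s u = ∑ i, ρ u * E i 0 * ρ u⁻¹ * E 0 i` lies in the span of the `E i j`, is continuous on
`U`, `s 1 = unitOf E`, and satisfies `s u * E k l = (ρ u * E k l * ρ u⁻¹) * s u`. Let `A u` be its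
coefficient matrix (`exists_coeff`), continuous, `A 1 = 1`; near `1` it is invertible, with
`det (A u)` near `1`; `σ u = (δ u)⁻¹ • A u` with `δ u` the `d`-th root of `det (A u)` near `1`. Two
such lifts of the same conjugation differ by a scalar which is a `d`-th root of unity and near `1`,
so equal to `1`: this gives multiplicativity, and the continuity of `δ` at `1` gives continuity of
`σ` at `1`, hence everywhere. -/
theorem lift [IsAlgClosed K] {U : Subgroup P} (hU : IsOpen (U : Set P)) {r d : ℕ} (hd : 0 < d)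
    {E : Fin d → Fin d → Matrix (Fin r) (Fin r) K} (hE : MatUnits E) (hE0 : ∀ i, E i i ≠ 0)
    {ρ : P → Matrix (Fin r) (Fin r) K} (hρ : RepOn U ρ)
    (hconj : ∀ u ∈ U, ∀ i j, ∃ T : Matrix (Fin d) (Fin d) K, ρ u * E i j * ρ u⁻¹ = comb E T) :
    ∃ V : Subgroup P, V ≤ U ∧ IsOpen (V : Set P) ∧ V.Normal ∧
      ∃ σ : P → Matrix (Fin d) (Fin d) K, RepOn V σ ∧ (∀ v ∈ V, (σ v).det = 1) ∧
        (∀ v ∈ V, ∀ i j, ρ v * E i j * ρ v⁻¹ * comb E (σ v) = comb E (σ v) * E i j) ∧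
        ∀ v ∈ V, ∀ c : K, σ v = c • (1 : Matrix (Fin d) (Fin d) K) → σ v = 1 := by
  classical
  obtain ⟨L, hLc, hL⟩ := exists_coeff hE hE0
  set z : Fin d := ⟨0, hd⟩ with hz
  have hinv : ∀ u ∈ U, ρ u⁻¹ * ρ u = 1 := by
    intro u hu
    rw [← hρ.mul _ (U.inv_mem hu) _ hu, inv_mul_cancel, hρ.one]
  set s : P → Matrix (Fin r) (Fin r) K := fun u => ∑ i, ρ u * E i z * ρ u⁻¹ * E z i with hs
  set A : P → Matrix (Fin d) (Fin d) K := fun u => L (s u) with hA
  have hAs : ∀ u ∈ U, comb E (A u) = s u := by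
    intro u hu
    obtain ⟨T, hT⟩ := lift_sum_mem hE z (hconj u hu)
    have h1 : s u = comb E T := hT
    rw [hA]
    change comb E (L (s u)) = s u
    rw [h1, hL]
  have hsE : ∀ u ∈ U, ∀ k l, s u * E k l = ρ u * E k l * ρ u⁻¹ * s u := fun u hu k l =>
    lift_inter hE (hinv u hu) z k l
  have hinj := comb_injective hE hE0
  have key1 : ∀ u ∈ U, ∀ S T, ρ u * comb E S * ρ u⁻¹ = comb E T → A u * S = T * A u := by
    intro u hu S T hT
    apply hinj
    rw [← comb_mul hE, ← comb_mul hE, hAs u hu, lift_mul_comb (hsE u hu) S, hT]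
  have key2 : ∀ u ∈ U, ∀ v ∈ U, ∀ S, ∃ R, A (u * v) * S = R * A (u * v) ∧
      A u * A v * S = R * (A u * A v) := by
    intro u hu v hv S
    obtain ⟨T, hT⟩ := lift_conj_comb (hconj v hv) S
    obtain ⟨R, hR⟩ := lift_conj_comb (hconj u hu) T
    refine ⟨R, key1 _ (U.mul_mem hu hv) _ _ ?_, ?_⟩
    · rw [hρ.mul _ hu _ hv, _root_.mul_inv_rev, hρ.mul _ (U.inv_mem hv) _ (U.inv_mem hu), ← hR, ← hT]
      noncomm_ring
    · rw [mul_assoc, key1 v hv _ _ hT, ← mul_assoc, key1 u hu _ _ hR, mul_assoc]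
  -- continuity and value at one
  have hAc : ContinuousOn A (U : Set P) := by
    have h1 : ContinuousOn (fun u => ρ u⁻¹) (U : Set P) :=
      hρ.cont.comp continuous_inv.continuousOn (fun u hu => U.inv_mem hu)
    have h2 : ContinuousOn s (U : Set P) := by
      refine continuousOn_finsetSum _ fun i _ => ?_
      exact ((hρ.cont.mul continuousOn_const).mul h1).mul continuousOn_const
    exact hLc.comp_continuousOn h2
  have hA1 : A 1 = 1 := by
    have h1 : s 1 = comb E 1 := by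
      rw [comb_one, unitOf]
      change ∑ i, ρ 1 * E i z * ρ 1⁻¹ * E z i = _
      rw [inv_one, hρ.one]
      refine Finset.sum_congr rfl fun i _ => ?_
      rw [one_mul, mul_one, hE, if_pos rfl]
    change L (s 1) = 1
    rw [h1, hL]
  -- neighbourhoods
  obtain ⟨O, hO, hO0, hOu⟩ := exists_root_unique K hd
  have h1O : (1 : K) ∈ O := mem_of_mem_nhds hO
  obtain ⟨Q, hQ, hQ1, hQ2⟩ : ∃ Q ∈ 𝓝 (1 : Matrix (Fin d) (Fin d) K),
      (∀ X ∈ Q, X z z ∈ O) ∧ ∀ X ∈ Q, ∀ Y ∈ Q, (X * Y) z z ∈ O := by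
    have hev : Continuous fun X : Matrix (Fin d) (Fin d) K => X z z :=
      continuous_id.matrix_elem z z
    have h1 : (fun X : Matrix (Fin d) (Fin d) K => X z z) ⁻¹' O ∈ 𝓝 (1 : Matrix _ _ K) := by
      apply hev.continuousAt
      change O ∈ 𝓝 ((1 : Matrix (Fin d) (Fin d) K) z z)
      rw [Matrix.one_apply_eq]; exact hO
    have h2 : (fun p : Matrix (Fin d) (Fin d) K × Matrix (Fin d) (Fin d) K =>
        (p.1 * p.2) z z) ⁻¹' O ∈ 𝓝 ((1 : Matrix (Fin d) (Fin d) K), (1 : Matrix _ _ K)) := by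
      have hc : Continuous fun p : Matrix (Fin d) (Fin d) K × Matrix (Fin d) (Fin d) K =>
        (p.1 * p.2) z z := hev.comp (continuous_fst.mul continuous_snd)
      apply hc.continuousAt
      change O ∈ 𝓝 (((1 : Matrix (Fin d) (Fin d) K) * (1 : Matrix (Fin d) (Fin d) K) :
        Matrix (Fin d) (Fin d) K) z z)
      rw [mul_one, Matrix.one_apply_eq]; exact hO
    rw [nhds_prod_eq, Filter.mem_prod_iff] at h2
    obtain ⟨Q1, hQ1, Q2, hQ2, hsub⟩ := h2
    refine ⟨_ ∩ (Q1 ∩ Q2), Filter.inter_mem h1 (Filter.inter_mem hQ1 hQ2), fun X hX => hX.1,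
      fun X hX Y hY => ?_⟩
    exact hsub (Set.mk_mem_prod hX.2.1 hY.2.2)
  have hscal : ∀ W ∈ 𝓝 (1 : Matrix (Fin d) (Fin d) K), ∃ O₂ ∈ 𝓝 (1 : K),
      ∃ N ∈ 𝓝 (1 : Matrix (Fin d) (Fin d) K), ∀ δ ∈ O₂, ∀ X ∈ N, δ⁻¹ • X ∈ W := by
    intro W hW
    have h1 : ContinuousAt (fun p : K × Matrix (Fin d) (Fin d) K => p.1⁻¹ • p.2)
        ((1 : K), (1 : Matrix (Fin d) (Fin d) K)) := by
      refine ContinuousAt.fun_smul ?_ continuousAt_snd
      exact ContinuousAt.inv₀ continuousAt_fst one_ne_zero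
    have h2 : (fun p : K × Matrix (Fin d) (Fin d) K => p.1⁻¹ • p.2) ⁻¹' W ∈
        𝓝 ((1 : K), (1 : Matrix (Fin d) (Fin d) K)) := by
      apply h1
      change W ∈ 𝓝 ((1 : K)⁻¹ • (1 : Matrix (Fin d) (Fin d) K))
      rw [inv_one, one_smul]; exact hW
    rw [nhds_prod_eq, Filter.mem_prod_iff] at h2
    obtain ⟨O₂, hO₂, N, hN, hsub⟩ := h2
    exact ⟨O₂, hO₂, N, hN, fun δ hδ X hX => hsub (Set.mk_mem_prod hδ hX)⟩
  have hdet : Continuous fun X : Matrix (Fin d) (Fin d) K => X.det :=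
    continuous_id.matrix_det
  have hdet1 : ∀ O' ∈ 𝓝 (1 : K), (fun X : Matrix (Fin d) (Fin d) K => X.det) ⁻¹' O' ∈
      𝓝 (1 : Matrix (Fin d) (Fin d) K) := by
    intro O' hO'
    apply hdet.continuousAt
    change O' ∈ 𝓝 ((1 : Matrix (Fin d) (Fin d) K).det)
    rw [Matrix.det_one]; exact hO'
  obtain ⟨O₂, hO₂, N, hN, hON⟩ := hscal Q hQ
  obtain ⟨O', hO', hroot⟩ := exists_root_near hd (Filter.inter_mem hO hO₂)
  obtain ⟨N', hN'sub, hN'o, hN'1⟩ := mem_nhds_iff.1 (Filter.inter_mem hN (hdet1 O' hO'))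
  obtain ⟨V, hVU, hVo, hVn, hVN⟩ := exists_small hU hAc hN'o (by rw [hA1]; exact hN'1)
  have hex : ∀ v ∈ V, ∃ δ ∈ O ∩ O₂, δ ^ d = (A v).det := fun v hv =>
    hroot _ (hN'sub (hVN v hv)).2
  choose! δ hδO hδd using hex
  have hδ0 : ∀ v ∈ V, δ v ≠ 0 := fun v hv h0 => hO0 (h0 ▸ (hδO v hv).1)
  have hAdet : ∀ v ∈ V, (A v).det ≠ 0 := fun v hv => by
    rw [← hδd v hv]; exact pow_ne_zero _ (hδ0 v hv)
  have hσQ : ∀ v ∈ V, (δ v)⁻¹ • A v ∈ Q := fun v hv =>
    hON _ (hδO v hv).2 _ (hN'sub (hVN v hv)).1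
  have hσdet : ∀ v ∈ V, ((δ v)⁻¹ • A v).det = 1 := by
    intro v hv
    rw [Matrix.det_smul, Fintype.card_fin, ← hδd v hv, inv_pow]
    exact inv_mul_cancel₀ (pow_ne_zero _ (hδ0 v hv))
  -- multiplicativity
  have hmul : ∀ u ∈ V, ∀ v ∈ V, (δ (u * v))⁻¹ • A (u * v) =
      ((δ u)⁻¹ • A u) * ((δ v)⁻¹ • A v) := by
    intro u hu v hv
    have huv := V.mul_mem hu hv
    obtain ⟨c, hc⟩ := lift_scalar hE hE0 hd (B := A u * A v) (C := A (u * v))
      (by rw [Matrix.det_mul]; exact (mul_ne_zero (hAdet u hu) (hAdet v hv)).isUnit)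
      (key2 u (hVU hu) v (hVU hv))
    obtain ⟨c', hc'⟩ : ∃ c' : K, (δ (u * v))⁻¹ • A (u * v) =
        c' • (((δ u)⁻¹ • A u) * ((δ v)⁻¹ • A v)) := by
      refine ⟨(δ (u * v))⁻¹ * c * (δ u * δ v), ?_⟩
      rw [hc, smul_mul_smul_comm, smul_smul, smul_smul]
      congr 1
      have h1 := hδ0 u hu
      have h2 := hδ0 v hv
      field_simp
    have hd1 : c' ^ d = 1 := by
      have h1 := congrArg Matrix.det hc'
      rw [hσdet _ huv, Matrix.det_smul, Fintype.card_fin, Matrix.det_mul, hσdet u hu,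
        hσdet v hv, mul_one, mul_one] at h1
      exact h1.symm
    set a : K := (((δ u)⁻¹ • A u) * ((δ v)⁻¹ • A v)) z z with ha
    have haO : a ∈ O := hQ2 _ (hσQ u hu) _ (hσQ v hv)
    have hbO : ((δ (u * v))⁻¹ • A (u * v)) z z ∈ O := hQ1 _ (hσQ _ huv)
    have hb : ((δ (u * v))⁻¹ • A (u * v)) z z = c' * a := by
      rw [hc', Matrix.smul_apply, smul_eq_mul]
    have h3 : a * 1 = ((δ (u * v))⁻¹ • A (u * v)) z z := by
      refine hOu a haO 1 h1O _ hbO ?_
      rw [hb, mul_one, mul_pow, hd1, one_mul]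
    have ha0 : a ≠ 0 := fun h0 => hO0 (h0 ▸ haO)
    have h4 : c' = 1 := by
      rw [hb, mul_one] at h3
      have h5 : 1 * a = c' * a := by rw [one_mul]; exact h3
      exact (mul_right_cancel₀ ha0 h5).symm
    rw [hc', h4, one_smul]
  have hδ1 : δ 1 = 1 := by
    have h1 := hδd 1 V.one_mem
    rw [hA1, Matrix.det_one] at h1
    have h2 := hOu (δ 1) (hδO 1 V.one_mem).1 1 h1O 1 h1O (by rw [mul_one, h1, one_pow])
    rwa [mul_one] at h2
  have hσ1 : (δ 1)⁻¹ • A 1 = 1 := by rw [hδ1, hA1, inv_one, one_smul]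
  -- continuity at one
  have hcont1 : ContinuousWithinAt (fun v => (δ v)⁻¹ • A v) (V : Set P) 1 := by
    have hA1c : ContinuousWithinAt A (V : Set P) 1 :=
      (hAc 1 U.one_mem).mono hVU
    intro W hW
    change W ∈ 𝓝 ((δ 1)⁻¹ • A 1) at hW
    rw [hσ1] at hW
    obtain ⟨O₃, hO₃, N₃, hN₃, hON₃⟩ := hscal W hW
    obtain ⟨O₄, hO₄, hroot₄⟩ := exists_root_near hd (Filter.inter_mem hO hO₃)
    have h1 : A ⁻¹' (N₃ ∩ (fun X : Matrix (Fin d) (Fin d) K => X.det) ⁻¹' O₄) ∈ 𝓝[V] (1 : P) := by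
      apply hA1c
      rw [hA1]
      exact Filter.inter_mem hN₃ (hdet1 O₄ hO₄)
    rw [Filter.mem_map]
    filter_upwards [h1, self_mem_nhdsWithin] with v hv hvV
    obtain ⟨δ', hδ'O, hδ'd⟩ := hroot₄ _ hv.2
    have h2 : δ' * 1 = δ v := by
      refine hOu δ' hδ'O.1 1 h1O _ (hδO v hvV).1 ?_
      rw [mul_one, hδ'd, hδd v hvV]
    rw [mul_one] at h2
    change (δ v)⁻¹ • A v ∈ W
    rw [← h2]
    exact hON₃ _ hδ'O.2 _ hv.1
  refine ⟨V, hVU, hVo, hVn, fun v => (δ v)⁻¹ • A v, ⟨hσ1, hmul, ?_⟩, hσdet, ?_, ?_⟩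
  · -- continuity
    intro v hv
    have h1 : Filter.Tendsto (fun w => v⁻¹ * w) (𝓝[V] v) (𝓝[V] (1 : P)) := by
      refine tendsto_nhdsWithin_iff.2 ⟨?_, ?_⟩
      · have h2 : Filter.Tendsto (fun w => v⁻¹ * w) (𝓝 v) (𝓝 (v⁻¹ * v)) :=
          (continuous_const.mul continuous_id).tendsto v
        rw [inv_mul_cancel] at h2
        exact h2.mono_left nhdsWithin_le_nhds
      · filter_upwards [self_mem_nhdsWithin] with w hw
        exact V.mul_mem (V.inv_mem hv) hw
    have h3 := hcont1.tendsto.comp h1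
    have h4 : Filter.Tendsto (fun w => ((δ v)⁻¹ • A v) *
        ((fun v => (δ v)⁻¹ • A v) ∘ fun w => v⁻¹ * w) w) (𝓝[V] v)
        (𝓝 (((δ v)⁻¹ • A v) * ((δ 1)⁻¹ • A 1))) := tendsto_const_nhds.mul h3
    rw [hσ1, mul_one] at h4
    refine Filter.Tendsto.congr' ?_ h4
    filter_upwards [self_mem_nhdsWithin] with w hw
    change ((δ v)⁻¹ • A v) * ((δ (v⁻¹ * w))⁻¹ • A (v⁻¹ * w)) = (δ w)⁻¹ • A w
    rw [← hmul v hv _ (V.mul_mem (V.inv_mem hv) hw), mul_inv_cancel_left]
  · intro v hv i j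
    change ρ v * E i j * ρ v⁻¹ * comb E ((δ v)⁻¹ • A v) = comb E ((δ v)⁻¹ • A v) * E i j
    rw [comb_smul, hAs v (hVU hv), mul_smul_comm, smul_mul_assoc, hsE v (hVU hv)]
  · intro v hv c hc
    have hc1 : (δ v)⁻¹ • A v = c • (1 : Matrix (Fin d) (Fin d) K) := hc
    have h1 := hσdet v hv
    rw [hc1, Matrix.det_smul, Matrix.det_one, mul_one, Fintype.card_fin] at h1
    have h2 : c ∈ O := by
      have h3 := hQ1 _ (hσQ v hv)
      rw [hc1, Matrix.smul_apply, Matrix.one_apply_eq, smul_eq_mul, mul_one] at h3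
      exact h3
    have h3 := hOu c h2 1 h1O 1 h1O (by rw [mul_one, h1, one_pow])
    rw [mul_one] at h3
    change (δ v)⁻¹ • A v = 1
    rw [hc1, h3, one_smul]

end Pool.Agent.GeoOrig
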