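import Pool.Agent.Lib.GeoOrig.Top

/-!
# Module PROD: products of closed normal subgroups
-/

namespace Pool.Agent.GeoOrig

open Matrix Topology Pointwise

private lemma prod_finite {Q : Type*} [Group Q] {n : ℕ} (A : Subgroup Q) (B : Fin n → Subgroup Q)
    [∀ i, (B i).Normal] (hA : (A : Set Q).Finite)
    (hB : ∀ i, (B i : Set Q).Finite) : ((A ⊔ ⨆ i, B i : Subgroup Q) : Set Q).Finite := by
  classical
  have key : ∀ s : Finset (Fin n), ((A ⊔ ⨆ i ∈ s, B i : Subgroup Q) : Set Q).Finite := by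
    intro s
    induction s using Finset.induction_on with
    | empty => simpa using hA
    | insert a s ha ih =>
      rw [Finset.iSup_insert, sup_left_comm, Subgroup.normal_mul]
      exact (hB a).mul ih
  simpa using key Finset.univ

variable {P : Type*} [Group P] [TopologicalSpace P] [IsTopologicalGroup P] [CompactSpace P]
  [TotallyDisconnectedSpace P]

private lemma prod_closed {n : ℕ} (A : Subgroup P) (B : Fin n → Subgroup P)
    [∀ i, (B i).Normal] (hA : IsClosed (A : Set P))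
    (hB : ∀ i, IsClosed (B i : Set P)) : IsClosed ((A ⊔ ⨆ i, B i : Subgroup P) : Set P) := by
  classical
  have key : ∀ s : Finset (Fin n), IsClosed ((A ⊔ ⨆ i ∈ s, B i : Subgroup P) : Set P) := by
    intro s
    induction s using Finset.induction_on with
    | empty => simpa using hA
    | insert a s ha ih =>
      rw [Finset.iSup_insert, sup_left_comm, Subgroup.normal_mul]
      exact ((hB a).isCompact.mul ih.isCompact).isClosed
  simpa using key Finset.univ

omit [TopologicalSpace P] [IsTopologicalGroup P] [CompactSpace P] [TotallyDisconnectedSpace P] in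
private lemma image_finite (U M H : Subgroup P) [M.Normal] (hfin : Finite (P ⧸ U))
    (h : H ⊓ U ≤ M) :
    ((H.map (QuotientGroup.mk' M) : Subgroup (P ⧸ M)) : Set (P ⧸ M)).Finite := by
  classical
  refine (Set.finite_range (fun z : P ⧸ U => if hz : ∃ x ∈ H, (x : P ⧸ U) = z then
    (QuotientGroup.mk' M hz.choose) else 1)).subset ?_
  rintro _ ⟨x, hx, rfl⟩
  have hz : ∃ x' ∈ H, (x' : P ⧸ U) = (x : P ⧸ U) := ⟨x, hx, rfl⟩
  refine ⟨(x : P ⧸ U), ?_⟩
  simp only [dif_pos hz]
  obtain ⟨h1, h2⟩ := hz.choose_spec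
  rw [QuotientGroup.eq] at h2
  exact (QuotientGroup.eq).2 (h ⟨H.mul_mem (H.inv_mem h1) hx, h2⟩)

/-- If `R N_1 ⋯ N_n` contains `G ∩ U₀` with `U₀` open, then for every open normal `U` the group
`(R ∩ U)(N_1 ∩ U) ⋯ (N_n ∩ U)` contains `G ∩ V` for some open normal `V ≤ U`.

Proof: put `L = R N_1 ⋯ N_n` and `M = (R ∩ U)(N_1 ∩ U) ⋯ (N_n ∩ U)`. Both are closed (finite products of
closed normal subgroups of a compact group) and normal, and `M` has finite index in `L` (since
`N_i ∩ U` has finite index in `N_i`: `L` is the union of the cosets `r n_1 ⋯ n_n M`, with `r`, `n_i` in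
finite sets of representatives). So `L \ M` is a finite union of cosets of `M`, hence closed, and
there is an open normal `W` with `L ∩ W ≤ M`; take `V = U ∩ U₀ ∩ W`. -/
theorem exists_inf_le (G R : Subgroup P) [R.Normal] (hR : IsClosed (R : Set P)) {n : ℕ}
    (N : Fin n → Subgroup P) [∀ i, (N i).Normal] (hN : ∀ i, IsClosed (N i : Set P))
    (hgen : ∃ U₀ : Subgroup P, IsOpen (U₀ : Set P) ∧ G ⊓ U₀ ≤ R ⊔ ⨆ i, N i)
    (U : Subgroup P) (hU : IsOpen (U : Set P)) (hUn : U.Normal) :
    ∃ V : Subgroup P, V ≤ U ∧ IsOpen (V : Set P) ∧ V.Normal ∧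
      G ⊓ V ≤ (R ⊓ U) ⊔ ⨆ i, (N i ⊓ U) := by
  obtain ⟨U₀, hU₀, hG⟩ := hgen
  have hUc : IsClosed (U : Set P) := U.isClosed_of_isOpen hU
  have hfin : Finite (P ⧸ U) := U.quotient_finite_of_isOpen hU
  have hMc : IsClosed (((R ⊓ U) ⊔ ⨆ i, (N i ⊓ U) : Subgroup P) : Set P) :=
    prod_closed (R ⊓ U) (fun i => N i ⊓ U) (by simpa using hR.inter hUc)
      (fun i => by simpa using (hN i).inter hUc)
  have hMn : ((R ⊓ U) ⊔ ⨆ i, (N i ⊓ U) : Subgroup P).Normal := Subgroup.sup_normal _ _
  set M : Subgroup P := (R ⊓ U) ⊔ ⨆ i, (N i ⊓ U) with hM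
  set L : Subgroup P := R ⊔ ⨆ i, N i with hL
  have hnorm : ∀ i, ((N i).map (QuotientGroup.mk' M)).Normal := fun i =>
    Subgroup.Normal.map inferInstance _ (QuotientGroup.mk'_surjective M)
  have hLfin : ((L.map (QuotientGroup.mk' M) : Subgroup (P ⧸ M)) : Set (P ⧸ M)).Finite := by
    rw [hL, Subgroup.map_sup, Subgroup.map_iSup]
    refine prod_finite _ _ (image_finite U M R hfin le_sup_left) fun i => ?_
    exact image_finite U M (N i) hfin ((le_iSup (fun i => N i ⊓ U) i).trans le_sup_right)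
  -- the closed set
  set C : Set P := ⋃ y ∈ ((L.map (QuotientGroup.mk' M) : Subgroup (P ⧸ M)) : Set (P ⧸ M)) \ {1},
    (QuotientGroup.mk' M) ⁻¹' {y} with hC
  have hCc : IsClosed C := by
    refine (hLfin.subset Set.diff_subset).isClosed_biUnion fun y _ => ?_
    obtain ⟨x₀, rfl⟩ := QuotientGroup.mk'_surjective M y
    have h1 : (QuotientGroup.mk' M) ⁻¹' {QuotientGroup.mk' M x₀} =
        (fun z => x₀⁻¹ * z) ⁻¹' (M : Set P) := by
      ext z
      simp only [Set.mem_preimage, Set.mem_singleton_iff, SetLike.mem_coe]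
      rw [eq_comm]
      exact QuotientGroup.eq
    rw [h1]
    exact hMc.preimage (continuous_const.mul continuous_id)
  have h1C : (1 : P) ∈ Cᶜ := by
    intro h1
    simp only [hC, Set.mem_iUnion, Set.mem_preimage, map_one] at h1
    obtain ⟨y, hy, hy1⟩ := h1
    exact hy.2 hy1.symm
  obtain ⟨V, hVU, hVo, hVn, hV⟩ := exists_small (U := U ⊓ U₀) (by simpa using hU.inter hU₀)
    (f := fun x : P => x) continuous_id.continuousOn hCc.isOpen_compl h1C
  refine ⟨V, hVU.trans inf_le_left, hVo, hVn, fun g hg => ?_⟩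
  have hgL : g ∈ L := hG ⟨hg.1, (hVU hg.2).2⟩
  by_contra hgM
  refine hV g hg.2 ?_
  simp only [hC, Set.mem_iUnion]
  refine ⟨QuotientGroup.mk' M g, ⟨⟨g, hgL, rfl⟩, ?_⟩, rfl⟩
  intro h1
  exact hgM ((QuotientGroup.eq_one_iff g).1 h1)

end Pool.Agent.GeoOrig
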