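import Pool.Agent.Lib.GeoOrig.Step

/-!
# Module REC: splitting off all the normal subgroups
-/

namespace Pool.Agent.GeoOrig

open Matrix Topology

variable {K : Type*} [NontriviallyNormedField K] {P : Type*} [Group P] [TopologicalSpace P]
  [IsTopologicalGroup P] [CompactSpace P] [TotallyDisconnectedSpace P]

omit [IsTopologicalGroup P] [CompactSpace P] [TotallyDisconnectedSpace P] in
private lemma RepOn.mono {n : Type*} [Fintype n] [DecidableEq n] {U V : Subgroup P}
    {ρ : P → Matrix n n K} (h : RepOn U ρ) (hV : V ≤ U) : RepOn V ρ :=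
  ⟨h.one, fun u hu v hv => h.mul u (hV hu) v (hV hv), h.cont.mono hV⟩

/-- the embedding of the multiplicity space -/
private noncomputable def emb {r d m : ℕ} (J : Fin d → Fin m → (Fin r → K)) (j : Fin d) :
    (Fin m → K) →ₗ[K] (Fin r → K) :=
  ∑ t, (LinearMap.proj t : (Fin m → K) →ₗ[K] K).smulRight (J j t)

private lemma emb_apply {r d m : ℕ} (J : Fin d → Fin m → (Fin r → K)) (j : Fin d)
    (w : Fin m → K) : emb J j w = ∑ t, w t • J j t := by
  simp [emb, LinearMap.sum_apply]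

private lemma emb_injective {r d m : ℕ} {J : Fin d → Fin m → (Fin r → K)}
    (hJ : LinearIndependent K (fun p : Fin d × Fin m => J p.1 p.2)) (j : Fin d) :
    Function.Injective (emb J j) := by
  rw [injective_iff_map_eq_zero]
  intro w hw
  rw [emb_apply] at hw
  have h1 : LinearIndependent K (fun t : Fin m => J j t) :=
    hJ.comp (fun t => (j, t)) (fun a b h => (Prod.mk.injEq _ _ _ _ ▸ h).2)
  exact funext fun t => Fintype.linearIndependent_iff.mp h1 w hw t

omit [TopologicalSpace P] [IsTopologicalGroup P] [CompactSpace P]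
  [TotallyDisconnectedSpace P] [Group P] in
private lemma emb_tau {r d m : ℕ} {ρ : P → Matrix (Fin r) (Fin r) K}
    {σ : P → Matrix (Fin d) (Fin d) K} {τ : P → Matrix (Fin m) (Fin m) K}
    {J : Fin d → Fin m → (Fin r → K)} {v : P}
    (h : ∀ j t, ρ v *ᵥ J j t = ∑ k, ∑ s, (σ v k j * τ v s t) • J k s)
    (hσ : σ v = 1) (j : Fin d) (w : Fin m → K) :
    ρ v *ᵥ emb J j w = emb J j (τ v *ᵥ w) := by
  rw [emb_apply, emb_apply, Matrix.mulVec_sum]
  have h1 : ∀ t, ρ v *ᵥ (w t • J j t) = ∑ s, (τ v s t * w t) • J j s := by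
    intro t
    rw [Matrix.mulVec_smul, h j t, hσ, Finset.sum_eq_single j]
    · rw [Finset.smul_sum]
      refine Finset.sum_congr rfl fun s _ => ?_
      rw [smul_smul, Matrix.one_apply_eq, one_mul, mul_comm]
    · intro k _ hk
      refine Finset.sum_eq_zero fun s _ => ?_
      rw [Matrix.one_apply_ne hk, zero_mul, zero_smul]
    · intro hj
      exact absurd (Finset.mem_univ j) hj
  rw [Finset.sum_congr rfl fun t _ => h1 t, Finset.sum_comm]
  refine Finset.sum_congr rfl fun s _ => ?_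
  rw [← Finset.sum_smul]
  rfl

private lemma ext_mulVec {m : ℕ} {A B : Matrix (Fin m) (Fin m) K}
    (h : ∀ w, A *ᵥ w = B *ᵥ w) : A = B := by
  ext i j
  have := congrFun (h (Pi.single j 1)) i
  simpa [Matrix.mulVec_single_one] using this

omit [TopologicalSpace P] [IsTopologicalGroup P] [CompactSpace P]
  [TotallyDisconnectedSpace P] [Group P] in
private lemma emb_form {r d m : ℕ} {ρ : P → Matrix (Fin r) (Fin r) K}
    {σ : P → Matrix (Fin d) (Fin d) K} {τ : P → Matrix (Fin m) (Fin m) K}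
    {J : Fin d → Fin m → (Fin r → K)} {v : P}
    (h : ∀ j t, ρ v *ᵥ J j t = ∑ k, ∑ s, (σ v k j * τ v s t) • J k s)
    (j : Fin d) (w : Fin m → K) :
    ρ v *ᵥ emb J j w = ∑ k, σ v k j • emb J k (τ v *ᵥ w) := by
  simp only [emb_apply]
  rw [Matrix.mulVec_sum]
  have h1 : ∀ t, ρ v *ᵥ (w t • J j t) = ∑ k, ∑ s, (w t * (σ v k j * τ v s t)) • J k s := by
    intro t
    rw [Matrix.mulVec_smul, h j t]
    simp only [Finset.smul_sum, smul_smul]
  rw [Finset.sum_congr rfl fun t _ => h1 t, Finset.sum_comm]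
  refine Finset.sum_congr rfl fun k _ => ?_
  rw [Finset.sum_comm, Finset.smul_sum]
  refine Finset.sum_congr rfl fun s _ => ?_
  rw [← Finset.sum_smul, smul_smul]
  congr 1
  rw [Matrix.mulVec, dotProduct, Finset.mul_sum]
  exact Finset.sum_congr rfl fun t _ => by ring

omit [TopologicalSpace P] [IsTopologicalGroup P] [CompactSpace P]
  [TotallyDisconnectedSpace P] [Group P] in
private lemma comm_tau {r d m : ℕ} {ρ : P → Matrix (Fin r) (Fin r) K}
    {σ : P → Matrix (Fin d) (Fin d) K} {τ : P → Matrix (Fin m) (Fin m) K}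
    {J : Fin d → Fin m → (Fin r → K)}
    (hJ : LinearIndependent K (fun p : Fin d × Fin m => J p.1 p.2)) {v x : P}
    (hv : ∀ j t, ρ v *ᵥ J j t = ∑ k, ∑ s, (σ v k j * τ v s t) • J k s)
    (hx : ∀ j t, ρ x *ᵥ J j t = ∑ k, ∑ s, (σ x k j * τ x s t) • J k s)
    (hσx : σ x = 1) (hσv : σ v ≠ 0) {c : K} (hc : ρ v * ρ x = c • (ρ x * ρ v)) :
    τ v * τ x = c • (τ x * τ v) := by
  have hne : ∃ k j, σ v k j ≠ 0 := by
    by_contra hcon
    push Not at hcon
    exact hσv (by ext k j; exact hcon k j)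
  obtain ⟨k, j, hkj⟩ := hne
  apply ext_mulVec
  intro w
  have h1 : ρ v *ᵥ (ρ x *ᵥ emb J j w) = ∑ k, σ v k j • emb J k (τ v *ᵥ (τ x *ᵥ w)) := by
    rw [emb_tau hx hσx j w, emb_form hv]
  have h2 : ρ x *ᵥ (ρ v *ᵥ emb J j w) = ∑ k, σ v k j • emb J k (τ x *ᵥ (τ v *ᵥ w)) := by
    rw [emb_form hv, Matrix.mulVec_sum]
    refine Finset.sum_congr rfl fun k _ => ?_
    rw [Matrix.mulVec_smul, emb_tau hx hσx]
  have h3 : ∑ k, σ v k j • emb J k (τ v *ᵥ (τ x *ᵥ w) - c • (τ x *ᵥ (τ v *ᵥ w))) = 0 := by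
    simp only [map_sub, smul_sub, Finset.sum_sub_distrib, map_smul]
    rw [← h1, Matrix.mulVec_mulVec, hc, Matrix.smul_mulVec, ← Matrix.mulVec_mulVec, h2,
      Finset.smul_sum, sub_eq_zero]
    exact Finset.sum_congr rfl fun k _ => smul_comm _ _ _
  have h4 : ∑ p : Fin d × Fin m, (σ v p.1 j *
      (τ v *ᵥ (τ x *ᵥ w) - c • (τ x *ᵥ (τ v *ᵥ w))) p.2) • J p.1 p.2 = 0 := by
    rw [Fintype.sum_prod_type, ← h3]
    refine Finset.sum_congr rfl fun k _ => ?_
    rw [emb_apply, Finset.smul_sum]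
    exact Finset.sum_congr rfl fun s _ => mul_smul _ _ _
  have h5 := Fintype.linearIndependent_iff.1 hJ _ h4
  rw [← Matrix.mulVec_mulVec, Matrix.smul_mulVec, ← Matrix.mulVec_mulVec, ← sub_eq_zero]
  funext s
  exact (mul_eq_zero.1 (h5 (k, s))).resolve_left hkj

/-- Semisimplicity passes from `ρ` to `τ` on the elements where `σ = 1`. -/
theorem ssOn_tau {r d m : ℕ} (hd : 0 < d) {ρ : P → Matrix (Fin r) (Fin r) K}
    {σ : P → Matrix (Fin d) (Fin d) K} {τ : P → Matrix (Fin m) (Fin m) K} {S : Set P}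
    {J : Fin d → Fin m → (Fin r → K)}
    (hJ : LinearIndependent K (fun p : Fin d × Fin m => J p.1 p.2))
    (h : ∀ v ∈ S, ∀ j t, ρ v *ᵥ J j t = ∑ k, ∑ s, (σ v k j * τ v s t) • J k s)
    (hσ : ∀ v ∈ S, σ v = 1) (hss : SSOn (ρ '' S)) : SSOn (τ '' S) := by
  set j₀ : Fin d := ⟨0, hd⟩
  have hinj := emb_injective hJ j₀
  have hem : ∀ v ∈ S, ∀ w, ρ v *ᵥ emb J j₀ w = emb J j₀ (τ v *ᵥ w) :=
    fun v hv w => emb_tau (h v hv) (hσ v hv) j₀ w
  intro W hW
  obtain ⟨W1, hW1, hc⟩ := hss (W.map (emb J j₀)) (by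
    rintro _ ⟨v, hv, rfl⟩ _ ⟨w, hw, rfl⟩
    rw [hem v hv]
    exact Submodule.mem_map_of_mem (hW _ ⟨v, hv, rfl⟩ w hw))
  refine ⟨W1.comap (emb J j₀), ?_, ?_⟩
  · rintro _ ⟨v, hv, rfl⟩ w hw
    rw [Submodule.mem_comap] at hw ⊢
    rw [← hem v hv]
    exact hW1 _ ⟨v, hv, rfl⟩ _ hw
  · refine IsCompl.of_eq ?_ ?_
    · rw [Submodule.eq_bot_iff]
      rintro w ⟨hw1, hw2⟩
      have h1 : emb J j₀ w ∈ W.map (emb J j₀) ⊓ W1 := ⟨Submodule.mem_map_of_mem hw1, hw2⟩
      rw [hc.inf_eq_bot, Submodule.mem_bot] at h1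
      exact hinj (by rw [h1, map_zero])
    · rw [eq_top_iff]
      intro x _
      have h1 : emb J j₀ x ∈ W.map (emb J j₀) ⊔ W1 := by rw [hc.sup_eq_top]; trivial
      obtain ⟨a, ⟨w, hw, rfl⟩, b, hb, hab⟩ := Submodule.mem_sup.mp h1
      refine Submodule.mem_sup.mpr ⟨w, hw, x - w, ?_, by abel⟩
      rw [Submodule.mem_comap, map_sub, ← hab, add_sub_cancel_left]
      exact hb

/-- REC. Proof: induction on `n`. Apply `step` to `N 0`; the elements of `N i ∩ V`, `i ≠ 0`, commute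
up to scalars with those of `N 0 ∩ V` under `ρ`, so `σ = 1` there; apply the induction hypothesis to
`τ` and the groups `N 1, …`; `J (j₀, j') t = ∑ s, J' j' t s • J₀ j₀ s`.
If `ρ v` is scalar then it commutes with everything, so `σ v = 1` and then `τ v` is scalar.
The elements commuting up to scalars with `N i ∩ V ∩ W` under `ρ` do so under `τ` (`comm_tau`). -/
theorem recur [IsAlgClosed K] {n : ℕ}
    {N : Fin n → Subgroup P} (hNn : ∀ i, (N i).Normal) {r : ℕ} (hr : 0 < r)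
    {U : Subgroup P} (hU : IsOpen (U : Set P)) (hUn : U.Normal)
    {ρ : P → Matrix (Fin r) (Fin r) K} (hρ : RepOn U ρ)
    (hss : ∀ i, ∀ V : Subgroup P, V ≤ U → IsOpen (V : Set P) → V.Normal →
      SSOn (ρ '' ((N i ⊓ V : Subgroup P) : Set P)))
    (hcomm : ∀ i j, i ≠ j → ∀ x ∈ N i ⊓ U, ∀ y ∈ N j ⊓ U, ∃ c : K,
      ρ x * ρ y = c • (ρ y * ρ x)) :
    ∃ V : Subgroup P, V ≤ U ∧ IsOpen (V : Set P) ∧ V.Normal ∧
      ∃ (d : Fin n → ℕ) (m : ℕ), (∀ i, 0 < d i) ∧ 0 < m ∧
      ∃ (σ : ∀ i, P → Matrix (Fin (d i)) (Fin (d i)) K) (τ : P → Matrix (Fin m) (Fin m) K),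
        (∀ i, RepOn V (σ i)) ∧ RepOn V τ ∧ (∀ i, ∀ v ∈ V, (σ i v).det = 1) ∧
        (∀ i, ∀ x ∈ N i ⊓ V, ∃ c : K, τ x = c • (1 : Matrix (Fin m) (Fin m) K)) ∧
        (∀ i j, j ≠ i → ∀ x ∈ N j ⊓ V, σ i x = 1) ∧
        (∀ i, ∀ W : Subgroup P, IsOpen (W : Set P) →
          Submodule.span K (σ i '' ((N i ⊓ V ⊓ W : Subgroup P) : Set P)) = ⊤) ∧
        (∀ v ∈ V, (∃ c : K, ρ v = c • (1 : Matrix (Fin r) (Fin r) K)) →
          (∀ i, σ i v = 1) ∧ ∃ c : K, τ v = c • (1 : Matrix (Fin m) (Fin m) K)) ∧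
        (∀ i, ∀ v ∈ V, ∀ W : Subgroup P, IsOpen (W : Set P) →
          (∀ x ∈ N i ⊓ V ⊓ W, ∃ c : K, ρ v * ρ x = c • (ρ x * ρ v)) → σ i v = 1) ∧
        ∃ J : (∀ i, Fin (d i)) → Fin m → (Fin r → K),
          LinearIndependent K (fun p : (∀ i, Fin (d i)) × Fin m => J p.1 p.2) ∧
          ∀ v ∈ V, ∀ j t, ρ v *ᵥ J j t =
            ∑ k, ∑ s, (piKron (fun i => σ i v) k j * τ v s t) • J k s := by
  induction n generalizing r U ρ with
  | zero =>
    refine ⟨U, le_rfl, hU, hUn, Fin.elim0, r, fun i => i.elim0, hr,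
      fun i => i.elim0, ρ, fun i => i.elim0, hρ, fun i => i.elim0, fun i => i.elim0,
      fun i => i.elim0, fun i => i.elim0, fun v _ hv => ⟨fun i => i.elim0, hv⟩,
      fun i => i.elim0, fun _ t => Pi.single t 1, ?_, ?_⟩
    · have h1 : LinearIndependent K (fun t : Fin r => (Pi.single t 1 : Fin r → K)) := by
        convert (Pi.basisFun K (Fin r)).linearIndependent using 1
        ext t
        simp
      refine h1.comp (fun p : (∀ i : Fin 0, Fin ((Fin.elim0 : Fin 0 → ℕ) i)) × Fin r => p.2) ?_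
      rintro ⟨a, b⟩ ⟨a', b'⟩ hab
      exact Prod.ext (Subsingleton.elim _ _) hab
    · intro v _ j t
      rw [Fintype.sum_unique]
      have h2 : ∀ A k, (piKron (K := K) (d := (Fin.elim0 : Fin 0 → ℕ)) A) k j = 1 := by
        intro A k
        simp [piKron]
      rw [h2]
      funext a
      simp [Finset.sum_apply, Pi.single_apply]
  | succ n ih =>
    have := hNn 0
    obtain ⟨V0, hV0U, hV0o, hV0n, d0, m0, hd0, hm0, σ0, τ0, hσ0, hτ0, hdet0, -, hτ01, hspan0,
      hcent0, J0, hJ0, hform0⟩ := step (N := N 0) hr hU hUn hρ (hss 0)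
    have hσs : ∀ i : Fin n, ∀ x ∈ N i.succ ⊓ V0, σ0 x = 1 := fun i x hx =>
      hcent0 x hx.2 ⊤ isOpen_univ fun y hy => hcomm i.succ 0 (Fin.succ_ne_zero i) x
        ⟨hx.1, hV0U hx.2⟩ y ⟨hy.1.1, hV0U hy.1.2⟩
    have hinj := emb_injective hJ0 ⟨0, hd0⟩
    obtain ⟨V1, hV1, hV1o, hV1n, d', m', hd', hm', σ', τ', hσ', hτ', hdet', hτ'1, hσ'1, hspan',
      hker', hcent', J', hJ', hform'⟩ := ih (N := fun i => N i.succ) (fun i => hNn i.succ)
        hm0 hV0o hV0n hτ0 (by
          intro i V hV hVo hVn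
          exact ssOn_tau hd0 hJ0 (S := ((N i.succ ⊓ V : Subgroup P) : Set P))
            (fun v hv => hform0 v (hV hv.2)) (fun v hv => hσs i v ⟨hv.1, hV hv.2⟩)
            (hss i.succ V (hV.trans hV0U) hVo hVn)) (by
          intro i j hij x hx y hy
          obtain ⟨c, hc⟩ := hcomm i.succ j.succ (fun h => hij (Fin.succ_injective _ h)) x
            ⟨hx.1, hV0U hx.2⟩ y ⟨hy.1, hV0U hy.2⟩
          refine ⟨c, ?_⟩
          apply ext_mulVec
          intro w
          apply hinj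
          have hx' := fun w => emb_tau (hform0 x hx.2) (hσs i x hx) ⟨0, hd0⟩ w
          have hy' := fun w => emb_tau (hform0 y hy.2) (hσs j y hy) ⟨0, hd0⟩ w
          rw [Matrix.smul_mulVec, map_smul, ← Matrix.mulVec_mulVec, ← Matrix.mulVec_mulVec,
            ← hx', ← hy', ← hy', ← hx', Matrix.mulVec_mulVec, Matrix.mulVec_mulVec, hc,
            Matrix.smul_mulVec])
    have hsum : ∀ F : (∀ i, Fin ((Fin.cons (α := fun _ => ℕ) d0 d' : Fin (n + 1) → ℕ) i)) →
        (Fin r → K), ∑ j, F j = ∑ k : Fin d0, ∑ j' : (∀ i, Fin (d' i)),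
          F (Fin.cons (α := fun i => Fin ((Fin.cons (α := fun _ => ℕ) d0 d' :
            Fin (n + 1) → ℕ) i)) k j') := by
      intro F
      rw [← Equiv.sum_comp (Fin.consEquiv fun i => Fin ((Fin.cons (α := fun _ => ℕ) d0 d' :
        Fin (n + 1) → ℕ) i)), Fintype.sum_prod_type]
      rfl
    refine ⟨V1, hV1.trans hV0U, hV1o, hV1n, Fin.cons (α := fun _ => ℕ) d0 d', m', ?_, hm',
      Fin.cons (α := fun i => P → Matrix (Fin ((Fin.cons (α := fun _ => ℕ) d0 d' :
        Fin (n + 1) → ℕ) i)) (Fin ((Fin.cons (α := fun _ => ℕ) d0 d' : Fin (n + 1) → ℕ) i)) K)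
        σ0 σ', τ', ?_, hτ', ?_, ?_, ?_, ?_, ?_, ?_,
      fun j t => ∑ s, J' (fun i => j i.succ) t s • J0 (j 0) s, ?_, ?_⟩
    · exact Fin.cases hd0 hd'
    · exact Fin.cases (hσ0.mono hV1) hσ'
    · exact Fin.cases (fun v hv => hdet0 v (hV1 hv)) hdet'
    · refine Fin.cases (fun x hx => ?_) hτ'1
      exact (hker' x hx.2 (hτ01 x ⟨hx.1, hV1 hx.2⟩)).2
    · refine Fin.cases ?_ fun i => ?_
      · refine Fin.cases (fun h => absurd rfl h) fun j _ x hx => ?_
        exact hσs j x ⟨hx.1, hV1 hx.2⟩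
      · refine Fin.cases (fun _ x hx => ?_) fun j hj x hx => ?_
        · exact (hker' x hx.2 (hτ01 x ⟨hx.1, hV1 hx.2⟩)).1 i
        · exact hσ'1 i j (fun h => hj (by rw [h])) x hx
    · refine Fin.cases (fun W hW => ?_) hspan'
      have h1 := hspan0 (V1 ⊓ W) (hV1o.inter hW)
      have h2 : (N 0 ⊓ V0 ⊓ (V1 ⊓ W) : Subgroup P) = N 0 ⊓ V1 ⊓ W := by
        rw [← inf_assoc, inf_assoc (N 0) V0 V1, inf_eq_right.mpr hV1]
      rw [h2] at h1
      exact h1
    · rintro v hv ⟨c, hρv⟩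
      have h1 : σ0 v = 1 := hcent0 v (hV1 hv) ⊤ isOpen_univ fun x _ => ⟨1, by
        rw [hρv, one_smul, smul_mul_assoc, one_mul, mul_smul_comm, mul_one]⟩
      have h2 : τ0 v = c • (1 : Matrix (Fin m0) (Fin m0) K) := by
        apply ext_mulVec
        intro w
        apply hinj
        rw [← emb_tau (hform0 v (hV1 hv)) h1 ⟨0, hd0⟩ w, hρv, Matrix.smul_mulVec,
          Matrix.smul_mulVec, Matrix.one_mulVec, Matrix.one_mulVec, map_smul]
      obtain ⟨h3, h4⟩ := hker' v hv ⟨c, h2⟩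
      exact ⟨Fin.cases h1 h3, h4⟩
    · refine Fin.cases (fun v hv W hW hc => ?_) fun i v hv W hW hc => ?_
      · exact hcent0 v (hV1 hv) (V1 ⊓ W) (hV1o.inter hW) fun x hx =>
          hc x ⟨⟨hx.1.1, hx.2.1⟩, hx.2.2⟩
      · refine hcent' i v hv W hW fun x hx => ?_
        obtain ⟨c, hc'⟩ := hc x hx
        have hne : σ0 v ≠ 0 := by
          intro h0
          have h1 := hdet0 v (hV1 hv)
          rw [h0] at h1
          have : Nonempty (Fin d0) := ⟨⟨0, hd0⟩⟩
          rw [Matrix.det_zero] at h1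
          exact zero_ne_one h1
        exact ⟨c, comm_tau hJ0 (hform0 v (hV1 hv)) (hform0 x (hV1 hx.1.2))
          (hσs i x ⟨hx.1.1, hV1 hx.1.2⟩) hne hc'⟩
    · rw [Fintype.linearIndependent_iff]
      intro g hg
      have h1 : ∀ (k : Fin d0) (j' : ∀ i, Fin (d' i)) (t : Fin m'),
          g (Fin.cons (α := fun i => Fin ((Fin.cons (α := fun _ => ℕ) d0 d' :
            Fin (n + 1) → ℕ) i)) k j', t) = 0 := by
        rw [Fintype.sum_prod_type, hsum] at hg
        have h2 : ∑ p : Fin d0 × Fin m0, (∑ j' : (∀ i, Fin (d' i)), ∑ t,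
            g (Fin.cons (α := fun i => Fin ((Fin.cons (α := fun _ => ℕ) d0 d' :
              Fin (n + 1) → ℕ) i)) p.1 j', t) * J' j' t p.2) • J0 p.1 p.2 = 0 := by
          rw [← hg, Fintype.sum_prod_type]
          refine Finset.sum_congr rfl fun k _ => ?_
          simp only [Finset.sum_smul, Finset.smul_sum, mul_smul]
          rw [Finset.sum_comm]
          refine Finset.sum_congr rfl fun j' _ => ?_
          rw [Finset.sum_comm]
          rfl
        intro k j' t
        have h3 := fun s => Fintype.linearIndependent_iff.mp hJ0 _ h2 (k, s)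
        have h4 : ∑ p : (∀ i, Fin (d' i)) × Fin m',
            g (Fin.cons (α := fun i => Fin ((Fin.cons (α := fun _ => ℕ) d0 d' :
              Fin (n + 1) → ℕ) i)) k p.1, p.2) • J' p.1 p.2 = 0 := by
          funext s
          have h5 := h3 s
          rw [Fintype.sum_prod_type]
          simp only [Finset.sum_apply, Pi.smul_apply, smul_eq_mul, Pi.zero_apply]
          exact h5
        exact Fintype.linearIndependent_iff.mp hJ' _ h4 (j', t)
      rintro ⟨j, t⟩
      have h6 := h1 (j 0) (fun i => j i.succ) t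
      have h7 : (Fin.cons (α := fun i => Fin ((Fin.cons (α := fun _ => ℕ) d0 d' :
          Fin (n + 1) → ℕ) i)) (j 0) (fun i => j i.succ)) = j := Fin.cons_self_tail j
      rw [h7] at h6
      exact h6
    · intro v hv j t
      rw [Matrix.mulVec_sum, hsum]
      have h1 : ∀ s, ρ v *ᵥ (J' (fun i => j i.succ) t s • J0 (j 0) s) =
          ∑ k, ∑ s', (σ0 v k (j 0) * (τ0 v s' s * J' (fun i => j i.succ) t s)) • J0 k s' := by
        intro s
        rw [Matrix.mulVec_smul]
        rw [show ρ v *ᵥ J0 (j 0) s = _ from hform0 v (hV1 hv) (j 0) s]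
        simp only [Finset.smul_sum, smul_smul]
        refine Finset.sum_congr rfl fun k _ => Finset.sum_congr rfl fun s' _ => ?_
        congr 1
        ring
      rw [Finset.sum_congr rfl fun s _ => h1 s, Finset.sum_comm]
      refine Finset.sum_congr rfl fun k _ => ?_
      rw [Finset.sum_comm]
      have h2 : ∀ s', ∑ s, (σ0 v k (j 0) * (τ0 v s' s * J' (fun i => j i.succ) t s)) • J0 k s' =
          ∑ k' : (∀ i, Fin (d' i)), ∑ u, (σ0 v k (j 0) * (piKron (fun i => σ' i v) k'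
            (fun i => j i.succ) * τ' v u t * J' k' u s')) • J0 k s' := by
        intro s'
        have h3 := congrFun (hform' v hv (fun i => j i.succ) t) s'
        simp only [Finset.sum_apply, Pi.smul_apply, smul_eq_mul] at h3
        rw [← Finset.sum_smul, ← Finset.mul_sum]
        have h4 : ∑ s, τ0 v s' s * J' (fun i => j i.succ) t s =
            (τ0 v *ᵥ J' (fun i => j i.succ) t) s' := rfl
        rw [h4, h3]
        simp only [Finset.mul_sum, Finset.sum_smul]
      rw [Finset.sum_congr rfl fun s' _ => h2 s', Finset.sum_comm]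
      refine Finset.sum_congr rfl fun k' _ => ?_
      rw [Finset.sum_comm]
      refine Finset.sum_congr rfl fun u _ => ?_
      rw [Finset.smul_sum]
      refine Finset.sum_congr rfl fun s' _ => ?_
      rw [smul_smul]
      have h5 : ∀ A : (∀ i, Matrix (Fin ((Fin.cons (α := fun _ => ℕ) d0 d' :
          Fin (n + 1) → ℕ) i)) (Fin ((Fin.cons (α := fun _ => ℕ) d0 d' :
          Fin (n + 1) → ℕ) i)) K),
          piKron A (Fin.cons (α := fun i => Fin ((Fin.cons (α := fun _ => ℕ) d0 d' :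
            Fin (n + 1) → ℕ) i)) k k') j =
            A 0 k (j 0) * piKron (d := d') (fun i => A i.succ) k' (fun i => j i.succ) := by
        intro A
        simp only [piKron, Matrix.of_apply]
        exact Fin.prod_univ_succ _
      rw [h5]
      have h6 : ∀ a b c e : K, a * (b * c * e) = a * b * c * e := fun a b c e => by ring
      rw [h6]
      rfl

end Pool.Agent.GeoOrig
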