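import Pool.Agent.Lib.GeoOrig.RStep
import Pool.Agent.Lib.GeoOrig.Rec
import Pool.Agent.Lib.GeoOrig.Prod
import Pool.Agent.Lib.GeoOrig.Kron
import Pool.Agent.Lib.GeoOrig.Det
import Pool.Agent.Lib.GeoOrig.Cliff

/-!
# Module MAIN: assembly
-/

namespace Pool.Agent.GeoOrig

open Matrix Topology

variable {K : Type*} [NontriviallyNormedField K] {P : Type*} [Group P] [TopologicalSpace P]
  [IsTopologicalGroup P] [CompactSpace P] [TotallyDisconnectedSpace P]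

/-- The subgroup of the `x ∈ V` on which `τ` is a scalar. -/
def scalOn {n : Type*} [Fintype n] [DecidableEq n] {V : Subgroup P} {τ : P → Matrix n n K}
    (h : RepOn V τ) : Subgroup P where
  carrier := {x | x ∈ V ∧ ∃ c : K, τ x = c • (1 : Matrix n n K)}
  one_mem' := ⟨V.one_mem, 1, by rw [h.one, one_smul]⟩
  mul_mem' := by
    rintro a b ⟨ha, c, hc⟩ ⟨hb, c', hc'⟩
    exact ⟨V.mul_mem ha hb, c * c', by
      rw [h.mul a ha b hb, hc, hc', smul_mul_smul_comm, one_mul]⟩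
  inv_mem' := by
    rintro a ⟨ha, c, hc⟩
    refine ⟨V.inv_mem ha, c⁻¹, ?_⟩
    have h1 := h.mul a ha a⁻¹ (V.inv_mem ha)
    rw [mul_inv_cancel, h.one, hc, smul_mul_assoc, one_mul] at h1
    by_cases h0 : c = 0
    · rw [h0, zero_smul] at h1
      have h2 := h.mul a ha a⁻¹ (V.inv_mem ha)
      have h3 : (1 : Matrix n n K) = 0 := h1
      have h4 : ∀ M : Matrix n n K, M = 0 := fun M => by rw [← mul_one M, h3, mul_zero]
      rw [h4 (τ a⁻¹), h4 (c⁻¹ • (1 : Matrix n n K))]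
    · rw [h1, smul_smul, inv_mul_cancel₀ h0, one_smul]

omit [IsTopologicalGroup P] [CompactSpace P] [TotallyDisconnectedSpace P] in
theorem repOn_mono {n : Type*} [Fintype n] [DecidableEq n] {V W : Subgroup P}
    {τ : P → Matrix n n K} (h : RepOn V τ) (hW : W ≤ V) : RepOn W τ :=
  ⟨h.one, fun u hu v hv => h.mul u (hW hu) v (hW hv), h.cont.mono hW⟩

/-- A nonzero subspace stable under a spanning set of matrices is everything. -/
theorem eq_top_of_stable {D : ℕ} {S : Set (Matrix (Fin D) (Fin D) K)}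
    (hS : Submodule.span K S = ⊤) {W : Submodule K (Fin D → K)}
    (hW : ∀ A ∈ S, ∀ w ∈ W, A *ᵥ w ∈ W) {w : Fin D → K} (hw : w ∈ W) (hw0 : w ≠ 0) : W = ⊤ := by
  classical
  have hall : ∀ (X : Matrix (Fin D) (Fin D) K), ∀ v ∈ W, X *ᵥ v ∈ W := by
    intro X v hv
    have hX : X ∈ Submodule.span K S := by
      rw [hS]
      exact Submodule.mem_top
    induction hX using Submodule.span_induction with
    | mem X hX => exact hW X hX v hv
    | zero =>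
      rw [Matrix.zero_mulVec]
      exact W.zero_mem
    | add X Y _ _ hX hY =>
      rw [Matrix.add_mulVec]
      exact W.add_mem hX hY
    | smul c X _ hX =>
      rw [Matrix.smul_mulVec]
      exact W.smul_mem c hX
  obtain ⟨i0, hi0⟩ := Function.ne_iff.1 hw0
  have hi0' : w i0 ≠ 0 := hi0
  rw [eq_top_iff]
  intro v _
  have h1 := hall (Matrix.of fun i j => if j = i0 then v i * (w i0)⁻¹ else 0) w hw
  have h2 : (Matrix.of fun i j => if j = i0 then v i * (w i0)⁻¹ else 0) *ᵥ w = v := by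
    funext i
    simp only [Matrix.mulVec, dotProduct, Matrix.of_apply, ite_mul, zero_mul]
    rw [Finset.sum_ite_eq' Finset.univ i0]
    simp [mul_assoc, inv_mul_cancel₀ hi0']
  rwa [h2] at h1

omit [Group P] [TopologicalSpace P] [IsTopologicalGroup P] [CompactSpace P]
  [TotallyDisconnectedSpace P] in
/-- The multiplicity space of an absolutely irreducible `ρ₀` which is a tensor product `A ⊗ τ`
is absolutely irreducible, and `det τ` is a root of unity if `det ρ₀ = det A = 1`. -/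
theorem tensor_factor {κ : Type*} [Fintype κ] [DecidableEq κ] [Nonempty κ] {D m : ℕ}
    {J : κ → Fin m → (Fin D → K)}
    (hJ : LinearIndependent K (fun p : κ × Fin m => J p.1 p.2))
    (hJs : Submodule.span K (Set.range fun p : κ × Fin m => J p.1 p.2) = ⊤)
    {ρ₀ : P → Matrix (Fin D) (Fin D) K} {A : P → Matrix κ κ K} {τ : P → Matrix (Fin m) (Fin m) K}
    {S : Set P}
    (hact : ∀ v ∈ S, ∀ j t, ρ₀ v *ᵥ J j t = ∑ k, ∑ s, (A v k j * τ v s t) • J k s) :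
    (Submodule.span K (ρ₀ '' S) = ⊤ → Submodule.span K (τ '' S) = ⊤) ∧
      ∀ v ∈ S, (ρ₀ v).det = (A v).det ^ m * (τ v).det ^ Fintype.card κ := by
  classical
  let b : Module.Basis (κ × Fin m) K (Fin D → K) := Module.Basis.mk hJ (by rw [hJs])
  have hb : ∀ p, b p = J p.1 p.2 := fun p => by simp [b]
  have hmat : ∀ v ∈ S, LinearMap.toMatrix b b (Matrix.toLin' (ρ₀ v)) =
      Matrix.kroneckerMap (· * ·) (A v) (τ v) := by
    intro v hv
    ext p q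
    rw [LinearMap.toMatrix_apply, Matrix.toLin'_apply, hb q, hact v hv q.1 q.2]
    have h1 : ∑ k, ∑ s, (A v k q.1 * τ v s q.2) • J k s =
        ∑ x : κ × Fin m, (A v x.1 q.1 * τ v x.2 q.2) • b x := by
      rw [Fintype.sum_prod_type]
      simp only [hb]
    rw [h1, map_sum]
    simp only [map_smul, Module.Basis.repr_self, Finsupp.smul_single, smul_eq_mul, mul_one]
    rw [Finsupp.finsetSum_apply]
    simp only [Finsupp.single_apply]
    rw [Finset.sum_ite_eq' Finset.univ p]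
    simp [Matrix.kroneckerMap_apply]
  refine ⟨fun hspan => ?_, fun v hv => ?_⟩
  · obtain ⟨k₀⟩ := ‹Nonempty κ›
    -- the block at `(k₀, k₀)`
    let φ : Matrix (Fin D) (Fin D) K →ₗ[K] Matrix (Fin m) (Fin m) K :=
      { toFun := fun M => Matrix.of fun s t =>
          LinearMap.toMatrix b b (Matrix.toLin' M) (k₀, s) (k₀, t)
        map_add' := fun M M' => by
          ext s t
          simp only [map_add, Matrix.add_apply, Matrix.of_apply]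
        map_smul' := fun c M => by
          ext s t
          simp only [map_smul, Matrix.smul_apply, Matrix.of_apply, RingHom.id_apply] }
    have hφ : ∀ v ∈ S, φ (ρ₀ v) = A v k₀ k₀ • τ v := by
      intro v hv
      ext s t
      show LinearMap.toMatrix b b (Matrix.toLin' (ρ₀ v)) (k₀, s) (k₀, t) = _
      rw [hmat v hv]
      rfl
    have hsurj : ∀ T : Matrix (Fin m) (Fin m) K, ∃ M, φ M = T := by
      intro T
      refine ⟨LinearMap.toMatrix' (Matrix.toLin b b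
        (Matrix.of fun p q : κ × Fin m => T p.2 q.2)), ?_⟩
      ext s t
      show LinearMap.toMatrix b b (Matrix.toLin' (LinearMap.toMatrix' (Matrix.toLin b b
        (Matrix.of fun p q : κ × Fin m => T p.2 q.2)))) (k₀, s) (k₀, t) = _
      rw [Matrix.toLin'_toMatrix', LinearMap.toMatrix_toLin]
      rfl
    rw [eq_top_iff]
    rintro T -
    obtain ⟨M, rfl⟩ := hsurj T
    have hM : M ∈ Submodule.span K (ρ₀ '' S) := by
      rw [hspan]
      exact Submodule.mem_top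
    induction hM using Submodule.span_induction with
    | mem M hM =>
      obtain ⟨v, hv, rfl⟩ := hM
      rw [hφ v hv]
      exact Submodule.smul_mem _ _ (Submodule.subset_span ⟨v, hv, rfl⟩)
    | zero => rw [map_zero]; exact Submodule.zero_mem _
    | add X Y _ _ hX hY => rw [map_add]; exact Submodule.add_mem _ hX hY
    | smul c X _ hX => rw [map_smul]; exact Submodule.smul_mem _ _ hX
  · have h1 : (ρ₀ v).det = LinearMap.det (Matrix.toLin' (ρ₀ v)) := by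
      rw [LinearMap.det_toLin']
    rw [h1, ← LinearMap.det_toMatrix b, hmat v hv, Matrix.det_kronecker, Fintype.card_fin]

theorem finite_roots {m : ℕ} (hm : 0 < m) : {c : K | c ^ m = 1}.Finite := by
  classical
  have := (Polynomial.nthRoots m (1 : K)).toFinset.finite_toSet
  refine this.subset fun c hc => ?_
  simpa [Polynomial.mem_nthRoots hm] using hc

/-- The span of a family permuted by a spanning set of matrices is everything. -/
theorem span_eq_top_of_stable {D : ℕ} {S : Set (Matrix (Fin D) (Fin D) K)}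
    (hS : Submodule.span K S = ⊤) {ι : Type*} {J : ι → (Fin D → K)} (hJ : LinearIndependent K J)
    (i₀ : ι) (hact : ∀ A ∈ S, ∀ i, A *ᵥ J i ∈ Submodule.span K (Set.range J)) :
    Submodule.span K (Set.range J) = ⊤ := by
  refine eq_top_of_stable hS ?_ (Submodule.subset_span ⟨i₀, rfl⟩) (hJ.ne_zero i₀)
  intro A hA w hw
  induction hw using Submodule.span_induction with
  | mem w hw =>
    obtain ⟨i, rfl⟩ := hw
    exact hact A hA i
  | zero => rw [Matrix.mulVec_zero]; exact Submodule.zero_mem _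
  | add a b _ _ ha hb => rw [Matrix.mulVec_add]; exact Submodule.add_mem _ ha hb
  | smul c a _ ha => rw [Matrix.mulVec_smul]; exact Submodule.smul_mem _ _ ha

/-- A representation with determinant `1` is, on a smaller subgroup, never a scalar except `1`. -/
theorem exists_noscalar {V : Subgroup P} (hV : IsOpen (V : Set P)) {m : ℕ} (hm : 0 < m)
    {τ : P → Matrix (Fin m) (Fin m) K} (hτ : RepOn V τ) (hdet : ∀ v ∈ V, (τ v).det = 1) :
    ∃ W : Subgroup P, W ≤ V ∧ IsOpen (W : Set P) ∧ W.Normal ∧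
      ∀ w ∈ W, ∀ c : K, τ w = c • (1 : Matrix (Fin m) (Fin m) K) → τ w = 1 := by
  have hfin : {A : Matrix (Fin m) (Fin m) K |
      ∃ c : K, c ^ m = 1 ∧ A = c • (1 : Matrix (Fin m) (Fin m) K)}.Finite := by
    refine ((finite_roots (K := K) hm).image fun c => c • (1 : Matrix (Fin m) (Fin m) K)).subset ?_
    rintro A ⟨c, hc, rfl⟩
    exact ⟨c, hc, rfl⟩
  obtain ⟨U₂, hU₂U₁, hU₂o, hU₂n, hU₂⟩ := exists_small hV hτ.cont
    (O := ({A : Matrix (Fin m) (Fin m) K |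
      ∃ c : K, c ^ m = 1 ∧ A = c • (1 : Matrix (Fin m) (Fin m) K)} \ {1})ᶜ)
    ((hfin.subset Set.sdiff_subset).isClosed.isOpen_compl) (by
      rw [hτ.one]
      simp)
  refine ⟨U₂, hU₂U₁, hU₂o, hU₂n, fun w hw c hc => ?_⟩
  by_contra hne
  refine hU₂ w hw ⟨⟨c, ?_, hc⟩, hne⟩
  have h1 := hdet w (hU₂U₁ hw)
  rw [hc, Matrix.det_smul, Matrix.det_one, mul_one, Fintype.card_fin] at h1
  exact h1

/-- The Lie-irreducible part of an irreducible representation. -/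
theorem lie_irreducible_part [IsAlgClosed K] {r : ℕ} (hr : 0 < r) (ρ : P →* GL (Fin r) K)
    (hρ : Continuous ρ)
    (hirr : ∀ W : Submodule K (Fin r → K),
      (∀ g, ∀ w ∈ W, (ρ g : Matrix (Fin r) (Fin r) K) *ᵥ w ∈ W) → W = ⊥ ∨ W = ⊤) :
    ∃ V : Subgroup P, IsOpen (V : Set P) ∧ V.Normal ∧ ∃ D : ℕ, 0 < D ∧
      ∃ σ : P → Matrix (Fin D) (Fin D) K, RepOn V σ ∧ (∀ v ∈ V, (σ v).det = 1) ∧
        (∀ v ∈ V, ∀ c : K, σ v = c • (1 : Matrix (Fin D) (Fin D) K) → σ v = 1) ∧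
        (∀ W : Subgroup P, W ≤ V → IsOpen (W : Set P) →
          Submodule.span K (σ '' (W : Set P)) = ⊤) ∧
        (∀ (M : Subgroup P) (_ : M.Normal), ∀ W : Subgroup P, W ≤ V →
          IsOpen (W : Set P) → W.Normal → SSOn (σ '' ((M ⊓ W : Subgroup P) : Set P))) ∧
        ∃ χ : P → K, χ 1 = 1 ∧ (∀ u ∈ V, ∀ v ∈ V, χ (u * v) = χ u * χ v) ∧
          (∀ u ∈ V, χ u ≠ 0) ∧ ContinuousOn χ (V : Set P) ∧
          (∃ J : Fin D → (Fin r → K), LinearIndependent K J ∧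
            ∀ v ∈ V, ∀ j, (ρ v : Matrix (Fin r) (Fin r) K) *ᵥ J j =
              ∑ k, (χ v * σ v k j) • J k) ∧
          ((∃ G : Subgroup P, (∀ x y : P, x * y * x⁻¹ * y⁻¹ ∈ G) ∧ CharFin K G) →
            (∃ m : ℕ, 0 < m ∧ ∀ g, (ρ g : Matrix (Fin r) (Fin r) K).det ^ m = 1) →
            ∀ v ∈ V, χ v = 1) := by
  classical
  have hρc : Continuous (fun g => (ρ g : Matrix (Fin r) (Fin r) K)) :=
    Units.continuous_val.comp hρ
  have hrep : RepOn (⊤ : Subgroup P) (fun g => (ρ g : Matrix (Fin r) (Fin r) K)) :=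
    ⟨by simp, fun u _ v _ => by simp, hρc.continuousOn⟩
  have htopo : IsOpen (((⊤ : Subgroup P) : Subgroup P) : Set P) := by simp
  obtain ⟨V₀, -, hV₀o, hV₀n, D, m₀, hD, hm₀, σ₀, τ₀, hσ₀, hτ₀, hdet₀, hsc₀, hτ₀s, hspan₀, -,
    J₀, hJ₀, hact₀⟩ := step (N := (⊤ : Subgroup P)) hr htopo inferInstance hrep
      (fun V _ _ hVn => cliff ρ hirr (⊤ ⊓ V))
  have hspan₀' : ∀ W : Subgroup P, W ≤ V₀ → IsOpen (W : Set P) →
      Submodule.span K (σ₀ '' (W : Set P)) = ⊤ := by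
    intro W hW hWo
    have h1 := hspan₀ W hWo
    have h2 : (⊤ ⊓ V₀ ⊓ W : Subgroup P) = W := by
      rw [top_inf_eq, inf_eq_right.2 hW]
    rwa [h2] at h1
  set t₀ : Fin m₀ := ⟨0, hm₀⟩ with ht₀
  set χ : P → K := fun x => τ₀ x t₀ t₀ with hχdef
  have hχ : ∀ x ∈ V₀, τ₀ x = χ x • (1 : Matrix (Fin m₀) (Fin m₀) K) := by
    intro x hx
    obtain ⟨c, hc⟩ := hτ₀s x ⟨Subgroup.mem_top x, hx⟩
    have h1 : χ x = c := by
      rw [hχdef]
      simp only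
      rw [hc, Matrix.smul_apply, Matrix.one_apply_eq, smul_eq_mul, mul_one]
    rw [h1, hc]
  have hχ1 : χ 1 = 1 := by
    rw [hχdef]
    simp only
    rw [hτ₀.one, Matrix.one_apply_eq]
  have hχmul : ∀ u ∈ V₀, ∀ v ∈ V₀, χ (u * v) = χ u * χ v := by
    intro u hu v hv
    have h1 := hτ₀.mul u hu v hv
    rw [hχ u hu, hχ v hv, smul_mul_smul_comm, one_mul] at h1
    have h2 := congrFun (congrFun h1 t₀) t₀
    rw [Matrix.smul_apply, Matrix.one_apply_eq, smul_eq_mul, mul_one] at h2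
    exact h2
  have hχ0 : ∀ u ∈ V₀, χ u ≠ 0 := by
    intro u hu h0
    have := hχmul u hu u⁻¹ (V₀.inv_mem hu)
    rw [mul_inv_cancel, hχ1, h0, zero_mul] at this
    exact one_ne_zero this
  have hχcont : ContinuousOn χ (V₀ : Set P) := by
    have h1 : Continuous (fun A : Matrix (Fin m₀) (Fin m₀) K => A t₀ t₀) := by fun_prop
    exact h1.comp_continuousOn hτ₀.cont
  set J₁ : Fin D → (Fin r → K) := fun j => J₀ j t₀ with hJ₁
  have hJ₁li : LinearIndependent K J₁ :=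
    hJ₀.comp (fun j => (j, t₀)) fun a b h => (Prod.mk.inj h).1
  have hact₁ : ∀ v ∈ V₀, ∀ j, (ρ v : Matrix (Fin r) (Fin r) K) *ᵥ J₁ j =
      ∑ k, (χ v * σ₀ v k j) • J₁ k := by
    intro v hv j
    have h1 : (ρ v : Matrix (Fin r) (Fin r) K) *ᵥ J₁ j =
        ∑ k, ∑ s, (σ₀ v k j * τ₀ v s t₀) • J₀ k s := hact₀ v hv j t₀
    rw [h1, hχ v hv]
    refine Finset.sum_congr rfl fun k _ => ?_
    rw [Finset.sum_eq_single t₀]
    · rw [Matrix.smul_apply, Matrix.one_apply_eq, smul_eq_mul, mul_one, mul_comm]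
    · intro s _ hs
      rw [Matrix.smul_apply, Matrix.one_apply_ne hs, smul_zero, mul_zero, zero_smul]
    · intro h
      exact absurd (Finset.mem_univ _) h
  -- semisimplicity of `σ₀` on normal subgroups
  have hss₀ : ∀ (M : Subgroup P) (_ : M.Normal), ∀ V : Subgroup P, V ≤ V₀ →
      IsOpen (V : Set P) → V.Normal → SSOn (σ₀ '' ((M ⊓ V : Subgroup P) : Set P)) := by
    intro M hM V hV _ hVn
    have h1 : SSOn ((fun x => χ x • σ₀ x) '' ((M ⊓ V : Subgroup P) : Set P)) := by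
      refine ssOn_tau (d := 1) (σ := fun _ => 1) (τ := fun x => χ x • σ₀ x)
        (J := fun _ t => J₁ t) one_pos
        (ρ := fun g => (ρ g : Matrix (Fin r) (Fin r) K)) ?_ ?_ (fun _ _ => rfl)
        (cliff ρ hirr (M ⊓ V))
      · have h1 : Function.Injective (fun p : Fin 1 × Fin D => p.2) := by
          rintro ⟨a, b⟩ ⟨a', b'⟩ h
          exact Prod.ext (Subsingleton.elim _ _) h
        exact hJ₁li.comp _ h1
      · intro v hv j t
        obtain rfl : j = 0 := Subsingleton.elim _ _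
        rw [hact₁ v (hV hv.2) t]
        simp
    intro W hW
    obtain ⟨W', hW', hc⟩ := h1 W (by
      rintro _ ⟨x, hx, rfl⟩ w hw
      show (χ x • σ₀ x) *ᵥ w ∈ W
      rw [Matrix.smul_mulVec]
      exact W.smul_mem _ (hW _ ⟨x, hx, rfl⟩ w hw))
    refine ⟨W', ?_, hc⟩
    rintro _ ⟨x, hx, rfl⟩ w hw
    have h2 : (χ x • σ₀ x) *ᵥ w ∈ W' := hW' _ ⟨x, hx, rfl⟩ w hw
    rw [Matrix.smul_mulVec] at h2
    have h3 := W'.smul_mem (χ x)⁻¹ h2
    rwa [smul_smul, inv_mul_cancel₀ (hχ0 x (hV hx.2)), one_smul] at h3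
  by_cases hyes : (∃ G : Subgroup P, (∀ x y : P, x * y * x⁻¹ * y⁻¹ ∈ G) ∧ CharFin K G) ∧
      (∃ m : ℕ, 0 < m ∧ ∀ g, (ρ g : Matrix (Fin r) (Fin r) K).det ^ m = 1)
  swap
  · exact ⟨V₀, hV₀o, hV₀n, D, hD, σ₀, hσ₀, hdet₀, hsc₀, hspan₀', hss₀, χ, hχ1, hχmul, hχ0,
      hχcont, ⟨J₁, hJ₁li, hact₁⟩, fun h1 h2 => absurd ⟨h1, h2⟩ hyes⟩
  obtain ⟨⟨G, hab, hH⟩, m', hm', hdet⟩ := hyes
  -- `χ` is trivial on `G` near the identity
  let χ' : V₀ →* Kˣ := MonoidHom.toHomUnits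
    { toFun := fun v => χ v
      map_one' := hχ1
      map_mul' := fun a b => hχmul a a.2 b b.2 }
  have hχ'v : ∀ v : V₀, (χ' v : K) = χ v := fun v => rfl
  have hχ'c : Continuous χ' := by
    rw [Units.continuous_iff]
    have h1 : Continuous (fun v : V₀ => χ v) := hχcont.domRestrict
    refine ⟨h1, ?_⟩
    have h2 : (fun v : V₀ => ((χ' v)⁻¹ : Kˣ).val) = fun v : V₀ => (χ v)⁻¹ := by
      funext v
      rw [Units.val_inv_eq_inv_val, hχ'v]
    show Continuous (fun v : V₀ => ((χ' v)⁻¹ : Kˣ).val)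
    rw [h2]
    exact h1.inv₀ fun v => hχ0 v v.2
  obtain ⟨m₁, hm₁, hχm⟩ := hH V₀ hV₀o χ' hχ'c
  obtain ⟨V₃, hV₃V, hV₃o, hV₃n, hV₃⟩ := exists_const hV₀o hχcont (G : Set P) (by
    refine (finite_roots hm₁).subset ?_
    rintro _ ⟨u, ⟨huG, hu⟩, rfl⟩
    have h1 := hχm ⟨u, hu⟩ huG
    have h2 := congrArg (fun x : Kˣ => (x : K)) h1
    simpa [hχ'v] using h2)
  have hχG : ∀ x ∈ G ⊓ V₃, χ x = 1 := fun x hx => (hV₃ x hx.2 hx.1).trans hχ1
  have hχconj : ∀ g : P, ∀ u ∈ V₃, χ (g⁻¹ * u * g) = χ u := by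
    intro g u hu
    have hgu : g⁻¹ * u * g ∈ V₃ := by
      simpa using hV₃n.conj_mem u hu g⁻¹
    have h2 : g⁻¹ * u * g = (g⁻¹ * u * g * u⁻¹) * u := by group
    have h3 : g⁻¹ * u * g * u⁻¹ ∈ G ⊓ V₃ := by
      refine ⟨?_, V₃.mul_mem hgu (V₃.inv_mem hu)⟩
      have := hab g⁻¹ u
      simpa using this
    rw [h2, hχmul _ (hV₃V h3.2) _ (hV₃V hu), hχG _ h3, one_mul]
  have hne : Nonempty (Fin D) := ⟨⟨0, hD⟩⟩
  obtain ⟨k, hk, hdetk⟩ := det_eq_pow hr ρ hirr hV₃n σ₀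
    (fun u hu => hdet₀ u (hV₃V hu)) (hspan₀' V₃ hV₃V hV₃o) χ hχconj
    (fun u hu => hχ0 u (hV₃V hu)) J₁ hJ₁li (fun u hu j => hact₁ u (hV₃V hu) j)
  have hχfin : ∀ u ∈ V₃, χ u ^ (k * m') = 1 := by
    intro u hu
    rw [pow_mul, ← hdetk u hu]
    exact hdet u
  obtain ⟨V₄, hV₄V₃, hV₄o, hV₄n, hV₄⟩ := exists_const hV₃o (hχcont.mono hV₃V) (V₃ : Set P) (by
    refine (finite_roots (Nat.mul_pos hk hm')).subset ?_
    rintro _ ⟨u, ⟨hu, _⟩, rfl⟩
    exact hχfin u hu)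
  have hV₄V : V₄ ≤ V₀ := hV₄V₃.trans hV₃V
  exact ⟨V₄, hV₄o, hV₄n, D, hD, σ₀, repOn_mono hσ₀ hV₄V, fun u hu => hdet₀ u (hV₄V hu),
    fun v hv => hsc₀ v (hV₄V hv), fun W hW => hspan₀' W (hW.trans hV₄V),
    fun M hM W hW => hss₀ M hM W (hW.trans hV₄V), χ, hχ1,
    fun u hu v hv => hχmul u (hV₄V hu) v (hV₄V hv), fun u hu => hχ0 u (hV₄V hu),
    hχcont.mono hV₄V, ⟨J₁, hJ₁li, fun u hu j => hact₁ u (hV₄V hu) j⟩,
    fun _ _ u hu => (hV₄ u hu (hV₄V₃ hu)).trans hχ1⟩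

/-- Splitting a Lie-irreducible representation along commuting normal subgroups. -/
theorem split [IsAlgClosed K] {R : Subgroup P} [R.Normal] (hR : IsClosed (R : Set P))
    (hRs : ∃ U : Subgroup P, IsOpen (U : Set P) ∧ Group.IsSolvable ↥(R ⊓ U))
    {n : ℕ} {N : Fin n → Subgroup P} [hNn : ∀ i, (N i).Normal]
    (hN : ∀ i, IsClosed (N i : Set P))
    (hcomm : ∀ i j, i ≠ j → ∀ x ∈ N i, ∀ y ∈ N j, x * y * x⁻¹ * y⁻¹ ∈ R)
    {V₀ : Subgroup P} (hV₀o : IsOpen (V₀ : Set P)) (hV₀n : V₀.Normal) {D : ℕ} (hD : 0 < D)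
    {σ₀ : P → Matrix (Fin D) (Fin D) K} (hσ₀ : RepOn V₀ σ₀) (hdet₀ : ∀ v ∈ V₀, (σ₀ v).det = 1)
    (hsc₀ : ∀ v ∈ V₀, ∀ c : K, σ₀ v = c • (1 : Matrix (Fin D) (Fin D) K) → σ₀ v = 1)
    (hspan₀' : ∀ W : Subgroup P, W ≤ V₀ → IsOpen (W : Set P) →
      Submodule.span K (σ₀ '' (W : Set P)) = ⊤)
    (hss₀ : ∀ (M : Subgroup P) (_ : M.Normal), ∀ W : Subgroup P, W ≤ V₀ →
      IsOpen (W : Set P) → W.Normal → SSOn (σ₀ '' ((M ⊓ W : Subgroup P) : Set P))) :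
    ∃ V : Subgroup P, V ≤ V₀ ∧ IsOpen (V : Set P) ∧ V.Normal ∧
      ∃ (d : Fin n → ℕ) (m : ℕ), (∀ i, 0 < d i) ∧ 0 < m ∧
      ∃ (σ : ∀ i, P → Matrix (Fin (d i)) (Fin (d i)) K) (τ : P → Matrix (Fin m) (Fin m) K),
        (∀ i, RepOn V (σ i)) ∧ (∀ i, ∀ v ∈ V, (σ i v).det = 1) ∧
        (∀ i, ∀ W : Subgroup P, IsOpen (W : Set P) →
          Submodule.span K (σ i '' ((N i ⊓ V ⊓ W : Subgroup P) : Set P)) = ⊤) ∧
        (∀ i, ∀ W : Subgroup P, IsOpen (W : Set P) → ∀ v ∈ V,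
          (∀ x ∈ N i, x ∈ W → v * x * v⁻¹ * x⁻¹ ∈ R) → σ i v = 1) ∧
        RepOn V τ ∧ (∀ v ∈ V, (τ v).det = 1) ∧
        (∀ W : Subgroup P, W ≤ V → IsOpen (W : Set P) →
          Submodule.span K (τ '' (W : Set P)) = ⊤) ∧
        (∀ v ∈ R ⊓ V, τ v = 1) ∧ (∀ i, ∀ v ∈ N i ⊓ V, τ v = 1) ∧
        ((∃ U : Subgroup P, IsOpen (U : Set P) ∧ ∃ k, solvSer U k ≤ R ⊔ ⨆ i, N i) → m = 1) ∧
        ∃ J : (∀ i, Fin (d i)) → Fin m → (Fin D → K),
          LinearIndependent K (fun p : (∀ i, Fin (d i)) × Fin m => J p.1 p.2) ∧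
          ∀ v ∈ V, ∀ j t, σ₀ v *ᵥ J j t =
            ∑ k, ∑ s, (piKron (fun i => σ i v) k j * τ v s t) • J k s := by
  classical
  have htopo : IsOpen (((⊤ : Subgroup P) : Subgroup P) : Set P) := by simp
  -- the group `R` acts trivially
  obtain ⟨V₁, hV₁V₀, hV₁o, hV₁n, m₁, hm₁, τ₁, hτ₁, hτ₁R, J₂, hJ₂, hact₂⟩ := rstep hRs hD hV₀o
    hV₀n hσ₀ (hss₀ R inferInstance)
  have hJ₂s : Submodule.span K (Set.range J₂) = ⊤ := by
    refine span_eq_top_of_stable (hspan₀' V₁ hV₁V₀ hV₁o) hJ₂ ⟨0, hm₁⟩ ?_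
    rintro _ ⟨v, hv, rfl⟩ t
    rw [hact₂ v hv t]
    exact Submodule.sum_mem _ fun s _ => Submodule.smul_mem _ _ (Submodule.subset_span ⟨s, rfl⟩)
  have hσ₀R : ∀ x ∈ R ⊓ V₁, σ₀ x = 1 := by
    intro x hx
    obtain ⟨c, hc⟩ := hτ₁R x hx
    refine hsc₀ x (hV₁V₀ hx.2) c ?_
    refine Matrix.ext_of_mulVec_single fun i => ?_
    have h1 : (Pi.single i 1 : Fin D → K) ∈ Submodule.span K (Set.range J₂) := by
      rw [hJ₂s]
      exact Submodule.mem_top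
    generalize (Pi.single i 1 : Fin D → K) = w at h1
    rw [Matrix.smul_mulVec, Matrix.one_mulVec]
    induction h1 using Submodule.span_induction with
    | mem w hw =>
      obtain ⟨t, rfl⟩ := hw
      rw [hact₂ x hx.2 t, hc, Finset.sum_eq_single t]
      · rw [Matrix.smul_apply, Matrix.one_apply_eq, smul_eq_mul, mul_one]
      · intro s _ hs
        rw [Matrix.smul_apply, Matrix.one_apply_ne hs, smul_zero, zero_smul]
      · intro h
        exact absurd (Finset.mem_univ _) h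
    | zero => rw [Matrix.mulVec_zero, smul_zero]
    | add a b _ _ ha hb => rw [Matrix.mulVec_add, ha, hb, smul_add]
    | smul e a _ ha => rw [Matrix.mulVec_smul, ha, smul_comm]
  have hσ₁ : RepOn V₁ σ₀ := repOn_mono hσ₀ hV₁V₀
  have hcommR : ∀ x ∈ V₁, ∀ y ∈ V₁, x * y * x⁻¹ * y⁻¹ ∈ R → σ₀ x * σ₀ y = σ₀ y * σ₀ x := by
    intro x hx y hy hxy
    have hc : x * y * x⁻¹ * y⁻¹ ∈ R ⊓ V₁ := ⟨hxy,
      V₁.mul_mem (V₁.mul_mem (V₁.mul_mem hx hy) (V₁.inv_mem hx)) (V₁.inv_mem hy)⟩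
    have h2 : x * y = (x * y * x⁻¹ * y⁻¹) * (y * x) := by group
    rw [← hσ₁.mul x hx y hy, h2, hσ₁.mul _ hc.2 _ (V₁.mul_mem hy hx), hσ₀R _ hc,
      one_mul, hσ₁.mul y hy x hx]
  -- splitting off the `N i`
  obtain ⟨V₂, hV₂V₁, hV₂o, hV₂n, d, m, hd, hm, σ, τ, hσ, hτ, hσdet, hτN, hσN, hσspan, hσker,
    hσcent, J, hJ, hact⟩ := recur hNn hD hV₁o hV₁n hσ₁
      (fun i V hV hVo hVn => hss₀ (N i) (hNn i) V (hV.trans hV₁V₀) hVo hVn) (by
      intro i j hij x hx y hy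
      exact ⟨1, by rw [one_smul]; exact hcommR x hx.2 y hy.2 (hcomm i j hij x hx.1 y hy.1)⟩)
  have hV₂V₀ : V₂ ≤ V₀ := hV₂V₁.trans hV₁V₀
  have hne : Nonempty (∀ i, Fin (d i)) := ⟨fun i => ⟨0, hd i⟩⟩
  have hJs : Submodule.span K (Set.range fun p : (∀ i, Fin (d i)) × Fin m => J p.1 p.2) = ⊤ := by
    obtain ⟨k₀⟩ := hne
    refine span_eq_top_of_stable (hspan₀' V₂ hV₂V₀ hV₂o) hJ (k₀, ⟨0, hm⟩) ?_
    rintro _ ⟨v, hv, rfl⟩ ⟨j, t⟩
    simp only
    rw [hact v hv j t]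
    exact Submodule.sum_mem _ fun k _ => Submodule.sum_mem _ fun s _ =>
      Submodule.smul_mem _ _ (Submodule.subset_span ⟨(k, s), rfl⟩)
  have hτspan : ∀ W : Subgroup P, W ≤ V₂ → IsOpen (W : Set P) →
      Submodule.span K (τ '' (W : Set P)) = ⊤ := by
    intro W hW hWo
    exact (tensor_factor hJ hJs (ρ₀ := σ₀) (A := fun v => piKron fun i => σ i v) (S := W)
      fun v hv j t => hact v (hW hv) j t).1 (hspan₀' W (hW.trans hV₂V₀) hWo)
  have hcard : 0 < Fintype.card (∀ i, Fin (d i)) := Fintype.card_pos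
  have hτdet : ∀ v ∈ V₂, (τ v).det ^ Fintype.card (∀ i, Fin (d i)) = 1 := by
    intro v hv
    have h1 := (tensor_factor hJ hJs (ρ₀ := σ₀) (A := fun v => piKron fun i => σ i v)
      (S := V₂) fun v hv j t => hact v hv j t).2 v hv
    rw [hdet₀ v (hV₂V₀ hv), det_piKron _ fun i => hσdet i v hv, one_pow, one_mul] at h1
    exact h1.symm
  obtain ⟨V₃, hV₃V₂, hV₃o, hV₃n, hV₃⟩ := exists_const hV₂o (f := fun v => (τ v).det)
    ((Continuous.matrix_det continuous_id).comp_continuousOn hτ.cont) (V₂ : Set P) (by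
      refine (finite_roots hcard).subset ?_
      rintro _ ⟨u, ⟨hu, _⟩, rfl⟩
      exact hτdet u hu)
  have hτdet1 : ∀ v ∈ V₃, (τ v).det = 1 := by
    intro v hv
    rw [hV₃ v hv (hV₃V₂ hv), hτ.one, Matrix.det_one]
  have hRscal : ∀ y ∈ R ⊓ V₂, ∃ c : K, τ y = c • (1 : Matrix (Fin m) (Fin m) K) := fun y hy =>
    (hσker y hy.2 ⟨1, by rw [one_smul]; exact hσ₀R y ⟨hy.1, hV₂V₁ hy.2⟩⟩).2
  obtain ⟨V₄, hV₄V₃, hV₄o, hV₄n, hV₄⟩ := exists_noscalar hV₃o hm (repOn_mono hτ hV₃V₂) hτdet1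
  have hV₄V₂ : V₄ ≤ V₂ := hV₄V₃.trans hV₃V₂
  refine ⟨V₄, hV₄V₂.trans hV₂V₀, hV₄o, hV₄n, d, m, hd, hm, σ, τ,
    fun i => repOn_mono (hσ i) hV₄V₂, fun i u hu => hσdet i u (hV₄V₂ hu), fun i W hW => ?_,
    fun i W hW v hv hvN => ?_, repOn_mono hτ hV₄V₂, fun v hv => hτdet1 v (hV₄V₃ hv),
    fun W hW => hτspan W (hW.trans hV₄V₂), fun v hv => ?_, fun i v hv => ?_, fun hgen => ?_,
    J, hJ, fun v hv => hact v (hV₄V₂ hv)⟩
  · have hWV : IsOpen ((V₄ ⊓ W : Subgroup P) : Set P) := by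
      simpa using hV₄o.inter hW
    have h1 := hσspan i (V₄ ⊓ W) hWV
    rw [eq_top_iff, ← h1]
    refine Submodule.span_mono (Set.image_mono ?_)
    intro x hx
    exact ⟨⟨hx.1.1, hx.2.1⟩, hx.2.2⟩
  · refine hσcent i v (hV₄V₂ hv) W hW fun x hx => ⟨1, ?_⟩
    rw [one_smul]
    exact hcommR v (hV₂V₁ (hV₄V₂ hv)) x (hV₂V₁ hx.1.2) (hvN x hx.1.1 hx.2)
  · obtain ⟨c, hc⟩ := hRscal v ⟨hv.1, hV₄V₂ hv.2⟩
    exact hV₄ v hv.2 c hc
  · obtain ⟨c, hc⟩ := hτN i v ⟨hv.1, hV₄V₂ hv.2⟩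
    exact hV₄ v hv.2 c hc
  · obtain ⟨U₀, hU₀o, k, hU₀⟩ := hgen
    obtain ⟨V₅, hV₅V₂, hV₅o, hV₅n, hV₅⟩ := exists_inf_le (R ⊔ ⨆ i, N i) R hR N hN
      ⟨⊤, htopo, by simp⟩ V₂ hV₂o hV₂n
    obtain ⟨V₆, hV₆le, hV₆o, hV₆n⟩ := exists_normal (U := V₃ ⊓ V₅ ⊓ U₀) (by
      simpa using (hV₃o.inter hV₅o).inter hU₀o)
    have hV₆V₃ : V₆ ≤ V₃ := hV₆le.trans (inf_le_left.trans inf_le_left)
    have hV₆V₅ : V₆ ≤ V₅ := hV₆le.trans (inf_le_left.trans inf_le_right)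
    have hV₆U₀ : V₆ ≤ U₀ := hV₆le.trans inf_le_right
    have hV₆V₂ : V₆ ≤ V₂ := hV₆V₃.trans hV₃V₂
    refine solv_gen (N := (⊤ : Subgroup P)) hV₆o hm (repOn_mono hτ hV₆V₂)
      (fun u hu => hτdet1 u (hV₆V₃ hu)) ?_ k ?_
    · intro W hW
      refine hτspan _ (inf_le_left.trans (inf_le_right.trans hV₆V₂)) ?_
      have : IsOpen ((V₆ ⊓ W : Subgroup P) : Set P) := by simpa using hV₆o.inter hW
      rwa [top_inf_eq]
    · intro g hg
      have hle : (R ⊓ V₂) ⊔ ⨆ i, (N i ⊓ V₂) ≤ scalOn hτ := by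
        refine sup_le ?_ (iSup_le fun i => ?_)
        · rintro y hy
          exact ⟨hy.2, hRscal y hy⟩
        · rintro y hy
          exact ⟨hy.2, hτN i y hy⟩
      have h1 : g ∈ V₅ := hV₆V₅ (solvSer_le _ _ hg).2
      have h2 : g ∈ R ⊔ ⨆ i, N i :=
        hU₀ (solvSer_mono (inf_le_right.trans hV₆U₀) k hg)
      exact (hle (hV₅ ⟨h2, h1⟩)).2

/-- Structure theorem, internal form. -/
theorem main [IsAlgClosed K] {R : Subgroup P} [R.Normal] (hR : IsClosed (R : Set P))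
    (hRs : ∃ U : Subgroup P, IsOpen (U : Set P) ∧ Group.IsSolvable ↥(R ⊓ U))
    {n : ℕ} {N : Fin n → Subgroup P} [hNn : ∀ i, (N i).Normal]
    (hN : ∀ i, IsClosed (N i : Set P))
    (hcomm : ∀ i j, i ≠ j → ∀ x ∈ N i, ∀ y ∈ N j, x * y * x⁻¹ * y⁻¹ ∈ R)
    {r : ℕ} (hr : 0 < r) (ρ : P →* GL (Fin r) K) (hρ : Continuous ρ)
    (hirr : ∀ W : Submodule K (Fin r → K),
      (∀ g, ∀ w ∈ W, (ρ g : Matrix (Fin r) (Fin r) K) *ᵥ w ∈ W) → W = ⊥ ∨ W = ⊤) :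
    ∃ V : Subgroup P, IsOpen (V : Set P) ∧ V.Normal ∧
      ∃ (d : Fin n → ℕ) (m : ℕ), (∀ i, 0 < d i) ∧ 0 < m ∧
      ∃ (σ : ∀ i, P → Matrix (Fin (d i)) (Fin (d i)) K) (τ : P → Matrix (Fin m) (Fin m) K),
        (∀ i, RepOn V (σ i)) ∧ (∀ i, ∀ v ∈ V, (σ i v).det = 1) ∧
        (∀ i, ∀ W : Subgroup P, IsOpen (W : Set P) →
          Submodule.span K (σ i '' ((N i ⊓ V ⊓ W : Subgroup P) : Set P)) = ⊤) ∧
        (∀ i, ∀ W : Subgroup P, IsOpen (W : Set P) → ∀ v ∈ V,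
          (∀ x ∈ N i, x ∈ W → v * x * v⁻¹ * x⁻¹ ∈ R) → σ i v = 1) ∧
        RepOn V τ ∧ (∀ v ∈ V, (τ v).det = 1) ∧
        (∀ W : Subgroup P, W ≤ V → IsOpen (W : Set P) →
          Submodule.span K (τ '' (W : Set P)) = ⊤) ∧
        (∀ v ∈ R ⊓ V, τ v = 1) ∧ (∀ i, ∀ v ∈ N i ⊓ V, τ v = 1) ∧
        ((∃ U : Subgroup P, IsOpen (U : Set P) ∧ ∃ k, solvSer U k ≤ R ⊔ ⨆ i, N i) → m = 1) ∧
        ∃ χ : P → K, χ 1 = 1 ∧ (∀ u ∈ V, ∀ v ∈ V, χ (u * v) = χ u * χ v) ∧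
          (∀ u ∈ V, χ u ≠ 0) ∧ ContinuousOn χ (V : Set P) ∧
          (∃ J : (∀ i, Fin (d i)) × Fin m → (Fin r → K), LinearIndependent K J ∧
            ∀ v ∈ V, ∀ q, (ρ v : Matrix (Fin r) (Fin r) K) *ᵥ J q =
              ∑ p, (χ v * (piKron (fun i => σ i v) p.1 q.1 * τ v p.2 q.2)) • J p) ∧
          ((∃ G : Subgroup P, (∀ x y : P, x * y * x⁻¹ * y⁻¹ ∈ G) ∧ CharFin K G) →
            (∃ m : ℕ, 0 < m ∧ ∀ g, (ρ g : Matrix (Fin r) (Fin r) K).det ^ m = 1) →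
            ∀ v ∈ V, χ v = 1) := by
  classical
  obtain ⟨V₀, hV₀o, hV₀n, D, hD, σ₀, hσ₀, hdet₀, hsc₀, hspan₀, hss₀, χ, hχ1, hχmul, hχ0, hχcont,
    ⟨J₁, hJ₁li, hact₁⟩, hχt⟩ := lie_irreducible_part hr ρ hρ hirr
  obtain ⟨V, hVV₀, hVo, hVn, d, m, hd, hm, σ, τ, hσ, hσdet, hσspan, hσcent, hτ, hτdet, hτspan,
    hτR, hτN, hτm, J, hJ, hact⟩ := split hR hRs hN hcomm hV₀o hV₀n hD hσ₀ hdet₀ hsc₀ hspan₀ hss₀
  set L : (Fin D → K) →ₗ[K] (Fin r → K) := Fintype.linearCombination K J₁ with hL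
  have hLinj : Function.Injective L :=
    linearIndependent_iff_injective_fintypeLinearCombination.1 hJ₁li
  have hLact : ∀ u ∈ V₀, ∀ w : Fin D → K,
      (ρ u : Matrix (Fin r) (Fin r) K) *ᵥ L w = χ u • L (σ₀ u *ᵥ w) := by
    intro u hu w
    rw [hL, Fintype.linearCombination_apply, Fintype.linearCombination_apply, Matrix.mulVec_sum]
    have h1 : ∀ t, (ρ u : Matrix (Fin r) (Fin r) K) *ᵥ (w t • J₁ t) =
        ∑ s, (w t * (χ u * σ₀ u s t)) • J₁ s := by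
      intro t
      rw [Matrix.mulVec_smul, hact₁ u hu t, Finset.smul_sum]
      exact Finset.sum_congr rfl fun s _ => smul_smul _ _ _
    simp only [h1]
    rw [Finset.sum_comm, Finset.smul_sum]
    refine Finset.sum_congr rfl fun s _ => ?_
    rw [← Finset.sum_smul, smul_smul]
    congr 1
    simp only [Matrix.mulVec, dotProduct, Finset.mul_sum]
    exact Finset.sum_congr rfl fun t _ => by ring
  refine ⟨V, hVo, hVn, d, m, hd, hm, σ, τ, hσ, hσdet, hσspan, hσcent, hτ, hτdet, hτspan, hτR,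
    hτN, hτm, χ, hχ1, fun u hu v hv => hχmul u (hVV₀ hu) v (hVV₀ hv),
    fun u hu => hχ0 u (hVV₀ hu), hχcont.mono hVV₀, ⟨fun p => L (J p.1 p.2),
      hJ.map' L (LinearMap.ker_eq_bot.2 hLinj), fun u hu q => ?_⟩,
    fun h1 h2 u hu => hχt h1 h2 u (hVV₀ hu)⟩
  rw [hLact u (hVV₀ hu) (J q.1 q.2), hact u hu q.1 q.2, map_sum, Finset.smul_sum,
    Fintype.sum_prod_type]
  refine Finset.sum_congr rfl fun k _ => ?_
  rw [map_sum, Finset.smul_sum]
  refine Finset.sum_congr rfl fun s _ => ?_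
  rw [map_smul, smul_smul]

end Pool.Agent.GeoOrig
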