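import Pool.Agent.Lib.GeoOrig.BraidScal

/-!
# Commuting elements of `PGL₂` of a field of characteristic different from two
-/

namespace Pool.Agent.BraidRep

open Matrix

section

variable {K : Type*} [Field K]

/-- `PGL₂` -/

private theorem mk_one_iff {a : GL (Fin 2) K} : ((a : (GL (Fin 2) K ⧸ Subgroup.center (GL (Fin 2) K))) = 1) ↔ Scal a := by
  rw [QuotientGroup.eq_one_iff, mem_center_iff]

/-- a nonscalar matrix whose square is scalar has trace zero -/
private theorem tr_zero {u : GL (Fin 2) K} (h1 : Scal (u ^ 2)) (h2 : ¬ Scal u) :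
    u.val 0 0 + u.val 1 1 = 0 := by
  obtain ⟨c, hc⟩ := h1
  rw [Units.val_pow_eq_pow_val] at hc
  have e00 := congrFun (congrFun hc 0) 0
  have e01 := congrFun (congrFun hc 0) 1
  have e10 := congrFun (congrFun hc 1) 0
  have e11 := congrFun (congrFun hc 1) 1
  simp only [pow_two, Matrix.mul_apply, Fin.sum_univ_two, Matrix.smul_apply, Matrix.one_apply,
    smul_eq_mul] at e00 e01 e10 e11
  simp only [Fin.isValue, if_true, mul_one, zero_ne_one, one_ne_zero, if_false, mul_zero] at e00 e01 e10 e11
  by_contra hne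
  apply h2
  refine ⟨u.val 0 0, ?_⟩
  have f1 : u.val 0 1 = 0 := by
    apply mul_left_cancel₀ hne
    linear_combination e01
  have f2 : u.val 1 0 = 0 := by
    apply mul_left_cancel₀ hne
    linear_combination e10
  have f3 : u.val 1 1 = u.val 0 0 := by
    apply mul_left_cancel₀ hne
    linear_combination e11 - e00
  ext i j
  fin_cases i <;> fin_cases j
  · simp
  · simpa using f1
  · simpa using f2
  · simpa using f3

/-- commuting nonscalar matrices of trace zero are proportional -/
private theorem prop_of_tr (h2 : (2 : K) ≠ 0) {u v : GL (Fin 2) K} (h : Commute u v)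
    (hu : u.val 0 0 + u.val 1 1 = 0) (hv : v.val 0 0 + v.val 1 1 = 0) (hu' : ¬ Scal u) :
    (u : (GL (Fin 2) K ⧸ Subgroup.center (GL (Fin 2) K))) = v := by
  have h1 : u.val * v.val = v.val * u.val := by
    rw [← Units.val_mul, ← Units.val_mul, h.eq]
  have e : ∀ i j, (u.val * v.val) i j = (v.val * u.val) i j := fun i j => by rw [h1]
  have e00 := e 0 0
  have e01 := e 0 1
  have e10 := e 1 0
  simp only [Matrix.mul_apply, Fin.sum_univ_two] at e00 e01 e10
  have a1 : u.val 0 0 * v.val 0 1 = u.val 0 1 * v.val 0 0 := by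
    apply mul_left_cancel₀ h2
    linear_combination e01 + v.val 0 1 * hu - u.val 0 1 * hv
  have a2 : u.val 0 0 * v.val 1 0 = u.val 1 0 * v.val 0 0 := by
    apply mul_left_cancel₀ h2
    linear_combination -e10 + v.val 1 0 * hu - u.val 1 0 * hv
  have a3 : u.val 0 1 * v.val 1 0 = u.val 1 0 * v.val 0 1 := by linear_combination e00
  have hex : ∃ β : K, v.val 0 0 = β * u.val 0 0 ∧ v.val 0 1 = β * u.val 0 1 ∧
      v.val 1 0 = β * u.val 1 0 := by
    by_cases b1 : u.val 0 0 = 0
    · by_cases b2 : u.val 0 1 = 0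
      · by_cases b3 : u.val 1 0 = 0
        · exfalso
          apply hu'
          refine ⟨u.val 0 0, ?_⟩
          have b4 : u.val 1 1 = 0 := by linear_combination hu - b1
          ext i j
          fin_cases i <;> fin_cases j
          · simp
          · simpa using b2
          · simpa using b3
          · simp [b4, b1]
        · refine ⟨v.val 1 0 / u.val 1 0, ?_, ?_, ?_⟩
          · field_simp
            linear_combination -a2
          · field_simp
            linear_combination -a3
          · field_simp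
      · refine ⟨v.val 0 1 / u.val 0 1, ?_, ?_, ?_⟩
        · field_simp
          linear_combination -a1
        · field_simp
        · field_simp
          linear_combination a3
    · refine ⟨v.val 0 0 / u.val 0 0, ?_, ?_, ?_⟩
      · field_simp
      · field_simp
        linear_combination a1
      · field_simp
        linear_combination a2
  obtain ⟨β, c1, c2, c3⟩ := hex
  have c4 : v.val 1 1 = β * u.val 1 1 := by linear_combination hv - c1 - β * hu
  rw [QuotientGroup.eq, mem_center_iff]
  refine ⟨β, ?_⟩
  have hv' : v.val = β • u.val := by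
    ext i j
    fin_cases i <;> fin_cases j
    · simpa using c1
    · simpa using c2
    · simpa using c3
    · simpa using c4
  rw [Units.val_mul, hv', Matrix.mul_smul, Units.inv_mul]

/-- an element of `PGL₂` which commutes with the image of `a`, `a ^ 2` not a scalar, lifts to
a matrix which commutes with `a` -/
private theorem lift_comm {a b : GL (Fin 2) K} (ha : ¬ Scal (a ^ 2))
    (h : Commute (a : (GL (Fin 2) K ⧸ Subgroup.center (GL (Fin 2) K))) (b : (GL (Fin 2) K ⧸ Subgroup.center (GL (Fin 2) K)))) : Commute a b := by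
  have h1 : ((b * a : GL (Fin 2) K) : (GL (Fin 2) K ⧸ Subgroup.center (GL (Fin 2) K))) = ((a * b : GL (Fin 2) K) : (GL (Fin 2) K ⧸ Subgroup.center (GL (Fin 2) K))) := by
    rw [QuotientGroup.mk_mul, QuotientGroup.mk_mul]
    exact h.eq.symm
  rw [eq_comm, QuotientGroup.eq, mem_center_iff] at h1
  rcases commute_or_sq h1 (by group : b * a = a * b * ((a * b)⁻¹ * (b * a))) with h3 | h3
  · exact h3.symm
  · exact absurd h3 ha

/-- The centraliser of an element which is not an involution is commutative. -/
theorem pg_comm {a b c : (GL (Fin 2) K ⧸ Subgroup.center (GL (Fin 2) K))} (ha : a ^ 2 ≠ 1) (hab : Commute a b) (hac : Commute a c) :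
    Commute b c := by
  obtain ⟨a, rfl⟩ := QuotientGroup.mk_surjective a
  obtain ⟨b, rfl⟩ := QuotientGroup.mk_surjective b
  obtain ⟨c, rfl⟩ := QuotientGroup.mk_surjective c
  rw [← QuotientGroup.mk_pow, Ne, mk_one_iff] at ha
  have ha' : ¬ Scal a := fun h => ha (by rw [pow_two]; exact h.mul h)
  have h := comm_trans ha' (lift_comm ha hab) (lift_comm ha hac)
  show (b : (GL (Fin 2) K ⧸ Subgroup.center (GL (Fin 2) K))) * c = c * b
  rw [← QuotientGroup.mk_mul, h.eq, QuotientGroup.mk_mul]

/-- The centraliser of an element which is not an involution contains at most one involution. -/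
theorem pg_unique (h2 : (2 : K) ≠ 0) {a u w : (GL (Fin 2) K ⧸ Subgroup.center (GL (Fin 2) K))} (ha : a ^ 2 ≠ 1) (hau : Commute a u)
    (haw : Commute a w) (hu : u ^ 2 = 1) (hw : w ^ 2 = 1) (hu1 : u ≠ 1) (hw1 : w ≠ 1) : u = w := by
  obtain ⟨a, rfl⟩ := QuotientGroup.mk_surjective a
  obtain ⟨u, rfl⟩ := QuotientGroup.mk_surjective u
  obtain ⟨w, rfl⟩ := QuotientGroup.mk_surjective w
  rw [← QuotientGroup.mk_pow, Ne, mk_one_iff] at ha
  rw [← QuotientGroup.mk_pow, mk_one_iff] at hu hw
  rw [Ne, mk_one_iff] at hu1 hw1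
  have ha' : ¬ Scal a := fun h => ha (by rw [pow_two]; exact h.mul h)
  exact prop_of_tr h2 (comm_trans ha' (lift_comm ha hau) (lift_comm ha haw)) (tr_zero hu hu1)
    (tr_zero hw hw1) hu1

/-- matrices which commute in `PGL₂` commute up to a sign -/
private theorem sign_comm {a b : GL (Fin 2) K} (h : Commute (a : (GL (Fin 2) K ⧸ Subgroup.center (GL (Fin 2) K))) (b : (GL (Fin 2) K ⧸ Subgroup.center (GL (Fin 2) K)))) :
    a.val * b.val = b.val * a.val ∨ a.val * b.val = -(b.val * a.val) := by
  have h1 : ((a * b : GL (Fin 2) K) : (GL (Fin 2) K ⧸ Subgroup.center (GL (Fin 2) K))) = ((b * a : GL (Fin 2) K) : (GL (Fin 2) K ⧸ Subgroup.center (GL (Fin 2) K))) := by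
    rw [QuotientGroup.mk_mul, QuotientGroup.mk_mul]
    exact h.eq
  rw [eq_comm, QuotientGroup.eq, mem_center_iff] at h1
  obtain ⟨c, hc⟩ := h1
  have h3 : a.val * b.val = c • (b.val * a.val) := by
    have e : (a * b : GL (Fin 2) K) = b * a * ((b * a)⁻¹ * (a * b)) := by group
    have e' := congrArg Units.val e
    rw [Units.val_mul, Units.val_mul (b * a), hc, Units.val_mul, Matrix.mul_smul, mul_one] at e'
    exact e'
  have h4 : c ^ 2 = 1 := by
    have h5 := congrArg Matrix.det h3
    rw [Matrix.det_mul, Matrix.det_smul, Matrix.det_mul, Fintype.card_fin] at h5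
    have ha : a.val.det ≠ 0 := (Matrix.isUnit_iff_isUnit_det _).1 a.isUnit |>.ne_zero
    have hb : b.val.det ≠ 0 := (Matrix.isUnit_iff_isUnit_det _).1 b.isUnit |>.ne_zero
    apply mul_right_cancel₀ (mul_ne_zero hb ha)
    linear_combination -h5
  have h5 : (c - 1) * (c + 1) = 0 := by linear_combination h4
  rcases mul_eq_zero.1 h5 with h6 | h6
  · left
    rw [h3, sub_eq_zero.1 h6, one_smul]
  · right
    have h7 : c = -1 := by linear_combination h6
    rw [h3, h7, neg_one_smul]

/-- The centraliser of a Klein four group. -/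
theorem pg_klein (h2 : (2 : K) ≠ 0) {x y u : (GL (Fin 2) K ⧸ Subgroup.center (GL (Fin 2) K))} (hx : x ^ 2 = 1) (hy : y ^ 2 = 1) (hx1 : x ≠ 1)
    (hy1 : y ≠ 1) (hxy : x ≠ y) (hc : Commute x y) (hux : Commute u x) (huy : Commute u y) :
    u = 1 ∨ u = x ∨ u = y ∨ u = x * y := by
  obtain ⟨x, rfl⟩ := QuotientGroup.mk_surjective x
  obtain ⟨y, rfl⟩ := QuotientGroup.mk_surjective y
  obtain ⟨u, rfl⟩ := QuotientGroup.mk_surjective u
  have hx' : Scal (x ^ 2) := by rwa [← QuotientGroup.mk_pow, mk_one_iff] at hx
  have hy' : Scal (y ^ 2) := by rwa [← QuotientGroup.mk_pow, mk_one_iff] at hy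
  have hx1' : ¬ Scal x := by rwa [Ne, mk_one_iff] at hx1
  have hy1' : ¬ Scal y := by rwa [Ne, mk_one_iff] at hy1
  have hnc : ¬ Commute x y := fun h =>
    hxy (prop_of_tr h2 h (tr_zero hx' hx1') (tr_zero hy' hy1') hx1')
  have hnc' : x.val * y.val = -(y.val * x.val) := by
    rcases sign_comm hc with h | h
    · exact absurd (Units.ext (by rw [Units.val_mul, Units.val_mul]; exact h)) hnc
    · exact h
  have key : ∀ w : GL (Fin 2) K, w.val * x.val = x.val * w.val → w.val * y.val = y.val * w.val →
      Scal w := by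
    intro w h3 h4
    by_contra hw
    exact hnc (comm_trans hw (Units.ext (by rw [Units.val_mul, Units.val_mul]; exact h3))
      (Units.ext (by rw [Units.val_mul, Units.val_mul]; exact h4)))
  have inv_eq : ∀ {a b : (GL (Fin 2) K ⧸ Subgroup.center (GL (Fin 2) K))}, b ^ 2 = 1 → a * b = 1 → a = b := by
    intro a b hb hab
    have : a = a * b * b := by rw [mul_assoc, ← pow_two, hb, mul_one]
    rw [this, hab, one_mul]
  rcases sign_comm hux with h3 | h3 <;> rcases sign_comm huy with h4 | h4
  · exact Or.inl (mk_one_iff.2 (key u h3 h4))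
  · right; left
    apply inv_eq hx
    rw [← QuotientGroup.mk_mul, mk_one_iff]
    apply key
    · rw [Units.val_mul, h3, mul_assoc, h3]
    · rw [Units.val_mul, mul_assoc, hnc', mul_neg, ← mul_assoc, h4, neg_mul, neg_neg, mul_assoc]
  · right; right; left
    apply inv_eq hy
    rw [← QuotientGroup.mk_mul, mk_one_iff]
    apply key
    · rw [Units.val_mul, mul_assoc, ← neg_eq_iff_eq_neg.2 hnc', mul_neg, ← mul_assoc, h3,
        neg_mul, neg_neg, mul_assoc]
    · rw [Units.val_mul, h4, mul_assoc, h4]
  · right; right; right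
    have hxy2 : ((x : (GL (Fin 2) K ⧸ Subgroup.center (GL (Fin 2) K))) * y) ^ 2 = 1 := by
      have : ((x : (GL (Fin 2) K ⧸ Subgroup.center (GL (Fin 2) K))) * y) ^ 2 = x ^ 2 * y ^ 2 := hc.mul_pow 2
      rw [this, hx, hy, one_mul]
    apply inv_eq hxy2
    rw [← QuotientGroup.mk_mul, ← QuotientGroup.mk_mul, mk_one_iff]
    apply key
    · rw [Units.val_mul, Units.val_mul]
      calc u.val * (x.val * y.val) * x.val = u.val * x.val * (y.val * x.val) := by
            simp only [mul_assoc]
        _ = -(x.val * u.val) * -(x.val * y.val) := by rw [h3, hnc', neg_neg]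
        _ = x.val * (u.val * (x.val * y.val)) := by
            rw [neg_mul_neg]
            simp only [mul_assoc]
    · rw [Units.val_mul, Units.val_mul]
      calc u.val * (x.val * y.val) * y.val = u.val * -(y.val * x.val) * y.val := by rw [hnc']
        _ = -(u.val * y.val) * (x.val * y.val) := by
            rw [mul_neg, neg_mul, neg_mul]
            simp only [mul_assoc]
        _ = y.val * (u.val * (x.val * y.val)) := by
            rw [h4, neg_neg]
            simp only [mul_assoc]

end

end Pool.Agent.BraidRep
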