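import Pool.Agent.Lib.GeoOrig.Top
import Pool.Agent.Lib.GeoOrig.Eig

/-!
# Module SOLV: solvable groups have no Lie-irreducible representations of dimension > 1
-/

namespace Pool.Agent.GeoOrig

open Matrix Topology
open scoped commutatorElement

/-- The derived series of a subgroup, as subgroups of the whole group. -/
def solvSer {P : Type*} [Group P] (H : Subgroup P) : ℕ → Subgroup P
  | 0 => H
  | n + 1 => ⁅solvSer H n, solvSer H n⁆

theorem solvSer_mono {P : Type*} [Group P] {H H' : Subgroup P} (h : H ≤ H') (n : ℕ) :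
    solvSer H n ≤ solvSer H' n := by
  induction n with
  | zero => exact h
  | succ n ih => exact Subgroup.commutator_mono ih ih

theorem solvSer_normal {P : Type*} [Group P] {H : Subgroup P} (h : H.Normal) (n : ℕ) :
    (solvSer H n).Normal := by
  induction n with
  | zero => exact h
  | succ n ih => exact Subgroup.commutator_normal _ _

theorem solvSer_le {P : Type*} [Group P] (H : Subgroup P) (n : ℕ) : solvSer H n ≤ H := by
  induction n with
  | zero => exact le_refl _
  | succ n ih => exact (Subgroup.commutator_le_self _).trans ih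

theorem solvSer_eq_map {P : Type*} [Group P] (H : Subgroup P) (n : ℕ) :
    solvSer H n = (derivedSeries H n).map H.subtype := by
  induction n with
  | zero =>
    rw [derivedSeries_zero, ← MonoidHom.range_eq_map, Subgroup.range_subtype]
    rfl
  | succ n ih =>
    rw [derivedSeries_succ, Subgroup.map_commutator, ← ih]
    rfl

theorem solv_exists_finset {K : Type*} [Field K] {d : ℕ} {ι : Type*}
    (W : ι → Submodule K (Fin d → K)) : ∃ F : Finset ι, ∀ i, F.inf W ≤ W i := by
  classical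
  obtain ⟨m, ⟨F, rfl⟩, hF⟩ := WellFounded.has_min
    (wellFounded_lt : WellFounded ((· < ·) : Submodule K (Fin d → K) → _ → Prop))
    (Set.range fun F : Finset ι => F.inf W) ⟨_, ∅, rfl⟩
  refine ⟨F, fun i => ?_⟩
  have h1 : (insert i F).inf W ≤ F.inf W := by
    rw [Finset.inf_insert]
    exact inf_le_right
  have h2 : (insert i F).inf W = F.inf W := by
    by_contra hne
    exact hF _ ⟨_, rfl⟩ (lt_of_le_of_ne h1 hne)
  rw [← h2, Finset.inf_insert]
  exact inf_le_left

section

variable {K : Type*} [NontriviallyNormedField K] {P : Type*} [Group P] [TopologicalSpace P]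
  [IsTopologicalGroup P] [CompactSpace P] [TotallyDisconnectedSpace P]

theorem solv_step [IsAlgClosed K] {N U : Subgroup P} [N.Normal]
    {d : ℕ} (hd : 0 < d) {σ : P → Matrix (Fin d) (Fin d) K} (hσ : RepOn U σ)
    (hdet : ∀ u ∈ U, (σ u).det = 1)
    (hspan : ∀ W : Subgroup P, IsOpen (W : Set P) →
      Submodule.span K (σ '' ((N ⊓ U ⊓ W : Subgroup P) : Set P)) = ⊤)
    (k : ℕ) {V : Subgroup P} (hVU : V ≤ U) (hVo : IsOpen (V : Set P))
    (hV : ∀ g ∈ solvSer (N ⊓ V) (k + 1), ∃ c : K, σ g = c • (1 : Matrix (Fin d) (Fin d) K)) :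
    ∃ V' : Subgroup P, V' ≤ U ∧ IsOpen (V' : Set P) ∧ V'.Normal ∧
      ∀ g ∈ solvSer (N ⊓ V') k, ∃ c : K, σ g = c • (1 : Matrix (Fin d) (Fin d) K) := by
  classical
  have : NeZero d := ⟨hd.ne'⟩
  -- shrink `V`
  have hfin : {c : K | c ^ d = 1}.Finite := by
    have h1 : {c : K | c ^ d = 1} = ((Polynomial.nthRootsFinset d (1 : K) : Finset K) : Set K) := by
      ext c
      rw [Finset.mem_coe, Polynomial.mem_nthRootsFinset hd]
      rfl
    rw [h1]
    exact Finset.finite_toSet _
  let Z : Set (Matrix (Fin d) (Fin d) K) :=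
    (fun c : K => c • (1 : Matrix (Fin d) (Fin d) K)) '' ({c : K | c ^ d = 1} \ {1})
  have hZ : IsClosed Z := ((hfin.subset Set.sdiff_subset).image _).isClosed
  have h1Z : σ 1 ∈ Zᶜ := by
    rw [hσ.one]
    rintro ⟨c, ⟨_, hc⟩, hc'⟩
    apply hc
    have := congrFun (congrFun hc' 0) 0
    simpa using this
  obtain ⟨V1, hV1V, hV1o, hV1n, hV1⟩ := exists_small hVo (hσ.cont.mono hVU) hZ.isOpen_compl h1Z
  have hV1U : V1 ≤ U := hV1V.trans hVU
  have hone : ∀ g ∈ solvSer (N ⊓ V1) (k + 1), σ g = 1 := by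
    intro g hg
    obtain ⟨c, hc⟩ := hV g (solvSer_mono (inf_le_inf_left N hV1V) _ hg)
    have hgV1 : g ∈ V1 := (solvSer_le _ _ hg).2
    have hcd : c ^ d = 1 := by
      have h1 := hdet g (hV1U hgV1)
      rw [hc, Matrix.det_smul, Matrix.det_one, mul_one, Fintype.card_fin] at h1
      exact h1
    by_contra hne
    apply hV1 g hgV1
    refine ⟨c, ⟨hcd, ?_⟩, hc.symm⟩
    intro hc1
    rw [Set.mem_singleton_iff] at hc1
    apply hne
    rw [hc, hc1, one_smul]
  set D : Subgroup P := solvSer (N ⊓ V1) k with hDdef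
  have hDn : D.Normal := solvSer_normal (Subgroup.normal_inf_normal N V1) k
  have hDV1 : D ≤ V1 := (solvSer_le _ _).trans inf_le_right
  have hDU : D ≤ U := hDV1.trans hV1U
  have hcommD : ∀ g ∈ D, ∀ h ∈ D, σ g * σ h = σ h * σ g := by
    intro g hg h hh
    have h1 : ⁅g, h⁆ ∈ solvSer (N ⊓ V1) (k + 1) := Subgroup.commutator_mem_commutator hg hh
    have h2 := hone _ h1
    have h3 : g * h = ⁅g, h⁆ * (h * g) := by
      rw [commutatorElement_def]
      group
    have h4 : ⁅g, h⁆ ∈ U := hV1U ((solvSer_le _ _ h1).2)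
    rw [← hσ.mul g (hDU hg) h (hDU hh), h3, hσ.mul _ h4 _ (U.mul_mem (hDU hh) (hDU hg)), h2,
      Matrix.one_mul, hσ.mul h (hDU hh) g (hDU hg)]
  obtain ⟨w, hw0, hw⟩ := common_eigenvector hd (σ '' (D : Set P)) (by
    rintro _ ⟨g, hg, rfl⟩ _ ⟨h, hh, rfl⟩
    exact hcommD g hg h hh)
  choose lam hlam using fun g : D => hw (σ g) ⟨g, g.2, rfl⟩
  obtain ⟨i0, hi0⟩ : ∃ i, w i ≠ 0 := Function.ne_iff.1 hw0
  -- the joint eigenspace
  let Wf : D → Submodule K (Fin d → K) := fun g =>
    LinearMap.ker (Matrix.toLin' (σ g) - lam g • LinearMap.id)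
  have hWf : ∀ g v, v ∈ Wf g ↔ σ g *ᵥ v = lam g • v := by
    intro g v
    rw [LinearMap.mem_ker, LinearMap.sub_apply, Matrix.toLin'_apply, LinearMap.smul_apply,
      LinearMap.id_apply, sub_eq_zero]
  obtain ⟨F, hF⟩ := solv_exists_finset Wf
  have hFW : ∀ v, (∀ g ∈ F, σ g *ᵥ v = lam g • v) → ∀ g : D, σ g *ᵥ v = lam g • v := by
    intro v hv g
    rw [← hWf]
    apply hF g
    have : v ∈ F.inf Wf := by
      rw [Submodule.mem_finsetInf]
      intro g hg
      exact (hWf g v).2 (hv g hg)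
    exact this
  -- conjugates
  let cj : P → D → D := fun x g => ⟨x⁻¹ * g * x, by
    have := hDn.conj_mem g g.2 x⁻¹
    rwa [inv_inv] at this⟩
  have hcj1 : ∀ g, cj 1 g = g := by
    intro g
    apply Subtype.ext
    show (1 : P)⁻¹ * g * 1 = g
    rw [inv_one, one_mul, mul_one]
  have hlamval : ∀ g : D, lam g = (σ g *ᵥ w) i0 / w i0 := by
    intro g
    rw [hlam g, Pi.smul_apply, smul_eq_mul, mul_div_cancel_right₀ _ hi0]
  have hσx : ∀ x ∈ V1, ∀ g : D, σ g * σ x = σ x * σ (cj x g) := by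
    intro x hx g
    rw [← hσ.mul _ (hDU g.2) _ (hV1U hx), ← hσ.mul _ (hV1U hx) _ (hDU (cj x g).2)]
    congr 1
    show (g : P) * x = x * (x⁻¹ * g * x)
    group
  have hlocal : ∀ g : D, ∃ V2 : Subgroup P, V2 ≤ V1 ∧ IsOpen (V2 : Set P) ∧ V2.Normal ∧
      ∀ v ∈ V2, v ∈ N → lam (cj v g) = lam g := by
    intro g
    let f : P → K := fun x => (σ (x⁻¹ * g * x) *ᵥ w) i0 / w i0
    have hfx : ∀ x, f x = lam (cj x g) := fun x => (hlamval (cj x g)).symm
    have hmaps : Set.MapsTo (fun x : P => x⁻¹ * (g : P) * x) (V1 : Set P) (U : Set P) := by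
      intro x hx
      exact U.mul_mem (U.mul_mem (U.inv_mem (hV1U hx)) (hDU g.2)) (hV1U hx)
    have hcont : ContinuousOn f (V1 : Set P) := by
      have h1 : ContinuousOn (fun x : P => σ (x⁻¹ * g * x)) (V1 : Set P) :=
        hσ.cont.comp (by fun_prop) hmaps
      have h2 : Continuous fun X : Matrix (Fin d) (Fin d) K => (X *ᵥ w) i0 / w i0 := by
        refine Continuous.div_const ?_ _
        exact (continuous_apply i0).comp (Continuous.matrix_mulVec continuous_id continuous_const)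
      exact h2.comp_continuousOn h1
    have hroots : (f '' (((N : Set P)) ∩ (V1 : Set P))).Finite := by
      refine ((σ g).charpoly.roots.toFinset.finite_toSet).subset ?_
      rintro _ ⟨x, ⟨_, hx⟩, rfl⟩
      rw [Finset.mem_coe, Multiset.mem_toFinset, Polynomial.mem_roots
        (Matrix.charpoly_monic (σ g)).ne_zero]
      rw [hfx]
      have h1 : σ g *ᵥ (σ x *ᵥ w) = lam (cj x g) • (σ x *ᵥ w) := by
        rw [Matrix.mulVec_mulVec, hσx x hx g, ← Matrix.mulVec_mulVec, hlam, Matrix.mulVec_smul]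
      have h2 : σ x *ᵥ w ≠ 0 := by
        intro h0
        apply hw0
        have h3 : σ x⁻¹ *ᵥ (σ x *ᵥ w) = w := by
          rw [Matrix.mulVec_mulVec, ← hσ.mul _ (U.inv_mem (hV1U hx)) _ (hV1U hx), inv_mul_cancel,
            hσ.one, Matrix.one_mulVec]
        rw [← h3, h0, Matrix.mulVec_zero]
      have h3 : Module.End.HasEigenvalue (Matrix.toLin' (σ g)) (lam (cj x g)) := by
        apply Module.End.hasEigenvalue_of_hasEigenvector (x := σ x *ᵥ w)
        refine ⟨?_, h2⟩
        rw [Module.End.mem_eigenspace_iff, Matrix.toLin'_apply]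
        exact h1
      have h4 := (Module.End.hasEigenvalue_iff_isRoot_charpoly _ _).1 h3
      rwa [Matrix.charpoly_toLin'] at h4
    obtain ⟨V2, h21, h2o, h2n, h2⟩ := exists_const hV1o hcont (N : Set P) hroots
    refine ⟨V2, h21, h2o, h2n, fun v hv hvN => ?_⟩
    have := h2 v hv hvN
    rw [hfx, hfx, hcj1] at this
    exact this
  have hV2 : ∃ V2 : Subgroup P, V2 ≤ V1 ∧ IsOpen (V2 : Set P) ∧
      ∀ g ∈ F, ∀ v ∈ V2, v ∈ N → lam (cj v g) = lam g := by
    clear hF hFW
    induction F using Finset.induction_on with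
    | empty => exact ⟨V1, le_refl _, hV1o, fun g hg => absurd hg (Finset.notMem_empty g)⟩
    | insert a F _ ih =>
      obtain ⟨V3, h31, h3o, h3⟩ := ih
      obtain ⟨V4, h41, h4o, _, h4⟩ := hlocal a
      refine ⟨V3 ⊓ V4, inf_le_left.trans h31, h3o.inter h4o, ?_⟩
      intro g hg v hv hvN
      rcases Finset.mem_insert.1 hg with rfl | hg
      · exact h4 v hv.2 hvN
      · exact h3 g hg v hv.1 hvN
  obtain ⟨V2, h21, h2o, h2⟩ := hV2
  -- the joint eigenspace is stable under all matrices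
  let E : Submodule K (Fin d → K) := ⨅ g : D, Wf g
  have hE : ∀ v, v ∈ E ↔ ∀ g : D, σ g *ᵥ v = lam g • v := by
    intro v
    rw [Submodule.mem_iInf]
    exact forall_congr' fun g => hWf g v
  have hstab : ∀ x ∈ N ⊓ U ⊓ V2, ∀ v ∈ E, σ x *ᵥ v ∈ E := by
    intro x hx v hv
    have hxV1 : x ∈ V1 := h21 hx.2
    rw [hE] at hv ⊢
    refine hFW _ fun g hg => ?_
    rw [Matrix.mulVec_mulVec, hσx x hxV1 g, ← Matrix.mulVec_mulVec, hv, Matrix.mulVec_smul,
      h2 g hg x hx.2 hx.1.1]
  have hall : ∀ (X : Matrix (Fin d) (Fin d) K), ∀ v ∈ E, X *ᵥ v ∈ E := by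
    intro X v hv
    have hX : X ∈ Submodule.span K (σ '' ((N ⊓ U ⊓ V2 : Subgroup P) : Set P)) := by
      rw [hspan V2 h2o]
      exact Submodule.mem_top
    induction hX using Submodule.span_induction with
    | mem X hX =>
      obtain ⟨x, hx, rfl⟩ := hX
      exact hstab x hx v hv
    | zero =>
      rw [Matrix.zero_mulVec]
      exact E.zero_mem
    | add X Y _ _ hX hY =>
      rw [Matrix.add_mulVec]
      exact E.add_mem hX hY
    | smul c X _ hX =>
      rw [Matrix.smul_mulVec]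
      exact E.smul_mem c hX
  have hwE : w ∈ E := (hE w).2 hlam
  have hsingle : ∀ i, (Pi.single i 1 : Fin d → K) ∈ E := by
    intro i
    have h1 := hall (Matrix.single i i0 (w i0)⁻¹) w hwE
    have h3 : Matrix.single i i0 (w i0)⁻¹ *ᵥ w = Pi.single i 1 := by
      rw [Matrix.single_mulVec]
      rw [inv_mul_cancel₀ hi0]
      rfl
    rwa [h3] at h1
  refine ⟨V1, hV1U, hV1o, hV1n, fun g hg => ⟨lam ⟨g, hg⟩, ?_⟩⟩
  refine Matrix.ext_of_mulVec_single fun i => ?_
  have h1 := (hE _).1 (hsingle i) ⟨g, hg⟩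
  rw [Matrix.smul_mulVec, Matrix.one_mulVec]
  exact h1

/-- SOLV. Let `σ` have determinant `1` and span all matrices on every `N ∩ U ∩ W`. If a derived
subgroup of `N ∩ U` acts by scalars then `d = 1`.

Proof: by descending induction on `k` there is an open normal `V ≤ U` such that `σ` is scalar on
the `k`-th derived subgroup of `N ∩ V`. Given this for `k + 1`: these scalars are `d`-th roots of
unity (`det = 1`); shrink `V` so that `σ v` is close to `1` for `v ∈ V` (`exists_small`, the complement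
of the finitely many nontrivial scalar roots of unity); then `σ = 1` on `(N ∩ V)^(k+1)`, so
`A = σ ((N ∩ V)^(k))` is commutative and has a common eigenvector `w`, `σ a w = λ a • w`. For
`x ∈ N ∩ V`, `σ x w` is an eigenvector with character `a ↦ λ (x⁻¹ a x)`; there are at most `d` such
characters, finitely many `a` separate them, and for each `a` the value `λ (x⁻¹ a x)` is continuous
in `x` and lies in the finite spectrum of `σ a`: so it equals `λ a` for all `a` when `x` lies in a
smaller `N ∩ V'`. The `λ`-eigenspace of `A` is then stable under `σ (N ∩ V')`, which spans all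
matrices, so `A` is scalar. For `k = 0`: `σ` is scalar on `N ∩ V` and spans, so `d = 1`. -/
theorem solv_gen [IsAlgClosed K] {N U : Subgroup P} (hU : IsOpen (U : Set P)) [N.Normal]
    {d : ℕ} (hd : 0 < d) {σ : P → Matrix (Fin d) (Fin d) K} (hσ : RepOn U σ)
    (hdet : ∀ u ∈ U, (σ u).det = 1)
    (hspan : ∀ W : Subgroup P, IsOpen (W : Set P) →
      Submodule.span K (σ '' ((N ⊓ U ⊓ W : Subgroup P) : Set P)) = ⊤)
    (n : ℕ) (hn : ∀ g ∈ solvSer (N ⊓ U) n, ∃ c : K, σ g = c • (1 : Matrix (Fin d) (Fin d) K)) :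
    d = 1 := by
  classical
  have key : ∀ j, j ≤ n → ∃ V : Subgroup P, V ≤ U ∧ IsOpen (V : Set P) ∧
      ∀ g ∈ solvSer (N ⊓ V) (n - j), ∃ c : K, σ g = c • (1 : Matrix (Fin d) (Fin d) K) := by
    intro j
    induction j with
    | zero =>
      intro _
      exact ⟨U, le_refl _, hU, fun g hg => hn g (by rwa [Nat.sub_zero] at hg)⟩
    | succ j ih =>
      intro hj
      obtain ⟨V, hVU, hVo, hV⟩ := ih (by omega)
      have h1 : n - j = (n - (j + 1)) + 1 := by omega
      rw [h1] at hV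
      obtain ⟨V', hV'U, hV'o, _, hV'⟩ := solv_step hd hσ hdet hspan (n - (j + 1)) hVU hVo hV
      exact ⟨V', hV'U, hV'o, hV'⟩
  obtain ⟨V, hVU, hVo, hV⟩ := key n (le_refl _)
  rw [Nat.sub_self] at hV
  by_contra hd1
  have hd2 : 2 ≤ d := by omega
  let a : Fin d := ⟨0, by omega⟩
  let b : Fin d := ⟨1, by omega⟩
  have hab : a ≠ b := by
    intro h
    have := congrArg Fin.val h
    simp [a, b] at this
  have hX : Matrix.single a b (1 : K) ∈
      Submodule.span K (σ '' ((N ⊓ U ⊓ V : Subgroup P) : Set P)) := by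
    rw [hspan V hVo]
    exact Submodule.mem_top
  have hsc : ∀ X ∈ Submodule.span K (σ '' ((N ⊓ U ⊓ V : Subgroup P) : Set P)), X a b = 0 := by
    intro X hX
    induction hX using Submodule.span_induction with
    | mem X hX =>
      obtain ⟨x, hx, rfl⟩ := hX
      obtain ⟨c, hc⟩ := hV x ⟨hx.1.1, hx.2⟩
      rw [hc, Matrix.smul_apply, Matrix.one_apply_ne hab, smul_zero]
    | zero => rfl
    | add X Y _ _ hX hY => rw [Matrix.add_apply, hX, hY, add_zero]
    | smul c X _ hX => rw [Matrix.smul_apply, hX, smul_zero]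
  have h1 := hsc _ hX
  rw [Matrix.single_apply_same] at h1
  exact one_ne_zero h1

/-- The case where `N ∩ U` is solvable. -/
theorem solv [IsAlgClosed K] {N U : Subgroup P} (hU : IsOpen (U : Set P)) [N.Normal]
    {d : ℕ} (hd : 0 < d) {σ : P → Matrix (Fin d) (Fin d) K} (hσ : RepOn U σ)
    (hdet : ∀ u ∈ U, (σ u).det = 1)
    (hspan : ∀ W : Subgroup P, IsOpen (W : Set P) →
      Submodule.span K (σ '' ((N ⊓ U ⊓ W : Subgroup P) : Set P)) = ⊤)
    (hs : Group.IsSolvable ↥(N ⊓ U)) : d = 1 := by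
  obtain ⟨n, hn⟩ := hs.solvable
  refine solv_gen hU hd hσ hdet hspan n fun g hg => ⟨1, ?_⟩
  rw [solvSer_eq_map, hn, Subgroup.map_bot, Subgroup.mem_bot] at hg
  rw [hg, hσ.one, one_smul]

end

end Pool.Agent.GeoOrig
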