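import Pool.Agent.Lib.GeoOrig.Step
import Pool.Agent.Lib.GeoOrig.Solv

/-!
# Module RSTEP: solvable normal subgroups act by scalars on a piece
-/

namespace Pool.Agent.GeoOrig

open Matrix Topology

variable {K : Type*} [NontriviallyNormedField K] {P : Type*} [Group P] [TopologicalSpace P]
  [IsTopologicalGroup P] [CompactSpace P] [TotallyDisconnectedSpace P]

omit [TopologicalSpace P] [IsTopologicalGroup P] [CompactSpace P] [TotallyDisconnectedSpace P] in
private theorem RSTEP_solvable {A B : Subgroup P} (h : A ≤ B) (hB : Group.IsSolvable ↥B) :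
    Group.IsSolvable ↥A := by
  have : Function.Injective (Subgroup.inclusion h) := Subgroup.inclusion_injective h
  exact Group.isSolvable_of_isSolvable_injective this

/-- RSTEP. Proof: apply `step` to `N = R` and a small open normal `U' ≤ U` with `R ∩ U'` solvable
(subgroups of solvable groups are solvable); by `solv`, `d = 1`, so `σ = 1` on `V` (a `1 × 1` matrix of
determinant `1`); take `J t` to be `J 0 t`. -/
theorem rstep [IsAlgClosed K] {R : Subgroup P} [R.Normal]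
    (hRs : ∃ U : Subgroup P, IsOpen (U : Set P) ∧ Group.IsSolvable ↥(R ⊓ U))
    {r : ℕ} (hr : 0 < r) {U : Subgroup P} (hU : IsOpen (U : Set P))
    (hUn : U.Normal) {ρ : P → Matrix (Fin r) (Fin r) K} (hρ : RepOn U ρ)
    (hss : ∀ V : Subgroup P, V ≤ U → IsOpen (V : Set P) → V.Normal →
      SSOn (ρ '' ((R ⊓ V : Subgroup P) : Set P))) :
    ∃ V : Subgroup P, V ≤ U ∧ IsOpen (V : Set P) ∧ V.Normal ∧ ∃ m : ℕ, 0 < m ∧
      ∃ τ : P → Matrix (Fin m) (Fin m) K, RepOn V τ ∧
        (∀ x ∈ R ⊓ V, ∃ c : K, τ x = c • (1 : Matrix (Fin m) (Fin m) K)) ∧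
        ∃ J : Fin m → (Fin r → K), LinearIndependent K J ∧
          ∀ v ∈ V, ∀ t, ρ v *ᵥ J t = ∑ s, τ v s t • J s := by
  obtain ⟨U1, hU1, hs1⟩ := hRs
  obtain ⟨U2, hU2, hU2o, hU2n⟩ := exists_normal (U := U ⊓ U1) (hU.inter hU1)
  have hU2U : U2 ≤ U := fun x hx => (hU2 hx).1
  have hU2U1 : U2 ≤ U1 := fun x hx => (hU2 hx).2
  have hρ2 : RepOn U2 ρ :=
    ⟨hρ.one, fun u hu v hv => hρ.mul u (hU2U hu) v (hU2U hv), hρ.cont.mono fun x hx => hU2U hx⟩
  obtain ⟨V, hVU, hVo, hVn, d, m, hd, hm, σ, τ, hσ, hτ, hdet, -, hτs, hspan, -, J, hJ, hact⟩ :=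
    step (N := R) hr hU2o hU2n hρ2 fun V hV => hss V (hV.trans hU2U)
  have hd1 : d = 1 := by
    refine solv (N := R) hVo hd hσ hdet hspan ?_
    exact RSTEP_solvable (inf_le_inf_left R (hVU.trans hU2U1)) hs1
  subst hd1
  refine ⟨V, hVU.trans hU2U, hVo, hVn, m, hm, τ, hτ, hτs, fun t => J 0 t, ?_, ?_⟩
  · exact hJ.comp (fun t : Fin m => ((0 : Fin 1), t)) fun a b hab => (Prod.mk.inj hab).2
  · intro v hv t
    have h1 : σ v 0 0 = 1 := by
      have := hdet v hv
      rwa [Matrix.det_fin_one] at this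
    rw [hact v hv 0 t, Fin.sum_univ_one]
    simp only [h1, one_mul]

end Pool.Agent.GeoOrig
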