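import Mathlib

/-!
# Skew systems

A skew system of length `t` in a group or a ring consists of `x 0, …, x (t - 1)` and
`y 0, …, y (t - 1)` such that `y i` commutes with `x k` for `k < i` and does not commute with
`x i`. In the algebra of `r × r` matrices over a field its length is at most `2 r - 2`.
-/

namespace Pool.Agent.BraidRep

section

variable {K V : Type*} [Field K] [AddCommGroup V] [Module K V]

/-- The values at `v` of the elements of an algebra of endomorphisms. -/
private def ev (v : V) (B : Subalgebra K (Module.End K V)) : Submodule K V :=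
  (Subalgebra.toSubmodule B).map (LinearMap.applyₗ v)

private theorem mem_ev {v w : V} {B : Subalgebra K (Module.End K V)} :
    w ∈ ev v B ↔ ∃ b ∈ B, b v = w := by
  unfold ev
  rw [Submodule.mem_map]
  rfl

private theorem ev_mono {v : V} {B B' : Subalgebra K (Module.End K V)} (h : B ≤ B') :
    ev v B ≤ ev v B' := by
  intro w hw
  rw [mem_ev] at hw ⊢
  obtain ⟨b, hb, rfl⟩ := hw
  exact ⟨b, h hb, rfl⟩

private theorem one_le_ev [FiniteDimensional K V] {v : V} (hv : v ≠ 0)
    (B : Subalgebra K (Module.End K V)) : 1 ≤ Module.finrank K (ev v B) := by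
  have h1 : v ∈ ev v B := mem_ev.2 ⟨1, B.one_mem, rfl⟩
  have h2 : ev v B ≠ ⊥ := by
    intro h3
    rw [h3, Submodule.mem_bot] at h1
    exact hv h1
  exact Module.finrank_pos_iff.2 ((Submodule.nontrivial_iff_ne_bot).2 h2)

/-- Skew systems of endomorphisms of a vector space over an infinite field. -/
theorem skew_end [Infinite K] [FiniteDimensional K V] [Nontrivial V] (t : ℕ)
    (x y : ℕ → Module.End K V) (h1 : ∀ i < t, ∀ k < i, Commute (y i) (x k))
    (h2 : ∀ i < t, ¬ Commute (y i) (x i)) : t + 2 ≤ 2 * Module.finrank K V := by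
  -- a vector on which no commutator vanishes
  obtain ⟨v, hv0, hv⟩ : ∃ v : V, v ≠ 0 ∧ ∀ i < t, (y i * x i - x i * y i) v ≠ 0 := by
    by_contra hcon
    push Not at hcon
    let p : Option (Fin t) → Subspace K V := fun o =>
      match o with
      | none => ⊥
      | some i => LinearMap.ker (y i * x i - x i * y i)
    have hcov : ⋃ o, (p o : Set V) = Set.univ := by
      rw [Set.eq_univ_iff_forall]
      intro v
      rw [Set.mem_iUnion]
      by_cases hv0 : v = 0
      · exact ⟨none, by rw [hv0]; exact (p none).zero_mem⟩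
      · obtain ⟨i, hi, h3⟩ := hcon v hv0
        exact ⟨some ⟨i, hi⟩, LinearMap.mem_ker.2 h3⟩
    obtain ⟨o, ho⟩ := Subspace.exists_eq_top_of_iUnion_eq_univ hcov
    cases o with
    | none => exact absurd ho bot_ne_top
    | some i =>
      apply h2 i i.2
      have h3 : y i * x i - x i * y i = 0 := LinearMap.ker_eq_top.1 ho
      exact sub_eq_zero.1 h3
  let X : ℕ → Set (Module.End K V) := fun k => {a | ∃ i < k, a = x i}
  let D : ℕ → Subalgebra K (Module.End K V) := fun k => Algebra.adjoin K (X k)
  let C : ℕ → Subalgebra K (Module.End K V) := fun k => Subalgebra.centralizer K (X k)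
  have hX : ∀ k, X k ⊆ X (k + 1) := fun k a ⟨i, hi, ha⟩ => ⟨i, by omega, ha⟩
  have hDmono : ∀ k, D k ≤ D (k + 1) := fun k => Algebra.adjoin_mono (hX k)
  have hCmono : ∀ k, C (k + 1) ≤ C k := fun k => Subalgebra.centralizer_le _ _ _ (hX k)
  have hcomm : ∀ k, ∀ d ∈ D k, ∀ c ∈ C k, c * d = d * c := by
    intro k d hd c hc
    have h3 : D k ≤ Subalgebra.centralizer K {c} := by
      apply Algebra.adjoin_le
      intro a ha
      rw [SetLike.mem_coe, Subalgebra.mem_centralizer_iff]
      intro g hg
      rw [Set.mem_singleton_iff.1 hg]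
      exact (Subalgebra.mem_centralizer_iff K |>.1 hc a ha).symm
    exact (Subalgebra.mem_centralizer_iff K).1 (h3 hd) c rfl
  have step : ∀ k < t, Module.finrank K (ev v (D k)) + Module.finrank K (ev v (C (k + 1))) + 1 ≤
      Module.finrank K (ev v (D (k + 1))) + Module.finrank K (ev v (C k)) := by
    intro k hk
    have a1 : ev v (D k) ≤ ev v (D (k + 1)) := ev_mono (hDmono k)
    have a2 : ev v (C (k + 1)) ≤ ev v (C k) := ev_mono (hCmono k)
    rcases lt_or_eq_of_le a1 with a3 | a3
    · have b1 := Submodule.finrank_lt_finrank_of_lt a3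
      have b2 := Submodule.finrank_mono a2
      omega
    rcases lt_or_eq_of_le a2 with a4 | a4
    · have b1 := Submodule.finrank_lt_finrank_of_lt a4
      have b2 := Submodule.finrank_mono a1
      omega
    exfalso
    have b1 : x k v ∈ ev v (D (k + 1)) :=
      mem_ev.2 ⟨x k, Algebra.subset_adjoin ⟨k, by omega, rfl⟩, rfl⟩
    rw [← a3, mem_ev] at b1
    obtain ⟨d, hd, hdv⟩ := b1
    have hyk : y k ∈ C k := by
      rw [Subalgebra.mem_centralizer_iff]
      rintro a ⟨i, hi, rfl⟩
      exact (h1 k hk i hi).eq.symm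
    have b2 : y k v ∈ ev v (C k) := mem_ev.2 ⟨y k, hyk, rfl⟩
    rw [← a4, mem_ev] at b2
    obtain ⟨c, hc, hcv⟩ := b2
    have hxc : x k * c = c * x k :=
      (Subalgebra.mem_centralizer_iff K).1 hc (x k) ⟨k, by omega, rfl⟩
    have hcd : c * d = d * c := hcomm k d hd c (hCmono k hc)
    have hyd : y k * d = d * y k := hcomm k d hd (y k) hyk
    apply hv k hk
    rw [LinearMap.sub_apply, Module.End.mul_apply, Module.End.mul_apply, ← hdv, ← hcv,
      ← Module.End.mul_apply, ← Module.End.mul_apply, hyd, hxc, Module.End.mul_apply,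
      Module.End.mul_apply, ← hcv, ← hdv, ← Module.End.mul_apply, ← Module.End.mul_apply, hcd,
      sub_self]
  have total : ∀ k ≤ t, Module.finrank K (ev v (D 0)) + Module.finrank K (ev v (C k)) + k ≤
      Module.finrank K (ev v (D k)) + Module.finrank K (ev v (C 0)) := by
    intro k
    induction k with
    | zero => intro _; exact le_rfl
    | succ k ih =>
      intro hk
      have b1 := ih (by omega)
      have b2 := step k (by omega)
      omega
  have b1 := total t le_rfl
  have b2 := one_le_ev hv0 (D 0)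
  have b3 := one_le_ev hv0 (C t)
  have b4 := Submodule.finrank_le (ev v (D t))
  have b5 := Submodule.finrank_le (ev v (C 0))
  omega

end

section

/-- Skew systems in the algebra of `r × r` matrices over a field. -/
theorem skew_matrix {K : Type*} [Field K] {r : ℕ} (hr : 0 < r) (t : ℕ)
    (x y : ℕ → Matrix (Fin r) (Fin r) K) (h1 : ∀ i < t, ∀ k < i, Commute (y i) (x k))
    (h2 : ∀ i < t, ¬ Commute (y i) (x i)) : t + 2 ≤ 2 * r := by
  have hne : Nonempty (Fin r) := ⟨⟨0, hr⟩⟩
  let L := AlgebraicClosure K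
  have hL : Infinite L := inferInstance
  let f : Matrix (Fin r) (Fin r) K →+* Module.End L (Fin r → L) :=
    ((Matrix.toLinAlgEquiv' : Matrix (Fin r) (Fin r) L ≃ₐ[L] _) : Matrix (Fin r) (Fin r) L →+* _).comp
      (RingHom.mapMatrix (algebraMap K L))
  have hf : Function.Injective f := by
    intro a b hab
    have h3 : (algebraMap K L).mapMatrix a = (algebraMap K L).mapMatrix b :=
      (Matrix.toLinAlgEquiv' : Matrix (Fin r) (Fin r) L ≃ₐ[L] _).injective hab
    ext i j
    have h4 := congrFun (congrFun h3 i) j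
    exact (algebraMap K L).injective h4
  have h3 := skew_end (K := L) (V := Fin r → L) t (fun i => f (x i)) (fun i => f (y i))
    (fun i hi k hk => (h1 i hi k hk).map f)
    (fun i hi hc => h2 i hi (by
      apply hf
      rw [map_mul, map_mul]
      exact hc.eq))
  rw [Module.finrank_fin_fun] at h3
  exact h3

variable {G : Type*} [Group G]

/-- Skew systems with members in `C` have length at most `B`. -/
def SkewOn (C : Set G) (B : ℕ) : Prop :=
  ∀ (t : ℕ) (x y : ℕ → G), (∀ i < t, x i ∈ C ∧ y i ∈ C) →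
    (∀ i < t, ∀ k < i, Commute (y i) (x k)) → (∀ i < t, ¬ Commute (y i) (x i)) → t ≤ B

theorem skewOn_gl {K : Type*} [Field K] {r : ℕ} (hr : 0 < r) :
    SkewOn (Set.univ : Set (GL (Fin r) K)) (2 * r - 2) := by
  intro t x y _ h1 h2
  have h3 := skew_matrix hr t (fun i => (x i : Matrix (Fin r) (Fin r) K))
    (fun i => (y i : Matrix (Fin r) (Fin r) K)) (fun i hi k hk => (h1 i hi k hk).units_val)
    (fun i hi hc => h2 i hi (Commute.units_of_val hc))
  omega

/-- The bound for a family indexed by a finite set. -/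
theorem SkewOn.card_le {C : Set G} {B : ℕ} (h : SkewOn C B) {ι : Type*} (κ : ι → ℕ)
    (x T : ι → G) (S : Finset ι) (h0 : ∀ p ∈ S, x p ∈ C ∧ T p ∈ C)
    (h1 : ∀ p ∈ S, ∀ k ∈ S, κ k < κ p → Commute (T p) (x k))
    (h2 : ∀ p ∈ S, ¬ Commute (T p) (x p)) (hinj : ∀ p ∈ S, ∀ k ∈ S, κ k = κ p → k = p) :
    S.card ≤ B := by
  classical
  have hcard : (S.image κ).card = S.card :=
    Finset.card_image_of_injOn fun p hp k hk he => hinj k hk p hp he
  let e := (S.image κ).orderEmbOfFin hcard
  have hex : ∀ i : Fin S.card, ∃ p ∈ S, κ p = e i := fun i =>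
    Finset.mem_image.1 ((S.image κ).orderEmbOfFin_mem hcard i)
  choose p hp hpe using hex
  refine h S.card (fun i => if hi : i < S.card then x (p ⟨i, hi⟩) else 1)
    (fun i => if hi : i < S.card then T (p ⟨i, hi⟩) else 1) (fun i hi => ?_)
    (fun i hi k hk => ?_) (fun i hi => ?_)
  · rw [dif_pos hi, dif_pos hi]
    exact h0 _ (hp _)
  · rw [dif_pos hi, dif_pos (hk.trans hi)]
    apply h1 _ (hp _) _ (hp _)
    rw [hpe, hpe]
    exact e.strictMono (Fin.lt_def.2 hk)
  · rw [dif_pos hi, dif_pos hi]
    exact h2 _ (hp _)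

end

end Pool.Agent.BraidRep
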