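import Pool.Agent.Lib.GeoOrig.Skew
import Pool.Agent.Lib.GeoOrig.BraidScal

/-!
# Commuting triples and skew systems
-/

namespace Pool.Agent.BraidRep

section

variable {G : Type*} [Group G] {C : Set G}

/-- Skew systems in `GL₂`, or of elements of `PGL₂` whose order is not two, have length at most
two. -/
theorem CT.skewOn {Z : Subgroup G} (h : CT Z C) : SkewOn C 2 := by
  intro t x y hC h1 h2
  by_contra hcon
  push Not at hcon
  have hx0 : x 0 ∉ Z := fun hz => h2 0 (by omega) (h.cen _ hz _).symm
  have hy2 : y 2 ∉ Z := fun hz => h2 2 (by omega) (h.cen _ hz _)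
  have a1 : Commute (y 1) (y 2) := by
    by_contra hc
    exact hx0 (h.mem (hC 1 (by omega)).2 (hC 2 (by omega)).2 hc (h1 1 (by omega) 0 (by omega)).symm
      (h1 2 (by omega) 0 (by omega)).symm)
  exact hy2 (h.mem (hC 1 (by omega)).2 (hC 1 (by omega)).1 (h2 1 (by omega)) a1.symm
    (h1 2 (by omega) 1 (by omega)))

variable {pl : Prop} {m n N : ℕ} {A : Fin n → Fin n → G}

/-- Let `A` be a family of pure braid generators in a group in which skew systems have length at
most `N`. There is a set `M` of at most `3 N` moving strands such that all triples which contain a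
moving strand outside of `M`, and another moving strand, commute. -/
theorem Fl.isoSkew (h : Fl pl m A) (hA : ∀ i j, i < j → m ≤ j.val → A i j ∈ C)
    (hsk : SkewOn C N) : ∃ M : Finset (Fin n),
    (∀ v ∈ M, m ≤ v.val) ∧ M.card ≤ 3 * N ∧ ∀ v, m ≤ v.val → v ∉ M → Iso m A v := by
  classical
  -- the middle strands of the triples which do not commute
  let B : Finset (Fin n) := Finset.univ.filter fun b =>
    m ≤ b.val ∧ ∃ a c, a < b ∧ b < c ∧ ¬ Tr A a b c
  -- the other first and last strands
  let L : Finset (Fin n) := Finset.univ.filter fun a => m ≤ a.val ∧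
    a ∉ B ∧ ∃ b, a < b ∧ (∃ c, b < c ∧ ¬ Tr A a b c) ∧ ∀ b', a < b' → b' < b →
      ∀ c, b' < c → Tr A a b' c
  let R : Finset (Fin n) := Finset.univ.filter fun c => m ≤ c.val ∧
    c ∉ B ∧ ∃ b, m ≤ b.val ∧ b < c ∧ (∃ a, a < b ∧ ¬ Tr A a b c) ∧ ∀ b', b < b' → b' < c →
      ∀ a, a < b' → Tr A a b' c
  have hB : B.card ≤ N := by
    choose! a c hac using fun (b : Fin n) (hb : b ∈ B) => (Finset.mem_filter.1 hb).2.2
    refine hsk.card_le (fun b => b.val) (fun b => A (a b) b) (fun b => A b (c b)) B
      (fun p hp => ?_) (fun p hp q hq hlt => ?_) (fun p hp hcon => ?_)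
      (fun p _ q _ he => Fin.ext he)
    · obtain ⟨a1, a2, a3⟩ := hac p hp
      have m1 := (Finset.mem_filter.1 hp).2.1
      exact ⟨hA _ _ a1 m1, hA _ _ a2 (by omega)⟩
    · obtain ⟨a1, a2, a3⟩ := hac p hp
      obtain ⟨b1, b2, b3⟩ := hac q hq
      have m1 := (Finset.mem_filter.1 hp).2.1
      have m2 := (Finset.mem_filter.1 hq).2.1
      have hlt' : q < p := hlt
      exact h.noncross a2 b1 (by omega) m2 (Or.inr (Or.inl hlt'))
    · obtain ⟨a1, a2, a3⟩ := hac p hp
      have m1 := (Finset.mem_filter.1 hp).2.1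
      exact a3 (h.tr_of_lt m1 a1 a2 (Or.inr (Or.inl hcon.symm)))
  have hL : L.card ≤ N := by
    choose! b hb using fun (a : Fin n) (ha : a ∈ L) => (Finset.mem_filter.1 ha).2.2.2
    choose! c hc using fun (a : Fin n) (ha : a ∈ L) => (hb a ha).2.1
    refine hsk.card_le (fun a => a.val) (fun a => A a (b a)) (fun a => A a (c a)) L
      (fun p hp => ?_) (fun p hp q hq hlt => ?_) (fun p hp hcon => ?_)
      (fun p _ q _ he => Fin.ext he)
    · obtain ⟨a1, -, -⟩ := hb p hp
      obtain ⟨a2, a3⟩ := hc p hp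
      have m1 := (Finset.mem_filter.1 hp).2.1
      exact ⟨hA _ _ a1 (by omega), hA _ _ (a1.trans a2) (by omega)⟩
    · obtain ⟨a1, -, -⟩ := hb p hp
      obtain ⟨a2, a3⟩ := hc p hp
      obtain ⟨b1, -, b2⟩ := hb q hq
      obtain ⟨b3, b4⟩ := hc q hq
      have m1 := (Finset.mem_filter.1 hp).2.1
      have m2 := (Finset.mem_filter.1 hq).2.1
      have hqp : q < p := hlt
      have hpc : p < c p := a1.trans a2
      rcases lt_trichotomy (b q) p with h1 | h1 | h1
      · exact h.noncross hpc b1 (by omega) (by omega) (Or.inr (Or.inl h1))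
      · exfalso
        apply (Finset.mem_filter.1 hp).2.2.1
        exact Finset.mem_filter.2 ⟨Finset.mem_univ _, m1, q, c q, hqp, h1 ▸ b3,
          by rw [← h1]; exact b4⟩
      · have ht : Tr A q p (c p) := b2 p hqp h1 (c p) hpc
        have h3 := ht.2.2
        rw [sy_of_lt (hqp.trans hpc), sy_of_lt hpc] at h3
        rcases lt_trichotomy (b q) (c p) with h2 | h2 | h2
        · exact (h.crossC (by omega) (Or.inl (by omega)) hqp h1 h2 h3).symm
        · rw [h2]
          exact h3.symm
        · exact h.noncross hpc b1 (by omega) (by omega)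
            (Or.inr (Or.inr (Or.inr ⟨hqp, h2, Or.inl m1⟩)))
    · obtain ⟨a1, -, -⟩ := hb p hp
      obtain ⟨a2, a3⟩ := hc p hp
      have m1 := (Finset.mem_filter.1 hp).2.1
      exact a3 (h.tr_of_lt (by omega) a1 a2 (Or.inl hcon.symm))
  have hR : R.card ≤ N := by
    choose! b hb using fun (c : Fin n) (hc : c ∈ R) => (Finset.mem_filter.1 hc).2.2.2
    choose! a ha using fun (c : Fin n) (hc : c ∈ R) => (hb c hc).2.2.1
    refine hsk.card_le (fun c => n - c.val) (fun c => A (b c) c) (fun c => A (a c) c) R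
      (fun p hp => ?_) (fun p hp q hq hlt => ?_) (fun p hp hcon => ?_)
      (fun p _ q _ he => by
        have h1 := p.2
        have h2 := q.2
        apply Fin.ext
        omega)
    · obtain ⟨a0, a1, -, -⟩ := hb p hp
      obtain ⟨a2, a3⟩ := ha p hp
      have m1 := (Finset.mem_filter.1 hp).2.1
      exact ⟨hA _ _ a1 m1, hA _ _ (a2.trans a1) m1⟩
    · obtain ⟨a0, a1, -, -⟩ := hb p hp
      obtain ⟨a2, a3⟩ := ha p hp
      obtain ⟨b0, b1, -, b2⟩ := hb q hq
      obtain ⟨b3, b4⟩ := ha q hq
      have m1 := (Finset.mem_filter.1 hp).2.1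
      have m2 := (Finset.mem_filter.1 hq).2.1
      have hpq : p < q := by
        have h1 := p.2
        have h2 := q.2
        have h3 : n - q.val < n - p.val := hlt
        exact Fin.lt_def.2 (by omega)
      have hap : a p < p := a2.trans a1
      rcases lt_trichotomy (b q) p with h1 | h1 | h1
      · have ht : Tr A (a p) p q := b2 p h1 hpq (a p) hap
        rcases lt_trichotomy (b q) (a p) with h2 | h2 | h2
        · exact h.noncross hap b1 m1 m2
            (Or.inr (Or.inr (Or.inr ⟨h2, hpq, Or.inl (by omega)⟩)))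
        · have h3 := ht.1
          rw [sy_of_lt hap, sy_of_lt (hap.trans hpq)] at h3
          rw [h2]
          exact h3
        · have h3 := ht.2.2
          rw [sy_of_lt (hap.trans hpq), sy_of_lt hpq] at h3
          exact h.crossA m1 (Or.inl b0) h2 h1 hpq h3
      · exfalso
        apply (Finset.mem_filter.1 hp).2.2.1
        exact Finset.mem_filter.2 ⟨Finset.mem_univ _, m1, a q, q, h1 ▸ b3, hpq,
          by rw [← h1]; exact b4⟩
      · exact h.noncross hap b1 m1 m2 (Or.inl h1)
    · obtain ⟨a0, a1, -, -⟩ := hb p hp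
      obtain ⟨a2, a3⟩ := ha p hp
      have m1 := (Finset.mem_filter.1 hp).2.1
      exact a3 (h.tr_of_lt a0 a2 a1 (Or.inr (Or.inr hcon)))
  refine ⟨B ∪ L ∪ R, fun v hv => ?_, ?_, ?_⟩
  · rcases Finset.mem_union.1 hv with hv | hv
    · rcases Finset.mem_union.1 hv with hv | hv
      · exact (Finset.mem_filter.1 hv).2.1
      · exact (Finset.mem_filter.1 hv).2.1
    · exact (Finset.mem_filter.1 hv).2.1
  · have h1 := Finset.card_union_le (B ∪ L) R
    have h2 := Finset.card_union_le B L
    omega
  · have hmemL : ∀ a b c, m ≤ a.val → a < b → b < c → ¬ Tr A a b c → a ∈ B ∪ L ∪ R := by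
      intro a b c ha hab hbc hT
      by_cases haB : a ∈ B
      · exact Finset.mem_union_left _ (Finset.mem_union_left _ haB)
      · apply Finset.mem_union_left
        apply Finset.mem_union_right
        refine Finset.mem_filter.2 ⟨Finset.mem_univ _, ha, haB, ?_⟩
        let S : Finset (Fin n) := Finset.univ.filter fun b => a < b ∧ ∃ c, b < c ∧ ¬ Tr A a b c
        have hS : S.Nonempty := ⟨b, Finset.mem_filter.2 ⟨Finset.mem_univ _, hab, c, hbc, hT⟩⟩
        refine ⟨S.min' hS, ?_, ?_, fun b' h1 h2 c' h3 => ?_⟩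
        · exact (Finset.mem_filter.1 (S.min'_mem hS)).2.1
        · exact (Finset.mem_filter.1 (S.min'_mem hS)).2.2
        · by_contra hcon
          have h4 : b' ∈ S := Finset.mem_filter.2 ⟨Finset.mem_univ _, h1, c', h3, hcon⟩
          exact absurd h2 (S.min'_le b' h4).not_gt
    have hmemR : ∀ a b c, m ≤ b.val → a < b → b < c → ¬ Tr A a b c → c ∈ B ∪ L ∪ R := by
      intro a b c hb hab hbc hT
      by_cases hcB : c ∈ B
      · exact Finset.mem_union_left _ (Finset.mem_union_left _ hcB)
      · apply Finset.mem_union_right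
        refine Finset.mem_filter.2 ⟨Finset.mem_univ _, by omega, hcB, ?_⟩
        let S : Finset (Fin n) := Finset.univ.filter fun b =>
          m ≤ b.val ∧ b < c ∧ ∃ a, a < b ∧ ¬ Tr A a b c
        have hS : S.Nonempty := ⟨b, Finset.mem_filter.2 ⟨Finset.mem_univ _, hb, hbc, a, hab, hT⟩⟩
        refine ⟨S.max' hS, ?_, ?_, ?_, fun b' h1 h2 a' h3 => ?_⟩
        · exact (Finset.mem_filter.1 (S.max'_mem hS)).2.1
        · exact (Finset.mem_filter.1 (S.max'_mem hS)).2.2.1
        · exact (Finset.mem_filter.1 (S.max'_mem hS)).2.2.2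
        · by_contra hcon
          have h5 := (Finset.mem_filter.1 (S.max'_mem hS)).2.1
          have h4 : b' ∈ S := Finset.mem_filter.2 ⟨Finset.mem_univ _, by omega, h2, a', h3, hcon⟩
          exact absurd h1 (S.le_max' b' h4).not_gt
    have hmemB : ∀ a b c, m ≤ b.val → a < b → b < c → ¬ Tr A a b c → b ∈ B ∪ L ∪ R := by
      intro a b c hb hab hbc hT
      exact Finset.mem_union_left _ (Finset.mem_union_left _
        (Finset.mem_filter.2 ⟨Finset.mem_univ _, hb, a, c, hab, hbc, hT⟩))
    intro v hvm hv j k hvj hvk hjk hmv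
    by_contra hcon
    apply hv
    unfold Mv at hmv
    rcases lt_or_gt_of_ne hvj with h1 | h1 <;> rcases lt_or_gt_of_ne hvk with h2 | h2 <;>
      rcases lt_or_gt_of_ne hjk with h3 | h3
    · exact hmemL v j k hvm h1 h3 hcon
    · exact hmemL v k j hvm h2 h3 (fun ht => hcon ht.swap')
    · exact absurd (h1.trans h3) h2.not_gt
    · exact hmemB k v j hvm h2 h1 (fun ht => hcon ht.swap.swap')
    · exact hmemB j v k hvm h1 h2 (fun ht => hcon ht.swap)
    · exact absurd (h2.trans h3) h1.not_gt
    · exact hmemR j k v (by omega) h3 h2 (fun ht => hcon ht.swap'.swap)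
    · exact hmemR k j v (by omega) h3 h1 (fun ht => hcon ht.swap.swap'.swap)

/-- Let `A` be a family of pure braid generators in a group in which skew systems have length at
most `N`. There is a set `M` of at most `3 N` moving strands such that the generator attached to two moving strands commutes with all generators unless both strands are in
`M`, and, for a fixed strand `i` and a moving strand `j` outside of `M`, `A i j` commutes with the
`A k l` such that `j` is not `k` or `l`, and `k` is moving or equal to `i`, or all of Artin's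
relations hold. -/
theorem Fl.supportSkew (h : Fl False m A) (hA : ∀ i j, i < j → m ≤ j.val → A i j ∈ C)
    (hsk : SkewOn C N) : ∃ M : Finset (Fin n),
    (∀ v ∈ M, m ≤ v.val) ∧ M.card ≤ 3 * N ∧
      (∀ i j, m ≤ i.val → i < j → ¬ (i ∈ M ∧ j ∈ M) → ∀ k l, k < l → m ≤ l.val →
        Commute (A i j) (A k l)) ∧
      ∀ i j, i.val < m → m ≤ j.val → j ∉ M → ∀ k l, k < l → m ≤ l.val → j ≠ k → j ≠ l →
        (m ≤ k.val ∨ k = i ∨ Fl True m A) → Commute (A i j) (A k l) := by
  obtain ⟨M, h1, h2, h3⟩ := h.isoSkew hA hsk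
  refine ⟨M, h1, h2, fun i j hi hij hnot k l hkl hl => ?_,
    fun i j hi hj hjM k l hkl hl hjk hjl hk => ?_⟩
  · rw [← sy_of_lt (A := A) hij]
    by_cases hiM : i ∈ M
    · have hj : j ∉ M := fun hj => hnot ⟨hiM, hj⟩
      rw [sy_comm i j]
      exact h.central (h3 j (by omega) hj) (by omega) hi hij.ne' hkl hl
    · exact h.central (h3 i hi hiM) hi (by omega) hij.ne hkl hl
  · have hij : i < j := Fin.lt_def.2 (by omega)
    rw [← sy_of_lt (A := A) hij, sy_comm i j]
    rcases hk with hk | hk | hk
    · exact h.central' (h3 j hj hjM) hj hij.ne' hkl hl hjk hjl (Or.inl hk)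
    · exact h.central' (h3 j hj hjM) hj hij.ne' hkl hl hjk hjl (Or.inr (Or.inl hk))
    · exact hk.central' (h3 j hj hjM) hj hij.ne' hkl hl hjk hjl (Or.inr (Or.inr trivial))

end

end Pool.Agent.BraidRep
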