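import Pool.Agent.Lib.GeoOrig.Wed
import Pool.Agent.Lib.GeoOrig.Lift
import Pool.Agent.Lib.GeoOrig.Corn

/-!
# Module STEP: splitting off one subgroup normalised by an open subgroup
-/

namespace Pool.Agent.GeoOrig

open Matrix Topology

variable {K : Type*} [NontriviallyNormedField K] {P : Type*} [Group P] [TopologicalSpace P]
  [IsTopologicalGroup P] [CompactSpace P] [TotallyDisconnectedSpace P]

/-- A small open normal subgroup on which the span of `ρ (N ∩ U)` cannot shrink any more. -/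
theorem exists_stable {N U : Subgroup P} (hU : IsOpen (U : Set P)) (hUn : U.Normal) {r : ℕ}
    (ρ : P → Matrix (Fin r) (Fin r) K) :
    ∃ V : Subgroup P, V ≤ U ∧ IsOpen (V : Set P) ∧ V.Normal ∧
      ∀ W : Subgroup P, W ≤ V → IsOpen (W : Set P) →
        Submodule.span K (ρ '' ((N ⊓ W : Subgroup P) : Set P)) =
          Submodule.span K (ρ '' ((N ⊓ V : Subgroup P) : Set P)) := by
  classical
  let Q : ℕ → Prop := fun n => ∃ V : Subgroup P, V ≤ U ∧ IsOpen (V : Set P) ∧ V.Normal ∧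
    Module.finrank K (Submodule.span K (ρ '' ((N ⊓ V : Subgroup P) : Set P))) = n
  have hQ : ∃ n, Q n := ⟨_, U, le_rfl, hU, hUn, rfl⟩
  obtain ⟨V, hVU, hVo, hVn, hV⟩ := Nat.find_spec hQ
  refine ⟨V, hVU, hVo, hVn, fun W hWV hWo => ?_⟩
  obtain ⟨W', hW'W, hW'o, hW'n⟩ := exists_normal hWo
  have hmono : ∀ A B : Subgroup P, A ≤ B →
      Submodule.span K (ρ '' ((N ⊓ A : Subgroup P) : Set P)) ≤
        Submodule.span K (ρ '' ((N ⊓ B : Subgroup P) : Set P)) := by
    intro A B hAB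
    exact Submodule.span_mono (Set.image_mono (fun x hx => ⟨hx.1, hAB hx.2⟩))
  have hmin : Nat.find hQ ≤
      Module.finrank K (Submodule.span K (ρ '' ((N ⊓ W' : Subgroup P) : Set P))) :=
    Nat.find_min' hQ ⟨W', hW'W.trans (hWV.trans hVU), hW'o, hW'n, rfl⟩
  have h1 : Submodule.span K (ρ '' ((N ⊓ W' : Subgroup P) : Set P)) =
      Submodule.span K (ρ '' ((N ⊓ V : Subgroup P) : Set P)) := by
    apply Submodule.eq_of_le_of_finrank_le (hmono _ _ (hW'W.trans hWV))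
    rw [hV]
    exact hmin
  apply le_antisymm (hmono _ _ hWV)
  rw [← h1]
  exact hmono _ _ hW'W

/-- STEP.

Proof. (1) `exists_stable` gives `U₁`; `S = ρ '' (N ∩ U₁)`, `B = span S`, `wedderburn` gives `E`.
(2) `u ↦ ρ u * unitOf E * ρ u⁻¹` is continuous on `U₁` with values in the finite set of central
idempotents of `B` (conjugation by `ρ u` preserves `S` as `U` normalises `N`): by `exists_const` it is
`unitOf E` on an open normal `U₂`. (3) For `u ∈ U₂`, `ρ u * E i j * ρ u⁻¹` lies in `B` and is fixed by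
`unitOf E`, so it is a `comb E T`: `lift` gives `σ` on `U₃`, `corner` gives `m, τ, J`.
(4) For `x ∈ N ∩ U₃`: `ρ x * unitOf E = comb E T`, and acting on `J k t` shows that
`σ x k j * τ x s t = T k j * δ s t`, so `τ x` is a scalar (`σ x` has a nonzero entry).
(5) For `W` open, `B = span ρ (N ∩ V ∩ W)` (`exists_stable`) contains `E i j = ∑ c_x ρ x`, with
`τ x = c' x • 1`; acting on `J k t` gives `∑ c_x c'_x • σ x = single i j 1`: so `σ (N ∩ V ∩ W)` spans.
(6) If `v ∈ V` commutes up to scalars with `ρ (N ∩ V ∩ W)`: for `x ∈ N ∩ V ∩ W`, `y = v x v⁻¹ x⁻¹` has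
`ρ y = c • 1`, so (act on the `J k t`) `σ y` is scalar, hence `σ y = 1` by the last clause of `lift`:
`σ v` commutes with `σ x`. By (5) `σ v` commutes with all matrices, so it is scalar and `σ v = 1`. -/
theorem stepN [IsAlgClosed K] {N : Subgroup P}
    {r : ℕ} (hr : 0 < r) {U : Subgroup P} (hU : IsOpen (U : Set P))
    (hN : ∀ u ∈ U, ∀ x ∈ N, u * x * u⁻¹ ∈ N)
    {ρ : P → Matrix (Fin r) (Fin r) K} (hρ : RepOn U ρ)
    (hss : ∀ V : Subgroup P, V ≤ U → IsOpen (V : Set P) → V.Normal →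
      SSOn (ρ '' ((N ⊓ V : Subgroup P) : Set P))) :
    ∃ V : Subgroup P, V ≤ U ∧ IsOpen (V : Set P) ∧ V.Normal ∧ ∃ d m : ℕ, 0 < d ∧ 0 < m ∧
      ∃ (σ : P → Matrix (Fin d) (Fin d) K) (τ : P → Matrix (Fin m) (Fin m) K),
        RepOn V σ ∧ RepOn V τ ∧ (∀ v ∈ V, (σ v).det = 1) ∧
        (∀ v ∈ V, ∀ c : K, σ v = c • (1 : Matrix (Fin d) (Fin d) K) → σ v = 1) ∧
        (∀ x ∈ N ⊓ V, ∃ c : K, τ x = c • (1 : Matrix (Fin m) (Fin m) K)) ∧
        (∀ W : Subgroup P, IsOpen (W : Set P) →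
          Submodule.span K (σ '' ((N ⊓ V ⊓ W : Subgroup P) : Set P)) = ⊤) ∧
        (∀ v ∈ V, ∀ W : Subgroup P, IsOpen (W : Set P) →
          (∀ x ∈ N ⊓ V ⊓ W, ∃ c : K, ρ v * ρ x = c • (ρ x * ρ v)) → σ v = 1) ∧
        ∃ J : Fin d → Fin m → (Fin r → K),
          LinearIndependent K (fun p : Fin d × Fin m => J p.1 p.2) ∧
          ∀ v ∈ V, ∀ j t, ρ v *ᵥ J j t = ∑ k, ∑ s, (σ v k j * τ v s t) • J k s := by
  classical
  obtain ⟨U₀, hU₀U, hU₀o, hU₀n⟩ := exists_normal hU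
  obtain ⟨U₁, hU₁U₀, hU₁o, hU₁n, hst⟩ := exists_stable (N := N) hU₀o hU₀n ρ
  have hU₁U : U₁ ≤ U := hU₁U₀.trans hU₀U
  have hρ₁ : RepOn U₁ ρ := ⟨hρ.one, fun u hu v hv => hρ.mul u (hU₁U hu) v (hU₁U hv),
    hρ.cont.mono hU₁U⟩
  obtain ⟨d, E, hd, hE, hE0, hEB, hEc, hET, hfin⟩ := wedderburn hr
    (ρ '' ((N ⊓ U₁ : Subgroup P) : Set P)) ⟨1, one_mem _, hρ.one⟩
    (by
      rintro _ ⟨x, hx, rfl⟩ _ ⟨y, hy, rfl⟩
      exact ⟨x * y, mul_mem hx hy, hρ₁.mul x hx.2 y hy.2⟩)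
    (hss U₁ hU₁U hU₁o hU₁n)
  set B := Submodule.span K (ρ '' ((N ⊓ U₁ : Subgroup P) : Set P)) with hBdef
  have hinv : ∀ u ∈ U₁, ρ u * ρ u⁻¹ = 1 := by
    intro u hu
    rw [← hρ₁.mul u hu _ (inv_mem hu), mul_inv_cancel, hρ.one]
  have hinv' : ∀ u ∈ U₁, ρ u⁻¹ * ρ u = 1 := by
    intro u hu
    rw [← hρ₁.mul _ (inv_mem hu) u hu, inv_mul_cancel, hρ.one]
  have hconjB : ∀ u ∈ U₁, ∀ b ∈ B, ρ u * b * ρ u⁻¹ ∈ B := by
    intro u hu b hb
    induction hb using Submodule.span_induction with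
    | mem b hb =>
      obtain ⟨x, hx, rfl⟩ := hb
      apply Submodule.subset_span
      refine ⟨u * x * u⁻¹, ⟨hN u (hU₁U hu) x hx.1, hU₁n.conj_mem x hx.2 u⟩, ?_⟩
      rw [hρ₁.mul _ (mul_mem hu hx.2) _ (inv_mem hu), hρ₁.mul u hu x hx.2]
    | zero => rw [mul_zero, zero_mul]; exact B.zero_mem
    | add a b _ _ ha hb => rw [mul_add, add_mul]; exact B.add_mem ha hb
    | smul c a _ ha => rw [Matrix.mul_smul, Matrix.smul_mul]; exact B.smul_mem c ha
  have hunitB : unitOf E ∈ B := Submodule.sum_mem _ fun i _ => hEB i i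
  have hunit2 : unitOf E * unitOf E = unitOf E := by
    rw [← comb_one E, comb_mul hE, one_mul]
  -- the central idempotent does not move
  have hcontinv : ContinuousOn (fun u : P => ρ u⁻¹) (U₁ : Set P) :=
    hρ₁.cont.comp continuous_inv.continuousOn (fun u hu => U₁.inv_mem hu)
  have hf : ContinuousOn (fun u : P => ρ u * unitOf E * ρ u⁻¹) (U₁ : Set P) :=
    (hρ₁.cont.mul continuousOn_const).mul hcontinv
  obtain ⟨U₂, hU₂₁, hU₂o, hU₂n, hfix⟩ := exists_const hU₁o hf Set.univ (by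
    refine hfin.subset ?_
    rintro _ ⟨u, ⟨-, hu⟩, rfl⟩
    have hu : u ∈ U₁ := hu
    refine ⟨hconjB u hu _ hunitB, ?_, ?_⟩
    · calc ρ u * unitOf E * ρ u⁻¹ * (ρ u * unitOf E * ρ u⁻¹)
          = ρ u * unitOf E * (ρ u⁻¹ * ρ u) * unitOf E * ρ u⁻¹ := by simp only [mul_assoc]
        _ = ρ u * (unitOf E * unitOf E) * ρ u⁻¹ := by
            rw [hinv' u hu, mul_one]; simp only [mul_assoc]
        _ = ρ u * unitOf E * ρ u⁻¹ := by rw [hunit2]
    · intro b hb
      have h1 : ρ u⁻¹ * b * ρ u ∈ B := by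
        have := hconjB u⁻¹ (inv_mem hu) b hb
        rwa [inv_inv] at this
      have h2 := hEc _ h1
      calc ρ u * unitOf E * ρ u⁻¹ * b
          = ρ u * unitOf E * ρ u⁻¹ * b * (ρ u * ρ u⁻¹) := by rw [hinv u hu, mul_one]
        _ = ρ u * (unitOf E * (ρ u⁻¹ * b * ρ u)) * ρ u⁻¹ := by simp only [mul_assoc]
        _ = ρ u * ((ρ u⁻¹ * b * ρ u) * unitOf E) * ρ u⁻¹ := by rw [h2]
        _ = (ρ u * ρ u⁻¹) * b * (ρ u * unitOf E * ρ u⁻¹) := by simp only [mul_assoc]
        _ = b * (ρ u * unitOf E * ρ u⁻¹) := by rw [hinv u hu, one_mul])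
  have hfix' : ∀ u ∈ U₂, ρ u * unitOf E * ρ u⁻¹ = unitOf E := by
    intro u hu
    have := hfix u hu (Set.mem_univ _)
    simp only [inv_one, hρ.one, one_mul, mul_one] at this
    exact this
  have hρ₂ : RepOn U₂ ρ := ⟨hρ.one, fun u hu v hv => hρ₁.mul u (hU₂₁ hu) v (hU₂₁ hv),
    hρ₁.cont.mono hU₂₁⟩
  obtain ⟨U₃, hU₃₂, hU₃o, hU₃n, σ, hσ, hdet, hcj, hscal⟩ := lift hU₂o hd hE hE0 hρ₂ (by
    intro u hu i j
    have hu₁ : u ∈ U₁ := hU₂₁ hu
    obtain ⟨T, hT⟩ := hET _ (hconjB u hu₁ _ (hEB i j))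
    refine ⟨T, ?_⟩
    rw [← hT]
    calc ρ u * E i j * ρ u⁻¹
        = ρ u * (E i j * unitOf E) * ρ u⁻¹ := by rw [mul_unitOf hE]
      _ = ρ u * E i j * (ρ u⁻¹ * ρ u) * unitOf E * ρ u⁻¹ := by
          rw [hinv' u hu₁, mul_one]; simp only [mul_assoc]
      _ = ρ u * E i j * ρ u⁻¹ * (ρ u * unitOf E * ρ u⁻¹) := by simp only [mul_assoc]
      _ = ρ u * E i j * ρ u⁻¹ * unitOf E := by rw [hfix' u hu])
  have hρ₃ : RepOn U₃ ρ := ⟨hρ.one, fun u hu v hv => hρ₂.mul u (hU₃₂ hu) v (hU₃₂ hv),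
    hρ₂.cont.mono hU₃₂⟩
  have hU₃₁ : U₃ ≤ U₁ := hU₃₂.trans hU₂₁
  obtain ⟨m, τ, J, hm, hτ, hJ, hact, hEJ⟩ := corner hd hE hE0 hρ₃ (by
    intro u hu
    have h1 := hfix' u (hU₃₂ hu)
    calc ρ u * unitOf E = ρ u * unitOf E * (ρ u⁻¹ * ρ u) := by
          rw [hinv' u (hU₃₁ hu), mul_one]
      _ = (ρ u * unitOf E * ρ u⁻¹) * ρ u := by simp only [mul_assoc]
      _ = unitOf E * ρ u := by rw [h1]) hσ hcj
  -- linear independence, in a handy form
  have hcoef : ∀ a b : Fin d → Fin m → K,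
      (∑ k, ∑ s, a k s • J k s) = (∑ k, ∑ s, b k s • J k s) → ∀ k s, a k s = b k s := by
    intro a b hab k s
    have h1 : ∑ p : Fin d × Fin m, a p.1 p.2 • J p.1 p.2 =
        ∑ p : Fin d × Fin m, b p.1 p.2 • J p.1 p.2 := by
      rw [Fintype.sum_prod_type, Fintype.sum_prod_type]
      exact hab
    have h2 : ∑ p : Fin d × Fin m, (a p.1 p.2 - b p.1 p.2) • J p.1 p.2 = 0 := by
      simp only [sub_smul, Finset.sum_sub_distrib]
      rw [h1, sub_self]
    have h3 := (Fintype.linearIndependent_iff.1 hJ) (fun p => a p.1 p.2 - b p.1 p.2) h2 (k, s)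
    exact sub_eq_zero.1 h3
  have hunitJ : ∀ j t, unitOf E *ᵥ J j t = J j t := by
    intro j t
    simp only [unitOf, Matrix.sum_mulVec, hEJ]
    simp
  have hcombJ : ∀ T : Matrix (Fin d) (Fin d) K, ∀ j t, comb E T *ᵥ J j t = ∑ k, T k j • J k t := by
    intro T j t
    simp only [comb, Matrix.sum_mulVec, Matrix.smul_mulVec, hEJ, smul_ite, smul_zero]
    simp
  -- `τ` is scalar on `N ∩ U₃`
  have hdelta : ∀ (f : Fin d → K) (t : Fin m),
      (∑ k, f k • J k t) = ∑ k, ∑ s, (f k * (if s = t then 1 else 0)) • J k s := by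
    intro f t
    refine Finset.sum_congr rfl fun k _ => ?_
    rw [Finset.sum_eq_single t]
    · simp
    · intro s _ hs
      simp [hs]
    · intro h
      exact absurd (Finset.mem_univ t) h
  have hsc : ∀ x ∈ N ⊓ U₃, ∃ c : K, τ x = c • (1 : Matrix (Fin m) (Fin m) K) := by
    intro x hx
    have hxB : ρ x ∈ B := Submodule.subset_span ⟨x, ⟨hx.1, hU₃₁ hx.2⟩, rfl⟩
    obtain ⟨T, hT⟩ := hET _ hxB
    have h1 : ∀ j t k s, σ x k j * τ x s t = T k j * (if s = t then 1 else 0) := by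
      intro j t
      apply hcoef
      rw [← hact x hx.2 j t, ← hdelta (fun k => T k j) t, ← hcombJ T j t, ← hT,
        ← Matrix.mulVec_mulVec, hunitJ]
    have hne : ∃ k j, σ x k j ≠ 0 := by
      by_contra hcon
      push Not at hcon
      have h2 : σ x = 0 := by
        ext k j
        exact hcon k j
      have h3 := hdet x hx.2
      rw [h2] at h3
      have : Nonempty (Fin d) := ⟨⟨0, hd⟩⟩
      rw [Matrix.det_zero] at h3
      exact zero_ne_one h3
    obtain ⟨k, j, hkj⟩ := hne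
    refine ⟨T k j / σ x k j, ?_⟩
    ext s t
    have h2 := h1 j t k s
    rw [Matrix.smul_apply, Matrix.one_apply, smul_eq_mul, div_mul_eq_mul_div, eq_div_iff hkj,
      ← h2, mul_comm]
  have hspan : ∀ W : Subgroup P, IsOpen (W : Set P) →
      Submodule.span K (σ '' ((N ⊓ U₃ ⊓ W : Subgroup P) : Set P)) = ⊤ := by
    intro W hW
    have hspanB : Submodule.span K (ρ '' ((N ⊓ (U₃ ⊓ W) : Subgroup P) : Set P)) = B :=
      hst (U₃ ⊓ W) (inf_le_left.trans hU₃₁) (hU₃o.inter hW)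
    have htr : ∀ b ∈ Submodule.span K (ρ '' ((N ⊓ (U₃ ⊓ W) : Subgroup P) : Set P)),
        ∃ s ∈ Submodule.span K (σ '' ((N ⊓ U₃ ⊓ W : Subgroup P) : Set P)),
          ∀ j t, b *ᵥ J j t = ∑ k, s k j • J k t := by
      intro b hb
      induction hb using Submodule.span_induction with
      | mem b hb =>
        obtain ⟨x, hx, rfl⟩ := hb
        obtain ⟨c, hc⟩ := hsc x ⟨hx.1, hx.2.1⟩
        refine ⟨c • σ x, Submodule.smul_mem _ c
          (Submodule.subset_span ⟨x, ⟨⟨hx.1, hx.2.1⟩, hx.2.2⟩, rfl⟩), fun j t => ?_⟩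
        rw [hact x hx.2.1 j t, hc, hdelta (fun k => (c • σ x) k j) t]
        refine Finset.sum_congr rfl fun k _ => Finset.sum_congr rfl fun s _ => ?_
        rw [Matrix.smul_apply, Matrix.smul_apply, Matrix.one_apply, smul_eq_mul, smul_eq_mul]
        congr 1
        ring
      | zero => exact ⟨0, Submodule.zero_mem _, fun j t => by simp⟩
      | add a b _ _ ha hb =>
        obtain ⟨s, hs, hs'⟩ := ha
        obtain ⟨s2, hs2, hs2'⟩ := hb
        refine ⟨s + s2, Submodule.add_mem _ hs hs2, fun j t => ?_⟩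
        rw [Matrix.add_mulVec, hs', hs2', ← Finset.sum_add_distrib]
        exact Finset.sum_congr rfl fun k _ => by rw [Matrix.add_apply, add_smul]
      | smul c a _ ha =>
        obtain ⟨s, hs, hs'⟩ := ha
        refine ⟨c • s, Submodule.smul_mem _ c hs, fun j t => ?_⟩
        rw [Matrix.smul_mulVec, hs', Finset.smul_sum]
        exact Finset.sum_congr rfl fun k _ => by rw [Matrix.smul_apply, smul_smul, smul_eq_mul]
    have hsingle : ∀ i j, Matrix.single i j (1 : K) ∈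
        Submodule.span K (σ '' ((N ⊓ U₃ ⊓ W : Subgroup P) : Set P)) := by
      intro i j
      have h1 : E i j ∈ Submodule.span K (ρ '' ((N ⊓ (U₃ ⊓ W) : Subgroup P) : Set P)) := by
        rw [hspanB]
        exact hEB i j
      obtain ⟨s, hs, hs'⟩ := htr _ h1
      have h2 : s = Matrix.single i j 1 := by
        have t : Fin m := ⟨0, hm⟩
        ext k l
        have h3 : (∑ k, s k l • J k t) = ∑ k, (Matrix.single i j (1 : K)) k l • J k t := by
          rw [← hs' l t, hEJ]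
          by_cases hjl : j = l
          · subst hjl
            rw [if_pos rfl, Finset.sum_eq_single i]
            · simp
            · intro k _ hk
              rw [Matrix.single_apply_of_ne]
              · simp
              · exact fun h => hk h.1.symm
            · intro h
              exact absurd (Finset.mem_univ i) h
          · rw [if_neg hjl]
            symm
            apply Finset.sum_eq_zero
            intro k _
            rw [Matrix.single_apply_of_ne]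
            · simp
            · exact fun h => hjl h.2
        rw [hdelta (fun k => s k l) t, hdelta (fun k => (Matrix.single i j (1 : K)) k l) t] at h3
        have h4 := hcoef _ _ h3 k t
        simpa using h4
      rw [← h2]
      exact hs
    rw [eq_top_iff]
    intro A _
    rw [Matrix.matrix_eq_sum_single A]
    refine Submodule.sum_mem _ fun i _ => Submodule.sum_mem _ fun j _ => ?_
    have h1 : Matrix.single i j (A i j) = A i j • Matrix.single i j (1 : K) := by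
      rw [Matrix.smul_single, smul_eq_mul, mul_one]
    rw [h1]
    exact Submodule.smul_mem _ _ (hsingle i j)
  have hρinv : ∀ u ∈ U₃, ρ u * ρ u⁻¹ = 1 := fun u hu => hinv u (hU₃₁ hu)
  have hσinv : ∀ u ∈ U₃, σ u⁻¹ * σ u = 1 := by
    intro u hu
    rw [← hσ.mul _ (inv_mem hu) u hu, inv_mul_cancel, hσ.one]
  refine ⟨U₃, hU₃₁.trans hU₁U, hU₃o, hU₃n, d, m, hd, hm, σ, τ, hσ, hτ, hdet, hscal, hsc, hspan,
    ?_, J, hJ, hact⟩
  -- centralisers
  intro v hv W hW hcomm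
  have hcx : ∀ x ∈ N ⊓ U₃ ⊓ W, σ v * σ x = σ x * σ v := by
    intro x hxW
    have hx : x ∈ N ⊓ U₃ := hxW.1
    have hvx : v * x * v⁻¹ * x⁻¹ ∈ U₃ :=
      mul_mem (mul_mem (mul_mem hv hx.2) (inv_mem hv)) (inv_mem hx.2)
    have hvxN : v * x * v⁻¹ * x⁻¹ ∈ N :=
      mul_mem (hN v (hU₁U (hU₃₁ hv)) x hx.1) (inv_mem hx.1)
    obtain ⟨c, hc⟩ := hcomm x hxW
    have hy : ρ (v * x * v⁻¹ * x⁻¹) = c • (1 : Matrix (Fin r) (Fin r) K) := by
      rw [hρ₃.mul _ (mul_mem (mul_mem hv hx.2) (inv_mem hv)) _ (inv_mem hx.2),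
        hρ₃.mul _ (mul_mem hv hx.2) _ (inv_mem hv), hρ₃.mul v hv x hx.2, hc]
      calc c • (ρ x * ρ v) * ρ v⁻¹ * ρ x⁻¹ = c • (ρ x * (ρ v * ρ v⁻¹) * ρ x⁻¹) := by
            simp only [Matrix.smul_mul, mul_assoc]
        _ = c • (1 : Matrix (Fin r) (Fin r) K) := by
            rw [hρinv v hv, mul_one, hρinv x hx.2]
    obtain ⟨c', hc'⟩ := hsc _ ⟨hvxN, hvx⟩
    have hc'0 : c' ≠ 0 := by
      intro h0
      rw [h0, zero_smul] at hc'
      have h1 := hτ.mul _ hvx _ (inv_mem hvx)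
      rw [mul_inv_cancel, hτ.one, hc', zero_mul] at h1
      have h2 := congrFun (congrFun h1 ⟨0, hm⟩) ⟨0, hm⟩
      rw [Matrix.one_apply_eq, Matrix.zero_apply] at h2
      exact one_ne_zero h2
    have h1 : ∀ j t k s, σ (v * x * v⁻¹ * x⁻¹) k j * τ (v * x * v⁻¹ * x⁻¹) s t =
        (c • (1 : Matrix (Fin d) (Fin d) K)) k j * (if s = t then 1 else 0) := by
      intro j t
      apply hcoef
      rw [← hact _ hvx j t, ← hdelta (fun k => (c • (1 : Matrix (Fin d) (Fin d) K)) k j) t, hy]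
      rw [Matrix.smul_mulVec, Matrix.one_mulVec, Finset.sum_eq_single j]
      · rw [Matrix.smul_apply, Matrix.one_apply_eq, smul_eq_mul, mul_one]
      · intro k _ hk
        rw [Matrix.smul_apply, Matrix.one_apply_ne hk, smul_zero, zero_smul]
      · intro h
        exact absurd (Finset.mem_univ j) h
    have h2 : σ (v * x * v⁻¹ * x⁻¹) = (c / c') • (1 : Matrix (Fin d) (Fin d) K) := by
      ext k j
      have h3 := h1 j ⟨0, hm⟩ k ⟨0, hm⟩
      rw [hc', Matrix.smul_apply, Matrix.smul_apply, Matrix.one_apply_eq, if_pos rfl, mul_one,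
        smul_eq_mul, smul_eq_mul, mul_one] at h3
      rw [Matrix.smul_apply, smul_eq_mul, div_mul_eq_mul_div, eq_div_iff hc'0, h3]
    have h4 := hscal _ hvx _ h2
    have h5 : v * x = (v * x * v⁻¹ * x⁻¹) * (x * v) := by group
    rw [← hσ.mul v hv x hx.2, h5, hσ.mul _ hvx _ (mul_mem hx.2 hv), h4, one_mul,
      hσ.mul x hx.2 v hv]
  have hcA : ∀ A : Matrix (Fin d) (Fin d) K, σ v * A = A * σ v := by
    intro A
    have hA : A ∈ Submodule.span K (σ '' ((N ⊓ U₃ ⊓ W : Subgroup P) : Set P)) := by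
      rw [hspan W hW]
      trivial
    induction hA using Submodule.span_induction with
    | mem b hb =>
      obtain ⟨x, hx, rfl⟩ := hb
      exact hcx x hx
    | zero => rw [mul_zero, zero_mul]
    | add a b _ _ ha hb => rw [mul_add, add_mul, ha, hb]
    | smul c a _ ha => rw [Matrix.mul_smul, Matrix.smul_mul, ha]
  obtain ⟨c, hc⟩ := scalar_of_comm hE hE0 hd (σ v) (by
    intro i j
    rw [← mul_one (1 : K)] at *
    rw [← one_smul K (E i j), ← comb_single E i j 1, comb_mul hE, comb_mul hE, hcA])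
  exact hscal v hv c hc

/-- The case of a normal subgroup `N`. -/
theorem step [IsAlgClosed K] {N : Subgroup P} [N.Normal]
    {r : ℕ} (hr : 0 < r) {U : Subgroup P} (hU : IsOpen (U : Set P)) (_ : U.Normal)
    {ρ : P → Matrix (Fin r) (Fin r) K} (hρ : RepOn U ρ)
    (hss : ∀ V : Subgroup P, V ≤ U → IsOpen (V : Set P) → V.Normal →
      SSOn (ρ '' ((N ⊓ V : Subgroup P) : Set P))) :
    ∃ V : Subgroup P, V ≤ U ∧ IsOpen (V : Set P) ∧ V.Normal ∧ ∃ d m : ℕ, 0 < d ∧ 0 < m ∧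
      ∃ (σ : P → Matrix (Fin d) (Fin d) K) (τ : P → Matrix (Fin m) (Fin m) K),
        RepOn V σ ∧ RepOn V τ ∧ (∀ v ∈ V, (σ v).det = 1) ∧
        (∀ v ∈ V, ∀ c : K, σ v = c • (1 : Matrix (Fin d) (Fin d) K) → σ v = 1) ∧
        (∀ x ∈ N ⊓ V, ∃ c : K, τ x = c • (1 : Matrix (Fin m) (Fin m) K)) ∧
        (∀ W : Subgroup P, IsOpen (W : Set P) →
          Submodule.span K (σ '' ((N ⊓ V ⊓ W : Subgroup P) : Set P)) = ⊤) ∧
        (∀ v ∈ V, ∀ W : Subgroup P, IsOpen (W : Set P) →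
          (∀ x ∈ N ⊓ V ⊓ W, ∃ c : K, ρ v * ρ x = c • (ρ x * ρ v)) → σ v = 1) ∧
        ∃ J : Fin d → Fin m → (Fin r → K),
          LinearIndependent K (fun p : Fin d × Fin m => J p.1 p.2) ∧
          ∀ v ∈ V, ∀ j t, ρ v *ᵥ J j t = ∑ k, ∑ s, (σ v k j * τ v s t) • J k s :=
  stepN hr hU (fun u _ x hx => (inferInstance : N.Normal).conj_mem x hx u) hρ hss

end Pool.Agent.GeoOrig
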