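import Pool.Agent.Lib.GeoOrig.Ind
import Pool.Agent.Lib.GeoOrig.Conj

/-!
# Module SUB: subalgebras normalised by a tensor-indecomposable representation
-/

namespace Pool.Agent.GeoOrig

open Matrix Topology
open scoped Kronecker

variable {K : Type*} [NontriviallyNormedField K] {P : Type*} [Group P] [TopologicalSpace P]
  [IsTopologicalGroup P] [CompactSpace P] [TotallyDisconnectedSpace P]

/-- A matrix commuting with a spanning set is a scalar. -/
theorem scalar_of_span {D : ℕ} {S : Set (Matrix (Fin D) (Fin D) K)}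
    (hS : Submodule.span K S = ⊤) {M : Matrix (Fin D) (Fin D) K} (hM : ∀ A ∈ S, M * A = A * M) :
    ∃ c : K, M = c • (1 : Matrix (Fin D) (Fin D) K) := by
  have h1 : ∀ A : Matrix (Fin D) (Fin D) K, M * A = A * M := by
    intro A
    have hA : A ∈ Submodule.span K S := by
      rw [hS]
      exact Submodule.mem_top
    induction hA using Submodule.span_induction with
    | mem A hA => exact hM A hA
    | zero => rw [Matrix.mul_zero, Matrix.zero_mul]
    | add a b _ _ ha hb => rw [Matrix.mul_add, Matrix.add_mul, ha, hb]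
    | smul c a _ ha => rw [Matrix.mul_smul, Matrix.smul_mul, ha]
  have h2 : M ∈ Set.range (Matrix.scalar (Fin D)) :=
    Matrix.mem_range_scalar_of_commute_single fun i j _ => (h1 (Matrix.single i j 1)).symm
  obtain ⟨c, rfl⟩ := h2
  refine ⟨c, ?_⟩
  rw [Matrix.scalar_apply, ← Matrix.smul_one_eq_diagonal]

/-- Subalgebras normalised by a tensor-indecomposable representation are trivial. -/
theorem sub_trivial [IsAlgClosed K] {D : ℕ} (hD : 0 < D) {V : Subgroup P}
    (hVo : IsOpen (V : Set P)) {σ : P → Matrix (Fin D) (Fin D) K} (hσ : LieIrr V σ)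
    (hp : TPrime V σ) (B : Subalgebra K (Matrix (Fin D) (Fin D) K))
    {W : Subgroup P} (hWo : IsOpen (W : Set P))
    (hst : ∀ g ∈ V ⊓ W, ∀ b ∈ B, σ g * b * σ g⁻¹ ∈ B) : B = ⊥ ∨ B = ⊤ := by
  classical
  have hspB : ∀ b, b ∈ Submodule.span K (B : Set (Matrix (Fin D) (Fin D) K)) ↔ b ∈ B := by
    intro b
    have h1 : Submodule.span K (B : Set (Matrix (Fin D) (Fin D) K)) =
        Subalgebra.toSubmodule B := Submodule.span_eq (Subalgebra.toSubmodule B)
    rw [h1, Subalgebra.mem_toSubmodule]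
  have hUo : IsOpen ((V ⊓ W : Subgroup P) : Set P) := by
    simpa using hVo.inter hWo
  obtain ⟨a, E, ha, hE, hE0, hEB, hEc, hET, hfin⟩ := wedderburn hD
    (B : Set (Matrix (Fin D) (Fin D) K)) B.one_mem (fun x hx y hy => B.mul_mem hx hy)
    (ssOn_of_conj (repOn_mono hσ.rep inf_le_left) (hσ.span (V ⊓ W) inf_le_left hUo) hst)
  have hEB' : ∀ i j, E i j ∈ B := fun i j => (hspB _).1 (hEB i j)
  have hUV : V ⊓ W ≤ V := inf_le_left
  have hσU : RepOn (V ⊓ W) σ := repOn_mono hσ.rep hUV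
  have hinv : ∀ u ∈ V ⊓ W, σ u * σ u⁻¹ = 1 := by
    intro u hu
    rw [← hσU.mul u hu _ (inv_mem hu), mul_inv_cancel, hσU.one]
  have hinv' : ∀ u ∈ V ⊓ W, σ u⁻¹ * σ u = 1 := by
    intro u hu
    rw [← hσU.mul _ (inv_mem hu) u hu, inv_mul_cancel, hσU.one]
  have hunitB : unitOf E ∈ B := B.sum_mem fun i _ => hEB' i i
  have hunit2 : unitOf E * unitOf E = unitOf E := by
    rw [← comb_one E, comb_mul hE, one_mul]
  -- the central idempotent does not move
  have hcontinv : ContinuousOn (fun u : P => σ u⁻¹) ((V ⊓ W : Subgroup P) : Set P) :=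
    hσU.cont.comp continuous_inv.continuousOn (fun u hu => (V ⊓ W).inv_mem hu)
  have hf : ContinuousOn (fun u : P => σ u * unitOf E * σ u⁻¹)
      ((V ⊓ W : Subgroup P) : Set P) :=
    (hσU.cont.mul continuousOn_const).mul hcontinv
  obtain ⟨U₂, hU₂₁, hU₂o, hU₂n, hfix⟩ := exists_const hUo hf Set.univ (by
    refine hfin.subset ?_
    rintro _ ⟨u, ⟨-, hu⟩, rfl⟩
    have hu : u ∈ V ⊓ W := hu
    refine ⟨(hspB _).2 (hst u hu _ hunitB), ?_, ?_⟩
    · calc σ u * unitOf E * σ u⁻¹ * (σ u * unitOf E * σ u⁻¹)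
          = σ u * unitOf E * (σ u⁻¹ * σ u) * unitOf E * σ u⁻¹ := by simp only [mul_assoc]
        _ = σ u * (unitOf E * unitOf E) * σ u⁻¹ := by
            rw [hinv' u hu, mul_one]; simp only [mul_assoc]
        _ = σ u * unitOf E * σ u⁻¹ := by rw [hunit2]
    · intro b hb
      have h1 : σ u⁻¹ * b * σ u ∈ B := by
        have := hst u⁻¹ (inv_mem hu) b ((hspB _).1 hb)
        rwa [inv_inv] at this
      have h2 := hEc _ ((hspB _).2 h1)
      calc σ u * unitOf E * σ u⁻¹ * b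
          = σ u * unitOf E * σ u⁻¹ * b * (σ u * σ u⁻¹) := by rw [hinv u hu, mul_one]
        _ = σ u * (unitOf E * (σ u⁻¹ * b * σ u)) * σ u⁻¹ := by simp only [mul_assoc]
        _ = σ u * ((σ u⁻¹ * b * σ u) * unitOf E) * σ u⁻¹ := by rw [h2]
        _ = (σ u * σ u⁻¹) * b * (σ u * unitOf E * σ u⁻¹) := by simp only [mul_assoc]
        _ = b * (σ u * unitOf E * σ u⁻¹) := by rw [hinv u hu, one_mul])
  have hfix' : ∀ u ∈ U₂, σ u * unitOf E * σ u⁻¹ = unitOf E := by
    intro u hu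
    have := hfix u hu (Set.mem_univ _)
    simp only [inv_one, hσU.one, one_mul, mul_one] at this
    exact this
  have hU₂V : U₂ ≤ V := hU₂₁.trans hUV
  -- it is the unit matrix
  have hone : unitOf E = 1 := by
    obtain ⟨c, hc⟩ := scalar_of_span (hσ.span U₂ hU₂V hU₂o) (M := unitOf E) (by
      rintro _ ⟨u, hu, rfl⟩
      calc unitOf E * σ u = (σ u * unitOf E * σ u⁻¹) * σ u := by rw [hfix' u hu]
        _ = σ u * unitOf E * (σ u⁻¹ * σ u) := by simp only [mul_assoc]
        _ = σ u * unitOf E := by rw [hinv' u (hU₂₁ hu), mul_one])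
    have h1 : E ⟨0, ha⟩ ⟨0, ha⟩ * unitOf E = E ⟨0, ha⟩ ⟨0, ha⟩ := mul_unitOf hE _ _
    rw [hc, mul_smul_comm, mul_one] at h1
    have h2 : (c - 1) • E ⟨0, ha⟩ ⟨0, ha⟩ = 0 := by rw [sub_smul, one_smul, h1, sub_self]
    rcases smul_eq_zero.1 h2 with h3 | h3
    · rw [hc, sub_eq_zero.1 h3, one_smul]
    · exact absurd h3 (hE0 _)
  have hσ₂ : RepOn U₂ σ := repOn_mono hσU hU₂₁
  have hcombB : ∀ b ∈ B, ∃ T : Matrix (Fin a) (Fin a) K, b = comb E T := by
    intro b hb
    obtain ⟨T, hT⟩ := hET b ((hspB _).2 hb)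
    exact ⟨T, by rw [← hT, hone, mul_one]⟩
  obtain ⟨U₃, hU₃₂, hU₃o, hU₃n, α, hα, hdet, hcj, hscal⟩ := lift hU₂o ha hE hE0 hσ₂
    (fun u hu i j => hcombB _ (hst u (hU₂₁ hu) _ (hEB' i j)))
  obtain ⟨m, τ, J, hm, hτ, hJ, hact, hEJ⟩ := corner ha hE hE0 (repOn_mono hσ₂ hU₃₂)
    (fun u _ => by rw [hone, mul_one, one_mul]) hα hcj
  obtain ⟨W', hW'U₃, hW'o, hα', hτ', hdm, heqv⟩ := pair_of_J ha hm (hU₃₂.trans hU₂V) hU₃o hσ hα
    hdet hscal hτ hJ hact
  by_cases h1 : a = 1
  · left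
    rw [eq_bot_iff]
    intro b hb
    obtain ⟨T, rfl⟩ := hcombB b hb
    subst h1
    have h2 : T = T 0 0 • (1 : Matrix (Fin 1) (Fin 1) K) := by
      ext i j
      rw [Subsingleton.elim i 0, Subsingleton.elim j 0, Matrix.smul_apply, Matrix.one_apply_eq,
        smul_eq_mul, mul_one]
    rw [h2, comb_smul, comb_one, hone, Algebra.mem_bot]
    exact ⟨T 0 0, by rw [Algebra.algebraMap_eq_smul_one]⟩
  by_cases h2 : m = 1
  · right
    subst h2
    rw [mul_one] at hdm
    subst hdm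
    let φ : Matrix (Fin a) (Fin a) K →ₗ[K] Matrix (Fin a) (Fin a) K :=
      { toFun := comb E
        map_add' := comb_add E
        map_smul' := comb_smul E }
    have hφ : Function.Surjective φ :=
      LinearMap.injective_iff_surjective.1 (comb_injective hE hE0)
    rw [eq_top_iff]
    rintro X -
    obtain ⟨T, hT⟩ := hφ X
    rw [← hT]
    exact (hspB _).1 (Submodule.span_mono (by rintro _ ⟨p, rfl⟩; exact hEB' p.1 p.2)
      (comb_mem_span E T))
  · exact absurd heqv (hp W' (hW'U₃.trans (hU₃₂.trans hU₂V)) hW'o a m (by omega) (by omega) α τ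
      hα' hτ')

end Pool.Agent.GeoOrig
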