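import Pool.Agent.Lib.GeoOrig.Main

/-!
# Irreducible lisse sheaves and commuting normal subgroups of the fundamental group

In the application to a smooth variety `X` over a finite field, `P = π₁(X)`, `R` is a closed normal
subgroup with an open solvable subgroup (for instance the image of the fundamental group of a
geometric fibre of a fibration whose fibres have virtually solvable fundamental group), and the
`N i` are closed normal subgroups commuting modulo `R`: for instance the images of the geometric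
fundamental groups of the factors of a product, or, for `n = 1`, the image of the fundamental group
of the geometric generic fibre of a fibration of `X` over a curve.
-/

open Matrix

namespace Pool.Agent.GeoOrig.TensorStructure

/-- Let `P` be a profinite group with closed normal subgroups `R, N 0, …, N (n - 1)` such that `R` is
virtually solvable and `[N i, N j] ≤ R` for `i ≠ j`. Then every irreducible continuous
`ρ : P → GL_r(ℚ̄_ℓ)` contains, on an open normal subgroup `U`, the twist by a continuous character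
`χ` of a tensor product `σ 0 ⊗ ⋯ ⊗ σ (n - 1) ⊗ τ` of continuous representations
`σ i : U → SL_{d i}(ℚ̄_ℓ)` and `τ : U → SL_m(ℚ̄_ℓ)` such that
* `σ i` stays irreducible on `N i ∩ W` for every open subgroup `W` (the matrices `σ i g`,
  `g ∈ N i ∩ W`, span all matrices), and `σ i` is trivial on every element of `U` which centralises
  modulo `R` an open subgroup of `N i`; in particular on `R` and on the `N j`, `j ≠ i`;
* `τ` stays irreducible on every open subgroup and is trivial on `R` and on all the `N i`;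
* `m = 1` if the quotient `P / (R N_0 ⋯ N_{n-1})` is virtually solvable;
* `χ = 1` if `det ρ` has finite order and, for some subgroup `G` containing the commutators, all
  continuous characters of open subgroups `U'` have finite order on `U' ∩ G`. -/
theorem result (ℓ : ℕ) [Fact ℓ.Prime] {P : Type*} [Group P] [TopologicalSpace P]
    [IsTopologicalGroup P] [CompactSpace P] [TotallyDisconnectedSpace P]
    (R : Subgroup P) [R.Normal] (hR : IsClosed (R : Set P))
    (hRs : ∃ U : Subgroup P, IsOpen (U : Set P) ∧ Group.IsSolvable ↥(R ⊓ U))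
    (n : ℕ) (N : Fin n → Subgroup P) [∀ i, (N i).Normal] (hN : ∀ i, IsClosed (N i : Set P))
    (hcomm : ∀ i j, i ≠ j → ∀ x ∈ N i, ∀ y ∈ N j, x * y * x⁻¹ * y⁻¹ ∈ R)
    (r : ℕ) (hr : 0 < r) (ρ : P →* GL (Fin r) (PadicAlgCl ℓ)) (hρ : Continuous ρ)
    (hirr : ∀ W : Submodule (PadicAlgCl ℓ) (Fin r → PadicAlgCl ℓ),
      (∀ g, ∀ w ∈ W, (ρ g : Matrix (Fin r) (Fin r) (PadicAlgCl ℓ)) *ᵥ w ∈ W) →
        W = ⊥ ∨ W = ⊤) :
    ∃ (U : Subgroup P) (d : Fin n → ℕ) (m : ℕ)
      (σ : ∀ i, U →* SpecialLinearGroup (Fin (d i)) (PadicAlgCl ℓ))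
      (τ : U →* SpecialLinearGroup (Fin m) (PadicAlgCl ℓ)) (χ : U →* (PadicAlgCl ℓ)ˣ),
      IsOpen (U : Set P) ∧ U.Normal ∧ (∀ i, 0 < d i ∧ Continuous (σ i)) ∧
      (0 < m ∧ Continuous τ) ∧ Continuous χ ∧
      (∀ i, ∀ W : Subgroup P, IsOpen (W : Set P) →
        Submodule.span (PadicAlgCl ℓ) {A : Matrix (Fin (d i)) (Fin (d i)) (PadicAlgCl ℓ) |
          ∃ g : U, (g : P) ∈ N i ∧ (g : P) ∈ W ∧ A = σ i g} = ⊤) ∧
      (∀ i, ∀ W : Subgroup P, IsOpen (W : Set P) → ∀ g : U,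
        (∀ x ∈ N i, x ∈ W → (g : P) * x * (g : P)⁻¹ * x⁻¹ ∈ R) → σ i g = 1) ∧
      (∀ W : Subgroup P, IsOpen (W : Set P) →
        Submodule.span (PadicAlgCl ℓ) {A : Matrix (Fin m) (Fin m) (PadicAlgCl ℓ) |
          ∃ g : U, (g : P) ∈ W ∧ A = τ g} = ⊤) ∧
      (∀ g : U, (g : P) ∈ R → τ g = 1) ∧ (∀ i, ∀ g : U, (g : P) ∈ N i → τ g = 1) ∧
      ((∃ U' : Subgroup P, IsOpen (U' : Set P) ∧
        ∃ k : ℕ, (derivedSeries U' k).map U'.subtype ≤ R ⊔ ⨆ i, N i) → m = 1) ∧
      (∃ J : ((∀ i, Fin (d i)) × Fin m → PadicAlgCl ℓ) →ₗ[PadicAlgCl ℓ]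
          (Fin r → PadicAlgCl ℓ),
        Function.Injective J ∧ ∀ (g : U) (f : (∀ i, Fin (d i)) × Fin m → PadicAlgCl ℓ),
          (ρ g : Matrix (Fin r) (Fin r) (PadicAlgCl ℓ)) *ᵥ J f =
            J (fun p => (χ g : PadicAlgCl ℓ) * ∑ q,
              (∏ i, (σ i g : Matrix (Fin (d i)) (Fin (d i)) (PadicAlgCl ℓ))
                (p.1 i) (q.1 i)) *
                (τ g : Matrix (Fin m) (Fin m) (PadicAlgCl ℓ)) p.2 q.2 * f q)) ∧
      ((∃ G : Subgroup P, (∀ x y : P, x * y * x⁻¹ * y⁻¹ ∈ G) ∧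
          ∀ U' : Subgroup P, IsOpen (U' : Set P) →
            ∀ χ' : U' →* (PadicAlgCl ℓ)ˣ, Continuous χ' →
              ∃ m : ℕ, 0 < m ∧ ∀ g : U', (g : P) ∈ G → χ' g ^ m = 1) →
        (∃ m : ℕ, 0 < m ∧
          ∀ g, (ρ g : Matrix (Fin r) (Fin r) (PadicAlgCl ℓ)).det ^ m = 1) →
        ∀ g, χ g = 1) := by
  classical
  obtain ⟨V, hVo, hVn, d, m, hd, hm, σ, τ, hσ, hσdet, hσspan, hσcent, hτ, hτdet, hτspan, hτR,
    hτN, hτm, χ, hχ1, hχmul, hχ0, hχc, ⟨J, hJ, hact⟩, hχt⟩ :=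
    Pool.Agent.GeoOrig.main hR hRs hN hcomm hr ρ hρ hirr
  let χ' : V →* (PadicAlgCl ℓ)ˣ := MonoidHom.toHomUnits
    { toFun := fun v => χ v
      map_one' := hχ1
      map_mul' := fun a b => hχmul a a.2 b b.2 }
  have hχ'v : ∀ v : V, (χ' v : PadicAlgCl ℓ) = χ v := fun v => rfl
  refine ⟨V, d, m, fun i =>
    { toFun := fun g => ⟨σ i g, hσdet i g g.2⟩
      map_one' := Subtype.ext (hσ i).one
      map_mul' := fun a b => Subtype.ext ((hσ i).mul a a.2 b b.2) },
    { toFun := fun g => ⟨τ g, hτdet g g.2⟩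
      map_one' := Subtype.ext hτ.one
      map_mul' := fun a b => Subtype.ext (hτ.mul a a.2 b b.2) }, χ', hVo, hVn,
    fun i => ⟨hd i, ?_⟩, ⟨hm, ?_⟩, ?_, fun i W hW => ?_,
    fun i W hW g hg => Subtype.ext (hσcent i W hW g g.2 hg), fun W hW => ?_,
    fun g hg => Subtype.ext (hτR g ⟨hg, g.2⟩), fun i g hg => Subtype.ext (hτN i g ⟨hg, g.2⟩),
    ?_, ⟨Fintype.linearCombination (PadicAlgCl ℓ) J, ?_, fun g f => ?_⟩, fun h1 h2 g => ?_⟩
  · exact ((hσ i).cont.domRestrict).subtype_mk _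
  · exact (hτ.cont.domRestrict).subtype_mk _
  · rw [Units.continuous_iff]
    have h1 : Continuous (fun v : V => χ v) := hχc.domRestrict
    refine ⟨h1, ?_⟩
    have h2 : (fun v : V => ((χ' v)⁻¹ : (PadicAlgCl ℓ)ˣ).val) = fun v : V => (χ v)⁻¹ := by
      funext v
      rw [Units.val_inv_eq_inv_val, hχ'v]
    show Continuous (fun v : V => ((χ' v)⁻¹ : (PadicAlgCl ℓ)ˣ).val)
    rw [h2]
    exact h1.inv₀ fun v => hχ0 v v.2
  · rw [eq_top_iff, ← hσspan i W hW]
    refine Submodule.span_mono ?_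
    rintro _ ⟨x, hx, rfl⟩
    exact ⟨⟨x, hx.1.2⟩, hx.1.1, hx.2, rfl⟩
  · have hWV : IsOpen ((V ⊓ W : Subgroup P) : Set P) := by
      simpa using hVo.inter hW
    rw [eq_top_iff, ← hτspan (V ⊓ W) inf_le_left hWV]
    refine Submodule.span_mono ?_
    rintro _ ⟨x, hx, rfl⟩
    exact ⟨⟨x, hx.1⟩, hx.2, rfl⟩
  · rintro ⟨U', hU', k, hk⟩
    exact hτm ⟨U', hU', k, by rwa [Pool.Agent.GeoOrig.solvSer_eq_map]⟩
  · exact linearIndependent_iff_injective_fintypeLinearCombination.1 hJ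
  · simp only [Fintype.linearCombination_apply]
    rw [Matrix.mulVec_sum]
    have h1 : ∀ q, (ρ g : Matrix (Fin r) (Fin r) (PadicAlgCl ℓ)) *ᵥ (f q • J q) =
        ∑ p, (f q * (χ g * ((∏ i, σ i g (p.1 i) (q.1 i)) * τ g p.2 q.2))) • J p := by
      intro q
      rw [Matrix.mulVec_smul, hact g g.2 q, Finset.smul_sum]
      exact Finset.sum_congr rfl fun p _ => smul_smul _ _ _
    simp only [h1]
    rw [Finset.sum_comm]
    refine Finset.sum_congr rfl fun p _ => ?_
    rw [← Finset.sum_smul]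
    congr 1
    rw [Finset.mul_sum]
    refine Finset.sum_congr rfl fun q _ => ?_
    show f q * (χ g * ((∏ i, σ i g (p.1 i) (q.1 i)) * τ g p.2 q.2)) =
      χ g * ((∏ i, σ i g (p.1 i) (q.1 i)) * τ g p.2 q.2 * f q)
    ring
  · exact Units.ext (hχt h1 h2 g g.2)

end Pool.Agent.GeoOrig.TensorStructure
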