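import Pool.Agent.Lib.GeoOrig.Defs

/-!
# Module TOP: small open normal subgroups of a profinite group
-/

namespace Pool.Agent.GeoOrig

open Matrix Topology

variable {P : Type*} [Group P] [TopologicalSpace P] [IsTopologicalGroup P] [CompactSpace P]
  [TotallyDisconnectedSpace P]

/-- (`ProfiniteGrp.exist_openNormalSubgroup_sub_open_nhds_of_one`.) -/
theorem exists_normal {U : Subgroup P} (hU : IsOpen (U : Set P)) :
    ∃ V : Subgroup P, V ≤ U ∧ IsOpen (V : Set P) ∧ V.Normal := by
  obtain ⟨H, hH⟩ := ProfiniteGrp.exist_openNormalSubgroup_sub_open_nhds_of_one hU U.one_mem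
  exact ⟨H.toSubgroup, hH, H.isOpen', H.isNormal'⟩

/-- A function continuous on `U` whose value at `1` lies in an open set `O` takes values in `O` on
an open normal subgroup contained in `U`. -/
theorem exists_small {U : Subgroup P} (hU : IsOpen (U : Set P)) {X : Type*} [TopologicalSpace X]
    {f : P → X} (hf : ContinuousOn f (U : Set P)) {O : Set X} (hO : IsOpen O) (h1 : f 1 ∈ O) :
    ∃ V : Subgroup P, V ≤ U ∧ IsOpen (V : Set P) ∧ V.Normal ∧ ∀ v ∈ V, f v ∈ O := by
  have h2 : IsOpen ((U : Set P) ∩ f ⁻¹' O) := hf.isOpen_inter_preimage hU hO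
  obtain ⟨H, hH⟩ := ProfiniteGrp.exist_openNormalSubgroup_sub_open_nhds_of_one h2 ⟨U.one_mem, h1⟩
  exact ⟨H.toSubgroup, fun v hv => (hH hv).1, H.isOpen', H.isNormal', fun v hv => (hH hv).2⟩

/-- If moreover `f` has finitely many values at the elements of a subset `S` of `U`, then
`f = f 1` at the elements of `S` in an open normal subgroup. -/
theorem exists_const {U : Subgroup P} (hU : IsOpen (U : Set P)) {X : Type*} [TopologicalSpace X]
    [T1Space X] {f : P → X} (hf : ContinuousOn f (U : Set P)) (S : Set P)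
    (hfin : (f '' (S ∩ (U : Set P))).Finite) :
    ∃ V : Subgroup P, V ≤ U ∧ IsOpen (V : Set P) ∧ V.Normal ∧ ∀ v ∈ V, v ∈ S → f v = f 1 := by
  have hO : IsOpen ((f '' (S ∩ (U : Set P)) \ {f 1})ᶜ) :=
    (hfin.subset Set.sdiff_subset).isClosed.isOpen_compl
  obtain ⟨V, h1, h2, h3, h4⟩ := exists_small hU hf hO (fun h => h.2 rfl)
  refine ⟨V, h1, h2, h3, fun v hv hvS => ?_⟩
  by_contra hne
  exact h4 v hv ⟨⟨v, ⟨hvS, h1 hv⟩, rfl⟩, hne⟩

end Pool.Agent.GeoOrig
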