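import Pool.Agent.Lib.GeoOrig.HomRep

/-!
# Module TRANSFER: representations sharing a constituent on an intersection of subgroups
-/

namespace Pool.Agent.GeoOrig

open Matrix Topology
open scoped Kronecker

variable {K : Type*} [NontriviallyNormedField K] {P : Type*} [Group P] [TopologicalSpace P]
  [IsTopologicalGroup P] [CompactSpace P] [TotallyDisconnectedSpace P]

theorem solvSer_conj {P : Type*} [Group P] {H : Subgroup P} {v : P}
    (h : ∀ x ∈ H, v * x * v⁻¹ ∈ H) (n : ℕ) : ∀ x ∈ solvSer H n, v * x * v⁻¹ ∈ solvSer H n := by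
  intro x hx
  have h1 : (MulAut.conj v).toMonoidHom x ∈ (solvSer H n).map (MulAut.conj v).toMonoidHom :=
    ⟨x, hx, rfl⟩
  rw [solvSer_map] at h1
  refine solvSer_mono ?_ n h1
  rintro _ ⟨y, hy, rfl⟩
  exact h y hy

omit [IsTopologicalGroup P] [CompactSpace P] [TotallyDisconnectedSpace P] in
/-- Open subgroups of an open subgroup. -/
theorem isOpen_map_subtype {U : Subgroup P} (hU : IsOpen (U : Set P)) {V : Subgroup ↥U}
    (hV : IsOpen (V : Set ↥U)) : IsOpen ((V.map U.subtype : Subgroup P) : Set P) := by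
  rw [Subgroup.coe_map]
  exact hU.isOpenMap_subtype_val _ hV

omit [IsTopologicalGroup P] [CompactSpace P] [TotallyDisconnectedSpace P] in
theorem isOpen_subgroupOf {U V : Subgroup P} (hV : IsOpen (V : Set P)) :
    IsOpen ((V.subgroupOf U : Subgroup ↥U) : Set ↥U) :=
  hV.preimage continuous_subtype_val

omit [IsTopologicalGroup P] [CompactSpace P] [TotallyDisconnectedSpace P] in
/-- From functions to homomorphisms. -/
theorem exists_unitsHom {U : Subgroup P} {M : Type*} [Ring M] [TopologicalSpace M]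
    {f : P → M} (hcinv : Continuous (fun v : P => v⁻¹)) (h1 : f 1 = 1)
    (hmul : ∀ u ∈ U, ∀ v ∈ U, f (u * v) = f u * f v) (hc : ContinuousOn f (U : Set P)) :
    ∃ F : U →* Mˣ, Continuous F ∧ ∀ g : U, (F g : M) = f g := by
  let F : U →* Mˣ := MonoidHom.toHomUnits
    { toFun := fun v => f v
      map_one' := h1
      map_mul' := fun a b => hmul a a.2 b b.2 }
  have hF : ∀ g : U, (F g : M) = f g := fun _ => rfl
  refine ⟨F, ?_, hF⟩
  rw [Units.continuous_iff]
  have h2 : Continuous (fun v : U => f v) := hc.domRestrict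
  refine ⟨h2, ?_⟩
  have h3 : (fun v : U => ((F v)⁻¹ : Mˣ).val) = fun v : U => f ((v⁻¹ : U) : P) := by
    funext v
    rw [← map_inv, hF]
  show Continuous (fun v : U => ((F v)⁻¹ : Mˣ).val)
  rw [h3]
  have h4 : Continuous (fun v : U => v⁻¹) :=
    Continuous.subtype_mk (hcinv.comp continuous_subtype_val) _
  exact h2.comp h4


set_option maxHeartbeats 1000000 in
/-- Two representations which share a constituent on a term of the derived series of an
intersection of subgroups with open normalisers. -/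
theorem transfer_main [IsAlgClosed K] {G : Subgroup P} (hG : CharFin K G) {r s : ℕ}
    (ρ : P →* GL (Fin r) K) (hρ : Continuous ρ)
    (hirr : ∀ Y : Submodule K (Fin r → K),
      (∀ g, ∀ w ∈ Y, (ρ g : Matrix (Fin r) (Fin r) K) *ᵥ w ∈ Y) → Y = ⊥ ∨ Y = ⊤)
    {W : Subgroup P} (hWo : IsOpen (W : Set P)) {π : P → Matrix (Fin s) (Fin s) K}
    (hπ : RepOn W π) {m : ℕ} (L : Fin m → Subgroup P)
    (hL : ∀ j, IsOpen (Subgroup.normalizer (L j : Set P) : Set P)) (k : ℕ)
    {X₀ : Matrix (Fin s) (Fin r) K} (hX₀ : X₀ ≠ 0)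
    (hX : ∀ g ∈ solvSer (W ⊓ ⨅ j, L j) k, π g * X₀ = X₀ * (ρ g : Matrix (Fin r) (Fin r) K)) :
    ∃ (U : Subgroup P) (n : ℕ) (d : Fin n → ℕ)
      (σ : ∀ i, U →* SpecialLinearGroup (Fin (d i)) K) (χ : U →* Kˣ),
      U ≤ W ∧ IsOpen (U : Set P) ∧ U.Normal ∧ (∀ i, 2 ≤ d i ∧ Continuous (σ i)) ∧
      Continuous χ ∧ ∏ i, d i ≤ r * s ∧
      (∀ i, ∃ j, ∀ g : U, (g : P) ∈ L j → σ i g = 1) ∧
      (∀ g : U, (g : P) ∈ G → χ g = 1) ∧
      (∀ i, ∀ V : Subgroup P, IsOpen (V : Set P) →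
        ∀ B : Subalgebra K (Matrix (Fin (d i)) (Fin (d i)) K),
          (∀ g : U, (g : P) ∈ V → ∀ b ∈ B,
            (σ i g : Matrix (Fin (d i)) (Fin (d i)) K) * b *
              (σ i g⁻¹ : Matrix (Fin (d i)) (Fin (d i)) K) ∈ B) →
          B = ⊥ ∨ B = ⊤) ∧
      ∃ J : (Fin r → K) →ₗ[K] (Fin s × (∀ i, Fin (d i)) → K),
        (∀ w, (∀ x : P, J ((ρ x : Matrix (Fin r) (Fin r) K) *ᵥ w) = 0) → w = 0) ∧
        ∀ (g : U) (w : Fin r → K) (a : Fin s) (p : ∀ i, Fin (d i)),
          J ((ρ g : Matrix (Fin r) (Fin r) K) *ᵥ w) (a, p) =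
            (χ g : K) * ∑ b, ∑ q, π g a b *
              (∏ i, (σ i g : Matrix (Fin (d i)) (Fin (d i)) K) (p i) (q i)) * J w (b, q) := by
  classical
  have hNo : IsOpen ((W ⊓ ⨅ j, Subgroup.normalizer (L j : Set P) : Subgroup P) : Set P) := by
    rw [Subgroup.coe_inf, Subgroup.coe_iInf]
    exact hWo.inter (isOpen_iInter_of_finite hL)
  obtain ⟨U₀, hU₀N, hU₀o, hU₀n⟩ := exists_normal hNo
  have hU₀W : U₀ ≤ W := hU₀N.trans inf_le_left
  have hU₀L : ∀ j, ∀ g ∈ U₀, ∀ x ∈ L j, g * x * g⁻¹ ∈ L j := fun j g hg x hx =>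
    (Subgroup.mem_normalizer_iff.1 (Subgroup.mem_iInf.1 (hU₀N hg).2 j) x).1 hx
  set N : Subgroup P := solvSer (W ⊓ ⨅ j, L j) k with hN
  have hNU₀ : ∀ v ∈ U₀, ∀ x ∈ N, v * x * v⁻¹ ∈ N := by
    intro v hv
    refine solvSer_conj (H := W ⊓ ⨅ j, L j) (v := v) (fun x hx => Subgroup.mem_inf.2 ⟨?_, ?_⟩) k
    · exact W.mul_mem (W.mul_mem (hU₀W hv) hx.1) (W.inv_mem (hU₀W hv))
    · exact Subgroup.mem_iInf.2 fun j => hU₀L j v hv x (Subgroup.mem_iInf.1 hx.2 j)
  have hρrep : RepOn U₀ (fun g : P => (ρ g : Matrix (Fin r) (Fin r) K)) :=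
    ⟨by rw [map_one, Units.val_one], fun u _ v _ => by rw [map_mul, Units.val_mul],
      (Units.continuous_val.comp hρ).continuousOn⟩
  obtain ⟨U, hUU₀, hUo, hUn, k', hk', M, X, hM, hMN, hXli, hMirr, hact⟩ := homrep hU₀o hU₀n
    (repOn_mono hπ hU₀W) hρrep hNU₀ hX₀ (fun g hg => hX g hg.1)
  have hUc : CompactSpace ↥U :=
    isCompact_iff_compactSpace.1 (U.isClosed_of_isOpen hUo).isCompact
  obtain ⟨M', hM'c, hM'⟩ := exists_unitsHom (U := U) continuous_inv hM.one hM.mul hM.cont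
  obtain ⟨V, hVo, hVn, n, d, f, hf, hdvd, χ, hχ1, hχmul, hχ0, hχc, ⟨J', hJ', hJ'act⟩, hker, -⟩ :=
    prime_main hk' M' hM'c (fun Y hY => hMirr U le_rfl hUo Y fun v hv y hy => by
      have := hY ⟨v, hv⟩ y hy
      rwa [hM'] at this)
  have hpos : ∀ i, 0 < d i := fun i => by have := (hf i).1; omega
  -- `J'` is bijective
  have hJ'surj : Function.Surjective J' := by
    rw [← LinearMap.range_eq_top]
    rcases hMirr (V.map U.subtype) (by rintro _ ⟨v, -, rfl⟩; exact v.2)
      (isOpen_map_subtype hUo hVo) (LinearMap.range J') (by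
        rintro _ ⟨v, hv, rfl⟩ _ ⟨z, rfl⟩
        have h1 := hJ'act v hv z
        rw [hM'] at h1
        exact ⟨_, h1.symm⟩) with h | h
    · exfalso
      let q₀ : ∀ i, Fin (d i) := fun i => ⟨0, hpos i⟩
      have h1 : J' (Pi.single q₀ 1) = 0 := by
        have h2 : J' (Pi.single q₀ 1) ∈ LinearMap.range J' := ⟨_, rfl⟩
        rwa [h, Submodule.mem_bot] at h2
      have h2 : (Pi.single q₀ 1 : (∀ i, Fin (d i)) → K) = 0 := by
        apply hJ'
        rw [h1, map_zero]
      have h3 := congrFun h2 q₀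
      rw [Pi.single_eq_same, Pi.zero_apply] at h3
      exact one_ne_zero h3
    · exact h
  obtain ⟨Q, hQJ, hJQ⟩ : ∃ Q : (Fin k' → K) →ₗ[K] ((∀ i, Fin (d i)) → K),
      (∀ z, Q (J' z) = z) ∧ ∀ y, J' (Q y) = y := by
    let e := LinearEquiv.ofBijective J' ⟨hJ', hJ'surj⟩
    exact ⟨e.symm, fun z => e.symm_apply_apply z, fun y => e.apply_symm_apply y⟩
  have hQact : ∀ v ∈ V, ∀ y, Q (M v *ᵥ y) = χ v • ((tens fun i => f i v) *ᵥ Q y) := by
    intro v hv y
    have h1 := hJ'act v hv (Q y)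
    rw [hJQ, hM'] at h1
    rw [h1, hQJ]
  -- kernels
  have hkers : ∀ i, ∃ j, ∃ V' : Subgroup ↥U, V' ≤ V ∧ IsOpen (V' : Set ↥U) ∧
      ∀ x ∈ (L j).subgroupOf U ⊓ V', f i x = 1 := by
    intro i
    refine kernels (hf i).1 hVo (hf i).2.1 (hf i).2.2 (fun j => (L j).subgroupOf U)
      (W := (⊤ : Subgroup ↥U)) (by simp) (fun j g _ x hx => ?_)
      (V₁ := (⊤ : Subgroup ↥U)) (by simp) k (fun g hg hgV => ?_)
    · rw [Subgroup.mem_subgroupOf] at hx ⊢
      exact hU₀L j g (hUU₀ g.2) x hx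
    · refine ⟨1, ?_⟩
      rw [one_smul]
      refine hker g hgV ?_ i
      have h1 : (g : P) ∈ (solvSer (⊤ ⊓ ⨅ j, (L j).subgroupOf U) k).map U.subtype :=
        ⟨g, hg, rfl⟩
      rw [solvSer_map] at h1
      have h2 : (g : P) ∈ N := by
        refine solvSer_mono ?_ k h1
        rintro _ ⟨y, hy, rfl⟩
        exact Subgroup.mem_inf.2 ⟨hU₀W (hUU₀ y.2), Subgroup.mem_iInf.2 fun j =>
          Subgroup.mem_subgroupOf.1 (Subgroup.mem_iInf.1 hy.2 j)⟩
      ext1
      rw [hM', hMN g ⟨h2, g.2⟩, Units.val_one]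
  choose jj V' hV'V hV'o hV' using hkers
  -- the character
  obtain ⟨V₃, hV₃V, hV₃o, -, hV₃⟩ : ∃ V₃ : Subgroup ↥U, V₃ ≤ V ∧ IsOpen (V₃ : Set ↥U) ∧
      V₃.Normal ∧ ∀ v ∈ V₃, v ∈ {x : ↥U | (x : P) ∈ G} → χ v = χ 1 := by
    refine exists_const hVo hχc _ ?_
    have hc : ∀ u ∈ V.map U.subtype, u ∈ U := by
      rintro _ ⟨v, -, rfl⟩
      exact v.2
    have hc' : ∀ (u : P) (hu : u ∈ V.map U.subtype), (⟨u, hc u hu⟩ : ↥U) ∈ V := by
      rintro _ ⟨v, hv, rfl⟩
      exact hv
    let ι : ↥(V.map U.subtype) →* ↥U := Subgroup.inclusion hc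
    have hιV : ∀ u, ι u ∈ V := fun u => hc' u u.2
    have hιc : Continuous ι := Continuous.subtype_mk continuous_subtype_val _
    obtain ⟨χ₁, hχ₁c, hχ₁⟩ := exists_unitsHom (U := V) (f := χ) continuous_inv hχ1 hχmul hχc
    let ι' : ↥(V.map U.subtype) →* ↥V := ι.codRestrict V hιV
    have hι'c : Continuous ι' := hιc.subtype_mk _
    obtain ⟨m₀, hm₀, hm₀'⟩ := hG (V.map U.subtype) (isOpen_map_subtype hUo hVo) (χ₁.comp ι')
      (hχ₁c.comp hι'c)
    refine (finite_roots (K := K) hm₀).subset ?_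
    rintro _ ⟨x, ⟨hxG, hxV⟩, rfl⟩
    have h1 := hm₀' ⟨(x : P), ⟨x, hxV, rfl⟩⟩ hxG
    have h2 := congrArg (Units.val) h1
    rw [Units.val_pow_eq_pow_val, Units.val_one, MonoidHom.comp_apply, hχ₁] at h2
    exact h2
  -- the final subgroup
  have hfo : IsOpen ((V₃ ⊓ ⨅ i, V' i : Subgroup ↥U) : Set ↥U) := by
    rw [Subgroup.coe_inf, Subgroup.coe_iInf]
    exact hV₃o.inter (isOpen_iInter_of_finite hV'o)
  obtain ⟨T, hTle, hTo, hTn⟩ := exists_normal (isOpen_map_subtype hUo hfo)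
  have hTU : T ≤ U := by
    intro x hx
    obtain ⟨v, -, rfl⟩ := hTle hx
    exact v.2
  let inc : ↥T →* ↥U := Subgroup.inclusion hTU
  have hincc : Continuous inc := Continuous.subtype_mk continuous_subtype_val _
  have hincv : ∀ g : ↥T, ((inc g : ↥U) : P) = g := fun _ => rfl
  have hinc : ∀ g : ↥T, inc g ∈ V₃ ⊓ ⨅ i, V' i := by
    intro g
    obtain ⟨v, hv, hvg⟩ := hTle g.2
    have h1 : inc g = v := Subtype.ext hvg.symm
    rw [h1]
    exact hv
  have hincV : ∀ g, inc g ∈ V := fun g => hV₃V (hinc g).1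
  refine ⟨T, n, d, fun i =>
    { toFun := fun g => ⟨f i (inc g), (hf i).2.1.det _ (hincV g)⟩
      map_one' := Subtype.ext (show f i (inc 1) = 1 by rw [map_one]; exact (hf i).2.1.rep.one)
      map_mul' := fun a b => Subtype.ext (show f i (inc (a * b)) = f i (inc a) * f i (inc b) by
        rw [map_mul]; exact (hf i).2.1.rep.mul _ (hincV a) _ (hincV b)) }, ?_⟩
  obtain ⟨χ₁, hχ₁c, hχ₁⟩ := exists_unitsHom (U := V) (f := χ) continuous_inv hχ1 hχmul hχc
  let inc' : ↥T →* ↥V := inc.codRestrict V hincV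
  have hinc'c : Continuous inc' := hincc.subtype_mk _
  have hχ₂ : ∀ g, ((χ₁.comp inc') g : K) = χ (inc g) := fun g => hχ₁ _
  refine ⟨χ₁.comp inc', hTU.trans (hUU₀.trans hU₀W), hTo, hTn, fun i => ⟨(hf i).1, ?_⟩,
    hχ₁c.comp hinc'c, ?_, fun i => ⟨jj i, fun g hg => ?_⟩, fun g hg => ?_,
    fun i R hR B hB => ?_, ?_⟩
  · have h1 : Continuous (fun v : ↥V => f i v) := (hf i).2.1.rep.cont.domRestrict
    exact (h1.comp hinc'c).subtype_mk _
  · have h1 : k' ≤ r * s := by
      have h2 := hXli.fintype_card_le_finrank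
      rw [Fintype.card_fin, Module.finrank_matrix, Module.finrank_self, mul_one,
        Fintype.card_fin, Fintype.card_fin, mul_comm] at h2
      exact h2
    exact (Nat.le_of_dvd hk' hdvd).trans h1
  · exact Subtype.ext (hV' i (inc g) (Subgroup.mem_inf.2
      ⟨Subgroup.mem_subgroupOf.2 hg, Subgroup.mem_iInf.1 (hinc g).2 i⟩))
  · refine Units.ext ?_
    rw [hχ₂, hV₃ _ (hinc g).1 hg, hχ1, Units.val_one]
  · refine sub_trivial (hpos i) hVo (hf i).2.1 (hf i).2.2 B (W := (R ⊓ T).subgroupOf U)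
      (isOpen_subgroupOf (by simpa using hR.inter hTo)) fun g hg b hb => ?_
    have hgT : (g : P) ∈ R ⊓ T := Subgroup.mem_subgroupOf.1 hg.2
    exact hB ⟨g, hgT.2⟩ hgT.1 b hb
  · let Jf : (Fin r → K) →ₗ[K] (Fin s × (∀ i, Fin (d i)) → K) :=
      { toFun := fun w q => Q (fun i => (X i *ᵥ w) q.1) q.2
        map_add' := fun w w' => by
          funext q
          have h1 : (fun i => (X i *ᵥ (w + w')) q.1) =
              (fun i => (X i *ᵥ w) q.1) + fun i => (X i *ᵥ w') q.1 := by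
            funext i
            rw [Matrix.mulVec_add]
            rfl
          rw [h1, map_add]
          rfl
        map_smul' := fun c w => by
          funext q
          have h1 : (fun i => (X i *ᵥ (c • w)) q.1) = c • fun i => (X i *ᵥ w) q.1 := by
            funext i
            rw [Matrix.mulVec_smul]
            rfl
          rw [h1, map_smul]
          rfl }
    have hJf : ∀ w a p, Jf w (a, p) = Q (fun i => (X i *ᵥ w) a) p := fun _ _ _ => rfl
    refine ⟨Jf, fun w hw => ?_, fun g w a p => ?_⟩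
    · -- injectivity
      let Z : Submodule K (Fin r → K) :=
        { carrier := {w | ∀ x : P, Jf ((ρ x : Matrix (Fin r) (Fin r) K) *ᵥ w) = 0}
          add_mem' := fun {a b} ha hb x => by rw [Matrix.mulVec_add, map_add, ha x, hb x, add_zero]
          zero_mem' := fun x => by rw [Matrix.mulVec_zero, map_zero]
          smul_mem' := fun c a ha x => by rw [Matrix.mulVec_smul, map_smul, ha x, smul_zero] }
      have hZst : ∀ g, ∀ w ∈ Z, (ρ g : Matrix (Fin r) (Fin r) K) *ᵥ w ∈ Z := by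
        intro g w hw x
        have h1 := hw (x * g)
        rwa [map_mul, Units.val_mul, ← Matrix.mulVec_mulVec] at h1
      rcases hirr Z hZst with h | h
      · have h1 : w ∈ Z := hw
        rwa [h, Submodule.mem_bot] at h1
      · exfalso
        have h1 : ∀ w, Jf w = 0 := by
          intro w
          have h2 : w ∈ Z := by rw [h]; exact Submodule.mem_top
          have h3 := h2 1
          rwa [map_one, Units.val_one, Matrix.one_mulVec] at h3
        have h2 : ∀ w a, (fun i => (X i *ᵥ w) a) = (0 : Fin k' → K) := by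
          intro w a
          have h3 : Q (fun i => (X i *ᵥ w) a) = 0 := by
            funext p
            rw [← hJf, h1]
            rfl
          rw [← hJQ (fun i => (X i *ᵥ w) a), h3, map_zero]
        have h3 : X ⟨0, hk'⟩ = 0 := by
          refine Matrix.ext_of_mulVec_single fun q => ?_
          funext a
          rw [congrFun (h2 (Pi.single q 1) a) ⟨0, hk'⟩, Matrix.zero_mulVec]
          rfl
        exact hXli.ne_zero _ h3
    · have hgU : (g : P) ∈ U := hTU g.2
      have h1 : (fun i => (X i *ᵥ ((ρ g : Matrix (Fin r) (Fin r) K) *ᵥ w)) a) =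
          ∑ b, π g a b • (M g *ᵥ fun l => (X l *ᵥ w) b) := by
        funext i
        rw [Matrix.mulVec_mulVec, hact g hgU i, Matrix.sum_mulVec, Finset.sum_apply,
          Finset.sum_apply]
        have h2 : ∀ l, ((M g i l • (π g * X l)) *ᵥ w) a =
            ∑ b, M g i l * (π g a b * (X l *ᵥ w) b) := by
          intro l
          rw [Matrix.smul_mulVec, ← Matrix.mulVec_mulVec, Pi.smul_apply, smul_eq_mul,
            ← Finset.mul_sum]
          rfl
        simp only [h2]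
        rw [Finset.sum_comm]
        refine Finset.sum_congr rfl fun b _ => ?_
        rw [Pi.smul_apply, smul_eq_mul]
        show _ = π g a b * ∑ l, M g i l * (X l *ᵥ w) b
        rw [Finset.mul_sum]
        exact Finset.sum_congr rfl fun l _ => by ring
      rw [hJf, h1, map_sum, Finset.sum_apply, hχ₂, Finset.mul_sum]
      refine Finset.sum_congr rfl fun b _ => ?_
      have h3 := hQact (inc g) (hincV g) (fun l => (X l *ᵥ w) b)
      rw [hincv] at h3
      rw [map_smul, h3, Pi.smul_apply, Pi.smul_apply, smul_eq_mul, smul_eq_mul]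
      show _ * (_ * ∑ q, (∏ i, f i (inc g) (p i) (q i)) * Q (fun l => (X l *ᵥ w) b) q) = _
      rw [Finset.mul_sum, Finset.mul_sum, Finset.mul_sum]
      refine Finset.sum_congr rfl fun q _ => ?_
      rw [hJf]
      show _ = χ (inc g) * (π g a b * (∏ i, f i (inc g) (p i) (q i)) *
        Q (fun l => (X l *ᵥ w) b) q)
      ring

end Pool.Agent.GeoOrig
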