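import Pool.Agent.Lib.GeoOrig.Defs

/-!
# Module WED: matrix units in a semisimple algebra of matrices
-/

namespace Pool.Agent.GeoOrig

open Matrix

variable {K : Type*} [NontriviallyNormedField K]

private theorem wed_stable {r : ℕ} {S : Set (Matrix (Fin r) (Fin r) K)}
    {W : Submodule K (Fin r → K)} (h : ∀ A ∈ S, ∀ w ∈ W, A *ᵥ w ∈ W)
    {b : Matrix (Fin r) (Fin r) K} (hb : b ∈ Submodule.span K S) : ∀ w ∈ W, b *ᵥ w ∈ W := by
  intro w hw
  induction hb using Submodule.span_induction with
  | mem x hx => exact h x hx w hw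
  | zero => rw [Matrix.zero_mulVec]; exact W.zero_mem
  | add x y _ _ hx hy => rw [Matrix.add_mulVec]; exact W.add_mem hx hy
  | smul c x _ hx => rw [Matrix.smul_mulVec]; exact W.smul_mem c hx

private theorem wed_semisimple_module {r : ℕ} (B : Subalgebra K (Matrix (Fin r) (Fin r) K))
    {S : Set (Matrix (Fin r) (Fin r) K)} (hB : ∀ b, b ∈ B ↔ b ∈ Submodule.span K S)
    (hss : SSOn S) : IsSemisimpleModule B (Fin r → K) := by
  refine { exists_isCompl := fun W => ?_ }
  have hsm : ∀ (b : B) (w : Fin r → K), b • w = (b : Matrix (Fin r) (Fin r) K) *ᵥ w :=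
    fun _ _ => rfl
  let W₀ : Submodule K (Fin r → K) :=
    { carrier := {w | w ∈ W}
      add_mem' := fun hx hy => W.add_mem hx hy
      zero_mem' := W.zero_mem
      smul_mem' := fun c w hw => by
        have h1 : c • w = (algebraMap K B c) • w := by
          rw [hsm]
          show c • w = (algebraMap K (Matrix (Fin r) (Fin r) K) c) *ᵥ w
          rw [Algebra.algebraMap_eq_smul_one, Matrix.smul_mulVec, Matrix.one_mulVec]
        show c • w ∈ W
        rw [h1]
        exact W.smul_mem _ hw }
  obtain ⟨W₁, hW₁, hc⟩ := hss W₀ (by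
    intro A hA w hw
    have hAB : A ∈ B := (hB A).2 (Submodule.subset_span hA)
    show A *ᵥ w ∈ W
    have := W.smul_mem (⟨A, hAB⟩ : B) hw
    exact this)
  let W' : Submodule B (Fin r → K) :=
    { carrier := {w | w ∈ W₁}
      add_mem' := fun hx hy => W₁.add_mem hx hy
      zero_mem' := W₁.zero_mem
      smul_mem' := fun b w hw => wed_stable hW₁ ((hB b).1 b.2) w hw }
  refine ⟨W', ?_, ?_⟩
  · rw [Submodule.disjoint_def]
    intro x hx hx'
    exact (Submodule.disjoint_def.1 hc.disjoint) x hx hx'
  · rw [Submodule.codisjoint_iff_exists_add_eq]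
    intro z
    obtain ⟨y, x, hy, hx, hxy⟩ := (Submodule.codisjoint_iff_exists_add_eq.1 hc.codisjoint) z
    exact ⟨y, x, hy, hx, hxy⟩

private theorem wed_semisimple_ring {r : ℕ} (B : Subalgebra K (Matrix (Fin r) (Fin r) K))
    (h : IsSemisimpleModule B (Fin r → K)) : IsSemisimpleRing B := by
  let f : B →ₗ[B] (Fin r → (Fin r → K)) :=
    { toFun := fun b i => b • (Pi.single i (1:K) : Fin r → K)
      map_add' := fun b c => by
        funext i
        rw [Pi.add_apply, add_smul]
      map_smul' := fun b c => by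
        funext i
        rw [RingHom.id_apply, Pi.smul_apply, smul_eq_mul, mul_smul] }
  have hf : Function.Injective f := by
    intro b c hbc
    apply Subtype.ext
    ext i j
    have h1 := congrFun (congrFun hbc j) i
    have h2 : ∀ b : B, f b j i = (b : Matrix (Fin r) (Fin r) K) i j := by
      intro b
      show ((b : Matrix (Fin r) (Fin r) K) *ᵥ (Pi.single j (1:K) : Fin r → K)) i = _
      rw [Matrix.mulVec_single_one, Matrix.col_apply]
    rw [h2, h2] at h1
    exact h1
  exact IsSemisimpleModule.of_injective f hf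

private theorem wed_scalar {d : ℕ} {M : Matrix (Fin d) (Fin d) K} (hM : M * M = M)
    (hc : ∀ N : Matrix (Fin d) (Fin d) K, M * N = N * M) : M = 0 ∨ M = 1 := by
  have h1 : M ∈ Set.range (Matrix.scalar (Fin d)) :=
    Matrix.mem_range_scalar_of_commute_single fun i j _ => (hc (Matrix.single i j 1)).symm
  obtain ⟨c, rfl⟩ := h1
  rcases Nat.eq_zero_or_pos d with h0 | h0
  · left
    subst h0
    ext i
    exact i.elim0
  · have h2 : c * c = c := by
      have h3 := congrFun (congrFun hM ⟨0, h0⟩) ⟨0, h0⟩
      rw [← map_mul, Matrix.scalar_apply, Matrix.scalar_apply, Matrix.diagonal_apply_eq,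
        Matrix.diagonal_apply_eq] at h3
      exact h3
    rcases IsIdempotentElem.iff_eq_zero_or_one.1 h2 with h3 | h3
    · left
      rw [h3, map_zero]
    · right
      rw [h3, map_one]

/-- Let `S` be a multiplicatively closed set of matrices containing `1` and acting semisimply on
`K ^ r`, `B` its span. Then `B` is a semisimple algebra, so a product of matrix algebras
(`IsSemisimpleRing.exists_algEquiv_pi_matrix_of_isAlgClosed`); `E` is a system of matrix units of
one of the factors, and `B` has only finitely many central idempotents.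

Proof: `K ^ r` is a semisimple module over the subalgebra `B` by `SSOn`, and `B` embeds into
`(K ^ r) ^ r` as a `B`-module (columns), so `B` is a semisimple ring. Transport along
`B ≃ Π i, Matrix (Fin (d i)) (Fin (d i)) K`: `E i j` corresponds to `Pi.single i₀ (single i j 1)`;
a central idempotent corresponds to a tuple of scalars which are `0` or `1`. -/
theorem wedderburn [IsAlgClosed K] {r : ℕ} (hr : 0 < r) (S : Set (Matrix (Fin r) (Fin r) K))
    (h1 : (1 : Matrix (Fin r) (Fin r) K) ∈ S) (hmul : ∀ a ∈ S, ∀ b ∈ S, a * b ∈ S)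
    (hss : SSOn S) :
    ∃ (d : ℕ) (E : Fin d → Fin d → Matrix (Fin r) (Fin r) K), 0 < d ∧ MatUnits E ∧
      (∀ i, E i i ≠ 0) ∧ (∀ i j, E i j ∈ Submodule.span K S) ∧
      (∀ b ∈ Submodule.span K S, b * unitOf E = unitOf E * b) ∧
      (∀ b ∈ Submodule.span K S, ∃ T : Matrix (Fin d) (Fin d) K, b * unitOf E = comb E T) ∧
      {z : Matrix (Fin r) (Fin r) K | z ∈ Submodule.span K S ∧ z * z = z ∧
        ∀ b ∈ Submodule.span K S, z * b = b * z}.Finite := by
  classical
  obtain ⟨B, hB⟩ : ∃ B : Subalgebra K (Matrix (Fin r) (Fin r) K),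
      ∀ b, b ∈ B ↔ b ∈ Submodule.span K S := by
    refine ⟨Algebra.adjoin K S, fun b => ?_⟩
    let M : Submonoid (Matrix (Fin r) (Fin r) K) :=
      { carrier := S
        one_mem' := h1
        mul_mem' := fun {a b} ha hb => hmul a ha b hb }
    have h2 : Submonoid.closure S = M := Submonoid.closure_eq M
    have h3 := Algebra.adjoin_eq_span K S
    rw [h2] at h3
    rw [← Subalgebra.mem_toSubmodule, h3]
    rfl
  have hV := wed_semisimple_module B hB hss
  have hR := wed_semisimple_ring B hV
  obtain ⟨n, d, hd, ⟨e⟩⟩ := IsSemisimpleRing.exists_algEquiv_pi_matrix_of_isAlgClosed K B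
  have hnontriv : Nontrivial B := by
    have : Nonempty (Fin r) := ⟨⟨0, hr⟩⟩
    have h2 : Nontrivial (Matrix (Fin r) (Fin r) K) := inferInstance
    infer_instance
  have hn : 0 < n := by
    rcases Nat.eq_zero_or_pos n with h0 | h0
    · exfalso
      subst h0
      have h2 : (e 1) = (e 0) := by
        funext i
        exact i.elim0
      exact one_ne_zero (e.injective h2)
    · exact h0
  obtain ⟨i₀⟩ : Nonempty (Fin n) := ⟨⟨0, hn⟩⟩
  -- the embedding of the factor
  let ι : Matrix (Fin (d i₀)) (Fin (d i₀)) K → Matrix (Fin r) (Fin r) K := fun M =>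
    ((e.symm (Pi.single i₀ M) : B) : Matrix (Fin r) (Fin r) K)
  have hι0 : ι 0 = 0 := by
    simp only [ι, Pi.single_zero, map_zero, ZeroMemClass.coe_zero]
  have hιadd : ∀ M N, ι (M + N) = ι M + ι N := by
    intro M N
    simp only [ι, Pi.single_add, map_add]
    rfl
  have hιsmul : ∀ (c : K) M, ι (c • M) = c • ι M := by
    intro c M
    have h2 : (Pi.single i₀ (c • M) : ∀ i, Matrix (Fin (d i)) (Fin (d i)) K) =
        c • Pi.single i₀ M := by
      funext i
      by_cases hi : i = i₀
      · subst hi
        simp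
      · simp [Pi.single_eq_of_ne hi]
    simp only [ι]
    rw [h2, map_smul]
    rfl
  have hιmul : ∀ M N, ι (M * N) = ι M * ι N := by
    intro M N
    simp only [ι, Pi.single_mul, map_mul]
    rfl
  have hιinj : ∀ M, ι M = 0 → M = 0 := by
    intro M hM
    have h2 : (e.symm (Pi.single i₀ M) : B) = 0 := Subtype.ext hM
    have h3 : (Pi.single i₀ M : ∀ i, Matrix (Fin (d i)) (Fin (d i)) K) = 0 := by
      have := congrArg e h2
      rwa [AlgEquiv.apply_symm_apply, map_zero] at this
    exact Pi.single_eq_zero_iff.1 h3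
  have hιsum : ∀ {α : Type} (s : Finset α) (f : α → Matrix (Fin (d i₀)) (Fin (d i₀)) K),
      ι (∑ i ∈ s, f i) = ∑ i ∈ s, ι (f i) := by
    intro α s f
    induction s using Finset.induction_on with
    | empty => simp only [Finset.sum_empty, hι0]
    | insert a s ha ih => rw [Finset.sum_insert ha, Finset.sum_insert ha, hιadd, ih]
  have hιB : ∀ M, ι M ∈ Submodule.span K S := fun M => (hB _).1 (e.symm (Pi.single i₀ M)).2
  have hpos : 0 < d i₀ := Nat.pos_of_ne_zero (hd i₀).out
  refine ⟨d i₀, fun i j => ι (Matrix.single i j 1), hpos, ?_, ?_, ?_, ?_, ?_, ?_⟩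
  · intro i j k l
    rw [← hιmul]
    split_ifs with hjk
    · subst hjk
      rw [Matrix.single_mul_single_same, mul_one]
    · rw [Matrix.single_mul_single_of_ne _ _ _ _ hjk, hι0]
  · intro i hi
    have h2 := hιinj _ hi
    have h3 := congrFun (congrFun h2 i) i
    rw [Matrix.single_apply_same, Matrix.zero_apply] at h3
    exact one_ne_zero h3
  · intro i j
    exact hιB _
  all_goals
    have hunit : unitOf (fun i j => ι (Matrix.single i j (1:K))) = ι 1 := by
      rw [unitOf, ← hιsum]
      congr 1
      ext i j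
      rw [Matrix.sum_apply]
      simp only [Matrix.single_apply, Matrix.one_apply]
      by_cases hij : i = j
      · subst hij
        rw [if_pos rfl, Finset.sum_eq_single i]
        · simp
        · intro b _ hb
          rw [if_neg (by tauto)]
        · intro hb
          exact absurd (Finset.mem_univ _) hb
      · rw [if_neg hij]
        refine Finset.sum_eq_zero fun b _ => ?_
        rw [if_neg]
        rintro ⟨rfl, rfl⟩
        exact hij rfl
  · intro b hb
    rw [hunit]
    obtain ⟨x, hx⟩ : ∃ x, ((e.symm x : B) : Matrix (Fin r) (Fin r) K) = b :=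
      ⟨e ⟨b, (hB b).2 hb⟩, by rw [AlgEquiv.symm_apply_apply]⟩
    rw [← hx]
    show ((e.symm x * e.symm (Pi.single i₀ 1) : B) : Matrix (Fin r) (Fin r) K) =
      ((e.symm (Pi.single i₀ 1) * e.symm x : B) : Matrix (Fin r) (Fin r) K)
    rw [← map_mul, ← map_mul]
    have h2 : x * Pi.single i₀ 1 = Pi.single i₀ 1 * x := by
      funext i
      by_cases hi : i = i₀
      · subst hi
        simp
      · simp [Pi.single_eq_of_ne hi]
    rw [h2]
  · intro b hb
    rw [hunit]
    obtain ⟨x, hx⟩ : ∃ x, ((e.symm x : B) : Matrix (Fin r) (Fin r) K) = b :=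
      ⟨e ⟨b, (hB b).2 hb⟩, by rw [AlgEquiv.symm_apply_apply]⟩
    refine ⟨x i₀, ?_⟩
    have h2 : comb (fun i j => ι (Matrix.single i j (1:K))) (x i₀) = ι (x i₀) := by
      rw [comb]
      have h3 : x i₀ = ∑ i, ∑ j, (x i₀ i j) • Matrix.single i j (1:K) := by
        conv_lhs => rw [Matrix.matrix_eq_sum_single (x i₀)]
        refine Finset.sum_congr rfl fun i _ => Finset.sum_congr rfl fun j _ => ?_
        rw [Matrix.smul_single, smul_eq_mul, mul_one]
      conv_rhs => rw [h3]
      rw [hιsum]
      refine Finset.sum_congr rfl fun i _ => ?_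
      rw [hιsum]
      refine Finset.sum_congr rfl fun j _ => ?_
      rw [hιsmul]
    rw [h2, ← hx]
    show ((e.symm x * e.symm (Pi.single i₀ 1) : B) : Matrix (Fin r) (Fin r) K) =
      ((e.symm (Pi.single i₀ (x i₀)) : B) : Matrix (Fin r) (Fin r) K)
    rw [← map_mul]
    have h3 : x * Pi.single i₀ 1 = Pi.single i₀ (x i₀) := by
      funext i
      by_cases hi : i = i₀
      · subst hi
        simp
      · simp [Pi.single_eq_of_ne hi]
    rw [h3]
  · let g : (Fin n → Bool) → Matrix (Fin r) (Fin r) K := fun s =>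
      ((e.symm (fun i => if s i then 1 else 0) : B) : Matrix (Fin r) (Fin r) K)
    refine Set.Finite.subset (Set.finite_range g) ?_
    rintro z ⟨hz, hzz, hzc⟩
    obtain ⟨x, hx⟩ : ∃ x, ((e.symm x : B) : Matrix (Fin r) (Fin r) K) = z :=
      ⟨e ⟨z, (hB z).2 hz⟩, by rw [AlgEquiv.symm_apply_apply]⟩
    have hxx : x * x = x := by
      apply e.symm.injective
      rw [map_mul]
      apply Subtype.ext
      show ((e.symm x : B) : Matrix (Fin r) (Fin r) K) * ((e.symm x : B) : Matrix (Fin r) (Fin r) K) =
        ((e.symm x : B) : Matrix (Fin r) (Fin r) K)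
      rw [hx, hzz]
    have hxc : ∀ y, x * y = y * x := by
      intro y
      apply e.symm.injective
      rw [map_mul, map_mul]
      apply Subtype.ext
      show ((e.symm x : B) : Matrix (Fin r) (Fin r) K) * ((e.symm y : B) : Matrix (Fin r) (Fin r) K) =
        ((e.symm y : B) : Matrix (Fin r) (Fin r) K) * ((e.symm x : B) : Matrix (Fin r) (Fin r) K)
      rw [hx]
      exact hzc _ ((hB _).1 (e.symm y).2)
    have h01 : ∀ i, x i = 0 ∨ x i = 1 := by
      intro i
      refine wed_scalar ?_ ?_
      · have := congrFun hxx i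
        rwa [Pi.mul_apply] at this
      · intro N
        have := congrFun (hxc (Pi.single i N)) i
        rwa [Pi.mul_apply, Pi.mul_apply, Pi.single_eq_same] at this
    refine ⟨fun i => decide (x i = 1), ?_⟩
    rw [← hx]
    show ((e.symm (fun i => if decide (x i = 1) then 1 else 0) : B) :
      Matrix (Fin r) (Fin r) K) = _
    congr 2
    funext i
    by_cases hi : x i = 1
    · simp [hi]
    · have h2 : x i = 0 := (h01 i).resolve_right hi
      simp only [hi, decide_false, h2]
      simp

end Pool.Agent.GeoOrig
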